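import Pool.Agent.Lib.MP_b6d339_lc.Mix.Defs

open Ordinal

namespace MPb6M

/-! # A1: ordinals -/

theorem sm_zero_left (b : Ordinal.{0}) : sm 0 b = b := by simp [sm]
theorem sm_zero_right (a : Ordinal.{0}) : sm a 0 = a := by
  unfold sm
  by_cases h : a = 0
  · simp [h]
  · simp [h]
theorem sm_comm (a b : Ordinal.{0}) : sm a b = sm b a := by
  unfold sm
  by_cases h : a = 0
  · by_cases h' : b = 0
    · simp [h, h']
    · simp [h, h']
  · by_cases h' : b = 0
    · simp [h, h']
    · rw [if_neg h, if_neg h', if_neg h', if_neg h, max_comm, min_comm]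

private theorem A1_sm_def {a b : Ordinal.{0}} (ha : a ≠ 0) (hb : b ≠ 0) :
    sm a b = max a b * max a b + min a b := by
  unfold sm
  rw [if_neg ha, if_neg hb]

private theorem A1_le_mul_self (m : Ordinal.{0}) : m ≤ m * m := by
  rcases eq_or_ne m 0 with h | h
  · simp [h]
  · have h1 : (1 : Ordinal.{0}) ≤ m := Order.one_le_iff_pos.2 (pos_iff_ne_zero.2 h)
    calc m = m * 1 := (mul_one m).symm
      _ ≤ m * m := mul_le_mul_right h1 m

/-- `M * M + m` with `m ≤ M` is strictly increasing in the lexicographic order of `(M, m)`: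
`M * M + m ≤ M * M + M < (M + 1) * (M + 1)` -/
theorem sm_lt_left {a a' : Ordinal.{0}} (b : Ordinal.{0}) (h : a' < a) : sm a' b < sm a b := by
  have ha : a ≠ 0 := (pos_of_gt h).ne'
  rcases eq_or_ne b 0 with hb | hb
  · rw [hb, sm_zero_right, sm_zero_right]; exact h
  rw [A1_sm_def ha hb]
  have hm : (0 : Ordinal.{0}) < min a b := lt_min (pos_iff_ne_zero.2 ha) (pos_iff_ne_zero.2 hb)
  have hlt : max a b * max a b < max a b * max a b + min a b := lt_add_of_pos_right _ hm
  rcases eq_or_ne a' 0 with ha' | ha'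
  · rw [ha', sm_zero_left]
    exact ((le_max_right a b).trans (A1_le_mul_self _)).trans_lt hlt
  rw [A1_sm_def ha' hb]
  have hM : max a' b ≤ max a b := max_le_max h.le le_rfl
  rcases hM.lt_or_eq with hM' | hM'
  · refine lt_of_le_of_lt ?_ hlt
    have h1 : max a' b * max a' b + min a' b ≤ max a' b * max a' b + max a' b :=
      add_le_add_right (min_le_max) _
    have h2 : max a' b * max a' b + max a' b = max a' b * (max a' b + 1) := by
      rw [mul_add, mul_one]
    have h3 : max a' b * (max a' b + 1) ≤ max a' b * max a b :=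
      mul_le_mul_right (Order.add_one_le_of_lt hM') _
    have h4 : max a' b * max a b ≤ max a b * max a b :=
      mul_le_mul_left hM _
    exact h1.trans (h2.le.trans (h3.trans h4))
  · have hab : a ≤ b := by
      by_contra hc
      push Not at hc
      rw [max_eq_left hc.le] at hM'
      rcases le_total a' b with h5 | h5
      · rw [max_eq_right h5] at hM'
        exact absurd hM' hc.ne
      · rw [max_eq_left h5] at hM'
        exact absurd hM' h.ne
    rw [hM', min_eq_left hab, min_eq_left (h.le.trans hab)]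
    exact (add_lt_add_iff_left _).2 h

theorem sm_lt_right {b b' : Ordinal.{0}} (a : Ordinal.{0}) (h : b' < b) : sm a b' < sm a b := by
  rw [sm_comm a b', sm_comm a b]
  exact sm_lt_left a h
theorem sm_le {a a' b b' : Ordinal.{0}} (h : a' ≤ a) (h' : b' ≤ b) : sm a' b' ≤ sm a b := by
  have h1 : sm a' b' ≤ sm a b' := by
    rcases h.lt_or_eq with h | h
    · exact (sm_lt_left b' h).le
    · rw [h]
  have h2 : sm a b' ≤ sm a b := by
    rcases h'.lt_or_eq with h' | h'
    · exact (sm_lt_right a h').le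
    · rw [h']
  exact h1.trans h2
theorem le_sm_left (a b : Ordinal.{0}) : a ≤ sm a b := by
  calc a = sm a 0 := (sm_zero_right a).symm
    _ ≤ sm a b := sm_le le_rfl zero_le
theorem le_sm_right (a b : Ordinal.{0}) : b ≤ sm a b := by
  rw [sm_comm]; exact le_sm_left b a
theorem Lim.pos {r : Ordinal.{0}} (hr : Lim r) : 0 < r := omega0_pos.trans_le hr.1
/-- use `1 < ω ≤ r`, `a + 1 ≤ 2 * a'`..: `max a b * 2 < r` gives closure under addition -/
theorem Lim.add {r a b : Ordinal.{0}} (hr : Lim r) (ha : a < r) (hb : b < r) : a + b < r := by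
  have hm : max a b < r := max_lt ha hb
  have h2 : (2 : Ordinal.{0}) < r := (natCast_lt_omega0 2).trans_le hr.1
  have h := hr.2 _ hm _ h2
  have h3 : a + b ≤ max a b + max a b := add_le_add (le_max_left a b) (le_max_right a b)
  rw [← Ordinal.mul_two] at h3
  exact h3.trans_lt h
theorem Lim.succ {r a : Ordinal.{0}} (hr : Lim r) (ha : a < r) : a + 1 < r :=
  hr.add ha (one_lt_omega0.trans_le hr.1)
theorem Lim.sm {r a b : Ordinal.{0}} (hr : Lim r) (ha : a < r) (hb : b < r) : sm a b < r := by
  unfold MPb6M.sm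
  split_ifs
  · exact hb
  · exact ha
  · exact hr.add (hr.2 _ (max_lt ha hb) _ (max_lt ha hb)) ((min_le_left a b).trans_lt ha)
theorem z_zero : z 0 = 0 := by simp [z]
theorem z_lt {a b : Ordinal.{0}} (h : a < b) : z a < z b := by
  have hb : b ≠ 0 := (pos_of_gt h).ne'
  unfold z
  rw [if_neg hb]
  split_ifs with ha
  · exact opow_pos _ omega0_pos
  · exact (opow_lt_opow_iff_right one_lt_omega0).2 ((opow_lt_opow_iff_right one_lt_omega0).2 h)
theorem z_le {a b : Ordinal.{0}} (h : a ≤ b) : z a ≤ z b := by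
  rcases h.lt_or_eq with h | h
  · exact (z_lt h).le
  · rw [h]
/-- `Ordinal.isPrincipal_mul_omega0_opow_opow` -/
theorem z_lim (a : Ordinal.{0}) : z a = 0 ∨ Lim (z a) := by
  unfold z
  split_ifs with ha
  · exact Or.inl rfl
  · right
    refine ⟨?_, fun x hx y hy => isPrincipal_mul_omega0_opow_opow a hx hy⟩
    calc ω = ω ^ (1 : Ordinal.{0}) := (opow_one ω).symm
      _ ≤ ω ^ ω ^ a := (opow_le_opow_iff_right one_lt_omega0).2
          (Order.one_le_iff_pos.2 (opow_pos _ omega0_pos))
private theorem A1_le_opow (a : Ordinal.{0}) : a ≤ ω ^ a := right_le_opow a one_lt_omega0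
theorem le_z (a : Ordinal.{0}) : a ≤ z a := by
  unfold z
  split_ifs with ha
  · exact ha.le
  · exact (A1_le_opow a).trans (A1_le_opow _)
private theorem A1_opow_lt {κ a : Ordinal.{0}} (hκ : ω ^ κ = κ) (h : a < κ) : ω ^ a < κ := by
  calc ω ^ a < ω ^ κ := (opow_lt_opow_iff_right one_lt_omega0).2 h
    _ = κ := hκ
private theorem A1_pos {κ : Ordinal.{0}} (hκ : ω ^ κ = κ) : 0 < κ := by
  rw [← hκ]; exact opow_pos _ omega0_pos
/-- closure of epsilon numbers -/
theorem z_lt_eps {κ a : Ordinal.{0}} (hκ : ω ^ κ = κ) (h : a < κ) : z a < κ := by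
  unfold z
  split_ifs with ha
  · exact A1_pos hκ
  · exact A1_opow_lt hκ (A1_opow_lt hκ h)
theorem z_eps {κ : Ordinal.{0}} (hκ : ω ^ κ = κ) : z κ = κ := by
  unfold z
  rw [if_neg (A1_pos hκ).ne', hκ, hκ]
theorem lim_eps {κ : Ordinal.{0}} (hκ : ω ^ κ = κ) : Lim κ := by
  have h := z_lim κ
  rw [z_eps hκ] at h
  exact h.resolve_left (A1_pos hκ).ne'

end MPb6M
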