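import Pool.Agent.Lib.MP_b6d339_lc.Mix.Defs

open Ordinal

namespace MPb6M

/-! # A2: lists, truncation, classes -/

private theorem A2_tr_nil (B : ℕ) : tr [] B = [] := rfl
private theorem A2_tr_cons_pos {a : ℕ} (x : List ℕ) {B : ℕ} (h : a ≤ B) :
    tr (a :: x) B = a :: tr x B := by
  simp [tr, h]
private theorem A2_tr_cons_neg {a : ℕ} (x : List ℕ) {B : ℕ} (h : B < a) :
    tr (a :: x) B = [] := by
  simp [tr, h]

theorem tr_prefix (x : List ℕ) (B : ℕ) : tr x B <+: x := List.takeWhile_prefix _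
theorem tr_le {x : List ℕ} {B n : ℕ} (h : n ∈ tr x B) : n ≤ B := by
  have := List.mem_takeWhile_imp h
  simpa using this
theorem mem_tr {x : List ℕ} (hx : x.Pairwise (· < ·)) {B n : ℕ} : n ∈ tr x B ↔ n ∈ x ∧ n ≤ B := by
  constructor
  · intro h
    exact ⟨(tr_prefix x B).subset h, tr_le h⟩
  · rintro ⟨h, hn⟩
    induction x with
    | nil => simp at h
    | cons a x ih =>
      rw [List.pairwise_cons] at hx
      by_cases ha : a ≤ B
      · rw [A2_tr_cons_pos x ha]
        rcases List.mem_cons.1 h with rfl | h'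
        · exact List.mem_cons_self
        · exact List.mem_cons_of_mem _ (ih hx.2 h')
      · exfalso
        rcases List.mem_cons.1 h with rfl | h'
        · exact ha hn
        · have := hx.1 n h'
          omega
theorem tr_self {x : List ℕ} {B : ℕ} (h : ∀ n ∈ x, n ≤ B) : tr x B = x := by
  induction x with
  | nil => rfl
  | cons a x ih =>
    rw [A2_tr_cons_pos x (h a List.mem_cons_self), ih (fun n hn => h n (List.mem_cons_of_mem _ hn))]
theorem tr_tr (x : List ℕ) {B B' : ℕ} (h : B ≤ B') : tr (tr x B') B = tr x B := by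
  induction x with
  | nil => rfl
  | cons a x ih =>
    by_cases ha : a ≤ B
    · rw [A2_tr_cons_pos x (ha.trans h), A2_tr_cons_pos _ ha, A2_tr_cons_pos _ ha, ih]
    · push Not at ha
      by_cases ha' : a ≤ B'
      · rw [A2_tr_cons_pos x ha', A2_tr_cons_neg _ ha, A2_tr_cons_neg _ ha]
      · push Not at ha'
        rw [A2_tr_cons_neg x ha', A2_tr_cons_neg x ha, A2_tr_nil]
theorem tr_append {e s : List ℕ} {B : ℕ} (he : ∀ n ∈ e, n ≤ B) (hs : ∀ n ∈ s, B < n) :
    tr (e ++ s) B = e := by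
  induction e with
  | nil =>
    cases s with
    | nil => rfl
    | cons a s => exact A2_tr_cons_neg s (hs a List.mem_cons_self)
  | cons a e ih =>
    rw [List.cons_append, A2_tr_cons_pos _ (he a List.mem_cons_self),
      ih (fun n hn => he n (List.mem_cons_of_mem _ hn))]
/-- the truncation at a later time -/
theorem tr_later {x : List ℕ} {B B' : ℕ} (h : B ≤ B') (hx : x.Pairwise (· < ·)) :
    ∃ s, tr x B' = tr x B ++ s ∧ (∀ n ∈ s, B < n ∧ n ≤ B') ∧ s.Pairwise (· < ·) := by
  induction x with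
  | nil => exact ⟨[], rfl, by simp, List.Pairwise.nil⟩
  | cons a x ih =>
    rw [List.pairwise_cons] at hx
    by_cases ha : a ≤ B
    · obtain ⟨s, h1, h2, h3⟩ := ih hx.2
      refine ⟨s, ?_, h2, h3⟩
      rw [A2_tr_cons_pos x (ha.trans h), A2_tr_cons_pos x ha, h1]
      rfl
    · push Not at ha
      refine ⟨tr (a :: x) B', ?_, ?_, ?_⟩
      · rw [A2_tr_cons_neg x ha]
        rfl
      · intro n hn
        refine ⟨?_, tr_le hn⟩
        rcases List.mem_cons.1 ((tr_prefix _ _).subset hn) with rfl | h'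
        · exact ha
        · exact ha.trans (hx.1 n h')
      · exact List.Pairwise.sublist (tr_prefix _ _).sublist (List.pairwise_cons.2 hx)
/-- if nothing of `x` lies in `(B, B']` -/
theorem tr_eq_of {x : List ℕ} (hx : x.Pairwise (· < ·)) {B B' : ℕ} (h : B ≤ B')
    (h2 : ∀ n ∈ x, B < n → B' < n) : tr x B' = tr x B := by
  obtain ⟨s, h1, h3, -⟩ := tr_later h hx
  cases s with
  | nil => rw [h1, List.append_nil]
  | cons a s =>
    exfalso
    have ha := h3 a List.mem_cons_self
    have hax : a ∈ x := by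
      apply (tr_prefix x B').subset
      rw [h1]
      simp
    have := h2 a hax ha.1
    omega
theorem lastN_mem {e s : List ℕ} (hs : s ≠ []) : lastN (e ++ s) ∈ s := by
  have hne : e ++ s ≠ [] := by simp [hs]
  have h1 : lastN (e ++ s) = (e ++ s).getLast hne := by
    unfold lastN
    rw [List.getLastD_eq_getLast?, List.getLast?_eq_getLast_of_ne_nil hne]
    rfl
  rw [h1, List.getLast_append_of_ne_nil hne hs]
  exact List.getLast_mem hs
theorem le_lastN {e s : List ℕ} (hs : s ≠ []) (h : (e ++ s).Pairwise (· < ·)) :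
    ∀ n ∈ e ++ s, n ≤ lastN (e ++ s) := by
  intro n hn
  have hne : e ++ s ≠ [] := by simp [hs]
  have h1 : lastN (e ++ s) = (e ++ s).getLast hne := by
    unfold lastN
    rw [List.getLastD_eq_getLast?, List.getLast?_eq_getLast_of_ne_nil hne]
    rfl
  rw [h1]
  have h2 := List.dropLast_append_getLast hne
  rw [← h2] at hn h
  rw [List.pairwise_append] at h
  rcases List.mem_append.1 hn with h3 | h3
  · exact le_of_lt (h.2.2 n h3 _ (by simp))
  · simp only [List.mem_singleton] at h3
    exact le_of_eq h3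

/-! ## refined classes -/

@[simp] theorem co_ci (j : ℕ) : co (ci j) = j := rfl
@[simp] theorem co_cf (f i : ℕ) : co (cf f i) = f := rfl

theorem co_mono {a b : Cl} (h : a ≤ b) : co a ≤ co b := by
  rcases Prod.Lex.le_iff.1 h with h1 | h1
  · exact h1.le
  · exact h1.1.le

theorem lt_of_co {a b : Cl} (h : co a < co b) : a < b := Prod.Lex.lt_iff.2 (Or.inl h)

theorem ci_lt {i j : ℕ} : ci i < ci j ↔ i < j := by
  constructor
  · intro h
    rcases Prod.Lex.lt_iff.1 h with h1 | h1
    · exact h1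
    · exact absurd h1.2 (lt_irrefl _)
  · exact fun h => lt_of_co h

theorem ci_le {i j : ℕ} : ci i ≤ ci j ↔ i ≤ j := by
  rw [← not_lt, ci_lt, not_lt]

theorem ci_lt_cf {j f i : ℕ} (h : j < f) : ci j < cf f i := lt_of_co h
theorem cf_lt_ci {j f i : ℕ} (h : f < j) : cf f i < ci j := lt_of_co h

theorem cf_lt_cf {f i f' i' : ℕ} : cf f i < cf f' i' ↔ f < f' ∨ (f = f' ∧ i' < i) := by
  constructor
  · intro h
    rcases Prod.Lex.lt_iff.1 h with h1 | h1
    · exact Or.inl h1
    · refine Or.inr ⟨h1.1, ?_⟩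
      have h2 : (-(i : ℤ)) < -(i' : ℤ) := h1.2
      omega
  · rintro (h | ⟨h1, h2⟩)
    · exact lt_of_co h
    · refine Prod.Lex.lt_iff.2 (Or.inr ⟨h1, ?_⟩)
      show (-(i : ℤ)) < -(i' : ℤ)
      omega

theorem ci_inj {i j : ℕ} (h : ci i = ci j) : i = j := congrArg co h

theorem cf_inj {f i f' i' : ℕ} (h : cf f i = cf f' i') : f = f' ∧ i = i' := by
  refine ⟨congrArg co h, ?_⟩
  have h2 : (-(i : ℤ)) = -(i' : ℤ) := congrArg (fun c : Cl => (ofLex c).2) h
  omega

variable {S : Sys}

theorem cls_pos (n : ℕ) : ci 0 < S.cls n := by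
  rcases S.cls_ok n with ⟨j, h1, h2, h⟩ | ⟨f, i, h1, h2, h⟩ | h
  · rw [h, ci_lt]; omega
  · rw [h]; exact ci_lt_cf (by omega)
  · rw [h, ci_lt]; omega

theorem cls_le (n : ℕ) : S.cls n ≤ ci (S.m + 1) := by
  have := S.hdm
  rcases S.cls_ok n with ⟨j, h1, h2, h⟩ | ⟨f, i, h1, h2, h⟩ | h
  · rw [h, ci_le]; omega
  · rw [h]; exact (cf_lt_ci (by omega)).le
  · rw [h]

theorem cl_nil : S.cl [] = ci 0 := rfl
theorem cl_cons (a : ℕ) (s : List ℕ) : S.cl (a :: s) = max (S.cls a) (S.cl s) := rfl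
theorem cl_ge (s : List ℕ) : ci 0 ≤ S.cl s := by
  cases s with
  | nil => exact le_rfl
  | cons a s => rw [cl_cons]; exact (cls_pos a).le.trans (le_max_left _ _)
theorem cl_append (s s' : List ℕ) : S.cl (s ++ s') = max (S.cl s) (S.cl s') := by
  induction s with
  | nil => rw [List.nil_append, cl_nil, max_eq_right (cl_ge s')]
  | cons a s ih => rw [List.cons_append, cl_cons, cl_cons, ih, max_assoc]
theorem cl_pos {s : List ℕ} (h : s ≠ []) : ci 0 < S.cl s := by
  cases s with
  | nil => exact absurd rfl h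
  | cons a s =>
    rw [cl_cons]
    exact (cls_pos a).trans_le (le_max_left _ _)
theorem cl_le (s : List ℕ) : S.cl s ≤ ci (S.m + 1) := by
  induction s with
  | nil => rw [cl_nil, ci_le]; exact Nat.zero_le _
  | cons a s ih =>
    rw [cl_cons]
    exact max_le (cls_le a) ih

/-- the class of a nonempty extension is the class of one of its numbers -/
theorem exists_cls {s : List ℕ} (h : s ≠ []) : ∃ n ∈ s, S.cl s = S.cls n := by
  induction s with
  | nil => exact absurd rfl h
  | cons a s ih =>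
    by_cases hs : s = []
    · subst hs
      refine ⟨a, by simp, ?_⟩
      rw [cl_cons, cl_nil, max_eq_left (cls_pos a).le]
    · obtain ⟨n, hn, h1⟩ := ih hs
      rw [cl_cons]
      rcases le_total (S.cls a) (S.cl s) with h2 | h2
      · exact ⟨n, List.mem_cons_of_mem _ hn, by rw [max_eq_right h2, h1]⟩
      · exact ⟨a, by simp, by rw [max_eq_left h2]⟩

theorem cl_cases {s : List ℕ} (h : s ≠ []) : (∃ j, 1 ≤ j ∧ j ≤ S.d ∧ S.cl s = ci j) ∨
    (∃ f i, S.d < f ∧ f ≤ S.m ∧ S.cl s = cf f i) ∨ S.cl s = ci (S.m + 1) := by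
  obtain ⟨n, _, h1⟩ := exists_cls (S := S) h
  rw [h1]
  exact S.cls_ok n

end MPb6M
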