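import Pool.Agent.Lib.MP_b6d339_lc.Mix.Defs
import Pool.Agent.Lib.MP_b6d339_lc.Mix.A1
import Pool.Agent.Lib.MP_b6d339_lc.Mix.A2

open Ordinal

namespace MPb6M

/-! # A3: requests and needs -/
variable {S : Sys}

theorem NLe.refl (a : Need) : S.NLe a a := ⟨fun _ _ _ => le_rfl, fun _ _ _ => subset_rfl⟩
theorem NLe.trans {a b c : Need} (h : S.NLe a b) (h' : S.NLe b c) : S.NLe a c :=
  ⟨fun j h1 h2 => (h.1 j h1 h2).trans (h'.1 j h1 h2),
    fun j h1 h2 => (h.2 j h1 h2).trans (h'.2 j h1 h2)⟩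

theorem Req.mono {a b : Need} {ρ : Rq} (h : S.NLe a b) (hr : S.Req a ρ) : S.Req b ρ := by
  rcases hr with ⟨j, a', hg, ho, h1, h2, h3, h4, h5, h6⟩ | ⟨f, i, a', hg, ho, h1, h2, h3, h4, h5, h6⟩ | hr
  · exact Or.inl ⟨j, a', hg, ho, h1, h2, h3.trans_le (h.1 j h1 h2),
      fun i hi hi' => (h4 i hi hi').trans (h.1 i (by omega) hi'), h5,
      fun f hf hf' => (h6 f hf hf').trans (h.2 f hf hf')⟩
  · exact Or.inr (Or.inl ⟨f, i, a', hg, ho, h1, h2, h.2 f h1 h2 h3, h4,
      h5.trans (Finset.filter_subset_filter _ (h.2 f h1 h2)),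
      fun k hk hk' => (h6 k hk hk').trans (h.2 k (by omega) hk')⟩)
  · exact Or.inr (Or.inr hr)

theorem Req.g_pos {a : Need} {ρ : Rq} (hr : S.Req a ρ) : ci 0 < ρ.g := by
  rcases hr with ⟨j, a', hg, ho, h1, _⟩ | ⟨f, i, a', hg, ho, h1, _⟩ | hr
  · rw [hg, ci_lt]; omega
  · rw [hg]; exact ci_lt_cf (by omega)
  · rw [hr.1, ci_lt]; omega

theorem Req.g_lt {a : Need} {ρ : Rq} (hr : S.Req a ρ) (h : ρ.o ≠ none) :
    ρ.g < ci (S.m + 1) := by
  have := S.hdm
  rcases hr with ⟨j, a', hg, ho, h1, h2, _⟩ | ⟨f, i, a', hg, ho, h1, h2, _⟩ | hr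
  · rw [hg, ci_lt]; omega
  · rw [hg]; exact cf_lt_ci (by omega)
  · exact absurd hr.2 h

theorem Req.g_le {a : Need} {ρ : Rq} (hr : S.Req a ρ) : ρ.g ≤ ci (S.m + 1) := by
  by_cases h : ρ.o = none
  · rcases hr with ⟨j, a', hg, ho, _⟩ | ⟨f, i, a', hg, ho, _⟩ | hr
    · rw [ho] at h; exact absurd h (by simp)
    · rw [ho] at h; exact absurd h (by simp)
    · exact hr.1.le
  · exact (Req.g_lt hr h).le

theorem Req.none_iff {a : Need} {ρ : Rq} (hr : S.Req a ρ) :
    ρ.o = none ↔ ρ.g = ci (S.m + 1) := by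
  constructor
  · intro h
    rcases hr with ⟨j, a', hg, ho, _⟩ | ⟨f, i, a', hg, ho, _⟩ | hr
    · rw [ho] at h; exact absurd h (by simp)
    · rw [ho] at h; exact absurd h (by simp)
    · exact hr.1
  · intro h
    by_contra h1
    exact absurd h (Req.g_lt hr h1).ne

theorem Adm.none_iff {ρ : Rq} {b : Option Need} (h : S.Adm ρ b) : b = none ↔ ρ.o = none := by
  rcases h with ⟨h1, h2⟩ | ⟨a', b', h1, h2, _⟩
  · exact ⟨fun _ => h1, fun _ => h2⟩
  · rw [h1, h2]
    simp

/-- an admissible need exists -/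
theorem exists_adm (ρ : Rq) : ∃ b, S.Adm ρ b := by
  rcases h : ρ.o with _ | a'
  · exact ⟨none, Or.inl ⟨h, rfl⟩⟩
  · refine ⟨some ⟨a'.o, fun k => if k < co ρ.g then Finset.range (ρ.n k) else a'.l k⟩,
      Or.inr ⟨a', _, h, rfl, rfl, ?_⟩⟩
    intro k _ _
    by_cases h3 : k < co ρ.g
    · rw [if_pos h3]
      simp only [if_pos h3]
      exact Finset.card_range _
    · rw [if_neg h3]
      simp only [if_neg h3]

/-- the request in the next level -/
noncomputable def zR (ρ : Rq) : Rq := ⟨ρ.g, ρ.o.map zN, ρ.n⟩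

/-- the function `z` applied to a move (uses `S.hz`, `z_lt`, `z_le`) -/
theorem Req.z {a : Need} {ρ : Rq} (hr : S.Req a ρ) : S.Req (zN a) (zR ρ) := by
  rcases hr with ⟨j, a', hg, ho, h1, h2, h3, h4, h5, h6⟩ | ⟨f, i, a', hg, ho, h1, h2, h3, h4, h5, h6⟩ | hr
  · refine Or.inl ⟨j, zN a', hg, by rw [zR, ho]; rfl, h1, h2, z_lt h3,
      fun i hi hi' => z_le (h4 i hi hi'), fun i hi hi' => S.hz i hi (by omega) _ (h5 i hi hi'), h6⟩
  · exact Or.inr (Or.inl ⟨f, i, zN a', hg, by rw [zR, ho]; rfl, h1, h2, h3,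
      fun j hj hj' => S.hz j hj hj' _ (h4 j hj hj'), h5, h6⟩)
  · refine Or.inr (Or.inr ⟨hr.1, ?_⟩)
    rw [zR, hr.2]
    rfl

theorem Adm.z {ρ : Rq} {b : Option Need} (h : S.Adm (zR ρ) b) :
    ∃ b0, S.Adm ρ b0 ∧ b = b0.map zN := by
  rcases h with ⟨h1, h2⟩ | ⟨a', b', h1, h2, h3, h4⟩
  · refine ⟨none, Or.inl ⟨?_, rfl⟩, h2⟩
    unfold zR at h1
    simpa using h1
  · unfold zR at h1
    simp only [Option.map_eq_some_iff] at h1
    obtain ⟨a0, h5, h6⟩ := h1
    subst h6
    refine ⟨some ⟨a0.o, b'.l⟩, Or.inr ⟨a0, _, h5, rfl, rfl, h4⟩, ?_⟩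
    rw [h2, Option.map_some]
    congr 1
    obtain ⟨bo, bl⟩ := b'
    simp only at h3
    rw [h3]
    rfl

/-- the coordinates of a need as ordinals -/
noncomputable def crd (S : Sys) (a : Need) (j : ℕ) : Ordinal.{0} :=
  if j ≤ S.d then a.o j else ((a.l j).card : Ordinal.{0})

/-- `a'` lies below `a` in the lexicographic sense (upper coordinates `≤`, coordinate `g` `<`) -/
def NLt (S : Sys) (a' a : Need) : Prop :=
  ∃ g, 1 ≤ g ∧ g ≤ S.m ∧ crd S a' g < crd S a g ∧ ∀ j, g < j → j ≤ S.m → crd S a' j ≤ crd S a j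

theorem crd_mono {a' a : Need} (h : S.NLe a' a) (j : ℕ) (h1 : 1 ≤ j) (h2 : j ≤ S.m) :
    crd S a' j ≤ crd S a j := by
  unfold crd
  split_ifs with h3
  · exact h.1 j h1 h3
  · exact_mod_cast Finset.card_le_card (h.2 j (by omega) h2)

theorem NLt.of_adm {a b : Need} {ρ : Rq} (hr : S.Req a ρ) (hb : S.Adm ρ (some b)) :
    NLt S b a := by
  have hdm := S.hdm
  rcases hb with ⟨_, h⟩ | ⟨a1, b', h1, h2, h3, h4⟩
  · exact absurd h (by simp)
  have hbb : b = b' := Option.some.inj h2
  subst hbb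
  rcases hr with ⟨j, a', hg, ho, g1, g2, g3, g4, g5, g6⟩ | ⟨f, i, a', hg, ho, g1, g2, g3, g4, g5, g6⟩ | hr
  · have haa : a1 = a' := Option.some.inj (h1.symm.trans ho)
    subst haa
    refine ⟨j, g1, by omega, ?_, ?_⟩
    · unfold crd
      rw [if_pos g2, if_pos g2, h3]
      exact g3
    · intro k hk hk'
      unfold crd
      split_ifs with h5
      · rw [h3]; exact g4 k hk h5
      · have := h4 k (by omega) hk'
        rw [if_neg (by rw [hg, co_ci]; omega)] at this
        rw [this]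
        exact_mod_cast Finset.card_le_card (g6 k (by omega) hk')
  · have haa : a1 = a' := Option.some.inj (h1.symm.trans ho)
    subst haa
    refine ⟨f, by omega, g2, ?_, ?_⟩
    · unfold crd
      rw [if_neg (by omega), if_neg (by omega)]
      have := h4 f g1 g2
      rw [if_neg (by rw [hg, co_cf]; omega)] at this
      rw [this]
      have h5 : (a1.l f).card < (a.l f).card := by
        apply Finset.card_lt_card
        refine Finset.ssubset_iff_of_subset (g5.trans (Finset.filter_subset _ _)) |>.2 ⟨i, g3, ?_⟩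
        intro h6
        have := (Finset.mem_filter.1 (g5 h6)).2
        omega
      exact_mod_cast h5
    · intro k hk hk'
      unfold crd
      rw [if_neg (by omega), if_neg (by omega)]
      have := h4 k (by omega) hk'
      rw [if_neg (by rw [hg, co_cf]; omega)] at this
      rw [this]
      exact_mod_cast Finset.card_le_card (g6 k hk hk')
  · rw [hr.2] at h1
    exact absurd h1 (by simp)

/-- the lexicographic relation on the first `d` coordinates -/
private def A3_R (d : ℕ) (a' a : ℕ → Ordinal.{0}) : Prop :=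
  ∃ g, 1 ≤ g ∧ g ≤ d ∧ a' g < a g ∧ ∀ j, g < j → j ≤ d → a' j ≤ a j

private theorem A3_R_wf (d : ℕ) : WellFounded (A3_R d) := by
  induction d with
  | zero =>
    refine ⟨fun a => Acc.intro a (fun b hb => ?_)⟩
    obtain ⟨g, h1, h2, _⟩ := hb
    omega
  | succ d ih =>
    have hlex : WellFounded (Prod.Lex (fun x y : Ordinal.{0} => x < y) (A3_R d)) :=
      WellFounded.prod_lex wellFounded_lt ih
    have hinv := InvImage.wf (fun a : ℕ → Ordinal.{0} => (a (d + 1), a)) hlex
    refine Subrelation.wf ?_ hinv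
    intro a' a h
    obtain ⟨g, h1, h2, h3, h4⟩ := h
    show Prod.Lex _ _ (a' (d + 1), a') (a (d + 1), a)
    rcases Nat.lt_or_ge g (d + 1) with hg | hg
    · have h5 := h4 (d + 1) hg le_rfl
      rcases lt_or_eq_of_le h5 with h6 | h6
      · exact Prod.Lex.left _ _ h6
      · rw [h6]
        exact Prod.Lex.right _ ⟨g, h1, by omega, h3, fun j hj hj' => h4 j hj (by omega)⟩
    · have : g = d + 1 := by omega
      subst this
      exact Prod.Lex.left _ _ h3

/-- a rank function: strictly monotone for `NLt`, monotone for `NLe`. -/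
theorem exists_rank (S : Sys) : ∃ rk : Need → Ordinal.{1},
    (∀ a' a, NLt S a' a → rk a' < rk a) ∧ ∀ a' a, S.NLe a' a → rk a' ≤ rk a := by
  have : IsWellFounded Need (NLt S) :=
    ⟨InvImage.wf (fun a : Need => crd S a) (A3_R_wf S.m)⟩
  refine ⟨IsWellFounded.rank (NLt S), fun a' a h => IsWellFounded.rank_lt_of_rel h, ?_⟩
  intro a' a h
  rw [IsWellFounded.rank_eq]
  apply Ordinal.iSup_le
  rintro ⟨b, hb⟩
  rw [Order.succ_le_iff]
  apply IsWellFounded.rank_lt_of_rel
  obtain ⟨g, h1, h2, h3, h4⟩ := hb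
  exact ⟨g, h1, h2, lt_of_lt_of_le h3 (crd_mono h g h1 h2), fun j hj hj' => (h4 j hj hj').trans
    (crd_mono h j (by omega) hj')⟩

/-- level of a refined class -/
def lvl (c : Cl) : ℕ := (-(ofLex c).2).toNat

@[simp] theorem lvl_cf (f i : ℕ) : lvl (cf f i) = i := by
  show (-(-(i : ℤ))).toNat = i
  simp

/-- a small need from which the request `ρ` is possible -/
noncomputable def up (ρ : Rq) : Need :=
  match ρ.o with
  | none => ⟨fun _ => 0, fun _ => ∅⟩
  | some a' => ⟨fun j => if co ρ.g < j then a'.o j else if j = co ρ.g then a'.o j + 1 else 0,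
      fun h => if co ρ.g < h then a'.l h else if h = co ρ.g then insert (lvl ρ.g) (a'.l h) else ∅⟩

theorem up_none {ρ : Rq} (h : ρ.o = none) : up ρ = ⟨fun _ => 0, fun _ => ∅⟩ := by
  unfold up; rw [h]

theorem up_some {ρ : Rq} {a' : Need} (h : ρ.o = some a') : up ρ =
    ⟨fun j => if co ρ.g < j then a'.o j else if j = co ρ.g then a'.o j + 1 else 0,
      fun h => if co ρ.g < h then a'.l h else if h = co ρ.g then insert (lvl ρ.g) (a'.l h) else ∅⟩ := by
  unfold up; rw [h]

theorem up_le {ρ : Rq} {θ : Need} (hr : S.Req θ ρ) : S.NLe (up ρ) θ := by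
  have hdm := S.hdm
  rcases hr with ⟨j, a', hg, ho, h1, h2, h3, h4, h5, h6⟩ | ⟨f, i, a', hg, ho, h1, h2, h3, h4, h5, h6⟩ | hr
  · have hc : co ρ.g = j := by rw [hg, co_ci]
    rw [up_some ho]
    refine ⟨fun k hk hk' => ?_, fun k hk hk' => ?_⟩
    · show (if co ρ.g < k then a'.o k else if k = co ρ.g then a'.o k + 1 else 0) ≤ θ.o k
      by_cases c1 : co ρ.g < k
      · rw [if_pos c1]
        exact h4 k (by omega) hk'
      · by_cases c2 : k = co ρ.g
        · rw [if_neg c1, if_pos c2]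
          have : k = j := by omega
          subst this
          exact Order.add_one_le_of_lt h3
        · rw [if_neg c1, if_neg c2]
          exact zero_le
    · show (if co ρ.g < k then a'.l k else if k = co ρ.g then insert (lvl ρ.g) (a'.l k) else ∅) ⊆ θ.l k
      rw [if_pos (by omega)]
      exact h6 k hk hk'
  · have hc : co ρ.g = f := by rw [hg, co_cf]
    have hl : lvl ρ.g = i := by rw [hg, lvl_cf]
    rw [up_some ho]
    refine ⟨fun k hk hk' => ?_, fun k hk hk' => ?_⟩
    · show (if co ρ.g < k then a'.o k else if k = co ρ.g then a'.o k + 1 else 0) ≤ θ.o k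
      rw [if_neg (by omega), if_neg (by omega)]
      exact zero_le
    · show (if co ρ.g < k then a'.l k else if k = co ρ.g then insert (lvl ρ.g) (a'.l k) else ∅) ⊆ θ.l k
      by_cases c1 : co ρ.g < k
      · rw [if_pos c1]
        exact h6 k (by omega) hk'
      · by_cases c2 : k = co ρ.g
        · rw [if_neg c1, if_pos c2, hl]
          have : k = f := by omega
          subst this
          exact Finset.insert_subset h3 (h5.trans (Finset.filter_subset _ _))
        · rw [if_neg c1, if_neg c2]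
          exact Finset.empty_subset _
  · rw [up_none hr.2]
    exact ⟨fun _ _ _ => zero_le, fun _ _ _ => Finset.empty_subset _⟩

theorem up_req {ρ : Rq} {θ : Need} (hr : S.Req θ ρ) : S.Req (up ρ) ρ := by
  have hdm := S.hdm
  rcases hr with ⟨j, a', hg, ho, h1, h2, h3, h4, h5, h6⟩ | ⟨f, i, a', hg, ho, h1, h2, h3, h4, h5, h6⟩ | hr
  · have hc : co ρ.g = j := by rw [hg, co_ci]
    refine Or.inl ⟨j, a', hg, ho, h1, h2, ?_, ?_, h5, ?_⟩
    · rw [up_some ho]
      show a'.o j < (if co ρ.g < j then a'.o j else if j = co ρ.g then a'.o j + 1 else 0)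
      rw [if_neg (by omega), if_pos (by omega)]
      exact Order.lt_add_one_iff.2 le_rfl
    · intro k hk hk'
      rw [up_some ho]
      show a'.o k ≤ (if co ρ.g < k then a'.o k else if k = co ρ.g then a'.o k + 1 else 0)
      rw [if_pos (by omega)]
    · intro k hk hk'
      rw [up_some ho]
      show a'.l k ⊆ (if co ρ.g < k then a'.l k else if k = co ρ.g then insert (lvl ρ.g) (a'.l k) else ∅)
      rw [if_pos (by omega)]
  · have hc : co ρ.g = f := by rw [hg, co_cf]
    have hl : lvl ρ.g = i := by rw [hg, lvl_cf]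
    have hf : (up ρ).l f = insert i (a'.l f) := by
      rw [up_some ho]
      show (if co ρ.g < f then a'.l f else if f = co ρ.g then insert (lvl ρ.g) (a'.l f) else ∅) = _
      rw [if_neg (by omega), if_pos (by omega), hl]
    refine Or.inr (Or.inl ⟨f, i, a', hg, ho, h1, h2, ?_, h4, ?_, ?_⟩)
    · rw [hf]
      exact Finset.mem_insert_self _ _
    · rw [hf]
      intro x hx
      rw [Finset.mem_filter]
      exact ⟨Finset.mem_insert_of_mem hx, (Finset.mem_filter.1 (h5 hx)).2⟩
    · intro k hk hk'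
      rw [up_some ho]
      show a'.l k ⊆ (if co ρ.g < k then a'.l k else if k = co ρ.g then insert (lvl ρ.g) (a'.l k) else ∅)
      rw [if_pos (by omega)]
  · exact Or.inr (Or.inr hr)

/-- below the class of the request everything is `0` -/
theorem up_low {ρ : Rq} {j : ℕ} (h : j < co ρ.g) : (up ρ).o j = 0 ∧ (up ρ).l j = ∅ := by
  rcases ho : ρ.o with _ | a'
  · rw [up_none ho]; exact ⟨rfl, rfl⟩
  · rw [up_some ho]
    constructor
    · show (if co ρ.g < j then a'.o j else if j = co ρ.g then a'.o j + 1 else 0) = 0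
      rw [if_neg (by omega), if_neg (by omega)]
    · show (if co ρ.g < j then a'.l j else if j = co ρ.g then insert (lvl ρ.g) (a'.l j) else ∅) = ∅
      rw [if_neg (by omega), if_neg (by omega)]

end MPb6M
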