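import Pool.Agent.Lib.MP_b6d339_lc.Mix.Defs
import Pool.Agent.Lib.MP_b6d339_lc.Mix.A1
import Pool.Agent.Lib.MP_b6d339_lc.Mix.A2
import Pool.Agent.Lib.MP_b6d339_lc.Mix.A3

open Ordinal

namespace MPb6M

/-! # A4: the game: unfolding, coinduction, monotonicity -/
variable {S : Sys}

theorem V_ok {k : ℕ} {t : St} (h : V S k t) : OK t := by
  cases k with
  | zero =>
    obtain ⟨𝒮, ht, h⟩ := h
    exact (h t ht).1
  | succ k =>
    obtain ⟨𝒮, ht, h⟩ := h
    exact (h t ht).1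

theorem V_step0 {t : St} (h : V S 0 t) {e : Nd} {a : Need} (he : (e, some a) ∈ t.P) {ρ : Rq}
    (hr : S.Req a ρ) (N : ℕ) :
    ∃ s b F', Ans S t e ρ.g N s ∧ S.Adm ρ b ∧ t.F ⊆ F' ∧
      V S 0 ⟨(e ++ s, b) :: t.P, lastN (e ++ s), F'⟩ := by
  obtain ⟨𝒮, ht, h⟩ := h
  obtain ⟨s, b, F', hA, hb, hF, _, hm⟩ := (h t ht).2 e a he ρ hr N
  exact ⟨s, b, F', hA, hb, hF, 𝒮, hm, h⟩

theorem V_step {k : ℕ} {t : St} (h : V S (k + 1) t) {e : Nd} {a : Need} (he : (e, some a) ∈ t.P)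
    {ρ : Rq} (hr : S.Req a ρ) (N : ℕ) :
    ∃ s b F', Ans S t e ρ.g N s ∧ S.Adm ρ b ∧ t.F ⊆ F' ∧
      Rm S (V S k) ((e ++ s, b) :: t.P) (lastN (e ++ s)) F' ∧
      V S (k + 1) ⟨(e ++ s, b) :: t.P, lastN (e ++ s), F'⟩ := by
  obtain ⟨𝒮, ht, h⟩ := h
  obtain ⟨s, b, F', hA, hb, hF, hR, hm⟩ := (h t ht).2 e a he ρ hr N
  exact ⟨s, b, F', hA, hb, hF, hR, 𝒮, hm, h⟩

/-- coinduction -/
theorem V_coind {k : ℕ} (𝒮 : Set St) (h : ∀ t ∈ 𝒮, OK t ∧ Stp S (Rm S (V S k)) 𝒮 t) {t : St}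
    (ht : t ∈ 𝒮) : V S (k + 1) t := ⟨𝒮, ht, h⟩

theorem V_coind0 (𝒮 : Set St) (h : ∀ t ∈ 𝒮, OK t ∧ Stp S (fun _ _ _ => True) 𝒮 t) {t : St}
    (ht : t ∈ 𝒮) : V S 0 t := ⟨𝒮, ht, h⟩

/-- the new state is well-formed -/
theorem WF_cons {P : List Tok} {B : ℕ} {F : Set Pr} (h : WFl S P B) {e : Nd} {a : Need}
    (he : (e, some a) ∈ P) {ρ : Rq} (hr : S.Req a ρ) {N : ℕ} {s : List ℕ}
    (hs : Ans S ⟨P, B, F⟩ e ρ.g N s) {b : Option Need} (hb : S.Adm ρ b) :
    WFl S ((e ++ s, b) :: P) (lastN (e ++ s)) := by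
  have hinc : (e ++ s).Pairwise (· < ·) := by
    rw [List.pairwise_append]
    refine ⟨h.inc _ he, hs.inc, fun n hn m hm => ?_⟩
    exact lt_of_le_of_lt (h.bd _ he n hn) (hs.big m hm).2
  have hlast : lastN (e ++ s) ∈ s := lastN_mem hs.ne
  have hB : B < lastN (e ++ s) := (hs.big _ hlast).2
  have hcle : S.cl e < ci (S.m + 1) := h.nl e a he
  have hcl : S.cl (e ++ s) = max (S.cl e) ρ.g := by rw [cl_append, hs.cl]
  refine ⟨?_, ?_, ?_, ?_, ?_, ?_⟩
  · have hnot : e ++ s ∉ nds P := by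
      intro hmem
      obtain ⟨t, ht, hte⟩ := List.mem_map.1 hmem
      have := h.bd t ht (lastN (e ++ s)) (by rw [hte]; exact List.mem_append_right _ hlast)
      omega
    exact List.nodup_cons.2 ⟨hnot, h.nd⟩
  · intro t ht
    rcases List.mem_cons.1 ht with rfl | ht
    · exact hinc
    · exact h.inc t ht
  · intro t ht n hn
    rcases List.mem_cons.1 ht with rfl | ht
    · exact le_lastN hs.ne hinc n hn
    · exact (h.bd t ht n hn).trans hB.le
  · intro t ht
    rcases List.mem_cons.1 ht with rfl | ht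
    · exact hs.val
    · exact h.val t ht
  · intro e' a' ht
    rcases List.mem_cons.1 ht with h1 | ht
    · have h2 : e' = e ++ s := congrArg Prod.fst h1
      have h3 : some a' = b := congrArg Prod.snd h1
      subst h2
      rw [hcl]
      refine max_lt hcle (Req.g_lt hr fun h4 => ?_)
      rw [← Adm.none_iff hb, ← h3] at h4
      exact absurd h4 (by simp)
    · exact h.nl e' a' ht
  · intro e' ht
    rcases List.mem_cons.1 ht with h1 | ht
    · have h2 : e' = e ++ s := congrArg Prod.fst h1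
      have h3 : none = b := congrArg Prod.snd h1
      subst h2
      rw [hcl, (Req.none_iff hr).1 ((Adm.none_iff hb).1 h3.symm)]
      exact max_eq_right hcle.le
    · exact h.lf e' ht

theorem WF_B {P : List Tok} {B B' : ℕ} (h : WFl S P B) (hB : B ≤ B') : WFl S P B' :=
  ⟨h.nd, h.inc, fun t ht n hn => (h.bd t ht n hn).trans hB, h.val, h.nl, h.lf⟩

theorem Less.refl (P : List Tok) : Less S P P :=
  ⟨fun _ a' h => ⟨a', h, NLe.refl _⟩, fun _ h => h⟩
theorem Less.trans {P P' P'' : List Tok} (h : Less S P P') (h' : Less S P' P'') :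
    Less S P P'' := by
  refine ⟨fun e a ha => ?_, fun e he => h'.2 e (h.2 e he)⟩
  obtain ⟨a1, h1, h2⟩ := h.1 e a ha
  obtain ⟨a2, h3, h4⟩ := h'.1 e a1 h1
  exact ⟨a2, h3, NLe.trans h2 h4⟩
theorem Less.of_subset {P P' : List Tok} (h : P' ⊆ P) : Less S P' P :=
  ⟨fun _ a' ha => ⟨a', h ha, NLe.refl _⟩, fun _ he => h he⟩
theorem Less.cons {P P' : List Tok} (h : Less S P' P) (t : Tok) : Less S (t :: P') (t :: P) := by
  refine ⟨fun e a ha => ?_, fun e he => ?_⟩
  · rcases List.mem_cons.1 ha with h1 | h1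
    · exact ⟨a, List.mem_cons.2 (Or.inl h1), NLe.refl _⟩
    · obtain ⟨a1, h2, h3⟩ := h.1 e a h1
      exact ⟨a1, List.mem_cons_of_mem _ h2, h3⟩
  · rcases List.mem_cons.1 he with h1 | h1
    · exact List.mem_cons.2 (Or.inl h1)
    · exact List.mem_cons_of_mem _ (h.2 e h1)
theorem Less.nds {P P' : List Tok} (h : Less S P' P) : ∀ e ∈ nds P', e ∈ nds P := by
  intro e he
  obtain ⟨⟨e', o⟩, ht, hte⟩ := List.mem_map.1 he
  have hte' : e' = e := hte
  subst hte'
  cases o with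
  | none => exact List.mem_map.2 ⟨(e', none), h.2 e' ht, rfl⟩
  | some a =>
    obtain ⟨a1, h1, _⟩ := h.1 e' a ht
    exact List.mem_map.2 ⟨(e', some a1), h1, rfl⟩

theorem A4_mem_repl {P : List Tok} {c : Nd} {o : Option Need} {t : Tok} :
    t ∈ repl P c o ↔ t = (c, o) ∨ (t ∈ P ∧ t.1 ≠ c) := by
  unfold repl
  rw [List.mem_cons, List.mem_filter]
  simp

theorem A4_inj {P : List Tok} {B : ℕ} (hW : WFl S P B) {c : Nd} {o o' : Option Need}
    (h : (c, o) ∈ P) (h' : (c, o') ∈ P) : o = o' := by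
  have := List.inj_on_of_nodup_map (l := P) (f := Prod.fst) hW.nd h h' rfl
  exact congrArg Prod.snd this

/-- `repl` is below / above -/
theorem less_repl {P : List Tok} {c : Nd} {μ θ : Need} (hc : (c, some μ) ∈ P) (h : S.NLe θ μ) :
    Less S (repl P c (some θ)) P := by
  refine ⟨fun e a ha => ?_, fun e he => ?_⟩
  · rcases A4_mem_repl.1 ha with h1 | ⟨h1, _⟩
    · have h2 : e = c := congrArg Prod.fst h1
      have h3 : some a = some θ := congrArg Prod.snd h1
      have h4 : a = θ := Option.some.inj h3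
      subst h2 h4
      exact ⟨μ, hc, h⟩
    · exact ⟨a, h1, NLe.refl _⟩
  · rcases A4_mem_repl.1 he with h1 | ⟨h1, _⟩
    · have h3 : none = some θ := congrArg Prod.snd h1
      exact absurd h3 (by simp)
    · exact h1
theorem less_repl_self {P : List Tok} {B : ℕ} (hW : WFl S P B) {c : Nd} {o : Option Need}
    (hc : (c, o) ∈ P) : Less S P (repl P c o) := by
  refine Less.of_subset fun t ht => ?_
  by_cases h : t.1 = c
  · refine A4_mem_repl.2 (Or.inl ?_)
    obtain ⟨e, o'⟩ := t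
    have h' : e = c := h
    subst h'
    rw [A4_inj hW hc ht]
  · exact A4_mem_repl.2 (Or.inr ⟨ht, h⟩)
theorem nds_repl {P : List Tok} {c : Nd} {o o' : Option Need} (hc : (c, o') ∈ P) (e : Nd) :
    e ∈ nds (repl P c o) ↔ e ∈ nds P := by
  constructor
  · intro he
    obtain ⟨t, ht, hte⟩ := List.mem_map.1 he
    rcases A4_mem_repl.1 ht with h1 | ⟨h1, _⟩
    · have h2 : e = c := by rw [← hte, h1]
      rw [h2]
      exact List.mem_map.2 ⟨(c, o'), hc, rfl⟩
    · exact List.mem_map.2 ⟨t, h1, hte⟩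
  · intro he
    by_cases h : e = c
    · rw [h]
      exact List.mem_map.2 ⟨(c, o), A4_mem_repl.2 (Or.inl rfl), rfl⟩
    · obtain ⟨t, ht, hte⟩ := List.mem_map.1 he
      exact List.mem_map.2 ⟨t, A4_mem_repl.2 (Or.inr ⟨ht, by rw [hte]; exact h⟩), hte⟩
theorem WF_repl {P : List Tok} {B : ℕ} (hW : WFl S P B) {c : Nd} {μ θ : Need}
    (hc : (c, some μ) ∈ P) : WFl S (repl P c (some θ)) B := by
  refine ⟨?_, ?_, ?_, ?_, ?_, ?_⟩
  · have h1 : c ∉ nds (P.filter (fun t => decide (t.1 ≠ c))) := by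
      intro h
      obtain ⟨t, ht, hte⟩ := List.mem_map.1 h
      have := (List.mem_filter.1 ht).2
      simp only [ne_eq, decide_not, Bool.not_eq_eq_eq_not, Bool.not_true,
        decide_eq_false_iff_not] at this
      exact this hte
    have h2 : (nds (P.filter (fun t => decide (t.1 ≠ c)))).Nodup :=
      List.Nodup.sublist (List.Sublist.map _ List.filter_sublist) hW.nd
    exact List.nodup_cons.2 ⟨h1, h2⟩
  · intro t ht
    rcases A4_mem_repl.1 ht with rfl | ⟨h1, _⟩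
    · exact hW.inc (c, some μ) hc
    · exact hW.inc t h1
  · intro t ht
    rcases A4_mem_repl.1 ht with rfl | ⟨h1, _⟩
    · exact hW.bd (c, some μ) hc
    · exact hW.bd t h1
  · intro t ht
    rcases A4_mem_repl.1 ht with rfl | ⟨h1, _⟩
    · exact hW.val (c, some μ) hc
    · exact hW.val t h1
  · intro e a ht
    rcases A4_mem_repl.1 ht with h1 | ⟨h1, _⟩
    · have h2 : e = c := congrArg Prod.fst h1
      rw [h2]
      exact hW.nl c μ hc
    · exact hW.nl e a h1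
  · intro e ht
    rcases A4_mem_repl.1 ht with h1 | ⟨h1, _⟩
    · have h3 : none = some θ := congrArg Prod.snd h1
      exact absurd h3 (by simp)
    · exact hW.lf e h1

theorem Rm_mono {W : St → Prop} {P P' : List Tok} {B : ℕ} {F F' : Set Pr} (h : Less S P' P)
    (hF : F ⊆ F') (hR : Rm S W P B F) : Rm S W P' B F' := by
  obtain ⟨Fr, hFr, Q, hQ⟩ := hR
  refine ⟨Fr, hFr.trans hF, Q, hQ.wf, ?_, ?_, hQ.lim, hQ.win, ?_⟩
  · intro e a ha
    obtain ⟨a1, h1, _⟩ := h.1 e a ha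
    exact hQ.cov e a1 h1
  · intro e he
    exact hQ.covl e (h.2 e he)
  · intro j a ha w hw
    exact hQ.comp j a (h.nds a ha) w (h.nds w hw)
/-- only the nodes (and which of them are leaves) matter for rooms -/
theorem Rm_repl {W : St → Prop} {P : List Tok} {B : ℕ} {F : Set Pr} {c : Nd} {μ θ : Need}
    (hc : (c, some μ) ∈ P) (hR : Rm S W P B F) : Rm S W (repl P c (some θ)) B F := by
  obtain ⟨Fr, hFr, Q, hQ⟩ := hR
  refine ⟨Fr, hFr, Q, hQ.wf, ?_, ?_, hQ.lim, hQ.win, ?_⟩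
  · intro e a ha
    rcases A4_mem_repl.1 ha with h1 | ⟨h1, _⟩
    · have h2 : e = c := congrArg Prod.fst h1
      rw [h2]
      exact hQ.cov c μ hc
    · exact hQ.cov e a h1
  · intro e he
    rcases A4_mem_repl.1 he with h1 | ⟨h1, _⟩
    · have h3 : none = some θ := congrArg Prod.snd h1
      exact absurd h3 (by simp)
    · exact hQ.covl e h1
  · intro j a ha w hw
    exact hQ.comp j a ((nds_repl hc a).1 ha) w ((nds_repl hc w).1 hw)

end MPb6M
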