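import Pool.Agent.Lib.MP_b6d339_lc.Mix.Defs
import Pool.Agent.Lib.MP_b6d339_lc.Mix.A1
import Pool.Agent.Lib.MP_b6d339_lc.Mix.A2
import Pool.Agent.Lib.MP_b6d339_lc.Mix.A3
import Pool.Agent.Lib.MP_b6d339_lc.Mix.A4

open Ordinal

namespace MPb6M

/-! # A4m: monotonicity -/
variable {S : Sys}

private theorem A4m_VV_mono {R : List Tok → ℕ → Set Pr → Prop}
    (hR : ∀ (P P' : List Tok) (B : ℕ) (F F' : Set Pr), Less S P' P → F ⊆ F' → R P B F → R P' B F')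
    {P P' : List Tok} {B B' : ℕ} {F F' : Set Pr} (h : VV S R ⟨P, B, F⟩)
    (hP : Less S P' P) (hF : F' ⊆ F) : VV S R ⟨P', B', F'⟩ := by
  obtain ⟨𝒮, hmem, h𝒮⟩ := h
  refine ⟨{t' | ∃ P B F, (⟨P, B, F⟩ : St) ∈ 𝒮 ∧ Less S t'.P P ∧ t'.F ⊆ F},
    ⟨P, B, F, hmem, hP, hF⟩, ?_⟩
  rintro t' ⟨P, B, F, hm, hL, hFF⟩
  obtain ⟨hok, hst⟩ := h𝒮 _ hm
  refine ⟨?_, ?_⟩
  · intro x y hx hy hxy
    exact hok x y (hL.2 x hx) (hL.2 y hy) (hFF hxy)
  · intro e a' he ρ hr N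
    obtain ⟨a, ha, hle⟩ := hL.1 e a' he
    obtain ⟨s, b, F1, hA, hb, hF1, hRR, hm1⟩ := hst e a ha ρ (Req.mono hle hr) (max N t'.B)
    refine ⟨s, b, F1, ⟨hA.ne, hA.inc, ?_, hA.val, hA.cl⟩, hb, hFF.trans hF1, ?_, ?_⟩
    · intro n hn
      have h1 := (hA.big n hn).1
      exact ⟨lt_of_le_of_lt (le_max_left _ _) h1, lt_of_le_of_lt (le_max_right _ _) h1⟩
    · exact hR _ _ _ _ _ (hL.cons _) (subset_refl _) hRR
    · exact ⟨_, _, _, hm1, hL.cons _, subset_refl _⟩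

private theorem A4m_VV_ari {R : List Tok → ℕ → Set Pr → Prop}
    (hR : ∀ (P P' : List Tok) (B : ℕ) (F F' : Set Pr), Less S P' P → F ⊆ F' → R P B F → R P' B F')
    {P : List Tok} {B : ℕ} {F F' : Set Pr} (hW : WFl S P B) (h : VV S R ⟨P, B, F⟩)
    (hF : F' ⊆ F ∪ (Ari P B)ᶜ) : VV S R ⟨P, B, F'⟩ := by
  obtain ⟨𝒮, hmem, h𝒮⟩ := h
  refine ⟨{t' | WFl S t'.P t'.B ∧ ∃ F, (⟨t'.P, t'.B, F⟩ : St) ∈ 𝒮 ∧
    t'.F ⊆ F ∪ (Ari t'.P t'.B)ᶜ}, ⟨hW, F, hmem, hF⟩, ?_⟩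
  rintro ⟨P, B, F'⟩ ⟨hW, F, hm, hFF⟩
  dsimp only at hW hm hFF
  obtain ⟨hok, hst⟩ := h𝒮 _ hm
  refine ⟨?_, ?_⟩
  · intro x y hx hy hxy
    rcases hFF hxy with h1 | h1
    · exact hok x y hx hy h1
    · apply h1
      have hx' : tr x B = x := tr_self (hW.bd _ hx)
      have hy' : tr y B = y := tr_self (hW.bd _ hy)
      refine ⟨?_, ?_⟩
      · show tr x B ∈ nds P
        rw [hx']; exact List.mem_map.2 ⟨_, hx, rfl⟩
      · show tr y B ∈ nds P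
        rw [hy']; exact List.mem_map.2 ⟨_, hy, rfl⟩
  · intro e a he ρ hr N
    obtain ⟨s, b, F1, hA, hb, hF1, hRR, hm1⟩ := hst e a he ρ hr N
    dsimp only at hF1 hRR hm1 he
    have hA' : Ans S ⟨P, B, F'⟩ e ρ.g N s := ⟨hA.ne, hA.inc, hA.big, hA.val, hA.cl⟩
    have hB : B ≤ lastN (e ++ s) := ((hA.big _ (lastN_mem hA.ne)).2).le
    have key : ∀ x : List ℕ, tr x (lastN (e ++ s)) ∈ nds ((e ++ s, b) :: P) → tr x B ∈ nds P := by
      intro x hx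
      rw [← tr_tr x hB]
      simp only [nds, List.map_cons, List.mem_cons] at hx
      rcases hx with hx | hx
      · rw [hx, tr_append (hW.bd _ he) (fun n hn => (hA.big n hn).2)]
        exact List.mem_map.2 ⟨_, he, rfl⟩
      · obtain ⟨t, ht, hte⟩ := List.mem_map.1 hx
        rw [← hte, tr_self (hW.bd _ ht)]
        exact List.mem_map.2 ⟨_, ht, rfl⟩
    refine ⟨s, b, F' ∪ F1, hA', hb, Set.subset_union_left, ?_, ?_⟩
    · exact hR _ _ _ _ _ (Less.refl _) Set.subset_union_right hRR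
    · refine ⟨WF_cons hW he hr hA hb, F1, hm1, ?_⟩
      dsimp only
      rintro π (hπ | hπ)
      · rcases hFF hπ with h1 | h1
        · exact Or.inl (hF1 h1)
        · right
          intro hc
          exact h1 ⟨key _ hc.1, key _ hc.2⟩
      · exact Or.inl hπ

/-- Monotonicity; the time is irrelevant (ask for numbers `> max N B'`).
Coinduction: `𝒮 = {⟨P', B', F'⟩ | ∃ P B F, V S k ⟨P, B, F⟩ ∧ Less S P' P ∧ F' ⊆ F}`. The cases
`k = 0` and `k + 1` can be treated together with `VV S Rm`, `Rm` monotone. -/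
theorem V_mono {k : ℕ} {P P' : List Tok} {B B' : ℕ} {F F' : Set Pr} (h : V S k ⟨P, B, F⟩)
    (hP : Less S P' P) (hF : F' ⊆ F) : V S k ⟨P', B', F'⟩ := by
  cases k with
  | zero => exact A4m_VV_mono (R := fun _ _ _ => True) (fun _ _ _ _ _ _ _ _ => trivial) h hP hF
  | succ k =>
    exact A4m_VV_mono (R := Rm S (V S k)) (fun _ _ _ _ _ h1 h2 h3 => Rm_mono h1 h2 h3) h hP hF

/-- Pairs which cannot arise do not matter.
Coinduction: `𝒮 = {⟨P, B, F'⟩ | WFl S P B ∧ ∃ F, V S k ⟨P, B, F⟩ ∧ F' ⊆ F ∪ (Ari P B)ᶜ}`; in a step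
`F''` := `F' ∪ F1` where `F1` is the new forbidden set;
`Ari ((e ++ s, o) :: P) (lastN (e ++ s)) ⊆ Ari P B` (truncate once more, `tr_tr`). `OK`: leaf tokens
`x, y` of `P` satisfy `tr x B = x`, so `(x, y) ∈ Ari P B`. -/
theorem V_ari {k : ℕ} {P : List Tok} {B : ℕ} {F F' : Set Pr} (hW : WFl S P B)
    (h : V S k ⟨P, B, F⟩) (hF : F' ⊆ F ∪ (Ari P B)ᶜ) : V S k ⟨P, B, F'⟩ := by
  cases k with
  | zero => exact A4m_VV_ari (R := fun _ _ _ => True) (fun _ _ _ _ _ _ _ _ => trivial) hW h hF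
  | succ k =>
    exact A4m_VV_ari (R := Rm S (V S k)) (fun _ _ _ _ _ h1 h2 h3 => Rm_mono h1 h2 h3) hW h hF

theorem V_down {k : ℕ} {t : St} (h : V S k t) : V S 0 t := by
  have key : ∀ R : List Tok → ℕ → Set Pr → Prop, VV S R t → VV S (fun _ _ _ => True) t := by
    rintro R ⟨𝒮, hm, h𝒮⟩
    refine ⟨𝒮, hm, fun t ht => ⟨(h𝒮 t ht).1, ?_⟩⟩
    intro e a he ρ hr N
    obtain ⟨s, b, F', hA, hb, hF, -, hm'⟩ := (h𝒮 t ht).2 e a he ρ hr N
    exact ⟨s, b, F', hA, hb, hF, trivial, hm'⟩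
  cases k with
  | zero => exact h
  | succ k => exact key _ h

end MPb6M
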