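import Pool.Agent.Lib.MP_b6d339_lc.Mix.Defs
import Pool.Agent.Lib.MP_b6d339_lc.Mix.A1
import Pool.Agent.Lib.MP_b6d339_lc.Mix.A2
import Pool.Agent.Lib.MP_b6d339_lc.Mix.A3
import Pool.Agent.Lib.MP_b6d339_lc.Mix.A4
import Pool.Agent.Lib.MP_b6d339_lc.Mix.A4m

open Ordinal

namespace MPb6M

/-! # A5a: aliveness is inherited -/
variable {S : Sys}

theorem Ext.refl (t : St) : Ext t t := ⟨fun _ h => h, le_rfl, fun _ h => h⟩
theorem Ext.trans {t t' t'' : St} (h : Ext t t') (h' : Ext t' t'') : Ext t t'' :=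
  ⟨fun _ hx => h'.P (h.P hx), h.B.trans h'.B, fun _ hx => h'.F (h.F hx)⟩
theorem Ext.step {t : St} {e : Nd} {g : Cl} {N : ℕ} {s : List ℕ} {o : Option Need} {F' : Set Pr}
    (hs : Ans S t e g N s) (hF : t.F ⊆ F') : Ext t ⟨(e ++ s, o) :: t.P, lastN (e ++ s), F'⟩ :=
  ⟨List.subset_cons_self _ _, (hs.big _ (lastN_mem hs.ne)).2.le, hF⟩

/-- Aliveness is inherited (general form). From `V S k ⟨t'.P, t'.B, t'.F ∪ X'⟩` get, by `V_mono`,
`V S k ⟨t.P, t'.B, t.F ∪ X'⟩`, by `V_ari` (`WF_B`) `V S k ⟨t.P, t'.B, t.F ∪ X⟩`, by `V_mono` the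
state with time `t.B`. -/
theorem alive_ext {k : ℕ} {t t' : St} (hW : WFl S t.P t.B) (h : Ext t t')
    {X X' : Set Pr} (hX : ∀ π ∈ X, tr π.1 t'.B ∈ nds t.P → tr π.2 t'.B ∈ nds t.P → π ∈ X')
    (ha : ¬ V S k ⟨t.P, t.B, t.F ∪ X⟩) : ¬ V S k ⟨t'.P, t'.B, t'.F ∪ X'⟩ := by
  intro hV
  have h1 : V S k ⟨t.P, t'.B, t.F ∪ X'⟩ :=
    V_mono hV (Less.of_subset h.P) (Set.union_subset_union_left _ h.F)
  have h2 : V S k ⟨t.P, t'.B, t.F ∪ X⟩ := by
    refine V_ari (WF_B hW h.B) h1 ?_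
    rintro π (hπ | hπ)
    · exact Or.inl (Or.inl hπ)
    · by_cases hA : π ∈ Ari t.P t'.B
      · exact Or.inl (Or.inr (hX π hπ hA.1 hA.2))
      · exact Or.inr hA
  exact ha (V_mono h2 (Less.refl _) (fun _ hx => hx))

private theorem A5a_line {P : List Tok} {B B' : ℕ} (hW : WFl S P B) (h : B ≤ B') (L : Line S)
    {c : Nd} {π : Pr} (hπ : π ∈ L.Fo c B) (h1 : tr π.1 B' ∈ nds P) (h2 : tr π.2 B' ∈ nds P) :
    π ∈ L.Fo c B' := by
  refine L.time c B B' π hπ h ?_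
  have h3 : tr (side L.sd π) B' ∈ nds P := by
    unfold side
    split
    · exact h1
    · exact h2
  obtain ⟨tok, htok, he⟩ := List.mem_map.1 h3
  have h4 : ∀ n ∈ tr (side L.sd π) B', n ≤ B := by
    rw [← he]
    exact hW.bd tok htok
  rw [← (L.pos c B π hπ).1, ← tr_tr (side L.sd π) h, tr_self h4]

/-- for lines, at any token -/
theorem Line.alive_ext {k : ℕ} {t t' : St} (hW : WFl S t.P t.B) (h : Ext t t') (L : Line S) {c : Nd}
    (ha : ¬ V S k ⟨t.P, t.B, t.F ∪ L.Fo c t.B⟩) :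
    ¬ V S k ⟨t'.P, t'.B, t'.F ∪ L.Fo c t'.B⟩ :=
  MPb6M.alive_ext hW h (fun _ hπ h1 h2 => A5a_line hW h.B L hπ h1 h2) ha

theorem nk_ext {k : ℕ} {t t' : St} (hW : WFl S t.P t.B) (hW' : WFl S t'.P t'.B) (h : Ext t t')
    (L : Line S) {c : Nd} {μ : Need} (hc : (c, some μ) ∈ t.P) {θ : Need}
    (ha : nk S k t c (some θ) (L.Fo c t.B)) : nk S k t' c (some θ) (L.Fo c t'.B) := by
  have hE : Ext ⟨repl t.P c (some θ), t.B, t.F⟩ ⟨repl t'.P c (some θ), t'.B, t'.F⟩ := by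
    refine ⟨?_, h.B, h.F⟩
    intro tok htok
    simp only [repl, List.mem_cons, List.mem_filter] at htok ⊢
    rcases htok with htok | htok
    · exact Or.inl htok
    · exact Or.inr ⟨h.P htok.1, htok.2⟩
  have hWr : WFl S (repl t.P c (some θ)) t.B := WF_repl hW hc
  exact MPb6M.alive_ext (t := ⟨repl t.P c (some θ), t.B, t.F⟩)
    (t' := ⟨repl t'.P c (some θ), t'.B, t'.F⟩) hWr hE
    (fun _ hπ h1 h2 => A5a_line hWr h.B L hπ h1 h2) ha

/-- if the threshold is at most the need, the set is not forbidden -/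
theorem nk_not_sub {k : ℕ} {t : St} (h : V S k t) {c : Nd} {μ θ : Need} (hc : (c, some μ) ∈ t.P)
    (hθ : S.NLe θ μ) {X : Set Pr} (ha : nk S k t c (some θ) X) : ¬ X ⊆ t.F := by
  intro hX
  apply ha
  exact V_mono (P := t.P) (B := t.B) (F := t.F) h (less_repl hc hθ)
    (Set.union_subset (fun _ hx => hx) hX)

end MPb6M
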