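import Pool.Agent.Lib.MP_b6d339_lc.Mix.Defs
import Pool.Agent.Lib.MP_b6d339_lc.Mix.A1
import Pool.Agent.Lib.MP_b6d339_lc.Mix.A2
import Pool.Agent.Lib.MP_b6d339_lc.Mix.A3
import Pool.Agent.Lib.MP_b6d339_lc.Mix.A4
import Pool.Agent.Lib.MP_b6d339_lc.Mix.A4m
import Pool.Agent.Lib.MP_b6d339_lc.Mix.A5a

open Ordinal

namespace MPb6M

/-! # A5: activation -/
variable {S : Sys}

/-- only the nodes (and which of them are leaves) matter for rooms -/
private theorem A5_Rm_nodes {W : St → Prop} {P P' : List Tok} {B : ℕ} {F F' : Set Pr}
    (h1 : ∀ e a', (e, some a') ∈ P' → ∃ a, (e, some a) ∈ P)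
    (h2 : ∀ e, (e, none) ∈ P' → (e, none) ∈ P) (hF : F ⊆ F') (hR : Rm S W P B F) :
    Rm S W P' B F' := by
  obtain ⟨Fr, hFr, Q, hQ⟩ := hR
  have hn : ∀ e ∈ nds P', e ∈ nds P := by
    intro e he
    obtain ⟨⟨e', o⟩, ho, rfl⟩ := List.mem_map.1 he
    cases o with
    | none => exact List.mem_map.2 ⟨_, h2 _ ho, rfl⟩
    | some a' =>
      obtain ⟨a, ha⟩ := h1 _ _ ho
      exact List.mem_map.2 ⟨_, ha, rfl⟩
  refine ⟨Fr, hFr.trans hF, Q, hQ.wf, ?_, ?_, hQ.lim, hQ.win, ?_⟩
  · intro e a he
    obtain ⟨a', ha'⟩ := h1 e a he
    exact hQ.cov e a' ha'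
  · intro e he
    exact hQ.covl e (h2 e he)
  · intro j a ha w hw
    exact hQ.comp j a (hn a ha) w (hn w hw)

private theorem A5_mem_repl {P : List Tok} {c : Nd} {o : Option Need} {t : Tok} :
    t ∈ repl P c o ↔ t = (c, o) ∨ (t ∈ P ∧ t.1 ≠ c) := by
  simp [repl]

private theorem A5_WF_repl {P : List Tok} {B : ℕ} (hW : WFl S P B) {c : Nd} {o o' : Option Need}
    (hc : (c, o') ∈ P) (h1 : o = none → S.cl c = ci (S.m + 1))
    (h2 : ∀ a, o = some a → S.cl c < ci (S.m + 1)) :
    WFl S (repl P c o) B := by
  have hsub : ∀ t ∈ repl P c o, ∃ o'', (t.1, o'') ∈ P := by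
    intro t ht
    rcases A5_mem_repl.1 ht with rfl | ⟨h, -⟩
    · exact ⟨o', hc⟩
    · exact ⟨t.2, h⟩
  refine ⟨?_, ?_, ?_, ?_, ?_, ?_⟩
  · show (List.map Prod.fst ((c, o) :: P.filter (fun t => decide (t.1 ≠ c)))).Nodup
    rw [List.map_cons, List.nodup_cons]
    constructor
    · intro hm
      obtain ⟨t, ht, htc⟩ := List.mem_map.1 hm
      have := (List.mem_filter.1 ht).2
      simp only [ne_eq, decide_not, Bool.not_eq_eq_eq_not, Bool.not_true,
        decide_eq_false_iff_not] at this
      exact this htc
    · exact hW.nd.sublist (List.Sublist.map _ List.filter_sublist)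
  · intro t ht
    obtain ⟨o'', h⟩ := hsub t ht
    exact hW.inc (t.1, o'') h
  · intro t ht
    obtain ⟨o'', h⟩ := hsub t ht
    exact hW.bd (t.1, o'') h
  · intro t ht
    obtain ⟨o'', h⟩ := hsub t ht
    exact hW.val (t.1, o'') h
  · intro e a he
    rcases A5_mem_repl.1 he with h | ⟨h, -⟩
    · obtain ⟨rfl, h'⟩ := Prod.mk.inj h
      exact h2 a h'.symm
    · exact hW.nl _ _ h
  · intro e he
    rcases A5_mem_repl.1 he with h | ⟨h, -⟩
    · obtain ⟨rfl, h'⟩ := Prod.mk.inj h
      exact h1 h'.symm
    · exact hW.lf _ h

/-- the invariant of the killing strategy -/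
private def A5_Inv (k : ℕ) (t : St) (L : Line S) (c : Nd) (θ : Need) : Set St :=
  {u | ∃ tc : St, V S (k + 1) tc ∧ WFl S tc.P tc.B ∧ Ext t tc ∧ u.B = tc.B ∧
    (∀ x, (c, x) ∈ u.P → x = some θ) ∧ (∀ e x, (e, x) ∈ u.P → e ≠ c → (e, x) ∈ tc.P) ∧
    u.F = tc.F ∪ L.Fo c t.B ∧
    ∀ π ∈ L.Fo c t.B, tr (side L.sd π) u.B ∈ nds u.P → tr (side (!L.sd) π) u.B ∈ nds u.P →
      tr (side L.sd π) u.B ≠ c → π ∈ tc.F}

private theorem A5_mem_nds {P : List Tok} {e : Nd} (h : e ∈ nds P) : ∃ o, (e, o) ∈ P := by
  obtain ⟨⟨e', o⟩, ho, rfl⟩ := List.mem_map.1 h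
  exact ⟨o, ho⟩

private theorem A5_nds_mem {P : List Tok} {e : Nd} {o : Option Need} (h : (e, o) ∈ P) :
    e ∈ nds P := List.mem_map.2 ⟨_, h, rfl⟩

private theorem A5_bd {P : List Tok} {B : ℕ} (hW : WFl S P B) {e : Nd} (h : e ∈ nds P) :
    ∀ n ∈ e, n ≤ B := by
  obtain ⟨o, ho⟩ := A5_mem_nds h
  exact hW.bd _ ho

/-- nodes of `u` are nodes of `tc` -/
private theorem A5_nds_sub {u tc t : St} {c : Nd} {θ μ : Need} (hc : (c, some μ) ∈ t.P)
    (he : Ext t tc) (h1 : ∀ x, (c, x) ∈ u.P → x = some θ)
    (h2 : ∀ e x, (e, x) ∈ u.P → e ≠ c → (e, x) ∈ tc.P) {e : Nd} (h : e ∈ nds u.P) :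
    e ∈ nds tc.P := by
  obtain ⟨o, ho⟩ := A5_mem_nds h
  by_cases hec : e = c
  · subst hec
    exact A5_nds_mem (he.P hc)
  · exact A5_nds_mem (h2 e o ho hec)

/-- **Activation.** Suppose not. Then Red kills the line with the need `θ` at `c`: show
`V S (k+1) ⟨repl t.P c (some θ), t.B, t.F ∪ L.Fo c t.B⟩` by coinduction with
`𝒮 = {u | ∃ tc, V S (k+1) tc ∧ WFl S tc.P tc.B ∧ Ext t tc ∧ u.B = tc.B ∧
   (c, some θ) ∈ u.P-tokens are the only tokens at c ∧ every other token of u is a token of tc ∧
   u.F = tc.F ∪ L.Fo c t.B ∧ (∀ π ∈ L.Fo c t.B, tr (act π) u.B ∈ nds u.P → tr (wait π) u.B ∈ nds u.P →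
     tr (act π) u.B ≠ c → π ∈ tc.F)}`.
Request at a token `e ≠ c`: `V_step` in `tc` with `N' = max N tc.B`; the room is inherited by
`Rm_mono`. Invariant: let `B' = lastN (e ++ s)`. If `tr act u.B ≠ c` use the old invariant
(truncate). If `tr act u.B = c ≠ tr act B'`, then `tr act B' = e ++ s` and `e = c`, contradiction.
Request `(g, o)` at `c` (from `θ`): `¬ Act` for `t1 := tc`, gives `t'`, `s` with a room and
`V S (k+1) ⟨repl t'.P (c ++ s) o, t'.B, t'.F ∪ (L.Fo c tB ∩ L.Thr (c ++ s) t'.B)⟩` (use
`B0 = t.B`); this is the new `tc`; the answer is `c ++ s`. Invariant: `tr act B' = c ++ s`,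
`tr wait B' ∈ nds u.P ∪ {c ++ s}` must be `w`: the next number of the active side after `t.B` is in
`s`, all numbers `> t.B` of the waiting side are larger; if `tr wait B' = c ++ s` it would contain this
number; otherwise it is an old node of `u`, numbers `≤ u.B`, hence `= tr wait u.B`, and
`tr wait u.B = w` since the active side has no number in `(t.B, u.B]`. `OK`: a finished pair in
`L.Fo c t.B` with components in `u.P` is in `tc.F` by the invariant, contradiction to `V_ok`. -/
theorem act {k : ℕ} {t : St} (hW : WFl S t.P t.B) (hV : V S (k + 1) t) (L : Line S) {c : Nd}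
    {μ θ : Need} (hc : (c, some μ) ∈ t.P) (ha : nk S (k + 1) t c (some θ) (L.Fo c t.B)) :
    ∃ t1 ρ N, Ext t t1 ∧ WFl S t1.P t1.B ∧ V S (k + 1) t1 ∧ S.Req θ ρ ∧ t1.B ≤ N ∧
      Act S k L c t.B t1 ρ N := by
  by_contra hcon
  refine ha ?_
  have hcB : ∀ n ∈ c, n ≤ t.B := hW.bd _ hc
  refine V_coind (A5_Inv k t L c θ) ?_ ?_
  · rintro u ⟨tc, hVc, hWc, hEc, huB, hu1, hu2, huF, hinv⟩
    have hnds : ∀ e ∈ nds u.P, e ∈ nds tc.P := fun e h => A5_nds_sub hc hEc hu1 hu2 h
    have hbd : ∀ e ∈ nds u.P, ∀ n ∈ e, n ≤ u.B := by
      intro e h
      rw [huB]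
      exact A5_bd hWc (hnds e h)
    constructor
    · -- OK
      intro x y hx hy hxy
      have hxc : x ≠ c := by
        rintro rfl
        have := hu1 _ hx
        simp at this
      have hyc : y ≠ c := by
        rintro rfl
        have := hu1 _ hy
        simp at this
      have hxt := hu2 _ _ hx hxc
      have hyt := hu2 _ _ hy hyc
      have hnot := V_ok hVc x y hxt hyt
      rw [huF] at hxy
      rcases hxy with hxy | hxy
      · exact hnot hxy
      · apply hnot
        have hx' : tr x u.B = x := tr_self (hbd x (A5_nds_mem hx))
        have hy' : tr y u.B = y := tr_self (hbd y (A5_nds_mem hy))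
        refine hinv (x, y) hxy ?_ ?_ ?_
        · cases L.sd
          · show tr y u.B ∈ _
            rw [hy']
            exact A5_nds_mem hy
          · show tr x u.B ∈ _
            rw [hx']
            exact A5_nds_mem hx
        · cases L.sd
          · show tr x u.B ∈ _
            rw [hx']
            exact A5_nds_mem hx
          · show tr y u.B ∈ _
            rw [hy']
            exact A5_nds_mem hy
        · cases L.sd
          · show tr y u.B ≠ _
            rw [hy']
            exact hyc
          · show tr x u.B ≠ _
            rw [hx']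
            exact hxc
    · -- a step
      intro e a hea ρ hr N
      by_cases hec : e = c
      · -- request at `c`
        subst hec
        have haθ : a = θ := by
          have := hu1 _ hea
          simpa using this
        subst haθ
        have hN : tc.B ≤ max N tc.B := le_max_right _ _
        have hnA : ¬ Act S k L e t.B tc ρ (max N tc.B) := fun hA =>
          hcon ⟨tc, ρ, max N tc.B, hEc, hWc, hVc, hr, hN, hA⟩
        unfold Act at hnA
        push Not at hnA
        obtain ⟨t', hEt', hWt', s, hs, hsN, hcl, hmem, htB, hRm, b, hb, hVt'⟩ := hnA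
        obtain ⟨o', ho'⟩ := A5_mem_nds hmem
        have hpair : (e ++ s).Pairwise (· < ·) := hWt'.inc _ ho'
        have hsN' : ∀ n ∈ s, N < n ∧ u.B < n := by
          intro n hn
          have := hsN n hn
          rw [huB]
          exact ⟨(le_max_left _ _).trans_lt this, (le_max_right _ _).trans_lt this⟩
        have htcB : t.B ≤ u.B := by
          rw [huB]
          exact hEc.B
        have hbig : ∀ n ∈ s, u.B < n := fun n hn => (hsN' n hn).2
        -- nodes with small numbers are different from `e ++ s`
        have hne : ∀ e' : Nd, (∀ n ∈ e', n ≤ u.B) → e' ≠ e ++ s := by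
          rintro e' he' rfl
          obtain ⟨n, hn⟩ := List.exists_mem_of_ne_nil s hs
          exact absurd (he' n (List.mem_append_right _ hn)) (not_le.2 (hbig n hn))
        have hB' : lastN (e ++ s) = t'.B := htB.symm
        have hule : u.B ≤ t'.B := by
          rw [huB]
          exact hEt'.B
        -- the class of the new node
        have hcle : S.cl e < ci (S.m + 1) := hW.nl _ _ hc
        have hcls : S.cl (e ++ s) = max (S.cl e) ρ.g := by rw [cl_append, hcl]
        have ho1 : b = none → S.cl (e ++ s) = ci (S.m + 1) := by
          intro h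
          rw [hcls, (Req.none_iff hr).1 ((Adm.none_iff hb).1 h)]
          exact max_eq_right hcle.le
        have ho2 : ∀ b', b = some b' → S.cl (e ++ s) < ci (S.m + 1) := by
          intro b' h
          rw [hcls]
          refine max_lt hcle (Req.g_lt hr fun h' => ?_)
          rw [← Adm.none_iff hb, h] at h'
          exact absurd h' (by simp)
        set tn : St := ⟨repl t'.P (e ++ s) b, t'.B,
          t'.F ∪ (L.Fo e t.B ∩ L.Thr (e ++ s) t'.B)⟩ with htn
        have hsubn : ∀ x ∈ tc.P, x ∈ tn.P := by
          intro x hx
          refine A5_mem_repl.2 (Or.inr ⟨hEt'.P hx, ?_⟩)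
          refine hne _ ?_
          rw [huB]
          exact hWc.bd _ hx
        refine ⟨s, b, tn.F ∪ L.Fo e t.B, ⟨hs, ?_, ?_, ?_, hcl⟩, hb, ?_, ?_, ?_⟩
        · exact (List.pairwise_append.1 hpair).2.1
        · exact hsN'
        · exact hWt'.val _ ho'
        · rw [huF]
          rintro π (hπ | hπ)
          · exact Or.inl (Or.inl (hEt'.F hπ))
          · exact Or.inr hπ
        · -- the room
          rw [hB']
          refine A5_Rm_nodes (P := t'.P) (F := t'.F) ?_ ?_ ?_ hRm
          · intro e1 a1 h1
            rcases List.mem_cons.1 h1 with h1 | h1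
            · obtain ⟨rfl, h1'⟩ := Prod.mk.inj h1
              have := ho2 a1 h1'.symm
              cases o' with
              | none =>
                rw [hWt'.lf _ ho'] at this
                exact absurd this (lt_irrefl _)
              | some b => exact ⟨b, ho'⟩
            · by_cases h : e1 = e
              · subst h
                exact ⟨μ, hEt'.P (hEc.P hc)⟩
              · exact ⟨a1, hEt'.P (hu2 _ _ h1 h)⟩
          · intro e1 h1
            rcases List.mem_cons.1 h1 with h1 | h1'
            · obtain ⟨rfl, h1'⟩ := Prod.mk.inj h1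
              have := ho1 h1'.symm
              cases o' with
              | none => exact ho'
              | some b =>
                have h2 := hWt'.nl _ _ ho'
                rw [this] at h2
                exact absurd h2 (lt_irrefl _)
            · by_cases h : e1 = e
              · subst h
                have := hu1 _ h1'
                simp at this
              · exact hEt'.P (hu2 _ _ h1' h)
          · intro π hπ
            exact Or.inl (Or.inl hπ)
        · -- the invariant
          refine ⟨tn, hVt', A5_WF_repl hWt' ho' ho1 ho2, ⟨fun x hx => hsubn x (hEc.P hx),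
            hEc.B.trans hEt'.B, fun π hπ => Or.inl (hEt'.F (hEc.F hπ))⟩, hB', ?_, ?_, rfl, ?_⟩
          · intro x hx
            rcases List.mem_cons.1 hx with hx | hx
            · obtain ⟨h, -⟩ := Prod.mk.inj hx
              exact absurd h (hne e (fun n hn => (hcB n hn).trans htcB))
            · exact hu1 x hx
          · intro e1 x hx h
            rcases List.mem_cons.1 hx with hx | hx
            · rw [hx]
              exact A5_mem_repl.2 (Or.inl rfl)
            · exact hsubn _ (hu2 _ _ hx h)
          · intro π hπ hA hWt hAc
            simp only [hB'] at hA hWt hAc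
            have hpos := L.pos e t.B π hπ
            obtain ⟨hp1, hp2, ⟨n, hn1, hn2, hn3⟩, hp4, hp5⟩ := hpos
            have hact : (side L.sd π).Pairwise (· < ·) := by
              unfold side
              split_ifs
              · exact hp4
              · exact hp5
            have hwait : (side (!L.sd) π).Pairwise (· < ·) := by
              unfold side
              split_ifs
              · exact hp4
              · exact hp5
            have hA0 := tr_tr (side L.sd π) hule
            have hW0 := tr_tr (side (!L.sd) π) hule
            have hees : tr (e ++ s) u.B = e := tr_append (fun n hn => (hcB n hn).trans htcB) hbig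
            have hndsn : ∀ e' ∈ nds ((e ++ s, b) :: u.P), e' = e ++ s ∨ e' ∈ nds u.P := by
              intro e' he'
              obtain ⟨o'', ho''⟩ := A5_mem_nds he'
              rcases List.mem_cons.1 ho'' with h | h
              · exact Or.inl (Prod.mk.inj h).1
              · exact Or.inr (A5_nds_mem h)
            have heu : e ∈ nds u.P := A5_nds_mem hea
            have hWu : tr (side (!L.sd) π) u.B ∈ nds u.P := by
              rcases hndsn _ hWt with h | h
              · rw [← hW0, h, hees]
                exact heu
              · rw [← hW0, tr_self (hbd _ h)]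
                exact h
            rcases hndsn _ hA with h | h
            · -- the active side goes through the new node
              have hau : tr (side L.sd π) u.B = e := by rw [← hA0, h, hees]
              have hnu : u.B < n := by
                by_contra hle
                rw [not_lt] at hle
                have h1 : n ∈ tr (side L.sd π) u.B := (mem_tr hact).2 ⟨hn1, hle⟩
                rw [hau] at h1
                exact absurd (hcB n h1) (not_le.2 hn2)
              refine Or.inr ⟨hπ, h, ?_⟩
              by_cases hnt : n ≤ t'.B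
              · have h1 : n ∈ e ++ s := by
                  rw [← h]
                  exact (mem_tr hact).2 ⟨hn1, hnt⟩
                rcases hndsn _ hWt with h2 | h2
                · exfalso
                  have h3 : n ∈ tr (side (!L.sd) π) t'.B := by
                    rw [h2]
                    exact h1
                  have h4 := ((mem_tr hwait).1 h3).1
                  exact absurd (hn3 n h4 hn2) (lt_irrefl n)
                · rw [← tr_self (hbd _ h2), hW0]
                  rw [← hp2]
                  exact tr_eq_of hwait htcB (fun m hm hm2 => hnu.trans (hn3 m hm hm2))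
              · rw [not_le] at hnt
                rw [← hp2]
                exact tr_eq_of hwait (htcB.trans hule)
                  (fun m hm hm2 => hnt.trans (hn3 m hm hm2))
            · -- old node
              have h1 : tr (side L.sd π) u.B = tr (side L.sd π) t'.B := by
                rw [← hA0, tr_self (hbd _ h)]
              refine Or.inl (hEt'.F (hinv π hπ ?_ hWu ?_))
              · rw [h1]
                exact h
              · rw [h1]
                exact hAc
      · -- request at another token
        obtain ⟨s, b, F', hs, hb, hF, hR, hVn⟩ := V_step hVc (hu2 _ _ hea hec) hr N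
        have hne : ∀ e' : Nd, (∀ n ∈ e', n ≤ u.B) → e' ≠ e ++ s := by
          rintro e' he' rfl
          obtain ⟨n, hn⟩ := List.exists_mem_of_ne_nil s hs.ne
          have := he' n (List.mem_append_right _ hn)
          rw [huB] at this
          exact absurd this (not_le.2 (hs.big n hn).2)
        have htcB : t.B ≤ u.B := by
          rw [huB]
          exact hEc.B
        have heu : e ∈ nds u.P := A5_nds_mem hea
        have hWn := WF_cons hWc (hu2 _ _ hea hec) hr hs hb
        have hule : u.B ≤ lastN (e ++ s) := by
          have h1 := lastN_mem (e := e) hs.ne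
          have h2 := (hs.big _ h1).2
          rw [huB]
          exact h2.le
        refine ⟨s, b, F' ∪ L.Fo c t.B, ⟨hs.ne, hs.inc, ?_, hs.val, hs.cl⟩, hb, ?_, ?_, ?_⟩
        · rw [huB]
          exact hs.big
        · rw [huF]
          rintro π (hπ | hπ)
          · exact Or.inl (hF hπ)
          · exact Or.inr hπ
        · refine A5_Rm_nodes (P := (e ++ s, b) :: tc.P) (F := F') ?_ ?_ ?_ hR
          · intro e1 a1 h1
            rcases List.mem_cons.1 h1 with h1 | h1
            · exact ⟨a1, List.mem_cons.2 (Or.inl h1)⟩
            · by_cases h : e1 = c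
              · subst h
                exact ⟨μ, List.mem_cons.2 (Or.inr (hEc.P hc))⟩
              · exact ⟨a1, List.mem_cons.2 (Or.inr (hu2 _ _ h1 h))⟩
          · intro e1 h1
            rcases List.mem_cons.1 h1 with h1 | h1
            · exact List.mem_cons.2 (Or.inl h1)
            · by_cases h : e1 = c
              · subst h
                have := hu1 _ h1
                simp at this
              · exact List.mem_cons.2 (Or.inr (hu2 _ _ h1 h))
          · intro π hπ
            exact Or.inl hπ
        · refine ⟨⟨(e ++ s, b) :: tc.P, lastN (e ++ s), F'⟩, hVn, hWn,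
            Ext.trans hEc (Ext.step hs hF), rfl, ?_, ?_, rfl, ?_⟩
          · intro x hx
            rcases List.mem_cons.1 hx with hx | hx
            · obtain ⟨h, -⟩ := Prod.mk.inj hx
              exact absurd h (hne c (fun n hn => (hcB n hn).trans htcB))
            · exact hu1 x hx
          · intro e1 x hx h
            rcases List.mem_cons.1 hx with hx | hx
            · exact List.mem_cons.2 (Or.inl hx)
            · exact List.mem_cons.2 (Or.inr (hu2 _ _ hx h))
          · intro π hπ hA hWt hAc
            have hA0 := tr_tr (side L.sd π) hule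
            have hW0 := tr_tr (side (!L.sd) π) hule
            have hees : tr (e ++ s) u.B = e := by
              refine tr_append (hbd e heu) ?_
              intro n hn
              rw [huB]
              exact (hs.big n hn).2
            have hndsn : ∀ e' ∈ nds ((e ++ s, b) :: u.P), e' = e ++ s ∨ e' ∈ nds u.P := by
              intro e' he'
              obtain ⟨o'', ho''⟩ := A5_mem_nds he'
              rcases List.mem_cons.1 ho'' with h | h
              · exact Or.inl (Prod.mk.inj h).1
              · exact Or.inr (A5_nds_mem h)
            refine hF (hinv π hπ ?_ ?_ ?_)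
            · rcases hndsn _ hA with h | h
              · rw [← hA0]
                dsimp only at h
                rw [h, hees]
                exact heu
              · rw [← hA0, tr_self (hbd _ h)]
                exact h
            · rcases hndsn _ hWt with h | h
              · rw [← hW0]
                dsimp only at h
                rw [h, hees]
                exact heu
              · rw [← hW0, tr_self (hbd _ h)]
                exact h
            · rcases hndsn _ hA with h | h
              · rw [← hA0]
                dsimp only at h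
                rw [h, hees]
                exact hec
              · rw [← hA0, tr_self (hbd _ h)]
                exact hAc
  · -- the initial state
    refine ⟨t, hV, hW, Ext.refl t, rfl, ?_, ?_, rfl, ?_⟩
    · intro x hx
      rcases A5_mem_repl.1 hx with h | ⟨-, h⟩
      · exact (Prod.mk.inj h).2
      · exact absurd rfl h
    · intro e x hx h
      rcases A5_mem_repl.1 hx with h' | ⟨h', -⟩
      · exact absurd (Prod.mk.inj h').1 h
      · exact h'
    · intro π hπ _ _ h
      exact absurd (L.pos c t.B π hπ).1 h

end MPb6M
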