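import Pool.Agent.Lib.MP_b6d339_lc.Mix.Defs
import Pool.Agent.Lib.MP_b6d339_lc.Mix.A1
import Pool.Agent.Lib.MP_b6d339_lc.Mix.A2
import Pool.Agent.Lib.MP_b6d339_lc.Mix.A3
import Pool.Agent.Lib.MP_b6d339_lc.Mix.A4
import Pool.Agent.Lib.MP_b6d339_lc.Mix.A4m
import Pool.Agent.Lib.MP_b6d339_lc.Mix.A5a

open Ordinal

namespace MPb6M

/-! # A5p: consequences of activation -/
variable {S : Sys}

theorem Act.ext {k : ℕ} {L : Line S} {c : Nd} {B0 : ℕ} {t1 t2 : St} {ρ : Rq}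
    {N N' : ℕ} (h : Act S k L c B0 t1 ρ N) (he : Ext t1 t2) (hN : N ≤ N') :
    Act S k L c B0 t2 ρ N' := by
  intro t' he' hW s hs hN' hcl hc hB hR
  exact h t' (he.trans he') hW s hs (fun n hn => lt_of_le_of_lt hN (hN' n hn)) hcl hc hB hR

theorem A5p_repl_sub {P : List Tok} {c : Nd} {o : Option Need} (hc : (c, o) ∈ P) :
    repl P c o ⊆ P := by
  intro t ht
  unfold repl at ht
  rcases List.mem_cons.mp ht with h | h
  · rw [h]; exact hc
  · exact (List.mem_filter.mp h).1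

/-- The failing class is at most `kap`: make the request `(g, o)` at `c` in the state `t1`
(`Req.mono`); by `L.dead` no pair of the line goes through the answer. -/
theorem Act.le_kap {k : ℕ} {L : Line S} {c : Nd} {B0 : ℕ} {t1 : St} {ρ : Rq}
    {N : ℕ} (h : Act S k L c B0 t1 ρ N) (hW : WFl S t1.P t1.B) (hV : V S (k + 1) t1) {μ θ : Need}
    (hc : (c, some μ) ∈ t1.P) (hθ : S.NLe θ μ) (hr : S.Req θ ρ) (hB : B0 ≤ t1.B) :
    ρ.g ≤ L.kap := by
  by_contra hg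
  push Not at hg
  have hr' := Req.mono hθ hr
  obtain ⟨s, b, F', hs, hb, hF, hR, hV'⟩ := V_step hV hc hr' N
  have he : Ext t1 ⟨(c ++ s, b) :: t1.P, lastN (c ++ s), F'⟩ := Ext.step hs hF
  have hW' : WFl S ((c ++ s, b) :: t1.P) (lastN (c ++ s)) := WF_cons hW hc hr' hs hb
  refine h ⟨(c ++ s, b) :: t1.P, lastN (c ++ s), F'⟩ he hW' s hs.ne (fun n hn => (hs.big n hn).1)
    hs.cl (by simp [nds]) rfl hR b hb ?_
  refine V_mono hV' (Less.of_subset (A5p_repl_sub (by simp))) ?_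
  refine Set.union_subset (le_refl _) ?_
  rintro π ⟨hπ, h1, h2⟩
  have := L.dead c B0 s (lastN (c ++ s)) π hπ hs.ne
    (fun n hn => lt_of_le_of_lt hB (hs.big n hn).2) h1 h2
  rw [hs.cl] at this
  exact absurd this (not_le.2 hg)

/-- By `L.low`, `L.Fo c B0 ∩ L.Thr (c ++ s) t'.B ⊆ L.Fo (c ++ s) t'.B`. -/
theorem Act.P1 {k : ℕ} {L : Line S} {c : Nd} {B0 : ℕ} {t1 : St} {ρ : Rq}
    {N : ℕ} (h : Act S k L c B0 t1 ρ N) (hg : ρ.g < L.kap) (hB : B0 ≤ N) {t' : St} (he : Ext t1 t')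
    (hW : WFl S t'.P t'.B) {s : List ℕ} (hs : s ≠ []) (hN : ∀ n ∈ s, N < n) (hcl : S.cl s = ρ.g)
    (hc : c ++ s ∈ nds t'.P) (hB' : t'.B = lastN (c ++ s)) (hR : Rm S (V S k) t'.P t'.B t'.F)
    {b : Option Need} (hb : S.Adm ρ b) :
    nk S (k + 1) t' (c ++ s) b (L.Fo (c ++ s) t'.B) := by
  intro hV
  refine h t' he hW s hs hN hcl hc hB' hR b hb ?_
  refine V_mono hV (Less.refl _) ?_
  refine Set.union_subset_union_right _ ?_
  rintro π ⟨hπ, h1, h2⟩
  exact L.low c B0 s t'.B π hπ hs (fun n hn => lt_of_le_of_lt hB (hN n hn)) (by rw [hcl]; exact hg)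
    h1 h2

/-- Suppose `V S (k+1) ⟨repl t'.P (c ++ s) (some θ), t'.B, t'.F ∪ L.Fo (c ++ s) t'.B⟩`. Make the
request `(g, o)` at `c ++ s`: answer `c ++ s ++ s'`, `S.cl (s ++ s') = g`; the pairs of
`L.Fo c B0` through it belong to `L.Fo (c ++ s) t'.B` by `L.thru`. Contradiction to `h`. -/
theorem Act.P2 {k : ℕ} {L : Line S} {c : Nd} {B0 : ℕ} {t1 : St} {ρ : Rq}
    {N : ℕ} (h : Act S k L c B0 t1 ρ N) (hW1 : WFl S t1.P t1.B) (hB : B0 ≤ N) (hNB : t1.B ≤ N)
    {t' : St} (he : Ext t1 t')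
    (hW : WFl S t'.P t'.B) {s : List ℕ} (hs : s ≠ []) (hN : ∀ n ∈ s, N < n)
    (hcl : S.cl s ≤ ρ.g) {μ : Need} (hc : (c ++ s, some μ) ∈ t'.P) {θ : Need} (hr : S.Req θ ρ) :
    nk S (k + 1) t' (c ++ s) (some θ) (L.Fo (c ++ s) t'.B) := by
  intro hV
  have hbd : ∀ n ∈ c ++ s, n ≤ t'.B := hW.bd _ hc
  have hBt : B0 ≤ t'.B := by
    obtain ⟨n, hn⟩ := List.exists_mem_of_ne_nil s hs
    have h1 := hN n hn
    have h2 := hbd n (List.mem_append_right _ hn)
    omega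
  have hWr : WFl S (repl t'.P (c ++ s) (some θ)) t'.B := WF_repl hW hc
  have hmem : (c ++ s, some θ) ∈ repl t'.P (c ++ s) (some θ) := by
    unfold repl; exact List.mem_cons_self
  obtain ⟨s', b, F', hs', hb, hF, hR, hV'⟩ := V_step hV hmem hr (max N t'.B)
  have hbig : ∀ n ∈ s', N < n ∧ t'.B < n := by
    intro n hn
    have := (hs'.big n hn).1
    exact ⟨lt_of_le_of_lt (le_max_left _ _) this, lt_of_le_of_lt (le_max_right _ _) this⟩
  have hWc := WF_cons hWr hmem hr hs' hb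
  have hea : c ++ s ++ s' = c ++ (s ++ s') := List.append_assoc _ _ _
  have hcl' : S.cl (s ++ s') = ρ.g := by
    rw [cl_append, hs'.cl]; exact max_eq_right hcl
  have hlast : lastN (c ++ s ++ s') ∈ s' := lastN_mem hs'.ne
  -- the new state
  have hext : Ext t1 ⟨(c ++ s ++ s', b) :: repl t'.P (c ++ s) (some θ), lastN (c ++ s ++ s'), F'⟩ := by
    refine ⟨?_, ?_, ?_⟩
    · intro x hx
      refine List.mem_cons_of_mem _ ?_
      unfold repl
      refine List.mem_cons_of_mem _ (List.mem_filter.mpr ⟨he.P hx, ?_⟩)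
      refine decide_eq_true ?_
      intro hxe
      obtain ⟨n, hn⟩ := List.exists_mem_of_ne_nil s hs
      have h1 := hW1.bd x hx n (by rw [hxe]; exact List.mem_append_right _ hn)
      have h2 := hN n hn
      omega
    · have h1 := he.B
      have h2 := (hbig _ hlast).2
      show t1.B ≤ lastN (c ++ s ++ s')
      omega
    · intro π hπ
      exact hF (Or.inl (he.F hπ))
  refine h _ hext hWc (s ++ s') (by simp [hs]) ?_ hcl' ?_ ?_ hR b hb ?_
  · intro n hn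
    rcases List.mem_append.mp hn with h1 | h1
    · exact hN n h1
    · exact (hbig n h1).1
  · rw [← hea]; simp [nds]
  · show lastN (c ++ s ++ s') = _
    rw [hea]
  · rw [← hea]
    refine V_mono hV' (Less.of_subset (A5p_repl_sub (by simp))) ?_
    refine Set.union_subset (le_refl _) ?_
    rintro π ⟨hπ, h1, h2⟩
    refine hF (Or.inr ?_)
    exact L.thru c B0 s s' t'.B (lastN (c ++ s ++ s')) π hπ
      (fun n hn => lt_of_le_of_lt hB (hN n hn)) hs'.ne (by rw [hs'.cl]; exact hcl) hBt hbd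
      (fun n hn => (hbig n hn).2) h1 h2

end MPb6M
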