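import Pool.Agent.Lib.MP_b6d339_lc.Mix.Defs
import Pool.Agent.Lib.MP_b6d339_lc.Mix.A1
import Pool.Agent.Lib.MP_b6d339_lc.Mix.A2
import Pool.Agent.Lib.MP_b6d339_lc.Mix.A3
import Pool.Agent.Lib.MP_b6d339_lc.Mix.A4
import Pool.Agent.Lib.MP_b6d339_lc.Mix.A4m
import Pool.Agent.Lib.MP_b6d339_lc.Mix.A5a

open Ordinal

namespace MPb6M

/-! # A6a: guards -/
variable {S : Sys}

/-- guards: lines with thresholds -/
abbrev Gds (S : Sys) := List (Line S × Need)

noncomputable def Th (Γ : Gds S) (j : ℕ) : Ordinal.{0} := (Γ.map fun G => G.2.o j).foldr sm 0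

/-- the condition on an infinite class -/
def CT (μ lam : Need) (Γ : Gds S) (j : ℕ) : Prop :=
  (Th Γ j ≤ μ.o j ∧ ∀ l < lam.o j, sm l (Th Γ j) < μ.o j) ∨
    (Lim (μ.o j) ∧ lam.o j ≤ μ.o j ∧ ∀ G ∈ Γ, G.2.o j ≤ μ.o j)

structure GS (k : ℕ) (t : St) (c : Nd) (μ lam : Need) (Γ : Gds S) : Prop where
  mem : (c, some μ) ∈ t.P
  ct : ∀ j, 1 ≤ j → j ≤ S.d → CT μ lam Γ j
  cfl : ∀ f, S.d < f → f ≤ S.m → lam.l f ⊆ μ.l f
  cfg : ∀ f, S.d < f → f ≤ S.m → ∀ G ∈ Γ, G.2.l f ⊆ μ.l f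
  nk : ∀ G ∈ Γ, nk S (k + 1) t c (some G.2) (G.1.Fo c t.B)

theorem A6a_le_foldr {α : Type*} (f : α → Ordinal.{0}) (l : List α) (x : α) (hx : x ∈ l) :
    f x ≤ (l.map f).foldr sm 0 := by
  induction l with
  | nil => simp at hx
  | cons y l ih =>
    rw [List.map_cons, List.foldr_cons]
    rcases List.mem_cons.1 hx with rfl | hx
    · exact le_sm_left _ _
    · exact (ih hx).trans (le_sm_right _ _)

theorem A6a_foldr_zero {α : Type*} (f : α → Ordinal.{0}) (l : List α) (h : ∀ x ∈ l, f x = 0) :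
    (l.map f).foldr sm 0 = 0 := by
  induction l with
  | nil => rfl
  | cons y l ih =>
    rw [List.map_cons, List.foldr_cons, h y (List.mem_cons_self ..),
      ih fun x hx => h x (List.mem_cons_of_mem _ hx), sm_zero_left]

/-- thresholds are at most the physical need -/
theorem GS.le {k : ℕ} {t : St} {c : Nd} {μ lam : Need} {Γ : Gds S} (h : GS k t c μ lam Γ) :
    ∀ G ∈ Γ, S.NLe G.2 μ := by
  intro G hG
  refine ⟨fun j hj1 hjD => ?_, fun f hf hf' => h.cfg f hf hf' G hG⟩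
  rcases h.ct j hj1 hjD with ⟨h1, -⟩ | ⟨-, -, h3⟩
  · exact (A6a_le_foldr (fun G : Line S × Need => G.2.o j) Γ G hG).trans h1
  · exact h3 G hG
theorem GS.lam_le {k : ℕ} {t : St} {c : Nd} {μ lam : Need} {Γ : Gds S} (h : GS k t c μ lam Γ) :
    S.NLe lam μ := by
  refine ⟨fun j hj1 hjD => ?_, h.cfl⟩
  rcases h.ct j hj1 hjD with ⟨-, h2⟩ | ⟨-, h2, -⟩
  · by_contra hlt
    have h3 := h2 (μ.o j) (not_le.1 hlt)
    exact absurd h3 (not_lt.2 (le_sm_left _ _))
  · exact h2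
theorem GS.ext {k : ℕ} {t t' : St} (hW : WFl S t.P t.B) (hW' : WFl S t'.P t'.B) (he : Ext t t')
    {c : Nd} {μ lam : Need} {Γ : Gds S} (h : GS k t c μ lam Γ) : GS k t' c μ lam Γ :=
  ⟨he.P h.mem, h.ct, h.cfl, h.cfg, fun G hG => nk_ext hW hW' he G.1 h.mem (h.nk G hG)⟩
/-- the start: limit needs -/
theorem GS.start {k : ℕ} {t : St} (hW : WFl S t.P t.B) {c : Nd} {a : Need}
    (hc : (c, some a) ∈ t.P) (ha : S.LimN a) (Ls : List (Line S))
    (hLs : ∀ L ∈ Ls, ¬ V S (k + 1) ⟨t.P, t.B, t.F ∪ L.Fo c t.B⟩) :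
    GS k t c a a (Ls.map fun L => (L, a)) := by
  refine ⟨hc, ?_, fun _ _ _ => subset_rfl, ?_, ?_⟩
  · intro j hj1 hjD
    rcases ha j hj1 hjD with h0 | hl
    · left
      have hT : Th (Ls.map fun L => ((L, a) : Line S × Need)) j = 0 := by
        refine A6a_foldr_zero (fun G : Line S × Need => G.2.o j) _ ?_
        intro x hx
        obtain ⟨L, -, rfl⟩ := List.mem_map.1 hx
        exact h0
      rw [hT, h0]
      refine ⟨le_rfl, fun l hl => ?_⟩
      exact absurd hl not_lt_zero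
    · right
      refine ⟨hl, le_rfl, ?_⟩
      intro G hG
      obtain ⟨L, -, rfl⟩ := List.mem_map.1 hG
      exact le_rfl
  · intro f _ _ G hG
    obtain ⟨L, -, rfl⟩ := List.mem_map.1 hG
    exact subset_rfl
  · intro G hG
    obtain ⟨L, hL, rfl⟩ := List.mem_map.1 hG
    intro hV
    exact hLs L hL (V_mono hV (less_repl_self hW hc) le_rfl)

instance : Inhabited Need := ⟨⟨fun _ => 0, fun _ => ∅⟩⟩
instance : Inhabited Rq := ⟨⟨ci 0, none, fun _ => 0⟩⟩

/-- a subset with `n` elements (if possible) -/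
noncomputable def sub (s : Finset ℕ) (n : ℕ) : Finset ℕ :=
  if h : n ≤ s.card then (Finset.exists_subset_card_eq h).choose else Finset.range n

theorem sub_card (s : Finset ℕ) (n : ℕ) : (sub s n).card = n := by
  unfold sub
  split_ifs with h
  · exact (Finset.exists_subset_card_eq h).choose_spec.2
  · exact Finset.card_range n

theorem sub_sub {s : Finset ℕ} {n : ℕ} (h : n ≤ s.card) : sub s n ⊆ s := by
  unfold sub
  rw [dif_pos h]
  exact (Finset.exists_subset_card_eq h).choose_spec.1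

/-- an admissible need inside `b` -/
noncomputable def pick (ρ : Rq) (b : Need) : Need :=
  ⟨(ρ.o.getD default).o,
    fun h => if h < co ρ.g then sub (b.l h) (ρ.n h) else (ρ.o.getD default).l h⟩

theorem pick_adm {ρ : Rq} (h : ρ.o ≠ none) (b : Need) : S.Adm ρ (some (pick ρ b)) := by
  rcases ho : ρ.o with _ | a'
  · exact absurd ho h
  · refine Or.inr ⟨a', _, ho, rfl, ?_, fun h _ _ => ?_⟩
    · show (ρ.o.getD default).o = a'.o
      rw [ho]
      rfl
    · show if h < co ρ.g then _ else _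
      split_ifs with h1
      · show (if h < co ρ.g then sub (b.l h) (ρ.n h) else (ρ.o.getD default).l h).card = ρ.n h
        rw [if_pos h1]
        exact sub_card _ _
      · show (if h < co ρ.g then sub (b.l h) (ρ.n h) else (ρ.o.getD default).l h) = a'.l h
        rw [if_neg h1, ho]
        rfl

/-- requests of an infinite class -/
theorem Req.inv_ci {a : Need} {ρ : Rq} (hr : S.Req a ρ) {j : ℕ} (hg : ρ.g = ci j) (hj : j ≤ S.d) :
    ∃ a', ρ.o = some a' ∧ S.RqI a j a' := by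
  have hdm := S.hdm
  rcases hr with ⟨j', a', hg', ho, h⟩ | ⟨f, i, a', hg', ho, h⟩ | ⟨hg', -⟩
  · have : j' = j := by rw [hg'] at hg; exact ci_inj hg
    subst this
    exact ⟨a', ho, h⟩
  · have h1 := congrArg co (hg'.symm.trans hg)
    rw [co_cf, co_ci] at h1
    have := h.1
    omega
  · have h1 := congrArg co (hg'.symm.trans hg)
    rw [co_ci, co_ci] at h1
    omega

/-- requests of a finite class -/
theorem Req.inv_cf {a : Need} {ρ : Rq} (hr : S.Req a ρ) {f i : ℕ} (hg : ρ.g = cf f i)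
    (hf : S.d < f) (hf' : f ≤ S.m) : ∃ a', ρ.o = some a' ∧ S.RqF a f i a' := by
  rcases hr with ⟨j', a', hg', ho, h⟩ | ⟨f', i', a', hg', ho, h⟩ | ⟨hg', -⟩
  · have h1 := congrArg co (hg'.symm.trans hg)
    rw [co_cf, co_ci] at h1
    have := h.2.1
    omega
  · have h2 : f' = f ∧ i' = i := by rw [hg'] at hg; exact cf_inj hg
    obtain ⟨rfl, rfl⟩ := h2
    exact ⟨a', ho, h⟩
  · have h1 := congrArg co (hg'.symm.trans hg)
    rw [co_ci, co_cf] at h1
    omega

end MPb6M
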