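import Pool.Agent.Lib.MP_b6d339_lc.Mix.Defs
import Pool.Agent.Lib.MP_b6d339_lc.Mix.A1
import Pool.Agent.Lib.MP_b6d339_lc.Mix.A2
import Pool.Agent.Lib.MP_b6d339_lc.Mix.A3
import Pool.Agent.Lib.MP_b6d339_lc.Mix.A4
import Pool.Agent.Lib.MP_b6d339_lc.Mix.A4m
import Pool.Agent.Lib.MP_b6d339_lc.Mix.A5a
import Pool.Agent.Lib.MP_b6d339_lc.Mix.A5
import Pool.Agent.Lib.MP_b6d339_lc.Mix.A5p
import Pool.Agent.Lib.MP_b6d339_lc.Mix.A6a

open Ordinal

namespace MPb6M

/-! # A6: the guard step -/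
variable {S : Sys}

/-! ## sums of thresholds -/

private theorem A6_Th_cons (G : Line S × Need) (Γ : Gds S) (j : ℕ) :
    Th (G :: Γ) j = sm (G.2.o j) (Th Γ j) := rfl

private theorem A6_Th_le (Γ : Gds S) (f : Line S × Need → Need) (j : ℕ)
    (h : ∀ G ∈ Γ, (f G).o j ≤ G.2.o j) : Th (Γ.map fun G => (G.1, f G)) j ≤ Th Γ j := by
  induction Γ with
  | nil => exact le_rfl
  | cons G Γ ih =>
    rw [List.map_cons, A6_Th_cons, A6_Th_cons]
    exact sm_le (h G (by simp)) (ih fun G' hG' => h G' (List.mem_cons_of_mem _ hG'))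

private theorem A6_Th_congr (Γ : Gds S) (f f' : Line S × Need → Need) (j : ℕ)
    (h : ∀ G ∈ Γ, (f G).o j = (f' G).o j) :
    Th (Γ.map fun G => (G.1, f G)) j = Th (Γ.map fun G => (G.1, f' G)) j := by
  induction Γ with
  | nil => rfl
  | cons G Γ ih =>
    rw [List.map_cons, A6_Th_cons, List.map_cons, A6_Th_cons,
      ih fun G' hG' => h G' (List.mem_cons_of_mem _ hG')]
    show sm ((f G).o j) _ = sm ((f' G).o j) _
    rw [h G (by simp)]

private theorem A6_Th_lt (Γ : Gds S) (f : Line S × Need → Need) (j : ℕ)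
    (h : ∀ G ∈ Γ, (f G).o j ≤ G.2.o j) (h0 : ∃ G ∈ Γ, (f G).o j < G.2.o j) :
    Th (Γ.map fun G => (G.1, f G)) j < Th Γ j := by
  induction Γ with
  | nil => obtain ⟨G, hG, _⟩ := h0; simp at hG
  | cons G Γ ih =>
    rw [List.map_cons, A6_Th_cons, A6_Th_cons]
    have h' : ∀ G' ∈ Γ, (f G').o j ≤ G'.2.o j := fun G' hG' => h G' (List.mem_cons_of_mem _ hG')
    obtain ⟨G0, hG0, hlt⟩ := h0
    rcases List.mem_cons.1 hG0 with rfl | hG0
    · exact (sm_le le_rfl (A6_Th_le Γ f j h')).trans_lt (sm_lt_left _ hlt)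
    · exact (sm_lt_right _ (ih h' ⟨G0, hG0, hlt⟩)).trans_le (sm_le (h G (by simp)) le_rfl)

private theorem A6_Th_bound {r : Ordinal.{0}} (hr : Lim r) (Γ : Gds S) (j : ℕ)
    (h : ∀ G ∈ Γ, G.2.o j < r) : Th Γ j < r := by
  induction Γ with
  | nil => exact hr.pos
  | cons G Γ ih =>
    rw [A6_Th_cons]
    exact hr.sm (h G (by simp)) (ih fun G' hG' => h G' (List.mem_cons_of_mem _ hG'))

private theorem A6_Th_filter (p : Line S × Need → Bool) (Γ : Gds S) (j : ℕ) :
    Th (Γ.filter p) j ≤ Th Γ j := by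
  induction Γ with
  | nil => exact le_rfl
  | cons G Γ ih =>
    rw [A6_Th_cons, List.filter_cons]
    split_ifs with hp
    · rw [A6_Th_cons]; exact sm_le le_rfl ih
    · exact ih.trans (le_sm_right _ _)

/-- the first disjunct of `CT` and the second one are inherited by smaller thresholds -/
private theorem A6_CT_mono {μ lam μ1 lam1 : Need} {Γ : Gds S} {f : Line S × Need → Need} {j : ℕ}
    (h : CT μ lam Γ j) (hμ : μ1.o j = μ.o j) (hl : lam1.o j ≤ lam.o j)
    (hf : ∀ G ∈ Γ, (f G).o j ≤ G.2.o j) : CT μ1 lam1 (Γ.map fun G => (G.1, f G)) j := by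
  have hle := A6_Th_le Γ f j hf
  rcases h with ⟨h1, h2⟩ | ⟨h1, h2, h3⟩
  · left
    rw [hμ]
    exact ⟨hle.trans h1, fun l hl' => (sm_le le_rfl hle).trans_lt (h2 l (hl'.trans_le hl))⟩
  · right
    rw [hμ]
    refine ⟨h1, hl.trans h2, fun G hG => ?_⟩
    obtain ⟨G', hG', rfl⟩ := List.mem_map.1 hG
    exact (hf G' hG').trans (h3 G' hG')

/-! ## activation of all guards -/

private theorem A6_actAll {k : ℕ} {t : St} (hW : WFl S t.P t.B) (hV : V S (k + 1) t) {c : Nd}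
    {μ : Need} (hc : (c, some μ) ∈ t.P) (N : ℕ) (Γ : Gds S)
    (hnk : ∀ G ∈ Γ, nk S (k + 1) t c (some G.2) (G.1.Fo c t.B)) :
    ∃ t1 N1, Ext t t1 ∧ WFl S t1.P t1.B ∧ V S (k + 1) t1 ∧ N ≤ N1 ∧ t1.B ≤ N1 ∧
      ∀ G ∈ Γ, ∃ ρ B, S.Req G.2 ρ ∧ t.B ≤ B ∧ B ≤ t1.B ∧ Act S k G.1 c B t1 ρ N1 := by
  induction Γ with
  | nil =>
    exact ⟨t, max N t.B, Ext.refl t, hW, hV, le_max_left _ _, le_max_right _ _, by simp⟩
  | cons G Γ ih =>
    obtain ⟨t1, N1, he1, hW1, hV1, hN1, hB1, hA1⟩ :=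
      ih fun G' hG' => hnk G' (List.mem_cons_of_mem _ hG')
    have hnk1 : nk S (k + 1) t1 c (some G.2) (G.1.Fo c t1.B) :=
      nk_ext hW hW1 he1 G.1 hc (hnk G (by simp))
    obtain ⟨t2, ρ, N2, he2, hW2, hV2, hr, hB2, hA2⟩ := act hW1 hV1 G.1 (he1.P hc) hnk1
    refine ⟨t2, max N1 N2, he1.trans he2, hW2, hV2, hN1.trans (le_max_left _ _),
      hB2.trans (le_max_right _ _), ?_⟩
    intro G' hG'
    rcases List.mem_cons.1 hG' with rfl | hG'
    · exact ⟨ρ, t1.B, hr, he1.B, he2.B, hA2.ext (Ext.refl _) (le_max_right _ _)⟩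
    · obtain ⟨ρ', B', hr', hB', hB'', hA'⟩ := hA1 G' hG'
      exact ⟨ρ', B', hr', hB', hB''.trans he2.B, hA'.ext he2 (le_max_left _ _)⟩

/-! ## small facts on `up` and `pick` -/

private theorem A6_form {a : Need} {ρ : Rq} (hr : S.Req a ρ) (h : ρ.g ≠ ci (S.m + 1)) :
    (∃ j, 1 ≤ j ∧ j ≤ S.d ∧ ρ.g = ci j) ∨ ∃ f i, S.d < f ∧ f ≤ S.m ∧ ρ.g = cf f i := by
  rcases hr with ⟨j, a', hg, ho, h1, h2, _⟩ | ⟨f, i, a', hg, ho, h1, h2, _⟩ | hr
  · exact Or.inl ⟨j, h1, h2, hg⟩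
  · exact Or.inr ⟨f, i, h1, h2, hg⟩
  · exact absurd hr.1 h

private theorem A6_o1 {θ : Need} {ρ : Rq} (hr : S.Req θ ρ) {g1 : Cl} (hg : g1 ≤ ρ.g) {x b : Need}
    (hx : (x = pick ρ b ∧ ρ.g = g1) ∨ x = up ρ) {j : ℕ} (hj1 : 1 ≤ j) (hj : j < co g1)
    (hjd : j ≤ S.d) : x.o j < S.κ j := by
  have hpos : (0 : Ordinal.{0}) < S.κ j := (S.hκ j hj1 hjd).pos
  rcases hx with ⟨rfl, hg1⟩ | rfl
  · show (ρ.o.getD default).o j < S.κ j
    rcases hr with ⟨j', a', hg', ho, h1, h2, h3, h4, h5, h6⟩ |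
      ⟨f, i, a', hg', ho, h1, h2, h3, h4, h5, h6⟩ | hr
    · rw [ho]
      refine h5 j hj1 ?_
      rw [← hg1, hg', co_ci] at hj
      exact hj
    · rw [ho]
      exact h4 j hj1 hjd
    · rw [hr.2]
      exact hpos
  · rw [(up_low (hj.trans_le (co_mono hg))).1]
    exact hpos

private theorem A6_o2 {θ : Need} {ρ : Rq} (hr : S.Req θ ρ) {g1 : Cl} {x b : Need}
    (hx : (x = pick ρ b ∧ ρ.g = g1) ∨ x = up ρ) {j : ℕ} (hj1 : 1 ≤ j) (hj : co g1 ≤ j)
    (hjd : j ≤ S.d) : x.o j ≤ θ.o j := by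
  rcases hx with ⟨rfl, hg1⟩ | rfl
  · show (ρ.o.getD default).o j ≤ θ.o j
    rcases hr with ⟨j', a', hg', ho, h1, h2, h3, h4, h5, h6⟩ |
      ⟨f, i, a', hg', ho, h1, h2, h3, h4, h5, h6⟩ | hr
    · rw [← hg1, hg', co_ci] at hj
      rw [ho]
      rcases hj.eq_or_lt with rfl | hj
      · exact h3.le
      · exact h4 j hj hjd
    · rw [← hg1, hg', co_cf] at hj
      omega
    · rw [hr.2]
      exact zero_le
  · exact (up_le hr).1 j hj1 hjd

private theorem A6_o3 {θ : Need} {ρ : Rq} (hr : S.Req θ ρ) {j0 : ℕ} (hg : ci j0 ≤ ρ.g)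
    (hjd : j0 ≤ S.d) {x b : Need} (hx : (x = pick ρ b ∧ ρ.g = ci j0) ∨ x = up ρ)
    {r : Ordinal.{0}} (hlim : Lim r) (hle : θ.o j0 ≤ r) : x.o j0 < r := by
  have hdm := S.hdm
  rcases hx with ⟨rfl, hg1⟩ | rfl
  · obtain ⟨a', ho, h⟩ := Req.inv_ci hr hg1 hjd
    show (ρ.o.getD default).o j0 < r
    rw [ho]
    exact h.2.2.1.trans_le hle
  · rcases (co_mono hg).eq_or_lt with h1 | h1
    · rw [co_ci] at h1
      have hg1 : ρ.g = ci j0 := by
        rcases hr with ⟨j', a', hg', _⟩ | ⟨f, i, a', hg', ho, h2, h3, _⟩ | hr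
        · rw [hg', co_ci] at h1
          rw [hg', h1]
        · rw [hg', co_cf] at h1
          omega
        · rw [hr.1, co_ci] at h1
          omega
      obtain ⟨a', ho, h⟩ := Req.inv_ci hr hg1 hjd
      rw [up_some ho]
      show (if co ρ.g < j0 then a'.o j0 else if j0 = co ρ.g then a'.o j0 + 1 else 0) < r
      rw [if_neg (by omega), if_pos h1]
      exact hlim.succ (h.2.2.1.trans_le hle)
    · rw [(up_low (j := j0) h1).1]
      exact hlim.pos

/-- the new level sets are inside the answered ones -/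
private theorem A6_lev {θ : Need} {ρ : Rq} (hr : S.Req θ ρ) {μ b : Need}
    (hθ : ∀ h, S.d < h → h ≤ S.m → θ.l h ⊆ μ.l h) {g1 : Cl} (hg : g1 ≤ ρ.g)
    (hform : (∃ j, 1 ≤ j ∧ j ≤ S.d ∧ g1 = ci j) ∨ ∃ f i, S.d < f ∧ f ≤ S.m ∧ g1 = cf f i)
    (hb : ∀ h, S.d < h → h ≤ S.m → co g1 ≤ h →
      b.l h = if h = co g1 then (μ.l h).filter (· < lvl g1) else μ.l h)
    {x : Need} (hx : (x = pick ρ b ∧ ρ.g = g1) ∨ (x = up ρ ∧ (g1 < ρ.g ∨ co g1 ≤ S.d)))
    (hn : ∀ h, S.d < h → h < co g1 → ρ.n h ≤ (b.l h).card) {f : ℕ} (hf : S.d < f)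
    (hf' : f ≤ S.m) : x.l f ⊆ b.l f := by
  have hdm := S.hdm
  rcases lt_trichotomy f (co g1) with h1 | h1 | h1
  · rcases hx with ⟨rfl, hg1⟩ | ⟨rfl, -⟩
    · show (if f < co ρ.g then sub (b.l f) (ρ.n f) else (ρ.o.getD default).l f) ⊆ b.l f
      rw [if_pos (by rw [hg1]; exact h1)]
      exact sub_sub (hn f hf h1)
    · rw [(up_low (h1.trans_le (co_mono hg))).2]
      exact Finset.empty_subset _
  · rcases hform with ⟨j, h2, h3, rfl⟩ | ⟨f', i, h2, h3, rfl⟩
    · rw [co_ci] at h1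
      omega
    · rw [co_cf] at h1
      subst h1
      have hbf := hb f hf hf' le_rfl
      rw [co_cf, if_pos rfl, lvl_cf] at hbf
      rw [hbf]
      rcases hx with ⟨rfl, hg1⟩ | ⟨rfl, hlt⟩
      · obtain ⟨a', ho, h⟩ := Req.inv_cf hr hg1 hf hf'
        show (if f < co ρ.g then sub (b.l f) (ρ.n f) else (ρ.o.getD default).l f) ⊆ _
        rw [if_neg (by rw [hg1, co_cf]; omega), ho]
        exact h.2.2.2.2.1.trans (Finset.filter_subset_filter _ (hθ f hf hf'))
      · rw [co_cf] at hlt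
        have hlt' : cf f i < ρ.g := hlt.resolve_right (by omega)
        have hsub : (up ρ).l f ⊆ μ.l f := ((up_le hr).2 f hf hf').trans (hθ f hf hf')
        intro y hy
        refine Finset.mem_filter.2 ⟨hsub hy, ?_⟩
        rcases hr with ⟨j, a', hg', ho, g1, g2, _⟩ | ⟨f', i', a', hg', ho, g1, g2, g3, g4, g5, _⟩ | hr
        · have := co_mono hg
          rw [hg', co_cf, co_ci] at this
          omega
        · rw [hg', cf_lt_cf] at hlt'
          rcases hlt' with h5 | ⟨h5, h6⟩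
          · rw [(up_low (by rw [hg', co_cf]; exact h5)).2] at hy
            exact absurd hy (Finset.notMem_empty _)
          · subst h5
            rw [up_some ho] at hy
            have hy' : y ∈ (if co ρ.g < f then a'.l f else if f = co ρ.g then
              insert (lvl ρ.g) (a'.l f) else ∅) := hy
            rw [hg', co_cf, lvl_cf, if_neg (lt_irrefl _), if_pos rfl, Finset.mem_insert] at hy'
            rcases hy' with rfl | hy'
            · exact h6
            · exact (Finset.mem_filter.1 (g5 hy')).2.trans h6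
        · rw [up_none hr.2] at hy
          exact absurd hy (Finset.notMem_empty _)
  · have hbf := hb f hf hf' h1.le
    rw [if_neg (by omega)] at hbf
    rw [hbf]
    rcases hx with ⟨rfl, hg1⟩ | ⟨rfl, -⟩
    · show (if f < co ρ.g then sub (b.l f) (ρ.n f) else (ρ.o.getD default).l f) ⊆ _
      rw [if_neg (by rw [hg1]; omega)]
      refine Finset.Subset.trans ?_ (hθ f hf hf')
      rcases hr with ⟨j, a', hg', ho, g1, g2, g3, g4, g5, g6⟩ |
        ⟨f', i', a', hg', ho, g1, g2, g3, g4, g5, g6⟩ | hr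
      · rw [ho]
        exact g6 f hf hf'
      · rw [ho]
        refine g6 f ?_ hf'
        rw [← hg1, hg', co_cf] at h1
        exact h1
      · rw [hr.2]
        exact Finset.empty_subset _
    · exact ((up_le hr).2 f hf hf').trans (hθ f hf hf')

/-- the numbers of the waiting node -/
private theorem A6_w_le {k : ℕ} {t : St} (hV : V S (k + 1) t) {c : Nd}
    {μ lam : Need} {Γ : Gds S} (hG : GS k t c μ lam Γ) {G : Line S × Need} (hGΓ : G ∈ Γ) :
    ∀ n ∈ G.1.w, n ≤ t.B := by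
  have h := nk_not_sub hV hG.mem (hG.le G hGΓ) (hG.nk G hGΓ)
  rw [Set.not_subset] at h
  obtain ⟨π, hπ, _⟩ := h
  have hw := (G.1.pos c t.B π hπ).2.1
  intro n hn
  rw [← hw] at hn
  exact tr_le hn

private theorem A6_repl_sub {P : List Tok} {c : Nd} {o : Option Need} (hc : (c, o) ∈ P) :
    repl P c o ⊆ P := by
  intro x hx
  unfold repl at hx
  rcases List.mem_cons.1 hx with rfl | hx
  · exact hc
  · exact (List.mem_filter.1 hx).1

/-! ## the measure -/

private noncomputable def A6_wt (rk : Need → Ordinal.{1}) (Γ : Gds S) (i : ℕ) : Ordinal.{1} :=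
  (Γ[i]?.map fun G => rk G.2).getD 0

private theorem A6_wt_lt (rk : Need → Ordinal.{1}) (Γ : Gds S) (f : Line S × Need → Need) {n : ℕ}
    (hn : Γ.length = n) (h : ∀ G ∈ Γ, rk (f G) ≤ rk G.2) (h0 : ∃ G ∈ Γ, rk (f G) < rk G.2) :
    (fun i : Fin n => A6_wt rk (Γ.map fun G => (G.1, f G)) i) < fun i : Fin n => A6_wt rk Γ i := by
  rw [Pi.lt_def]
  constructor
  · intro i
    simp only [A6_wt, List.getElem?_map, Option.map_map]
    rcases hi : Γ[(i : ℕ)]? with _ | G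
    · simp
    · simpa using h G (List.mem_of_getElem? hi)
  · obtain ⟨G, hG, hlt⟩ := h0
    obtain ⟨i, hi⟩ := List.mem_iff_getElem?.1 hG
    have hin : i < n := by
      rw [← hn]
      exact (List.getElem?_eq_some_iff.1 hi).1
    refine ⟨⟨i, hin⟩, ?_⟩
    simp only [A6_wt, List.getElem?_map, Option.map_map]
    rw [hi]
    simpa using hlt

/-! ## one physical step -/

/-- guards which are kept after a step of class `g` -/
def KeepK (S : Sys) (g κ : Cl) : Prop := g < κ ∨ (g = κ ∧ (co g ≤ S.d ∨ g = ci (S.m + 1)))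

instance (g κ : Cl) : Decidable (KeepK S g κ) := by unfold KeepK; infer_instance

private theorem A6_step {k : ℕ} {t t1 : St} (hW1 : WFl S t1.P t1.B) (hV1 : V S (k + 1) t1)
    {c : Nd} {μ lam : Need} {Γ : Gds S} (hG : GS k t c μ lam Γ) (he1 : Ext t t1) {ρ : Rq}
    (hr : S.Req lam ρ) {N1 : ℕ} (hB1 : t1.B ≤ N1) (ρf : Line S × Need → Rq)
    (Bf : Line S × Need → ℕ) (hreq : ∀ G ∈ Γ, S.Req G.2 (ρf G)) (hBu : ∀ G ∈ Γ, Bf G ≤ t1.B)
    (hact : ∀ G ∈ Γ, Act S k G.1 c (Bf G) t1 (ρf G) N1) (g1 : Cl) (hg1 : g1 ≤ ρ.g)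
    (hmin : ∀ G ∈ Γ, g1 ≤ (ρf G).g) (hex : g1 = ρ.g ∨ ∃ G ∈ Γ, (ρf G).g = g1 ∧ g1 < G.1.kap)
    (hlf : g1 ≠ ci (S.m + 1)) (hkeep : ∀ G ∈ Γ, g1 < G.1.kap ∨ co g1 ≤ S.d) :
    ∃ s F' μ1 lam1, ∃ f : Line S × Need → Need, Ans S t1 c g1 N1 s ∧ t1.F ⊆ F' ∧
      Rm S (V S k) ((c ++ s, some μ1) :: t1.P) (lastN (c ++ s)) F' ∧
      V S (k + 1) ⟨(c ++ s, some μ1) :: t1.P, lastN (c ++ s), F'⟩ ∧
      WFl S ((c ++ s, some μ1) :: t1.P) (lastN (c ++ s)) ∧
      GS k ⟨(c ++ s, some μ1) :: t1.P, lastN (c ++ s), F'⟩ (c ++ s) μ1 lam1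
        (Γ.map fun G => (G.1, f G)) ∧
      (g1 = ρ.g → S.Adm ρ (some lam1)) ∧ (g1 < ρ.g → S.Req lam1 ρ) ∧
      (∀ G ∈ Γ, NLt S (f G) G.2 ∨ S.NLe (f G) G.2) ∧
      ∀ G ∈ Γ, (ρf G).g = g1 → g1 < G.1.kap → NLt S (f G) G.2 := by
  classical
  have hdm := S.hdm
  have hc1 : (c, some μ) ∈ t1.P := he1.P hG.mem
  -- form of g1
  have hform : (∃ j, 1 ≤ j ∧ j ≤ S.d ∧ g1 = ci j) ∨ ∃ f i, S.d < f ∧ f ≤ S.m ∧ g1 = cf f i := by
    rcases hex with h | ⟨G, hGm, hgG, -⟩
    · rw [h] at hlf ⊢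
      exact A6_form hr hlf
    · rw [← hgG]; exact A6_form (hreq G hGm) (by rw [hgG]; exact hlf)
  -- needs
  let pr : Line S × Need → Prop := fun G => (ρf G).g = g1 ∧ g1 < G.1.kap
  let Fd : Need → Line S × Need → Need := fun b G => if pr G then pick (ρf G) b else up (ρf G)
  let Lm : Need → Need := fun b => if g1 = ρ.g then pick ρ b else up ρ
  have hFdo : ∀ b b' G, (Fd b G).o = (Fd b' G).o := by
    intro b b' G
    simp only [Fd]
    split_ifs <;> rfl
  have hLmo : ∀ b b', (Lm b).o = (Lm b').o := by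
    intro b b'
    simp only [Lm]
    split_ifs <;> rfl
  have hFdx : ∀ b G, (Fd b G = pick (ρf G) b ∧ (ρf G).g = g1) ∨ Fd b G = up (ρf G) := by
    intro b G
    by_cases h : pr G
    · exact Or.inl ⟨if_pos h, h.1⟩
    · exact Or.inr (if_neg h)
  have hLmx : ∀ b, (Lm b = pick ρ b ∧ ρ.g = g1) ∨ Lm b = up ρ := by
    intro b
    by_cases h : g1 = ρ.g
    · exact Or.inl ⟨if_pos h, h.symm⟩
    · exact Or.inr (if_neg h)
  set T : ℕ → Ordinal.{0} := fun j => Th (Γ.map fun G => (G.1, Fd default G)) j with hT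
  let μ1 : Need := ⟨fun j => if j ≤ co g1 then sm ((Lm default).o j) (T j) else μ.o j,
    fun h => if h = co g1 then (μ.l h).filter (· < lvl g1) else μ.l h⟩
  let n1 : ℕ → ℕ := fun h => ρ.n h + (Γ.map fun G => (ρf G).n h).sum
  have hn1 : ∀ G ∈ Γ, ∀ h, (ρf G).n h ≤ n1 h := by
    intro G hGm h
    have : (ρf G).n h ≤ (Γ.map fun G => (ρf G).n h).sum :=
      List.single_le_sum (by simp) _ (List.mem_map.2 ⟨G, hGm, rfl⟩)
    simp only [n1]
    omega
  have hμ1o : ∀ j, j ≤ co g1 → μ1.o j = sm ((Lm default).o j) (T j) := fun j hj => if_pos hj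
  have hμ1o' : ∀ j, co g1 < j → μ1.o j = μ.o j := fun j hj => if_neg (not_le.2 hj)
  -- the bound at the smaller infinite classes
  have hbd : ∀ j, 1 ≤ j → j < co g1 → j ≤ S.d → μ1.o j < S.κ j := by
    intro j hj1 hj hjd
    rw [hμ1o j hj.le]
    refine (S.hκ j hj1 hjd).sm (A6_o1 hr hg1 (hLmx _) hj1 hj hjd)
      (A6_Th_bound (S.hκ j hj1 hjd) _ j fun G' hG' => ?_)
    obtain ⟨G, hGm, rfl⟩ := List.mem_map.1 hG'
    exact A6_o1 (hreq G hGm) (hmin G hGm) (hFdx _ G) hj1 hj hjd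
  have hreq1 : S.Req μ ⟨g1, some μ1, n1⟩ := by
    rcases hform with ⟨j0, h1, h2, rfl⟩ | ⟨f, i, h1, h2, rfl⟩
    · refine Or.inl ⟨j0, μ1, rfl, rfl, h1, h2, ?_, ?_, ?_, ?_⟩
      · rw [hμ1o j0 le_rfl]
        by_cases hgr : ci j0 = ρ.g
        · -- the final class
          have hl : (Lm default).o j0 < lam.o j0 := by
            obtain ⟨a', ho, h⟩ := Req.inv_ci hr hgr.symm h2
            have : Lm default = pick ρ default := if_pos hgr
            rw [this]
            show (ρ.o.getD default).o j0 < lam.o j0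
            rw [ho]
            exact h.2.2.1
          rcases hG.ct j0 h1 h2 with ⟨h3, h4⟩ | ⟨h3, h4, h5⟩
          · exact (sm_le le_rfl (A6_Th_le Γ _ j0 fun G hGm =>
              A6_o2 (hreq G hGm) (hFdx _ G) h1 le_rfl h2)).trans_lt (h4 _ hl)
          · refine h3.sm (hl.trans_le h4) (A6_Th_bound h3 _ j0 fun G' hG' => ?_)
            obtain ⟨G, hGm, rfl⟩ := List.mem_map.1 hG'
            exact A6_o3 (hreq G hGm) (hmin G hGm) h2 (hFdx _ G) h3 (h5 G hGm)
        · have hlt : ci j0 < ρ.g := lt_of_le_of_ne hg1 hgr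
          have hl : (Lm default).o j0 = 0 := by
            have : Lm default = up ρ := if_neg hgr
            rw [this]
            refine (up_low ?_).1
            rcases (co_mono hg1).eq_or_lt with h3 | h3
            · exfalso
              rw [co_ci] at h3
              by_cases hlf' : ρ.g = ci (S.m + 1)
              · rw [hlf', co_ci] at h3
                omega
              · rcases A6_form hr hlf' with ⟨j, _, _, h4⟩ | ⟨f, i, h4, _, h5⟩
                · rw [h4, co_ci] at h3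
                  rw [h3, h4] at hgr
                  exact hgr rfl
                · rw [h5, co_cf] at h3
                  omega
            · exact h3
          rw [hl, sm_zero_left]
          obtain ⟨G0, hG0, hgG0, hkG0⟩ := hex.resolve_left hgr
          rcases hG.ct j0 h1 h2 with ⟨h3, h4⟩ | ⟨h3, h4, h5⟩
          · refine (A6_Th_lt Γ _ j0 (fun G hGm => A6_o2 (hreq G hGm) (hFdx _ G) h1 le_rfl h2)
              ⟨G0, hG0, ?_⟩).trans_le h3
            obtain ⟨a', ho, h⟩ := Req.inv_ci (hreq G0 hG0) hgG0 h2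
            have : Fd default G0 = pick (ρf G0) default := if_pos ⟨hgG0, hkG0⟩
            rw [this]
            show ((ρf G0).o.getD default).o j0 < G0.2.o j0
            rw [ho]
            exact h.2.2.1
          · refine A6_Th_bound h3 _ j0 fun G' hG' => ?_
            obtain ⟨G, hGm, rfl⟩ := List.mem_map.1 hG'
            exact A6_o3 (hreq G hGm) (hmin G hGm) h2 (hFdx _ G) h3 (h5 G hGm)
      · intro j hj _
        rw [hμ1o' j hj]
      · intro j hj1 hj
        exact hbd j hj1 hj (by omega)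
      · intro f hf hf'
        show (if f = co (ci j0) then (μ.l f).filter (· < lvl (ci j0)) else μ.l f) ⊆ μ.l f
        rw [if_neg (by rw [co_ci]; omega)]
    · refine Or.inr (Or.inl ⟨f, i, μ1, rfl, rfl, h1, h2, ?_, ?_, ?_, ?_⟩)
      · rcases hex with h | ⟨G, hGm, hgG, -⟩
        · obtain ⟨a', ho, h3⟩ := Req.inv_cf hr h.symm h1 h2
          exact hG.cfl f h1 h2 h3.2.2.1
        · obtain ⟨a', ho, h3⟩ := Req.inv_cf (hreq G hGm) hgG h1 h2
          exact hG.cfg f h1 h2 G hGm h3.2.2.1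
      · intro j hj1 hj
        exact hbd j hj1 (by rw [co_cf]; omega) hj
      · show (if f = co (cf f i) then (μ.l f).filter (· < lvl (cf f i)) else μ.l f) ⊆ _
        rw [if_pos (co_cf f i).symm, lvl_cf]
      · intro h hh hh'
        show (if h = co (cf f i) then (μ.l h).filter (· < lvl (cf f i)) else μ.l h) ⊆ _
        rw [if_neg (by rw [co_cf]; omega)]
  obtain ⟨s, b, F', hs, hb, hF', hRm, hV'⟩ := V_step hV1 hc1 hreq1 N1
  have hW' := WF_cons (F := t1.F) hW1 hc1 hreq1 hs hb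
  obtain ⟨b', rfl, hbo, hbl1, hbl2⟩ : ∃ b' : Need, b = some b' ∧ b'.o = μ1.o ∧
      (∀ h, S.d < h → h ≤ S.m → h < co g1 → (b'.l h).card = n1 h) ∧
      ∀ h, S.d < h → h ≤ S.m → co g1 ≤ h → b'.l h = μ1.l h := by
    rcases hb with ⟨h1, -⟩ | ⟨a', b', h1, h2, h3, h4⟩
    · exact absurd h1 (by simp)
    · have h5 : μ1 = a' := Option.some.inj h1
      subst h5
      refine ⟨b', h2, h3, fun h hh hh' hlt => ?_, fun h hh hh' hle => ?_⟩
      · have := h4 h hh hh'
        rw [if_pos hlt] at this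
        exact this
      · have := h4 h hh hh'
        rw [if_neg (not_lt.2 hle)] at this
        exact this
  set t' : St := ⟨(c ++ s, some b') :: t1.P, lastN (c ++ s), F'⟩ with ht'
  have he' : Ext t1 t' := Ext.step hs hF'
  have hmem' : (c ++ s, some b') ∈ t'.P := List.mem_cons_self
  have hnds' : c ++ s ∈ nds t'.P := List.mem_map.2 ⟨_, hmem', rfl⟩
  have hcm : ∀ h, S.d < h → h < co g1 → h ≤ S.m := by
    intro h _ hh
    rcases hform with ⟨j0, h1, h2, rfl⟩ | ⟨f, i, h1, h2, rfl⟩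
    · rw [co_ci] at hh; omega
    · rw [co_cf] at hh; omega
  have hTb : ∀ j, Th (Γ.map fun G => (G.1, Fd b' G)) j = T j := fun j =>
    A6_Th_congr Γ _ _ j fun G _ => by rw [hFdo b' default G]
  refine ⟨s, F', b', Lm b', Fd b', hs, hF', hRm, hV', hW', ⟨hmem', ?_, ?_, ?_, ?_⟩, ?_, ?_, ?_, ?_⟩
  · intro j hj1 hjd
    by_cases hj : j ≤ co g1
    · left
      rw [hTb, hbo, hμ1o j hj, hLmo b' default]
      exact ⟨le_sm_right _ _, fun l hl => sm_lt_left _ hl⟩
    · push Not at hj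
      refine A6_CT_mono (hG.ct j hj1 hjd) (by rw [hbo, hμ1o' j hj])
        (A6_o2 hr (hLmx _) hj1 hj.le hjd) fun G hGm =>
          A6_o2 (hreq G hGm) (hFdx _ G) hj1 hj.le hjd
  · intro f hf hf'
    refine A6_lev hr hG.cfl hg1 hform (fun h hh hh' hle => hbl2 h hh hh' hle) ?_
      (fun h hh hlt => ?_) hf hf'
    · by_cases h : g1 = ρ.g
      · exact Or.inl ⟨if_pos h, h.symm⟩
      · exact Or.inr ⟨if_neg h, Or.inl (lt_of_le_of_ne hg1 h)⟩
    · rw [hbl1 h hh (hcm h hh hlt) hlt]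
      simp only [n1]
      omega
  · intro f hf hf' G' hG'
    obtain ⟨G, hGm, rfl⟩ := List.mem_map.1 hG'
    refine A6_lev (hreq G hGm) (fun h hh hh' => hG.cfg h hh hh' G hGm) (hmin G hGm) hform
      (fun h hh hh' hle => hbl2 h hh hh' hle) ?_ (fun h hh hlt => ?_) hf hf'
    · by_cases h : pr G
      · exact Or.inl ⟨if_pos h, h.1⟩
      · refine Or.inr ⟨if_neg h, ?_⟩
        rcases (hmin G hGm).eq_or_lt with h1 | h1
        · right
          rcases hkeep G hGm with h2 | h2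
          · exact absurd ⟨h1.symm, h2⟩ h
          · exact h2
        · exact Or.inl h1
    · rw [hbl1 h hh (hcm h hh hlt) hlt]
      exact hn1 G hGm h
  · intro G' hG'
    obtain ⟨G, hGm, rfl⟩ := List.mem_map.1 hG'
    by_cases h : pr G
    · have hne : (ρf G).o ≠ none := by
        intro h1
        have := (Req.none_iff (hreq G hGm)).1 h1
        rw [h.1] at this
        exact hlf this
      have h2 := (hact G hGm).P1 (by rw [h.1]; exact h.2) ((hBu G hGm).trans hB1) he' hW'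
        hs.ne (fun n hn => (hs.big n hn).1) (hs.cl.trans h.1.symm) hnds' rfl hRm
        (pick_adm hne b')
      have h3 : Fd b' G = pick (ρf G) b' := if_pos h
      show nk S (k + 1) t' (c ++ s) (some (Fd b' G)) _
      rw [h3]
      exact h2
    · have h2 := (hact G hGm).P2 hW1 ((hBu G hGm).trans hB1) hB1 he' hW' hs.ne
        (fun n hn => (hs.big n hn).1) (by rw [hs.cl]; exact hmin G hGm) hmem'
        (up_req (hreq G hGm))
      have h3 : Fd b' G = up (ρf G) := if_neg h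
      show nk S (k + 1) t' (c ++ s) (some (Fd b' G)) _
      rw [h3]
      exact h2
  · intro h
    have h3 : Lm b' = pick ρ b' := if_pos h
    rw [h3]
    refine pick_adm (fun h1 => ?_) b'
    have := (Req.none_iff hr).1 h1
    rw [← h] at this
    exact hlf this
  · intro h
    have h3 : Lm b' = up ρ := if_neg h.ne
    rw [h3]
    exact up_req hr
  · intro G hGm
    by_cases h : pr G
    · have hne : (ρf G).o ≠ none := by
        intro h1
        have := (Req.none_iff (hreq G hGm)).1 h1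
        rw [h.1] at this
        exact hlf this
      have h3 : Fd b' G = pick (ρf G) b' := if_pos h
      rw [h3]
      exact Or.inl (NLt.of_adm (hreq G hGm) (pick_adm hne b'))
    · have h3 : Fd b' G = up (ρf G) := if_neg h
      rw [h3]
      exact Or.inr (up_le (hreq G hGm))
  · intro G hGm hg hk
    have hne : (ρf G).o ≠ none := by
      intro h1
      have := (Req.none_iff (hreq G hGm)).1 h1
      rw [hg] at this
      exact hlf this
    have h3 : Fd b' G = pick (ρf G) b' := if_pos ⟨hg, hk⟩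
    rw [h3]
    exact NLt.of_adm (hreq G hGm) (pick_adm hne b')

/-! ## the main induction -/

private theorem A6_main (rk : Need → Ordinal.{1}) (hrk1 : ∀ a' a, NLt S a' a → rk a' < rk a)
    (hrk2 : ∀ a' a, S.NLe a' a → rk a' ≤ rk a) {k : ℕ} {ρ : Rq} (N : ℕ)
    (n : ℕ) (v : Fin n → Ordinal.{1}) :
    ∀ {t : St} (_ : WFl S t.P t.B) (_ : V S (k + 1) t) {c : Nd}
    {μ lam : Need} {Γ : Gds S} (_ : GS k t c μ lam Γ)
    (_ : S.Req lam ρ) (_ : ∀ G ∈ Γ, KeepK S ρ.g G.1.kap)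
    (_ : Γ.length = n) (_ : (fun i : Fin n => A6_wt rk Γ i) = v),
    ∃ t' s, Ext t t' ∧ WFl S t'.P t'.B ∧ V S (k + 1) t' ∧ s ≠ [] ∧ (∀ n ∈ s, N < n ∧ t.B < n) ∧
      s.Pairwise (· < ·) ∧ S.Val (c ++ s) ∧
      S.cl s = ρ.g ∧ t'.B = lastN (c ++ s) ∧ Rm S (V S k) t'.P t'.B t'.F ∧
      (ρ.o = none → (c ++ s, none) ∈ t'.P ∧ ∀ G ∈ Γ, G.1.kap = ci (S.m + 1) →
        ∃ π ∈ G.1.Fo c t.B ∩ G.1.Thr (c ++ s) t'.B, π ∉ t'.F) ∧
      (ρ.o ≠ none → ∃ lam' μ' Γ', S.Adm ρ (some lam') ∧ GS k t' (c ++ s) μ' lam' Γ' ∧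
        Γ'.map Prod.fst = Γ.map Prod.fst) := by
  induction v using WellFoundedLT.induction with
  | ind v ih =>
  intro t hW hV c μ lam Γ hG hr hkap hlen hv
  obtain ⟨t1, N1, he1, hW1, hV1, hN1, hB1, hA⟩ := A6_actAll hW hV hG.mem N Γ hG.nk
  choose! ρf Bf hreq hBl hBu hact using hA
  have hc1 : (c, some μ) ∈ t1.P := he1.P hG.mem
  have hgle : ρ.g ≤ ci (S.m + 1) := Req.g_le hr
  have hcB : ∀ n ∈ c, n ≤ t.B := hW.bd _ hG.mem
  have hkle : ∀ G ∈ Γ, ρ.g ≤ G.1.kap := by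
    intro G hGm
    rcases hkap G hGm with h | h
    · exact h.le
    · exact h.1.le
  by_cases hlow : ∃ G ∈ Γ, (ρf G).g < ρ.g
  · -- some failing class is small
    obtain ⟨G0, hG0, hmin⟩ : ∃ G0 ∈ Γ, ∀ G ∈ Γ, (ρf G0).g ≤ (ρf G).g := by
      obtain ⟨G, hGm, -⟩ := hlow
      obtain ⟨G0, hG0, hm⟩ := Set.exists_min_image {G | G ∈ Γ} (fun G => (ρf G).g)
        (List.finite_toSet Γ) ⟨G, hGm⟩
      exact ⟨G0, hG0, hm⟩
    have hg0 : (ρf G0).g < ρ.g := by
      obtain ⟨G, hGm, hlt⟩ := hlow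
      exact (hmin G hGm).trans_lt hlt
    have hkG : ∀ G ∈ Γ, (ρf G0).g < G.1.kap := fun G hGm => hg0.trans_le (hkle G hGm)
    obtain ⟨s, F', μ1, lam1, f, hs, hF', hRm, hV', hW', hGS', -, hr1, hle1, hlt1⟩ :=
      A6_step hW1 hV1 hG he1 hr hB1 ρf Bf hreq hBu hact (ρf G0).g hg0.le hmin
        (Or.inr ⟨G0, hG0, rfl, hkG G0 hG0⟩) (hg0.trans_le hgle).ne fun G hGm => Or.inl (hkG G hGm)
    set t' : St := ⟨(c ++ s, some μ1) :: t1.P, lastN (c ++ s), F'⟩ with ht'
    have he' : Ext t1 t' := Ext.step hs hF'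
    have hmem' : (c ++ s, some μ1) ∈ t'.P := List.mem_cons_self
    set Γ1 : Gds S := Γ.map fun G => (G.1, f G) with hΓ1
    have hkap1 : ∀ G ∈ Γ1, KeepK S ρ.g G.1.kap := by
      intro G' hG'
      obtain ⟨G, hGm, rfl⟩ := List.mem_map.1 hG'
      exact hkap G hGm
    have hdec : (fun i : Fin n => A6_wt rk Γ1 i) < v := by
      rw [← hv]
      refine A6_wt_lt rk Γ f hlen (fun G hGm => ?_) ⟨G0, hG0, ?_⟩
      · rcases hle1 G hGm with h | h
        · exact (hrk1 _ _ h).le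
        · exact hrk2 _ _ h
      · exact hrk1 _ _ (hlt1 G0 hG0 rfl (hkG G0 hG0))
    obtain ⟨t'', s'', he'', hW'', hV'', hs1, hs2, hs3, hs4, hs5, hs6, hs7, hs8, hs9⟩ :=
      ih _ hdec hW' hV' hGS' (hr1 hg0) hkap1 (by rw [hΓ1, List.length_map, hlen]) rfl
    have het : Ext t t' := he1.trans he'
    have hsB : ∀ n ∈ s, n ≤ t'.B := fun n hn =>
      hW'.bd _ hmem' n (List.mem_append_right _ hn)
    refine ⟨t'', s ++ s'', het.trans he'', hW'', hV'', by simp [hs.ne], ?_, ?_, ?_, ?_, ?_, hs7,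
      ?_, ?_⟩
    · intro n hn
      rcases List.mem_append.1 hn with hn | hn
      · have := hs.big n hn
        have h2 := he1.B
        exact ⟨by omega, by omega⟩
      · have := hs2 n hn
        have h2 := het.B
        exact ⟨by omega, by omega⟩
    · rw [List.pairwise_append]
      refine ⟨hs.inc, hs3, fun a ha b hb => ?_⟩
      exact (hsB a ha).trans_lt (hs2 b hb).2
    · rw [← List.append_assoc]; exact hs4
    · rw [cl_append, hs5, hs.cl]
      exact max_eq_right hg0.le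
    · rw [← List.append_assoc]; exact hs6
    · intro ho
      rw [← List.append_assoc]
      obtain ⟨h1, h2⟩ := hs8 ho
      refine ⟨h1, fun G hGm hkG' => ?_⟩
      obtain ⟨π, ⟨hπ1, hπ2⟩, hπ3⟩ := h2 (G.1, f G) (List.mem_map.2 ⟨G, hGm, rfl⟩) hkG'
      refine ⟨π, ⟨?_, hπ2⟩, hπ3⟩
      refine G.1.up c t.B s t'.B π hπ1 hcB (A6_w_le hV hG hGm) (fun n hn => ?_) het.B ?_
      · have := hs.big n hn
        have h2 := he1.B
        omega
      · rw [hs.cl]
        exact (hkG G hGm).le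
    · intro ho
      rw [← List.append_assoc]
      obtain ⟨lam', μ', Γ', h0, h1, h2⟩ := hs9 ho
      refine ⟨lam', μ', Γ', h0, h1, ?_⟩
      rw [h2, hΓ1, List.map_map]
      rfl
  · -- all failing classes are at least `g`
    push Not at hlow
    by_cases ho : ρ.o = none
    · -- leaf request
      have hgD : ρ.g = ci (S.m + 1) := (Req.none_iff hr).1 ho
      have hall : ∀ G ∈ Γ, (ρf G).g = ci (S.m + 1) := fun G hGm =>
        le_antisymm (Req.g_le (hreq G hGm)) (hgD ▸ hlow G hGm)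
      have halln : ∀ G ∈ Γ, (ρf G).o = none := fun G hGm =>
        (Req.none_iff (hreq G hGm)).2 (hall G hGm)
      have hreq0 : S.Req μ ρ := Or.inr (Or.inr ⟨hgD, ho⟩)
      obtain ⟨s, b, F', hs, hb, hF', hRm, hV'⟩ := V_step hV1 hc1 hreq0 N1
      have hbn : b = none := (Adm.none_iff hb).2 ho
      subst hbn
      have hW' := WF_cons (F := t1.F) hW1 hc1 hreq0 hs hb
      set t' : St := ⟨(c ++ s, none) :: t1.P, lastN (c ++ s), F'⟩ with ht'
      have he' : Ext t1 t' := Ext.step hs hF'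
      have hmem' : (c ++ s, none) ∈ t'.P := List.mem_cons_self
      have hnds' : c ++ s ∈ nds t'.P := List.mem_map.2 ⟨_, hmem', rfl⟩
      refine ⟨t', s, he1.trans he', hW', hV', hs.ne, ?_, hs.inc, hs.val, hs.cl, rfl, hRm,
        fun _ => ⟨hmem', fun G hGm hkG => ?_⟩, fun h => absurd ho h⟩
      · intro n hn
        have := hs.big n hn
        have h2 := he1.B
        exact ⟨by omega, by omega⟩
      · have hact' := hact G hGm t' he' hW' s hs.ne (fun n hn => (hs.big n hn).1)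
          (by rw [hs.cl, hall G hGm, hgD]) hnds' rfl hRm none (Or.inl ⟨halln G hGm, rfl⟩)
        by_contra hcon
        push Not at hcon
        apply hact'
        refine V_mono (P := t'.P) (B := t'.B) (F := t'.F) hV'
          (Less.of_subset (A6_repl_sub hmem')) ?_
        intro π hπ
        rcases hπ with hπ | ⟨hπ1, hπ2⟩
        · exact hπ
        · refine hcon π ⟨?_, hπ2⟩
          have hB := hBl G hGm
          refine G.1.up c t.B [] (Bf G) π (by simpa using hπ1) hcB (A6_w_le hV hG hGm) (by simp)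
            hB ?_
          rw [cl_nil]
          exact G.1.kap_pos.le
    · -- the final request
      have hlf : ρ.g ≠ ci (S.m + 1) := fun h => ho ((Req.none_iff hr).2 h)
      obtain ⟨s, F', μ1, lam1, f, hs, hF', hRm, hV', hW', hGS', hadm, -, -, -⟩ :=
        A6_step hW1 hV1 hG he1 hr hB1 ρf Bf hreq hBu hact ρ.g le_rfl hlow (Or.inl rfl) hlf
          fun G hGm => by
            rcases hkap G hGm with h | ⟨-, h | h⟩
            · exact Or.inl h
            · exact Or.inr h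
            · exact absurd h hlf
      have he' : Ext t1 ⟨(c ++ s, some μ1) :: t1.P, lastN (c ++ s), F'⟩ := Ext.step hs hF'
      refine ⟨_, s, he1.trans he', hW', hV', hs.ne, ?_, hs.inc, hs.val, hs.cl, rfl, hRm,
        fun h => absurd h ho, fun _ => ⟨lam1, μ1, _, hadm rfl, hGS', ?_⟩⟩
      · intro n hn
        have := hs.big n hn
        have h2 := he1.B
        exact ⟨by omega, by omega⟩
      · rw [List.map_map]
        rfl

/-- **The guard step.** First drop the guards which are not kept. Use `act`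
for every guard (one after the other, `nk_ext`, `Act.ext`): one state `t1`, `N1`, and for every
guard `G` a request from `G.2` and a time `B_G ∈ [t.B, t1.B]` with `Act`. Well-founded induction on
the ranks (`exists_rank`) of the thresholds (product order). -/
theorem guard_step {k : ℕ} {t : St} (hW : WFl S t.P t.B) (hV : V S (k + 1) t) {c : Nd}
    {μ lam : Need} {Γ : Gds S} (hG : GS k t c μ lam Γ) {ρ : Rq}
    (hr : S.Req lam ρ) (N : ℕ) :
    ∃ t' s, Ext t t' ∧ WFl S t'.P t'.B ∧ V S (k + 1) t' ∧ s ≠ [] ∧ (∀ n ∈ s, N < n ∧ t.B < n) ∧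
      s.Pairwise (· < ·) ∧ S.Val (c ++ s) ∧
      S.cl s = ρ.g ∧ t'.B = lastN (c ++ s) ∧ Rm S (V S k) t'.P t'.B t'.F ∧
      (ρ.o = none → (c ++ s, none) ∈ t'.P ∧ ∀ G ∈ Γ, G.1.kap = ci (S.m + 1) →
        ∃ π ∈ G.1.Fo c t.B ∩ G.1.Thr (c ++ s) t'.B, π ∉ t'.F) ∧
      (ρ.o ≠ none → ∃ lam' μ' Γ', S.Adm ρ (some lam') ∧ GS k t' (c ++ s) μ' lam' Γ' ∧
        Γ'.map Prod.fst = (Γ.map Prod.fst).filter fun L => decide (KeepK S ρ.g L.kap)) := by
  obtain ⟨rk, hrk1, hrk2⟩ := exists_rank S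
  set Γ0 : Gds S := Γ.filter fun G => decide (KeepK S ρ.g G.1.kap) with hΓ0
  have hG0 : GS k t c μ lam Γ0 := by
    refine ⟨hG.mem, ?_, hG.cfl, fun f hf hf' G hGm => hG.cfg f hf hf' G (List.mem_filter.1 hGm).1,
      fun G hGm => hG.nk G (List.mem_filter.1 hGm).1⟩
    intro j hj1 hjD
    have hle := A6_Th_filter (fun G => decide (KeepK S ρ.g G.1.kap)) Γ j
    rcases hG.ct j hj1 hjD with ⟨h1, h2⟩ | ⟨h1, h2, h3⟩
    · exact Or.inl ⟨hle.trans h1, fun l hl => (sm_le le_rfl hle).trans_lt (h2 l hl)⟩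
    · exact Or.inr ⟨h1, h2, fun G hGm => h3 G (List.mem_filter.1 hGm).1⟩
  obtain ⟨t', s, h1, h2, h3, h4, h5, h6, h7, h8, h9, h10, h11, h12⟩ :=
    A6_main rk hrk1 hrk2 N Γ0.length _ hW hV hG0 hr
      (fun G hGm => of_decide_eq_true (List.mem_filter.1 hGm).2) rfl rfl
  refine ⟨t', s, h1, h2, h3, h4, h5, h6, h7, h8, h9, h10, ?_, ?_⟩
  · intro ho
    obtain ⟨hl1, hl2⟩ := h11 ho
    refine ⟨hl1, fun G hGm hkG => hl2 G (List.mem_filter.2 ⟨hGm, ?_⟩) hkG⟩
    have := (Req.none_iff hr).1 ho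
    exact decide_eq_true (Or.inr ⟨this.trans hkG.symm, Or.inr this⟩)
  · intro ho
    obtain ⟨lam', μ', Γ', h0, ha, hb⟩ := h12 ho
    refine ⟨lam', μ', Γ', h0, ha, ?_⟩
    rw [hb, hΓ0, List.filter_map]
    rfl

end MPb6M
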