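import Pool.Agent.Lib.MP_b6d339_lc.Mix.Defs
import Pool.Agent.Lib.MP_b6d339_lc.Mix.A1
import Pool.Agent.Lib.MP_b6d339_lc.Mix.A2
import Pool.Agent.Lib.MP_b6d339_lc.Mix.A3
import Pool.Agent.Lib.MP_b6d339_lc.Mix.A4
import Pool.Agent.Lib.MP_b6d339_lc.Mix.A4m
import Pool.Agent.Lib.MP_b6d339_lc.Mix.A5a
import Pool.Agent.Lib.MP_b6d339_lc.Mix.A5
import Pool.Agent.Lib.MP_b6d339_lc.Mix.A5p
import Pool.Agent.Lib.MP_b6d339_lc.Mix.A6a
import Pool.Agent.Lib.MP_b6d339_lc.Mix.A6

open Ordinal

namespace MPb6M

/-! # A10: activation of com -/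
variable {S : Sys}

/-- pairs whose components are both at `c` at time `B` -/
def Com (All : Set Pr) (c : Nd) (B : ℕ) : Set Pr := {π ∈ All | tr π.1 B = c ∧ tr π.2 B = c}

/-- properties of the set of all blue pairs -/
structure AllOK (S : Sys) (All : Set Pr) : Prop where
  inc : ∀ π ∈ All, π.1.Pairwise (· < ·) ∧ π.2.Pairwise (· < ·)
  ne : ∀ π ∈ All, π.1 ≠ π.2
  leaf : ∀ π ∈ All, S.cl π.1 = ci (S.m + 1) ∧ S.cl π.2 = ci (S.m + 1)
  leaf' : ∀ π ∈ All, ∀ B, (S.cl (tr π.1 B) = ci (S.m + 1) → tr π.1 B = π.1) ∧
    (S.cl (tr π.2 B) = ci (S.m + 1) → tr π.2 B = π.2)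

theorem A10_WF_repl {P : List Tok} {B : ℕ} (hW : WFl S P B) {c : Nd} {o o' : Option Need}
    (hc : (c, o') ∈ P) (hoo : o' = none ↔ o = none) : WFl S (repl P c o) B := by
  have hsub : ∀ p ∈ repl P c o, p = (c, o) ∨ (p ∈ P ∧ p.1 ≠ c) := by
    intro p hp
    rcases List.mem_cons.mp hp with h | h
    · exact Or.inl h
    · have h2 := List.mem_filter.mp h
      exact Or.inr ⟨h2.1, by simpa using h2.2⟩
  refine ⟨?_, ?_, ?_, ?_, ?_, ?_⟩
  · have h1 : nds (repl P c o) = c :: nds (P.filter (fun t => decide (t.1 ≠ c))) := rfl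
    rw [h1, List.nodup_cons]
    constructor
    · intro hmem
      obtain ⟨p, hp, hpe⟩ := List.mem_map.mp hmem
      have h2 := (List.mem_filter.mp hp).2
      simp only [decide_eq_true_eq] at h2
      exact h2 hpe
    · have h3 : (nds (P.filter (fun t => decide (t.1 ≠ c)))).Sublist (nds P) :=
        List.Sublist.map _ List.filter_sublist
      exact h3.nodup hW.nd
  · intro p hp
    rcases hsub p hp with h | ⟨h, -⟩
    · rw [h]; exact hW.inc (c, o') hc
    · exact hW.inc _ h
  · intro p hp
    rcases hsub p hp with h | ⟨h, -⟩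
    · rw [h]; exact hW.bd (c, o') hc
    · exact hW.bd _ h
  · intro p hp
    rcases hsub p hp with h | ⟨h, -⟩
    · rw [h]; exact hW.val (c, o') hc
    · exact hW.val _ h
  · intro e a hp
    rcases hsub _ hp with h | ⟨h, -⟩
    · obtain ⟨h5, h6⟩ := Prod.mk.inj h
      rw [h5]
      rcases o' with _ | a'
      · have := hoo.mp rfl
        rw [this] at h6
        exact absurd h6 (by simp)
      · exact hW.nl c a' hc
    · exact hW.nl e a h
  · intro e hp
    rcases hsub _ hp with h | ⟨h, -⟩
    · obtain ⟨h5, h6⟩ := Prod.mk.inj h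
      rw [h5]
      have h7 := hoo.mpr h6.symm
      rw [h7] at hc
      exact hW.lf c hc
    · exact hW.lf e h

theorem A10_mem_repl {P : List Tok} {c : Nd} {o : Option Need} {p : Tok} (hp : p ∈ P)
    (h : p.1 ≠ c) : p ∈ repl P c o :=
  List.mem_cons_of_mem _ (List.mem_filter.mpr ⟨hp, by simpa using h⟩)

theorem A10_mem_nds {P : List Tok} {e : Nd} (h : e ∈ nds P) : ∃ o, (e, o) ∈ P := by
  obtain ⟨p, hp, hpe⟩ := List.mem_map.mp h
  exact ⟨p.2, by rw [← hpe]; exact hp⟩

theorem A10_nds_mem {P : List Tok} {e : Nd} {o : Option Need} (h : (e, o) ∈ P) : e ∈ nds P :=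
  List.mem_map.mpr ⟨_, h, rfl⟩

/-- a room is inherited, if the need of `c` is replaced (leaf or not) -/
theorem A10_Rm_repl {W : St → Prop} {P : List Tok} {B : ℕ} {F : Set Pr} {c : Nd}
    {o o' : Option Need} (hc : (c, o') ∈ P) (hoo : o' = none ↔ o = none)
    (hR : Rm S W P B F) : Rm S W (repl P c o) B F := by
  rcases o' with _ | μ
  · have h1 := hoo.mp rfl
    subst h1
    refine Rm_mono ⟨?_, ?_⟩ subset_rfl hR
    · intro e a he
      rcases List.mem_cons.mp he with h | h
      · exact absurd (Prod.mk.inj h).2 (by simp)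
      · exact ⟨a, (List.mem_filter.mp h).1, NLe.refl a⟩
    · intro e he
      rcases List.mem_cons.mp he with h | h
      · rw [h]; exact hc
      · exact (List.mem_filter.mp h).1
  · rcases o with _ | θ
    · exact absurd (hoo.mpr rfl) (by simp)
    · exact Rm_repl hc hR

/-- Activation of `Com` at the root. As `act`: suppose not, coinduction with
`𝒮 = {u | ∃ tc, V S (k+1) tc ∧ WFl S tc.P tc.B ∧ Ext t tc ∧ u.B = tc.B ∧ u.F = tc.F ∪ All ∧
  (every token of u at [] is ([], some rootN)) ∧ (every other token of u is a token of tc) ∧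
  (∀ π ∈ All, tr π.1 u.B ∈ nds u.P → tr π.2 u.B ∈ nds u.P → (tr π.1 u.B ≠ [] ∨ tr π.2 u.B ≠ []) →
     π ∈ tc.F)}`. -/
theorem act_com {k : ℕ} {F All : Set Pr} (hA : AllOK S All)
    (hW : WFl S [([], some (rootN S))] 0)
    (hN : ¬ V S (k + 1) ⟨[([], some (rootN S))], 0, F ∪ All⟩)
    (hV : V S (k + 1) ⟨[([], some (rootN S))], 0, F⟩) :
    ∃ t1 ρ N, Ext ⟨[([], some (rootN S))], 0, F⟩ t1 ∧ WFl S t1.P t1.B ∧ V S (k + 1) t1 ∧
      S.Req (rootN S) ρ ∧ t1.B ≤ N ∧
      ∀ t' : St, Ext t1 t' → WFl S t'.P t'.B → ∀ s, s ≠ [] → (∀ n ∈ s, N < n) → S.cl s = ρ.g →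
        s ∈ nds t'.P → t'.B = lastN s → Rm S (V S k) t'.P t'.B t'.F → ∀ b, S.Adm ρ b →
        ¬ V S (k + 1) ⟨repl t'.P s b, t'.B,
          t'.F ∪ {π ∈ All | tr π.1 t'.B = s ∨ tr π.2 t'.B = s}⟩ := by
  classical
  by_contra hcon
  apply hN
  refine V_coind {u | ∃ tc : St, V S (k+1) tc ∧ WFl S tc.P tc.B ∧
    Ext ⟨[([], some (rootN S))], 0, F⟩ tc ∧ u.B = tc.B ∧ u.F = tc.F ∪ All ∧
    (∀ o, ([], o) ∈ u.P → o = some (rootN S)) ∧ (∀ e o, (e, o) ∈ u.P → e ≠ [] → (e, o) ∈ tc.P) ∧
    (∀ π ∈ All, tr π.1 u.B ∈ nds u.P → tr π.2 u.B ∈ nds u.P →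
      (tr π.1 u.B ≠ [] ∨ tr π.2 u.B ≠ []) → π ∈ tc.F)} ?_ ?_
  · rintro u ⟨tc, hVc, hWc, hE, hB, hF, hroot, hoth, hinv⟩
    -- numbers of nodes of `u`
    have hbd : ∀ e ∈ nds u.P, ∀ n ∈ e, n ≤ u.B := by
      intro e he n hn
      obtain ⟨o, ho⟩ := A10_mem_nds he
      by_cases h0 : e = []
      · rw [h0] at hn; simp at hn
      · rw [hB]
        exact hWc.bd _ (hoth e o ho h0) n hn
    have hrt : ([], some (rootN S)) ∈ tc.P := hE.P (by simp)
    constructor
    · intro x y hx hy
      have hx0 : x ≠ [] := by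
        intro h0; rw [h0] at hx; exact absurd (hroot _ hx) (by simp)
      have hy0 : y ≠ [] := by
        intro h0; rw [h0] at hy; exact absurd (hroot _ hy) (by simp)
      have hx' := hoth x none hx hx0
      have hy' := hoth y none hy hy0
      rw [hF]
      rintro (h3 | h3)
      · exact V_ok hVc x y hx' hy' h3
      · have hxt : tr x u.B = x := tr_self (hbd x (A10_nds_mem hx))
        have hyt : tr y u.B = y := tr_self (hbd y (A10_nds_mem hy))
        refine V_ok hVc x y hx' hy' (hinv (x, y) h3 ?_ ?_ (Or.inl ?_))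
        · show tr x u.B ∈ nds u.P
          rw [hxt]; exact A10_nds_mem hx
        · show tr y u.B ∈ nds u.P
          rw [hyt]; exact A10_nds_mem hy
        · show tr x u.B ≠ []
          rw [hxt]; exact hx0
    · intro e a he ρ hr N
      by_cases h0 : e = []
      · subst h0
        have ha : a = rootN S := Option.some.inj (hroot _ he)
        rw [ha] at hr
        -- the negation of the conclusion
        have hneg : ∃ t' : St, Ext tc t' ∧ WFl S t'.P t'.B ∧ ∃ s, s ≠ [] ∧
            (∀ n ∈ s, max N tc.B < n) ∧ S.cl s = ρ.g ∧ s ∈ nds t'.P ∧ t'.B = lastN s ∧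
            Rm S (V S k) t'.P t'.B t'.F ∧ ∃ b, S.Adm ρ b ∧
            V S (k + 1) ⟨repl t'.P s b, t'.B,
              t'.F ∪ {π ∈ All | tr π.1 t'.B = s ∨ tr π.2 t'.B = s}⟩ := by
          by_contra hno
          apply hcon
          refine ⟨tc, ρ, max N tc.B, hE, hWc, hVc, hr, le_max_right _ _, ?_⟩
          intro t' hE' hW' s hs hsN hsg hsm hB' hR' b hb hV'
          exact hno ⟨t', hE', hW', s, hs, hsN, hsg, hsm, hB', hR', b, hb, hV'⟩
        obtain ⟨t', hE', hW', s, hs, hsN, hsg, hsm, hB', hR', o, hb, hV'⟩ := hneg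
        obtain ⟨o', ho'⟩ := A10_mem_nds hsm
        have hoo : o' = none ↔ o = none := by
          rw [Adm.none_iff hb, Req.none_iff hr]
          constructor
          · intro h1
            rw [h1] at ho'
            rw [← hsg]
            exact hW'.lf s ho'
          · intro h1
            rcases o' with _ | μ
            · rfl
            · have h2 := hW'.nl s μ ho'
              rw [hsg, h1] at h2
              exact absurd h2 (lt_irrefl _)
        have hnes : ∀ e' ∈ nds u.P, e' ≠ s := by
          intro e' he' h1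
          obtain ⟨n, hn⟩ := List.exists_mem_of_ne_nil s hs
          have h2 := hsN n hn
          have h3 := hbd e' he' n (by rw [h1]; exact hn)
          rw [hB] at h3
          have h4 : tc.B < n := lt_of_le_of_lt (le_max_right _ _) h2
          omega
        have hnil : ([] : Nd) ≠ s := fun h => hs h.symm
        have hBle : u.B ≤ t'.B := by rw [hB]; exact hE'.B
        have hne' : [] ++ s = s := List.nil_append s
        refine ⟨s, o, (t'.F ∪ {π ∈ All | tr π.1 t'.B = s ∨ tr π.2 t'.B = s}) ∪ All,
          ⟨hs, ?_, ?_, ?_, hsg⟩, hb, ?_, ?_, ?_⟩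
        · exact hW'.inc _ ho'
        · intro n hn
          have h2 := hsN n hn
          rw [hB]
          exact ⟨lt_of_le_of_lt (le_max_left _ _) h2, lt_of_le_of_lt (le_max_right _ _) h2⟩
        · rw [hne']; exact hW'.val _ ho'
        · rw [hF]
          refine Set.union_subset_union_left _ ?_
          exact hE'.F.trans Set.subset_union_left
        · rw [hne', ← hB']
          refine Rm_mono ?_ (Set.subset_union_left.trans Set.subset_union_left)
            (A10_Rm_repl ho' hoo hR')
          refine Less.of_subset ?_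
          intro p hp
          rcases List.mem_cons.mp hp with h | h
          · rw [h]; exact List.mem_cons_self
          · obtain ⟨e', x⟩ := p
            have h5 : e' ≠ s := hnes e' (A10_nds_mem h)
            by_cases h6 : e' = []
            · subst h6
              rw [hroot x h]
              exact A10_mem_repl (hE'.P hrt) hnil
            · exact A10_mem_repl (hE'.P (hoth e' x h h6)) h5
        · refine ⟨⟨repl t'.P s o, t'.B, t'.F ∪ {π ∈ All | tr π.1 t'.B = s ∨ tr π.2 t'.B = s}⟩,
            hV', A10_WF_repl hW' ho' hoo, ⟨?_, ?_, ?_⟩, ?_, rfl, ?_, ?_, ?_⟩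
          · intro p hp
            rw [List.mem_singleton] at hp
            rw [hp]
            exact A10_mem_repl (hE'.P hrt) hnil
          · exact Nat.zero_le _
          · exact hE.F.trans (hE'.F.trans Set.subset_union_left)
          · show lastN ([] ++ s) = t'.B
            rw [hne', hB']
          · intro x hx
            rcases List.mem_cons.mp hx with h | h
            · exact absurd (Prod.mk.inj h).1 (by rw [hne']; exact hnil)
            · exact hroot x h
          · intro e' x hx h6
            rcases List.mem_cons.mp hx with h | h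
            · rw [h, hne']; exact List.mem_cons_self
            · exact A10_mem_repl (hE'.P (hoth e' x h h6)) (hnes e' (A10_nds_mem h))
          · intro π hπ h1 h2 h3
            show π ∈ t'.F ∪ {π ∈ All | tr π.1 t'.B = s ∨ tr π.2 t'.B = s}
            have hBB : lastN ([] ++ s) = t'.B := by rw [hne', hB']
            simp only [hBB] at h1 h2 h3
            have hn : nds (([] ++ s, o) :: u.P) = s :: nds u.P := rfl
            rw [hn] at h1 h2
            rcases List.mem_cons.mp h1 with h4 | h4
            · exact Or.inr ⟨hπ, Or.inl h4⟩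
            · rcases List.mem_cons.mp h2 with h5 | h5
              · exact Or.inr ⟨hπ, Or.inr h5⟩
              · left
                have h6 : tr π.1 u.B = tr π.1 t'.B := by
                  rw [← tr_tr π.1 hBle]
                  exact tr_self (hbd _ h4)
                have h7 : tr π.2 u.B = tr π.2 t'.B := by
                  rw [← tr_tr π.2 hBle]
                  exact tr_self (hbd _ h5)
                exact hE'.F (hinv π hπ (by rw [h6]; exact h4) (by rw [h7]; exact h5)
                  (by rw [h6, h7]; exact h3))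
      · -- request at another token
        have hec := hoth e (some a) he h0
        obtain ⟨s, o, F', hAns, hb, hFF, hR, hV'⟩ := V_step hVc hec hr N
        have hes : e ++ s ≠ [] := by
          intro h; exact h0 (List.append_eq_nil_iff.mp h).1
        have hBlt : tc.B < lastN (e ++ s) := (hAns.big _ (lastN_mem hAns.ne)).2
        have hBle : u.B ≤ lastN (e ++ s) := by rw [hB]; exact hBlt.le
        have heB : ∀ n ∈ e, n ≤ u.B := hbd e (A10_nds_mem he)
        have hsB : ∀ n ∈ s, u.B < n := fun n hn => by rw [hB]; exact (hAns.big n hn).2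
        have htre : tr (e ++ s) u.B = e := tr_append heB hsB
        refine ⟨s, o, F' ∪ All, ⟨hAns.ne, hAns.inc, ?_, hAns.val, hAns.cl⟩, hb, ?_, ?_, ?_⟩
        · intro n hn
          rw [hB]
          exact hAns.big n hn
        · rw [hF]
          exact Set.union_subset_union_left _ hFF
        · refine Rm_mono ?_ Set.subset_union_left hR
          refine Less.cons (Less.of_subset ?_) _
          intro p hp
          obtain ⟨e', x⟩ := p
          by_cases h6 : e' = []
          · subst h6
            rw [hroot x hp]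
            exact hrt
          · exact hoth e' x hp h6
        · refine ⟨⟨(e ++ s, o) :: tc.P, lastN (e ++ s), F'⟩, hV', WF_cons hWc hec hr hAns hb,
            hE.trans (Ext.step hAns hFF), rfl, rfl, ?_, ?_, ?_⟩
          · intro x hx
            rcases List.mem_cons.mp hx with h | h
            · exact absurd (Prod.mk.inj h).1.symm hes
            · exact hroot x h
          · intro e' x hx h6
            rcases List.mem_cons.mp hx with h | h
            · rw [h]; exact List.mem_cons_self
            · exact List.mem_cons_of_mem _ (hoth e' x h h6)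
          · intro π hπ h1 h2 h3
            show π ∈ F'
            change tr π.1 (lastN (e ++ s)) ∈ (e ++ s) :: nds u.P at h1
            change tr π.2 (lastN (e ++ s)) ∈ (e ++ s) :: nds u.P at h2
            change tr π.1 (lastN (e ++ s)) ≠ [] ∨ tr π.2 (lastN (e ++ s)) ≠ [] at h3
            have key : ∀ x : List ℕ, tr x (lastN (e ++ s)) ∈ (e ++ s) :: nds u.P →
                tr x u.B ∈ nds u.P ∧ (tr x (lastN (e ++ s)) ≠ [] → tr x u.B ≠ []) := by
              intro x hx
              rw [← tr_tr x hBle]
              rcases List.mem_cons.mp hx with h | h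
              · rw [h, htre]
                exact ⟨A10_nds_mem he, fun _ => h0⟩
              · rw [tr_self (hbd _ h)]
                exact ⟨h, fun h => h⟩
            obtain ⟨k1, k2⟩ := key _ h1
            obtain ⟨k3, k4⟩ := key _ h2
            exact hFF (hinv π hπ k1 k3 (h3.imp k2 k4))
  · refine ⟨⟨[([], some (rootN S))], 0, F⟩, hV, hW, Ext.refl _, rfl, rfl, ?_, ?_, ?_⟩
    · intro x hx
      simpa using hx
    · intro e x hx _
      exact hx
    · intro π _ h1 h2 h3
      exfalso
      have h4 : tr π.1 0 = [] := by simpa [nds] using h1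
      have h5 : tr π.2 0 = [] := by simpa [nds] using h2
      rcases h3 with h | h
      · exact h h4
      · exact h h5

end MPb6M
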