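import Pool.Agent.Lib.MP_b6d339_lc.Mix.Defs
import Pool.Agent.Lib.MP_b6d339_lc.Mix.A1
import Pool.Agent.Lib.MP_b6d339_lc.Mix.A2
import Pool.Agent.Lib.MP_b6d339_lc.Mix.A3
import Pool.Agent.Lib.MP_b6d339_lc.Mix.A6a

open Ordinal

namespace MPb6M

/-! # A10r: strategies with a reserve just below the exit class -/
variable {S : Sys}

/-- the need `v` allows a request all of whose answers are answers to `ρ` -/
def Cov (S : Sys) (v : Need) (ρ : Rq) : Prop :=
  ∃ ρ', ρ'.o ≠ none ∧ S.Req v ρ' ∧ ∀ b, S.Adm ρ' b → S.Adm ρ b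

/-- strategy with a reserve: `Dom lam μ` = the need `μ` dominates `lam` with the reserve -/
structure Bst (S : Sys) (ρ0 : Rq) where
  Dom : Need → Need → Prop
  nle : ∀ lam μ, Dom lam μ → S.NLe lam μ
  step : ∀ lam μ ρ, (Dom lam μ ∨ (lam = rootN S ∧ μ = rootN S)) → S.Req lam ρ →
    ∃ ρ', ρ'.g = ρ.g ∧ S.Req μ ρ' ∧ ∀ b', S.Adm ρ' b' → ∃ b, S.Adm ρ b ∧
      ((b = none ∧ b' = none) ∨ ∃ l m, b = some l ∧ b' = some m ∧ Dom l m)
  cov : ∀ lam μ, Dom lam μ → ∃ v, S.NLe v μ ∧ Cov S v ρ0

theorem low_set (s : Finset ℕ) : ∀ k ≤ s.card, ∃ J ⊆ s, J.card = k ∧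
    ∀ x ∈ J, ∀ y ∈ s \ J, x < y := by
  intro k
  induction k with
  | zero => exact fun _ => ⟨∅, Finset.empty_subset _, rfl, fun x hx => by simp at hx⟩
  | succ k ih =>
    intro hk
    obtain ⟨J, hJ, hc, hl⟩ := ih (by omega)
    have hne : (s \ J).Nonempty := by
      rw [← Finset.card_pos, Finset.card_sdiff_of_subset hJ]
      omega
    have hm := Finset.min'_mem _ hne
    rw [Finset.mem_sdiff] at hm
    refine ⟨insert ((s \ J).min' hne) J, Finset.insert_subset hm.1 hJ, ?_, ?_⟩
    · rw [Finset.card_insert_of_notMem hm.2, hc]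
    · intro x hx y hy
      rw [Finset.mem_sdiff, Finset.mem_insert, not_or] at hy
      have hy' : y ∈ s \ J := Finset.mem_sdiff.2 ⟨hy.1, hy.2.2⟩
      rcases Finset.mem_insert.1 hx with rfl | hx
      · exact lt_of_le_of_ne (Finset.min'_le _ _ hy') fun h => hy.2.1 h.symm
      · exact hl x hx y hy'

/-- unfolding `Adm` -/
theorem Adm.some' {ρ : Rq} {a' : Need} (ho : ρ.o = some a') {b' : Option Need}
    (h : S.Adm ρ b') : ∃ b, b' = some b ∧ b.o = a'.o ∧ ∀ h, S.d < h → h ≤ S.m →
      if h < co ρ.g then (b.l h).card = ρ.n h else b.l h = a'.l h := by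
  rcases h with ⟨h1, _⟩ | ⟨a1, b, h1, h2, h3, h4⟩
  · rw [ho] at h1
    exact absurd h1 (by simp)
  · rw [ho] at h1
    have : a' = a1 := Option.some.inj h1
    subst this
    exact ⟨b, h2, h3, h4⟩

theorem rootN_l {f : ℕ} (h : f ≠ S.m) : (rootN S).l f = ∅ := by
  show (if f = S.m then {0} else ∅) = ∅
  rw [if_neg h]

/-- the pure case: the class below the exit is infinite -/
theorem exists_bst_inf (hm : 2 ≤ S.m) (hd : S.m = S.d + 1) {ρ0 : Rq} {θ : Need}
    (hg0 : ρ0.g = cf S.m 0) (ho0 : ρ0.o = some θ) (hθ : S.RqF (rootN S) S.m 0 θ) :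
    Nonempty (Bst S ρ0) := by
  obtain ⟨-, -, -, ht1, ht2, -⟩ := hθ
  have hd1 : 1 ≤ S.d := by omega
  have hθm : θ.l S.m = ∅ := by
    rw [Finset.eq_empty_iff_forall_notMem]
    intro x hx
    have := (Finset.mem_filter.1 (ht2 hx)).2
    omega
  have hζ : θ.o S.d + 1 < S.κ S.d := (S.hκ _ hd1 le_rfl).succ (ht1 _ hd1 le_rfl)
  set ζ : Ordinal.{0} := θ.o S.d + 1 with hζd
  have hnle : ∀ lam μ : Need, (ζ ≤ μ.o S.d ∧ (∀ l < lam.o S.d, sm l ζ < μ.o S.d) ∧
      (∀ j, 1 ≤ j → j < S.d → lam.o j ≤ μ.o j) ∧
      ∀ f, S.d < f → f ≤ S.m → lam.l f ⊆ μ.l f) → S.NLe lam μ := by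
    rintro lam μ ⟨-, h2, h3, h4⟩
    refine ⟨fun j hj1 hj2 => ?_, h4⟩
    rcases lt_or_eq_of_le hj2 with hlt | heq
    · exact h3 j hj1 hlt
    · subst heq
      refine le_of_forall_lt fun l hl => ?_
      exact lt_of_le_of_lt (le_sm_left l ζ) (h2 l hl)
  refine ⟨⟨fun lam μ => ζ ≤ μ.o S.d ∧ (∀ l < lam.o S.d, sm l ζ < μ.o S.d) ∧
    (∀ j, 1 ≤ j → j < S.d → lam.o j ≤ μ.o j) ∧ ∀ f, S.d < f → f ≤ S.m → lam.l f ⊆ μ.l f,
    hnle, ?_, ?_⟩⟩
  · intro lam μ ρ hDR hr
    have hlev : ∀ f, S.d < f → f ≤ S.m → lam.l f ⊆ μ.l f := by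
      rcases hDR with h | ⟨rfl, rfl⟩
      · exact h.2.2.2
      · exact fun _ _ _ => subset_rfl
    rcases hr with ⟨j, a', hg, ho, h1, h2, h3, h4, h5, h6⟩ |
      ⟨f, i, a', hg, ho, h1, h2, h3, h4, h5, h6⟩ | hr
    · rcases hDR with hD | ⟨rfl, rfl⟩
      swap
      · exact absurd h3 (not_lt.2 zero_le)
      have hnl := hnle lam μ hD
      obtain ⟨d1, d2, d3, d4⟩ := hD
      let μ' : Need := ⟨fun i => if i = S.d then (if j = S.d then sm (a'.o S.d) ζ else μ.o S.d)
        else a'.o i, a'.l⟩
      refine ⟨⟨ρ.g, some μ', ρ.n⟩, rfl, Or.inl ⟨j, μ', hg, rfl, h1, h2, ?_, ?_, ?_, ?_⟩, ?_⟩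
      · by_cases hj : j = S.d
        · show (if j = S.d then (if j = S.d then _ else _) else _) < _
          rw [if_pos hj, if_pos hj, hj]
          rw [hj] at h3
          exact d2 _ h3
        · show (if j = S.d then _ else _) < _
          rw [if_neg hj]
          exact h3.trans_le (hnl.1 j h1 h2)
      · intro i hi hi'
        by_cases hid : i = S.d
        · show (if i = S.d then (if j = S.d then _ else _) else _) ≤ _
          rw [if_pos hid, if_neg (by omega), hid]
        · show (if i = S.d then _ else _) ≤ _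
          rw [if_neg hid]
          exact (h4 i hi hi').trans (hnl.1 i (by omega) hi')
      · intro i hi hi'
        show (if i = S.d then _ else _) < _
        rw [if_neg (by omega)]
        exact h5 i hi hi'
      · intro f hf hf'
        exact (h6 f hf hf').trans (hlev f hf hf')
      · intro b' hb'
        obtain ⟨b, rfl, hb1, hb2⟩ := Adm.some' (a' := μ') rfl hb'
        refine ⟨some ⟨a'.o, b.l⟩, Or.inr ⟨a', _, ho, rfl, rfl, hb2⟩,
          Or.inr ⟨_, b, rfl, rfl, ?_, ?_, ?_, ?_⟩⟩
        · rw [hb1]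
          show _ ≤ (if S.d = S.d then (if j = S.d then _ else _) else _)
          rw [if_pos rfl]
          split_ifs
          · exact le_sm_right _ _
          · exact d1
        · intro l hl
          have hl' : l < a'.o S.d := hl
          rw [hb1]
          show _ < (if S.d = S.d then (if j = S.d then _ else _) else _)
          rw [if_pos rfl]
          split_ifs with hj
          · exact sm_lt_left ζ hl'
          · exact d2 l (hl'.trans_le (h4 _ (by omega) le_rfl))
        · intro i _ hi'
          rw [hb1]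
          show a'.o i ≤ (if i = S.d then _ else _)
          rw [if_neg (by omega)]
        · exact fun _ _ _ => subset_rfl
    · let μ' : Need := ⟨fun i => if i = S.d then sm (a'.o S.d) ζ else a'.o i, a'.l⟩
      refine ⟨⟨ρ.g, some μ', ρ.n⟩, rfl, Or.inr (Or.inl ⟨f, i, μ', hg, rfl, h1, h2,
        hlev f h1 h2 h3, ?_, ?_, ?_⟩), ?_⟩
      · intro j hj hj'
        show (if j = S.d then _ else _) < _
        by_cases hjd : j = S.d
        · rw [if_pos hjd, hjd]
          exact (S.hκ _ hd1 le_rfl).sm (h4 _ hd1 le_rfl) hζ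
        · rw [if_neg hjd]
          exact h4 j hj hj'
      · exact h5.trans (Finset.filter_subset_filter _ (hlev f h1 h2))
      · intro h hh hh'
        exact (h6 h hh hh').trans (hlev h (by omega) hh')
      · intro b' hb'
        obtain ⟨b, rfl, hb1, hb2⟩ := Adm.some' (a' := μ') rfl hb'
        refine ⟨some ⟨a'.o, b.l⟩, Or.inr ⟨a', _, ho, rfl, rfl, hb2⟩,
          Or.inr ⟨_, b, rfl, rfl, ?_, ?_, ?_, ?_⟩⟩
        · rw [hb1]
          show _ ≤ (if S.d = S.d then _ else _)
          rw [if_pos rfl]
          exact le_sm_right _ _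
        · intro l hl
          have hl' : l < a'.o S.d := hl
          rw [hb1]
          show _ < (if S.d = S.d then _ else _)
          rw [if_pos rfl]
          exact sm_lt_left ζ hl'
        · intro i _ hi'
          rw [hb1]
          show a'.o i ≤ (if i = S.d then _ else _)
          rw [if_neg (by omega)]
        · exact fun _ _ _ => subset_rfl
    · refine ⟨ρ, rfl, Or.inr (Or.inr hr), fun b' hb' => ⟨b', hb', Or.inl ⟨?_, ?_⟩⟩⟩
      · exact (Adm.none_iff hb').2 hr.2
      · exact (Adm.none_iff hb').2 hr.2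
  · rintro lam μ ⟨d1, d2, d3, d4⟩
    refine ⟨⟨fun j => if j = S.d then ζ else 0, fun _ => ∅⟩, ⟨fun j hj hj' => ?_,
      fun _ _ _ => Finset.empty_subset _⟩, ⟨ci S.d, some ⟨θ.o, fun _ => ∅⟩, ρ0.n⟩, by simp,
      Or.inl ⟨S.d, _, rfl, rfl, hd1, le_rfl, ?_, ?_, ?_, ?_⟩, ?_⟩
    · show (if j = S.d then ζ else 0) ≤ _
      split_ifs with h
      · rw [h]; exact d1
      · exact zero_le
    · show θ.o S.d < (if S.d = S.d then ζ else 0)
      rw [if_pos rfl, hζd]
      exact Order.lt_add_one_iff.2 le_rfl
    · intro i hi hi'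
      omega
    · intro i hi hi'
      exact ht1 i hi (by omega)
    · exact fun _ _ _ => subset_rfl
    · intro b' hb'
      obtain ⟨b, rfl, hb1, hb2⟩ := Adm.some' (a' := ⟨θ.o, fun _ => ∅⟩) rfl hb'
      refine Or.inr ⟨θ, b, ho0, rfl, hb1, fun h hh hh' => ?_⟩
      have h1 : h = S.m := by omega
      have h2 := hb2 h hh hh'
      rw [if_neg (by show ¬ h < co (ci S.d); rw [co_ci]; omega)] at h2
      rw [if_neg (by rw [hg0, co_cf]; omega), h2, h1, hθm]

/-- the finite case: the class below the exit is finite -/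
theorem exists_bst_fin (hd : S.d < S.m - 1) {ρ0 : Rq} {θ : Need}
    (hg0 : ρ0.g = cf S.m 0) (ho0 : ρ0.o = some θ) (hθ : S.RqF (rootN S) S.m 0 θ) :
    Nonempty (Bst S ρ0) := by
  obtain ⟨-, -, -, ht1, ht2, -⟩ := hθ
  have hθm : θ.l S.m = ∅ := by
    rw [Finset.eq_empty_iff_forall_notMem]
    intro x hx
    have := (Finset.mem_filter.1 (ht2 hx)).2
    omega
  set h0 := S.m - 1 with hh0
  have hm0 : S.m = h0 + 1 := by omega
  refine ⟨⟨fun lam μ => S.NLe lam μ ∧ ∃ J ⊆ μ.l h0, J.card = ρ0.n h0 + 1 ∧
    ∀ x ∈ J, ∀ y ∈ lam.l h0, x < y, fun lam μ h => h.1, ?_, ?_⟩⟩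
  · intro lam μ ρ hDR hr
    have hlev : S.NLe lam μ := by
      rcases hDR with h | ⟨rfl, rfl⟩
      · exact h.1
      · exact NLe.refl _
    rcases hr with ⟨j, a', hg, ho, h1, h2, h3, h4, h5, h6⟩ |
      ⟨f, i, a', hg, ho, h1, h2, h3, h4, h5, h6⟩ | hr
    · -- infinite class
      rcases hDR with ⟨-, J, hJ, hJc, hJl⟩ | ⟨rfl, rfl⟩
      swap
      · exact absurd h3 (not_lt.2 zero_le)
      let μ' : Need := ⟨a'.o, fun h => if h = h0 then μ.l h0 else a'.l h⟩
      refine ⟨⟨ρ.g, some μ', ρ.n⟩, rfl, Or.inl ⟨j, μ', hg, rfl, h1, h2,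
        h3.trans_le (hlev.1 j h1 h2), fun i hi hi' => (h4 i hi hi').trans
          (hlev.1 i (by omega) hi'), h5, ?_⟩, ?_⟩
      · intro f hf hf'
        show (if f = h0 then μ.l h0 else a'.l f) ⊆ _
        split_ifs with h
        · rw [h]
        · exact (h6 f hf hf').trans (hlev.2 f hf hf')
      · intro b' hb'
        obtain ⟨b, rfl, hb1, hb2⟩ := Adm.some' (a' := μ') rfl hb'
        have hb3 : ∀ h, S.d < h → h ≤ S.m → b.l h = if h = h0 then μ.l h0 else a'.l h := by
          intro h hh hh'
          have := hb2 h hh hh'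
          rw [if_neg (by show ¬ h < co ρ.g; rw [hg, co_ci]; omega)] at this
          exact this
        refine ⟨some a', Or.inr ⟨a', a', ho, rfl, rfl, fun h hh _ => ?_⟩,
          Or.inr ⟨a', b, rfl, rfl, ⟨fun i _ _ => by rw [hb1], fun h hh hh' => ?_⟩, J, ?_, hJc,
            fun x hx y hy => hJl x hx y (h6 h0 hd (by omega) hy)⟩⟩
        · rw [if_neg (by rw [hg, co_ci]; omega)]
        · rw [hb3 h hh hh']
          split_ifs with h7
          · rw [h7]
            exact (h6 h0 hd (by omega)).trans (hlev.2 h0 hd (by omega))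
          · exact subset_rfl
        · rw [hb3 h0 hd (by omega), if_pos rfl]
          exact hJ
    · by_cases hfm : f = S.m
      · -- the exit class
        subst hfm
        refine ⟨⟨ρ.g, some a', fun h => if h = h0 then ρ.n h0 + (ρ0.n h0 + 1) else ρ.n h⟩, rfl,
          Or.inr (Or.inl ⟨S.m, i, a', hg, rfl, h1, h2, hlev.2 _ h1 h2 h3, h4,
            h5.trans (Finset.filter_subset_filter _ (hlev.2 _ h1 h2)), fun h hh hh' => ?_⟩), ?_⟩
        · omega
        · intro b' hb'
          obtain ⟨b, rfl, hb1, hb2⟩ := Adm.some' (a' := a') rfl hb'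
          have hc : (b.l h0).card = ρ.n h0 + (ρ0.n h0 + 1) := by
            have := hb2 h0 hd (by omega)
            rw [if_pos (by show h0 < co ρ.g; rw [hg, co_cf]; omega)] at this
            have h7 : (if h0 = h0 then ρ.n h0 + (ρ0.n h0 + 1) else ρ.n h0) =
              ρ.n h0 + (ρ0.n h0 + 1) := if_pos rfl
            rw [← h7]
            exact this
          obtain ⟨J, hJ, hJc, hJl⟩ := low_set (b.l h0) (ρ0.n h0 + 1) (by omega)
          refine ⟨some ⟨a'.o, fun h => if h = h0 then b.l h0 \ J else b.l h⟩,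
            Or.inr ⟨a', _, ho, rfl, rfl, fun h hh hh' => ?_⟩,
            Or.inr ⟨_, b, rfl, rfl, ⟨fun i _ _ => by rw [hb1], fun h hh hh' => ?_⟩, J, hJ, hJc,
              fun x hx y hy => ?_⟩⟩
          · by_cases h7 : h = h0
            · rw [if_pos (by rw [hg, co_cf]; omega)]
              show (if h = h0 then b.l h0 \ J else b.l h).card = ρ.n h
              rw [if_pos h7, Finset.card_sdiff_of_subset hJ, hc, hJc, h7]
              omega
            · show if h < co ρ.g then (if h = h0 then b.l h0 \ J else b.l h).card = ρ.n h else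
                (if h = h0 then b.l h0 \ J else b.l h) = a'.l h
              have h8 := hb2 h hh hh'
              rw [if_neg h7]
              have h9 : (if h = h0 then ρ.n h0 + (ρ0.n h0 + 1) else ρ.n h) = ρ.n h := if_neg h7
              change (if h < co ρ.g then (b.l h).card =
                (if h = h0 then ρ.n h0 + (ρ0.n h0 + 1) else ρ.n h) else b.l h = a'.l h) at h8
              rw [h9] at h8
              exact h8
          · show (if h = h0 then b.l h0 \ J else b.l h) ⊆ b.l h
            split_ifs with h7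
            · rw [h7]
              exact Finset.sdiff_subset
            · exact subset_rfl
          · have hy' : y ∈ (if h0 = h0 then b.l h0 \ J else b.l h0) := hy
            rw [if_pos rfl] at hy'
            exact hJl x hx y hy'
      · -- a smaller finite class
        rcases hDR with ⟨-, J, hJ, hJc, hJl⟩ | ⟨rfl, rfl⟩
        swap
        · rw [rootN_l hfm] at h3
          exact absurd h3 (Finset.notMem_empty _)
        have hf0 : f ≤ h0 := by omega
        let X : Finset ℕ := if f = h0 then (μ.l h0).filter (· < i) else μ.l h0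
        have hX1 : X ⊆ μ.l h0 := by
          show (if f = h0 then (μ.l h0).filter (· < i) else μ.l h0) ⊆ _
          split_ifs
          · exact Finset.filter_subset _ _
          · exact subset_rfl
        have ha0 : a'.l h0 ⊆ lam.l h0 := by
          rcases hf0.eq_or_lt with h | h
          · rw [← h]
            exact h5.trans (Finset.filter_subset _ _)
          · exact h6 h0 h (by omega)
        have hX2 : a'.l h0 ⊆ X := by
          show _ ⊆ (if f = h0 then (μ.l h0).filter (· < i) else μ.l h0)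
          split_ifs with h
          · rw [← h]
            exact h5.trans (Finset.filter_subset_filter _ (hlev.2 f h1 h2))
          · exact ha0.trans (hlev.2 h0 hd (by omega))
        have hX3 : J ⊆ X := by
          show _ ⊆ (if f = h0 then (μ.l h0).filter (· < i) else μ.l h0)
          split_ifs with h
          · intro x hx
            exact Finset.mem_filter.2 ⟨hJ hx, hJl x hx i (h ▸ h3)⟩
          · exact hJ
        let μ' : Need := ⟨a'.o, fun h => if h = h0 then X else a'.l h⟩
        refine ⟨⟨ρ.g, some μ', ρ.n⟩, rfl, Or.inr (Or.inl ⟨f, i, μ', hg, rfl, h1, h2,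
          hlev.2 f h1 h2 h3, h4, ?_, ?_⟩), ?_⟩
        · show (if f = h0 then X else a'.l f) ⊆ _
          split_ifs with h
          · show (if f = h0 then (μ.l h0).filter (· < i) else μ.l h0) ⊆ _
            rw [if_pos h, h]
          · exact h5.trans (Finset.filter_subset_filter _ (hlev.2 f h1 h2))
        · intro h hh hh'
          show (if h = h0 then X else a'.l h) ⊆ _
          split_ifs with h7
          · rw [h7]
            exact hX1
          · exact (h6 h hh hh').trans (hlev.2 h (by omega) hh')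
        · intro b' hb'
          obtain ⟨b, rfl, hb1, hb2⟩ := Adm.some' (a' := μ') rfl hb'
          have hb3 : ∀ h, S.d < h → h ≤ S.m → f ≤ h → b.l h = if h = h0 then X else a'.l h := by
            intro h hh hh' hfh
            have := hb2 h hh hh'
            rw [if_neg (by show ¬ h < co ρ.g; rw [hg, co_cf]; omega)] at this
            exact this
          have hb4 : ∀ h, S.d < h → h ≤ S.m → h < f → (b.l h).card = ρ.n h := by
            intro h hh hh' hfh
            have := hb2 h hh hh'
            rw [if_pos (by show h < co ρ.g; rw [hg, co_cf]; omega)] at this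
            exact this
          refine ⟨some ⟨a'.o, fun h => if h < f then b.l h else a'.l h⟩,
            Or.inr ⟨a', _, ho, rfl, rfl, fun h hh hh' => ?_⟩,
            Or.inr ⟨_, b, rfl, rfl, ⟨fun i _ _ => by rw [hb1], fun h hh hh' => ?_⟩, J, ?_, hJc,
              fun x hx y hy => ?_⟩⟩
          · show if h < co ρ.g then (if h < f then b.l h else a'.l h).card = ρ.n h else
              (if h < f then b.l h else a'.l h) = a'.l h
            rw [hg, co_cf]
            by_cases h7 : h < f
            · rw [if_pos h7, if_pos h7]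
              exact hb4 h hh hh' h7
            · rw [if_neg h7, if_neg h7]
          · show (if h < f then b.l h else a'.l h) ⊆ b.l h
            by_cases h7 : h < f
            · rw [if_pos h7]
            · rw [if_neg h7, hb3 h hh hh' (not_lt.1 h7)]
              split_ifs with h8
              · rw [h8]
                exact hX2
              · exact subset_rfl
          · rw [hb3 h0 hd (by omega) hf0, if_pos rfl]
            exact hX3
          · have hy' : y ∈ (if h0 < f then b.l h0 else a'.l h0) := hy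
            rw [if_neg (by omega)] at hy'
            exact hJl x hx y (ha0 hy')
    · refine ⟨ρ, rfl, Or.inr (Or.inr hr), fun b' hb' => ⟨b', hb', Or.inl ⟨?_, ?_⟩⟩⟩
      · exact (Adm.none_iff hb').2 hr.2
      · exact (Adm.none_iff hb').2 hr.2
  · rintro lam μ ⟨d1, J, hJ, hJc, hJl⟩
    have hne : J.Nonempty := by
      rw [← Finset.card_pos]
      omega
    have hmem := Finset.max'_mem J hne
    refine ⟨⟨fun _ => 0, fun h => if h = h0 then J else ∅⟩, ⟨fun _ _ _ => zero_le,
      fun f _ _ => ?_⟩, ⟨cf h0 (J.max' hne), some ⟨θ.o, fun h => if h = h0 then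
        J.erase (J.max' hne) else ∅⟩, ρ0.n⟩, by simp,
      Or.inr (Or.inl ⟨h0, J.max' hne, _, rfl, rfl, hd, by omega, ?_, ht1, ?_, ?_⟩), ?_⟩
    · show (if f = h0 then J else ∅) ⊆ _
      split_ifs with h
      · rw [h]; exact hJ
      · exact Finset.empty_subset _
    · show J.max' hne ∈ (if h0 = h0 then J else ∅)
      rw [if_pos rfl]
      exact hmem
    · show (if h0 = h0 then J.erase (J.max' hne) else ∅) ⊆
        (if h0 = h0 then J else ∅).filter (· < J.max' hne)
      rw [if_pos rfl, if_pos rfl]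
      intro x hx
      rw [Finset.mem_erase] at hx
      exact Finset.mem_filter.2 ⟨hx.2, lt_of_le_of_ne (Finset.le_max' _ _ hx.2) hx.1⟩
    · intro h hh hh'
      show (if h = h0 then J.erase (J.max' hne) else ∅) ⊆ _
      rw [if_neg (by omega)]
      exact Finset.empty_subset _
    · intro b' hb'
      obtain ⟨b, rfl, hb1, hb2⟩ := Adm.some' (a' := ⟨θ.o, fun h => if h = h0 then
        J.erase (J.max' hne) else ∅⟩) rfl hb'
      refine Or.inr ⟨θ, b, ho0, rfl, hb1, fun h hh hh' => ?_⟩
      have h2 := hb2 h hh hh'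
      rw [hg0, co_cf]
      rcases lt_trichotomy h h0 with h7 | h7 | h7
      · rw [if_pos (by show h < co (cf h0 _); rw [co_cf]; omega)] at h2
        rw [if_pos (by omega)]
        exact h2
      · rw [if_neg (by show ¬ h < co (cf h0 _); rw [co_cf]; omega)] at h2
        have h3 : (fun h => if h = h0 then J.erase (J.max' hne) else ∅) h =
          J.erase (J.max' hne) := if_pos h7
        rw [if_pos (by omega), h2]
        show ((fun h => if h = h0 then J.erase (J.max' hne) else ∅) h).card = ρ0.n h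
        rw [h3, Finset.card_erase_of_mem hmem, hJc, h7]
        omega
      · have h8 : h = S.m := by omega
        rw [if_neg (by show ¬ h < co (cf h0 _); rw [co_cf]; omega)] at h2
        rw [if_neg (by omega), h2, h8, hθm]
        show (if S.m = h0 then J.erase (J.max' hne) else ∅) = ∅
        rw [if_neg (by omega)]

/-- a strategy with a reserve exists -/
theorem exists_bst (hm : 2 ≤ S.m) {ρ0 : Rq} {θ : Need}
    (hg0 : ρ0.g = cf S.m 0) (ho0 : ρ0.o = some θ) (hθ : S.RqF (rootN S) S.m 0 θ) :
    Nonempty (Bst S ρ0) := by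
  have hdm := S.hdm
  by_cases hd : S.m = S.d + 1
  · exact exists_bst_inf hm hd hg0 ho0 hθ
  · exact exists_bst_fin (by omega) hg0 ho0 hθ

end MPb6M
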