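import Pool.Agent.Lib.MP_b6d339_lc.Mix.Defs
import Pool.Agent.Lib.MP_b6d339_lc.Mix.A1
import Pool.Agent.Lib.MP_b6d339_lc.Mix.A2
import Pool.Agent.Lib.MP_b6d339_lc.Mix.A3
import Pool.Agent.Lib.MP_b6d339_lc.Mix.A4
import Pool.Agent.Lib.MP_b6d339_lc.Mix.A4m
import Pool.Agent.Lib.MP_b6d339_lc.Mix.A5a
import Pool.Agent.Lib.MP_b6d339_lc.Mix.A5
import Pool.Agent.Lib.MP_b6d339_lc.Mix.A5p
import Pool.Agent.Lib.MP_b6d339_lc.Mix.A6a
import Pool.Agent.Lib.MP_b6d339_lc.Mix.A6
import Pool.Agent.Lib.MP_b6d339_lc.Mix.A10
import Pool.Agent.Lib.MP_b6d339_lc.Mix.A10r
import Pool.Agent.Lib.MP_b6d339_lc.Mix.A10l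

open Ordinal

namespace MPb6M

/-! # A10b: the common beginning -/
variable {S : Sys}

/-- the invariant of the boosted strategy -/
structure A10b_Inv (S : Sys) (k : ℕ) (All : Set Pr) (t1 : St) (N : ℕ) {ρ0 : Rq} (D : Bst S ρ0)
    (tc u : St) : Prop where
  win : V S (k + 1) tc
  wf : WFl S tc.P tc.B
  ext : Ext t1 tc
  B : u.B = tc.B
  F : u.F = tc.F ∪ All
  leaf : ∀ e, (e, none) ∈ u.P → (e, none) ∈ tc.P ∧ ∀ n ∈ e, N < n
  tok : ∀ e lam, (e, some lam) ∈ u.P → (e = [] ∧ lam = rootN S) ∨
    (e ≠ [] ∧ (∀ n ∈ e, N < n) ∧ ∃ μ, (e, some μ) ∈ tc.P ∧ D.Dom lam μ)
  inv : ∀ π ∈ All, ∀ sd, (side (!sd) π, none) ∈ u.P → tr (side sd π) u.B ∈ nds u.P → π ∈ tc.F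

/-- **Common beginning.** Boosted strategy: coinduction (from `t1` of `com_low`) with
`𝒮 = {u | ∃ tc, A10b_Inv S k All t1 N D tc u}`, where `D : Bst S ρ0` is the strategy with the
reserve (`exists_bst`). If a new leaf `zf = e ++ s` appears and
`π ∈ All` has `side (!sd) π = zf`, `tr (side sd π) B' = a ∈ nds`: if `a` is a leaf token, use the old
invariant (with the other side); if `a` is not a leaf and `π ∉ t'.F`: `a ≠ []` (`hsplit`), and
`com_low`, `nk_not_sub` give the conclusion. -/
theorem common_beginning {k : ℕ} {F All : Set Pr} (hA : AllOK S All) (hm2 : 2 ≤ S.m)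
    (hex : ∀ e, S.Val e → e ≠ [] → cf S.m 0 ≤ S.cl e)
    (hW : WFl S [([], some (rootN S))] 0)
    (hN : ¬ V S (k + 1) ⟨[([], some (rootN S))], 0, F ∪ All⟩)
    (hV : V S (k + 1) ⟨[([], some (rootN S))], 0, F⟩)
    (hsplit : ∀ π ∈ All, π.1.head? ≠ π.2.head? → π ∈ F) :
    ∃ t' : St, F ⊆ t'.F ∧ WFl S t'.P t'.B ∧ V S (k + 1) t' ∧ Rm S (V S k) t'.P t'.B t'.F ∧
      ∃ (a zf : Nd) (sd : Bool) (π : Pr), (∃ μ, (a, some μ) ∈ t'.P) ∧ (zf, none) ∈ t'.P ∧
        π ∈ All ∧ π ∉ t'.F ∧ side (!sd) π = zf ∧ tr (side sd π) t'.B = a ∧
        t'.B = lastN zf ∧ (∀ n ∈ zf, n ≤ t'.B) ∧ side sd π ≠ a ∧ ¬ Com All a t'.B ⊆ t'.F := by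
  by_contra hcon
  obtain ⟨t1, N, ρ0, θ, hext1, hwf1, hV1, hBN, hg0, ho0, hθ, hlow⟩ :=
    com_low hA hex hW hN hV hsplit
  obtain ⟨D⟩ := exists_bst hm2 hg0 ho0 hθ
  apply hN
  have hroot1 : (([] : Nd), some (rootN S)) ∈ t1.P := hext1.P (by simp)
  -- coinduction from the state of `com_low`
  have key : V S (k + 1) ⟨[([], some (rootN S))], t1.B, t1.F ∪ All⟩ := by
    refine V_coind {u | ∃ tc, A10b_Inv S k All t1 N D tc u} ?_ ?_
    · rintro u ⟨tc, h⟩
      have hroot : (([] : Nd), some (rootN S)) ∈ tc.P := h.ext.P hroot1
      -- every token of `u` is below a token of `tc`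
      have hless : Less S u.P tc.P := by
        refine ⟨fun e lam he => ?_, fun e he => (h.leaf e he).1⟩
        rcases h.tok e lam he with ⟨rfl, rfl⟩ | ⟨_, _, μ, hμ, hd⟩
        · exact ⟨_, hroot, NLe.refl _⟩
        · exact ⟨μ, hμ, D.nle _ _ hd⟩
      have hnds : ∀ e ∈ nds u.P, ∀ n ∈ e, n ≤ u.B := by
        intro e he n hn
        have h1 := Less.nds hless e he
        obtain ⟨t, ht, rfl⟩ := List.mem_map.1 h1
        rw [h.B]
        exact h.wf.bd t ht n hn
      constructor
      · -- OK
        intro x y hx hy hxy
        rw [h.F] at hxy
        have hok := V_ok h.win x y (h.leaf x hx).1 (h.leaf y hy).1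
        rcases hxy with hxy | hxy
        · exact hok hxy
        · apply hok
          refine h.inv (x, y) hxy true hy ?_
          have hxn : x ∈ nds u.P := List.mem_map.2 ⟨_, hx, rfl⟩
          have : tr (side true (x, y)) u.B = x := tr_self (hnds x hxn)
          rw [this]
          exact hxn
      · -- the step
        intro e lam he ρ hr N0
        have hen : e ∈ nds u.P := List.mem_map.2 ⟨_, he, rfl⟩
        have heN : ∀ n ∈ e, N < n := by
          rcases h.tok e lam he with ⟨rfl, _⟩ | ⟨_, h2, _⟩
          · intro n hn
            simp at hn
          · exact h2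
        obtain ⟨μ, ρ', hμ, hg', hr', hrel'⟩ : ∃ μ ρ', (e, some μ) ∈ tc.P ∧ ρ'.g = ρ.g ∧
            S.Req μ ρ' ∧ ∀ b', S.Adm ρ' b' → ∃ b, S.Adm ρ b ∧
              ((b = none ∧ b' = none) ∨ ∃ l m, b = some l ∧ b' = some m ∧ D.Dom l m) := by
          rcases h.tok e lam he with ⟨rfl, rfl⟩ | ⟨_, _, μ, hμ, hd⟩
          · obtain ⟨ρ', h1, h2, h3⟩ := D.step _ _ ρ (Or.inr ⟨rfl, rfl⟩) hr
            exact ⟨_, ρ', hroot, h1, h2, h3⟩
          · obtain ⟨ρ', h1, h2, h3⟩ := D.step _ _ ρ (Or.inl hd) hr
            exact ⟨μ, ρ', hμ, h1, h2, h3⟩
        obtain ⟨s, o', F1, hans, hadm', hF1, hroom, hV'⟩ := V_step h.win hμ hr' (max N0 N)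
        obtain ⟨o, hadm, hrel⟩ := hrel' o' hadm'
        have hWF' : WFl S ((e ++ s, o') :: tc.P) (lastN (e ++ s)) := by
          have h1 : Ans S ⟨tc.P, tc.B, tc.F⟩ e ρ'.g (max N0 N) s := hans
          exact WF_cons h.wf hμ hr' h1 hadm'
        have hext' : Ext t1 ⟨(e ++ s, o') :: tc.P, lastN (e ++ s), F1⟩ :=
          h.ext.trans (Ext.step hans hF1)
        have hsN : ∀ n ∈ s, N < n := fun n hn =>
          lt_of_le_of_lt (le_max_right _ _) (hans.big n hn).1
        have hsB : ∀ n ∈ s, u.B < n := fun n hn => by
          rw [h.B]
          exact (hans.big n hn).2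
        have hesN : ∀ n ∈ e ++ s, N < n := by
          intro n hn
          rcases List.mem_append.1 hn with h1 | h1
          · exact heN n h1
          · exact hsN n h1
        have hesne : e ++ s ≠ [] := by
          intro h1
          exact hans.ne (List.append_eq_nil_iff.1 h1).2
        have hBlt : u.B < lastN (e ++ s) := hsB _ (lastN_mem hans.ne)
        have htre : tr (e ++ s) u.B = e := tr_append (hnds e hen) hsB
        -- truncations of the old kind
        have hold : ∀ x : List ℕ, tr x (lastN (e ++ s)) ∈ nds u.P →
            tr x u.B = tr x (lastN (e ++ s)) := by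
          intro x hx
          rw [← tr_tr x hBlt.le]
          exact tr_self (hnds _ hx)
        have hnew : ∀ x : List ℕ, tr x (lastN (e ++ s)) = e ++ s → tr x u.B = e := by
          intro x hx
          rw [← tr_tr x hBlt.le, hx]
          exact htre
        have hless' : Less S ((e ++ s, o) :: u.P) ((e ++ s, o') :: tc.P) := by
          refine ⟨fun x l hx => ?_, fun x hx => ?_⟩
          · rcases List.mem_cons.1 hx with h1 | h1
            · rw [Prod.mk.injEq] at h1
              obtain ⟨rfl, h2⟩ := h1
              rcases hrel with ⟨h3, h4⟩ | ⟨lam1, μ1, h3, h4, h5⟩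
              · rw [h3] at h2
                exact absurd h2 (by simp)
              · rw [h3] at h2
                simp only [Option.some.injEq] at h2
                subst h2
                exact ⟨μ1, by rw [h4]; exact List.mem_cons_self, D.nle _ _ h5⟩
            · obtain ⟨a, ha, hla⟩ := hless.1 x l h1
              exact ⟨a, List.mem_cons_of_mem _ ha, hla⟩
          · rcases List.mem_cons.1 hx with h1 | h1
            · rw [Prod.mk.injEq] at h1
              obtain ⟨rfl, h2⟩ := h1
              rcases hrel with ⟨h3, h4⟩ | ⟨lam1, μ1, h3, h4, h5⟩
              · rw [h4]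
                exact List.mem_cons_self
              · rw [h3] at h2
                exact absurd h2 (by simp)
            · exact List.mem_cons_of_mem _ (hless.2 x h1)
        refine ⟨s, o, F1 ∪ All, ⟨hans.ne, hans.inc, fun n hn => ⟨lt_of_le_of_lt (le_max_left _ _)
          (hans.big n hn).1, hsB n hn⟩, hans.val, hans.cl.trans hg'⟩, hadm, ?_, ?_, ?_⟩
        · rw [h.F]
          exact Set.union_subset_union_left _ hF1
        · exact Rm_mono hless' Set.subset_union_left hroom
        · refine ⟨⟨(e ++ s, o') :: tc.P, lastN (e ++ s), F1⟩, ⟨hV', hWF', hext', rfl, rfl, ?_, ?_,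
            ?_⟩⟩
          · -- leaves
            intro x hx
            rcases List.mem_cons.1 hx with h1 | h1
            · rw [Prod.mk.injEq] at h1
              obtain ⟨rfl, h2⟩ := h1
              refine ⟨?_, hesN⟩
              rcases hrel with ⟨h3, h4⟩ | ⟨lam1, μ1, h3, h4, h5⟩
              · rw [h4]
                exact List.mem_cons_self
              · rw [h3] at h2
                exact absurd h2 (by simp)
            · exact ⟨List.mem_cons_of_mem _ (h.leaf x h1).1, (h.leaf x h1).2⟩
          · -- other tokens
            intro x l hx
            rcases List.mem_cons.1 hx with h1 | h1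
            · rw [Prod.mk.injEq] at h1
              obtain ⟨rfl, h2⟩ := h1
              right
              refine ⟨hesne, hesN, ?_⟩
              rcases hrel with ⟨h3, h4⟩ | ⟨lam1, μ1, h3, h4, h5⟩
              · rw [h3] at h2
                exact absurd h2 (by simp)
              · rw [h3] at h2
                simp only [Option.some.injEq] at h2
                subst h2
                exact ⟨μ1, by rw [h4]; exact List.mem_cons_self, h5⟩
            · rcases h.tok x l h1 with h2 | ⟨h2, h3, μ1, h4, h5⟩
              · exact Or.inl h2
              · exact Or.inr ⟨h2, h3, μ1, List.mem_cons_of_mem _ h4, h5⟩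
          · -- the invariant
            intro π hπ sd hleaf htr
            by_contra hπF
            have hinc : ∀ b : Bool, (side b π).Pairwise (· < ·) := by
              intro b
              cases b
              · exact (hA.inc π hπ).2
              · exact (hA.inc π hπ).1
            have hcl : ∀ b : Bool, S.cl (side b π) = ci (S.m + 1) := by
              intro b
              cases b
              · exact (hA.leaf π hπ).2
              · exact (hA.leaf π hπ).1
            have hlf : ∀ (b : Bool) (B : ℕ), S.cl (tr (side b π) B) = ci (S.m + 1) →
                tr (side b π) B = side b π := by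
              intro b B
              cases b
              · exact (hA.leaf' π hπ B).2
              · exact (hA.leaf' π hπ B).1
            have hne : ∀ b : Bool, side b π ≠ side (!b) π := by
              intro b
              cases b
              · exact fun h1 => hA.ne π hπ h1.symm
              · exact hA.ne π hπ
            have hnotold : π ∉ tc.F := fun h1 => hπF (hF1 h1)
            rcases List.mem_cons.1 hleaf with h1 | h1
            · -- the new leaf
              rw [Prod.mk.injEq] at h1
              obtain ⟨hzf, ho⟩ := h1
              have ho' : o' = none := by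
                rcases hrel with ⟨_, h4⟩ | ⟨lam1, μ1, h3, _, _⟩
                · exact h4
                · rw [h3] at ho
                  exact absurd ho (by simp)
              have hnd : tr (side sd π) (lastN (e ++ s)) ∈ nds ((e ++ s, o) :: u.P) := htr
              rcases List.mem_cons.1 (show tr (side sd π) (lastN (e ++ s)) ∈
                (e ++ s) :: nds u.P from hnd) with h2 | h2
              · -- equal to the new leaf
                apply hne sd
                have h3 : S.cl (tr (side sd π) (lastN (e ++ s))) = ci (S.m + 1) := by
                  rw [h2, ← hzf]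
                  exact hcl _
                rw [← hlf sd _ h3, h2, hzf]
              · -- an old node
                obtain ⟨⟨a, oa⟩, hmem, ha⟩ := List.mem_map.1 h2
                simp only at ha
                cases oa with
                | none =>
                  -- an old leaf
                  have h3 : S.cl a = ci (S.m + 1) := h.wf.lf a (h.leaf a hmem).1
                  have h4 : a = side sd π := by
                    rw [ha]
                    apply hlf sd
                    rw [← ha]
                    exact h3
                  apply hnotold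
                  apply h.inv π hπ (!sd)
                  · rw [Bool.not_not, ← h4]
                    exact hmem
                  · rw [hzf, htre]
                    exact hen
                | some l =>
                  have hane : a ≠ [] := by
                    intro h3
                    apply hnotold
                    apply h.ext.F
                    apply hext1.F
                    apply hsplit π hπ
                    -- the heads are different
                    have h5 : tr (side sd π) (lastN (e ++ s)) = [] := by rw [← ha, h3]
                    have h6 : (side sd π).head? ≠ (side (!sd) π).head? := by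
                      intro h7
                      have hnil : side sd π ≠ [] := by
                        intro h8
                        have h9 := hcl sd
                        rw [h8, cl_nil] at h9
                        have h10 := ci_inj h9
                        omega
                      obtain ⟨y, ys, hy⟩ := List.exists_cons_of_ne_nil hnil
                      rw [hy] at h7
                      have h8 : y ∈ side (!sd) π := by
                        have : (side (!sd) π).head? = some y := h7.symm
                        exact List.mem_of_mem_head? this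
                      have h9 : y ≤ lastN (e ++ s) := by
                        rw [hzf] at h8
                        refine le_lastN hans.ne ?_ y h8
                        rw [← hzf]
                        exact hinc _
                      have h10 : y ∈ tr (side sd π) (lastN (e ++ s)) := by
                        rw [mem_tr (hinc sd)]
                        exact ⟨by rw [hy]; exact List.mem_cons_self, h9⟩
                      rw [h5] at h10
                      simp at h10
                    cases sd
                    · exact fun h7 => h6 h7.symm
                    · exact h6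
                  rcases h.tok a l hmem with ⟨h3, _⟩ | ⟨_, haN, μ1, hμ1, hd⟩
                  · exact hane h3
                  · apply hcon
                    refine ⟨⟨(e ++ s, o') :: tc.P, lastN (e ++ s), F1⟩, ?_, hWF', hV', hroom,
                      a, e ++ s, sd, π, ⟨μ1, List.mem_cons_of_mem _ hμ1⟩, ?_, hπ, hπF, hzf,
                      ha.symm, rfl, ?_, ?_, ?_⟩
                    · exact (hext1.F.trans h.ext.F).trans hF1
                    · rw [ho']
                      exact List.mem_cons_self
                    · intro n hn
                      refine le_lastN hans.ne ?_ n hn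
                      rw [← hzf]
                      exact hinc _
                    · intro h3
                      have h4 := hcl sd
                      have h5 := h.wf.nl a μ1 hμ1
                      rw [h3] at h4
                      rw [h4] at h5
                      exact absurd h5 (lt_irrefl _)
                    · obtain ⟨v, hv1, hv2⟩ := D.cov _ _ hd
                      have h3 := hlow _ hext' hWF' a μ1 (List.mem_cons_of_mem _ hμ1) hane haN v hv2
                      exact nk_not_sub hV' (List.mem_cons_of_mem _ hμ1) hv1 h3
            · -- an old leaf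
              apply hnotold
              apply h.inv π hπ sd h1
              rcases List.mem_cons.1 (show tr (side sd π) (lastN (e ++ s)) ∈
                (e ++ s) :: nds u.P from htr) with h2 | h2
              · rw [hnew _ h2]
                exact hen
              · rw [hold _ h2]
                exact h2
    · refine ⟨t1, hV1, hwf1, Ext.refl _, rfl, rfl, ?_, ?_, ?_⟩
      · intro x hx
        simp at hx
      · intro x l hx
        simp only [List.mem_singleton, Prod.mk.injEq, Option.some.injEq] at hx
        exact Or.inl hx
      · intro π hπ sd hx _
        simp at hx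
  exact V_mono key (Less.refl _) (Set.union_subset_union_left _ hext1.F)

end MPb6M
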