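import Pool.Agent.Lib.MP_b6d339_lc.Mix.Defs
import Pool.Agent.Lib.MP_b6d339_lc.Mix.A1
import Pool.Agent.Lib.MP_b6d339_lc.Mix.A2
import Pool.Agent.Lib.MP_b6d339_lc.Mix.A3
import Pool.Agent.Lib.MP_b6d339_lc.Mix.A4
import Pool.Agent.Lib.MP_b6d339_lc.Mix.A4m
import Pool.Agent.Lib.MP_b6d339_lc.Mix.A5a
import Pool.Agent.Lib.MP_b6d339_lc.Mix.A5
import Pool.Agent.Lib.MP_b6d339_lc.Mix.A5p
import Pool.Agent.Lib.MP_b6d339_lc.Mix.A6a
import Pool.Agent.Lib.MP_b6d339_lc.Mix.A6
import Pool.Agent.Lib.MP_b6d339_lc.Mix.A10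

open Ordinal

namespace MPb6M

/-! # A10c: the end of the common beginning -/
variable {S : Sys}

/-- if `e ++ s = a ++ s0`, the numbers of `a` are `≤ B`, those of `s` are `> B`, then `a` is a
initial part of `e` -/
theorem A10c_pre {e s a s0 : List ℕ} {B : ℕ} (h : e ++ s = a ++ s0) (ha : ∀ n ∈ a, n ≤ B)
    (hs : ∀ n ∈ s, B < n) (hs0 : ∀ n ∈ s0, B < n) : ∃ s1, e = a ++ s1 ∧ ∀ n ∈ s1, B < n := by
  rcases List.append_eq_append_iff.mp h with ⟨r, h1, h2⟩ | ⟨r, h1, h2⟩
  · -- a = e ++ r, s = r ++ s0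
    refine ⟨[], ?_, by simp⟩
    rcases r with _ | ⟨x, r⟩
    · simpa using h1.symm
    · exfalso
      have h3 := ha x (by rw [h1]; simp)
      have h4 := hs x (by rw [h2]; simp)
      omega
  · exact ⟨r, h1, fun n hn => hs0 n (by rw [h2]; simp [hn])⟩

/-- **The end.** `L` = the pairs in which the waiting player has finished (`kap` = leaf). Suppose
not. Coinduction with
`𝒮 = {u | ∃ tc, V S (k+1) tc ∧ WFl S tc.P tc.B ∧ Ext t tc ∧ u.B = tc.B ∧
  u.F = tc.F ∪ Com All a t.B ∧ (∀ e, (e, none) ∈ u.P → (e, none) ∈ tc.P ∧ ((∀ n ∈ e, n ≤ t.B) ∨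
     ∀ s, e = a ++ s → (∀ n ∈ s, t.B < n) → ∃ π ∈ L.Fo a t.B, side L.sd π = e)) ∧
  (∀ e lam, (e, some lam) ∈ u.P → ∃ μ Γe, GS k tc e μ lam Γe ∧
     ((∃ s, e = a ++ s ∧ ∀ n ∈ s, t.B < n) → L ∈ Γe.map Prod.fst))}`. -/
theorem com_end {k : ℕ} {t : St} {All : Set Pr} (hA : AllOK S All) (hW : WFl S t.P t.B)
    (hV : V S (k + 1) t) (hL : ∀ e a, (e, some a) ∈ t.P → S.LimN a) {a : Nd} {μ : Need}
    (ha : (a, some μ) ∈ t.P) (L : Line S) (hk : L.kap = ci (S.m + 1))
    (hl : ∀ c B, ∀ π ∈ L.Fo c B, ∀ B', S.cl (tr (side L.sd π) B') = ci (S.m + 1) →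
      tr (side L.sd π) B' = side L.sd π)
    (h1 : ¬ V S (k + 1) ⟨t.P, t.B, t.F ∪ L.Fo a t.B⟩)
    (h2 : ¬ V S (k + 1) ⟨t.P, t.B, t.F ∪ Com All a t.B⟩) :
    ∃ π ∈ All, ∃ π1 ∈ L.Fo a t.B, ∃ π2 ∈ L.Fo a t.B, side L.sd π1 = π.1 ∧ side L.sd π2 = π.2 := by
  by_contra hcon
  apply h2
  -- the numbers of `a` and of `L.w`
  have haB : ∀ n ∈ a, n ≤ t.B := hW.bd _ ha
  have hwB : ∀ n ∈ L.w, n ≤ t.B := by
    have hne : (L.Fo a t.B).Nonempty := by
      rw [Set.nonempty_iff_ne_empty]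
      intro h0
      apply h1
      rw [h0, Set.union_empty]
      exact hV
    obtain ⟨π0, hπ0⟩ := hne
    have h3 := (L.pos a t.B π0 hπ0).2.1
    intro n hn
    rw [← h3] at hn
    exact tr_le hn
  refine V_coind {u | ∃ tc, V S (k+1) tc ∧ WFl S tc.P tc.B ∧ Ext t tc ∧ u.B = tc.B ∧
    u.F = tc.F ∪ Com All a t.B ∧ (∀ e, (e, none) ∈ u.P → (e, none) ∈ tc.P ∧ ((∀ n ∈ e, n ≤ t.B) ∨
     ∀ s, e = a ++ s → (∀ n ∈ s, t.B < n) → ∃ π ∈ L.Fo a t.B, side L.sd π = e)) ∧
    (∀ e lam, (e, some lam) ∈ u.P → ∃ μ Γe, GS k tc e μ lam Γe ∧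
     ((∃ s, e = a ++ s ∧ ∀ n ∈ s, t.B < n) → L ∈ Γe.map Prod.fst))} ?_ ?_
  · rintro u ⟨tc, hVc, hWc, hE, hB, hF, hlf, hin⟩
    constructor
    · intro x y hx hy
      rw [hF]
      rintro (h3 | h3)
      · exact V_ok hVc x y (hlf x hx).1 (hlf y hy).1 h3
      · obtain ⟨hAll, hxa, hya⟩ := h3
        have key : ∀ x', (x', none) ∈ u.P → x'.Pairwise (· < ·) → tr x' t.B = a →
            S.cl x' = ci (S.m + 1) → ∃ π ∈ L.Fo a t.B, side L.sd π = x' := by
          intro x' hx' hinc hxa hcl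
          rcases (hlf x' hx').2 with h4 | h4
          · exfalso
            rw [tr_self h4] at hxa
            have h5 := hW.nl a μ ha
            rw [hxa] at hcl
            rw [hcl] at h5
            exact absurd h5 (lt_irrefl _)
          · -- x' = a ++ s
            have hsup : ∃ M, t.B ≤ M ∧ ∀ n ∈ x', n ≤ M := by
              refine ⟨t.B + x'.sum, by omega, fun n hn => ?_⟩
              have := List.single_le_sum (l := x') (by simp) n hn
              omega
            obtain ⟨M, hM1, hM2⟩ := hsup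
            obtain ⟨s, hs1, hs2, -⟩ := tr_later hM1 hinc
            rw [tr_self hM2, hxa] at hs1
            exact h4 s hs1 (fun n hn => (hs2 n hn).1)
        obtain ⟨π1, hπ1, e1⟩ := key x hx (hA.inc _ hAll).1 hxa (hA.leaf _ hAll).1
        obtain ⟨π2, hπ2, e2⟩ := key y hy (hA.inc _ hAll).2 hya (hA.leaf _ hAll).2
        exact hcon ⟨(x, y), hAll, π1, hπ1, π2, hπ2, e1, e2⟩
    · intro e lam he ρ hr N
      obtain ⟨μe, Γe, hG, hGL⟩ := hin e lam he
      obtain ⟨t', s, hE', hW', hV', hs, hN, hinc, hval, hcl, hB', hR, hnone0, hsome0⟩ :=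
        guard_step hWc hVc hG hr N
      obtain ⟨o, hb, hnone, hsome⟩ : ∃ o, S.Adm ρ o ∧ (o = none → (e ++ s, none) ∈ t'.P ∧
          ∀ G ∈ Γe, G.1.kap = ci (S.m + 1) →
            ∃ π ∈ G.1.Fo e tc.B ∩ G.1.Thr (e ++ s) t'.B, π ∉ t'.F) ∧
          ∀ lam', o = some lam' → ∃ μ' Γ', GS k t' (e ++ s) μ' lam' Γ' ∧
            Γ'.map Prod.fst = (Γe.map Prod.fst).filter fun L => decide (KeepK S ρ.g L.kap) := by
        by_cases ho : ρ.o = none
        · exact ⟨none, Or.inl ⟨ho, rfl⟩, fun _ => hnone0 ho, fun _ h => absurd h (by simp)⟩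
        · obtain ⟨lam', μ', Γ', h1, h2, h3⟩ := hsome0 ho
          refine ⟨some lam', h1, fun h => absurd h (by simp), fun lam'' h => ?_⟩
          have h4 : lam' = lam'' := Option.some.inj h
          subst h4
          exact ⟨μ', Γ', h2, h3⟩
      have hBB : t.B ≤ tc.B := hE.B
      have hsB : ∀ n ∈ s, t.B < n := fun n hn => lt_of_le_of_lt hBB (hN n hn).2
      have hpre : (∃ s0, e ++ s = a ++ s0 ∧ ∀ n ∈ s0, t.B < n) →
          ∃ s1, e = a ++ s1 ∧ ∀ n ∈ s1, t.B < n := by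
        rintro ⟨s0, h3, h4⟩
        exact A10c_pre h3 haB hsB h4
      refine ⟨s, o, t'.F ∪ Com All a t.B, ⟨hs, hinc, ?_, hval, hcl⟩, hb, ?_, ?_, ?_⟩
      · intro n hn
        rw [hB]
        exact hN n hn
      · rw [hF]
        exact Set.union_subset_union_left _ hE'.F
      · rw [← hB']
        refine Rm_mono ⟨?_, ?_⟩ Set.subset_union_left hR
        · intro e' a' he'
          rcases List.mem_cons.mp he' with h3 | h3
          · obtain ⟨h5, h6⟩ := Prod.mk.inj h3
            obtain ⟨μ', Γ', hG', -⟩ := hsome a' h6.symm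
            rw [h5]
            exact ⟨μ', hG'.mem, hG'.lam_le⟩
          · obtain ⟨μ', Γ', hG', -⟩ := hin e' a' h3
            exact ⟨μ', hE'.P hG'.mem, hG'.lam_le⟩
        · intro e' he'
          rcases List.mem_cons.mp he' with h3 | h3
          · obtain ⟨h5, h6⟩ := Prod.mk.inj h3
            rw [h5]
            exact (hnone h6.symm).1
          · exact hE'.P (hlf e' h3).1
      · refine ⟨t', hV', hW', hE.trans hE', hB'.symm, rfl, ?_, ?_⟩
        · intro e' he'
          rcases List.mem_cons.mp he' with h3 | h3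
          · obtain ⟨h5, h6⟩ := Prod.mk.inj h3
            obtain ⟨h7, h8⟩ := hnone h6.symm
            rw [h5]
            refine ⟨h7, Or.inr fun s0 hs0 hs0' => ?_⟩
            obtain ⟨s1, hs1, hs1'⟩ := hpre ⟨s0, hs0, hs0'⟩
            have hmem := hGL ⟨s1, hs1, hs1'⟩
            obtain ⟨G, hGm, hGe⟩ := List.mem_map.mp hmem
            obtain ⟨π, ⟨hπ1, hπ2⟩, -⟩ := h8 G hGm (by rw [hGe]; exact hk)
            rw [hGe] at hπ1 hπ2
            refine ⟨π, ?_, ?_⟩
            · rw [hs1] at hπ1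
              refine L.up a t.B s1 tc.B π hπ1 haB hwB hs1' hBB ?_
              rw [hk]
              exact cl_le s1
            · have h9 : tr (side L.sd π) t'.B = e ++ s := hπ2.1
              rw [← h9]
              refine (hl e tc.B π hπ1 t'.B ?_).symm
              rw [h9]
              exact hW'.lf _ h7
          · exact ⟨hE'.P (hlf e' h3).1, (hlf e' h3).2⟩
        · intro e' lam' he'
          rcases List.mem_cons.mp he' with h3 | h3
          · obtain ⟨h5, h6⟩ := Prod.mk.inj h3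
            obtain ⟨μ', Γ', hG', hΓ'⟩ := hsome lam' h6.symm
            rw [h5]
            refine ⟨μ', Γ', hG', fun h9 => ?_⟩
            rw [hΓ', List.mem_filter]
            refine ⟨hGL (hpre h9), ?_⟩
            rw [hk]
            refine decide_eq_true (Or.inl (Req.g_lt hr fun h10 => ?_))
            rw [← Adm.none_iff hb, ← h6] at h10
            exact absurd h10 (by simp)
          · obtain ⟨μ', Γ', hG', hΓ'⟩ := hin e' lam' h3
            exact ⟨μ', Γ', hG'.ext hWc hW' hE', hΓ'⟩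
  · refine ⟨t, hV, hW, Ext.refl t, rfl, rfl, ?_, ?_⟩
    · intro e he
      exact ⟨he, Or.inl (hW.bd _ he)⟩
    · intro e lam he
      by_cases hea : e = a
      · subst hea
        refine ⟨lam, [L].map fun L => (L, lam), GS.start hW he (hL _ _ he) [L] ?_, ?_⟩
        · intro L' hL'
          rw [List.mem_singleton] at hL'
          rw [hL']
          exact h1
        · intro _
          simp
      · refine ⟨lam, [].map fun L => (L, lam), GS.start hW he (hL _ _ he) [] (by simp), ?_⟩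
        rintro ⟨s, hs, hs'⟩
        exfalso
        apply hea
        rcases s with _ | ⟨x, s⟩
        · simpa using hs
        · exfalso
          have h3 := hs' x (by simp)
          have h4 := hW.bd _ he x (by show x ∈ e; rw [hs]; simp)
          omega

end MPb6M
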