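import Pool.Agent.Lib.MP_b6d339_lc.Mix.Defs
import Pool.Agent.Lib.MP_b6d339_lc.Mix.A1
import Pool.Agent.Lib.MP_b6d339_lc.Mix.A2
import Pool.Agent.Lib.MP_b6d339_lc.Mix.A3
import Pool.Agent.Lib.MP_b6d339_lc.Mix.A4
import Pool.Agent.Lib.MP_b6d339_lc.Mix.A4m
import Pool.Agent.Lib.MP_b6d339_lc.Mix.A5a
import Pool.Agent.Lib.MP_b6d339_lc.Mix.A5
import Pool.Agent.Lib.MP_b6d339_lc.Mix.A5p
import Pool.Agent.Lib.MP_b6d339_lc.Mix.A6a
import Pool.Agent.Lib.MP_b6d339_lc.Mix.A6
import Pool.Agent.Lib.MP_b6d339_lc.Mix.A10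
import Pool.Agent.Lib.MP_b6d339_lc.Mix.A10r

open Ordinal

namespace MPb6M

/-! # A10l: com is alive everywhere -/
variable {S : Sys}

theorem A10l_heads {x y : List ℕ} {B N : ℕ} {s e : List ℕ} (hx : tr x B = s) (hs : s ≠ [])
    (hsN : ∀ n ∈ s, N < n) (hy : tr y B = e) (he : ∀ n ∈ e, n ≤ N) : x.head? ≠ y.head? := by
  subst hx hy
  intro h
  rcases x with _ | ⟨a, x⟩
  · simp [tr] at hs
  · rcases y with _ | ⟨b, y⟩
    · simp at h
    · simp only [List.head?_cons, Option.some.injEq] at h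
      subst h
      by_cases hab : a ≤ B
      · have h1 : a ∈ tr (a :: x) B := by simp [tr, hab]
        have h2 : a ∈ tr (a :: y) B := by simp [tr, hab]
        have := hsN a h1
        have := he a h2
        omega
      · apply hs
        simp [tr, hab]

theorem A10l_repl_sub {P : List Tok} {c : Nd} {o : Option Need} (h : (c, o) ∈ P) :
    repl P c o ⊆ P := by
  intro t ht
  unfold repl at ht
  rcases List.mem_cons.1 ht with h1 | h1
  · rw [h1]; exact h
  · exact (List.mem_filter.1 h1).1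

theorem A10l_wf_sub {P P' : List Tok} {B : ℕ} (hW : WFl S P B) (h : P' ⊆ P)
    (hn : (nds P').Nodup) : WFl S P' B where
  nd := hn
  inc := fun t ht => hW.inc t (h ht)
  bd := fun t ht => hW.bd t (h ht)
  val := fun t ht => hW.val t (h ht)
  nl := fun e a ht => hW.nl e a (h ht)
  lf := fun e ht => hW.lf e (h ht)

theorem A10l_nodup_repl {P : List Tok} {c : Nd} {o : Option Need} (h : (nds P).Nodup) :
    (nds (repl P c o)).Nodup := by
  unfold repl nds
  rw [List.map_cons, List.nodup_cons]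
  refine ⟨?_, ?_⟩
  · intro hc
    obtain ⟨t, ht, htc⟩ := List.mem_map.1 hc
    have := (List.mem_filter.1 ht).2
    simp at this
    exact this htc
  · exact List.Nodup.sublist (List.Sublist.map _ (List.filter_sublist)) h

/-- the main contradiction: a new node `c` all of whose pairs are handled -/
theorem A10l_key {k : ℕ} {All : Set Pr} {P : List Tok} {B : ℕ} {Fn : Set Pr} {c : Nd}
    {o : Option Need} (hW : WFl S P B) (hV : V S (k + 1) ⟨P, B, Fn⟩) (hc : (c, o) ∈ P)
    (hin : ∀ π ∈ All, tr π.1 B = c ∨ tr π.2 B = c → tr π.1 B ∈ nds P → tr π.2 B ∈ nds P →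
      π ∈ Fn) :
    V S (k + 1) ⟨repl P c o, B, Fn ∪ {π ∈ All | tr π.1 B = c ∨ tr π.2 B = c}⟩ := by
  have hsub := A10l_repl_sub hc
  have hW' : WFl S (repl P c o) B := A10l_wf_sub hW hsub (A10l_nodup_repl hW.nd)
  have hV' : V S (k + 1) ⟨repl P c o, B, Fn⟩ := V_mono hV (Less.of_subset hsub) subset_rfl
  refine V_ari hW' hV' ?_
  rintro π (hπ | ⟨hπ, hπ2⟩)
  · exact Or.inl hπ
  · by_cases hA : π ∈ Ari (repl P c o) B
    · left
      obtain ⟨h1, h2⟩ := hA
      exact hin π hπ hπ2 ((nds_repl hc _).1 h1) ((nds_repl hc _).1 h2)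
    · exact Or.inr hA

/-- the largest class below the leaf is `cf m 0` -/
theorem cl_le_exit {e : List ℕ} (h : S.cl e < ci (S.m + 1)) : S.cl e ≤ cf S.m 0 := by
  have hdm := S.hdm
  by_cases he : e = []
  · rw [he, cl_nil]
    exact (ci_lt_cf (by omega)).le
  · rcases cl_cases (S := S) he with ⟨j, h1, h2, h3⟩ | ⟨f, i, h1, h2, h3⟩ | h3
    · rw [h3]
      exact (ci_lt_cf (by omega)).le
    · rw [h3]
      rcases h2.lt_or_eq with h4 | h4
      · exact (cf_lt_cf.2 (Or.inl h4)).le
      · rcases Nat.eq_zero_or_pos i with h5 | h5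
        · rw [h4, h5]
        · exact (cf_lt_cf.2 (Or.inr ⟨h4, h5⟩)).le
    · rw [h3] at h
      exact absurd h (lt_irrefl _)

theorem Req.le_exit {a : Need} {ρ : Rq} (hr : S.Req a ρ) (ho : ρ.o ≠ none) : ρ.g ≤ cf S.m 0 := by
  have hdm := S.hdm
  rcases hr with ⟨j, a', hg, _, h1, h2, _⟩ | ⟨f, i, a', hg, _, h1, h2, _⟩ | hr
  · rw [hg]
    exact (ci_lt_cf (by omega)).le
  · rw [hg]
    rcases h2.lt_or_eq with h4 | h4
    · exact (cf_lt_cf.2 (Or.inl h4)).le
    · rcases Nat.eq_zero_or_pos i with h5 | h5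
      · rw [h4, h5]
      · exact (cf_lt_cf.2 (Or.inr ⟨h4, h5⟩)).le
  · exact absurd hr.2 ho

/-- With `hsplit` (all pairs splitting at the root are forbidden) the failing request is the exit
(a leaf request at the root would be answered by a leaf `s`; a pair through `s` which can arise
splits at the root), `ρ0.o = some θ`. And `Com a` cannot be killed at ANY non-leaf node
`a` with numbers `> N` at any need `v` with `Cov S v ρ0`: otherwise
`V S (k+1) ⟨repl t'.P a (some v), t'.B, t'.F ∪ Com All a t'.B⟩`; drop all tokens except those of `t1`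
and `a` (`V_mono`), make the request `ρ'` at `a`: answer `a ++ s'`, a state
`⟨(a ++ s', b) :: (a, some v) :: t1.P, B'', F''⟩` with room and
`F'' ⊇ t'.F ∪ Com All a t'.B`. A pair of `All` with one component at `a ++ s'` which can arise: the other
component is `a ++ s'` or `a` (then the pair is in `Com All a t'.B`), or a token of `t1` (numbers
`≤ N`), then the pair splits at the root and is in `F`. Contradiction to `act_com` (with `V_ari`). -/
theorem com_low {k : ℕ} {F All : Set Pr} (hA : AllOK S All)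
    (hex : ∀ e, S.Val e → e ≠ [] → cf S.m 0 ≤ S.cl e)
    (hW : WFl S [([], some (rootN S))] 0)
    (hN : ¬ V S (k + 1) ⟨[([], some (rootN S))], 0, F ∪ All⟩)
    (hV : V S (k + 1) ⟨[([], some (rootN S))], 0, F⟩)
    (hsplit : ∀ π ∈ All, π.1.head? ≠ π.2.head? → π ∈ F) :
    ∃ t1 N ρ0 θ, Ext ⟨[([], some (rootN S))], 0, F⟩ t1 ∧ WFl S t1.P t1.B ∧
      V S (k + 1) t1 ∧ t1.B ≤ N ∧ ρ0.g = cf S.m 0 ∧ ρ0.o = some θ ∧
      S.RqF (rootN S) S.m 0 θ ∧
      ∀ t' : St, Ext t1 t' → WFl S t'.P t'.B → ∀ a μ, (a, some μ) ∈ t'.P → a ≠ [] →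
        (∀ n ∈ a, N < n) → ∀ v, Cov S v ρ0 →
        nk S (k + 1) t' a (some v) (Com All a t'.B) := by
  obtain ⟨t1, ρ0, N, he1, hW1, hV1, hreq, hBN, hact⟩ := act_com hA hW hN hV
  have hroot : (([] : Nd), some (rootN S)) ∈ t1.P := he1.P (by simp)
  have key : ∀ e : Nd, e ∈ nds t1.P → ∀ n ∈ e, n ≤ N := by
    intro e hen n hn
    obtain ⟨t, ht, rfl⟩ := List.mem_map.1 hen
    exact (hW1.bd t ht n hn).trans hBN
  have hlf : ρ0.o ≠ none := by
    -- leaf request
    intro ho
    obtain ⟨s, b, F', hans, hb, hF', hR, hV'⟩ := V_step hV1 hroot hreq N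
    have hbn : b = none := (Adm.none_iff hb).2 ho
    subst hbn
    have hWn := WF_cons (P := t1.P) (B := t1.B) (F := t1.F) hW1 hroot hreq hans hb
    have hE := Ext.step (o := none) hans hF'
    simp only [List.nil_append] at hR hV' hWn hE
    refine hact ⟨(s, none) :: t1.P, lastN s, F'⟩ hE hWn s hans.ne (fun n hn => (hans.big n hn).1)
      hans.cl (by simp [nds]) rfl hR none hb ?_
    refine A10l_key (All := All) hWn hV' (by simp) ?_
    have hsN : ∀ n ∈ s, N < n := fun n hn => (hans.big n hn).1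
    have hcl : S.cl s = ci (S.m + 1) := by rw [hans.cl]; exact (Req.none_iff hreq).1 ho
    intro π hπ h1 h2 h3
    have hnd : nds ((s, none) :: t1.P) = s :: nds t1.P := rfl
    rw [hnd] at h2 h3
    have hmem : π ∈ F := by
      rcases h1 with h1 | h1
      · rcases List.mem_cons.1 h3 with h3 | h3
        · exfalso
          have a1 := ((hA.leaf' π hπ (lastN s)).1 (by rw [h1]; exact hcl))
          have a2 := ((hA.leaf' π hπ (lastN s)).2 (by rw [h3]; exact hcl))
          exact hA.ne π hπ (by rw [← a1, ← a2, h1, h3])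
        · exact hsplit π hπ (A10l_heads h1 hans.ne hsN rfl (key _ h3))
      · rcases List.mem_cons.1 h2 with h2 | h2
        · exfalso
          have a1 := ((hA.leaf' π hπ (lastN s)).1 (by rw [h2]; exact hcl))
          have a2 := ((hA.leaf' π hπ (lastN s)).2 (by rw [h1]; exact hcl))
          exact hA.ne π hπ (by rw [← a1, ← a2, h1, h2])
        · exact hsplit π hπ (A10l_heads h1 hans.ne hsN rfl (key _ h2)).symm
    exact hF' (he1.F hmem)
  obtain ⟨θ, hg0, ho0, hθ⟩ : ∃ θ, ρ0.g = cf S.m 0 ∧ ρ0.o = some θ ∧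
      S.RqF (rootN S) S.m 0 θ := by
    rcases hreq with ⟨j, a', hg, ho, h1, h2, h3, _⟩ | ⟨f, i, a', hg, ho, h⟩ | hr
    · exact absurd h3 (not_lt.2 zero_le)
    · have h3 := h.2.2.1
      have hfm : f = S.m := by
        by_contra hne
        rw [rootN_l hne] at h3
        exact absurd h3 (Finset.notMem_empty _)
      subst hfm
      have hi : i ∈ (if S.m = S.m then ({0} : Finset ℕ) else ∅) := h3
      rw [if_pos rfl, Finset.mem_singleton] at hi
      subst hi
      exact ⟨a', hg, ho, h⟩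
    · exact absurd hr.2 hlf
  refine ⟨t1, N, ρ0, θ, he1, hW1, hV1, hBN, hg0, ho0, hθ, ?_⟩
  rintro t' he' hW' a μ ha hne haN v ⟨ρ', hρo, hρr, hcov⟩ hVa
  have hanot : a ∉ nds t1.P := by
    intro h
    obtain ⟨n, hn⟩ := List.exists_mem_of_ne_nil a hne
    have h1 := key a h n hn
    have h2 := haN n hn
    omega
  -- drop tokens
  have hL : ((a, some v) :: t1.P) ⊆ repl t'.P a (some v) := by
    intro t ht
    unfold repl
    rcases List.mem_cons.1 ht with h | h
    · rw [h]; exact List.mem_cons_self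
    · refine List.mem_cons_of_mem _ (List.mem_filter.2 ⟨he'.P h, ?_⟩)
      have : t.1 ≠ a := by
        intro h2
        exact hanot (by rw [← h2]; exact List.mem_map_of_mem h)
      simpa using this
  have hW2 : WFl S ((a, some v) :: t1.P) t'.B :=
    A10l_wf_sub (WF_repl hW' ha) hL (by
      show (a :: nds t1.P).Nodup
      exact List.nodup_cons.2 ⟨hanot, hW1.nd⟩)
  have hV2 : V S (k + 1) ⟨(a, some v) :: t1.P, t'.B, t'.F ∪ Com All a t'.B⟩ :=
    V_mono hVa (Less.of_subset hL) subset_rfl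
  obtain ⟨s', b, F'', hans, hb, hF'', hR, hV3⟩ := V_step hV2 (List.mem_cons_self) hρr N
  have hW3 := WF_cons (F := t'.F ∪ Com All a t'.B) hW2 (List.mem_cons_self) hρr hans hb
  have hlast : lastN (a ++ s') ∈ s' := lastN_mem hans.ne
  have hB'' : t'.B < lastN (a ++ s') := (hans.big _ hlast).2
  have hE : Ext t1 ⟨(a ++ s', b) :: (a, some v) :: t1.P, lastN (a ++ s'), F''⟩ :=
    ⟨fun t ht => List.mem_cons_of_mem _ (List.mem_cons_of_mem _ ht),
      he'.B.trans hB''.le, he'.F.trans (Set.subset_union_left.trans hF'')⟩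
  have hne' : a ++ s' ≠ [] := by simp [hne]
  have hasN : ∀ n ∈ a ++ s', N < n := by
    intro n hn
    rcases List.mem_append.1 hn with h | h
    · exact haN n h
    · exact (hans.big n h).1
  have hcla : S.cl a = cf S.m 0 :=
    le_antisymm (cl_le_exit (hW'.nl a μ ha)) (hex a (hW'.val _ ha) hne)
  have hcl : S.cl (a ++ s') = ρ0.g := by
    rw [cl_append, hans.cl, hcla, hg0]
    exact max_eq_left (Req.le_exit hρr hρo)
  refine hact _ hE hW3 (a ++ s') hne' hasN hcl (by simp [nds]) rfl hR b (hcov b hb) ?_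
  refine A10l_key (All := All) hW3 hV3 (by simp) ?_
  have hbda : ∀ n ∈ a, n ≤ t'.B := hW'.bd _ ha
  have htra : tr (a ++ s') t'.B = a := tr_append hbda (fun n hn => (hans.big n hn).2)
  have htra' : tr a t'.B = a := tr_self hbda
  have hcom : ∀ x : List ℕ, tr x (lastN (a ++ s')) = a ++ s' ∨ tr x (lastN (a ++ s')) = a →
      tr x t'.B = a := by
    intro x hx
    rw [← tr_tr x hB''.le]
    rcases hx with hx | hx
    · rw [hx, htra]
    · rw [hx, htra']
  intro π hπ h1 h2 h3
  have hnd : nds ((a ++ s', b) :: (a, some v) :: t1.P) = (a ++ s') :: a :: nds t1.P := rfl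
  rw [hnd] at h2 h3
  rw [List.mem_cons, List.mem_cons, ← or_assoc] at h2 h3
  rcases h1 with h1 | h1
  · rcases h3 with h3 | h3
    · exact hF'' (Or.inr ⟨hπ, hcom _ (Or.inl h1), hcom _ h3⟩)
    · exact hF'' (Or.inl (he'.F (he1.F (hsplit π hπ (A10l_heads h1 hne' hasN rfl (key _ h3))))))
  · rcases h2 with h2 | h2
    · exact hF'' (Or.inr ⟨hπ, hcom _ h2, hcom _ (Or.inl h1)⟩)
    · exact hF'' (Or.inl (he'.F (he1.F (hsplit π hπ
        (A10l_heads h1 hne' hasN rfl (key _ h2)).symm))))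

end MPb6M
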