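import Pool.Agent.Lib.MP_b6d339_lc.Mix.Defs
import Pool.Agent.Lib.MP_b6d339_lc.Mix.A1
import Pool.Agent.Lib.MP_b6d339_lc.Mix.A2
import Pool.Agent.Lib.MP_b6d339_lc.Mix.A3
import Pool.Agent.Lib.MP_b6d339_lc.Mix.A4
import Pool.Agent.Lib.MP_b6d339_lc.Mix.A4m

open Ordinal

namespace MPb6M

/-! # A4u: upgrade, maximal forbidden sets -/
variable {S : Sys}

noncomputable def zP (P : List Tok) : List Tok := P.map fun t => (t.1, t.2.map zN)

/-- a maximal forbidden set: there are finitely many sets `Fob j a w B` with `a, w ∈ nds P`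
(`S.fin`); take a maximal subfamily `T` with `V S k ⟨P, B, F ∪ ⋃ T⟩` -/
theorem exists_complete {k : ℕ} {P : List Tok} {B : ℕ} {F : Set Pr} (h : V S k ⟨P, B, F⟩) :
    ∃ F', F ⊆ F' ∧ V S k ⟨P, B, F'⟩ ∧ ∀ j, ∀ a ∈ nds P, ∀ w ∈ nds P,
      S.Fob j a w B ⊆ F' ∨ ¬ V S k ⟨P, B, F' ∪ S.Fob j a w B⟩ := by
  classical
  -- the finite set of objects
  set O : Set (Set Pr) := {X | ∃ j, ∃ a ∈ nds P, ∃ w ∈ nds P, X = S.Fob j a w B} with hO
  have hOfin : O.Finite := by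
    have h1 : O = ⋃ q ∈ ({a | a ∈ nds P} ×ˢ {w | w ∈ nds P} : Set (Nd × Nd)),
        Set.range fun j => S.Fob j q.1 q.2 B := by
      ext X
      simp only [hO, Set.mem_ofPred_eq, Set.mem_iUnion, Set.mem_range, exists_prop, Set.mem_prod,
        Prod.exists]
      constructor
      · rintro ⟨j, a, ha, w, hw, rfl⟩
        exact ⟨a, w, ⟨ha, hw⟩, j, rfl⟩
      · rintro ⟨a, w, ⟨ha, hw⟩, j, rfl⟩
        exact ⟨j, a, ha, w, hw, rfl⟩
    rw [h1]
    exact Set.Finite.biUnion (Set.Finite.prod (List.finite_toSet _) (List.finite_toSet _))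
      fun q _ => S.fin q.1 q.2 B
  set Fam : Set (Set (Set Pr)) := {T | T ⊆ O ∧ V S k ⟨P, B, F ∪ ⋃₀ T⟩} with hFam
  have hFamfin : Fam.Finite := hOfin.finite_subsets.subset fun T hT => hT.1
  have hne : Fam.Nonempty := ⟨∅, Set.empty_subset _, by simpa using h⟩
  obtain ⟨T, hT, hmax⟩ := hFamfin.exists_maximal hne
  refine ⟨F ∪ ⋃₀ T, Set.subset_union_left, hT.2, fun j a ha w hw => ?_⟩
  by_cases hV : V S k ⟨P, B, (F ∪ ⋃₀ T) ∪ S.Fob j a w B⟩
  · left
    have hX : S.Fob j a w B ∈ O := ⟨j, a, ha, w, hw, rfl⟩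
    have hmem : insert (S.Fob j a w B) T ∈ Fam := by
      refine ⟨Set.insert_subset hX hT.1, ?_⟩
      have : F ∪ ⋃₀ insert (S.Fob j a w B) T = (F ∪ ⋃₀ T) ∪ S.Fob j a w B := by
        rw [Set.sUnion_insert, Set.union_assoc, Set.union_comm (⋃₀ T)]
      rw [this]
      exact hV
    have hle : insert (S.Fob j a w B) T ⊆ T := hmax hmem (Set.subset_insert _ _)
    have hin : S.Fob j a w B ∈ T := hle (Set.mem_insert _ _)
    exact (Set.subset_sUnion_of_mem hin).trans Set.subset_union_right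
  · right
    exact hV

theorem A4u_nds_zP (P : List Tok) : nds (zP P) = nds P := by
  simp only [nds, zP, List.map_map]
  rfl

theorem A4u_mem_zP_some {P : List Tok} {e : Nd} {a : Need} (h : (e, some a) ∈ P) :
    (e, some (zN a)) ∈ zP P :=
  List.mem_map.2 ⟨(e, some a), h, rfl⟩

theorem A4u_mem_zP_none {P : List Tok} {e : Nd} (h : (e, none) ∈ P) : (e, none) ∈ zP P :=
  List.mem_map.2 ⟨(e, none), h, rfl⟩

theorem A4u_of_zP_some {P : List Tok} {e : Nd} {a : Need} (h : (e, some a) ∈ zP P) :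
    ∃ a', (e, some a') ∈ P ∧ a = zN a' := by
  obtain ⟨⟨e', o⟩, ht, heq⟩ := List.mem_map.1 h
  cases o with
  | none => simp at heq
  | some a' =>
    simp only [Option.map_some, Prod.mk.injEq, Option.some.injEq] at heq
    obtain ⟨rfl, rfl⟩ := heq
    exact ⟨a', ht, rfl⟩

theorem A4u_of_zP_none {P : List Tok} {e : Nd} (h : (e, none) ∈ zP P) : (e, none) ∈ P := by
  obtain ⟨⟨e', o⟩, ht, heq⟩ := List.mem_map.1 h
  cases o with
  | none =>
    simp only [Option.map_none, Prod.mk.injEq, and_true] at heq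
    subst heq
    exact ht
  | some a' => simp at heq

theorem A4u_WF_zP {P : List Tok} {B : ℕ} (hW : WFl S P B) : WFl S (zP P) B := by
  have key : ∀ t ∈ zP P, ∃ t' ∈ P, t'.1 = t.1 := by
    intro t ht
    obtain ⟨t', ht', rfl⟩ := List.mem_map.1 ht
    exact ⟨t', ht', rfl⟩
  refine ⟨?_, ?_, ?_, ?_, ?_, ?_⟩
  · rw [A4u_nds_zP]; exact hW.nd
  · intro t ht
    obtain ⟨t', ht', h1⟩ := key t ht
    rw [← h1]; exact hW.inc t' ht'
  · intro t ht
    obtain ⟨t', ht', h1⟩ := key t ht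
    rw [← h1]; exact hW.bd t' ht'
  · intro t ht
    obtain ⟨t', ht', h1⟩ := key t ht
    rw [← h1]; exact hW.val t' ht'
  · intro e a h
    obtain ⟨a', ha', -⟩ := A4u_of_zP_some h
    exact hW.nl e a' ha'
  · intro e h
    exact hW.lf e (A4u_of_zP_none h)

theorem A4u_step {k : ℕ} {t : St} (h : V S k t) {e : Nd} {a : Need} (he : (e, some a) ∈ t.P)
    {ρ : Rq} (hr : S.Req a ρ) (N : ℕ) :
    ∃ s b F', Ans S t e ρ.g N s ∧ S.Adm ρ b ∧ t.F ⊆ F' ∧
      V S k ⟨(e ++ s, b) :: t.P, lastN (e ++ s), F'⟩ := by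
  cases k with
  | zero => exact V_step0 h he hr N
  | succ k =>
    obtain ⟨s, b, F', h1, hb, h2, -, h4⟩ := V_step h he hr N
    exact ⟨s, b, F', h1, hb, h2, h4⟩

/-- **Upgrade.** Coinduction with `𝒮 = {t | WFl S t.P t.B ∧ V S k ⟨zP t.P, t.B, t.F⟩}`:
a request `(g, o)` from `a` gives a request from `z a` (`Req.z`); the answer `e ++ s` gives
`V S k ⟨(e ++ s, o.map z) :: zP P, _, F1⟩`; let `F2` be complete for it (`exists_complete`); the room
is `Q = zP ((e ++ s, o) :: P)`, `Fr = F2` (needs are limits by `z_lim`); the new forbidden set is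
`F2`. For `k = 0` use `V_step0`, for `k + 1` use `V_step` (or `V_mono`/a common unfolding lemma). -/
theorem upgrade {k : ℕ} {P : List Tok} {B : ℕ} {F : Set Pr} (hW : WFl S P B)
    (h : V S k ⟨zP P, B, F⟩) : V S (k + 1) ⟨P, B, F⟩ := by
  refine V_coind {t | WFl S t.P t.B ∧ V S k ⟨zP t.P, t.B, t.F⟩} ?_ ⟨hW, h⟩
  rintro ⟨P, B, F⟩ ⟨hW, hV⟩
  refine ⟨?_, ?_⟩
  · intro x y hx hy
    exact V_ok hV x y (A4u_mem_zP_none hx) (A4u_mem_zP_none hy)
  · intro e a he ρ hr N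
    obtain ⟨s, b1, F1, hA, hb1, hF1, hV1⟩ := A4u_step hV (A4u_mem_zP_some he) (Req.z hr) N
    have hA' : Ans S ⟨P, B, F⟩ e ρ.g N s := ⟨hA.ne, hA.inc, hA.big, hA.val, hA.cl⟩
    obtain ⟨b, hb, rfl⟩ := Adm.z hb1
    have hV1' : V S k ⟨zP ((e ++ s, b) :: P), lastN (e ++ s), F1⟩ := hV1
    obtain ⟨F2, hF2, hV2, hcomp⟩ := exists_complete hV1'
    have hW' : WFl S ((e ++ s, b) :: P) (lastN (e ++ s)) := WF_cons hW he hr hA' hb
    refine ⟨s, b, F2, hA', hb, hF1.trans hF2, ?_, hW', hV2⟩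
    refine ⟨F2, subset_rfl, zP ((e ++ s, b) :: P), ?_⟩
    refine ⟨A4u_WF_zP hW', ?_, ?_, ?_, hV2, ?_⟩
    · intro e' a' h'
      exact ⟨_, A4u_mem_zP_some h'⟩
    · intro e' h'
      exact A4u_mem_zP_none h'
    · intro e' a' h' j hj1 hj2
      obtain ⟨a'', -, rfl⟩ := A4u_of_zP_some h'
      exact z_lim _
    · intro j a' ha' w hw
      refine hcomp j a' ?_ w ?_
      · rw [A4u_nds_zP]; exact ha'
      · rw [A4u_nds_zP]; exact hw

end MPb6M
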