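import Pool.Agent.Lib.MP_b6d339_lc.Mix.Defs
import Pool.Agent.Lib.MP_b6d339_lc.Mix.A1
import Pool.Agent.Lib.MP_b6d339_lc.Mix.A2
import Pool.Agent.Lib.MP_b6d339_lc.Mix.A3
import Pool.Agent.Lib.MP_b6d339_lc.Mix.A4
import Pool.Agent.Lib.MP_b6d339_lc.Mix.A4m
import Pool.Agent.Lib.MP_b6d339_lc.Mix.A5a
import Pool.Agent.Lib.MP_b6d339_lc.Mix.A5
import Pool.Agent.Lib.MP_b6d339_lc.Mix.A5p
import Pool.Agent.Lib.MP_b6d339_lc.Mix.A6a
import Pool.Agent.Lib.MP_b6d339_lc.Mix.A6

open Ordinal

namespace MPb6M

/-! # A7: the sweep -/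
variable {S : Sys}

/-- the class `g` keeps the line with the next cut `kap` alive -/
def RelK (S : Sys) (g kap : Cl) : Prop := g < kap ∨ (g = kap ∧ co kap ≤ S.d)

theorem RelK.max {a b kap : Cl} (h : RelK S (max a b) kap) : RelK S a kap ∧ RelK S b kap := by
  rcases h with h | ⟨h1, h2⟩
  · exact ⟨Or.inl ((le_max_left _ _).trans_lt h), Or.inl ((le_max_right _ _).trans_lt h)⟩
  · have ha : a ≤ kap := h1 ▸ le_max_left a b
    have hb : b ≤ kap := h1 ▸ le_max_right a b
    refine ⟨?_, ?_⟩
    · rcases ha.eq_or_lt with h | h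
      · exact Or.inr ⟨h, h2⟩
      · exact Or.inl h
    · rcases hb.eq_or_lt with h | h
      · exact Or.inr ⟨h, h2⟩
      · exact Or.inl h

theorem RelK.keep {a kap : Cl} (h : RelK S a kap) : KeepK S a kap := by
  rcases h with h | ⟨h1, h2⟩
  · exact Or.inl h
  · exact Or.inr ⟨h1, Or.inl (by rw [h1]; exact h2)⟩

/-- `c` is `e`, or above `e` with new numbers, inside the `kap`-container of `e` (strictly inside
if the class `kap` is finite) -/
def Rel (S : Sys) (B0 : ℕ) (kap : Cl) (e c : Nd) : Prop :=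
  ∃ s, c = e ++ s ∧ (∀ n ∈ s, B0 < n) ∧ RelK S (S.cl s) kap

/-- **Sweep.** Suppose not. Then `V S (k+1) ⟨t.P, t.B, t.F ∪ X⟩` by coinduction with
`𝒮 = {u | ∃ tc, V S (k+1) tc ∧ WFl S tc.P tc.B ∧ Ext t tc ∧ u.B = tc.B ∧ u.F = tc.F ∪ X ∧
  (∀ e, (e, none) ∈ u.P → (e, none) ∈ tc.P) ∧
  (∀ e lam, (e, some lam) ∈ u.P → ∃ μ Γe, GS k tc e μ lam Γe ∧
      ∀ G ∈ Γ, Rel S t.B G.1.kap G.2 e → G.1 ∈ Γe.map Prod.fst) ∧
  (∀ π ∈ X, τ π ≤ u.B → tr π.1 u.B ∈ nds u.P → tr π.2 u.B ∈ nds u.P → π ∈ tc.F)}`.
Start: `GS.start` with the lines of `Γ` whose node is `e` (`Rel` between tokens of `t` is equality).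
Step: request `(g, o)` at `e` from `lam`: `guard_step` in `tc` with `max N tc.B`: `tc' := t'`; the
other tokens by `GS.ext`. `Rel G.2 (e ++ s)` implies `Rel G.2 e` and `g ≤ kap` (`G.2` has
numbers `≤ t.B`). The room is inherited by `Rm_mono` (`GS.lam_le`). The last invariant for the new
state, `B' = t'.B`: if `τ π ≤ u.B` truncate and use the old one. If `u.B < τ π ≤ B'`: `BE π (τ π)`: `τ π`
is a number of `tr (side sd π) B'`, which must be `e ++ s`; if `τ π ≠ B'` then the next number of this
side is in `s`, hence there is `m` on the other side with `τ π < m <` this number; `tr` of the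
other side contains `m > u.B`, so it is `e ++ s` as well, contradiction to `hX1`. So `τ π = B'`; if
`π ∉ t'.F` then `t'`, `π` are as required (`nk_not_sub`, `GS.le`), contradiction.
`OK`: a finished pair in `X` has `τ π ≤ u.B`, hence is in `tc.F`. -/
theorem sweep {k : ℕ} {t : St} (hW : WFl S t.P t.B) (hV : V S (k + 1) t)
    (hL : ∀ e a, (e, some a) ∈ t.P → S.LimN a) (Γ : List (Line S × Nd))
    (hΓ : ∀ G ∈ Γ, (∃ a, (G.2, some a) ∈ t.P) ∧ ¬ V S (k + 1) ⟨t.P, t.B, t.F ∪ G.1.Fo G.2 t.B⟩)
    {X : Set Pr} (hX : ¬ V S (k + 1) ⟨t.P, t.B, t.F ∪ X⟩)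
    (hX1 : ∀ π ∈ X, π.1.Pairwise (· < ·) ∧ π.2.Pairwise (· < ·) ∧ ∀ n ∈ π.1, t.B < n → n ∉ π.2)
    (τ : Pr → ℕ) (hτ : ∀ π ∈ X, t.B < τ π ∧ BE π (τ π)) :
    ∃ t' : St, Ext t t' ∧ WFl S t'.P t'.B ∧ V S (k + 1) t' ∧ Rm S (V S k) t'.P t'.B t'.F ∧
      ∃ π ∈ X, π ∉ t'.F ∧ τ π = t'.B ∧ tr π.1 t'.B ∈ nds t'.P ∧ tr π.2 t'.B ∈ nds t'.P ∧
        ∀ G ∈ Γ, ∀ c, (c = tr π.1 t'.B ∨ c = tr π.2 t'.B) → S.cl c < ci (S.m + 1) →
          Rel S t.B G.1.kap G.2 c → ¬ G.1.Fo c t'.B ⊆ t'.F := by
  classical
  by_contra hcon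
  push Not at hcon
  apply hX
  set 𝒮 : Set St := {u | ∃ tc : St, V S (k + 1) tc ∧ WFl S tc.P tc.B ∧ Ext t tc ∧ u.B = tc.B ∧
    u.F = tc.F ∪ X ∧ (∀ e, (e, none) ∈ u.P → (e, none) ∈ tc.P) ∧
    (∀ e lam, (e, some lam) ∈ u.P → ∃ μ Γe, GS k tc e μ lam Γe ∧
      ∀ G ∈ Γ, Rel S t.B G.1.kap G.2 e → G.1 ∈ Γe.map Prod.fst) ∧
    (∀ π ∈ X, τ π ≤ u.B → tr π.1 u.B ∈ nds u.P → tr π.2 u.B ∈ nds u.P → π ∈ tc.F)} with h𝒮
  have hΓb : ∀ G ∈ Γ, ∀ n ∈ G.2, n ≤ t.B := by
    intro G hG n hn
    obtain ⟨⟨a, ha⟩, -⟩ := hΓ G hG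
    exact hW.bd _ ha n hn
  refine V_coind 𝒮 ?_ ?_
  · -- the step
    rintro u ⟨tc, hVc, hWc, hEc, huB, huF, hleaf, hgs, hinv⟩
    have hnd : ∀ x ∈ nds u.P, x ∈ nds tc.P := by
      intro x hx
      obtain ⟨⟨y, o⟩, hy, hxy⟩ := List.mem_map.1 hx
      have hxy' : y = x := hxy
      subst hxy'
      cases o with
      | none => exact List.mem_map.2 ⟨_, hleaf _ hy, rfl⟩
      | some lam =>
        obtain ⟨μ, Γe, hG, -⟩ := hgs _ _ hy
        exact List.mem_map.2 ⟨_, hG.mem, rfl⟩
    have hbd : ∀ x ∈ nds u.P, ∀ n ∈ x, n ≤ u.B := by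
      intro x hx n hn
      obtain ⟨⟨y, o⟩, hy, hxy⟩ := List.mem_map.1 (hnd x hx)
      have hxy' : y = x := hxy
      subst hxy'
      rw [huB]
      exact hWc.bd _ hy n hn
    refine ⟨?_, ?_⟩
    · intro x y hx hy hxy
      rw [huF] at hxy
      rcases hxy with h | h
      · exact V_ok hVc x y (hleaf _ hx) (hleaf _ hy) h
      · have hx' : x ∈ nds u.P := List.mem_map.2 ⟨_, hx, rfl⟩
        have hy' : y ∈ nds u.P := List.mem_map.2 ⟨_, hy, rfl⟩
        have h1 : tr x u.B = x := tr_self (hbd x hx')
        have h2 : tr y u.B = y := tr_self (hbd y hy')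
        have hτu : τ (x, y) ≤ u.B := by
          obtain ⟨-, sd, hsd, -⟩ := hτ _ h
          cases sd with
          | true => exact hbd x hx' _ hsd
          | false => exact hbd y hy' _ hsd
        have h3 : (x, y) ∈ tc.F := hinv _ h hτu (by rw [h1]; exact hx') (by rw [h2]; exact hy')
        exact V_ok hVc x y (hleaf _ hx) (hleaf _ hy) h3
    · intro e lam he ρ hr N
      obtain ⟨μ, Γe, hG, hGΓ⟩ := hgs e lam he
      obtain ⟨t', s, hE', hW', hV', hs, hsN, hsi, hval, hcl, hB', hR', hlf0, hsm0⟩ :=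
        guard_step hWc hVc hG hr (max N tc.B)
      obtain ⟨o, hb, hlf, hsm⟩ : ∃ o, S.Adm ρ o ∧ (o = none → (e ++ s, none) ∈ t'.P) ∧
          ∀ lam', o = some lam' → ∃ μ' Γ', GS k t' (e ++ s) μ' lam' Γ' ∧
            Γ'.map Prod.fst = (Γe.map Prod.fst).filter fun L => decide (KeepK S ρ.g L.kap) := by
        by_cases ho : ρ.o = none
        · exact ⟨none, Or.inl ⟨ho, rfl⟩, fun _ => (hlf0 ho).1, fun _ h => absurd h (by simp)⟩
        · obtain ⟨lam', μ', Γ', h1, h2, h3⟩ := hsm0 ho
          refine ⟨some lam', h1, fun h => absurd h (by simp), fun lam'' h => ?_⟩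
          have h4 : lam' = lam'' := Option.some.inj h
          subst h4
          exact ⟨μ', Γ', h2, h3⟩
      have heu : e ∈ nds u.P := List.mem_map.2 ⟨_, he, rfl⟩
      have hsu : ∀ n ∈ s, u.B < n := by
        intro n hn
        rw [huB]
        exact (hsN n hn).2
      -- tokens of the new state
      have hleaf' : ∀ x, (x, none) ∈ (e ++ s, o) :: u.P → (x, none) ∈ t'.P := by
        intro x hx
        rcases List.mem_cons.1 hx with h | h
        · have h1 : x = e ++ s := congrArg Prod.fst h
          have h2 : none = o := congrArg Prod.snd h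
          subst h1
          exact hlf h2.symm
        · exact hE'.P (hleaf _ h)
      have hgs' : ∀ x lam', (x, some lam') ∈ (e ++ s, o) :: u.P → ∃ μ' Γ', GS k t' x μ' lam' Γ' ∧
          ∀ G ∈ Γ, Rel S t.B G.1.kap G.2 x → G.1 ∈ Γ'.map Prod.fst := by
        intro x lam' hx
        rcases List.mem_cons.1 hx with h | h
        · have h1 : x = e ++ s := congrArg Prod.fst h
          have h2 : some lam' = o := congrArg Prod.snd h
          subst h1
          obtain ⟨μ', Γ', hG', hmap⟩ := hsm lam' h2.symm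
          refine ⟨μ', Γ', hG', ?_⟩
          rintro G hGm ⟨s0, hs0, hs0b, hs0c⟩
          -- `G.2` is an initial segment of `e`
          have hpre : ∃ s1, e = G.2 ++ s1 ∧ s0 = s1 ++ s := by
            rcases List.append_eq_append_iff.1 hs0 with ⟨a', ha1, ha2⟩ | ⟨c', hc1, hc2⟩
            · -- G.2 = e ++ a', s = a' ++ s0
              cases a' with
              | nil =>
                refine ⟨[], ?_, ?_⟩
                · simpa using ha1.symm
                · simpa using ha2.symm
              | cons a as =>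
                exfalso
                have h3 : a ∈ G.2 := by rw [ha1]; simp
                have h4 : a ∈ s := by rw [ha2]; simp
                have h5 := hΓb G hGm a h3
                have h6 := hsu a h4
                have h7 := hEc.B
                omega
            · exact ⟨c', hc1, hc2⟩
          obtain ⟨s1, he1, hs1⟩ := hpre
          rw [hs1, cl_append] at hs0c
          rw [hmap, List.mem_filter]
          refine ⟨hGΓ G hGm ⟨s1, he1, ?_, hs0c.max.1⟩, ?_⟩
          · intro n hn
            exact hs0b n (by rw [hs1]; exact List.mem_append_left _ hn)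
          · rw [decide_eq_true_iff, ← hcl]
            exact hs0c.max.2.keep
        · obtain ⟨μ', Γ', hG', hm⟩ := hgs x lam' h
          exact ⟨μ', Γ', hG'.ext hWc hW' hE', hm⟩
      have hnd' : ∀ x ∈ nds ((e ++ s, o) :: u.P), x ∈ nds t'.P := by
        intro x hx
        obtain ⟨⟨y, o'⟩, hy, hxy⟩ := List.mem_map.1 hx
        have hxy' : y = x := hxy
        subst hxy'
        cases o' with
        | none => exact List.mem_map.2 ⟨_, hleaf' _ hy, rfl⟩
        | some lam' =>
          obtain ⟨μ', Γ', hG', -⟩ := hgs' _ _ hy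
          exact List.mem_map.2 ⟨_, hG'.mem, rfl⟩
      refine ⟨s, o, t'.F ∪ X, ⟨hs, hsi, ?_, hval, hcl⟩, hb, ?_, ?_, ?_⟩
      · intro n hn
        exact ⟨lt_of_le_of_lt (le_max_left _ _) (hsN n hn).1, hsu n hn⟩
      · rw [huF]
        exact Set.union_subset_union_left _ hE'.F
      · rw [← hB']
        refine Rm_mono ⟨?_, ?_⟩ Set.subset_union_left hR'
        · intro x a' hx
          obtain ⟨μ', Γ', hG', -⟩ := hgs' x a' hx
          exact ⟨μ', hG'.mem, hG'.lam_le⟩
        · exact hleaf'
      · refine ⟨t', hV', hW', hEc.trans hE', hB'.symm, rfl, hleaf', hgs', ?_⟩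
        intro π hπ hτB hm1 hm2
        have hτB' : τ π ≤ lastN (e ++ s) := hτB
        have hm : ∀ sd, tr (side sd π) (lastN (e ++ s)) ∈ nds ((e ++ s, o) :: u.P) := by
          intro sd
          cases sd with
          | true => exact hm1
          | false => exact hm2
        have hsrt : ∀ sd, (side sd π).Pairwise (· < ·) := by
          intro sd
          cases sd with
          | true => exact (hX1 π hπ).1
          | false => exact (hX1 π hπ).2.1
        have hlast : lastN (e ++ s) ∈ s := lastN_mem hs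
        have huB' : u.B < lastN (e ++ s) := hsu _ hlast
        -- a node of the new state which contains a new number
        have hnew : ∀ x ∈ nds ((e ++ s, o) :: u.P), (∃ n ∈ x, u.B < n) → x = e ++ s := by
          rintro x hx ⟨n, hn, hn2⟩
          rcases List.mem_cons.1 hx with h | h
          · exact h
          · exact absurd (hbd x h n hn) (not_le.2 hn2)
        rcases le_or_gt (τ π) u.B with hle | hgt
        · -- the old invariant
          have hold : ∀ sd, tr (side sd π) u.B ∈ nds u.P := by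
            intro sd
            have h1 : tr (tr (side sd π) (lastN (e ++ s))) u.B = tr (side sd π) u.B :=
              tr_tr _ huB'.le
            rcases List.mem_cons.1 (hm sd) with h | h
            · have h' : tr (side sd π) (lastN (e ++ s)) = e ++ s := h
              rw [h', tr_append (hbd e heu) hsu] at h1
              rw [← h1]
              exact heu
            · rw [tr_self (hbd _ h)] at h1
              rw [← h1]
              exact h
          exact hE'.F (hinv π hπ hle (hold true) (hold false))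
        · -- a new stop
          by_contra hπF
          obtain ⟨-, sd, hsd, hbe⟩ := hτ π hπ
          have ht1 : τ π ∈ tr (side sd π) (lastN (e ++ s)) := (mem_tr (hsrt sd)).2 ⟨hsd, hτB'⟩
          have ht2 : tr (side sd π) (lastN (e ++ s)) = e ++ s := hnew _ (hm sd) ⟨_, ht1, hgt⟩
          have hlast' : lastN (e ++ s) ∈ side sd π := by
            have : lastN (e ++ s) ∈ tr (side sd π) (lastN (e ++ s)) := by
              rw [ht2]; exact List.mem_append_right _ hlast
            exact ((mem_tr (hsrt sd)).1 this).1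
          have heq : τ π = lastN (e ++ s) := by
            by_contra hne
            have hlt : τ π < lastN (e ++ s) := lt_of_le_of_ne hτB' hne
            rcases hbe with hb | ⟨m, hm3, hm4, hm5⟩
            · exact absurd (hb _ hlast') (not_le.2 hlt)
            · have hm6 := hm5 _ hlast' hlt
              have hm7 : m ∈ tr (side (!sd) π) (lastN (e ++ s)) :=
                (mem_tr (hsrt _)).2 ⟨hm3, hm6.le⟩
              have hm8 : tr (side (!sd) π) (lastN (e ++ s)) = e ++ s :=
                hnew _ (hm _) ⟨m, hm7, hgt.trans hm4⟩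
              have hm9 : m ∈ side sd π := by
                rw [hm8, ← ht2] at hm7
                exact ((mem_tr (hsrt sd)).1 hm7).1
              have hmB : t.B < m := by
                have h7 := hEc.B
                omega
              cases sd with
              | true => exact (hX1 π hπ).2.2 m hm9 hmB hm3
              | false => exact (hX1 π hπ).2.2 m hm3 hmB hm9
          have hτ' : τ π = t'.B := heq.trans hB'.symm
          have hn1 : tr π.1 t'.B ∈ nds ((e ++ s, o) :: u.P) := by rw [hB']; exact hm1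
          have hn2 : tr π.2 t'.B ∈ nds ((e ++ s, o) :: u.P) := by rw [hB']; exact hm2
          obtain ⟨G, hGm, c, hc, hclc, hrel, hsub⟩ := hcon t' (hEc.trans hE') hW' hV' hR' π hπ hπF
            hτ' (hnd' _ hn1) (hnd' _ hn2)
          have hcn : c ∈ nds ((e ++ s, o) :: u.P) := by
            rcases hc with h | h
            · rw [h]; exact hn1
            · rw [h]; exact hn2
          obtain ⟨⟨y, o'⟩, hy, hxy⟩ := List.mem_map.1 hcn
          have hxy' : y = c := hxy
          subst hxy'
          cases o' with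
          | none =>
            have := hW'.lf y (hleaf' _ hy)
            rw [this] at hclc
            exact absurd hclc (lt_irrefl _)
          | some lam' =>
            obtain ⟨μ', Γ', hG', hmem⟩ := hgs' _ _ hy
            obtain ⟨⟨L, θ⟩, hL1, hL2⟩ := List.mem_map.1 (hmem G hGm hrel)
            have hL3 : L = G.1 := hL2
            subst hL3
            exact nk_not_sub hV' hG'.mem (hG'.le _ hL1) (hG'.nk _ hL1) hsub
  · -- the start
    refine ⟨t, hV, hW, Ext.refl t, rfl, rfl, fun e he => he, ?_, ?_⟩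
    · intro e a he
      have he' : (e, some a) ∈ t.P := he
      refine ⟨a, _, GS.start hW he' (hL e a he')
        ((Γ.filter fun G => decide (G.2 = e)).map Prod.fst) ?_, ?_⟩
      · intro L hLm
        obtain ⟨G, hG1, hG2⟩ := List.mem_map.1 hLm
        obtain ⟨hG3, hG4⟩ := List.mem_filter.1 hG1
        have hG5 : G.2 = e := of_decide_eq_true hG4
        have := (hΓ G hG3).2
        rw [hG5, hG2] at this
        exact this
      · rintro G hGm ⟨s0, hs0, hs0b, -⟩
        have hs00 : s0 = [] := by
          cases s0 with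
          | nil => rfl
          | cons a0 as =>
            exfalso
            have h1 : a0 ∈ e := by rw [hs0]; simp
            have h2 := hW.bd _ he' a0 h1
            have h3 := hs0b a0 (by simp)
            omega
        rw [hs00, List.append_nil] at hs0
        rw [List.map_map]
        refine List.mem_map.2 ⟨G.1, ?_, rfl⟩
        refine List.mem_map.2 ⟨G, List.mem_filter.2 ⟨hGm, ?_⟩, rfl⟩
        exact decide_eq_true hs0.symm
    · intro π hπ hle
      exact absurd hle (not_le.2 (hτ π hπ).1)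

end MPb6M
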