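import Pool.Agent.Lib.MP_b6d339_lc.Mix.Defs
import Pool.Agent.Lib.MP_b6d339_lc.Mix.A1
import Pool.Agent.Lib.MP_b6d339_lc.Mix.A2
import Pool.Agent.Lib.MP_b6d339_lc.Mix.A3
import Pool.Agent.Lib.MP_b6d339_lc.Mix.A4
import Pool.Agent.Lib.MP_b6d339_lc.Mix.A4m
import Pool.Agent.Lib.MP_b6d339_lc.Mix.A5a
import Pool.Agent.Lib.MP_b6d339_lc.Mix.A5
import Pool.Agent.Lib.MP_b6d339_lc.Mix.A5p
import Pool.Agent.Lib.MP_b6d339_lc.Mix.A6a
import Pool.Agent.Lib.MP_b6d339_lc.Mix.A6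

open Ordinal

namespace MPb6M

/-! # A8: the common event -/
variable {S : Sys}

/-- The event of a line at the new node `c'` (time `B'`): `kap = 1`: cut at `c'`; `kap ≥ 2`
(infinite class): the next cut lies in the `(kap-1)`-container of `c'` but in no smaller one.
Abstractly: a set of pairs with the following properties. -/
structure Evt (L : Line S) where
  Ev : Nd → ℕ → Set Pr
  one : L.kap = ci 1 → ∀ c B s B' π, π ∈ L.Fo c B → s ≠ [] → (∀ n ∈ s, B < n) →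
    S.cl s = ci 1 → π ∈ L.Thr (c ++ s) B' → B' = lastN (c ++ s) →
    π ∈ Ev (c ++ s) B' ∨ π ∈ L.Fo (c ++ s) B'
  big : ∀ K, 2 ≤ K → L.kap = ci K → ∀ c B s s' B' B'' π, π ∈ L.Fo c B → s ≠ [] →
    (∀ n ∈ s, B < n) → S.cl s = ci K → s' ≠ [] → S.cl s' = ci (K - 1) → B' = lastN (c ++ s) →
    (∀ n ∈ s', B' < n) → π ∈ L.Thr (c ++ s ++ s') B'' → B'' = lastN (c ++ s ++ s') →
    π ∈ Ev (c ++ s) B' ∨ π ∈ L.Fo (c ++ s ++ s') B''

/-! ## private helpers of A8 -/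

/-- two lines with thresholds at one token -/
structure A8S (k : ℕ) (t : St) (c : Nd) (μ θ θ' : Need) (L L' : Line S) : Prop where
  mem : (c, some μ) ∈ t.P
  ct : ∀ j, 1 ≤ j → j ≤ S.d →
    sm (θ.o j) (θ'.o j) ≤ μ.o j ∨ (Lim (μ.o j) ∧ θ.o j ≤ μ.o j ∧ θ'.o j ≤ μ.o j)
  cf1 : ∀ f, S.d < f → f ≤ S.m → θ.l f ⊆ μ.l f
  cf2 : ∀ f, S.d < f → f ≤ S.m → θ'.l f ⊆ μ.l f
  nk1 : nk S (k + 1) t c (some θ) (L.Fo c t.B)
  nk2 : nk S (k + 1) t c (some θ') (L'.Fo c t.B)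

theorem A8S.swap {k : ℕ} {t : St} {c : Nd} {μ θ θ' : Need} {L L' : Line S}
    (h : A8S k t c μ θ θ' L L') : A8S k t c μ θ' θ L' L := by
  refine ⟨h.mem, fun j h1 h2 => ?_, h.cf2, h.cf1, h.nk2, h.nk1⟩
  rcases h.ct j h1 h2 with h3 | ⟨h3, h4, h5⟩
  · left; rwa [sm_comm]
  · right; exact ⟨h3, h5, h4⟩

theorem A8S.of_GS {k : ℕ} {t : St} {c : Nd} {μ lam θ θ' : Need} {L L' : Line S}
    (h : GS k t c μ lam [(L, θ), (L', θ')]) : A8S k t c μ θ θ' L L' := by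
  refine ⟨h.mem, fun j h1 h2 => ?_, fun f hf hf' => h.cfg f hf hf' (L, θ) (by simp),
    fun f hf hf' => h.cfg f hf hf' (L', θ') (by simp), ?_, ?_⟩
  · rcases h.ct j h1 h2 with ⟨h3, -⟩ | ⟨h3, -, h4⟩
    · left
      simpa [Th, sm_zero_right] using h3
    · right
      exact ⟨h3, h4 (L, θ) (by simp), h4 (L', θ') (by simp)⟩
  · exact h.nk (L, θ) (by simp)
  · exact h.nk (L', θ') (by simp)

theorem A8S.le1 {k : ℕ} {t : St} {c : Nd} {μ θ θ' : Need} {L L' : Line S}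
    (h : A8S k t c μ θ θ' L L') : S.NLe θ μ := by
  refine ⟨fun j h1 h2 => ?_, h.cf1⟩
  rcases h.ct j h1 h2 with h3 | ⟨-, h4, -⟩
  · exact (le_sm_left _ _).trans h3
  · exact h4

/-- the new coordinate of the failing class -/
theorem A8_need {a b x y m : Ordinal.{0}} (h : sm x y ≤ m ∨ (Lim m ∧ x ≤ m ∧ y ≤ m))
    (ha : a < x) (hb : b ≤ y) (hb' : b = 0 ∨ ∃ c, b = c + 1 ∧ c < y) : sm a b < m := by
  rcases h with h | ⟨h, hx, hy⟩
  · exact ((sm_lt_left b ha).trans_le (sm_le le_rfl hb)).trans_le h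
  · refine h.sm (ha.trans_le hx) ?_
    rcases hb' with rfl | ⟨c, rfl, hc⟩
    · exact h.pos
    · exact h.succ (hc.trans_le hy)

/-- the request of the infinite class `g` with the need `a` -/
structure IsI (ρ : Rq) (g : ℕ) (a : Need) : Prop where
  g : ρ.g = ci g
  o : ρ.o = some a

theorem IsI.up_lt {ρ : Rq} {g j : ℕ} {a : Need} (h : IsI ρ g a) (hj : j < g) :
    (up ρ).o j = 0 := (up_low (by rw [h.g, co_ci]; exact hj)).1

theorem IsI.up_eq {ρ : Rq} {g : ℕ} {a : Need} (h : IsI ρ g a) : (up ρ).o g = a.o g + 1 := by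
  rw [up_some h.o]
  show (if co ρ.g < g then a.o g else if g = co ρ.g then a.o g + 1 else 0) = _
  rw [h.g, co_ci, if_neg (lt_irrefl _), if_pos rfl]

theorem IsI.req {ρ : Rq} {g : ℕ} {a θ : Need} (h : IsI ρ g a) (hm : S.RqI θ g a) : S.Req θ ρ :=
  Or.inl ⟨g, a, h.g, h.o, hm⟩

theorem IsI.adm {ρ : Rq} {g : ℕ} {a : Need} (h : IsI ρ g a) (hg : g ≤ S.d) :
    S.Adm ρ (some a) := by
  refine Or.inr ⟨a, a, h.o, rfl, rfl, fun f hf _ => ?_⟩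
  rw [if_neg (by rw [h.g, co_ci]; omega)]

theorem NLt.of_rqI {θ a : Need} {g : ℕ} (hm : S.RqI θ g a) : NLt S a θ :=
  NLt.of_adm (ρ := ⟨ci g, some a, fun _ => 0⟩) (Or.inl ⟨g, a, rfl, rfl, hm⟩)
    (IsI.adm ⟨rfl, rfl⟩ hm.2.1)

/-- one request -/
theorem A8_req {k : ℕ} {t : St} (hW : WFl S t.P t.B) (hV : V S (k + 1) t) {c : Nd} {μ μ1 : Need}
    (hc : (c, some μ) ∈ t.P) {g : ℕ} (hm : S.RqI μ g μ1) (N : ℕ) :
    ∃ (t' : St) (s : List ℕ) (μ1' : Need), Ext t t' ∧ WFl S t'.P t'.B ∧ V S (k + 1) t' ∧ s ≠ [] ∧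
      (∀ n ∈ s, N < n) ∧ S.cl s = ci g ∧ (c ++ s, some μ1') ∈ t'.P ∧ μ1'.o = μ1.o ∧
      (∀ f, S.d < f → f ≤ S.m → μ1'.l f = μ1.l f) ∧
      t'.B = lastN (c ++ s) ∧ Rm S (V S k) t'.P t'.B t'.F := by
  have hr : S.Req μ ⟨ci g, some μ1, fun _ => 0⟩ := Or.inl ⟨g, μ1, rfl, rfl, hm⟩
  obtain ⟨s, b, F', hA, hb, hF, hR, hV'⟩ := V_step hV hc hr N
  have hW' := WF_cons (F := t.F) hW hc hr hA hb
  rcases hb with ⟨h1, -⟩ | ⟨a', b', h1, rfl, h3, h4⟩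
  · exact absurd h1 (by simp)
  have h5 : μ1 = a' := Option.some.inj h1
  subst h5
  refine ⟨⟨(c ++ s, some b') :: t.P, lastN (c ++ s), F'⟩, s, b', Ext.step hA hF, hW', hV', hA.ne,
    fun n hn => (hA.big n hn).1, hA.cl, by simp, h3, fun f hf hf' => ?_, rfl, hR⟩
  have := h4 f hf hf'
  rw [if_neg (by have := hm.2.1; show ¬ f < co (ci g); rw [co_ci]; omega)] at this
  exact this

theorem A8_mem_nds {P : List Tok} {c : Nd} {o : Option Need} (h : (c, o) ∈ P) : c ∈ nds P :=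
  List.mem_map.2 ⟨_, h, rfl⟩

/-- the failing request in a state where the event is forbidden -/
theorem A8_act {k : ℕ} {L : Line S} {c : Nd} {B0 : ℕ} {t1 : St} {ρ : Rq}
    {N : ℕ} (h : Act S k L c B0 t1 ρ N) {t' : St} (he : Ext t1 t')
    (hW : WFl S t'.P t'.B) {s : List ℕ} (hs : s ≠ []) (hN : ∀ n ∈ s, N < n) (hcl : S.cl s = ρ.g)
    (hc : c ++ s ∈ nds t'.P) (hB' : t'.B = lastN (c ++ s)) (hR : Rm S (V S k) t'.P t'.B t'.F)
    (hsub : L.Fo c B0 ∩ L.Thr (c ++ s) t'.B ⊆ t'.F ∪ L.Fo (c ++ s) t'.B) {b : Option Need}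
    (hb : S.Adm ρ b) : nk S (k + 1) t' (c ++ s) b (L.Fo (c ++ s) t'.B) := by
  intro hV
  refine h t' he hW s hs hN hcl hc hB' hR b hb ?_
  refine V_mono hV (Less.refl _) ?_
  exact Set.union_subset Set.subset_union_left hsub

/-- The situation after activation of both lines. -/
structure A8A (k : ℕ) (t : St) (c : Nd) (μ θ θ' : Need) (L L' : Line S) (ρ ρ' : Rq) (g g' : ℕ)
    (a a' : Need) (B0 B0' N : ℕ) : Prop where
  st : A8S k t c μ θ θ' L L'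
  wf : WFl S t.P t.B
  v : V S (k + 1) t
  act1 : Act S k L c B0 t ρ N
  act2 : Act S k L' c B0' t ρ' N
  i1 : IsI ρ g a
  i2 : IsI ρ' g' a'
  mv1 : S.RqI θ g a
  mv2 : S.RqI θ' g' a'
  b1 : B0 ≤ N
  b2 : B0' ≤ N
  b3 : t.B ≤ N

theorem A8A.swap {k : ℕ} {t : St} {c : Nd} {μ θ θ' : Need} {L L' : Line S} {ρ ρ' : Rq}
    {g g' : ℕ} {a a' : Need} {B0 B0' N : ℕ}
    (h : A8A k t c μ θ θ' L L' ρ ρ' g g' a a' B0 B0' N) :
    A8A k t c μ θ' θ L' L ρ' ρ g' g a' a B0' B0 N :=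
  ⟨h.st.swap, h.wf, h.v, h.act2, h.act1, h.i2, h.i1, h.mv2, h.mv1, h.b2, h.b1, h.b3⟩

/-- the result of a step -/
def A8R (k : ℕ) (t : St) (c : Nd) (L L' : Line S) (N : ℕ) (K : Cl) (θ θ' : Need) : Prop :=
  ∃ (t' : St) (s : List ℕ) (μ1 θ2 θ2' : Need), Ext t t' ∧ WFl S t'.P t'.B ∧ V S (k + 1) t' ∧
    (∀ n ∈ s, N < n) ∧ S.cl s ≤ K ∧ A8S k t' (c ++ s) μ1 θ2 θ2' L L' ∧
    (NLt S θ2 θ ∧ S.NLe θ2' θ' ∨ S.NLe θ2 θ ∧ NLt S θ2' θ')

theorem A8R.swap {k : ℕ} {t : St} {c : Nd} {L L' : Line S} {N : ℕ} {K : Cl} {θ θ' : Need}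
    (h : A8R k t c L L' N K θ θ') : A8R k t c L' L N K θ' θ := by
  obtain ⟨t', s, μ1, θ2, θ2', h1, h2, h3, h4, h5, h6, h7⟩ := h
  refine ⟨t', s, μ1, θ2', θ2, h1, h2, h3, h4, h5, h6.swap, ?_⟩
  rcases h7 with ⟨h7, h8⟩ | ⟨h7, h8⟩
  · exact Or.inr ⟨h8, h7⟩
  · exact Or.inl ⟨h8, h7⟩

theorem A8A.up1 {k : ℕ} {t : St} {c : Nd} {μ θ θ' : Need} {L L' : Line S} {ρ ρ' : Rq}
    {g g' : ℕ} {a a' : Need} {B0 B0' N : ℕ}
    (h : A8A k t c μ θ θ' L L' ρ ρ' g g' a a' B0 B0' N) : S.NLe (up ρ') θ' :=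
  up_le (h.i2.req h.mv2)

/-- upper coordinates -/
theorem A8A.hi {k : ℕ} {t : St} {c : Nd} {μ θ θ' : Need} {L L' : Line S} {ρ ρ' : Rq}
    {g g' : ℕ} {a a' : Need} {B0 B0' N : ℕ}
    (h : A8A k t c μ θ θ' L L' ρ ρ' g g' a a' B0 B0' N) {j : ℕ}
    (h1 : 1 ≤ j) (h2 : j ≤ S.d) (hj : g < j) :
    sm (a.o j) ((up ρ').o j) ≤ μ.o j ∨
      (Lim (μ.o j) ∧ a.o j ≤ μ.o j ∧ (up ρ').o j ≤ μ.o j) := by
  have ha : a.o j ≤ θ.o j := h.mv1.2.2.2.1 j hj h2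
  have hu : (up ρ').o j ≤ θ'.o j := h.up1.1 j h1 h2
  rcases h.st.ct j h1 h2 with h3 | ⟨h3, h4, h5⟩
  · exact Or.inl ((sm_le ha hu).trans h3)
  · exact Or.inr ⟨h3, ha.trans h4, hu.trans h5⟩

/-- the coordinate `g` -/
theorem A8A.mid {k : ℕ} {t : St} {c : Nd} {μ θ θ' : Need} {L L' : Line S} {ρ ρ' : Rq}
    {g g' : ℕ} {a a' : Need} {B0 B0' N : ℕ}
    (h : A8A k t c μ θ θ' L L' ρ ρ' g g' a a' B0 B0' N) (hg : g ≤ g') :
    sm (a.o g) ((up ρ').o g) < μ.o g := by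
  have h1 := h.mv1.1
  have h2 := h.mv1.2.1
  refine A8_need (h.st.ct g h1 h2) h.mv1.2.2.1 (h.up1.1 g h1 h2) ?_
  rcases hg.lt_or_eq with hg | rfl
  · exact Or.inl (h.i2.up_lt hg)
  · exact Or.inr ⟨a'.o g, h.i2.up_eq, h.mv2.2.2.1⟩

/-- the level sets -/
theorem A8A.lv1 {k : ℕ} {t : St} {c : Nd} {μ θ θ' : Need} {L L' : Line S} {ρ ρ' : Rq}
    {g g' : ℕ} {a a' : Need} {B0 B0' N : ℕ}
    (h : A8A k t c μ θ θ' L L' ρ ρ' g g' a a' B0 B0' N) (f : ℕ) (h1 : S.d < f) (h2 : f ≤ S.m) :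
    a.l f ⊆ μ.l f := (h.mv1.2.2.2.2.2 f h1 h2).trans (h.st.cf1 f h1 h2)

theorem A8A.lv2 {k : ℕ} {t : St} {c : Nd} {μ θ θ' : Need} {L L' : Line S} {ρ ρ' : Rq}
    {g g' : ℕ} {a a' : Need} {B0 B0' N : ℕ}
    (h : A8A k t c μ θ θ' L L' ρ ρ' g g' a a' B0 B0' N) (f : ℕ) (h1 : S.d < f) (h2 : f ≤ S.m) :
    (up ρ').l f ⊆ μ.l f := (h.up1.2 f h1 h2).trans (h.st.cf2 f h1 h2)

/-- a low failing class -/
theorem A8_low {k : ℕ} {t : St} {c : Nd} {μ θ θ' : Need} {L L' : Line S} {ρ ρ' : Rq}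
    {g g' : ℕ} {a a' : Need} {B0 B0' N : ℕ}
    (h : A8A k t c μ θ θ' L L' ρ ρ' g g' a a' B0 B0' N)
    (hgk : ci g < L.kap) (hg : g ≤ g') : A8R k t c L L' N L.kap θ θ' := by
  have hg1 := h.mv1.1
  have hgD := h.mv1.2.1
  -- the need
  let μ1 : Need := ⟨fun j => if g < j then μ.o j else
    if j = g then sm (a.o g) ((up ρ').o g) else a.o j, μ.l⟩
  have e1 : ∀ j, g < j → μ1.o j = μ.o j := fun j hj => by simp only [μ1]; rw [if_pos hj]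
  have e2 : μ1.o g = sm (a.o g) ((up ρ').o g) := by
    simp only [μ1]; rw [if_neg (by omega), if_true]
  have e3 : ∀ j, j < g → μ1.o j = a.o j := fun j hj => by
    simp only [μ1]; rw [if_neg (by omega), if_neg (by omega)]
  have hm : S.RqI μ g μ1 := by
    refine ⟨hg1, hgD, ?_, fun j hj _ => (e1 j hj).le, fun j hj1 hj2 => ?_, fun _ _ _ => subset_rfl⟩
    · rw [e2]; exact h.mid hg
    · rw [e3 j hj2]; exact h.mv1.2.2.2.2.1 j hj1 hj2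
  obtain ⟨t', s, μ1', hE, hW', hV', hs, hN, hcl, hc', ho, hl, hB', hR⟩ :=
    A8_req h.wf h.v h.st.mem hm N
  refine ⟨t', s, μ1', a, up ρ', hE, hW', hV', hN, by rw [hcl]; exact hgk.le,
    ⟨hc', ?_, ?_, ?_, ?_, ?_⟩, Or.inl ⟨NLt.of_rqI h.mv1, h.up1⟩⟩
  · intro j h1 h2
    rw [ho]
    rcases lt_trichotomy g j with hj | rfl | hj
    · rw [e1 j hj]; exact h.hi h1 h2 hj
    · left; exact e2.ge
    · left
      rw [e3 j hj, h.i2.up_lt (by omega), sm_zero_right]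
  · intro f h1 h2
    rw [hl f h1 h2]
    exact h.lv1 f h1 h2
  · intro f h1 h2
    rw [hl f h1 h2]
    exact h.lv2 f h1 h2
  · exact h.act1.P1 (by rw [h.i1.g]; exact hgk) h.b1 hE hW' hs hN (hcl.trans h.i1.g.symm)
      (A8_mem_nds hc') hB' hR (h.i1.adm hgD)
  · exact h.act2.P2 h.wf h.b2 h.b3 hE hW' hs hN (by rw [hcl, h.i2.g]; exact ci_le.2 hg) hc'
      (up_req (h.i2.req h.mv2))

/-- class `1`, the event of `L` is forbidden -/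
theorem A8_one {k : ℕ} {t : St} {c : Nd} {μ θ θ' : Need} {L L' : Line S} {ρ ρ' : Rq} {g : ℕ}
    {a a' : Need} {B0 B0' N : ℕ} (h : A8A k t c μ θ θ' L L' ρ ρ' g g a a' B0 B0' N) (hg : g = 1)
    (hk : L.kap = ci 1) (E : Evt L) {t' : St} {s : List ℕ} (hE : Ext t t')
    (hW' : WFl S t'.P t'.B)
    (hV' : V S (k + 1) t') (hs : s ≠ []) (hN : ∀ n ∈ s, N < n) (hcl : S.cl s = ci g) {μ1 : Need}
    (hc' : (c ++ s, some μ1) ∈ t'.P) (hB' : t'.B = lastN (c ++ s))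
    (hR : Rm S (V S k) t'.P t'.B t'.F) (hμ1 : ∀ j, g < j → μ1.o j = μ.o j)
    (hμ2 : sm (a.o g) ((up ρ').o g) ≤ μ1.o g)
    (hμ4 : ∀ f, S.d < f → f ≤ S.m → μ1.l f = μ.l f)
    (hev : L.Fo c B0 ∩ E.Ev (c ++ s) t'.B ⊆ t'.F) : A8R k t c L L' N L.kap θ θ' := by
  subst hg
  refine ⟨t', s, μ1, a, up ρ', hE, hW', hV', hN, by rw [hcl, hk], ⟨hc', ?_, ?_, ?_, ?_, ?_⟩,
    Or.inl ⟨NLt.of_rqI h.mv1, h.up1⟩⟩
  · intro j h1 h2
    rcases h1.lt_or_eq with hj | rfl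
    · rw [hμ1 j hj]; exact h.hi h1 h2 hj
    · left; exact hμ2
  · intro f h1 h2
    rw [hμ4 f h1 h2]
    exact h.lv1 f h1 h2
  · intro f h1 h2
    rw [hμ4 f h1 h2]
    exact h.lv2 f h1 h2
  · refine A8_act h.act1 hE hW' hs hN (hcl.trans h.i1.g.symm) (A8_mem_nds hc') hB' hR ?_
      (h.i1.adm h.mv1.2.1)
    rintro π ⟨hπ, hπ2⟩
    rcases E.one hk c B0 s t'.B π hπ hs (fun n hn => h.b1.trans_lt (hN n hn)) hcl hπ2 hB' with
      h1 | h1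
    · exact Or.inl (hev ⟨hπ, h1⟩)
    · exact Or.inr h1
  · exact h.act2.P2 h.wf h.b2 h.b3 hE hW' hs hN (by rw [hcl, h.i2.g]) hc'
      (up_req (h.i2.req h.mv2))

/-- class `≥ 2`, the event of `L` is forbidden -/
theorem A8_big {k : ℕ} {t : St} {c : Nd} {μ θ θ' : Need} {L L' : Line S} {ρ ρ' : Rq} {g : ℕ}
    {a a' : Need} {B0 B0' N : ℕ} (h : A8A k t c μ θ θ' L L' ρ ρ' g g a a' B0 B0' N) (hg : 2 ≤ g)
    (hk : L.kap = ci g) (E : Evt L) {t' : St} {s : List ℕ} (hE : Ext t t')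
    (hW' : WFl S t'.P t'.B)
    (hV' : V S (k + 1) t') (hs : s ≠ []) (hN : ∀ n ∈ s, N < n) (hcl : S.cl s = ci g) {μ1 : Need}
    (hc' : (c ++ s, some μ1) ∈ t'.P) (hB' : t'.B = lastN (c ++ s))
    (hμ1 : ∀ j, g < j → μ1.o j = μ.o j)
    (hμ2 : sm (a.o g) ((up ρ').o g) ≤ μ1.o g) (hμ3 : a.o (g - 1) < μ1.o (g - 1))
    (hμ4 : ∀ f, S.d < f → f ≤ S.m → μ1.l f = μ.l f)
    (hev : L.Fo c B0 ∩ E.Ev (c ++ s) t'.B ⊆ t'.F) : A8R k t c L L' N L.kap θ θ' := by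
  have hgD := h.mv1.2.1
  let μ2 : Need := ⟨fun j => if g ≤ j then μ1.o j else a.o j, μ1.l⟩
  have e1 : ∀ j, g ≤ j → μ2.o j = μ1.o j := fun j hj => by simp only [μ2]; rw [if_pos hj]
  have e2 : ∀ j, j < g → μ2.o j = a.o j := fun j hj => by simp only [μ2]; rw [if_neg (by omega)]
  have hm : S.RqI μ1 (g - 1) μ2 := by
    refine ⟨by omega, by omega, ?_, fun j hj _ => (e1 j (by omega)).le, fun j hj1 hj2 => ?_,
      fun _ _ _ => subset_rfl⟩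
    · rw [e2 _ (by omega)]; exact hμ3
    · rw [e2 j (by omega)]; exact h.mv1.2.2.2.2.1 j hj1 (by omega)
  obtain ⟨t2, s2, μ2', hE2, hW2, hV2, hs2, hN2, hcl2, hc2, ho, hl, hB2, hR2⟩ :=
    A8_req hW' hV' hc' hm (max N t'.B)
  rw [List.append_assoc] at hc2 hB2
  have hN3 : ∀ n ∈ s ++ s2, N < n := by
    intro n hn
    rcases List.mem_append.1 hn with hn | hn
    · exact hN n hn
    · exact (le_max_left _ _).trans_lt (hN2 n hn)
  have hcl3 : S.cl (s ++ s2) = ci g := by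
    rw [cl_append, hcl, hcl2]
    exact max_eq_left (ci_le.2 (by omega))
  have hs3 : s ++ s2 ≠ [] := by simp [hs]
  refine ⟨t2, s ++ s2, μ2', a, up ρ', hE.trans hE2, hW2, hV2, hN3, by rw [hcl3, hk],
    ⟨hc2, ?_, ?_, ?_, ?_, ?_⟩, Or.inl ⟨NLt.of_rqI h.mv1, h.up1⟩⟩
  · intro j h1 h2
    rw [ho]
    rcases lt_trichotomy g j with hj | rfl | hj
    · rw [e1 j hj.le, hμ1 j hj]; exact h.hi h1 h2 hj
    · left; rw [e1 _ le_rfl]; exact hμ2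
    · left
      rw [e2 j hj, h.i2.up_lt (by omega), sm_zero_right]
  · intro f h1 h2
    rw [hl f h1 h2]
    show a.l f ⊆ μ1.l f
    rw [hμ4 f h1 h2]
    exact h.lv1 f h1 h2
  · intro f h1 h2
    rw [hl f h1 h2]
    show (up ρ').l f ⊆ μ1.l f
    rw [hμ4 f h1 h2]
    exact h.lv2 f h1 h2
  · refine A8_act h.act1 (hE.trans hE2) hW2 hs3 hN3 (hcl3.trans h.i1.g.symm) (A8_mem_nds hc2) hB2
      hR2 ?_ (h.i1.adm hgD)
    rintro π ⟨hπ, hπ2⟩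
    rcases E.big g hg hk c B0 s s2 t'.B t2.B π hπ hs (fun n hn => h.b1.trans_lt (hN n hn))
      hcl hs2 hcl2 hB' (fun n hn => (le_max_right _ _).trans_lt (hN2 n hn))
      (by rwa [List.append_assoc]) (by rwa [List.append_assoc]) with h1 | h1
    · exact Or.inl (hE2.F (hev ⟨hπ, h1⟩))
    · exact Or.inr (by rwa [List.append_assoc] at h1)
  · exact h.act2.P2 h.wf h.b2 h.b3 (hE.trans hE2) hW2 hs3 hN3 (by rw [hcl3, h.i2.g]) hc2
      (up_req (h.i2.req h.mv2))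

/-- the top class -/
theorem A8_top {k : ℕ} {t : St} {c : Nd} {μ θ θ' : Need} {L L' : Line S} {ρ ρ' : Rq} {g : ℕ}
    {a a' : Need} {B0 B0' N : ℕ} (h : A8A k t c μ θ θ' L L' ρ ρ' g g a a' B0 B0' N)
    (hk : L.kap = ci g) (hk' : L'.kap = ci g) (E : Evt L) (E' : Evt L')
    (hNB : ∀ (t' : St) (s : List ℕ), Ext t t' → WFl S t'.P t'.B → V S (k + 1) t' → s ≠ [] →
      (∀ n ∈ s, N < n) → S.cl s = ci g → c ++ s ∈ nds t'.P → t'.B = lastN (c ++ s) →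
      Rm S (V S k) t'.P t'.B t'.F →
      L.Fo c B0 ∩ E.Ev (c ++ s) t'.B ⊆ t'.F ∨ L'.Fo c B0' ∩ E'.Ev (c ++ s) t'.B ⊆ t'.F) :
    A8R k t c L L' N L.kap θ θ' := by
  have hg1 := h.mv1.1
  have hgD := h.mv1.2.1
  let μ1 : Need := ⟨fun j => if g < j then μ.o j else
    if j = g then max (sm (a.o g) ((up ρ').o g)) (sm (a'.o g) ((up ρ).o g)) else
    if j + 1 = g then max (a.o j) (a'.o j) + 1 else 0, μ.l⟩
  have e1 : ∀ j, g < j → μ1.o j = μ.o j := fun j hj => by simp only [μ1]; rw [if_pos hj]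
  have e2 : μ1.o g = max (sm (a.o g) ((up ρ').o g)) (sm (a'.o g) ((up ρ).o g)) := by
    simp only [μ1]; rw [if_neg (by omega), if_true]
  have e3 : 2 ≤ g → μ1.o (g - 1) = max (a.o (g - 1)) (a'.o (g - 1)) + 1 := fun hj => by
    simp only [μ1]; rw [if_neg (by omega), if_neg (by omega), if_pos (by omega)]
  have hm : S.RqI μ g μ1 := by
    refine ⟨hg1, hgD, ?_, fun j hj _ => (e1 j hj).le, fun j hj1 hj2 => ?_, fun _ _ _ => subset_rfl⟩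
    · rw [e2]; exact max_lt (h.mid le_rfl) (h.swap.mid le_rfl)
    · simp only [μ1]
      rw [if_neg (by omega), if_neg (by omega)]
      have hL := S.hκ j hj1 (by omega)
      split_ifs
      · exact hL.succ (max_lt (h.mv1.2.2.2.2.1 j hj1 hj2) (h.mv2.2.2.2.2.1 j hj1 hj2))
      · exact hL.pos
  obtain ⟨t', s, μ1', hE, hW', hV', hs, hN, hcl, hc', ho, hl, hB', hR⟩ :=
    A8_req h.wf h.v h.st.mem hm N
  have hm1 : sm (a.o g) ((up ρ').o g) ≤ μ1'.o g := by rw [ho, e2]; exact le_max_left _ _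
  have hm2 : sm (a'.o g) ((up ρ).o g) ≤ μ1'.o g := by rw [ho, e2]; exact le_max_right _ _
  have e1' : ∀ j, g < j → μ1'.o j = μ.o j := fun j hj => by rw [ho]; exact e1 j hj
  rcases hNB t' s hE hW' hV' hs hN hcl (A8_mem_nds hc') hB' hR with hev | hev
  · rcases hg1.lt_or_eq with hg2 | hg2
    · refine A8_big h hg2 hk E hE hW' hV' hs hN hcl hc' hB' e1' hm1 ?_ hl hev
      rw [ho, e3 hg2]
      exact (le_max_left _ _).trans_lt (Order.lt_add_one_iff.2 le_rfl)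
    · exact A8_one h hg2.symm (by rw [hk, hg2]) E hE hW' hV' hs hN hcl hc' hB' hR e1' hm1 hl hev
  · rw [hk, ← hk']
    refine A8R.swap ?_
    rcases hg1.lt_or_eq with hg2 | hg2
    · refine A8_big h.swap hg2 hk' E' hE hW' hV' hs hN hcl hc' hB' e1' hm2 ?_ hl hev
      rw [ho, e3 hg2]
      exact (le_max_right _ _).trans_lt (Order.lt_add_one_iff.2 le_rfl)
    · exact A8_one h.swap hg2.symm (by rw [hk', hg2]) E' hE hW' hV' hs hN hcl hc' hB' hR e1' hm2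
        hl hev

/-- activation of both lines -/
theorem A8_both {k : ℕ} {t : St} (hW : WFl S t.P t.B) (hV : V S (k + 1) t) {c : Nd}
    {μ θ θ' : Need} {L L' : Line S} (h : A8S k t c μ θ θ' L L') {K : ℕ} (hKd : K ≤ S.d)
    (hk : L.kap = ci K) (hk' : L'.kap = ci K) :
    ∃ (t2 : St) (ρ ρ' : Rq) (g g' : ℕ) (a a' : Need) (B0 B0' N : ℕ), Ext t t2 ∧ t.B ≤ B0 ∧
      t.B ≤ B0' ∧ g ≤ K ∧ g' ≤ K ∧ A8A k t2 c μ θ θ' L L' ρ ρ' g g' a a' B0 B0' N := by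
  have hdm := S.hdm
  obtain ⟨t1, ρ, N1, hE1, hW1, hV1, hr1, hB1, hA1⟩ := act hW hV L h.mem h.nk1
  have hm1 : (c, some μ) ∈ t1.P := hE1.P h.mem
  have hn2 := nk_ext hW hW1 hE1 L' h.mem h.nk2
  obtain ⟨t2, ρ', N2, hE2, hW2, hV2, hr2, hB2, hA2⟩ := act hW1 hV1 L' hm1 hn2
  have hm2 : (c, some μ) ∈ t2.P := hE2.P hm1
  have hg : ρ.g ≤ ci K := hk ▸ hA1.le_kap hW1 hV1 hm1 h.le1 hr1 hE1.B
  have hg' : ρ'.g ≤ ci K := hk' ▸ hA2.le_kap hW2 hV2 hm2 h.swap.le1 hr2 hE2.B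
  have key : ∀ {ρ : Rq} {θ : Need}, S.Req θ ρ → ρ.g ≤ ci K →
      ∃ g a, IsI ρ g a ∧ S.RqI θ g a ∧ g ≤ K := by
    intro ρ θ hr hg
    have h1 := co_mono hg
    rw [co_ci] at h1
    rcases hr with ⟨j, a, hgj, ho, hm⟩ | ⟨f, i, a, hgj, ho, hm⟩ | hr
    · rw [hgj, co_ci] at h1
      exact ⟨j, a, ⟨hgj, ho⟩, hm, h1⟩
    · rw [hgj, co_cf] at h1
      have := hm.1
      omega
    · rw [hr.1, co_ci] at h1
      omega
  obtain ⟨g, a, i1, mv1, hgK⟩ := key hr1 hg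
  obtain ⟨g', a', i2, mv2, hgK'⟩ := key hr2 hg'
  refine ⟨t2, ρ, ρ', g, g', a, a', t.B, t1.B, max N1 N2, hE1.trans hE2, le_rfl, hE1.B, hgK, hgK',
    ⟨hm2, h.ct, h.cf1, h.cf2, ?_, ?_⟩, hW2, hV2, hA1.ext hE2 (le_max_left _ _),
    hA2.ext (Ext.refl _) (le_max_right _ _), i1, i2, mv1, mv2,
    (hE1.B.trans hB1).trans (le_max_left _ _), hB1.trans (le_max_left _ _),
    hB2.trans (le_max_right _ _)⟩
  · exact nk_ext hW hW2 (hE1.trans hE2) L h.mem h.nk1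
  · exact nk_ext hW hW2 (hE1.trans hE2) L' h.mem h.nk2

/-- the core for `A8S` -/
theorem A8_core {k : ℕ} {t : St} {e : Nd}
    (L L' : Line S) {K : ℕ} (hKd : K ≤ S.d) (hkK : L.kap = ci K) (hkK' : L'.kap = ci K)
    (E : Evt L) (E' : Evt L')
    (hNB : ∀ (t' : St) (s : List ℕ), Ext t t' → WFl S t'.P t'.B → V S (k + 1) t' → s ≠ [] →
      (∀ n ∈ s, t.B < n) → S.cl s = ci K → e ++ s ∈ nds t'.P → t'.B = lastN (e ++ s) →
      Rm S (V S k) t'.P t'.B t'.F →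
      L.Fo e t.B ∩ E.Ev (e ++ s) t'.B ⊆ t'.F ∨ L'.Fo e t.B ∩ E'.Ev (e ++ s) t'.B ⊆ t'.F)
    (hew : ∀ n ∈ e, n ≤ t.B) (hw : ∀ n ∈ L.w, n ≤ t.B) (hw' : ∀ n ∈ L'.w, n ≤ t.B)
    {t0 : St} (h0 : Ext t t0) (hW0 : WFl S t0.P t0.B) (hV0 : V S (k + 1) t0) {s0 : List ℕ}
    (hs0 : ∀ n ∈ s0, t.B < n) (hcl : S.cl s0 ≤ ci K) {μ θ θ' : Need}
    (hG : A8S k t0 (e ++ s0) μ θ θ' L L') : A8R k t0 (e ++ s0) L L' t.B (ci K) θ θ' := by
  obtain ⟨t2, ρ, ρ', g, g', a, a', B0, B0', N, hE, hb, hb', hg, hg', hA⟩ :=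
    A8_both hW0 hV0 hG hKd hkK hkK'
  have hNt : t.B ≤ N := (h0.B.trans hE.B).trans hA.b3
  suffices H : A8R k t2 (e ++ s0) L L' N (ci K) θ θ' by
    obtain ⟨t', s, μ1, θ2, θ2', h1, h2, h3, h4, h5, h6, h7⟩ := H
    exact ⟨t', s, μ1, θ2, θ2', hE.trans h1, h2, h3, fun n hn => hNt.trans_lt (h4 n hn), h5, h6, h7⟩
  by_cases c1 : g < K ∧ g ≤ g'
  · rw [← hkK]
    exact A8_low hA (by rw [hkK]; exact ci_lt.2 c1.1) c1.2
  by_cases c2 : g' < K ∧ g' ≤ g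
  · rw [← hkK']
    exact (A8_low hA.swap (by rw [hkK']; exact ci_lt.2 c2.1) c2.2).swap
  have hgk : g = K := by omega
  have hgg : g' = g := by omega
  subst hgg
  subst hgk
  rw [← hkK]
  refine A8_top hA hkK hkK' E E' ?_
  intro t' s hE' hW' hV' hs hN hcl' hc hB' hR
  have hcl2 : S.cl (s0 ++ s) = ci g' := by rw [cl_append, hcl']; exact max_eq_right hcl
  rw [List.append_assoc] at hc hB'
  have hup : ∀ (M : Line S) (B1 : ℕ), M.kap = ci g' → (∀ n ∈ M.w, n ≤ t.B) → t.B ≤ B1 →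
      M.Fo (e ++ s0) B1 ⊆ M.Fo e t.B := by
    intro M B1 hM hMw hB1 π hπ
    exact M.up e t.B s0 B1 π hπ hew hMw hs0 hB1 (by rw [hM]; exact hcl)
  have hB0 : t.B ≤ B0 := h0.B.trans hb
  have hB0' : t.B ≤ B0' := h0.B.trans hb'
  rcases hNB t' (s0 ++ s) ((h0.trans hE).trans hE') hW' hV' (by simp [hs])
    (by
      intro n hn
      rcases List.mem_append.1 hn with hn | hn
      · exact hs0 n hn
      · exact hNt.trans_lt (hN n hn)) hcl2 hc hB' hR with h1 | h1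
  · left
    rw [List.append_assoc]
    exact (Set.inter_subset_inter_left _ (hup L B0 hkK hw hB0)).trans h1
  · right
    rw [List.append_assoc]
    exact (Set.inter_subset_inter_left _ (hup L' B0' hkK' hw' hB0')).trans h1

/-- The core: both lines cannot have thresholds `θ`, `θ'` (in the sense of `GS`).
Strong induction on the ranks of `θ` and `θ'`. `act` for `L` and `L'`: one state
`t1`, `(g, some θ1)`, `(g', some θ1')` with `g, g' ≤ K` (`Act.le_kap`), where `L.kap = L'.kap = K`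
is an infinite class.
* `g < K` and `g ≤ g'` (the case `g' < K`, `g' ≤ g` is symmetric): request at `c` of class `g` with
need `μ j` (`j > g`), `sm (θ1 g) (up θ' g' _ g)` (`j = g`), `θ1 j` (`j < g`; `up θ' g' _ j = 0`);
`Act.P1` for `L`, `Act.P2` for `L'`; induction.
* `g = g' = K = 1`: request of class `1` at `c`, need at `1`:
`max (sm (θ1 1) (up θ' ..1)) (sm (up θ .. 1) (θ1' 1))`. At the answer `c1` (with room) `hNB` gives
e.g. `L.Fo e B0 ∩ E.Ev c1 _ ⊆ F`. By `E.one` and `L.up` all pairs of `L.Fo c B_L` through `c1` are in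
`F ∪ L.Fo c1 _`, so `Act` gives `nk .. c1 (some θ1) (L.Fo c1 _)`; `Act.P2` for `L'`; induction.
* `g = g' = K ≥ 2`: request of class `K` at `c` with need: `j > K`: `μ j`; `j = K`: the max as above;
`j = K - 1`: `max (θ1 j) (θ1' j) + 1`; `j < K - 1`: `0` (anything); answer `c1`. `hNB` at `c1`: e.g. the
event of `L` is forbidden. Request at `c1` of class `K - 1` with need `sm (θ1 j) (up θ' .. j)` for
`j ≤ K - 1` (`up .. = 0` there); answer `c2 = c ++ (s1 ++ s2)`, `S.cl (s1 ++ s2) = K`. `E.big`, `Act` for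
`L` at `c2`: `nk .. c2 (some θ1) (L.Fo c2 _)`; `Act.P2` for `L'` at `c2`; induction. -/
theorem common_aux {k : ℕ} {t : St} {e : Nd}
    (L L' : Line S) {K : ℕ} (hKd : K ≤ S.d) (hkK : L.kap = ci K) (hkK' : L'.kap = ci K)
    (E : Evt L) (E' : Evt L')
    (hNB : ∀ (t' : St) (s : List ℕ), Ext t t' → WFl S t'.P t'.B → V S (k + 1) t' → s ≠ [] →
      (∀ n ∈ s, t.B < n) → S.cl s = ci K → e ++ s ∈ nds t'.P → t'.B = lastN (e ++ s) →
      Rm S (V S k) t'.P t'.B t'.F →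
      L.Fo e t.B ∩ E.Ev (e ++ s) t'.B ⊆ t'.F ∨ L'.Fo e t.B ∩ E'.Ev (e ++ s) t'.B ⊆ t'.F)
    {t0 : St} (h0 : Ext t t0) (hW0 : WFl S t0.P t0.B) (hV0 : V S (k + 1) t0) {s0 : List ℕ}
    (hs0 : ∀ n ∈ s0, t.B < n) (hcl : S.cl s0 ≤ ci K) {μ lam θ θ' : Need}
    (hG : GS k t0 (e ++ s0) μ lam [(L, θ), (L', θ')]) (hew : ∀ n ∈ e, n ≤ t.B)
    (hw : ∀ n ∈ L.w, n ≤ t.B) (hw' : ∀ n ∈ L'.w, n ≤ t.B) : False := by
  obtain ⟨rk, hrk, hrk'⟩ := exists_rank S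
  have key : ∀ x : Ordinal.{1} × Ordinal.{1}, ∀ (t0 : St) (s0 : List ℕ) (μ θ θ' : Need),
      x = (rk θ, rk θ') → Ext t t0 → WFl S t0.P t0.B → V S (k + 1) t0 → (∀ n ∈ s0, t.B < n) →
      S.cl s0 ≤ ci K → A8S k t0 (e ++ s0) μ θ θ' L L' → False := by
    intro x
    induction x using WellFoundedLT.induction with
    | _ x ih =>
      rintro t0 s0 μ θ θ' rfl h0 hW0 hV0 hs0 hcl hG
      obtain ⟨t1, s1, μ1, θ2, θ2', h1, h2, h3, h4, h5, h6, h7⟩ :=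
        A8_core L L' hKd hkK hkK' E E' hNB hew hw hw' h0 hW0 hV0 hs0 hcl hG
      rw [List.append_assoc] at h6
      refine ih (rk θ2, rk θ2') ?_ t1 (s0 ++ s1) μ1 θ2 θ2' rfl (h0.trans h1) h2 h3 ?_ ?_ h6
      · rw [Prod.lt_iff]
        rcases h7 with ⟨h7, h8⟩ | ⟨h7, h8⟩
        · exact Or.inl ⟨hrk _ _ h7, hrk' _ _ h8⟩
        · exact Or.inr ⟨hrk' _ _ h7, hrk _ _ h8⟩
      · intro n hn
        rcases List.mem_append.1 hn with hn | hn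
        · exact hs0 n hn
        · exact h4 n hn
      · rw [cl_append]; exact max_le hcl h5
  exact key _ t0 s0 μ θ θ' rfl h0 hW0 hV0 hs0 hcl (A8S.of_GS hG)

end MPb6M
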