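import Pool.Agent.Lib.MP_b6d339_lc.Mix.Defs
import Pool.Agent.Lib.MP_b6d339_lc.Mix.A1
import Pool.Agent.Lib.MP_b6d339_lc.Mix.A2
import Pool.Agent.Lib.MP_b6d339_lc.Mix.A3
import Pool.Agent.Lib.MP_b6d339_lc.Mix.A4
import Pool.Agent.Lib.MP_b6d339_lc.Mix.A4m
import Pool.Agent.Lib.MP_b6d339_lc.Mix.A5a
import Pool.Agent.Lib.MP_b6d339_lc.Mix.A5
import Pool.Agent.Lib.MP_b6d339_lc.Mix.A5p
import Pool.Agent.Lib.MP_b6d339_lc.Mix.A6a
import Pool.Agent.Lib.MP_b6d339_lc.Mix.A6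
import Pool.Agent.Lib.MP_b6d339_lc.Mix.A8

open Ordinal

namespace MPb6M

/-! # A9: the common event (end) and the common finish -/
variable {S : Sys}

/-- A9: the set of an alive line is not forbidden, so the waiting node is old. -/
theorem A9_w {k : ℕ} {t : St} (hV : V S (k + 1) t) {e : Nd} (L : Line S)
    (ha : ¬ V S (k + 1) ⟨t.P, t.B, t.F ∪ L.Fo e t.B⟩) : ∀ n ∈ L.w, n ≤ t.B := by
  have h1 : ¬ L.Fo e t.B ⊆ t.F := by
    intro h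
    apply ha
    rw [Set.union_eq_self_of_subset_right h]
    exact hV
  obtain ⟨π, hπ, -⟩ := Set.not_subset.1 h1
  have h2 := (L.pos e t.B π hπ).2.1
  intro n hn
  rw [← h2] at hn
  exact tr_le hn

/-- A9: the start with two lines. -/
theorem A9_start {k : ℕ} {t : St} (hW : WFl S t.P t.B)
    {e : Nd} {a : Need} (he : (e, some a) ∈ t.P) (hL : S.LimN a) (L L' : Line S)
    (ha : ¬ V S (k + 1) ⟨t.P, t.B, t.F ∪ L.Fo e t.B⟩)
    (ha' : ¬ V S (k + 1) ⟨t.P, t.B, t.F ∪ L'.Fo e t.B⟩) :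
    GS k t e a a [(L, a), (L', a)] := by
  have h := GS.start (k := k) hW he hL [L, L'] (by
    intro M hM
    rcases List.mem_cons.1 hM with h | h
    · subst h; exact ha
    · rw [List.mem_singleton.1 h]; exact ha')
  simpa using h

/-- **Common event** (infinite class `K`): `GS.start` and `common_aux`. -/
theorem common {k : ℕ} {t : St} (hW : WFl S t.P t.B) (hV : V S (k + 1) t)
    {e : Nd} {a : Need} (he : (e, some a) ∈ t.P) (hL : S.LimN a)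
    (L L' : Line S) {K : ℕ} (hKd : K ≤ S.d) (hkK : L.kap = ci K) (hkK' : L'.kap = ci K)
    (E : Evt L) (E' : Evt L')
    (ha : ¬ V S (k + 1) ⟨t.P, t.B, t.F ∪ L.Fo e t.B⟩)
    (ha' : ¬ V S (k + 1) ⟨t.P, t.B, t.F ∪ L'.Fo e t.B⟩) :
    ∃ t' s, Ext t t' ∧ WFl S t'.P t'.B ∧ V S (k + 1) t' ∧ s ≠ [] ∧ (∀ n ∈ s, t.B < n) ∧
      S.cl s = ci K ∧ e ++ s ∈ nds t'.P ∧ t'.B = lastN (e ++ s) ∧ Rm S (V S k) t'.P t'.B t'.F ∧
      (∃ π ∈ L.Fo e t.B ∩ E.Ev (e ++ s) t'.B, π ∉ t'.F) ∧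
      ∃ π ∈ L'.Fo e t.B ∩ E'.Ev (e ++ s) t'.B, π ∉ t'.F := by
  by_contra hcon
  have hG := A9_start (k := k) hW he hL L L' ha ha'
  have hG0 : GS k t (e ++ []) a a [(L, a), (L', a)] := by
    rw [List.append_nil]
    exact hG
  refine common_aux (k := k) (t := t) L L' hKd hkK hkK' E E' ?_ (t0 := t) (Ext.refl t) hW hV
    (s0 := []) ?_ ?_ hG0 (fun n hn => hW.bd _ he n hn) (A9_w hV L ha) (A9_w hV L' ha')
  · intro t' s hx hW' hV' hs hs' hcl hn hB hR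
    by_contra hc
    rw [not_or] at hc
    obtain ⟨h1, h2⟩ := hc
    obtain ⟨π, hπ, hπ'⟩ := Set.not_subset.1 h1
    obtain ⟨ρ, hρ, hρ'⟩ := Set.not_subset.1 h2
    exact hcon ⟨t', s, hx, hW', hV', hs, hs', hcl, hn, hB, hR, ⟨π, hπ, hπ'⟩, ρ, hρ, hρ'⟩
  · intro n hn
    simp at hn
  · rw [cl_nil]
    exact ci_le.2 (Nat.zero_le _)

/-- **Common finish**: `GS.start` and `guard_step` with the leaf request. -/
theorem finish {k : ℕ} {t : St} (hW : WFl S t.P t.B) (hV : V S (k + 1) t)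
    {e : Nd} {a : Need} (he : (e, some a) ∈ t.P) (hL : S.LimN a)
    (L L' : Line S) (hk : L.kap = ci (S.m + 1)) (hk' : L'.kap = ci (S.m + 1))
    (ha : ¬ V S (k + 1) ⟨t.P, t.B, t.F ∪ L.Fo e t.B⟩)
    (ha' : ¬ V S (k + 1) ⟨t.P, t.B, t.F ∪ L'.Fo e t.B⟩) :
    ∃ t' s, Ext t t' ∧ WFl S t'.P t'.B ∧ V S (k + 1) t' ∧ s ≠ [] ∧ (∀ n ∈ s, t.B < n) ∧
      (e ++ s, none) ∈ t'.P ∧ t'.B = lastN (e ++ s) ∧ Rm S (V S k) t'.P t'.B t'.F ∧
      (∃ π ∈ L.Fo e t.B ∩ L.Thr (e ++ s) t'.B, π ∉ t'.F) ∧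
      ∃ π ∈ L'.Fo e t.B ∩ L'.Thr (e ++ s) t'.B, π ∉ t'.F := by
  have hG := A9_start (k := k) hW he hL L L' ha ha'
  obtain ⟨t', s, hx, hW', hV', hs, hs', -, -, -, hB, hR, hn, -⟩ :=
    guard_step hW hV hG (ρ := ⟨ci (S.m + 1), none, fun _ => 0⟩) (Or.inr (Or.inr ⟨rfl, rfl⟩)) t.B
  obtain ⟨hm, hg⟩ := hn rfl
  refine ⟨t', s, hx, hW', hV', hs, fun n hn => (hs' n hn).2, hm, hB, hR, ?_, ?_⟩
  · exact hg (L, a) (by simp) hk
  · exact hg (L', a) (by simp) hk'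

end MPb6M
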