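import Pool.Agent.Lib.MP_b6d339_lc.Mix.G0

open Ordinal

namespace MPb6M

open MPb6P (Valid Compat plr stL)

/-! # C1: hosting: meeting containers (words and labels only) -/

/-- The players of the two sides of a run are different; parity determines the player. -/
theorem plr_eq {R : Fin 3} {i j : ℕ} : plr R i = plr R j ↔ i % 2 = j % 2 := by
  unfold plr
  rcases Nat.mod_two_eq_zero_or_one i with hi | hi <;>
    rcases Nat.mod_two_eq_zero_or_one j with hj | hj <;>
    rw [hi, hj] <;> fin_cases R <;> decide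

private lemma C1_mem {u : List ℕ} {m i j : ℕ} (h1 : m < j) (h2 : j ≤ i) (h3 : j % 2 = m % 2) :
    u.getD j 0 ≤ Cw u m i := by
  unfold Cw
  apply Finset.le_sup (f := fun j => u.getD j 0)
  simp only [Finset.mem_filter, Finset.mem_range]
  omega

private lemma C1_ex {u : List ℕ} {m i c : ℕ} (h : c < Cw u m i) :
    ∃ j, m < j ∧ j ≤ i ∧ j % 2 = m % 2 ∧ u.getD j 0 = Cw u m i := by
  unfold Cw at h ⊢
  have hne : ((Finset.range (i + 1)).filter fun j => m < j ∧ j % 2 = m % 2).Nonempty := by
    rw [Finset.nonempty_iff_ne_empty]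
    intro he
    rw [he, Finset.sup_empty] at h
    exact absurd h (Nat.not_lt_zero _)
  obtain ⟨j, hj, he⟩ := Finset.exists_mem_eq_sup _ hne (fun j => u.getD j 0)
  simp only [Finset.mem_filter, Finset.mem_range] at hj
  exact ⟨j, hj.2.1, by omega, hj.2.2, he.symm⟩

private lemma C1_letter {D : ℕ} {u : List ℕ} (hu : Valid D u) {i : ℕ} (hi : i < u.length) :
    u.getD i 0 ≤ D + 1 ∧ (u.getD i 0 = D + 1 → 2 ≤ i → u.length ≤ i + 2) := by
  have h := hu.2 i hi
  by_cases h1 : i < 2 ∨ u.length ≤ i + 2
  · have h2 := h.1 h1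
    exact ⟨h2.le, fun _ h3 => by omega⟩
  · push Not at h1
    have h2 := h.2 (by omega) (by omega)
    exact ⟨by omega, fun h3 _ => by omega⟩

/-- **Hosting lemma.** `m`, `m'` are events of the same player in the runs `R ≠ R'`,
`lab R m ≤ lab' R' m'`, and there is an event `is ≥ m` of this player in `R` with
`Cw u m is ≤ c0` and `lab' R' m' ≤ lab R is`. Then classes and labels of the later events are ordered
in the same way.

Direction 1. Suppose `lab' j ≤ lab i` and `K = Cw u' m' j > max c0 (Cw u m i)`; there is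
`j0 ∈ (m', j]`, `j0 ≡ m'`, `u' j0 = K`, `j0 ≥ 2`.
* `K ≤ D`: `hc'.host` for `j0` gives `i0`, `plr R i0 = plr R' j0`, `K ≤ u i0`,
`stL' j0 < lab i0`, `stL i0 < lab' j0`. `stL' j0 = lab' (j0 - 2) ≥ lab' m' ≥ lab m`, so `m < i0`, `m + 2 ≤ i0`,
`lab (i0 - 2) < lab' j0 ≤ lab' j ≤ lab i`, so `i0 - 2 < i`, `i0 ≤ i` (same parity), `Cw u m i ≥ K`.
* `K = D + 1` (`Valid`: `u'.length ≤ j0 + 2`): `hc'.timing` for `j0` gives `i1`, same player,
`lab' j0 = lab i1`; `hc'.common`: `u.length ≤ i1 + 2`, and the label is unique in both runs. `i ≤ i1` and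
`lab i1 = lab' j0 ≤ lab' j ≤ lab i`, so `i = i1`. `lab' m' < lab' j0` (unique), so `lab m < lab i1`, `m < i1 = i`
and `u i = D + 1` by `Valid`: `Cw u m i ≥ D + 1`.
Direction 2. Suppose `lab i ≤ lab' j` and `K = Cw u m i > max c0 (Cw u' m' j)`: `i0 ∈ (m, i]`,
`u i0 = K > c0`, so `is < i0`, `stL i0 = lab (i0 - 2) ≥ lab is ≥ lab' m'`.
* `K ≤ D`: `hc.host` for `i0` gives `j0`, `u' j0 ≥ K`, `lab' j0 > stL i0 ≥ lab' m'`, so `m' < j0`;
`lab' (j0 - 2) < lab i0 ≤ lab i ≤ lab' j`, `j0 ≤ j`, `Cw u' m' j ≥ K`.
* `K = D + 1`: `hc.timing` for `i0`: `j1` with `lab i0 = lab' j1`, the last event of the player in `R'`,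
`j ≤ j1`, `lab' j1 = lab i0 ≤ lab i ≤ lab' j`, `j = j1`; `lab is < lab i0` (unique), so
`lab' m' < lab' j1`, `m' < j1 = j`, `Cw u' m' j ≥ u' j = D + 1`. -/
theorem host_meet {D : ℕ} {u u' : List ℕ} {lab lab' : Fin 3 → ℕ → ℕ} (hu : Valid D u)
    (hu' : Valid D u') (hmono : ∀ R i j, i ≤ j → j < u.length → lab R i ≤ lab R j)
    (hmono' : ∀ R i j, i ≤ j → j < u'.length → lab' R i ≤ lab' R j)
    (hc : Compat D u lab u' lab') (hc' : Compat D u' lab' u lab) {R R' : Fin 3} (hR : R ≠ R')
    {m m' c0 is : ℕ} (hm : m < u.length) (hm' : m' < u'.length) (hp : plr R m = plr R' m')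
    (hl : lab R m ≤ lab' R' m') (h1 : m ≤ is) (h2 : is < u.length) (h3 : is % 2 = m % 2)
    (h4 : Cw u m is ≤ c0) (h5 : lab' R' m' ≤ lab R is) {i j : ℕ} (hi : m ≤ i)
    (hi2 : i < u.length) (hi3 : i % 2 = m % 2) (hj : m' ≤ j) (hj2 : j < u'.length)
    (hj3 : j % 2 = m' % 2) :
    (max c0 (Cw u m i) < max c0 (Cw u' m' j) → lab R i < lab' R' j) ∧
      (max c0 (Cw u' m' j) < max c0 (Cw u m i) → lab' R' j < lab R i) := by
  -- parity from the player
  have par : ∀ {a b : ℕ}, plr R a = plr R' b → b % 2 = m' % 2 → a % 2 = m % 2 := by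
    intro a b hab hb
    have e1 : plr R' b = plr R' m' := plr_eq.mpr hb
    exact plr_eq.mp ((hab.trans e1).trans hp.symm)
  have par' : ∀ {a b : ℕ}, plr R' b = plr R a → a % 2 = m % 2 → b % 2 = m' % 2 := by
    intro a b hab ha
    have e1 : plr R a = plr R m := plr_eq.mpr ha
    exact plr_eq.mp ((hab.trans e1).trans hp)
  constructor
  · intro hlt
    by_contra hcon
    push Not at hcon
    -- `K`
    have hK : max c0 (Cw u m i) < Cw u' m' j := by
      rcases lt_max_iff.mp hlt with h | h
      · exact absurd h (not_lt.mpr (le_max_left _ _))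
      · exact h
    obtain ⟨j0, ja, jb, jc, jd⟩ := C1_ex hK
    have j02 : m' + 2 ≤ j0 := by omega
    have hj0 : j0 < u'.length := by omega
    have hlab0 : lab' R' j0 ≤ lab' R' j := hmono' R' j0 j jb hj2
    obtain ⟨hle, hend⟩ := C1_letter hu' hj0
    have hex : ∃ q, plr R q = plr R' j0 := by
      refine ⟨m, ?_⟩
      rw [hp]
      exact plr_eq.mpr jc.symm
    by_cases hKD : u'.getD j0 0 ≤ D
    · obtain ⟨i0, hi0, hpl, hge, hs1, hs2⟩ := hc'.host R' R hR.symm j0 hj0 hKD hex
      have hpar := par hpl jc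
      have hst : stL lab' R' j0 = lab' R' (j0 - 2) := if_neg (by omega)
      rw [hst] at hs1
      have h6 : lab' R' m' ≤ lab' R' (j0 - 2) := hmono' R' _ _ (by omega) (by omega)
      have h7 : m < i0 := by
        by_contra hcc
        push Not at hcc
        have := hmono R i0 m hcc hm
        omega
      have h8 : m + 2 ≤ i0 := by omega
      have hst2 : stL lab R i0 = lab R (i0 - 2) := if_neg (by omega)
      rw [hst2] at hs2
      have h9 : i0 ≤ i := by
        by_contra hcc
        push Not at hcc
        have := hmono R i (i0 - 2) (by omega) (by omega)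
        omega
      have h10 := C1_mem (u := u) h7 h9 hpar
      have h11 := lt_of_le_of_lt (le_max_right c0 (Cw u m i)) hK
      omega
    · have hKD' : u'.getD j0 0 = D + 1 := by omega
      have hlen := hend hKD' (by omega)
      obtain ⟨i1, hi1, hpl, hle1, hbef, heq⟩ := hc'.timing R' R hR.symm j0 hj0 hex
      have heq := heq hlen
      obtain ⟨_, huq', huq, hiff⟩ := hc'.common R' R hR.symm j0 hj0 i1 hi1 heq
      have hlen1 : u.length ≤ i1 + 2 := hiff.mp hlen
      have hpar := par hpl jc
      have h7 : i = i1 := by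
        apply huq i hi2
        have a1 := hmono R i i1 (by omega) hi1
        omega
      have h8 : lab' R' m' ≠ lab' R' j0 := by
        intro he
        have := huq' m' hm' he
        omega
      have h9 := hmono' R' m' j0 (by omega) hj0
      have h10 : m < i := by
        rcases Nat.lt_or_ge m i with h | h
        · exact h
        · have : m = i := by omega
          subst this
          rw [← h7] at heq
          omega
      have h11 := C1_mem (u := u) h10 le_rfl hi3
      have h12 := ((hu.2 i hi2).1 (Or.inr (by omega)))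
      have h13 := lt_of_le_of_lt (le_max_right c0 (Cw u m i)) hK
      omega
  · intro hlt
    by_contra hcon
    push Not at hcon
    have hK : max c0 (Cw u' m' j) < Cw u m i := by
      rcases lt_max_iff.mp hlt with h | h
      · exact absurd h (not_lt.mpr (le_max_left _ _))
      · exact h
    obtain ⟨i0, ia, ib, ic, id⟩ := C1_ex hK
    have hc0 : c0 < u.getD i0 0 := by
      rw [id]
      exact lt_of_le_of_lt (le_max_left _ _) hK
    have his : is < i0 := by
      by_contra hcc
      push Not at hcc
      have := C1_mem (u := u) ia hcc ic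
      omega
    have his2 : is + 2 ≤ i0 := by omega
    have hi0 : i0 < u.length := by omega
    have hlab0 : lab R i0 ≤ lab R i := hmono R i0 i ib hi2
    obtain ⟨hle, hend⟩ := C1_letter hu hi0
    have hex : ∃ q, plr R' q = plr R i0 := by
      refine ⟨m', ?_⟩
      rw [← hp]
      exact plr_eq.mpr ic.symm
    by_cases hKD : u.getD i0 0 ≤ D
    · obtain ⟨j0, hj0, hpl, hge, hs1, hs2⟩ := hc.host R R' hR i0 hi0 hKD hex
      have hpar := par' hpl ic
      have hst : stL lab R i0 = lab R (i0 - 2) := if_neg (by omega)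
      rw [hst] at hs1
      have h6 : lab R is ≤ lab R (i0 - 2) := hmono R _ _ (by omega) (by omega)
      have h7 : m' < j0 := by
        by_contra hcc
        push Not at hcc
        have := hmono' R' j0 m' hcc hm'
        omega
      have h8 : m' + 2 ≤ j0 := by omega
      have hst2 : stL lab' R' j0 = lab' R' (j0 - 2) := if_neg (by omega)
      rw [hst2] at hs2
      have h9 : j0 ≤ j := by
        by_contra hcc
        push Not at hcc
        have := hmono' R' j (j0 - 2) (by omega) (by omega)
        omega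
      have h10 := C1_mem (u := u') h7 h9 hpar
      have h11 := lt_of_le_of_lt (le_max_right c0 (Cw u' m' j)) hK
      omega
    · have hKD' : u.getD i0 0 = D + 1 := by omega
      have hlen := hend hKD' (by omega)
      obtain ⟨j1, hj1, hpl, hle1, hbef, heq⟩ := hc.timing R R' hR i0 hi0 hex
      have heq := heq hlen
      obtain ⟨_, huq, huq', hiff⟩ := hc.common R R' hR i0 hi0 j1 hj1 heq
      have hlen1 : u'.length ≤ j1 + 2 := hiff.mp hlen
      have hpar := par' hpl ic
      have h7 : j = j1 := by
        apply huq' j hj2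
        have a1 := hmono' R' j j1 (by omega) hj1
        omega
      have h8 : lab R is ≠ lab R i0 := by
        intro he
        have := huq is h2 he
        omega
      have h9 := hmono R is i0 (by omega) hi0
      have h10 : m' < j := by
        rcases Nat.lt_or_ge m' j with h | h
        · exact h
        · have : m' = j := by omega
          subst this
          rw [← h7] at heq
          omega
      have h11 := C1_mem (u := u') h10 le_rfl hj3
      have h12 := ((hu'.2 j hj2).1 (Or.inr (by omega)))
      have h13 := lt_of_le_of_lt (le_max_right c0 (Cw u' m' j)) hK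
      omega

theorem orr_pl (R : Fin 3) (sd : Bool) :
    (orr R sd).1 ≠ R ∧ pl (orr R sd).1 (orr R sd).2 = pl R sd ∧ orr (orr R sd).1 (orr R sd).2 = (R, sd) := by
  revert R sd
  decide

theorem orr_iff {R R' : Fin 3} {sd sd' : Bool} :
    (R', sd') = orr R sd ↔ R' ≠ R ∧ pl R' sd' = pl R sd := by
  revert R R' sd sd'
  decide

theorem pl_sdI (R : Fin 3) (i : ℕ) : pl R (sdI i) = plr R i := by
  unfold pl sdI plr
  rcases Nat.mod_two_eq_zero_or_one i with hi | hi <;> rw [hi] <;> fin_cases R <;> decide

end MPb6M
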