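import Pool.Agent.Lib.MP_b6d339_lc.Mix.G0

open Ordinal

namespace MPb6M

open MPb6P (Valid Compat plr stL)

/-! # G1: the blocks of a pair exist -/

private theorem G1_max (l : List ℕ) (p : ℕ → Prop) (h : ∃ n ∈ l, p n) :
    ∃ m ∈ l, p m ∧ ∀ n ∈ l, p n → n ≤ m := by
  classical
  obtain ⟨n, hn, hpn⟩ := h
  have hne : (l.toFinset.filter p).Nonempty := ⟨n, by simp [hn, hpn]⟩
  refine ⟨(l.toFinset.filter p).max' hne, ?_, ?_, ?_⟩
  · have := Finset.max'_mem _ hne
    rw [Finset.mem_filter, List.mem_toFinset] at this
    exact this.1
  · have := Finset.max'_mem _ hne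
    rw [Finset.mem_filter, List.mem_toFinset] at this
    exact this.2
  · intro k hk hpk
    exact Finset.le_max' _ _ (by rw [Finset.mem_filter, List.mem_toFinset]; exact ⟨hk, hpk⟩)

private theorem G1_sdI_zero : sdI 0 = true := by simp [sdI]
private theorem G1_sdI_one : sdI 1 = false := by simp [sdI]
private theorem G1_sdI_succ (i : ℕ) : sdI (i + 1) = !sdI i := by
  unfold sdI
  rcases Nat.mod_two_eq_zero_or_one i with h | h
  · have h2 : (i + 1) % 2 = 1 := by omega
    simp [h, h2]
  · have h2 : (i + 1) % 2 = 0 := by omega
    simp [h, h2]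

private theorem G1_play (N : ℕ) : ∀ {x y : List ℕ}, x.length + y.length ≤ N →
    x.Pairwise (· < ·) → y.Pairwise (· < ·) →
    (∀ n ∈ x, n ∉ y) → ∀ {a b : ℕ} {x' y' : List ℕ}, x = a :: x' → y = b :: y' →
    a < b → ∃ L t, Play x y L t := by
  induction N with
  | zero =>
    intro x y hN hx hy hd a b x' y' hxa hyb hab
    subst hxa
    simp at hN
  | succ N ih =>
    intro x y hN hx hy hd a b x' y' hxa hyb hab
    have hax : a ∈ x := by rw [hxa]; exact List.mem_cons_self
    have hby : b ∈ y := by rw [hyb]; exact List.mem_cons_self
    have hymin : ∀ n ∈ y, b ≤ n := by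
      intro n hn
      rw [hyb] at hn hy
      rw [List.pairwise_cons] at hy
      rcases List.mem_cons.1 hn with h | h
      · exact le_of_eq h.symm
      · exact le_of_lt (hy.1 n h)
    have hxmin : ∀ n ∈ x, a ≤ n := by
      intro n hn
      rw [hxa] at hn hx
      rw [List.pairwise_cons] at hx
      rcases List.mem_cons.1 hn with h | h
      · exact le_of_eq h.symm
      · exact le_of_lt (hx.1 n h)
    obtain ⟨t0, ht0x, ht0b, ht0m⟩ := G1_max x (fun n => n < b) ⟨a, hax, hab⟩
    have hxb : ∀ n ∈ x, n ≠ b := fun n hn hnb => hd n hn (hnb ▸ hby)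
    by_cases hx2 : ∃ n ∈ x, b < n
    · -- the rest is not empty
      have hlen : (x.filter fun n => decide (b < n)).length < x.length := by
        apply List.length_filter_lt_length_iff_exists.2
        exact ⟨a, hax, by simp; omega⟩
      have hne : (x.filter fun n => decide (b < n)) ≠ [] := by
        obtain ⟨n, hn, hbn⟩ := hx2
        intro h0
        have : n ∈ (x.filter fun n => decide (b < n)) := by
          rw [List.mem_filter]; exact ⟨hn, by simpa using hbn⟩
        rw [h0] at this
        simp at this
      obtain ⟨b2, x2', hx2e⟩ := List.exists_cons_of_ne_nil hne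
      have hmx2 : ∀ n, n ∈ (x.filter fun n => decide (b < n)) ↔ n ∈ x ∧ b < n := by
        intro n
        rw [List.mem_filter]
        simp
      have hb2 : b < b2 := ((hmx2 b2).1 (by rw [hx2e]; exact List.mem_cons_self)).2
      obtain ⟨L', t', hP⟩ := ih (x := y) (y := x.filter fun n => decide (b < n)) (by omega) hy
        (hx.filter _) (fun n hn hn2 => hd n ((hmx2 n).1 hn2).1 hn) hyb hx2e hb2
      have hge : ∀ i < L', b ≤ t' i := by
        intro i hi
        have := hP.mem i hi
        unfold side at this
        split_ifs at this with hs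
        · exact hymin _ this
        · exact le_of_lt ((hmx2 _).1 this).2
      have hgt : ∀ i < L', t0 < t' i := fun i hi => lt_of_lt_of_le ht0b (hge i hi)
      refine ⟨L' + 1, fun i => if i = 0 then t0 else t' (i - 1), ?_⟩
      have h2 := hP.two
      refine ⟨by omega, ?_, ?_, ?_, ?_, ?_⟩
      · intro i j hij hj
        by_cases hi : i = 0
        · subst hi
          rw [if_pos rfl, if_neg (by omega)]
          exact hgt _ (by omega)
        · simp only [if_neg hi, if_neg (show j ≠ 0 by omega)]
          exact hP.lt _ _ (by omega) (by omega)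
      · intro i hi
        by_cases hi0 : i = 0
        · subst hi0
          simp only [if_pos rfl, G1_sdI_zero, side]
          exact ht0x
        · obtain ⟨k, rfl⟩ : ∃ k, i = k + 1 := ⟨i - 1, by omega⟩
          simp only [if_neg hi0, Nat.add_sub_cancel, G1_sdI_succ]
          have := hP.mem k (by omega)
          unfold side at this ⊢
          cases hk : sdI k with
          | true =>
            rw [hk] at this
            simpa using this
          | false =>
            rw [hk] at this
            simp only [Bool.false_eq_true, if_false] at this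
            simpa using ((hmx2 _).1 this).1
      · intro n hn
        rw [if_pos rfl]
        exact lt_of_lt_of_le ht0b (hymin n hn)
      · intro i hi n hn hle
        by_cases hi0 : i = 0
        · subst hi0
          simp only [if_pos rfl]
          simp only [G1_sdI_zero, side, if_true] at hn
          simp only [Nat.zero_add, one_ne_zero, if_false, Nat.sub_self] at hle
          by_cases hbn : b < n
          · have := hP.blk0 n ((hmx2 n).2 ⟨hn, hbn⟩)
            omega
          · exact ht0m n hn (lt_of_le_of_ne (by omega) (hxb n hn))
        · obtain ⟨k, rfl⟩ : ∃ k, i = k + 1 := ⟨i - 1, by omega⟩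
          simp only [if_neg hi0, Nat.add_sub_cancel]
          simp only [if_neg (show k + 1 + 1 ≠ 0 by omega), Nat.add_sub_cancel] at hle
          rw [G1_sdI_succ] at hn
          have hkey := hP.blk k (by omega) n
          unfold side at hn hkey
          cases hk : sdI k with
          | true =>
            rw [hk] at hn hkey
            simp only [Bool.not_true, Bool.false_eq_true, if_false] at hn
            simp only [if_true] at hkey
            exact hkey hn hle
          | false =>
            rw [hk] at hn hkey
            simp only [Bool.not_false, if_true] at hn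
            simp only [Bool.false_eq_true, if_false] at hkey
            by_cases hbn : b < n
            · exact hkey ((hmx2 n).2 ⟨hn, hbn⟩) hle
            · have := hge k (by omega)
              omega
      · intro n hn
        rw [if_neg (show L' + 1 - 1 ≠ 0 by omega)]
        have htop := hP.top n
        have hge' := hge (L' - 1) (by omega)
        rw [Nat.add_sub_cancel]
        rcases hn with hn | hn
        · by_cases hbn : b < n
          · exact htop (Or.inr ((hmx2 n).2 ⟨hn, hbn⟩))
          · omega
        · exact htop (Or.inl hn)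
    · -- two blocks
      push Not at hx2
      obtain ⟨t1, ht1y, -, ht1m⟩ := G1_max y (fun _ => True) ⟨b, hby, trivial⟩
      have hbt1 : b ≤ t1 := hymin t1 ht1y
      have hxt0 : ∀ n ∈ x, n ≤ t0 := fun n hn =>
        ht0m n hn (lt_of_le_of_ne (hx2 n hn) (hxb n hn))
      refine ⟨2, fun i => if i = 0 then t0 else t1, ?_⟩
      refine ⟨le_rfl, ?_, ?_, ?_, ?_, ?_⟩
      · intro i j hij hj
        have hi0 : i = 0 := by omega
        have hj1 : j = 1 := by omega
        subst hi0; subst hj1
        rw [if_pos rfl, if_neg one_ne_zero]
        exact lt_of_lt_of_le ht0b hbt1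
      · intro i hi
        by_cases hi0 : i = 0
        · subst hi0
          simp only [if_pos rfl, G1_sdI_zero, side]
          exact ht0x
        · have hi1 : i = 1 := by omega
          subst hi1
          simp only [one_ne_zero, if_false, G1_sdI_one, side, Bool.false_eq_true]
          exact ht1y
      · intro n hn
        rw [if_pos rfl]
        exact lt_of_lt_of_le ht0b (hymin n hn)
      · intro i hi n hn hle
        have hi0 : i = 0 := by omega
        subst hi0
        simp only [if_pos rfl]
        simp only [G1_sdI_zero, side, if_true] at hn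
        exact hxt0 n hn
      · intro n hn
        rw [if_neg (show 2 - 1 ≠ 0 by omega)]
        rcases hn with hn | hn
        · have := hxt0 n hn
          omega
        · exact ht1m n hn trivial

/-- Strong induction on `x.length + y.length`. Let `x1 = x.takeWhile (· < b)` (not empty, its last
number is `t 0`) and `x = x1 ++ x2`. If `x2 = []`: `L = 2`, `t 1` = last number of `y`. Otherwise
`x2 = b2 :: _`, `b < b2`: the induction hypothesis for `(y, x2)` gives `L'`, `t'`; take `L = L' + 1`,
`t (i + 1) = t' i` (the sides are exchanged: `sdI (i + 1) = !sdI i`). -/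
theorem exists_play {x y : List ℕ} (hx : x.Pairwise (· < ·)) (hy : y.Pairwise (· < ·))
    (hd : ∀ n ∈ x, n ∉ y) {a b : ℕ} {x' y' : List ℕ} (hxa : x = a :: x') (hyb : y = b :: y')
    (hab : a < b) : ∃ L t, Play x y L t :=
  G1_play (x.length + y.length) le_rfl hx hy hd hxa hyb hab

/-- for root-split pairs of `All` the common beginning is empty -/
theorem Gm.split {G : Gm} {π : Pr} (h : π ∈ G.All) (hr : RS π) :
    ∃ x y a b, π.1 = a :: x ∧ π.2 = b :: y ∧ a < b ∧ ∀ n ∈ π.1, n ∉ π.2 := by
  obtain ⟨-, -, -, c, x, y, a, b, h1, h2, hab, hd⟩ := h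
  cases c with
  | nil =>
    rw [List.nil_append] at h1 h2
    refine ⟨x, y, a, b, h1, h2, hab, ?_⟩
    rw [h1, h2]
    exact hd
  | cons c0 c =>
    exfalso
    apply hr
    rw [h1, h2]
    rfl

theorem play_spec {G : Gm} {π : Pr} (h : π ∈ G.All) (hr : RS π) :
    Play π.1 π.2 (pL π) (pt π) := by
  have hex : ∃ L t, Play π.1 π.2 L t := by
    obtain ⟨x, y, a, b, h1, h2, hab, hd⟩ := Gm.split h hr
    exact exists_play h.1.inc h.2.1.inc hd h1 h2 hab
  unfold pL pt
  rw [dif_pos hex, dif_pos hex]
  exact hex.choose_spec.choose_spec

end MPb6M
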