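import Pool.Agent.Lib.MP_b6d339_lc.Mix.G0
import Pool.Agent.Lib.MP_b6d339_lc.Mix.A2

open Ordinal

namespace MPb6M

open MPb6P (Valid Compat plr stL)

/-! # G2: classes of intervals, index of the next event (port of Eps/G2) -/
variable {cls : ℕ → Cl}

theorem co_max (a b : Cl) : co (max a b) = max (co a) (co b) := by
  rcases le_total a b with h | h
  · rw [max_eq_right h, max_eq_right (co_mono h)]
  · rw [max_eq_left h, max_eq_left (co_mono h)]
theorem cf_lt {f i i' : ℕ} : cf f i < cf f i' ↔ i' < i := by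
  unfold cf
  rw [Prod.Lex.toLex_lt_toLex]
  simp
private theorem G2_ci_cf {j f i : ℕ} (h : j < f) : ci j < cf f i := lt_of_co h
private theorem G2_cf_ci {j f i : ℕ} (h : f < j) : cf f i < ci j := lt_of_co h

theorem Gm.cls_pos (G : Gm) (n : ℕ) : ci 0 < G.cls n := by
  rcases G.cls_ok n with ⟨j, h1, -, h2⟩ | ⟨f, i, h1, -, h2⟩ | h2
  · rw [h2, ci_lt]
    omega
  · rw [h2]
    exact G2_ci_cf (by omega)
  · rw [h2, ci_lt]
    omega
theorem Gm.cls_le (G : Gm) (n : ℕ) : G.cls n ≤ ci (G.D + 2) := by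
  rcases G.cls_ok n with ⟨j, -, h1, h2⟩ | ⟨f, i, -, h1, h2⟩ | h2
  · rw [h2, ci_le]
    have := G.hdD
    omega
  · rw [h2]
    exact (G2_cf_ci (by omega)).le
  · rw [h2]

private theorem G2_cons (a : ℕ) (s : List ℕ) : clf cls (a :: s) = max (cls a) (clf cls s) := rfl
private theorem G2_nil : clf cls [] = ci 0 := rfl

theorem clf_ge (s : List ℕ) : ci 0 ≤ clf cls s := by
  induction s with
  | nil => exact le_rfl
  | cons a s ih =>
    rw [G2_cons]
    exact le_max_of_le_right ih

theorem clf_append (s s' : List ℕ) : clf cls (s ++ s') = max (clf cls s) (clf cls s') := by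
  induction s with
  | nil =>
    rw [List.nil_append, G2_nil, max_eq_right (clf_ge s')]
  | cons a s ih => rw [List.cons_append, G2_cons, G2_cons, ih, max_assoc]

theorem clf_le {s : List ℕ} {k : Cl} (hk : ci 0 ≤ k) : clf cls s ≤ k ↔ ∀ n ∈ s, cls n ≤ k := by
  induction s with
  | nil =>
    rw [G2_nil]
    simp [hk]
  | cons a s ih =>
    rw [G2_cons, max_le_iff, ih]
    simp

theorem clf_lt {s : List ℕ} {k : Cl} (hk : ci 0 < k) : clf cls s < k ↔ ∀ n ∈ s, cls n < k := by
  induction s with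
  | nil =>
    rw [G2_nil]
    simp [hk]
  | cons a s ih =>
    rw [G2_cons, max_lt_iff, ih]
    simp

theorem le_clf {s : List ℕ} {n : ℕ} (hn : n ∈ s) : cls n ≤ clf cls s :=
  (clf_le (clf_ge s)).1 le_rfl n hn

theorem clf_mem (hc : ∀ n, ci 0 < cls n) {s : List ℕ} (h : s ≠ []) :
    ∃ n ∈ s, clf cls s = cls n := by
  induction s with
  | nil => exact absurd rfl h
  | cons a s ih =>
    by_cases hs : s = []
    · subst hs
      refine ⟨a, List.mem_cons_self, ?_⟩
      rw [G2_cons, G2_nil, max_eq_left (hc a).le]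
    · obtain ⟨n, hn, hn'⟩ := ih hs
      rcases le_total (cls a) (clf cls s) with h3 | h3
      · exact ⟨n, List.mem_cons_of_mem _ hn, by rw [G2_cons, max_eq_right h3, hn']⟩
      · exact ⟨a, List.mem_cons_self, by rw [G2_cons, max_eq_left h3]⟩

theorem kl_ge (x : List ℕ) (B B' : ℕ) : ci 0 ≤ kl cls x B B' := clf_ge _

theorem kl_le {x : List ℕ} {B B' : ℕ} {k : Cl} (hk : ci 0 ≤ k) :
    kl cls x B B' ≤ k ↔ ∀ n ∈ x, B < n → n ≤ B' → cls n ≤ k := by
  unfold kl
  rw [clf_le hk]
  constructor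
  · intro h n hn h1 h2
    exact h n (by simp [hn, h1, h2])
  · intro h n hn
    simp only [List.mem_filter, decide_eq_true_eq] at hn
    exact h n hn.1 hn.2.1 hn.2.2

theorem kl_lt {x : List ℕ} {B B' : ℕ} {k : Cl} (hk : ci 0 < k) :
    kl cls x B B' < k ↔ ∀ n ∈ x, B < n → n ≤ B' → cls n < k := by
  unfold kl
  rw [clf_lt hk]
  constructor
  · intro h n hn h1 h2
    exact h n (by simp [hn, h1, h2])
  · intro h n hn
    simp only [List.mem_filter, decide_eq_true_eq] at hn
    exact h n hn.1 hn.2.1 hn.2.2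

private theorem G2_mem {x : List ℕ} {B B' n : ℕ} (hn : n ∈ x) (h1 : B < n) (h2 : n ≤ B') :
    cls n ≤ kl cls x B B' := (kl_le (kl_ge x B B')).1 le_rfl n hn h1 h2

theorem kl_split (x : List ℕ) {B B' B'' : ℕ} (h1 : B ≤ B') (h2 : B' ≤ B'') :
    kl cls x B B'' = max (kl cls x B B') (kl cls x B' B'') := by
  apply le_antisymm
  · rw [kl_le (le_max_of_le_left (kl_ge _ _ _))]
    intro n hn h3 h4
    rcases le_or_gt n B' with h5 | h5
    · exact le_max_of_le_left (G2_mem hn h3 h5)
    · exact le_max_of_le_right (G2_mem hn h5 h4)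
  · apply max_le
    · rw [kl_le (kl_ge _ _ _)]
      intro n hn h3 h4
      exact G2_mem hn h3 (h4.trans h2)
    · rw [kl_le (kl_ge _ _ _)]
      intro n hn h3 h4
      exact G2_mem hn (lt_of_le_of_lt h1 h3) h4

/-- nothing of `x` in `(B, B']` -/
theorem kl_none {x : List ℕ} {B B' : ℕ} (h : ∀ n ∈ x, n ≤ B' → n ≤ B) :
    kl cls x B B' = ci 0 := by
  apply le_antisymm _ (kl_ge _ _ _)
  rw [kl_le le_rfl]
  intro n hn h1 h2
  exact absurd (h n hn h2) (by omega)

theorem kl_eq_left {x : List ℕ} {B B' B'' : ℕ} (hB : B ≤ B') (h : ∀ n ∈ x, n ≤ B' → n ≤ B) :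
    kl cls x B B'' = kl cls x B' B'' := by
  apply le_antisymm
  · rw [kl_le (kl_ge _ _ _)]
    intro n hn h1 h2
    apply G2_mem hn ?_ h2
    by_contra h3
    exact absurd (h n hn (by omega)) (by omega)
  · rw [kl_le (kl_ge _ _ _)]
    intro n hn h1 h2
    exact G2_mem hn (lt_of_le_of_lt hB h1) h2

theorem kl_eq_right {x : List ℕ} {B B' B'' : ℕ} (hB : B' ≤ B'') (h : ∀ n ∈ x, n ≤ B'' → n ≤ B') :
    kl cls x B B'' = kl cls x B B' := by
  apply le_antisymm
  · rw [kl_le (kl_ge _ _ _)]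
    intro n hn h1 h2
    exact G2_mem hn h1 (h n hn h2)
  · rw [kl_le (kl_ge _ _ _)]
    intro n hn h1 h2
    exact G2_mem hn h1 (h2.trans hB)

theorem kl_mem_le {x : List ℕ} {B B' n : ℕ} (hn : n ∈ x) (h1 : B < n) (h2 : n ≤ B') :
    cls n ≤ kl cls x B B' := G2_mem hn h1 h2

/-- something of `x` in `(B, B']`: the class is attained -/
theorem kl_mem (hc : ∀ n, ci 0 < cls n) {x : List ℕ} {B B' n : ℕ} (hn : n ∈ x) (h1 : B < n)
    (h2 : n ≤ B') : ∃ m ∈ x, B < m ∧ m ≤ B' ∧ kl cls x B B' = cls m := by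
  have hne : (x.filter fun n => decide (B < n ∧ n ≤ B')) ≠ [] := by
    intro h
    have h3 : n ∈ (x.filter fun n => decide (B < n ∧ n ≤ B')) := by simp [hn, h1, h2]
    rw [h] at h3
    simp at h3
  obtain ⟨m, hm, hm'⟩ := clf_mem hc hne
  simp only [List.mem_filter, decide_eq_true_eq] at hm
  exact ⟨m, hm.1, hm.2.1, hm.2.2, hm'⟩

/-- the numbers added between the times `B` and `B'` -/
theorem kl_tr {x : List ℕ} (hx : x.Pairwise (· < ·)) {B B' : ℕ} {c s : List ℕ}
    (h : tr x B' = c ++ s) (hc : ∀ n ∈ c, n ≤ B) (hs : ∀ n ∈ s, B < n) :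
    kl cls x B B' = clf cls s := by
  apply le_antisymm
  · rw [kl_le (clf_ge s)]
    intro n hn h1 h2
    have h3 : n ∈ tr x B' := (mem_tr hx).2 ⟨hn, h2⟩
    rw [h, List.mem_append] at h3
    rcases h3 with h3 | h3
    · exact absurd (hc n h3) (by omega)
    · exact le_clf h3
  · rw [clf_le (kl_ge _ _ _)]
    intro n hn
    have h3 : n ∈ tr x B' := by rw [h, List.mem_append]; exact Or.inr hn
    obtain ⟨h4, h5⟩ := (mem_tr hx).1 h3
    exact G2_mem h4 (hs n hn) h5

variable {π : Pr}
theorem lt_nx (h : Play π.1 π.2 (pL π) (pt π)) {i B : ℕ} :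
    i < nx π B ↔ i < pL π ∧ pt π i ≤ B := by
  classical
  have hmem : ∀ j, j ∈ (Finset.range (pL π)).filter (fun i => pt π i ≤ B) ↔
      j < pL π ∧ pt π j ≤ B := by
    intro j
    rw [Finset.mem_filter, Finset.mem_range]
  have down : ∀ j k, k ≤ j → j < pL π ∧ pt π j ≤ B → k < pL π ∧ pt π k ≤ B := by
    intro j k hk hj
    refine ⟨by omega, ?_⟩
    rcases Nat.lt_or_ge k j with h1 | h1
    · exact (h.lt k j h1 hj.1).le.trans hj.2
    · have : k = j := by omega
      rw [this]; exact hj.2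
  constructor
  · intro hi
    by_contra hcon
    have hsub : (Finset.range (pL π)).filter (fun i => pt π i ≤ B) ⊆ Finset.range i := by
      intro j hj
      rw [hmem] at hj
      rw [Finset.mem_range]
      by_contra hji
      exact hcon (down j i (by omega) hj)
    have := Finset.card_le_card hsub
    rw [Finset.card_range] at this
    unfold nx at hi
    omega
  · intro hi
    have hsub : Finset.range (i + 1) ⊆ (Finset.range (pL π)).filter (fun i => pt π i ≤ B) := by
      intro j hj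
      rw [Finset.mem_range] at hj
      rw [hmem]
      exact down i j (by omega) hi
    have := Finset.card_le_card hsub
    rw [Finset.card_range] at this
    unfold nx
    omega

theorem nx_le (B : ℕ) : nx π B ≤ pL π := by
  unfold nx
  exact (Finset.card_filter_le _ _).trans (by simp)

theorem nx_mono {B B' : ℕ} (h : B ≤ B') : nx π B ≤ nx π B' := by
  unfold nx
  apply Finset.card_le_card
  intro j hj
  rw [Finset.mem_filter] at hj ⊢
  exact ⟨hj.1, hj.2.trans h⟩

theorem lt_pt (h : Play π.1 π.2 (pL π) (pt π)) {B i : ℕ} (hi : nx π B ≤ i) (hL : i < pL π) :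
    B < pt π i := by
  by_contra hcon
  have := (lt_nx h (i := i) (B := B)).2 ⟨hL, by omega⟩
  omega

theorem nx_eq (h : Play π.1 π.2 (pL π) (pt π)) {B m : ℕ} (h1 : ∀ i < m, pt π i ≤ B)
    (hm : m ≤ pL π) (h2 : m < pL π → B < pt π m) : nx π B = m := by
  apply le_antisymm
  · by_contra hcon
    have := (lt_nx h (i := m) (B := B)).1 (by omega)
    have := h2 this.1
    omega
  · by_contra hcon
    have h3 : nx π B < m := by omega
    have := (lt_nx h (i := nx π B) (B := B)).2 ⟨by omega, h1 _ h3⟩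
    omega

theorem sdI_succ (i : ℕ) : sdI (i + 1) = !sdI i := by
  unfold sdI
  rcases Nat.mod_two_eq_zero_or_one i with h | h
  · have h2 : (i + 1) % 2 = 1 := by omega
    simp [h, h2]
  · have h2 : (i + 1) % 2 = 0 := by omega
    simp [h, h2]

theorem sdI_eq {i j : ℕ} : sdI i = sdI j ↔ i % 2 = j % 2 := by
  unfold sdI
  rcases Nat.mod_two_eq_zero_or_one i with h | h <;>
    rcases Nat.mod_two_eq_zero_or_one j with h' | h' <;> simp [h, h']

theorem pt_mem (h : Play π.1 π.2 (pL π) (pt π)) {i : ℕ} (hi : i < pL π) :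
    pt π i ∈ side (sdI i) π := h.mem i hi

/-- the waiting side has no number in `(B, pt π m]`, `m` = the next event -/
theorem wait_none (h : Play π.1 π.2 (pL π) (pt π)) {B : ℕ} (hm : nx π B < pL π) :
    ∀ n ∈ side (!sdI (nx π B)) π, n ≤ pt π (nx π B) → n ≤ B := by
  intro n hn hn'
  rcases Nat.eq_zero_or_pos (nx π B) with h0 | h0
  · rw [h0] at hn hn'
    have : n ∈ π.2 := hn
    have := h.blk0 n this
    omega
  · obtain ⟨m, hm'⟩ : ∃ m, nx π B = m + 1 := ⟨nx π B - 1, by omega⟩
    rw [hm'] at hn hn' hm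
    rw [sdI_succ, Bool.not_not] at hn
    have h1 := h.blk m hm n hn hn'
    have h2 := (lt_nx h (i := m) (B := B)).1 (by omega)
    omega

/-- as long as the waiting side has no new number, the active side is in the block `m` -/
theorem act_block (h : Play π.1 π.2 (pL π) (pt π)) {B B' : ℕ} (hm : nx π B < pL π)
    (hw : ∀ n ∈ side (!sdI (nx π B)) π, n ≤ B' → n ≤ B) :
    ∀ n ∈ side (sdI (nx π B)) π, n ≤ B' → n ≤ pt π (nx π B) := by
  intro n hn hn'
  rcases Nat.lt_or_ge (nx π B + 1) (pL π) with h1 | h1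
  · by_contra hcon
    have h2 : ¬ n ≤ pt π (nx π B + 1) := fun h3 => hcon (h.blk _ h1 n hn h3)
    have h4 : pt π (nx π B + 1) ∈ side (!sdI (nx π B)) π := by
      rw [← sdI_succ]
      exact h.mem _ h1
    have h5 := hw _ h4 (by omega)
    have h6 := lt_pt h (le_refl (nx π B)) hm
    have h7 := h.lt _ _ (Nat.lt_succ_self (nx π B)) h1
    have h8 : pt π (nx π B) < pt π (nx π B + 1) := h7
    omega
  · have h2 : nx π B = pL π - 1 := by omega
    have h3 : n ∈ π.1 ∨ n ∈ π.2 := by
      unfold side at hn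
      split_ifs at hn
      · exact Or.inl hn
      · exact Or.inr hn
    have h4 := h.top n h3
    rw [← h2] at h4
    exact h4

/-- in the block `i + 2` of a side: no number of this side in `(pt i, pt (i + 1)]` -/
theorem own_none (h : Play π.1 π.2 (pL π) (pt π)) {i : ℕ} (hi : i + 1 < pL π) :
    ∀ n ∈ side (sdI i) π, n ≤ pt π (i + 1) → n ≤ pt π i := h.blk i hi

/-- the next number belongs to the active side -/
theorem act_first (h : Play π.1 π.2 (pL π) (pt π)) {B : ℕ} (hm : nx π B < pL π) :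
    ∃ n ∈ side (sdI (nx π B)) π, B < n ∧ ∀ m ∈ side (!sdI (nx π B)) π, B < m → n < m := by
  refine ⟨pt π (nx π B), h.mem _ hm, lt_pt h le_rfl hm, ?_⟩
  intro m hm' hBm
  by_contra hcon
  have := wait_none h hm m hm' (by omega)
  omega

/-- block ends in the sense of `BE` -/
theorem be_pt (h : Play π.1 π.2 (pL π) (pt π)) {i : ℕ} (hi : i < pL π) : BE π (pt π i) := by
  refine ⟨sdI i, h.mem i hi, ?_⟩
  rcases Nat.lt_or_ge (i + 1) (pL π) with h1 | h1
  · right
    refine ⟨pt π (i + 1), ?_, h.lt _ _ (Nat.lt_succ_self i) h1, ?_⟩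
    · rw [← sdI_succ]
      exact h.mem _ h1
    · intro n hn hn'
      by_contra hcon
      have := h.blk i h1 n hn (by omega)
      omega
  · left
    intro n hn
    have h2 : i = pL π - 1 := by omega
    have h3 : n ∈ π.1 ∨ n ∈ π.2 := by
      unfold side at hn
      split_ifs at hn
      · exact Or.inl hn
      · exact Or.inr hn
    have h4 := h.top n h3
    rw [← h2] at h4
    exact h4

end MPb6M
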