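import Pool.Agent.Lib.MP_b6d339_lc.Mix.G0
import Pool.Agent.Lib.MP_b6d339_lc.Mix.A2
import Pool.Agent.Lib.MP_b6d339_lc.Mix.G1
import Pool.Agent.Lib.MP_b6d339_lc.Mix.G2

open Ordinal

namespace MPb6M

open MPb6P (Valid Compat plr stL)

/-! # G3: words (port of Eps/G3) -/
variable {G : Gm} {π : Pr}

private theorem G3_leaf (h : π ∈ G.All) (sd : Bool) : G.Leaf (side sd π) := by
  cases sd
  · exact h.2.1
  · exact h.1

/-- the last number of a leaf -/
private theorem G3_leaf_last {x : List ℕ} (hx : G.Leaf x) :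
    ∃ n ∈ x, G.cls n = ci (G.D + 2) ∧ ∀ m ∈ x, m ≤ n ∧ (m ≠ n → G.cls m < ci (G.D + 2)) := by
  obtain ⟨s, n, rfl, h1, h2⟩ := G.val_last x hx.val
  refine ⟨n, by simp, h1, ?_⟩
  intro m hm
  rcases List.mem_append.1 hm with h3 | h3
  · have h4 := (List.pairwise_append.1 hx.inc).2.2 m h3 n (by simp)
    exact ⟨le_of_lt h4, fun _ => h2 m h3⟩
  · have h4 := List.mem_singleton.1 h3
    exact ⟨le_of_eq h4, fun h5 => absurd h4 h5⟩

private theorem G3_co_cf {f i : ℕ} : co (cf f i) = f := rfl
private theorem G3_co_ci {j : ℕ} : co (ci j) = j := rfl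

private theorem G3_ci0_cf {f i : ℕ} (hf : 0 < f) : ci 0 < cf f i := lt_of_co (by
  rw [G3_co_ci, G3_co_cf]; exact hf)

/-- the numbers which are neither first nor last -/
private theorem G3_co_mid {n : ℕ} (h1 : G.cls n < ci (G.D + 2)) (h2 : co (G.cls n) ≠ G.D + 1) :
    1 ≤ co (G.cls n) ∧ co (G.cls n) ≤ G.D := by
  have hdD := G.hdD
  rcases G.cls_ok n with ⟨j, hj1, hj2, hj⟩ | ⟨f, i, hf1, hf2, hf⟩ | h3
  · rw [hj, G3_co_ci]
    omega
  · rw [hf, G3_co_cf] at h2 ⊢
    omega
  · rw [h3] at h1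
    exact absurd h1 (lt_irrefl _)

/-- a leaf which is a single number -/
private theorem G3_single {n m : ℕ} (hx : G.Leaf [n]) (hm : m ∈ [n]) :
    ¬ G.cls m < ci (G.D + 2) := by
  obtain ⟨k, hk, h1, -⟩ := G3_leaf_last hx
  rw [List.mem_singleton.1 hm, ← List.mem_singleton.1 hk, h1]
  exact lt_irrefl _

/-- the numbers which are not last -/
private theorem G3_le_exit {x : List ℕ} (hx : G.Leaf x) {m : ℕ} (hm : m ∈ x)
    (h1 : G.cls m < ci (G.D + 2)) : G.cls m ≤ cf (G.D + 1) 0 := by
  rcases G.val_hd x hx.val with ⟨n, rfl⟩ | ⟨a, s, rfl, ha, hs⟩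
  · exact absurd h1 (G3_single hx hm)
  rcases List.mem_cons.1 hm with rfl | h2
  · exact ha.le
  · have h3 := G3_co_mid h1 (hs m h2)
    refine (lt_of_co ?_).le
    rw [G3_co_cf]
    omega

/-- the first number of a leaf which is not a single number -/
private theorem G3_leaf_hd {x : List ℕ} (hx : G.Leaf x) {m0 : ℕ} (hm0 : m0 ∈ x)
    (h0 : G.cls m0 < ci (G.D + 2)) :
    ∃ a ∈ x, G.cls a = cf (G.D + 1) 0 ∧ (∀ m ∈ x, a ≤ m ∧ (m ≠ a → co (G.cls m) ≠ G.D + 1)) ∧
      ∀ B, tr x B ≠ [] → a ≤ B := by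
  rcases G.val_hd x hx.val with ⟨n, rfl⟩ | ⟨a, s, rfl, ha, hs⟩
  · exact absurd h0 (G3_single hx hm0)
  refine ⟨a, by simp, ha, ?_, ?_⟩
  · intro m hm
    rcases List.mem_cons.1 hm with h1 | h1
    · exact ⟨h1.ge, fun h2 => absurd h1 h2⟩
    · exact ⟨le_of_lt ((List.pairwise_cons.1 hx.inc).1 m h1), fun _ => hs m h1⟩
  · intro B hB
    by_contra h
    apply hB
    unfold tr
    rw [List.takeWhile_cons]
    simp [h]

theorem wd_length : (G.wd π).length = pL π := by
  simp [Gm.wd]
theorem wd_getD {i : ℕ} (hi : i < pL π) : (G.wd π).getD i 0 =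
    if i < 2 then G.D + 1 else
      min (G.D + 1) (co (kl G.cls (side (sdI i) π) (pt π (i - 2)) (pt π i))) := by
  rw [List.getD_eq_getElem _ _ (by rw [wd_length]; exact hi)]
  simp [Gm.wd]

theorem kl_le_D2 (x : List ℕ) (B B' : ℕ) : kl G.cls x B B' ≤ ci (G.D + 2) :=
  (kl_le (ci_le.2 (Nat.zero_le _))).2 fun n _ _ _ => G.cls_le n

/-- before the finish the numbers are not last -/
private theorem G3_not_last (h : π ∈ G.All) (hr : RS π) {i m : ℕ} (hi : i + 2 < pL π)
    (hm : m ∈ side (sdI i) π) (hm2 : m ≤ pt π i) : G.cls m < ci (G.D + 2) := by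
  have hp := play_spec h hr
  obtain ⟨n, hn, hn1, hn2⟩ := G3_leaf_last (G3_leaf h (sdI i))
  refine (hn2 m hm).2 ?_
  intro h3
  have h5 : pt π (i + 2) ∈ side (sdI i) π := by
    have := pt_mem hp hi
    rwa [show sdI (i + 2) = sdI i from sdI_eq.2 (by omega)] at this
  have h6 := (hn2 _ h5).1
  have h7 := hp.lt i (i + 2) (by omega) hi
  omega

/-- the blocks `pL π - 2` and `pL π - 1` contain the last numbers of the two sides (leaf numbers),
all other numbers have smaller classes -/
theorem kl_fin (h : π ∈ G.All) (hr : RS π) {i B : ℕ} (hi : i < pL π) (hB : B < pt π i) :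
    kl G.cls (side (sdI i) π) B (pt π i) = ci (G.D + 2) ↔ pL π ≤ i + 2 := by
  have hp := play_spec h hr
  obtain ⟨n, hn, hn1, hn2⟩ := G3_leaf_last (G3_leaf h (sdI i))
  constructor
  · intro h1
    by_contra hlt
    push Not at hlt
    have h2 : kl G.cls (side (sdI i) π) B (pt π i) < ci (G.D + 2) := by
      rw [kl_lt (ci_lt.2 (by omega))]
      intro m hm _ hm2
      exact G3_not_last h hr hlt hm hm2
    rw [h1] at h2
    exact lt_irrefl _ h2
  · intro h1
    have h2 : n ≤ pt π i := by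
      have h3 : n ≤ pt π (pL π - 1) := by
        apply hp.top
        revert hn
        cases sdI i
        · exact fun h => Or.inr h
        · exact fun h => Or.inl h
      by_cases h4 : i + 1 < pL π
      · have h5 : pL π - 1 = i + 1 := by omega
        rw [h5] at h3
        exact hp.blk i h4 n hn h3
      · have h5 : pL π - 1 = i := by omega
        rwa [h5] at h3
    have h3 : B < n := lt_of_lt_of_le hB (hn2 _ (pt_mem hp hi)).1
    have h4 := kl_mem_le (cls := G.cls) hn h3 h2
    rw [hn1] at h4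
    exact le_antisymm (kl_le_D2 _ _ _) h4
theorem kl_pos (h : π ∈ G.All) (hr : RS π) {i B : ℕ} (hi : i < pL π) (hB : B < pt π i) :
    ci 0 < kl G.cls (side (sdI i) π) B (pt π i) :=
  lt_of_lt_of_le (G.cls_pos _) (kl_mem_le (pt_mem (play_spec h hr) hi) hB le_rfl)

/-- from the root, before the finish: the exit -/
theorem kl_root (h : π ∈ G.All) (hr : RS π) {i B : ℕ} (hi : i + 2 < pL π) (hB : B < pt π i)
    (h0 : tr (side (sdI i) π) B = []) :
    kl G.cls (side (sdI i) π) B (pt π i) = cf (G.D + 1) 0 := by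
  have hx := G3_leaf h (sdI i)
  have hmi : pt π i ∈ side (sdI i) π := pt_mem (play_spec h hr) (by omega)
  obtain ⟨a, ha, ha1, ha2, ha3⟩ := G3_leaf_hd hx hmi (G3_not_last h hr hi hmi le_rfl)
  apply le_antisymm
  · refine (kl_le (G3_ci0_cf (by omega)).le).2 ?_
    intro m hm _ hm2
    exact G3_le_exit hx hm (G3_not_last h hr hi hm hm2)
  · rw [← ha1]
    refine kl_mem_le ha ?_ (ha2 _ (pt_mem (play_spec h hr) (by omega))).1
    by_contra h1
    push Not at h1
    have h2 : a ∈ tr (side (sdI i) π) B := (mem_tr hx.inc).2 ⟨ha, h1⟩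
    rw [h0] at h2
    exact absurd h2 (by simp)
/-- after the exit, before the finish: coarse class in `[1, D]` -/
theorem kl_co (h : π ∈ G.All) (hr : RS π) {i B : ℕ} (hi : i + 2 < pL π) (hB : B < pt π i)
    (h0 : tr (side (sdI i) π) B ≠ []) :
    1 ≤ co (kl G.cls (side (sdI i) π) B (pt π i)) ∧
      co (kl G.cls (side (sdI i) π) B (pt π i)) ≤ G.D := by
  have hx := G3_leaf h (sdI i)
  have hmi : pt π i ∈ side (sdI i) π := pt_mem (play_spec h hr) (by omega)
  obtain ⟨a, ha, ha1, ha2, ha3⟩ := G3_leaf_hd hx hmi (G3_not_last h hr hi hmi le_rfl)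
  obtain ⟨m, hm, h1, h2, h3⟩ := kl_mem G.cls_pos (pt_mem (play_spec h hr) (i := i) (by omega)) hB
    (le_refl (pt π i))
  rw [h3]
  have h4 := ha3 B h0
  exact G3_co_mid (G3_not_last h hr hi hm h2) ((ha2 m hm).2 (by omega))

theorem valid_wd (h : π ∈ G.All) (hr : RS π) : Valid G.D (G.wd π) := by
  have hp := play_spec h hr
  refine ⟨by rw [wd_length]; exact hp.two, ?_⟩
  intro i hi
  rw [wd_length] at hi ⊢
  rw [wd_getD hi]
  refine ⟨fun h1 => ?_, fun h1 h2 => ?_⟩
  · split_ifs with h3
    · rfl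
    · rw [(kl_fin h hr hi (hp.lt _ _ (by omega) hi)).2 (by omega), G3_co_ci]
      omega
  · rw [if_neg (by omega)]
    have hB := hp.lt (i - 2) i (by omega) hi
    have h3 : tr (side (sdI i) π) (pt π (i - 2)) ≠ [] := by
      have h4 : pt π (i - 2) ∈ side (sdI i) π := by
        have := pt_mem hp (i := i - 2) (by omega)
        rwa [show sdI (i - 2) = sdI i from sdI_eq.2 (by omega)] at this
      exact List.ne_nil_of_mem ((mem_tr (G3_leaf h (sdI i)).inc).2 ⟨h4, le_rfl⟩)
    have h5 := kl_co h hr h2 hB h3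
    omega

theorem Cw_kl (h : π ∈ G.All) (hr : RS π) {m i : ℕ} (hm : m ≤ i) (hi : i < pL π)
    (hp : sdI i = sdI m) :
    min (G.D + 1) (co (kl G.cls (side (sdI m) π) (pt π m) (pt π i))) = Cw (G.wd π) m i := by
  have hP := play_spec h hr
  rw [sdI_eq] at hp
  obtain ⟨k, rfl⟩ : ∃ k, i = m + 2 * k := ⟨(i - m) / 2, by omega⟩
  clear hp hm
  induction k with
  | zero =>
    have e0 : m + 2 * 0 = m := by omega
    rw [e0, kl_none (fun n _ h2 => h2), G3_co_ci]
    unfold Cw
    symm
    rw [Nat.min_zero]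
    apply Nat.eq_zero_of_le_zero
    apply Finset.sup_le
    intro j hj
    rw [Finset.mem_filter, Finset.mem_range] at hj
    omega
  | succ k ih =>
    have h1 : pt π m ≤ pt π (m + 2 * k) := by
      rcases Nat.eq_zero_or_pos k with rfl | h0
      · exact le_rfl
      · exact le_of_lt (hP.lt _ _ (by omega) (by omega))
    have h2 : pt π (m + 2 * k) ≤ pt π (m + 2 * (k + 1)) :=
      le_of_lt (hP.lt _ _ (by omega) hi)
    rw [kl_split _ h1 h2, co_max, min_max_distrib_left, ih (by omega)]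
    have h3 := wd_getD (G := G) hi
    rw [if_neg (by omega), show sdI (m + 2 * (k + 1)) = sdI m from sdI_eq.2 (by omega),
      show m + 2 * (k + 1) - 2 = m + 2 * k by omega] at h3
    rw [← h3]
    unfold Cw
    apply le_antisymm
    · apply max_le
      · apply Finset.sup_mono
        intro j hj
        rw [Finset.mem_filter, Finset.mem_range] at hj ⊢
        exact ⟨by omega, hj.2⟩
      · refine Finset.le_sup (f := fun j => (G.wd π).getD j 0) ?_
        rw [Finset.mem_filter, Finset.mem_range]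
        omega
    · apply Finset.sup_le
      intro j hj
      rw [Finset.mem_filter, Finset.mem_range] at hj
      by_cases h4 : j = m + 2 * (k + 1)
      · rw [h4]; exact le_max_right _ _
      · apply le_max_of_le_left
        refine Finset.le_sup (f := fun j => (G.wd π).getD j 0) ?_
        rw [Finset.mem_filter, Finset.mem_range]
        omega

private theorem G3_pre_mem {x : List ℕ} (hx : G.Leaf x) {B : ℕ} (h : tr x B ≠ x) :
    ∀ m ∈ tr x B, G.cls m < ci (G.D + 2) := by
  obtain ⟨s, n, rfl, h1, h2⟩ := G.val_last x hx.val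
  intro m hm
  apply h2
  have h3 := tr_prefix (s ++ [n]) B
  rcases List.prefix_concat_iff.1 h3 with h4 | h4
  · exact absurd h4 h
  · exact h4.subset hm

private theorem G3_pre {x : List ℕ} (hx : G.Leaf x) {B : ℕ} (h : tr x B ≠ x) :
    clf G.cls (tr x B) < ci (G.D + 2) := by
  rw [clf_lt (ci_lt.2 (by omega))]
  exact G3_pre_mem hx h

/-- the whole component has been played at the end -/
theorem tr_leaf {x : List ℕ} (hx : G.Leaf x) {B : ℕ} (h : clf G.cls (tr x B) = ci (G.D + 2)) :
    tr x B = x := by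
  by_contra h1
  have h2 := G3_pre hx h1
  rw [h] at h2
  exact lt_irrefl _ h2
theorem leaf_clf {x : List ℕ} (hx : G.Leaf x) : clf G.cls x = ci (G.D + 2) := by
  apply le_antisymm
  · exact (clf_le (ci_le.2 (Nat.zero_le _))).2 fun n _ => G.cls_le n
  · obtain ⟨n, hn, h1, -⟩ := G3_leaf_last hx
    rw [← h1]
    exact le_clf hn
/-- every proper initial part (not the root) has the class of the exit -/
theorem root_clf {x : List ℕ} (hx : G.Leaf x) {B : ℕ} (h0 : tr x B ≠ []) (h : tr x B ≠ x) :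
    clf G.cls (tr x B) = cf (G.D + 1) 0 := by
  obtain ⟨m0, hm0⟩ := List.exists_mem_of_ne_nil _ h0
  obtain ⟨a, ha, ha1, ha2, ha3⟩ := G3_leaf_hd hx ((tr_prefix x B).subset hm0)
    (G3_pre_mem hx h m0 hm0)
  apply le_antisymm
  · refine (clf_le (G3_ci0_cf (by omega)).le).2 ?_
    intro m hm
    exact G3_le_exit hx ((tr_prefix x B).subset hm) (G3_pre_mem hx h m hm)
  · rw [← ha1]
    exact le_clf ((mem_tr hx.inc).2 ⟨ha, ha3 B h0⟩)
/-- all numbers have been played iff all events have happened -/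
theorem nx_full (h : π ∈ G.All) (hr : RS π) {B : ℕ} :
    nx π B = pL π ↔ tr π.1 B = π.1 ∧ tr π.2 B = π.2 := by
  have hp := play_spec h hr
  constructor
  · intro h1
    have h2 : pt π (pL π - 1) ≤ B := by
      have h3 := hp.two
      exact ((lt_nx hp (i := pL π - 1) (B := B)).1 (by omega)).2
    exact ⟨tr_self fun n hn => (hp.top n (Or.inl hn)).trans h2,
      tr_self fun n hn => (hp.top n (Or.inr hn)).trans h2⟩
  · rintro ⟨h1, h2⟩
    apply le_antisymm (nx_le B)
    by_contra h3
    push Not at h3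
    have h4 := lt_pt hp (le_refl (nx π B)) h3
    have h5 := pt_mem hp h3
    have h6 : ∀ n ∈ side (sdI (nx π B)) π, n ≤ B := by
      cases sdI (nx π B)
      · intro n hn
        change n ∈ π.2 at hn
        rw [← h2] at hn
        exact tr_le hn
      · intro n hn
        change n ∈ π.1 at hn
        rw [← h1] at hn
        exact tr_le hn
    have := h6 _ h5
    omega
/-- the active side is not at a leaf -/
theorem act_not_leaf (h : π ∈ G.All) (hr : RS π) {B : ℕ} (hm : nx π B < pL π) :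
    clf G.cls (tr (side (sdI (nx π B)) π) B) < ci (G.D + 2) := by
  have hp := play_spec h hr
  apply G3_pre (G3_leaf h _)
  intro h1
  have h4 := lt_pt hp (le_refl (nx π B)) hm
  have h5 := pt_mem hp hm
  rw [← h1] at h5
  have := tr_le h5
  omega

/-- two members of an increasing list -/
private theorem G3_two {x : List ℕ} (hx : x.Pairwise (· < ·)) {n n' : ℕ} (hn : n ∈ x) (hn' : n' ∈ x)
    (h : n < n') : ∃ s1 s2 s3, x = s1 ++ n :: (s2 ++ n' :: s3) ∧ ∀ m ∈ s2, n < m ∧ m < n' ∧ m ∈ x := by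
  obtain ⟨s1, r, rfl⟩ := List.append_of_mem hn
  have h1 := List.pairwise_append.1 hx
  have h2 : n' ∈ r := by
    rcases List.mem_append.1 hn' with h3 | h3
    · have := h1.2.2 n' h3 n (by simp)
      omega
    · rcases List.mem_cons.1 h3 with h4 | h4
      · omega
      · exact h4
  obtain ⟨s2, s3, rfl⟩ := List.append_of_mem h2
  refine ⟨s1, s2, s3, rfl, ?_⟩
  intro m hm
  have h3 := List.pairwise_cons.1 h1.2.1
  have h4 := List.pairwise_append.1 h3.2
  exact ⟨h3.1 m (by simp [hm]), h4.2.2 m hm n' (by simp), by simp [hm]⟩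

/-- After a new part `s` of class `cf f i` (`f` finite) the numbers up to the next larger class have
coarse class `< f` or are larger: if the class of `(B, B'']` is still the class of `s`, then the
coarse class of `(B', B'']` is `< f`. (Let `n` be a number of `s` of class `cf f i`; there is no number
of coarse class `f` in `(B', B'']`: the first one `n'` would have `cls n < cls n'` by `val_dec`.) -/
theorem kl_dec {x : List ℕ} (hx : G.Leaf x) {B B' B'' f i : ℕ} (hf : G.d < f) (h1 : B ≤ B')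
    (h2 : B' ≤ B'') (h3 : kl G.cls x B B' = cf f i) (h4 : kl G.cls x B B'' = cf f i) :
    co (kl G.cls x B' B'') < f := by
  by_contra hcon
  push Not at hcon
  have hex : ∀ {C C' : ℕ}, f ≤ co (kl G.cls x C C') → ∃ n ∈ x, C < n ∧ n ≤ C' ∧ kl G.cls x C C' = G.cls n := by
    intro C C' hC
    by_contra hno
    have h5 : kl G.cls x C C' = ci 0 := by
      apply kl_none
      intro n hn hn2
      by_contra h6
      push Not at h6
      exact hno (kl_mem G.cls_pos hn h6 hn2)
    rw [h5, G3_co_ci] at hC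
    omega
  obtain ⟨n, hn, hn1, hn2, hn3⟩ := hex (C := B) (C' := B') (by rw [h3, G3_co_cf])
  obtain ⟨n', hn', hn1', hn2', hn3'⟩ := hex (C := B') (C' := B'') hcon
  rw [h3] at hn3
  rw [hn3'] at hcon
  have hle : ∀ m ∈ x, B < m → m ≤ B'' → G.cls m ≤ cf f i := by
    intro m hm hm1 hm2
    rw [← h4]
    exact kl_mem_le hm hm1 hm2
  obtain ⟨s1, s2, s3, hs, hs2⟩ := G3_two hx.inc hn hn' (by omega)
  have h6 := hle n' hn' (by omega) (by omega)
  have h7 : G.cls n < G.cls n' := by
    refine G.val_dec x hx.val s1 s2 s3 n n' hs ?_ ?_ ?_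
    · rw [← hn3, G3_co_cf]
      exact hf
    · rw [← hn3, G3_co_cf]
      have := co_mono h6
      rw [G3_co_cf] at this
      omega
    · intro m hm
      obtain ⟨h8, h9, h10⟩ := hs2 m hm
      rw [← hn3]
      exact co_mono (hle m h10 (by omega) (by omega))
  rw [← hn3] at h7
  exact absurd h6 (not_le.2 h7)

end MPb6M
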