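import Pool.Agent.Lib.MP_b6d339_lc.Mix.G0
import Pool.Agent.Lib.MP_b6d339_lc.Mix.A2
import Pool.Agent.Lib.MP_b6d339_lc.Mix.G1
import Pool.Agent.Lib.MP_b6d339_lc.Mix.G2
import Pool.Agent.Lib.MP_b6d339_lc.Mix.G3

open Ordinal

namespace MPb6M

open MPb6P (Valid Compat plr stL)

/-! # G4: labels; at every time there are finitely many objects -/
variable {G : Gm}

theorem lb_bd (π : Pr) (R : Fin 3) (i : ℕ) : 1 ≤ G.lb π R i ∧ G.lb π R i ≤ G.td.M := G.td.bd _ _ _
theorem lb_mono {π : Pr} (h : π ∈ G.All) (hr : RS π) (R : Fin 3) {i j : ℕ} (hij : i ≤ j)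
    (hj : j < pL π) : G.lb π R i ≤ G.lb π R j :=
  G.td.mono _ (valid_wd h hr) R i j hij (by rw [wd_length]; exact hj)

theorem G4_side_val {π : Pr} (h : π ∈ G.All) (sd : Bool) : G.val (side sd π) := by
  cases sd
  · exact h.2.1.val
  · exact h.1.val

theorem G4_co_le (x : List ℕ) (B B' : ℕ) : co (kl G.cls x B B') ≤ G.D + 2 := by
  have h1 : kl G.cls x B B' ≤ ci (G.D + 2) := by
    rw [kl_le (ci_le.2 (Nat.zero_le _))]
    exact fun n _ _ _ => G.cls_le n
  exact co_mono h1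

/-- If `lf R q w a B` is not empty, then `q = feat R π B` for a pair `π` of it: all classes of `q` (in
`kap`, `g1`, `g2`) belong to one of the finite sets `G.val_fin a`, `G.val_fin w`, the coarse classes in
`ms` are at most `D + 2`, the labels at most `M`, and there are finitely many templates: finitely
many `q` (`Set.Finite.finite_subsets`, injectivity of the constructor `Ft.mk`). -/
theorem finite_lf (G : Gm) (a w : Nd) (B : ℕ) :
    {X : Set Pr | ∃ R q, X = G.lf R q w a B}.Finite := by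
  have hT : Finite G.td.T := G.td.fin
  let N : ℕ := max (G.D + 2) G.td.M
  let C : Set Cl := {c : Cl | ∃ x B b, G.val x ∧ tr x B = a ∧ c = kl G.cls x B b} ∪
    {c : Cl | ∃ x B b, G.val x ∧ tr x B = w ∧ c = kl G.cls x B b}
  have hC : C.Finite := (G.val_fin a).union (G.val_fin w)
  let B1 : Set (Cl × ℕ) := C ×ˢ Set.Iic N
  have hB1 : B1.Finite := hC.prod (Set.finite_Iic N)
  let B2 : Set (ℕ × ℕ) := Set.Iic N ×ˢ Set.Iic N
  have hB2 : B2.Finite := (Set.finite_Iic N).prod (Set.finite_Iic N)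
  let A : Set (Fin 3 × G.td.T × Bool × ℕ × ℕ × Cl × Set (Cl × ℕ) × Set (Cl × ℕ) × Set (ℕ × ℕ)) :=
    Set.univ ×ˢ Set.univ ×ˢ Set.univ ×ˢ Set.Iic N ×ˢ Set.Iic N ×ˢ C ×ˢ (𝒫 B1) ×ˢ (𝒫 B1) ×ˢ (𝒫 B2)
  have hA : A.Finite := Set.finite_univ.prod (Set.finite_univ.prod (Set.finite_univ.prod
    ((Set.finite_Iic N).prod ((Set.finite_Iic N).prod (hC.prod
      (hB1.powerset.prod (hB1.powerset.prod hB2.powerset)))))))
  refine ((hA.image (fun t : Fin 3 × G.td.T × Bool × ℕ × ℕ × Cl × Set (Cl × ℕ) × Set (Cl × ℕ) × Set (ℕ × ℕ) =>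
    G.lf t.1 ⟨t.2.1, t.2.2.1, t.2.2.2.1, t.2.2.2.2.1, t.2.2.2.2.2.1, t.2.2.2.2.2.2.1, t.2.2.2.2.2.2.2.1,
      t.2.2.2.2.2.2.2.2⟩ w a B)).union (Set.finite_singleton (∅ : Set Pr))).subset ?_
  rintro X ⟨R, q, rfl⟩
  rcases Set.eq_empty_or_nonempty (G.lf R q w a B) with h0 | ⟨π, h1, h2, h3, h4, h5, h6⟩
  · exact Or.inr h0
  · refine Or.inl ⟨(R, G.td.tmpl (G.wd π), sdI (nx π B), G.pv π R B, G.nl π R B, G.kp π B, G.gs π R true B,
      G.gs π R false B, G.ms π R (nx π B)), ?_, ?_⟩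
    · have hpar : q.par = sdI (nx π B) := by rw [← h4]; rfl
      rw [hpar] at h5 h6
      have hl : ∀ i, G.lb π R i ≤ N := fun i => (lb_bd π R i).2.trans (le_max_right _ _)
      have hside : ∀ sd : Bool, tr (side sd π) B = a ∨ tr (side sd π) B = w := by
        intro sd
        by_cases hs : sd = sdI (nx π B)
        · exact Or.inl (by rw [hs]; exact h5)
        · have hs' : sd = !sdI (nx π B) := by
            revert hs
            cases sd <;> cases (sdI (nx π B)) <;> simp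
          exact Or.inr (by rw [hs']; exact h6)
      have hk : ∀ (sd : Bool) (b : ℕ), kl G.cls (side sd π) B b ∈ C := by
        intro sd b
        rcases hside sd with h | h
        · exact Or.inl ⟨side sd π, B, b, G4_side_val h1 sd, h, rfl⟩
        · exact Or.inr ⟨side sd π, B, b, G4_side_val h1 sd, h, rfl⟩
      refine ⟨trivial, trivial, trivial, ?_, hl _, hk _ _, ?_, ?_, ?_⟩
      · show G.pv π R B ≤ N
        unfold Gm.pv
        split_ifs
        · exact Nat.zero_le _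
        · exact hl _
      · rintro p ⟨i, _, _, _, rfl⟩
        exact ⟨hk _ _, hl _⟩
      · rintro p ⟨i, _, _, _, rfl⟩
        exact ⟨hk _ _, hl _⟩
      · rintro p ⟨i, _, _, _, rfl⟩
        exact ⟨(G4_co_le _ _ _).trans (le_max_left _ _), hl _⟩
    · show G.lf R (G.feat R π B) w a B = G.lf R q w a B
      rw [h4]

end MPb6M
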