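import Pool.Agent.Lib.MP_b6d339_lc.Mix.G0
import Pool.Agent.Lib.MP_b6d339_lc.Mix.A2
import Pool.Agent.Lib.MP_b6d339_lc.Mix.G1
import Pool.Agent.Lib.MP_b6d339_lc.Mix.G2
import Pool.Agent.Lib.MP_b6d339_lc.Mix.G3
import Pool.Agent.Lib.MP_b6d339_lc.Mix.G4
import Pool.Agent.Lib.MP_b6d339_lc.Mix.C1

open Ordinal

namespace MPb6M

open MPb6P (Valid Compat plr stL)

/-! # C2: the next event with the smallest label (port of Eps/C2) -/
variable {G : Gm} {B : ℕ} {e : Fin 3 → Nd} {w : Fin 3 → Pr} {t0 : G.td.T}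

/-- the run `R` has not been finished -/
def Pd (w : Fin 3 → Pr) (B : ℕ) (R : Fin 3) : Prop := nx (w R) B < pL (w R)

/-- active side -/
noncomputable def ac (w : Fin 3 → Pr) (B : ℕ) (R : Fin 3) : Bool := sdI (nx (w R) B)

/-- `R` is pending with the smallest next label -/
def Mn (G : Gm) (w : Fin 3 → Pr) (B : ℕ) (R : Fin 3) : Prop :=
  Pd w B R ∧ ∀ X, Pd w B X → G.nl (w R) R B ≤ G.nl (w X) X B

theorem tc_compat (h : TC G B e w t0) (R R' : Fin 3) : Compat G.D (G.wd (w R)) (G.td.lab (G.wd (w R)))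
    (G.wd (w R')) (G.td.lab (G.wd (w R'))) :=
  G.td.comp _ _ (valid_wd (h.all R) (h.rs R)) (valid_wd (h.all R') (h.rs R'))
    ((h.tm R).trans (h.tm R').symm)

/-- the next event belongs to `gs` of the active side -/
private theorem C2_gs (_h : TC G B e w t0) {R : Fin 3} (hR : Pd w B R) :
    (G.kp (w R) B, G.nl (w R) R B) ∈ G.gs (w R) R (sdI (nx (w R) B)) B :=
  ⟨nx (w R) B, le_rfl, hR, rfl, rfl⟩

private theorem C2_third : ∀ (R R' X : Fin 3) (s s' s'' : Bool), R' ≠ R → X ≠ R → X ≠ R' →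
    pl R' s' = pl R s → pl R s = pl X s'' → False := by
  decide

/-- `(TC)`: let `m = nx (w R) B`, `R'` the other run of the player `p = plr R m`.
`Compat.timing` gives `j` with `plr R' j = p`, `lab m ≤ lab' j`, `lab' k < lab m` for `k < j`. With
`m' = nx (w R') B`: `j < m'` contradicts `i1` (`lab' j ≤ lab' (m' - 1) < lab m`); so `m' ≤ j < L'`, `R'` is
pending and `lab m ≤ lab' m'`; hence `j = m'`.
`kp R ≤ kp R'`: otherwise `i2` for `R'`, `R` gives `lab' m' < lab m`.
If `kp R = ci (D + 2)`, `m` is the last event of `p` in `R` (`kl_fin`), `timing` gives `lab m = lab' m'`.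
If `lab m = lab' m'`, then `kp R' ≤ kp R` by `i2`.
Third run: `lab'' m'' = lab m` would imply `plr R'' m'' = p` (`Compat.common`), but `p` is not in `R''`. -/
theorem tc_active (h : TC G B e w t0) {R R' : Fin 3} {sd' : Bool} (hR : Mn G w B R)
    (ho : orr R (ac w B R) = (R', sd')) :
    Pd w B R' ∧ ac w B R' = sd' ∧ G.kp (w R) B ≤ G.kp (w R') B ∧
    (G.kp (w R) B = ci (G.D + 2) → G.nl (w R') R' B = G.nl (w R) R B) ∧
    (G.nl (w R') R' B = G.nl (w R) R B → G.kp (w R') B = G.kp (w R) B) ∧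
    ∀ X, X ≠ R → X ≠ R' → Pd w B X → G.nl (w R) R B < G.nl (w X) X B := by
  have hP : nx (w R) B < pL (w R) := hR.1
  have hac : ac w B R = sdI (nx (w R) B) := rfl
  have hi := orr_iff.1 ho.symm
  have hne : R' ≠ R := hi.1
  have hpl : pl R' sd' = pl R (sdI (nx (w R) B)) := hi.2
  have hc := tc_compat h R R'
  have hex : ∃ j, plr R' j = plr R (nx (w R) B) :=
    ⟨if sd' then 0 else 1, by rw [← pl_sdI R]; exact hpl⟩
  obtain ⟨j, hj, hjp, hjl, hjk, hjf⟩ :=
    hc.timing R R' hne.symm (nx (w R) B) (by rw [wd_length]; exact hP) hex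
  rw [wd_length] at hj
  have hm'j : nx (w R') B ≤ j := by
    by_contra hlt
    push Not at hlt
    have h1 := h.i1 R' R hne hP
    have h2 : G.pv (w R') R' B = G.lb (w R') R' (nx (w R') B - 1) := by
      unfold Gm.pv
      rw [if_neg (by omega)]
    have h3 : G.lb (w R') R' j ≤ G.lb (w R') R' (nx (w R') B - 1) :=
      lb_mono (h.all R') (h.rs R') R' (by omega) (by
        have := nx_le (π := w R') B
        omega)
    have h4 : G.lb (w R) R (nx (w R) B) ≤ G.lb (w R') R' j := hjl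
    have h5 : G.nl (w R) R B = G.lb (w R) R (nx (w R) B) := rfl
    omega
  have hP' : Pd w B R' := lt_of_le_of_lt hm'j hj
  have hle : G.nl (w R) R B ≤ G.nl (w R') R' B := hR.2 R' hP'
  have hjm : j = nx (w R') B := by
    rcases eq_or_lt_of_le hm'j with he | hlt
    · exact he.symm
    · have h1 : G.lb (w R') R' (nx (w R') B) < G.lb (w R) R (nx (w R) B) := hjk _ hlt
      exact absurd hle (not_le.2 h1)
  subst hjm
  have hsd : sdI (nx (w R') B) = sd' := by
    have h1 : (R', sdI (nx (w R') B)) = orr R (sdI (nx (w R) B)) := by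
      rw [orr_iff]
      exact ⟨hne, by rw [pl_sdI, pl_sdI]; exact hjp⟩
    rw [← hac, ho] at h1
    exact (Prod.mk.inj h1).2
  have hoR : orr R (sdI (nx (w R) B)) = (R', sdI (nx (w R') B)) := by rw [hsd]; exact ho
  have hoR' : orr R' (sdI (nx (w R') B)) = (R, sdI (nx (w R) B)) := by
    have h1 := (orr_pl R (sdI (nx (w R) B))).2.2
    rw [hoR] at h1
    exact h1
  have g1 := C2_gs h hR.1
  have g2 := C2_gs h hP'
  have i12 : G.kp (w R) B < G.kp (w R') B → G.nl (w R) R B < G.nl (w R') R' B :=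
    h.i2 R (sdI (nx (w R) B)) _ g1 _ (by rw [hoR]; exact g2)
  have i21 : G.kp (w R') B < G.kp (w R) B → G.nl (w R') R' B < G.nl (w R) R B :=
    h.i2 R' (sdI (nx (w R') B)) _ g2 _ (by rw [hoR']; exact g1)
  have hk : G.kp (w R) B ≤ G.kp (w R') B := by
    by_contra hlt
    exact absurd hle (not_le.2 (i21 (not_le.1 hlt)))
  refine ⟨hP', hsd, hk, ?_, ?_, ?_⟩
  · intro hf
    have hpt : B < pt (w R) (nx (w R) B) := lt_pt (play_spec (h.all R) (h.rs R)) le_rfl hP
    have h1 := (kl_fin (h.all R) (h.rs R) hP hpt).1 hf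
    exact (hjf (by rw [wd_length]; exact h1)).symm
  · intro he
    refine le_antisymm ?_ hk
    by_contra hlt
    exact absurd he.le (not_le.2 (i12 (not_le.1 hlt)))
  · intro X hX hX' hPX
    refine lt_of_le_of_ne (hR.2 X hPX) ?_
    intro he
    have h1 := ((tc_compat h R X).common R X hX.symm (nx (w R) B) (by rw [wd_length]; exact hP)
      (nx (w X) B) (by rw [wd_length]; exact hPX) he).1
    rw [← pl_sdI, ← pl_sdI X] at h1
    exact C2_third R R' X _ _ _ hne hX hX' hpl h1

/-- uniqueness of a common label: all later events of both runs have larger labels -/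
theorem tc_common_lt (h : TC G B e w t0) {R R' : Fin 3} {sd' : Bool} (hR : Mn G w B R)
    (ho : orr R (ac w B R) = (R', sd')) (hl : G.nl (w R') R' B = G.nl (w R) R B) :
    (∀ i, nx (w R) B < i → i < pL (w R) → G.nl (w R) R B < G.lb (w R) R i) ∧
    (∀ i, nx (w R') B < i → i < pL (w R') → G.nl (w R) R B < G.lb (w R') R' i) := by
  have hP' : Pd w B R' := (tc_active h hR ho).1
  have hne : R' ≠ R := (orr_iff.1 ho.symm).1
  have h1 := (tc_compat h R R').common R R' hne.symm (nx (w R) B) (by rw [wd_length]; exact hR.1)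
      (nx (w R') B) (by rw [wd_length]; exact hP') hl.symm
  obtain ⟨-, h2, h3, -⟩ := h1
  refine ⟨fun i hi hiL => ?_, fun i hi hiL => ?_⟩
  · have h4 : G.lb (w R) R (nx (w R) B) ≤ G.lb (w R) R i :=
      lb_mono (h.all R) (h.rs R) R hi.le hiL
    refine lt_of_le_of_ne h4 ?_
    intro he
    have := h2 i (by rw [wd_length]; exact hiL) he.symm
    omega
  · have h4 : G.lb (w R') R' (nx (w R') B) ≤ G.lb (w R') R' i :=
      lb_mono (h.all R') (h.rs R') R' hi.le hiL
    have h5 : G.nl (w R) R B = G.lb (w R') R' (nx (w R') B) := hl.symm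
    rw [h5]
    refine lt_of_le_of_ne h4 ?_
    intro he
    have := h3 i (by rw [wd_length]; exact hiL) he.symm
    omega

/-- the third run, and its two sides -/
theorem third (R R' : Fin 3) (h : R ≠ R') : ∃ X, X ≠ R ∧ X ≠ R' ∧ ∀ Y, Y = R ∨ Y = R' ∨ Y = X := by
  revert R R'
  decide

end MPb6M
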