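import Pool.Agent.Lib.MP_b6d339_lc.Mix.G0
import Pool.Agent.Lib.MP_b6d339_lc.Mix.A2
import Pool.Agent.Lib.MP_b6d339_lc.Mix.G1
import Pool.Agent.Lib.MP_b6d339_lc.Mix.G2
import Pool.Agent.Lib.MP_b6d339_lc.Mix.G3

open Ordinal

namespace MPb6M

open MPb6P (Valid Compat plr stL)

/-! # G5: lines: the pairs with a given feature, followed along the nodes of the active player
(port of Eps/G5) -/
variable {G : Gm} {R : Fin 3} {q : Ft G.td.T} {w c : Nd} {B B' B'' : ℕ} {s s' : List ℕ} {π : Pr}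

theorem lf_play (h : π ∈ G.lf R q w c B) : Play π.1 π.2 (pL π) (pt π) := play_spec h.1 h.2.1
theorem lf_inc (h : π ∈ G.lf R q w c B) : π.1.Pairwise (· < ·) ∧ π.2.Pairwise (· < ·) :=
  ⟨h.1.1.inc, h.1.2.1.inc⟩
theorem lf_q (h : π ∈ G.lf R q w c B) : q.par = sdI (nx π B) ∧ q.kap = G.kp π B ∧
    ci 0 < q.kap ∧ q.kap ≤ ci (G.D + 2) ∧ q.pv = G.pv π R B ∧ q.nl = G.nl π R B ∧
    q.g1 = G.gs π R true B ∧ q.g2 = G.gs π R false B ∧ q.ms = G.ms π R (nx π B) := by
  obtain ⟨h1, h2, h3, h4, h5, h6⟩ := h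
  subst h4
  refine ⟨rfl, rfl, ?_, ?_, rfl, rfl, rfl, rfl, rfl⟩
  · exact kl_pos h1 h2 h3 (lt_pt (play_spec h1 h2) le_rfl h3)
  · exact kl_le_D2 _ _ _

private theorem G5_side_inc (h : π ∈ G.All) (sd : Bool) : (side sd π).Pairwise (· < ·) := by
  cases sd
  · exact h.2.1.inc
  · exact h.1.inc

private theorem G5_pt_mono (hp : Play π.1 π.2 (pL π) (pt π)) {i j : ℕ} (hij : i ≤ j)
    (hj : j < pL π) : pt π i ≤ pt π j := by
  rcases hij.lt_or_eq with h | rfl
  · exact (hp.lt i j h hj).le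
  · exact le_rfl

/-- Between two times `B ≤ B'` with `nx π B = nx π B'`, the same waiting node and
`kl (active) B B' ≤ kl (active) B' (pt i)` for all future events `i` of the active side, the features
agree: `kl_split`, `kl_eq_left`. All the following lemmas use this. -/
theorem feat_eq (hp : Play π.1 π.2 (pL π) (pt π)) (hB : B ≤ B') (hm : nx π B = nx π B')
    (hL : nx π B < pL π) (hw : ∀ n ∈ side (!sdI (nx π B)) π, n ≤ B' → n ≤ B)
    (hk : kl G.cls (side (sdI (nx π B)) π) B B' ≤ G.kp π B') (R : Fin 3) :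
    G.feat R π B = G.feat R π B' := by
  have hL' : nx π B' < pL π := hm ▸ hL
  have hlt : B' < pt π (nx π B) := by
    rw [hm]
    exact lt_pt hp le_rfl hL'
  have hkp' : G.kp π B' = kl G.cls (side (sdI (nx π B)) π) B' (pt π (nx π B)) := by
    unfold Gm.kp
    rw [← hm]
  -- classes of all future events
  have key : ∀ sd : Bool, ∀ i, nx π B ≤ i → i < pL π → sdI i = sd →
      kl G.cls (side sd π) B (pt π i) = kl G.cls (side sd π) B' (pt π i) := by
    intro sd i hi hiL _
    have hpt : pt π (nx π B) ≤ pt π i := G5_pt_mono hp hi hiL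
    by_cases hsd : sd = sdI (nx π B)
    · subst hsd
      rw [kl_split _ hB (hlt.le.trans hpt)]
      apply max_eq_right
      rw [kl_split _ hlt.le hpt]
      apply le_max_of_le_left
      rw [← hkp']
      exact hk
    · have hsd' : sd = !sdI (nx π B) := by
        revert hsd
        cases sd <;> cases sdI (nx π B) <;> simp
      subst hsd'
      exact kl_eq_left hB hw
  have hgs : ∀ sd : Bool, G.gs π R sd B = G.gs π R sd B' := by
    intro sd
    unfold Gm.gs
    ext p
    constructor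
    · rintro ⟨i, h1, h2, h3, h4⟩
      exact ⟨i, hm ▸ h1, h2, h3, by rw [h4, key sd i h1 h2 h3]⟩
    · rintro ⟨i, h1, h2, h3, h4⟩
      exact ⟨i, hm ▸ h1, h2, h3, by rw [h4, key sd i (hm ▸ h1) h2 h3]⟩
  have hkp : G.kp π B = G.kp π B' := by
    have := key (sdI (nx π B)) (nx π B) le_rfl hL rfl
    rw [hkp']
    exact this
  have hpv : G.pv π R B = G.pv π R B' := by
    unfold Gm.pv
    rw [hm]
  have hnl : G.nl π R B = G.nl π R B' := by
    unfold Gm.nl
    rw [hm]
  unfold Gm.feat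
  rw [hpv, hnl, hkp, hgs true, hgs false, hm]

private theorem G5_mk (h1 : π ∈ G.All) (h2 : RS π) (h3 : nx π B' < pL π)
    (h4 : G.feat R π B' = q) (h5 : tr (side q.par π) B' = c) (h6 : tr (side (!q.par) π) B' = w) :
    π ∈ G.lf R q w c B' := ⟨h1, h2, h3, h4, h5, h6⟩

theorem lf_pos (h : π ∈ G.lf R q w c B) : tr (side q.par π) B = c ∧ tr (side (!q.par) π) B = w ∧
    (∃ n ∈ side q.par π, B < n ∧ ∀ m ∈ side (!q.par) π, B < m → n < m) ∧
    π.1.Pairwise (· < ·) ∧ π.2.Pairwise (· < ·) := by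
  have hp := lf_play h
  have hq := (lf_q h).1
  refine ⟨h.2.2.2.2.1, h.2.2.2.2.2, ?_, lf_inc h⟩
  rw [hq]
  exact act_first hp h.2.2.1

/-- no new number of the waiting side -/
private theorem G5_wait (h1 : π ∈ G.All) {sd : Bool} (hw : tr (side sd π) B = w)
    (hw' : tr (side sd π) B' = w) : ∀ n ∈ side sd π, n ≤ B' → n ≤ B := by
  intro n hn hnB
  have : n ∈ tr (side sd π) B' := (mem_tr (G5_side_inc h1 sd)).2 ⟨hn, hnB⟩
  rw [hw', ← hw] at this
  exact tr_le this

theorem lf_time (h : π ∈ G.lf R q w c B) (hB : B ≤ B') (hc : tr (side q.par π) B' = c) :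
    π ∈ G.lf R q w c B' := by
  have hp := lf_play h
  obtain ⟨h1, h2, ⟨n, hn, hBn, hnm⟩, -, -⟩ := lf_pos h
  obtain ⟨hall, hrs, hL, hf, -, -⟩ := h
  have hpar : q.par = sdI (nx π B) := by rw [← hf]; rfl
  have hact := G5_wait hall h1 hc
  have hnB' : B' < n := by
    by_contra hcon
    exact absurd (hact n hn (not_lt.1 hcon)) (not_le.2 hBn)
  have hwait : ∀ m ∈ side (!q.par) π, m ≤ B' → m ≤ B := by
    intro m hm hmB
    by_contra hcon
    have := hnm m hm (not_le.1 hcon)
    omega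
  have hptm : B' < pt π (nx π B) := by
    by_contra hcon
    have h3 : pt π (nx π B) ∈ side q.par π := by
      rw [hpar]
      exact pt_mem hp hL
    have h4 := hact _ h3 (not_lt.1 hcon)
    have h5 := lt_pt hp (le_refl (nx π B)) hL
    omega
  have hnx : nx π B' = nx π B := nx_eq hp (fun i hi => (((lt_nx hp).1 hi).2).trans hB) hL.le
    (fun _ => hptm)
  have hfe : G.feat R π B = G.feat R π B' := by
    apply feat_eq hp hB hnx.symm hL
    · rw [← hpar]
      exact hwait
    · rw [← hpar, kl_none hact]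
      exact kl_ge _ _ _
  refine G5_mk hall hrs (hnx ▸ hL) (hfe ▸ hf) hc ?_
  rw [tr_eq_of (G5_side_inc hall _) hB, h2]
  intro m hm hBm
  by_contra hcon
  have := hwait m hm (not_lt.1 hcon)
  omega

theorem lf_low (h : π ∈ G.lf R q w c B) (hs : s ≠ []) (hB : ∀ n ∈ s, B < n)
    (hk : clf G.cls s < q.kap) (hc : tr (side q.par π) B' = c ++ s)
    (hw : tr (side (!q.par) π) B' = w) : π ∈ G.lf R q w (c ++ s) B' := by
  have hp := lf_play h
  obtain ⟨h1, h2, -, -, -⟩ := lf_pos h
  obtain ⟨hpar, hkap, -⟩ := lf_q h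
  obtain ⟨hall, hrs, hL, hf, -, -⟩ := h
  have hcB : ∀ n ∈ c, n ≤ B := fun n hn => tr_le (x := side q.par π) (by rw [h1]; exact hn)
  have hBB : B < B' := by
    obtain ⟨n, hn⟩ := List.exists_mem_of_ne_nil s hs
    have : n ∈ tr (side q.par π) B' := by
      rw [hc]
      exact List.mem_append_right _ hn
    exact (hB n hn).trans_le (tr_le this)
  have hwait := G5_wait hall h2 hw
  have hkl : kl G.cls (side (sdI (nx π B)) π) B B' = clf G.cls s := by
    rw [← hpar]
    exact kl_tr (G5_side_inc hall _) hc hcB hB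
  have hptm : B' < pt π (nx π B) := by
    by_contra hcon
    have h5 := lt_pt hp (le_refl (nx π B)) hL
    have h6 := kl_split (cls := G.cls) (side (sdI (nx π B)) π) h5.le (not_lt.1 hcon)
    have h7 : G.kp π B ≤ clf G.cls s := by
      rw [← hkl, h6]
      exact le_max_left _ _
    rw [hkap] at hk
    exact absurd h7 (not_le.2 hk)
  have hnx : nx π B' = nx π B := nx_eq hp (fun i hi => (((lt_nx hp).1 hi).2).trans hBB.le) hL.le
    (fun _ => hptm)
  have hkB : G.kp π B = max (clf G.cls s) (G.kp π B') := by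
    have h6 := kl_split (cls := G.cls) (side (sdI (nx π B)) π) hBB.le hptm.le
    have h8 : G.kp π B' = kl G.cls (side (sdI (nx π B)) π) B' (pt π (nx π B)) := by
      unfold Gm.kp
      rw [hnx]
    rw [h8, ← hkl]
    exact h6
  have hfe : G.feat R π B = G.feat R π B' := by
    apply feat_eq hp hBB.le hnx.symm hL
    · rw [← hpar]
      exact hwait
    · rw [hkl]
      rcases le_total (clf G.cls s) (G.kp π B') with h9 | h9
      · exact h9
      · rw [max_eq_left h9] at hkB
        rw [hkap, hkB] at hk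
        exact absurd hk (lt_irrefl _)
  exact G5_mk hall hrs (hnx ▸ hL) (hfe ▸ hf) hc hw

theorem lf_thru (h : π ∈ G.lf R q w c B) (hs : ∀ n ∈ s, B < n) (hs' : s' ≠ [])
    (hk : clf G.cls s ≤ clf G.cls s') (hB : B ≤ B') (h1 : ∀ n ∈ c ++ s, n ≤ B')
    (h2 : ∀ n ∈ s', B' < n) (hc : tr (side q.par π) B'' = c ++ s ++ s')
    (hw : tr (side (!q.par) π) B'' = w) : π ∈ G.lf R q w (c ++ s) B' := by
  have hp := lf_play h
  obtain ⟨g1, g2, -, -, -⟩ := lf_pos h
  obtain ⟨hpar, hkap, -⟩ := lf_q h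
  obtain ⟨hall, hrs, hL, hf, -, -⟩ := h
  have hcB : ∀ n ∈ c, n ≤ B := fun n hn => tr_le (x := side q.par π) (by rw [g1]; exact hn)
  have hwB : ∀ n ∈ w, n ≤ B := fun n hn => tr_le (x := side (!q.par) π) (by rw [g2]; exact hn)
  have hBB : B' < B'' := by
    obtain ⟨n, hn⟩ := List.exists_mem_of_ne_nil s' hs'
    have : n ∈ tr (side q.par π) B'' := by
      rw [hc]
      exact List.mem_append_right _ hn
    exact (h2 n hn).trans_le (tr_le this)
  have hc' : tr (side q.par π) B' = c ++ s := by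
    rw [← tr_tr (side q.par π) hBB.le, hc]
    exact tr_append h1 h2
  have hw' : tr (side (!q.par) π) B' = w := by
    rw [← tr_tr (side (!q.par) π) hBB.le, hw]
    exact tr_self (fun n hn => (hwB n hn).trans hB)
  have hwait := G5_wait hall g2 hw
  have hblock : ∀ n ∈ side q.par π, n ≤ B'' → n ≤ pt π (nx π B) := by
    rw [hpar]
    apply act_block hp hL
    rw [← hpar]
    exact hwait
  have hs'mem : ∀ n ∈ s', n ∈ side q.par π ∧ B' < n ∧ n ≤ pt π (nx π B) := by
    intro n hn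
    have h3 : n ∈ tr (side q.par π) B'' := by
      rw [hc]
      exact List.mem_append_right _ hn
    obtain ⟨h4, h5⟩ := (mem_tr (G5_side_inc hall _)).1 h3
    exact ⟨h4, h2 n hn, hblock n h4 h5⟩
  have hptm : B' < pt π (nx π B) := by
    obtain ⟨n, hn⟩ := List.exists_mem_of_ne_nil s' hs'
    obtain ⟨-, h4, h5⟩ := hs'mem n hn
    omega
  have hnx : nx π B' = nx π B := nx_eq hp (fun i hi => (((lt_nx hp).1 hi).2).trans hB) hL.le
    (fun _ => hptm)
  have hkp' : G.kp π B' = kl G.cls (side q.par π) B' (pt π (nx π B)) := by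
    unfold Gm.kp
    rw [hnx, ← hpar]
  have hfe : G.feat R π B = G.feat R π B' := by
    apply feat_eq hp hB hnx.symm hL
    · rw [← hpar]
      intro n hn hnB
      exact hwait n hn (hnB.trans hBB.le)
    · rw [← hpar, kl_tr (G5_side_inc hall _) hc' hcB hs, hkp']
      refine hk.trans ((clf_le (kl_ge _ _ _)).2 (fun n hn => ?_))
      obtain ⟨h3, h4, h5⟩ := hs'mem n hn
      exact kl_mem_le h3 h4 h5
  exact G5_mk hall hrs (hnx ▸ hL) (hfe ▸ hf) hc' hw'

theorem lf_dead (h : π ∈ G.lf R q w c B) (hs : s ≠ []) (hB : ∀ n ∈ s, B < n)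
    (hc : tr (side q.par π) B' = c ++ s) (hw : tr (side (!q.par) π) B' = w) :
    clf G.cls s ≤ q.kap := by
  have hp := lf_play h
  obtain ⟨g1, g2, -, -, -⟩ := lf_pos h
  obtain ⟨hpar, hkap, -⟩ := lf_q h
  obtain ⟨hall, hrs, hL, hf, -, -⟩ := h
  have hwait := G5_wait hall g2 hw
  have hblock : ∀ n ∈ side q.par π, n ≤ B' → n ≤ pt π (nx π B) := by
    rw [hpar]
    apply act_block hp hL
    rw [← hpar]
    exact hwait
  have hk0 : ci 0 ≤ q.kap := by
    rw [hkap]
    exact kl_ge _ _ _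
  refine (clf_le hk0).2 (fun n hn => ?_)
  have h3 : n ∈ tr (side q.par π) B' := by
    rw [hc]
    exact List.mem_append_right _ hn
  obtain ⟨h4, h5⟩ := (mem_tr (G5_side_inc hall _)).1 h3
  rw [hkap]
  unfold Gm.kp
  rw [← hpar]
  exact kl_mem_le h4 (hB n hn) (hblock n h4 h5)

theorem lf_up (h : π ∈ G.lf R q w (c ++ s) B') (hc : ∀ n ∈ c, n ≤ B) (hw : ∀ n ∈ w, n ≤ B)
    (hs : ∀ n ∈ s, B < n) (hB : B ≤ B') (hk : clf G.cls s ≤ q.kap) : π ∈ G.lf R q w c B := by
  have hp := lf_play h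
  obtain ⟨g1, g2, -, -, -⟩ := lf_pos h
  obtain ⟨hpar, hkap, -⟩ := lf_q h
  obtain ⟨hall, hrs, hL, hf, -, -⟩ := h
  have hc' : tr (side q.par π) B = c := by
    rw [← tr_tr (side q.par π) hB, g1]
    exact tr_append hc hs
  have hw' : tr (side (!q.par) π) B = w := by
    rw [← tr_tr (side (!q.par) π) hB, g2]
    exact tr_self hw
  have hwait := G5_wait hall hw' g2
  have hptm : B < pt π (nx π B') := hB.trans_lt (lt_pt hp le_rfl hL)
  have hwpt : ∀ i, i < nx π B' → sdI i ≠ sdI (nx π B') → pt π i ≤ B := by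
    intro i hi hne
    obtain ⟨hiL, hiB⟩ := (lt_nx hp).1 hi
    apply hwait _ _ hiB
    have h3 := pt_mem hp hiL
    have h4 : sdI i = !q.par := by
      rw [hpar]
      revert hne
      cases sdI i <;> cases sdI (nx π B') <;> simp
    rw [← h4]
    exact h3
  have hnx : nx π B = nx π B' := by
    apply nx_eq hp _ hL.le (fun _ => hptm)
    intro i hi
    by_cases hne : sdI i = sdI (nx π B')
    · have h5 := sdI_eq.1 hne
      have h6 : i + 1 < nx π B' := by omega
      have h7 : sdI (i + 1) ≠ sdI (nx π B') := by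
        rw [sdI_succ, hne]
        cases sdI (nx π B') <;> simp
      exact ((hp.lt i (i + 1) (Nat.lt_succ_self i) (h6.trans hL)).le).trans (hwpt _ h6 h7)
    · exact hwpt i hi hne
  have hfe : G.feat R π B = G.feat R π B' := by
    apply feat_eq hp hB hnx (hnx ▸ hL)
    · rw [hnx, ← hpar]
      exact hwait
    · rw [hnx, ← hpar, kl_tr (G5_side_inc hall _) g1 hc hs, ← hkap]
      exact hk
  exact G5_mk hall hrs (hnx ▸ hL) (hfe.trans hf) hc' hw'

end MPb6M
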