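import Pool.Agent.Lib.MP_b6d339_lc.Mix.G0
import Pool.Agent.Lib.MP_b6d339_lc.Mix.A2
import Pool.Agent.Lib.MP_b6d339_lc.Mix.G1
import Pool.Agent.Lib.MP_b6d339_lc.Mix.G2
import Pool.Agent.Lib.MP_b6d339_lc.Mix.G3
import Pool.Agent.Lib.MP_b6d339_lc.Mix.G5

open Ordinal

namespace MPb6M

open MPb6P (Valid Compat plr stL)

/-! # G6: the common events (port of Eps/G6; new: `evU`) -/
variable {G : Gm} {R : Fin 3} {q : Ft G.td.T} {w c : Nd} {B B' B'' : ℕ} {s s' : List ℕ} {π : Pr}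

/-- an event of the side `sd` at time `B'` -/
def evA (G : Gm) (w : Nd) (sd : Bool) (c' : Nd) (B' : ℕ) : Set Pr :=
  {π | π ∈ G.All ∧ RS π ∧ (∃ i < pL π, pt π i = B' ∧ sdI i = sd) ∧ tr (side sd π) B' = c' ∧
    tr (side (!sd) π) B' = w}

/-- the next event of the (active) side `sd` has coarse class `h` relative to `c'` -/
def evB (G : Gm) (w : Nd) (sd : Bool) (h : ℕ) (c' : Nd) (B' : ℕ) : Set Pr :=
  {π | π ∈ G.All ∧ RS π ∧ nx π B' < pL π ∧ sdI (nx π B') = sd ∧ co (G.kp π B') = h ∧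
    tr (side sd π) B' = c' ∧ tr (side (!sd) π) B' = w}

/-- the future events of the side `sd` which have the coarse class `h` relative to time `B'` lie at
levels in `A` -/
def InLv (G : Gm) (sd : Bool) (h : ℕ) (A : Finset ℕ) (B' : ℕ) (π : Pr) : Prop :=
  ∀ i, nx π B' ≤ i → i < pL π → sdI i = sd → co (kl G.cls (side sd π) B' (pt π i)) = h →
    ∃ v ∈ A, kl G.cls (side sd π) B' (pt π i) = cf h v

theorem G6_leaf (h : π ∈ G.All) (sd : Bool) : G.Leaf (side sd π) := by
  cases sd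
  · exact h.2.1
  · exact h.1

/-- waiting side: nothing new between `B` and `B'` -/
theorem G6_wait {x : List ℕ} (hx : x.Pairwise (· < ·)) (h1 : tr x B = w)
    (h2 : tr x B' = w) : ∀ n ∈ x, n ≤ B' → n ≤ B := by
  intro n hn hle
  have h3 : n ∈ tr x B' := (mem_tr hx).2 ⟨hn, hle⟩
  rw [h2, ← h1] at h3
  exact tr_le h3

theorem G6_nx (hp : Play π.1 π.2 (pL π) (pt π)) (hm : nx π B < pL π) (hB : B ≤ B')
    (hB' : B' < pt π (nx π B)) : nx π B' = nx π B :=
  nx_eq hp (fun i hi => (((lt_nx hp).1 hi).2).trans hB) hm.le (fun _ => hB')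

theorem G6_nx' (hp : Play π.1 π.2 (pL π) (pt π)) (hm : nx π B < pL π)
    (hB' : pt π (nx π B) = B') : nx π B' = nx π B + 1 := by
  have hlt : B < B' := hB' ▸ lt_pt hp le_rfl hm
  refine nx_eq hp (fun i hi => ?_) hm (fun hL => ?_)
  · rcases Nat.lt_succ_iff_lt_or_eq.1 hi with h | h
    · exact (((lt_nx hp).1 h).2).trans hlt.le
    · rw [h, hB']
  · rw [← hB']
    exact hp.lt _ _ (Nat.lt_succ_self _) hL

/-- the active side at time `B'` does not go beyond the event -/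
theorem G6_le (h : π ∈ G.lf R q w c B) (hw : tr (side (!q.par) π) B' = w)
    (hb : B' ∈ side q.par π) : B' ≤ pt π (nx π B) := by
  have hp := lf_play h
  have hq := lf_q h
  have h' := h
  obtain ⟨hall, hr, hm, hf, hc, hw0⟩ := h'
  have hx := G6_leaf hall (!q.par)
  have h1 := G6_wait hx.inc hw0 hw
  rw [hq.1] at h1 hb
  exact act_block hp hm h1 B' hb le_rfl


/-- a class above `ci 0` is attained -/
theorem G6_att {x : List ℕ} {B B' : ℕ} (h : ci 0 < kl G.cls x B B') :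
    ∃ m ∈ x, B < m ∧ m ≤ B' ∧ kl G.cls x B B' = G.cls m := by
  by_cases hx : ∀ n ∈ x, n ≤ B' → n ≤ B
  · rw [kl_none hx] at h
    exact absurd h (lt_irrefl _)
  · push Not at hx
    obtain ⟨n, h1, h2, h3⟩ := hx
    exact kl_mem G.cls_pos h1 h3 h2

/-- a class which is attained is at least `ci 1` -/
theorem G6_one {x : List ℕ} {B B' : ℕ} (h : ci 0 < kl G.cls x B B') : ci 1 ≤ kl G.cls x B B' := by
  obtain ⟨m, -, -, -, hm⟩ := G6_att h
  rw [hm]
  have hd := G.hd
  rcases G.cls_ok m with ⟨j, h1, -, h3⟩ | ⟨f, i, h1, -, h3⟩ | h3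
  · rw [h3]
    exact ci_le.2 h1
  · rw [h3]
    refine (lt_of_co ?_).le
    show 1 < f
    omega
  · rw [h3]
    exact ci_le.2 (by omega)

/-- coarse classes `j ≤ d` have only one refined class -/
theorem G6_ci {x : List ℕ} {B B' j : ℕ} (h : ci 0 < kl G.cls x B B') (hj : j ≤ G.d)
    (hco : co (kl G.cls x B B') = j) : kl G.cls x B B' = ci j := by
  obtain ⟨m, -, -, -, hm⟩ := G6_att h
  rw [hm] at hco ⊢
  have hdD := G.hdD
  rcases G.cls_ok m with ⟨j', h1, -, h3⟩ | ⟨f, i, h1, -, h3⟩ | h3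
  · rw [h3] at hco ⊢
    have : j' = j := hco
    rw [this]
  · rw [h3] at hco
    have : f = j := hco
    omega
  · rw [h3] at hco
    have : G.D + 2 = j := hco
    omega

theorem ev_one (hk : q.kap = ci 1) (h : π ∈ G.lf R q w c B) (hs : s ≠ []) (hB : ∀ n ∈ s, B < n)
    (hcl : clf G.cls s = ci 1) (hc : tr (side q.par π) B' = c ++ s)
    (hw : tr (side (!q.par) π) B' = w) (hB' : B' = lastN (c ++ s)) :
    π ∈ evA G w q.par (c ++ s) B' ∨ π ∈ G.lf R q w (c ++ s) B' := by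
  have hp := lf_play h
  have hq := lf_q h
  have h' := h
  obtain ⟨hall, hr, hm, hf, hc0, hw0⟩ := h'
  have hbs : B' ∈ s := hB' ▸ lastN_mem hs
  have hlt : B < B' := hB _ hbs
  have hbx : B' ∈ side q.par π := by
    apply (tr_prefix _ B').subset
    rw [hc]
    exact List.mem_append_right _ hbs
  have hle := G6_le h hw hbx
  rcases hle.lt_or_eq with hl | he
  · right
    have hn := G6_nx hp hm hlt.le hl
    have hxi : (side q.par π).Pairwise (· < ·) := (G6_leaf hall _).inc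
    have hk1 : kl G.cls (side (sdI (nx π B)) π) B B' = ci 1 := by
      rw [← hq.1, kl_tr hxi hc (fun n hn => tr_le (hc0 ▸ hn)) hB, hcl]
    have hk2 : ci 1 ≤ G.kp π B' := by
      unfold Gm.kp
      rw [hn]
      exact G6_one (kl_pos hall hr hm hl)
    have hw1 := G6_wait (G6_leaf hall (!q.par)).inc hw0 hw
    rw [hq.1] at hw1
    have hfe := feat_eq hp hlt.le hn.symm hm hw1 (hk1.le.trans hk2) R
    exact ⟨hall, hr, hn ▸ hm, hfe ▸ hf, hc, hw⟩
  · left
    exact ⟨hall, hr, ⟨nx π B, hm, he.symm, hq.1.symm⟩, hc, hw⟩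

/-- the times and nodes of a pair of the line through `c ++ s ++ s'` -/
theorem G6_two (h : π ∈ G.lf R q w c B) (hs : s ≠ []) (hB : ∀ n ∈ s, B < n)
    (hs' : s' ≠ []) (hB' : B' = lastN (c ++ s)) (hB2 : ∀ n ∈ s', B' < n)
    (hc : tr (side q.par π) B'' = c ++ s ++ s') (hw : tr (side (!q.par) π) B'' = w)
    (hB3 : B'' = lastN (c ++ s ++ s')) :
    B < B' ∧ B' < B'' ∧ B'' ≤ pt π (nx π B) ∧ nx π B' = nx π B ∧ tr (side q.par π) B' = c ++ s ∧
      tr (side (!q.par) π) B' = w ∧ kl G.cls (side (sdI (nx π B)) π) B B' = clf G.cls s ∧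
      kl G.cls (side (sdI (nx π B)) π) B' B'' = clf G.cls s' ∧
      q.kap = kl G.cls (side (sdI (nx π B)) π) B (pt π (nx π B)) ∧
      G.kp π B' = kl G.cls (side (sdI (nx π B)) π) B' (pt π (nx π B)) := by
  have hp := lf_play h
  have hq := lf_q h
  have h' := h
  obtain ⟨hall, hr, hm, hf, hc0, hw0⟩ := h'
  have hxi : (side q.par π).Pairwise (· < ·) := (G6_leaf hall _).inc
  have hbs : B' ∈ s := hB' ▸ lastN_mem hs
  have hlt : B < B' := hB _ hbs
  have hbs2 : B'' ∈ s' := hB3 ▸ lastN_mem hs'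
  have hlt2 : B' < B'' := hB2 _ hbs2
  have hbx : B'' ∈ side q.par π := by
    apply (tr_prefix _ B'').subset
    rw [hc]
    exact List.mem_append_right _ hbs2
  have hle := G6_le h hw hbx
  have hl : B' < pt π (nx π B) := hlt2.trans_le hle
  have hn := G6_nx hp hm hlt.le hl
  have hinc : (c ++ s).Pairwise (· < ·) := by
    have h1 : (c ++ s ++ s').Pairwise (· < ·) := by
      rw [← hc]
      exact List.Pairwise.sublist (tr_prefix _ _).sublist hxi
    exact (List.pairwise_append.1 h1).1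
  have hcs : ∀ n ∈ c ++ s, n ≤ B' := by
    rw [hB']
    exact le_lastN hs hinc
  have hc1 : tr (side q.par π) B' = c ++ s := by
    rw [← tr_tr _ hlt2.le, hc]
    exact tr_append hcs hB2
  have hw1 : tr (side (!q.par) π) B' = w := by
    rw [← tr_tr _ hlt2.le, hw]
    refine tr_self (fun n hn => ?_)
    rw [← hw0] at hn
    exact (tr_le hn).trans hlt.le
  refine ⟨hlt, hlt2, hle, hn, hc1, hw1, ?_, ?_, hq.2.1, ?_⟩
  · rw [← hq.1, kl_tr hxi hc1 (fun n hn => tr_le (hc0 ▸ hn)) hB]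
  · rw [← hq.1, kl_tr hxi hc hcs hB2]
  · unfold Gm.kp
    rw [hn]

/-- `kap = ci j`, `2 ≤ j ≤ d`. With `m = nx π B`: `pt π m ≥ B''`, `co (kp π B') ≥ j - 1`. If it is
`j - 1`: `evB`. Otherwise it is `j`; then `pt π m > B''` and `kl B'' (pt m) = ci j`; all classes are
unchanged (`feat_eq`). (Coarse classes `1..d` have only one refined class, `cls_ok`.) -/
theorem ev_big {j : ℕ} (hj : 2 ≤ j) (hjd : j ≤ G.d) (hk : q.kap = ci j) (h : π ∈ G.lf R q w c B)
    (hs : s ≠ []) (hB : ∀ n ∈ s, B < n) (hcl : clf G.cls s = ci j) (hs' : s' ≠ [])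
    (hcl' : clf G.cls s' = ci (j - 1)) (hB' : B' = lastN (c ++ s)) (hB2 : ∀ n ∈ s', B' < n)
    (hc : tr (side q.par π) B'' = c ++ s ++ s') (hw : tr (side (!q.par) π) B'' = w)
    (hB3 : B'' = lastN (c ++ s ++ s')) :
    π ∈ evB G w q.par (j - 1) (c ++ s) B' ∨ π ∈ G.lf R q w (c ++ s ++ s') B'' := by
  have hp := lf_play h
  have hq := lf_q h
  have h' := h
  obtain ⟨hall, hr, hm, hf, hc0, hw0⟩ := h'
  obtain ⟨hlt, hlt2, hle, hn, hc1, hw1, hkB, hkB2, hkp, hkp1⟩ :=
    G6_two h hs hB hs' hB' hB2 hc hw hB3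
  have hl : B' < pt π (nx π B) := hlt2.trans_le hle
  have hs1 := kl_split (cls := G.cls) (side (sdI (nx π B)) π) hlt.le hl.le
  have hs2 := kl_split (cls := G.cls) (side (sdI (nx π B)) π) hlt2.le hle
  have hs3 := kl_split (cls := G.cls) (side (sdI (nx π B)) π) (hlt.le.trans hlt2.le) hle
  rw [← hkp, hk] at hs1 hs3
  rw [hkB2, hcl'] at hs2
  by_cases hkk : co (G.kp π B') = j - 1
  · left
    exact ⟨hall, hr, hn ▸ hm, by rw [hn, hq.1], hkk, hc1, hw1⟩
  · right
    have hK1 : kl G.cls (side (sdI (nx π B)) π) B' (pt π (nx π B)) ≤ ci j := by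
      rw [hs1]
      exact le_max_right _ _
    have hco1 : co (kl G.cls (side (sdI (nx π B)) π) B' (pt π (nx π B))) ≤ j := co_mono hK1
    have hco2 : co (kl G.cls (side (sdI (nx π B)) π) B' (pt π (nx π B))) =
        max (j - 1) (co (kl G.cls (side (sdI (nx π B)) π) B'' (pt π (nx π B)))) := by
      rw [hs2, co_max]
      rfl
    rw [hkp1] at hkk
    have hco3 : co (kl G.cls (side (sdI (nx π B)) π) B'' (pt π (nx π B))) = j := by
      omega
    have hpos : ci 0 < kl G.cls (side (sdI (nx π B)) π) B'' (pt π (nx π B)) := by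
      apply lt_of_co
      rw [hco3]
      show 0 < j
      omega
    have hk3 := G6_ci hpos hjd hco3
    have hlt3 : B'' < pt π (nx π B) := by
      rcases hle.lt_or_eq with hl3 | he3
      · exact hl3
      · exfalso
        rw [← he3, kl_none (fun n _ hh => hh)] at hpos
        exact lt_irrefl _ hpos
    have hn3 := G6_nx hp hm (hlt.le.trans hlt2.le) hlt3
    have hw3 := G6_wait (G6_leaf hall (!q.par)).inc hw0 hw
    rw [hq.1] at hw3
    have hkp3 : G.kp π B'' = kl G.cls (side (sdI (nx π B)) π) B'' (pt π (nx π B)) := by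
      unfold Gm.kp
      rw [hn3]
    have hfe := feat_eq hp (hlt.le.trans hlt2.le) hn3.symm hm hw3 (by
      rw [hkp3, hk3, hs3]
      exact le_max_left _ _) R
    exact ⟨hall, hr, hn3 ▸ hm, hfe ▸ hf, hc, hw⟩

/-- `kap = cf f i`, `f` finite: a pair of the line through `c ++ s ++ s'` (new parts: `s` of class
`cf f i`, `s'` of coarse class `f - 1`) has its next event at coarse class exactly `f - 1` relative to
`c ++ s`: it is at least the class of `s'`, and `< f` by `kl_dec`. -/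
theorem ev_fin {f i : ℕ} (hf : G.d < f) (hk : q.kap = cf f i) (h : π ∈ G.lf R q w c B)
    (hs : s ≠ []) (hB : ∀ n ∈ s, B < n) (hcl : clf G.cls s = cf f i) (hs' : s' ≠ [])
    (hcl' : co (clf G.cls s') + 1 = f) (hB' : B' = lastN (c ++ s)) (hB2 : ∀ n ∈ s', B' < n)
    (hc : tr (side q.par π) B'' = c ++ s ++ s') (hw : tr (side (!q.par) π) B'' = w)
    (hB3 : B'' = lastN (c ++ s ++ s')) :
    π ∈ evB G w q.par (f - 1) (c ++ s) B' := by
  have hq := lf_q h
  have h' := h
  obtain ⟨hall, hr, hm, hff, hc0, hw0⟩ := h'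
  obtain ⟨hlt, hlt2, hle, hn, hc1, hw1, hkB, hkB2, hkp, hkp1⟩ :=
    G6_two h hs hB hs' hB' hB2 hc hw hB3
  have hl : B' < pt π (nx π B) := hlt2.trans_le hle
  have hs2 := kl_split (cls := G.cls) (side (sdI (nx π B)) π) hlt2.le hle
  have h1 := kl_dec (G6_leaf hall (sdI (nx π B))) hf hlt.le hl.le (hkB.trans hcl) (hkp.symm.trans hk)
  have h2 : co (clf G.cls s') ≤ co (kl G.cls (side (sdI (nx π B)) π) B' (pt π (nx π B))) := by
    rw [hs2, hkB2]
    exact co_mono (le_max_left _ _)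
  refine ⟨hall, hr, hn ▸ hm, by rw [hn, hq.1], ?_, hc1, hw1⟩
  rw [hkp1]
  omega

/-- an event at time `B'`, the waiting node is still the same: it is the event `nx π B` -/
theorem ev_idx (h : π ∈ G.lf R q w c B) {c' : Nd} (he : π ∈ evA G w q.par c' B') (hB : B < B') :
    pt π (nx π B) = B' := by
  have hp := lf_play h
  have hq := lf_q h
  obtain ⟨-, -, ⟨i, hi, hit, his⟩, hc', hw'⟩ := he
  have hbx : B' ∈ side q.par π := by
    rw [← his, ← hit]
    exact pt_mem hp hi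
  have hle := G6_le h hw' hbx
  have h1 : nx π B ≤ i := by
    by_contra hcon
    have := ((lt_nx hp).1 (not_le.1 hcon)).2
    omega
  rcases h1.lt_or_eq with h2 | h2
  · have := hp.lt _ _ h2 hi
    omega
  · rw [h2, hit]

/-- a leaf has been reached, the waiting node is still the same -/
theorem ev_leaf (h : π ∈ G.lf R q w c B) {c' : Nd} (hc : tr (side q.par π) B' = c')
    (hl : clf G.cls c' = ci (G.D + 2)) (hw : tr (side (!q.par) π) B' = w) (hB : B < B')
    (hB' : B' ∈ c') : pt π (nx π B) = B' ∧ side q.par π = c' := by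
  have hp := lf_play h
  have hq := lf_q h
  have h' := h
  obtain ⟨hall, hr, hm, hf, hc0, hw0⟩ := h'
  have hx := G6_leaf hall q.par
  have h1 : tr (side q.par π) B' = side q.par π := tr_leaf hx (by rw [hc, hl])
  have h2 : side q.par π = c' := by rw [← h1, hc]
  have hbx : B' ∈ side q.par π := by rw [h2]; exact hB'
  refine ⟨le_antisymm ?_ (G6_le h hw hbx), h2⟩
  have h3 := pt_mem hp hm
  rw [← hq.1, ← h1] at h3
  exact tr_le h3

/-- the data after the event `m = nx π B` at time `B'` -/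
theorem exec_data (hp : Play π.1 π.2 (pL π) (pt π)) (hall : π ∈ G.All) (hr : RS π)
    (hm : nx π B < pL π) (hB' : pt π (nx π B) = B') (R : Fin 3) :
    nx π B' = nx π B + 1 ∧ G.pv π R B' = G.nl π R B ∧
    G.gs π R (!sdI (nx π B)) B' = G.gs π R (!sdI (nx π B)) B ∧
    G.gs π R (sdI (nx π B)) B' = {p | ∃ i, nx π B < i ∧ i < pL π ∧ sdI i = sdI (nx π B) ∧
      p = (kl G.cls (side (sdI (nx π B)) π) B' (pt π i), G.lb π R i)} := by
  have hn := G6_nx' hp hm hB'
  have hlt : B < B' := hB' ▸ lt_pt hp le_rfl hm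
  have hwt : ∀ n ∈ side (!sdI (nx π B)) π, n ≤ B' → n ≤ B := by
    rw [← hB']
    exact wait_none hp hm
  have hne : ∀ b : Bool, b ≠ !b := by decide
  refine ⟨hn, ?_, ?_, ?_⟩
  · unfold Gm.pv Gm.nl
    rw [hn]
    simp
  · unfold Gm.gs
    rw [hn]
    ext p
    constructor
    · rintro ⟨i, h1, h2, h3, h4⟩
      exact ⟨i, by omega, h2, h3, by rw [h4, kl_eq_left hlt.le hwt]⟩
    · rintro ⟨i, h1, h2, h3, h4⟩
      refine ⟨i, ?_, h2, h3, by rw [h4, kl_eq_left hlt.le hwt]⟩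
      rcases h1.lt_or_eq with h5 | h5
      · exact h5
      · rw [← h5] at h3
        exact absurd h3 (hne _)
  · unfold Gm.gs
    rw [hn]
    ext p
    constructor
    · rintro ⟨i, h1, h2, h3, h4⟩
      exact ⟨i, by omega, h2, h3, h4⟩
    · rintro ⟨i, h1, h2, h3, h4⟩
      exact ⟨i, by omega, h2, h3, h4⟩

/-- the data after the opening -/
theorem open_data (hp : Play π.1 π.2 (pL π) (pt π)) (hall : π ∈ G.All) (hr : RS π)
    (hm : nx π B < pL π) (hB : B ≤ B') (hB' : B' < pt π (nx π B)) (R : Fin 3) :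
    nx π B' = nx π B ∧ G.pv π R B' = G.pv π R B ∧ G.nl π R B' = G.nl π R B ∧
    G.gs π R (!sdI (nx π B)) B' = G.gs π R (!sdI (nx π B)) B ∧
    G.gs π R (sdI (nx π B)) B' = {p | ∃ i, nx π B ≤ i ∧ i < pL π ∧ sdI i = sdI (nx π B) ∧
      p = (max (G.kp π B')
        (kl G.cls (side (sdI (nx π B)) π) (pt π (nx π B)) (pt π i)), G.lb π R i)} := by
  have hn := G6_nx hp hm hB hB'
  have hwt : ∀ n ∈ side (!sdI (nx π B)) π, n ≤ B' → n ≤ B :=
    fun n h1 h2 => wait_none hp hm n h1 (h2.trans hB'.le)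
  refine ⟨hn, ?_, ?_, ?_, ?_⟩
  · unfold Gm.pv
    rw [hn]
  · unfold Gm.nl
    rw [hn]
  · unfold Gm.gs
    rw [hn]
    ext p
    constructor
    · rintro ⟨i, h1, h2, h3, h4⟩
      exact ⟨i, h1, h2, h3, by rw [h4, kl_eq_left hB hwt]⟩
    · rintro ⟨i, h1, h2, h3, h4⟩
      exact ⟨i, h1, h2, h3, by rw [h4, kl_eq_left hB hwt]⟩
  · have key : ∀ i, nx π B ≤ i → i < pL π → sdI i = sdI (nx π B) →
        kl G.cls (side (sdI (nx π B)) π) B' (pt π i) =
          max (G.kp π B') (kl G.cls (side (sdI (nx π B)) π) (pt π (nx π B)) (pt π i)) := by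
      intro i h1 h2 h3
      have h4 : pt π (nx π B) ≤ pt π i := by
        rcases h1.lt_or_eq with h5 | h5
        · exact (hp.lt _ _ h5 h2).le
        · rw [← h5]
      rw [kl_split _ hB'.le h4]
      unfold Gm.kp
      rw [hn]
    unfold Gm.gs
    rw [hn]
    ext p
    constructor
    · rintro ⟨i, h1, h2, h3, h4⟩
      exact ⟨i, h1, h2, h3, by rw [h4, key i h1 h2 h3]⟩
    · rintro ⟨i, h1, h2, h3, h4⟩
      exact ⟨i, h1, h2, h3, by rw [h4, key i h1 h2 h3]⟩

end MPb6M
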