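import Pool.Agent.Lib.MP_b6d339_lc.Mix.G0
import Pool.Agent.Lib.MP_b6d339_lc.Mix.A2
import Pool.Agent.Lib.MP_b6d339_lc.Mix.G1
import Pool.Agent.Lib.MP_b6d339_lc.Mix.G2
import Pool.Agent.Lib.MP_b6d339_lc.Mix.G3
import Pool.Agent.Lib.MP_b6d339_lc.Mix.G4
import Pool.Agent.Lib.MP_b6d339_lc.Mix.G6
import Pool.Agent.Lib.MP_b6d339_lc.Mix.C1
import Pool.Agent.Lib.MP_b6d339_lc.Mix.C2

open Ordinal

namespace MPb6M

open MPb6P (Valid Compat plr stL)

/-! # C3: a common event of two runs has been executed (port of Eps/C3) -/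
variable {G : Gm} {B B' : ℕ} {e e' : Fin 3 → Nd} {w w' : Fin 3 → Pr} {t0 : G.td.T}

/-- the run `X` is continued with the same feature (or it is finished) -/
def Keep (G : Gm) (X : Fin 3) (π π' : Pr) (B B' : ℕ) : Prop :=
  π' ∈ G.All ∧ RS π' ∧ ((nx π B = pL π ∧ π' = π) ∨
    (nx π B < pL π ∧ nx π' B' < pL π' ∧ G.feat X π' B' = G.feat X π B))

/-- Common hypotheses of the steps: `R` = run with the smallest label, `R'` = the other run of the
active player; `w'` = new witnesses at time `B' ≥ B`, with the same features at time `B` (`R`, `R'`). -/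
structure CS (G : Gm) (B B' : ℕ) (e e' : Fin 3 → Nd) (w w' : Fin 3 → Pr) (t0 : G.td.T)
    (R R' : Fin 3) (sd' : Bool) : Prop where
  tc : TC G B e w t0
  lt : B < B'
  mn : Mn G w B R
  o : orr R (ac w B R) = (R', sd')
  all : ∀ X, w' X ∈ G.All ∧ RS (w' X)
  fR : nx (w' R) B < pL (w' R) ∧ G.feat R (w' R) B = G.feat R (w R) B
  fR' : nx (w' R') B < pL (w' R') ∧ G.feat R' (w' R') B = G.feat R' (w R') B
  keep : ∀ X, X ≠ R → X ≠ R' → Keep G X (w X) (w' X) B B'
  nd : ∀ X sd, tr (side sd (w' X)) B' = e' (pl X sd)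

/-- same feature: same data -/
theorem feat_data {X : Fin 3} {π π' : Pr} (h : G.feat X π' B' = G.feat X π B) :
    G.td.tmpl (G.wd π') = G.td.tmpl (G.wd π) ∧ sdI (nx π' B') = sdI (nx π B) ∧
    G.pv π' X B' = G.pv π X B ∧ G.nl π' X B' = G.nl π X B ∧ G.kp π' B' = G.kp π B ∧
    (∀ sd, G.gs π' X sd B' = G.gs π X sd B) ∧ G.ms π' X (nx π' B') = G.ms π X (nx π B) := by
  unfold Gm.feat at h
  injection h with h1 h2 h3 h4 h5 h6 h7 h8
  refine ⟨h1, h2, h3, h4, h5, fun sd => ?_, h8⟩
  cases sd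
  · exact h7
  · exact h6

private theorem C3_one (G : Gm) (n : ℕ) : ci 1 ≤ G.cls n := by
  rcases G.cls_ok n with ⟨j, hj, _, e⟩ | ⟨f, i, hf, _, e⟩ | e
  · rw [e]
    exact ci_le.2 hj
  · rw [e]
    refine (lt_of_co ?_).le
    show 1 < f
    have := G.hd
    omega
  · rw [e]
    exact ci_le.2 (by omega)

/-- after the execution of an event of class `ci 1` or `ci (D + 2)` nothing new appears -/
private theorem C3_sub {π : Pr} (hall : π ∈ G.All) (hr : RS π) (hm : nx π B < pL π)
    (hB' : pt π (nx π B) = B') (hk : G.kp π B = ci 1 ∨ G.kp π B = ci (G.D + 2)) (X : Fin 3)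
    (sx : Bool) : G.gs π X sx B' ⊆ G.gs π X sx B := by
  have hp := play_spec hall hr
  obtain ⟨hn, hpv, hgo, hgs⟩ := exec_data hp hall hr hm hB' X
  have hBB' : B < B' := by
    rw [← hB']
    exact lt_pt hp le_rfl hm
  by_cases hsx : sx = sdI (nx π B)
  · subst hsx
    rw [hgs]
    rintro p ⟨i, hi1, hi2, hi3, rfl⟩
    have hlt : B' < pt π i := by
      rw [← hB']
      exact hp.lt _ _ hi1 hi2
    rcases hk with hk | hk
    · refine ⟨i, hi1.le, hi2, hi3, ?_⟩
      have hs : kl G.cls (side (sdI (nx π B)) π) B (pt π i) =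
          max (kl G.cls (side (sdI (nx π B)) π) B B')
            (kl G.cls (side (sdI (nx π B)) π) B' (pt π i)) := kl_split _ hBB'.le hlt.le
      have h1 : kl G.cls (side (sdI (nx π B)) π) B B' = ci 1 := by
        rw [← hk]
        unfold Gm.kp
        rw [hB']
      have hmem : pt π i ∈ side (sdI (nx π B)) π := by
        rw [← hi3]
        exact pt_mem hp hi2
      have h2 : ci 1 ≤ kl G.cls (side (sdI (nx π B)) π) B' (pt π i) :=
        (C3_one G _).trans (kl_mem_le hmem hlt le_rfl)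
      rw [hs, h1, max_eq_right h2]
    · exfalso
      have h1 := (kl_fin hall hr hm (by rw [hB']; exact hBB')).1 hk
      have h2 := sdI_eq.1 hi3
      omega
  · have h3 : sx = !sdI (nx π B) := by
      cases sx <;> cases h : sdI (nx π B) <;> simp_all
    subst h3
    rw [hgo]

private theorem C3_keep {X : Fin 3} {π π' : Pr} (hB : B ≤ B') (hk : Keep G X π π' B B') :
    G.td.tmpl (G.wd π') = G.td.tmpl (G.wd π) ∧ G.pv π' X B' = G.pv π X B ∧
    (nx π' B' < pL π' → nx π B < pL π ∧ G.nl π' X B' = G.nl π X B) ∧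
    ∀ sx, G.gs π' X sx B' ⊆ G.gs π X sx B := by
  obtain ⟨ha, hr, ⟨hf, he⟩ | ⟨hf, hf', hfe⟩⟩ := hk
  · subst he
    have hn : nx π' B' = pL π' := le_antisymm (nx_le B') (hf ▸ nx_mono hB)
    refine ⟨rfl, ?_, ?_, ?_⟩
    · unfold Gm.pv
      rw [hn, hf]
    · intro hh
      omega
    · rintro sx p ⟨i, hi, hi2, _⟩
      omega
  · obtain ⟨h1, h2, h3, h4, h5, h6, h7⟩ := feat_data hfe
    exact ⟨h1, h3, fun _ => ⟨hf, h4⟩, fun sx => (h6 sx).le⟩

/-- the label of a common event is unique -/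
private theorem C3_uniq {R R' : Fin 3} (hRR : R ≠ R') {π π' : Pr} (ha : π ∈ G.All) (hr : RS π)
    (ha' : π' ∈ G.All) (hr' : RS π') (ht : G.td.tmpl (G.wd π) = G.td.tmpl (G.wd π')) {m m' : ℕ}
    (hm : m < pL π) (hm' : m' < pL π') (hl : G.lb π R m = G.lb π' R' m') :
    (∀ i, m < i → i < pL π → G.lb π R m < G.lb π R i) ∧
    ∀ i, m' < i → i < pL π' → G.lb π R m < G.lb π' R' i := by
  have hc := G.td.comp _ _ (valid_wd ha hr) (valid_wd ha' hr') ht
  obtain ⟨-, h2, h3, -⟩ := hc.common R R' hRR m (by rw [wd_length]; exact hm) m'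
    (by rw [wd_length]; exact hm') hl
  constructor
  · intro i hi hi2
    refine lt_of_le_of_ne (lb_mono ha hr R hi.le hi2) ?_
    intro he
    have := h2 i (by rw [wd_length]; exact hi2) he.symm
    omega
  · intro i hi hi2
    rw [hl]
    refine lt_of_le_of_ne (lb_mono ha' hr' R' hi.le hi2) ?_
    intro he
    have := h3 i (by rw [wd_length]; exact hi2) he.symm
    omega

/-- **Stop or finish.** The labels of the next events of `R`, `R'` agree, their classes are `ci 1` or
`ci (D + 2)` and both events are executed at time `B'`. Use `exec_data` for `w' R`, `w' R'` (their data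
at time `B` by `feat_data`); `tc_common_lt` applies to `w'` as well (the uniqueness comes from
`Compat.common`, which holds for all words with the template `t0`). `i2` for the player of the event
between `R` and `R'`: NO hosting is needed: if the class is `ci 1`, then for later events `i` of this
player `kl B (pt i) = max (ci 1) (kl B' (pt i)) = kl B' (pt i)` (`kl_split`, `kl_pos` and `cls_ok`: a
class `> ci 0` is `≥ ci 1`), so it is the old `i2`; if the class is `ci (D + 2)`, there are no later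
events of this player (`kl_fin`). All other instances of `i2` are inherited (`gs` unchanged). -/
theorem tc_exec {R R' : Fin 3} {sd' : Bool} (h : CS G B B' e e' w w' t0 R R' sd')
    (hl : G.nl (w R') R' B = G.nl (w R) R B)
    (hk : G.kp (w R) B = ci 1 ∨ G.kp (w R) B = ci (G.D + 2))
    (h1 : pt (w' R) (nx (w' R) B) = B') (h2 : pt (w' R') (nx (w' R') B) = B') :
    TC G B' e' w' t0 ∧ ∀ X, Pd w' B' X → G.nl (w R) R B < G.nl (w' X) X B' := by
  obtain ⟨hPd', hac, hkle, hkfin, hkeq, hthird⟩ := tc_active h.tc h.mn h.o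
  have hRR' : R ≠ R' := by
    have h3 := (orr_pl R (ac w B R)).1
    rw [h.o] at h3
    exact fun e => h3 e.symm
  have hkk := hkeq hl
  obtain ⟨ht1, ht2, ht3, ht4, ht5, ht6, -⟩ := feat_data h.fR.2
  obtain ⟨hu1, hu2, hu3, hu4, hu5, hu6, -⟩ := feat_data h.fR'.2
  have hp := play_spec (h.all R).1 (h.all R).2
  have hp' := play_spec (h.all R').1 (h.all R').2
  obtain ⟨hn, hpv, -, -⟩ := exec_data hp (h.all R).1 (h.all R).2 h.fR.1 h1 R
  obtain ⟨hn', hpv', -, -⟩ := exec_data hp' (h.all R').1 (h.all R').2 h.fR'.1 h2 R'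
  have htm : G.td.tmpl (G.wd (w' R)) = G.td.tmpl (G.wd (w' R')) := by
    rw [ht1, hu1, h.tc.tm, h.tc.tm]
  have hlb : G.lb (w' R) R (nx (w' R) B) = G.lb (w' R') R' (nx (w' R') B) := by
    show G.nl (w' R) R B = G.nl (w' R') R' B
    rw [ht4, hu4, hl]
  obtain ⟨hq1, hq2⟩ := C3_uniq hRR' (h.all R).1 (h.all R).2 (h.all R').1 (h.all R').2 htm h.fR.1
    h.fR'.1 hlb
  have hlR : G.lb (w' R) R (nx (w' R) B) = G.nl (w R) R B := ht4
  rw [hlR] at hq1 hq2
  have keyn : ∀ X, Pd w' B' X → G.nl (w R) R B < G.nl (w' X) X B' := by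
    intro X hX
    by_cases hXR : X = R
    · subst hXR
      unfold Pd at hX
      unfold Gm.nl
      rw [hn] at hX ⊢
      exact hq1 _ (Nat.lt_succ_self _) hX
    · by_cases hXR' : X = R'
      · subst hXR'
        unfold Pd at hX
        have h3 : G.nl (w' X) X B' = G.lb (w' X) X (nx (w' X) B + 1) := by
          unfold Gm.nl
          rw [hn']
        rw [hn'] at hX
        rw [h3]
        exact hq2 _ (Nat.lt_succ_self _) hX
      · obtain ⟨-, -, h3, -⟩ := C3_keep h.lt.le (h.keep X hXR hXR')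
        obtain ⟨h4, h5⟩ := h3 hX
        rw [h5]
        exact hthird X hXR hXR' h4
  have keyp : ∀ X, X = R ∨ X = R' → G.pv (w' X) X B' = G.nl (w R) R B := by
    rintro X (rfl | rfl)
    · rw [hpv, ht4]
    · rw [hpv', hu4, hl]
  have keyg : ∀ X sx, G.gs (w' X) X sx B' ⊆ G.gs (w X) X sx B := by
    intro X sx
    by_cases hXR : X = R
    · subst hXR
      rw [← ht6 sx]
      exact C3_sub (h.all X).1 (h.all X).2 h.fR.1 h1 (by rw [ht5]; exact hk) X sx
    · by_cases hXR' : X = R'
      · subst hXR'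
        rw [← hu6 sx]
        exact C3_sub (h.all X).1 (h.all X).2 h.fR'.1 h2 (by rw [hu5, hkk]; exact hk) X sx
      · exact (C3_keep h.lt.le (h.keep X hXR hXR')).2.2.2 sx
  refine ⟨⟨fun X => (h.all X).1, fun X => (h.all X).2, ?_, h.nd, ?_, ?_⟩, keyn⟩
  · intro X
    by_cases hXR : X = R
    · subst hXR
      rw [ht1, h.tc.tm]
    · by_cases hXR' : X = R'
      · subst hXR'
        rw [hu1, h.tc.tm]
      · rw [(C3_keep h.lt.le (h.keep X hXR hXR')).1, h.tc.tm]
  · intro X X' hne hX'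
    by_cases hX : X = R ∨ X = R'
    · rw [keyp X hX]
      exact keyn X' hX'
    · rw [not_or] at hX
      rw [(C3_keep h.lt.le (h.keep X hX.1 hX.2)).2.1]
      exact (h.tc.i1 X R hX.1 h.mn.1).trans (keyn X' hX')
  · intro X sx a ha b hb
    exact h.tc.i2 X sx a (keyg X sx ha) b (keyg _ _ hb)

end MPb6M
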