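import Pool.Agent.Lib.MP_b6d339_lc.Mix.G0
import Pool.Agent.Lib.MP_b6d339_lc.Mix.A2
import Pool.Agent.Lib.MP_b6d339_lc.Mix.G1
import Pool.Agent.Lib.MP_b6d339_lc.Mix.G2
import Pool.Agent.Lib.MP_b6d339_lc.Mix.G3
import Pool.Agent.Lib.MP_b6d339_lc.Mix.G4
import Pool.Agent.Lib.MP_b6d339_lc.Mix.G6
import Pool.Agent.Lib.MP_b6d339_lc.Mix.C1
import Pool.Agent.Lib.MP_b6d339_lc.Mix.C2
import Pool.Agent.Lib.MP_b6d339_lc.Mix.C3

open Ordinal

namespace MPb6M

open MPb6P (Valid Compat plr stL)

/-! # C4: common opening of a block of an infinite class (port of Eps/C4) -/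
variable {G : Gm} {B B' : ℕ} {e e' : Fin 3 → Nd} {w w' : Fin 3 → Pr} {t0 : G.td.T}

/-- mixed: equal classes, and the class is finite (or exit, or leaf) or the next
`(kap - 1)`-container of `R` contains a label `≥` the next label of `R'` -/
def Mx (G : Gm) (w : Fin 3 → Pr) (B : ℕ) (R R' : Fin 3) : Prop :=
  G.kp (w R) B = G.kp (w R') B ∧ (G.d < co (G.kp (w R) B) ∨
    ∃ p ∈ G.ms (w R) R (nx (w R) B), p.1 < co (G.kp (w R) B) ∧ G.nl (w R') R' B ≤ p.2)

/-- the largest coarse class with the label `l` -/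
noncomputable def jm (X : Set (Cl × ℕ)) (l : ℕ) : ℕ := sSup {c | ∃ k : Cl, (k, l) ∈ X ∧ co k = c}

/-- sum over all runs and sides -/
noncomputable def Jt (G : Gm) (w : Fin 3 → Pr) (B l : ℕ) : ℕ :=
  ∑ R : Fin 3, (jm (G.gs (w R) R true B) l + jm (G.gs (w R) R false B) l)

theorem jm_le {X : Set (Cl × ℕ)} {l k : ℕ} (h : ∀ c : Cl, (c, l) ∈ X → co c ≤ k) :
    jm X l ≤ k := by
  unfold jm
  refine csSup_le' ?_
  rintro c ⟨k', hk, rfl⟩
  exact h k' hk
theorem le_jm {X : Set (Cl × ℕ)} {l k : ℕ} {c : Cl} (h : (c, l) ∈ X)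
    (hb : ∀ c : Cl, (c, l) ∈ X → co c ≤ k) : co c ≤ jm X l := by
  unfold jm
  refine le_csSup ⟨k, ?_⟩ ⟨c, h, rfl⟩
  rintro c' ⟨k', hk, rfl⟩
  exact hb k' hk
private theorem C4_gs_le {π : Pr} {X : Fin 3} {sd : Bool} {B l : ℕ} :
    ∀ c : Cl, (c, l) ∈ G.gs π X sd B → co c ≤ G.D + 2 := by
  rintro c ⟨i, -, -, -, hi⟩
  rw [Prod.mk.injEq] at hi
  rw [hi.1]
  exact co_mono (kl_le_D2 _ _ _)

theorem Jt_le (G : Gm) (w : Fin 3 → Pr) (B l : ℕ) : Jt G w B l ≤ 6 * (G.D + 2) := by
  unfold Jt
  have h : ∀ R ∈ (Finset.univ : Finset (Fin 3)), (jm (G.gs (w R) R true B) l +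
      jm (G.gs (w R) R false B) l) ≤ 2 * (G.D + 2) := by
    intro R _
    have h1 : jm (G.gs (w R) R true B) l ≤ G.D + 2 := jm_le C4_gs_le
    have h2 : jm (G.gs (w R) R false B) l ≤ G.D + 2 := jm_le C4_gs_le
    omega
  have h2 := Finset.sum_le_card_nsmul _ _ _ h
  rw [Finset.card_univ, Fintype.card_fin, _root_.smul_eq_mul] at h2
  omega


/-- coarse classes at most `d` have only one refined class -/
private theorem C4_ci (x : List ℕ) (B B' : ℕ) {k : ℕ} (hk : k ≤ G.d)
    (h : co (kl G.cls x B B') = k) : kl G.cls x B B' = ci k := by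
  by_cases hn : ∃ n ∈ x, B < n ∧ n ≤ B'
  · obtain ⟨n, hn, h1, h2⟩ := hn
    obtain ⟨n', -, -, -, he⟩ := kl_mem G.cls_pos hn h1 h2
    rw [he] at h ⊢
    rcases G.cls_ok n' with ⟨j, -, -, hj⟩ | ⟨f, i, hf, -, hfi⟩ | hD
    · rw [hj] at h ⊢
      have h' : j = k := h
      rw [h']
    · rw [hfi] at h
      have h' : f = k := h
      omega
    · rw [hD] at h
      have h' : G.D + 2 = k := h
      have := G.hdD
      omega
  · push Not at hn
    have he : kl G.cls x B B' = ci 0 := kl_none (fun n h1 h2 => by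
      by_contra h3
      have := hn n h1 (by omega)
      omega)
    rw [he] at h ⊢
    have h' : 0 = k := h
    rw [h']

private theorem C4_nat {D j a a' C C' : ℕ} (hj : 2 ≤ j) (hjD : j ≤ D) (h1 : min (D + 1) a = C)
    (h2 : min (D + 1) a' = C') (h6 : a ≤ j - 1) (h7 : a' = j) :
    max (j - 1) C < max (j - 1) C' := by
  omega

/-- comparison of the new and the old classes -/
private theorem C4_cmp {A A' : Cl} {j : ℕ} (hj : 2 ≤ j)
    (hA : co A = j → A = ci j) (hA' : co A' = j - 1 → A' = ci (j - 1))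
    (h : max (ci (j - 1)) A < max (ci (j - 1)) A') :
    max (ci j) A < max (ci j) A' ∨ (co A ≤ j - 1 ∧ co A' = j) := by
  have h1 : ci (j - 1) < A' := by
    by_contra h2
    rw [max_eq_left (not_lt.1 h2)] at h
    exact absurd (le_max_left (ci (j - 1)) A) (not_le.2 h)
  have h3 : A < A' := by
    rw [max_eq_right h1.le] at h
    exact (le_max_right _ _).trans_lt h
  rcases lt_or_ge (ci j) A' with h4 | h4
  · left
    rw [max_eq_right h4.le]
    exact max_lt h4 h3
  · right
    have e1 : co A' ≤ j := co_mono h4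
    have e2 : j - 1 ≤ co A' := co_mono h1.le
    have e3 : co A' ≠ j - 1 := fun h5 => by
      rw [hA' h5] at h1
      exact lt_irrefl _ h1
    have e4 : co A ≤ co A' := co_mono h3.le
    have e5 : co A ≠ j := fun h5 => by
      rw [hA h5] at h3
      exact absurd h4 (not_le.2 h3)
    omega

/-- the data of the third run -/
private theorem C4_keep {X : Fin 3} {π π' : Pr} (hBB : B ≤ B') (h : Keep G X π π' B B') :
    G.td.tmpl (G.wd π') = G.td.tmpl (G.wd π) ∧ (nx π' B' < pL π' ↔ nx π B < pL π) ∧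
    G.pv π' X B' = G.pv π X B ∧ (nx π B < pL π → G.nl π' X B' = G.nl π X B) ∧
    ∀ sd, G.gs π' X sd B' = G.gs π X sd B := by
  rcases h.2.2 with ⟨h1, rfl⟩ | ⟨h1, h2, h3⟩
  · have h4 : nx π' B' = nx π' B := by
      apply le_antisymm
      · rw [h1]
        exact nx_le _
      · exact nx_mono hBB
    refine ⟨rfl, by rw [h4], ?_, ?_, ?_⟩
    · unfold Gm.pv
      rw [h4]
    · intro h5
      unfold Gm.nl
      rw [h4]
    · intro sd
      unfold Gm.gs
      ext p
      constructor
      · rintro ⟨i, hi, hi2, -⟩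
        omega
      · rintro ⟨i, hi, hi2, -⟩
        omega
  · obtain ⟨d1, -, d3, d4, -, d6, -⟩ := feat_data h3
    exact ⟨d1, ⟨fun _ => h1, fun _ => h2⟩, d3, fun _ => d4, d6⟩

/-- **Opening, infinite class.** `kp R = kp R' = ci j`, `2 ≤ j ≤ d`, mixed; at time `B'` both next
events have coarse class `j - 1` relative to the new node. `open_data` for `w' R`, `w' R'`. `i2` for
the player `p` between `R` and `R'`: let `a` (event `i` of `R`), `b` (event `i'` of `R'`) be new classes
with `a < b`, `a0`, `b0` the old classes (`a0 = max (ci j) a`, `b0 = max (ci j) b`). If `a0 < b0`: old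
`i2`. Otherwise `b0 ≤ a0`, so `b ≤ b0 ≤ a0` and `a < a0`, hence `a0 = ci j` and `b0 ≤ ci j`, so `a = ci (j-1)`
and `b = ci j` (all classes are `≥ ci (j-1)`, `cls_ok`): both events are inside the
`j`-container: `host_meet` with `c0 = j - 1` (`Cw_kl`: coarse classes) and the event `is` given by `Mx`
(which is a property of the feature, so it holds for `w' R`). The same for `b < a`. All other data
are unchanged. `Jt` decreases: for `(R, p)`: before, `(ci j, l)` belongs to `gs`; after: if `lb i = l`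
then the coarse class of `(pt m, pt i]` is `≤ j - 1`: if `l < nl R'` then `i < is` (monotone labels), if
`l = nl R'` then `i = m` (`tc_common_lt`). For `(R', p)`: `l < nl R'`: no label `l`, both `0`;
`l = nl R'`: as for `R`. -/
theorem tc_open {R R' : Fin 3} {sd' : Bool} (h : CS G B B' e e' w w' t0 R R' sd')
    (hm : Mx G w B R R') {j : ℕ} (hj : 2 ≤ j) (hjd : j ≤ G.d) (hK : G.kp (w R) B = ci j)
    (h1 : B' < pt (w' R) (nx (w' R) B)) (h1' : co (G.kp (w' R) B') = j - 1)
    (h2 : B' < pt (w' R') (nx (w' R') B)) (h2' : co (G.kp (w' R') B') = j - 1) :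
    TC G B' e' w' t0 ∧ (∀ X, Pd w' B' X ↔ Pd w B X) ∧
      (∀ X, Pd w B X → G.nl (w' X) X B' = G.nl (w X) X B) ∧
      Jt G w' B' (G.nl (w R) R B) < Jt G w B (G.nl (w R) R B) := by
  have hBB : B ≤ B' := h.lt.le
  have hRR : R' ≠ R := by
    have := (orr_pl R (ac w B R)).1
    rw [h.o] at this
    exact this
  obtain ⟨hPd', hac', -, -, -, -⟩ := tc_active h.tc h.mn h.o
  have hPd : Pd w B R := h.mn.1
  have hpl : pl R' sd' = pl R (ac w B R) := by
    have := (orr_pl R (ac w B R)).2.1
    rw [h.o] at this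
    exact this
  have horr : orr R' sd' = (R, ac w B R) := by
    have := (orr_pl R (ac w B R)).2.2
    rw [h.o] at this
    exact this
  -- the data of `R` and `R'`
  obtain ⟨a1, a2, a3, a4, a5, a6, a7⟩ := feat_data h.fR.2
  obtain ⟨b1, b2, b3, b4, b5, b6, b7⟩ := feat_data h.fR'.2
  obtain ⟨o1, o2, o3, o4, o5⟩ := open_data (play_spec (h.all R).1 (h.all R).2) (h.all R).1
    (h.all R).2 h.fR.1 hBB h1 R
  obtain ⟨q1, q2, q3, q4, q5⟩ := open_data (play_spec (h.all R').1 (h.all R').2) (h.all R').1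
    (h.all R').2 h.fR'.1 hBB h2 R'
  have hacR : sdI (nx (w' R) B) = ac w B R := a2
  have hacR' : sdI (nx (w' R') B) = sd' := b2.trans hac'
  -- all runs
  have dat : ∀ X, G.td.tmpl (G.wd (w' X)) = t0 ∧ (Pd w' B' X ↔ Pd w B X) ∧
      G.pv (w' X) X B' = G.pv (w X) X B ∧ (Pd w B X → G.nl (w' X) X B' = G.nl (w X) X B) := by
    intro X
    by_cases hX : X = R
    · subst hX
      refine ⟨a1.trans (h.tc.tm _), ?_, o2.trans a3, fun _ => o3.trans a4⟩
      unfold Pd
      rw [o1]
      exact ⟨fun _ => hPd, fun _ => h.fR.1⟩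
    · by_cases hX' : X = R'
      · subst hX'
        refine ⟨b1.trans (h.tc.tm _), ?_, q2.trans b3, fun _ => q3.trans b4⟩
        unfold Pd
        rw [q1]
        exact ⟨fun _ => hPd', fun _ => h.fR'.1⟩
      · obtain ⟨k1, k2, k3, k4, -⟩ := C4_keep hBB (h.keep X hX hX')
        exact ⟨k1.trans (h.tc.tm _), k2, k3, k4⟩
  have gsE : ∀ X sd, (X, sd) ≠ (R, ac w B R) → (X, sd) ≠ (R', sd') →
      G.gs (w' X) X sd B' = G.gs (w X) X sd B := by
    intro X sd hn hn'
    by_cases hX : X = R
    · subst hX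
      have hsd : sd = !sdI (nx (w' X) B) := by
        rw [hacR]
        cases hs : sd <;> cases ha : ac w B X <;> simp_all
      rw [hsd, o4, a6]
    · by_cases hX' : X = R'
      · subst hX'
        have hsd : sd = !sdI (nx (w' X) B) := by
          rw [hacR']
          cases hs : sd <;> cases ha : sd' <;> simp_all
        rw [hsd, q4, b6]
      · exact (C4_keep hBB (h.keep X hX hX')).2.2.2.2 sd
  -- the words
  set u := G.wd (w' R) with hu
  set u' := G.wd (w' R') with hu'
  set m := nx (w' R) B with hmdef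
  set m' := nx (w' R') B with hmdef'
  have hV : Valid G.D u := valid_wd (h.all R).1 (h.all R).2
  have hV' : Valid G.D u' := valid_wd (h.all R').1 (h.all R').2
  have hT : G.td.tmpl u = t0 := (dat R).1
  have hT' : G.td.tmpl u' = t0 := (dat R').1
  have hc := G.td.comp u u' hV hV' (hT.trans hT'.symm)
  have hc' := G.td.comp u' u hV' hV (hT'.trans hT.symm)
  have hlen : u.length = pL (w' R) := wd_length
  have hlen' : u'.length = pL (w' R') := wd_length
  have hml : m < u.length := by rw [hlen]; exact h.fR.1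
  have hml' : m' < u'.length := by rw [hlen']; exact h.fR'.1
  have hp : plr R m = plr R' m' := by
    rw [← pl_sdI, ← pl_sdI, hacR, hacR', hpl]
  have hl : G.td.lab u R m ≤ G.td.lab u' R' m' := by
    have e1 : G.td.lab u R m = G.nl (w R) R B := a4
    have e2 : G.td.lab u' R' m' = G.nl (w R') R' B := b4
    rw [e1, e2]
    exact h.mn.2 R' hPd'
  obtain ⟨hKK, hm2⟩ := hm
  have hcoK : co (G.kp (w R) B) = j := by
    rw [hK]
    rfl
  have hjD : j ≤ G.D := hjd.trans G.hdD
  have hjd1 : j - 1 ≤ G.d := (Nat.sub_le _ _).trans hjd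
  have hm3 : ∃ p ∈ G.ms (w R) R (nx (w R) B), p.1 < co (G.kp (w R) B) ∧ G.nl (w R') R' B ≤ p.2 := by
    rcases hm2 with h3 | h3
    · exfalso
      omega
    · exact h3
  obtain ⟨p, hp1, hp2, hp3⟩ := hm3
  rw [← a7] at hp1
  rw [hcoK] at hp2
  obtain ⟨is, is1, is2, is3, is4⟩ := hp1
  have hpis : co (kl G.cls (side (sdI m) (w' R)) (pt (w' R) m) (pt (w' R) is)) = p.1 := by
    rw [is4]
  have hCw : Cw u m is ≤ j - 1 := by
    rw [← Cw_kl (h.all R).1 (h.all R).2 is1 is2 is3, hpis]
    omega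
  have hisl : G.td.lab u' R' m' ≤ G.td.lab u R is := by
    have e2 : G.td.lab u' R' m' = G.nl (w R') R' B := b4
    have e3 : p.2 = G.td.lab u R is := by rw [is4]; rfl
    rw [e2, ← e3]
    exact hp3
  have hk1 : G.kp (w' R) B' = ci (j - 1) := C4_ci _ _ _ (by omega) h1'
  have hk2 : G.kp (w' R') B' = ci (j - 1) := C4_ci _ _ _ (by omega) h2'
  have hk3 : G.kp (w' R) B = ci j := a5.trans hK
  have hk4 : G.kp (w' R') B = ci j := b5.trans (hKK.symm.trans hK)
  have hpR := play_spec (h.all R).1 (h.all R).2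
  have hpR' := play_spec (h.all R').1 (h.all R').2
  have key : ∀ i i', m ≤ i → i < pL (w' R) → sdI i = sdI m → m' ≤ i' → i' < pL (w' R') →
      sdI i' = sdI m' →
      (max (j - 1) (Cw u m i) < max (j - 1) (Cw u' m' i') →
        G.td.lab u R i < G.td.lab u' R' i') ∧
      (max (j - 1) (Cw u' m' i') < max (j - 1) (Cw u m i) →
        G.td.lab u' R' i' < G.td.lab u R i) := by
    intro i i' i1 i2 i3 j1 j2 j3
    exact host_meet hV hV' (G.td.mono u hV) (G.td.mono u' hV') hc hc' hRR.symm hml hml' hp hl is1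
      (by rw [hlen]; exact is2) (sdI_eq.1 is3) hCw hisl i1 (by rw [hlen]; exact i2)
      (sdI_eq.1 i3) j1 (by rw [hlen']; exact j2) (sdI_eq.1 j3)
  have key2 : ∀ i i', m ≤ i → i < pL (w' R) → sdI i = sdI m → m' ≤ i' → i' < pL (w' R') →
      sdI i' = sdI m' →
      (max (ci (j - 1)) (kl G.cls (side (sdI m) (w' R)) (pt (w' R) m) (pt (w' R) i)) <
        max (ci (j - 1)) (kl G.cls (side (sdI m') (w' R')) (pt (w' R') m') (pt (w' R') i')) →
        G.td.lab u R i < G.td.lab u' R' i') ∧
      (max (ci (j - 1)) (kl G.cls (side (sdI m') (w' R')) (pt (w' R') m') (pt (w' R') i')) <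
        max (ci (j - 1)) (kl G.cls (side (sdI m) (w' R)) (pt (w' R) m) (pt (w' R) i)) →
        G.td.lab u' R' i' < G.td.lab u R i) := by
    intro i i' i1 i2 i3 j1 j2 j3
    have c1 := Cw_kl (h.all R).1 (h.all R).2 i1 i2 i3
    have c2 := Cw_kl (h.all R').1 (h.all R').2 j1 j2 j3
    rw [← hu] at c1
    rw [← hu'] at c2
    have kk := key i i' i1 i2 i3 j1 j2 j3
    -- the old classes
    have le1 : pt (w' R) m ≤ pt (w' R) i := by
      rcases i1.lt_or_eq with h5 | h5
      · exact (hpR.lt _ _ h5 i2).le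
      · rw [← h5]
    have le2 : pt (w' R') m' ≤ pt (w' R') i' := by
      rcases j1.lt_or_eq with h5 | h5
      · exact (hpR'.lt _ _ h5 j2).le
      · rw [← h5]
    have d1 : kl G.cls (side (ac w B R) (w' R)) B (pt (w' R) i) =
        max (ci j) (kl G.cls (side (sdI m) (w' R)) (pt (w' R) m) (pt (w' R) i)) := by
      rw [← hacR, kl_split _ (lt_pt hpR le_rfl h.fR.1).le le1, ← hk3]
      rfl
    have d2 : kl G.cls (side sd' (w' R')) B (pt (w' R') i') =
        max (ci j) (kl G.cls (side (sdI m') (w' R')) (pt (w' R') m') (pt (w' R') i')) := by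
      rw [← hacR', kl_split _ (lt_pt hpR' le_rfl h.fR'.1).le le2, ← hk4]
      rfl
    have g1 : (kl G.cls (side (ac w B R) (w' R)) B (pt (w' R) i), G.lb (w' R) R i) ∈
        G.gs (w R) R (ac w B R) B := by
      rw [← a6]
      exact ⟨i, i1, i2, i3.trans hacR, rfl⟩
    have g2 : (kl G.cls (side sd' (w' R')) B (pt (w' R') i'), G.lb (w' R') R' i') ∈
        G.gs (w R') R' sd' B := by
      rw [← b6]
      exact ⟨i', j1, j2, j3.trans hacR', rfl⟩
    constructor
    · intro hlt
      rcases C4_cmp hj (fun h5 => C4_ci _ _ _ hjd h5) (fun h5 => C4_ci _ _ _ hjd1 h5) hlt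
        with h6 | ⟨h6, h7⟩
      · rw [← d1, ← d2] at h6
        have h8 := h.tc.i2 R (ac w B R) _ g1 (kl G.cls (side sd' (w' R')) B (pt (w' R') i'),
          G.lb (w' R') R' i') (by rw [h.o]; exact g2) h6
        exact h8
      · exact kk.1 (C4_nat hj hjD c1 c2 h6 h7)
    · intro hlt
      rcases C4_cmp hj (fun h5 => C4_ci _ _ _ hjd h5) (fun h5 => C4_ci _ _ _ hjd1 h5) hlt
        with h6 | ⟨h6, h7⟩
      · rw [← d1, ← d2] at h6
        have h8 := h.tc.i2 R' sd' _ g2 (kl G.cls (side (ac w B R) (w' R)) B (pt (w' R) i),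
          G.lb (w' R) R i) (by rw [horr]; exact g1) h6
        exact h8
      · exact kk.2 (C4_nat hj hjD c2 c1 h6 h7)
  have gR : G.gs (w' R) R (ac w B R) B' = {p | ∃ i, m ≤ i ∧ i < pL (w' R) ∧ sdI i = sdI m ∧
      p = (max (ci (j - 1)) (kl G.cls (side (sdI m) (w' R)) (pt (w' R) m) (pt (w' R) i)),
        G.lb (w' R) R i)} := by
    rw [← hacR, ← hk1]
    exact o5
  have gR' : G.gs (w' R') R' sd' B' = {p | ∃ i, m' ≤ i ∧ i < pL (w' R') ∧ sdI i = sdI m' ∧
      p = (max (ci (j - 1)) (kl G.cls (side (sdI m') (w' R')) (pt (w' R') m') (pt (w' R') i)),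
        G.lb (w' R') R' i)} := by
    rw [← hacR', ← hk2]
    exact q5
  have tc' : TC G B' e' w' t0 := by
    refine ⟨fun X => (h.all X).1, fun X => (h.all X).2, fun X => (dat X).1, h.nd, ?_, ?_⟩
    · intro X X' hXX hX'
      have hX2 : Pd w B X' := (dat X').2.1.1 hX'
      rw [(dat X).2.2.1, (dat X').2.2.2 hX2]
      exact h.tc.i1 X X' hXX hX2
    · intro X sd a ha b hb hab
      by_cases hX : (X, sd) = (R, ac w B R)
      · rw [Prod.mk.injEq] at hX
        obtain ⟨rfl, rfl⟩ := hX
        rw [h.o] at hb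
        rw [gR] at ha
        simp only at hb
        rw [gR'] at hb
        obtain ⟨i, i1, i2, i3, rfl⟩ := ha
        obtain ⟨i', j1, j2, j3, rfl⟩ := hb
        simp only at hab ⊢
        exact (key2 i i' i1 i2 i3 j1 j2 j3).1 hab
      · by_cases hX' : (X, sd) = (R', sd')
        · rw [Prod.mk.injEq] at hX'
          obtain ⟨rfl, rfl⟩ := hX'
          rw [horr] at hb
          rw [gR'] at ha
          simp only at hb
          rw [gR] at hb
          obtain ⟨i, i1, i2, i3, rfl⟩ := ha
          obtain ⟨i', j1, j2, j3, rfl⟩ := hb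
          simp only at hab ⊢
          exact (key2 i' i j1 j2 j3 i1 i2 i3).2 hab
        · rw [gsE X sd hX hX'] at ha
          have h3 : orr X sd ≠ (R, ac w B R) := by
            intro h4
            apply hX'
            have h5 := (orr_pl X sd).2.2
            rw [h4] at h5
            simp only at h5
            rw [← h5, h.o]
          have h3' : orr X sd ≠ (R', sd') := by
            intro h4
            apply hX
            have h5 := (orr_pl X sd).2.2
            rw [h4] at h5
            simp only at h5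
            rw [← h5, horr]
          rw [gsE (orr X sd).1 (orr X sd).2 h3 h3'] at hb
          exact h.tc.i2 X sd a ha b hb hab
  refine ⟨tc', fun X => (dat X).2.1, fun X hX => (dat X).2.2.2 hX, ?_⟩
  -- uniqueness of a common label for `w'`
  have hMn' : Mn G w' B' R := by
    refine ⟨(dat R).2.1.2 hPd, fun X hX => ?_⟩
    have hX2 := (dat X).2.1.1 hX
    rw [(dat R).2.2.2 hPd, (dat X).2.2.2 hX2]
    exact h.mn.2 X hX2
  have hacw : ac w' B' R = ac w B R := by
    unfold ac
    rw [o1]
    exact hacR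
  have ho' : orr R (ac w' B' R) = (R', sd') := by rw [hacw]; exact h.o
  have hnR : G.nl (w' R) R B' = G.nl (w R) R B := (dat R).2.2.2 hPd
  have hnR' : G.nl (w' R') R' B' = G.nl (w R') R' B := (dat R').2.2.2 hPd'
  -- the terms
  have tR : jm (G.gs (w' R) R (ac w B R) B') (G.nl (w R) R B) + 1 ≤
      jm (G.gs (w R) R (ac w B R) B) (G.nl (w R) R B) := by
    have h5 : co (G.kp (w R) B) ≤ jm (G.gs (w R) R (ac w B R) B) (G.nl (w R) R B) := by
      refine le_jm ?_ C4_gs_le
      exact ⟨nx (w R) B, le_refl _, hPd, rfl, rfl⟩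
    have h6 : jm (G.gs (w' R) R (ac w B R) B') (G.nl (w R) R B) ≤ j - 1 := by
      refine jm_le ?_
      rw [gR]
      rintro c ⟨i, i1, i2, i3, i4⟩
      rw [Prod.mk.injEq] at i4
      rw [i4.1, co_max]
      refine max_le (le_refl _) ?_
      rcases lt_or_eq_of_le (h.mn.2 R' hPd') with h7 | h7
      · have h8 : i < is := by
          by_contra h9
          have h10 := G.td.mono u hV R is i (by omega) (by rw [hlen]; exact i2)
          have e2 : G.td.lab u' R' m' = G.nl (w R') R' B := b4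
          have e4 : G.td.lab u R i = G.nl (w R) R B := i4.2.symm
          omega
        have h9 : co (kl G.cls (side (sdI m) (w' R)) (pt (w' R) m) (pt (w' R) i)) ≤
            co (kl G.cls (side (sdI m) (w' R)) (pt (w' R) m) (pt (w' R) is)) := by
          have le1 : pt (w' R) m ≤ pt (w' R) i := by
            rcases i1.lt_or_eq with h5 | h5
            · exact (hpR.lt _ _ h5 i2).le
            · rw [← h5]
          rw [kl_split _ le1 (hpR.lt _ _ h8 is2).le]
          exact co_mono (le_max_left _ _)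
        omega
      · have h8 : i = m := by
          by_contra h9
          have h10 := (tc_common_lt tc' hMn' ho' (by rw [hnR, hnR', h7])).1 i (by rw [o1]; omega) i2
          rw [hnR] at h10
          have e4 : G.lb (w' R) R i = G.nl (w R) R B := i4.2.symm
          omega
        rw [h8, kl_none (fun n _ h9 => h9)]
        exact Nat.zero_le _
    omega
  have tR' : jm (G.gs (w' R') R' sd' B') (G.nl (w R) R B) ≤
      jm (G.gs (w R') R' sd' B) (G.nl (w R) R B) := by
    rcases lt_or_eq_of_le (h.mn.2 R' hPd') with h7 | h7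
    · refine (jm_le (k := 0) ?_).trans (Nat.zero_le _)
      rw [gR']
      rintro c ⟨i, i1, i2, i3, i4⟩
      exfalso
      rw [Prod.mk.injEq] at i4
      have h10 := G.td.mono u' hV' R' m' i i1 (by rw [hlen']; exact i2)
      have e2 : G.td.lab u' R' m' = G.nl (w R') R' B := b4
      have e4 : G.td.lab u' R' i = G.nl (w R) R B := i4.2.symm
      omega
    · have h5 : co (G.kp (w R') B) ≤ jm (G.gs (w R') R' sd' B) (G.nl (w R) R B) := by
        refine le_jm ?_ C4_gs_le
        refine ⟨nx (w R') B, le_refl _, hPd', hac', ?_⟩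
        rw [h7, ← hac']
        rfl
      rw [← hKK, hcoK] at h5
      refine le_trans (jm_le (k := j - 1) ?_) (by omega)
      rw [gR']
      rintro c ⟨i, i1, i2, i3, i4⟩
      rw [Prod.mk.injEq] at i4
      rw [i4.1, co_max]
      refine max_le (le_refl _) ?_
      have h8 : i = m' := by
        by_contra h9
        have h10 := (tc_common_lt tc' hMn' ho' (by rw [hnR, hnR', h7])).2 i (by rw [q1]; omega) i2
        rw [hnR] at h10
        have e4 : G.lb (w' R') R' i = G.nl (w R) R B := i4.2.symm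
        omega
      rw [h8, kl_none (fun n _ h9 => h9)]
      exact Nat.zero_le _
  have tle : ∀ X sd, jm (G.gs (w' X) X sd B') (G.nl (w R) R B) ≤
      jm (G.gs (w X) X sd B) (G.nl (w R) R B) := by
    intro X sd
    by_cases hX : (X, sd) = (R, ac w B R)
    · rw [Prod.mk.injEq] at hX
      obtain ⟨rfl, rfl⟩ := hX
      omega
    · by_cases hX' : (X, sd) = (R', sd')
      · rw [Prod.mk.injEq] at hX'
        obtain ⟨rfl, rfl⟩ := hX'
        exact tR'
      · rw [gsE X sd hX hX']
  unfold Jt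
  apply Finset.sum_lt_sum
  · intro X _
    exact Nat.add_le_add (tle X true) (tle X false)
  · refine ⟨R, Finset.mem_univ _, ?_⟩
    have t1 := tle R true
    have t2 := tle R false
    cases ha : ac w B R with
    | true =>
      rw [ha] at tR
      omega
    | false =>
      rw [ha] at tR
      omega

end MPb6M
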