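import Pool.Agent.Lib.MP_b6d339_lc.Mix.G0
import Pool.Agent.Lib.MP_b6d339_lc.Mix.A2
import Pool.Agent.Lib.MP_b6d339_lc.Mix.G1
import Pool.Agent.Lib.MP_b6d339_lc.Mix.G2
import Pool.Agent.Lib.MP_b6d339_lc.Mix.G3
import Pool.Agent.Lib.MP_b6d339_lc.Mix.G4
import Pool.Agent.Lib.MP_b6d339_lc.Mix.G6
import Pool.Agent.Lib.MP_b6d339_lc.Mix.C1
import Pool.Agent.Lib.MP_b6d339_lc.Mix.C2
import Pool.Agent.Lib.MP_b6d339_lc.Mix.C3
import Pool.Agent.Lib.MP_b6d339_lc.Mix.C4
import Pool.Agent.Lib.MP_b6d339_lc.Mix.Place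

open Ordinal

namespace MPb6M

open MPb6P (Valid Compat plr stL)

/-! # C4f: common opening of an item of a finite class, or exit (new) -/
variable {G : Gm} {B B' : ℕ} {e e' : Fin 3 → Nd} {w w' : Fin 3 → Pr} {t0 : G.td.T}

open Classical in
/-- the usage of the levels of the class `h` by the future events of the side `sd` (relative to the
node at time `B'`): level `v` ↦ set of labels -/
noncomputable def usg (G : Gm) (π : Pr) (R : Fin 3) (sd : Bool) (h B' : ℕ) : ℕ → Finset ℕ := fun v =>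
  (Finset.range (G.td.M + 1)).filter fun l => (cf h v, l) ∈ G.gs π R sd B'

theorem mem_usg {π : Pr} {R : Fin 3} {sd : Bool} {h v l : ℕ} :
    l ∈ usg G π R sd h B' v ↔ (cf h v, l) ∈ G.gs π R sd B' := by
  classical
  unfold usg
  rw [Finset.mem_filter, Finset.mem_range]
  constructor
  · exact fun h => h.2
  · intro h
    refine ⟨?_, h⟩
    obtain ⟨i, -, -, -, hi⟩ := h
    rw [Prod.mk.injEq] at hi
    have := (lb_bd (G := G) π R i).2
    rw [← hi.2] at this
    omega

/-- `kl` is monotone in the right end -/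
private theorem C4f_kl_mono {cls : ℕ → Cl} (x : List ℕ) {B a b : ℕ} (h : a ≤ b) :
    kl cls x B a ≤ kl cls x B b := by
  rw [kl_le (kl_ge x B b)]
  intro n hn h1 h2
  exact kl_mem_le hn h1 (h2.trans h)

/-- `kl` is antitone in the left end -/
private theorem C4f_kl_anti {cls : ℕ → Cl} (x : List ℕ) {B a b : ℕ} (h : a ≤ b) :
    kl cls x b B ≤ kl cls x a B := by
  rw [kl_le (kl_ge x a B)]
  intro n hn h1 h2
  exact kl_mem_le hn (lt_of_le_of_lt h h1) h2

private theorem C4f_pt_le {π : Pr} (ha : π ∈ G.All) (hr : RS π) {i j : ℕ} (hij : i ≤ j)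
    (hj : j < pL π) : pt π i ≤ pt π j := by
  rcases lt_or_eq_of_le hij with h | h
  · exact ((play_spec ha hr).lt i j h hj).le
  · rw [h]

/-- levels in item events: the class decides the order of the events -/
private theorem C4f_lt {π : Pr} (ha : π ∈ G.All) (hr : RS π) {x : List ℕ} {B' i j : ℕ} (hi : i < pL π)
    (h : kl G.cls x B' (pt π i) < kl G.cls x B' (pt π j)) : i < j := by
  by_contra h2
  exact absurd (C4f_kl_mono (cls := G.cls) x (B := B') (C4f_pt_le ha hr (not_lt.1 h2) hi))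
    (not_le.2 h)

/-- lower levels come later: monotone labels -/
theorem usg_mono {π : Pr} (ha : π ∈ G.All) (hr : RS π) (R : Fin 3) (sd : Bool) (h : ℕ) {v v' : ℕ}
    (hv : v' < v) : ∀ x ∈ usg G π R sd h B' v, ∀ y ∈ usg G π R sd h B' v', x ≤ y := by
  intro x hx y hy
  rw [mem_usg] at hx hy
  obtain ⟨i, -, hi, -, hi2⟩ := hx
  obtain ⟨j, -, hj, -, hj2⟩ := hy
  rw [Prod.mk.injEq] at hi2 hj2
  rw [hi2.2, hj2.2]
  have h1 : cf h v < cf h v' := cf_lt.2 hv
  rw [hi2.1, hj2.1] at h1
  exact lb_mono ha hr R (C4f_lt ha hr hi h1).le hj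

/-- **No meeting** (`Compat.host`). `v' > w'` consecutive items of `π'`: let `i1` be the last event of
`π'` in the item `v'` and `i2 = i1 + 2` (it is the first event of the item `w'`, letter `h`). `host` for
`i2`: `j2` in `R` with `h ≤ u j2`, `lab' i1 < lab j2`, `stL j2 < lab' i2`. The item `v` of `π` does not
contain events before and from `j2` on (`kl_dec`). If all its events are before `j2`, their labels are
`≤ stL j2 < lab' i2 ≤` all labels of the item `w'`; otherwise they are `≥ lab j2 > lab' i1 ≥` all labels of the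
item `v'`. -/
theorem usg_meet {π π' : Pr} (ha : π ∈ G.All) (hr : RS π) (ha' : π' ∈ G.All) (hr' : RS π')
    (ht : G.td.tmpl (G.wd π) = G.td.tmpl (G.wd π')) {R R' : Fin 3} (hR : R ≠ R') {sd sd' : Bool}
    (hp : pl R sd = pl R' sd') {h : ℕ} (hh : G.d < h) (hhD : h ≤ G.D) {v : ℕ}
    (hv : (usg G π R sd h B' v).Nonempty) {v' w' : ℕ} (hw : w' < v')
    (hv' : (usg G π' R' sd' h B' v').Nonempty) (hw' : (usg G π' R' sd' h B' w').Nonempty)
    (hc : ∀ z, w' < z → z < v' → usg G π' R' sd' h B' z = ∅) :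
    LT (usg G π' R' sd' h B' v') (usg G π R sd h B' v) ∨
      LT (usg G π R sd h B' v) (usg G π' R' sd' h B' w') := by
  have hcp : ∀ n, ci 0 < G.cls n := G.cls_pos
  -- membership in items
  have memU : ∀ (ρ : Pr) (X : Fin 3) (s : Bool) (z l : ℕ), l ∈ usg G ρ X s h B' z ↔
      ∃ i, nx ρ B' ≤ i ∧ i < pL ρ ∧ sdI i = s ∧ kl G.cls (side s ρ) B' (pt ρ i) = cf h z ∧
        G.lb ρ X i = l := by
    intro ρ X s z l
    rw [mem_usg]
    constructor
    · rintro ⟨i, i1, i2, i3, i4⟩
      rw [Prod.mk.injEq] at i4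
      exact ⟨i, i1, i2, i3, i4.1.symm, i4.2.symm⟩
    · rintro ⟨i, i1, i2, i3, i4, i5⟩
      exact ⟨i, i1, i2, i3, by rw [i4, i5]⟩
  -- the last event of the item `v'`
  obtain ⟨i1, p1, p2, p3, p4, pmax⟩ : ∃ i, nx π' B' ≤ i ∧ i < pL π' ∧ sdI i = sd' ∧
      kl G.cls (side sd' π') B' (pt π' i) = cf h v' ∧ ∀ j, nx π' B' ≤ j → j < pL π' →
      sdI j = sd' → kl G.cls (side sd' π') B' (pt π' j) = cf h v' → j ≤ i := by
    obtain ⟨l, hl⟩ := hv'
    rw [memU] at hl
    obtain ⟨i, a1, a2, a3, a4, -⟩ := hl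
    obtain ⟨s, hs⟩ : ∃ s : Finset ℕ, s = (Finset.range (pL π')).filter (fun i => nx π' B' ≤ i ∧
      sdI i = sd' ∧ kl G.cls (side sd' π') B' (pt π' i) = cf h v') := ⟨_, rfl⟩
    have hne : s.Nonempty := ⟨i, by rw [hs, Finset.mem_filter, Finset.mem_range]; exact ⟨a2, a1, a3, a4⟩⟩
    have hm0 : ∀ k ∈ s, k < pL π' ∧ nx π' B' ≤ k ∧ sdI k = sd' ∧
        kl G.cls (side sd' π') B' (pt π' k) = cf h v' := by
      intro k hk
      rw [hs, Finset.mem_filter, Finset.mem_range] at hk
      exact hk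
    have hm := hm0 _ (s.max'_mem hne)
    refine ⟨s.max' hne, hm.2.1, hm.1, hm.2.2.1, hm.2.2.2, ?_⟩
    intro j b1 b2 b3 b4
    apply Finset.le_max'
    rw [hs, Finset.mem_filter, Finset.mem_range]
    exact ⟨b2, b1, b3, b4⟩
  have hww : cf h v' < cf h w' := cf_lt.2 hw
  -- the next event of this side is in the item `w'`
  obtain ⟨hi2L, hi2k⟩ : i1 + 2 < pL π' ∧ kl G.cls (side sd' π') B' (pt π' (i1 + 2)) = cf h w' := by
    obtain ⟨l, hl⟩ := hw'
    rw [memU] at hl
    obtain ⟨i, a1, a2, a3, a4, -⟩ := hl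
    have h1 : i1 < i := by
      apply C4f_lt ha' hr' p2 (x := side sd' π') (B' := B')
      rw [p4, a4]
      exact hww
    have h2 : i1 % 2 = i % 2 := sdI_eq.1 (p3.trans a3.symm)
    have h3 : i1 + 2 ≤ i := by omega
    have hL : i1 + 2 < pL π' := lt_of_le_of_lt h3 a2
    refine ⟨hL, ?_⟩
    have s2 : sdI (i1 + 2) = sd' := by
      rw [← p3]
      apply sdI_eq.2
      omega
    have k1 : kl G.cls (side sd' π') B' (pt π' (i1 + 2)) ≤ cf h w' := by
      rw [← a4]
      exact C4f_kl_mono _ (C4f_pt_le ha' hr' h3 a2)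
    have k2 : cf h v' ≤ kl G.cls (side sd' π') B' (pt π' (i1 + 2)) := by
      rw [← p4]
      exact C4f_kl_mono _ (C4f_pt_le ha' hr' (by omega) hL)
    have k3 : kl G.cls (side sd' π') B' (pt π' (i1 + 2)) ≠ cf h v' := by
      intro h4
      have := pmax (i1 + 2) (by omega) hL s2 h4
      omega
    have k4 : cf h v' < kl G.cls (side sd' π') B' (pt π' (i1 + 2)) := lt_of_le_of_ne k2 (Ne.symm k3)
    -- the class is attained
    have hb : B' < pt π' (i1 + 2) := lt_pt (play_spec ha' hr') (by omega) hL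
    have hmem : pt π' (i1 + 2) ∈ side sd' π' := by
      rw [← s2]
      exact pt_mem (play_spec ha' hr') hL
    obtain ⟨n, n1, n2, n3, n4⟩ := kl_mem (cls := G.cls) hcp hmem hb (le_refl _)
    have c1 : co (G.cls n) = h := by
      rw [← n4]
      apply le_antisymm
      · exact co_mono k1
      · exact co_mono k2
    rcases G.cls_ok n with ⟨j, j1, j2, j3⟩ | ⟨f, z, f1, f2, f3⟩ | h5
    · rw [j3] at c1
      have : j = h := c1
      omega
    · rw [f3] at c1
      have c2 : f = h := c1
      subst c2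
      rw [n4, f3] at k1 k4 ⊢
      have z1 : z < v' := cf_lt.1 k4
      rcases lt_or_eq_of_le k1 with h6 | h6
      · exfalso
        have z2 : w' < z := cf_lt.1 h6
        have h7 := hc z z2 z1
        have h8 : G.lb π' R' (i1 + 2) ∈ usg G π' R' sd' f B' z := by
          rw [memU]
          exact ⟨i1 + 2, by omega, hL, s2, by rw [n4, f3], rfl⟩
        rw [h7] at h8
        exact absurd h8 (Finset.notMem_empty _)
      · exact h6
    · rw [h5] at c1
      have : G.D + 2 = h := c1
      omega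
  have s2 : sdI (i1 + 2) = sd' := by
    rw [← p3]
    apply sdI_eq.2
    omega
  -- the letter
  have hlet : (G.wd π').getD (i1 + 2) 0 = h := by
    rw [wd_getD hi2L, if_neg (by omega)]
    have e : i1 + 2 - 2 = i1 := by omega
    rw [e, s2]
    have h1 : B' ≤ pt π' i1 := (lt_pt (play_spec ha' hr') p1 p2).le
    have h2 := kl_split (cls := G.cls) (side sd' π') h1 (C4f_pt_le ha' hr' (show i1 ≤ i1 + 2 by omega) hi2L)
    rw [hi2k, p4] at h2
    have h3 : kl G.cls (side sd' π') (pt π' i1) (pt π' (i1 + 2)) = cf h w' := by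
      rcases max_choice (cf h v') (kl G.cls (side sd' π') (pt π' i1) (pt π' (i1 + 2))) with h4 | h4
      · rw [h4] at h2
        exact absurd h2.symm hww.ne
      · rw [h4] at h2
        exact h2.symm
    rw [h3]
    show min (G.D + 1) h = h
    omega
  -- hosting
  have hV : Valid G.D (G.wd π) := valid_wd ha hr
  have hV' : Valid G.D (G.wd π') := valid_wd ha' hr'
  have hcomp := G.td.comp (G.wd π') (G.wd π) hV' hV ht.symm
  have hpi : plr R' (i1 + 2) = pl R sd := by
    rw [← pl_sdI, s2, hp]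
  have hex : ∃ j, plr R j = plr R' (i1 + 2) := by
    rw [hpi]
    refine ⟨if sd then 0 else 1, ?_⟩
    unfold pl
    rfl
  obtain ⟨j2, g1, g2, g3, g4, g5⟩ := hcomp.host R' R hR.symm (i1 + 2) (by rw [wd_length]; exact hi2L)
    (by rw [hlet]; exact hhD) hex
  rw [wd_length] at g1
  rw [hlet] at g3
  have g4' : G.lb π' R' i1 < G.lb π R j2 := by
    have e : stL (G.td.lab (G.wd π')) R' (i1 + 2) = G.td.lab (G.wd π') R' i1 := by
      unfold stL
      rw [if_neg (by omega)]
      have : i1 + 2 - 2 = i1 := by omega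
      rw [this]
    rw [e] at g4
    exact g4
  have hsj : sdI j2 = sd := by
    rw [hpi] at g2
    rw [← pl_sdI] at g2
    have := orr_iff (R := R') (R' := R) (sd := sd') (sd' := sd)
    by_contra h4
    have h5 : sdI j2 = !sd := by
      cases hs : sd <;> cases hj : sdI j2 <;> simp_all
    rw [h5] at g2
    revert g2
    fin_cases R <;> cases sd <;> decide
  -- the item `v` does not cross `j2`
  have hcross : ∀ a b, nx π B' ≤ a → a < j2 → j2 ≤ b → b < pL π → sdI a = sd → sdI b = sd →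
      kl G.cls (side sd π) B' (pt π a) = cf h v → kl G.cls (side sd π) B' (pt π b) = cf h v →
      False := by
    intro a b a1 a2 b1 b2 a3 b3 a4 b4
    have hL : G.Leaf (side sd π) := by
      cases sd with
      | true => exact ha.1
      | false => exact ha.2.1
    have haL : a < pL π := by omega
    have h1 : B' ≤ pt π a := (lt_pt (play_spec ha hr) a1 haL).le
    have h2 := kl_dec (G := G) hL hh h1 (C4f_pt_le ha hr (show a ≤ b by omega) b2) a4 b4
    have h3 : a % 2 = j2 % 2 := sdI_eq.1 (a3.trans hsj.symm)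
    have h4 : a + 2 ≤ j2 := by omega
    have h5 : (G.wd π).getD j2 0 ≤ co (kl G.cls (side sd π) (pt π (j2 - 2)) (pt π j2)) := by
      rw [wd_getD g1, if_neg (by omega), hsj]
      exact min_le_right _ _
    have h6 : kl G.cls (side sd π) (pt π (j2 - 2)) (pt π j2) ≤
        kl G.cls (side sd π) (pt π a) (pt π b) :=
      (C4f_kl_anti _ (C4f_pt_le ha hr (show a ≤ j2 - 2 by omega) (by omega))).trans
        (C4f_kl_mono _ (C4f_pt_le ha hr b1 b2))
    have h7 := co_mono h6
    omega
  by_cases hcase : ∀ a, nx π B' ≤ a → a < pL π → sdI a = sd →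
      kl G.cls (side sd π) B' (pt π a) = cf h v → a < j2
  · right
    intro x hx y hy
    rw [memU] at hx hy
    obtain ⟨a, a1, a2, a3, a4, a5⟩ := hx
    obtain ⟨b, b1, b2, b3, b4, b5⟩ := hy
    have h1 := hcase a a1 a2 a3 a4
    have h3 : a % 2 = j2 % 2 := sdI_eq.1 (a3.trans hsj.symm)
    have h4 : a + 2 ≤ j2 := by omega
    have h5 : G.lb π R a ≤ G.lb π R (j2 - 2) := lb_mono ha hr R (by omega) (by omega)
    have h6 : G.lb π R (j2 - 2) < G.lb π' R' (i1 + 2) := by
      have e : stL (G.td.lab (G.wd π)) R j2 = G.td.lab (G.wd π) R (j2 - 2) := by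
        unfold stL
        rw [if_neg (by omega)]
      rw [e] at g5
      exact g5
    have h7 : i1 < b := by
      apply C4f_lt ha' hr' p2 (x := side sd' π') (B' := B')
      rw [p4, b4]
      exact hww
    have h8 : i1 % 2 = b % 2 := sdI_eq.1 (p3.trans b3.symm)
    have h9 : G.lb π' R' (i1 + 2) ≤ G.lb π' R' b := lb_mono ha' hr' R' (by omega) b2
    rw [← a5, ← b5]
    omega
  · left
    push Not at hcase
    obtain ⟨b0, c1, c2, c3, c4, c5⟩ := hcase
    intro x hx y hy
    rw [memU] at hx hy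
    obtain ⟨a, a1, a2, a3, a4, a5⟩ := hx
    obtain ⟨b, b1, b2, b3, b4, b5⟩ := hy
    have h1 : a ≤ i1 := pmax a a1 a2 a3 a4
    have h2 : G.lb π' R' a ≤ G.lb π' R' i1 := lb_mono ha' hr' R' h1 p2
    have h3 : j2 ≤ b := by
      by_contra h4
      exact hcross b b0 b1 (by omega) c5 c2 b3 c3 b4 c4
    have h5 : G.lb π R j2 ≤ G.lb π R b := lb_mono ha hr R h3 b2
    rw [← a5, ← b5]
    omega

private theorem C4f_gs_le {π : Pr} {X : Fin 3} {sd : Bool} {B l : ℕ} :
    ∀ c : Cl, (c, l) ∈ G.gs π X sd B → co c ≤ G.D + 2 := by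
  rintro c ⟨i, -, -, -, hi⟩
  rw [Prod.mk.injEq] at hi
  rw [hi.1]
  exact co_mono (kl_le_D2 (G := G) _ _ _)

/-- the data of the third run -/
private theorem C4f_keep {X : Fin 3} {π π' : Pr} (hBB : B ≤ B') (h : Keep G X π π' B B') :
    G.td.tmpl (G.wd π') = G.td.tmpl (G.wd π) ∧ (nx π' B' < pL π' ↔ nx π B < pL π) ∧
    G.pv π' X B' = G.pv π X B ∧ (nx π B < pL π → G.nl π' X B' = G.nl π X B) ∧
    ∀ sd, G.gs π' X sd B' = G.gs π X sd B := by
  rcases h.2.2 with ⟨h1, rfl⟩ | ⟨h1, h2, h3⟩
  · have h4 : nx π' B' = nx π' B := by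
      apply le_antisymm
      · rw [h1]
        exact nx_le _
      · exact nx_mono hBB
    refine ⟨rfl, by rw [h4], ?_, ?_, ?_⟩
    · unfold Gm.pv
      rw [h4]
    · intro h5
      unfold Gm.nl
      rw [h4]
    · intro sd
      unfold Gm.gs
      ext p
      constructor
      · rintro ⟨i, hi, hi2, -⟩
        omega
      · rintro ⟨i, hi, hi2, -⟩
        omega
  · obtain ⟨d1, -, d3, d4, -, d6, -⟩ := feat_data h3
    exact ⟨d1, ⟨fun _ => h1, fun _ => h2⟩, d3, fun _ => d4, d6⟩

/-- the old class of a future event, after a new part of class `cf f i` -/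
private theorem C4f_old {π : Pr} {X : Fin 3} {Y : Set (Cl × ℕ)} (ha : π ∈ G.All) (hr : RS π)
    {f i k : ℕ} {sd : Bool} (hf : G.d < f) (hBB : B ≤ B') (hn : nx π B' = nx π B) (k1 : nx π B ≤ k)
    (k2 : k < pL π) (k3 : sdI k = sd) (hc : kl G.cls (side sd π) B B' = cf f i)
    (hY : G.gs π X sd B = Y) :
    (max (cf f i) (kl G.cls (side sd π) B' (pt π k)), G.lb π X k) ∈ Y ∧
      (f ≤ co (kl G.cls (side sd π) B' (pt π k)) →
        max (cf f i) (kl G.cls (side sd π) B' (pt π k)) = kl G.cls (side sd π) B' (pt π k) ∧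
        cf f i < kl G.cls (side sd π) B' (pt π k)) := by
  have hb : B' ≤ pt π k := (lt_pt (play_spec ha hr) (by omega) k2).le
  have hs := kl_split (cls := G.cls) (side sd π) hBB hb
  rw [hc] at hs
  have hL : G.Leaf (side sd π) := by
    cases sd with
    | true => exact ha.1
    | false => exact ha.2.1
  constructor
  · rw [← hs, ← hY]
    exact ⟨k, k1, k2, k3, rfl⟩
  · intro h1
    rcases lt_or_ge (cf f i) (kl G.cls (side sd π) B' (pt π k)) with h2 | h2
    · exact ⟨max_eq_right h2.le, h2⟩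
    · exfalso
      rw [max_eq_left h2] at hs
      have h3 := kl_dec (G := G) hL hf hBB hb hc hs
      omega

/-- **Opening, finite class.** `kp R = kp R' = cf f i`; at time `B'` (new part of class `cf f i`) both
next events have coarse class `< f` relative to the new node, and the classes `< f` of both runs are
well placed. `i2` for the player between `R` and `R'`: new classes `a`, `b`; old classes
`a0 = max (cf f i) a`, `b0`. Both coarse `< f`: `hpl`. `a` coarse `≥ f`: then `a = a0 > cf f i` (`kl_dec`: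
if `a0 = cf f i` then `co a < f`). So if `a`, `b` are both `≥ f`: old `i2`; if `co a < f ≤ co b`: `a0 = cf f i < b0`:
old `i2`; the same with exchanged roles. `Jt`: an event of `R`, side of `p`, with label `l` which has
`a0 > cf f i`: `i2` with the next event of `R'` (class `cf f i`) gives `nl R' < l ≤ nl R'`, contradiction; so all
`l`-events of `p` in `R` have new coarse class `< f`, the next event had coarse class `f`. For `R'`: the
coarse classes do not increase. -/
theorem tc_open_fin {R R' : Fin 3} {sd' : Bool} (h : CS G B B' e e' w w' t0 R R' sd') {f i : ℕ}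
    (hf : G.d < f) (hfD : f ≤ G.D + 1) (hK : G.kp (w R) B = cf f i)
    (hK' : G.kp (w R') B = cf f i)
    (hc : kl G.cls (side (ac w B R) (w' R)) B B' = cf f i)
    (hc' : kl G.cls (side sd' (w' R')) B B' = cf f i)
    (h1 : B' < pt (w' R) (nx (w' R) B)) (h2 : B' < pt (w' R') (nx (w' R') B))
    (hpl : ∀ a ∈ G.gs (w' R) R (ac w B R) B', ∀ b ∈ G.gs (w' R') R' sd' B', co a.1 < f →
      co b.1 < f → (a.1 < b.1 → a.2 < b.2) ∧ (b.1 < a.1 → b.2 < a.2)) :
    TC G B' e' w' t0 ∧ (∀ X, Pd w' B' X ↔ Pd w B X) ∧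
      (∀ X, Pd w B X → G.nl (w' X) X B' = G.nl (w X) X B) ∧
      Jt G w' B' (G.nl (w R) R B) < Jt G w B (G.nl (w R) R B) := by
  have hBB : B ≤ B' := h.lt.le
  have hRR : R' ≠ R := by
    have := (orr_pl R (ac w B R)).1
    rw [h.o] at this
    exact this
  obtain ⟨hPd', hac', -, -, -, -⟩ := tc_active h.tc h.mn h.o
  have hPd : Pd w B R := h.mn.1
  have horr : orr R' sd' = (R, ac w B R) := by
    have := (orr_pl R (ac w B R)).2.2
    rw [h.o] at this
    exact this
  -- the data of `R` and `R'`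
  obtain ⟨a1, a2, a3, a4, a5, a6, a7⟩ := feat_data h.fR.2
  obtain ⟨b1, b2, b3, b4, b5, b6, b7⟩ := feat_data h.fR'.2
  obtain ⟨o1, o2, o3, o4, -⟩ := open_data (play_spec (h.all R).1 (h.all R).2) (h.all R).1
    (h.all R).2 h.fR.1 hBB h1 R
  obtain ⟨q1, q2, q3, q4, -⟩ := open_data (play_spec (h.all R').1 (h.all R').2) (h.all R').1
    (h.all R').2 h.fR'.1 hBB h2 R'
  have hacR : sdI (nx (w' R) B) = ac w B R := a2
  have hacR' : sdI (nx (w' R') B) = sd' := b2.trans hac'
  -- all runs
  have dat : ∀ X, G.td.tmpl (G.wd (w' X)) = t0 ∧ (Pd w' B' X ↔ Pd w B X) ∧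
      G.pv (w' X) X B' = G.pv (w X) X B ∧ (Pd w B X → G.nl (w' X) X B' = G.nl (w X) X B) := by
    intro X
    by_cases hX : X = R
    · subst hX
      refine ⟨a1.trans (h.tc.tm _), ?_, o2.trans a3, fun _ => o3.trans a4⟩
      unfold Pd
      rw [o1]
      exact ⟨fun _ => hPd, fun _ => h.fR.1⟩
    · by_cases hX' : X = R'
      · subst hX'
        refine ⟨b1.trans (h.tc.tm _), ?_, q2.trans b3, fun _ => q3.trans b4⟩
        unfold Pd
        rw [q1]
        exact ⟨fun _ => hPd', fun _ => h.fR'.1⟩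
      · obtain ⟨k1, k2, k3, k4, -⟩ := C4f_keep hBB (h.keep X hX hX')
        exact ⟨k1.trans (h.tc.tm _), k2, k3, k4⟩
  have gsE : ∀ X sd, (X, sd) ≠ (R, ac w B R) → (X, sd) ≠ (R', sd') →
      G.gs (w' X) X sd B' = G.gs (w X) X sd B := by
    intro X sd hn hn'
    by_cases hX : X = R
    · subst hX
      have hsd : sd = !sdI (nx (w' X) B) := by
        rw [hacR]
        cases hs : sd <;> cases ha : ac w B X <;> simp_all
      rw [hsd, o4, a6]
    · by_cases hX' : X = R'
      · subst hX'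
        have hsd : sd = !sdI (nx (w' X) B) := by
          rw [hacR']
          cases hs : sd <;> cases ha : sd' <;> simp_all
        rw [hsd, q4, b6]
      · exact (C4f_keep hBB (h.keep X hX hX')).2.2.2.2 sd
  -- the old classes
  have hf1 : ∀ c : Cl, co c < f → max (cf f i) c = cf f i := by
    intro c hc
    apply max_eq_left
    exact (lt_of_co hc).le
  have oldR : ∀ a ∈ G.gs (w' R) R (ac w B R) B', (max (cf f i) a.1, a.2) ∈ G.gs (w R) R (ac w B R) B ∧
      (f ≤ co a.1 → max (cf f i) a.1 = a.1 ∧ cf f i < a.1) := by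
    rintro a ⟨k, k1, k2, k3, rfl⟩
    rw [o1] at k1
    exact C4f_old (h.all R).1 (h.all R).2 hf hBB o1 k1 k2 k3 hc (a6 _)
  have oldR' : ∀ a ∈ G.gs (w' R') R' sd' B', (max (cf f i) a.1, a.2) ∈ G.gs (w R') R' sd' B ∧
      (f ≤ co a.1 → max (cf f i) a.1 = a.1 ∧ cf f i < a.1) := by
    rintro a ⟨k, k1, k2, k3, rfl⟩
    rw [q1] at k1
    exact C4f_old (h.all R').1 (h.all R').2 hf hBB q1 k1 k2 k3 hc' (b6 _)
  have i2R : ∀ a ∈ G.gs (w R) R (ac w B R) B, ∀ b ∈ G.gs (w R') R' sd' B, a.1 < b.1 → a.2 < b.2 := by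
    intro a ha b hb
    have := h.tc.i2 R (ac w B R) a ha b (by rw [h.o]; exact hb)
    exact this
  have i2R' : ∀ a ∈ G.gs (w R') R' sd' B, ∀ b ∈ G.gs (w R) R (ac w B R) B, a.1 < b.1 → a.2 < b.2 := by
    intro a ha b hb
    have := h.tc.i2 R' sd' a ha b (by rw [horr]; exact hb)
    exact this
  have key : ∀ a ∈ G.gs (w' R) R (ac w B R) B', ∀ b ∈ G.gs (w' R') R' sd' B',
      (a.1 < b.1 → a.2 < b.2) ∧ (b.1 < a.1 → b.2 < a.2) := by
    intro a ha b hb
    obtain ⟨ha1, ha2⟩ := oldR a ha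
    obtain ⟨hb1, hb2⟩ := oldR' b hb
    constructor
    · intro hab
      by_cases hb3 : co b.1 < f
      · have ha3 : co a.1 < f := lt_of_le_of_lt (co_mono hab.le) hb3
        exact (hpl a ha b hb ha3 hb3).1 hab
      · obtain ⟨hb4, hb5⟩ := hb2 (not_lt.1 hb3)
        have h9 : max (cf f i) a.1 < max (cf f i) b.1 := by
          rw [hb4]
          exact max_lt hb5 hab
        exact i2R (max (cf f i) a.1, a.2) ha1 (max (cf f i) b.1, b.2) hb1 h9
    · intro hab
      by_cases ha3 : co a.1 < f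
      · have hb3 : co b.1 < f := lt_of_le_of_lt (co_mono hab.le) ha3
        exact (hpl a ha b hb ha3 hb3).2 hab
      · obtain ⟨ha4, ha5⟩ := ha2 (not_lt.1 ha3)
        have h9 : max (cf f i) b.1 < max (cf f i) a.1 := by
          rw [ha4]
          exact max_lt ha5 hab
        exact i2R' (max (cf f i) b.1, b.2) hb1 (max (cf f i) a.1, a.2) ha1 h9
  have tc' : TC G B' e' w' t0 := by
    refine ⟨fun X => (h.all X).1, fun X => (h.all X).2, fun X => (dat X).1, h.nd, ?_, ?_⟩
    · intro X X' hXX hX'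
      have hX2 : Pd w B X' := (dat X').2.1.1 hX'
      rw [(dat X).2.2.1, (dat X').2.2.2 hX2]
      exact h.tc.i1 X X' hXX hX2
    · intro X sd a ha b hb hab
      by_cases hX : (X, sd) = (R, ac w B R)
      · rw [Prod.mk.injEq] at hX
        obtain ⟨rfl, rfl⟩ := hX
        rw [h.o] at hb
        exact (key a ha b hb).1 hab
      · by_cases hX' : (X, sd) = (R', sd')
        · rw [Prod.mk.injEq] at hX'
          obtain ⟨rfl, rfl⟩ := hX'
          rw [horr] at hb
          exact (key b hb a ha).2 hab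
        · rw [gsE X sd hX hX'] at ha
          have h3 : orr X sd ≠ (R, ac w B R) := by
            intro h4
            apply hX'
            have h5 := (orr_pl X sd).2.2
            rw [h4] at h5
            simp only at h5
            rw [← h5, h.o]
          have h3' : orr X sd ≠ (R', sd') := by
            intro h4
            apply hX
            have h5 := (orr_pl X sd).2.2
            rw [h4] at h5
            simp only at h5
            rw [← h5, horr]
          rw [gsE (orr X sd).1 (orr X sd).2 h3 h3'] at hb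
          exact h.tc.i2 X sd a ha b hb hab
  refine ⟨tc', fun X => (dat X).2.1, fun X hX => (dat X).2.2.2 hX, ?_⟩
  have hcof : ∀ c : Cl, co c ≤ co (max (cf f i) c) := fun c => co_mono (le_max_right _ _)
  -- the terms
  have tR : jm (G.gs (w' R) R (ac w B R) B') (G.nl (w R) R B) + 1 ≤
      jm (G.gs (w R) R (ac w B R) B) (G.nl (w R) R B) := by
    have h5 : co (cf f i) ≤ jm (G.gs (w R) R (ac w B R) B) (G.nl (w R) R B) := by
      refine le_jm (c := cf f i) ?_ C4f_gs_le
      refine ⟨nx (w R) B, le_refl _, hPd, rfl, ?_⟩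
      rw [← hK]
      rfl
    have h6 : jm (G.gs (w' R) R (ac w B R) B') (G.nl (w R) R B) ≤ f - 1 := by
      refine jm_le ?_
      intro c hcm
      by_contra h7
      obtain ⟨h8, h9⟩ := oldR _ hcm
      have h10 : f ≤ co c := by omega
      obtain ⟨h11, h12⟩ := h9 h10
      have h13 : (cf f i, G.nl (w R') R' B) ∈ G.gs (w R') R' sd' B := by
        refine ⟨nx (w R') B, le_refl _, hPd', hac', ?_⟩
        rw [← hK', ← hac']
        rfl
      have h14 := i2R' _ h13 _ h8 (by
        show cf f i < max (cf f i) c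
        have h11' : max (cf f i) c = c := h11
        rw [h11']
        exact h12)
      have h15 := h.mn.2 R' hPd'
      have h16 : G.nl (w R') R' B < G.nl (w R) R B := h14
      omega
    have h7 : co (cf f i) = f := rfl
    omega
  have tR' : jm (G.gs (w' R') R' sd' B') (G.nl (w R) R B) ≤
      jm (G.gs (w R') R' sd' B) (G.nl (w R) R B) := by
    refine jm_le ?_
    intro c hcm
    obtain ⟨h8, -⟩ := oldR' _ hcm
    exact (hcof c).trans (le_jm h8 C4f_gs_le)
  have tle : ∀ X sd, jm (G.gs (w' X) X sd B') (G.nl (w R) R B) ≤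
      jm (G.gs (w X) X sd B) (G.nl (w R) R B) := by
    intro X sd
    by_cases hX : (X, sd) = (R, ac w B R)
    · rw [Prod.mk.injEq] at hX
      obtain ⟨rfl, rfl⟩ := hX
      omega
    · by_cases hX' : (X, sd) = (R', sd')
      · rw [Prod.mk.injEq] at hX'
        obtain ⟨rfl, rfl⟩ := hX'
        exact tR'
      · rw [gsE X sd hX hX']
  unfold Jt
  apply Finset.sum_lt_sum
  · intro X _
    exact Nat.add_le_add (tle X true) (tle X false)
  · refine ⟨R, Finset.mem_univ _, ?_⟩
    have t1 := tle R true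
    have t2 := tle R false
    cases ha : ac w B R with
    | true =>
      rw [ha] at tR
      omega
    | false =>
      rw [ha] at tR
      omega

end MPb6M
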