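import Pool.Agent.Lib.MP_b6d339_lc.Mix.G0
import Pool.Agent.Lib.MP_b6d339_lc.Mix.A2
import Pool.Agent.Lib.MP_b6d339_lc.Mix.G1
import Pool.Agent.Lib.MP_b6d339_lc.Mix.G2
import Pool.Agent.Lib.MP_b6d339_lc.Mix.G3
import Pool.Agent.Lib.MP_b6d339_lc.Mix.G4
import Pool.Agent.Lib.MP_b6d339_lc.Mix.G6
import Pool.Agent.Lib.MP_b6d339_lc.Mix.C1
import Pool.Agent.Lib.MP_b6d339_lc.Mix.C2
import Pool.Agent.Lib.MP_b6d339_lc.Mix.C3
import Pool.Agent.Lib.MP_b6d339_lc.Mix.C4

open Ordinal

namespace MPb6M

open MPb6P (Valid Compat plr stL)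

/-! # C5: the sweep of one pair (port of Eps/C5) -/
variable {G : Gm} {B : ℕ} {e : Fin 3 → Nd} {w : Fin 3 → Pr} {t0 : G.td.T}

/-- class of the event `i` relative to the node of its side at the time of the previous event -/
noncomputable def Kb (G : Gm) (π : Pr) (B i : ℕ) : Cl :=
  kl G.cls (side (sdI i) π) (if i < nx π B + 2 then B else pt π (i - 2)) (pt π i)

/-- the event `i` is mixed; `kf sd`, `lf sd` = class and label of the next event of the other run of
the player of the side `sd` (finite classes, exit: always mixed) -/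
def mixA (G : Gm) (R : Fin 3) (π : Pr) (B : ℕ) (kf : Bool → Cl) (lf : Bool → ℕ) (i : ℕ) : Prop :=
  Kb G π B i = kf (sdI i) ∧ (G.d < co (kf (sdI i)) ∨ ∃ i1, i ≤ i1 ∧ i1 < pL π ∧ sdI i1 = sdI i ∧
    co (kl G.cls (side (sdI i) π) (pt π i) (pt π i1)) < co (Kb G π B i) ∧
      lf (sdI i) ≤ G.lb π R i1)

/-- the first event which is not swept -/
noncomputable def stI (G : Gm) (R : Fin 3) (l : ℕ) (kf : Bool → Cl) (lf : Bool → ℕ) (π : Pr)
    (B : ℕ) : ℕ :=
  sInf {i | nx π B < i ∧ (pL π ≤ i ∨ G.lb π R i ≠ l ∨ mixA G R π B kf lf i)}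

/-- the stopping time: end of the last swept block -/
noncomputable def tau (G : Gm) (R : Fin 3) (l : ℕ) (kf : Bool → Cl) (lf : Bool → ℕ) (B : ℕ)
    (π : Pr) : ℕ := pt π (stI G R l kf lf π B - 1)

private theorem C5_stI_spec {R : Fin 3} {π : Pr} (hm : nx π B < pL π) (l : ℕ)
    (kf : Bool → Cl) (lf : Bool → ℕ) :
    nx π B < stI G R l kf lf π B ∧ stI G R l kf lf π B ≤ pL π ∧
    (pL π ≤ stI G R l kf lf π B ∨ G.lb π R (stI G R l kf lf π B) ≠ l ∨
      mixA G R π B kf lf (stI G R l kf lf π B)) ∧
    ∀ i, nx π B < i → i < stI G R l kf lf π B →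
      i < pL π ∧ G.lb π R i = l ∧ ¬ mixA G R π B kf lf i := by
  have hne : (pL π) ∈ {i | nx π B < i ∧ (pL π ≤ i ∨ G.lb π R i ≠ l ∨ mixA G R π B kf lf i)} :=
    ⟨hm, Or.inl le_rfl⟩
  have h1 : stI G R l kf lf π B ∈
      {i | nx π B < i ∧ (pL π ≤ i ∨ G.lb π R i ≠ l ∨ mixA G R π B kf lf i)} :=
    Nat.sInf_mem ⟨_, hne⟩
  have h2 : stI G R l kf lf π B ≤ pL π := Nat.sInf_le hne
  refine ⟨h1.1, h2, h1.2, fun i hi1 hi2 => ?_⟩
  have h3 : i ∉ {i | nx π B < i ∧ (pL π ≤ i ∨ G.lb π R i ≠ l ∨ mixA G R π B kf lf i)} :=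
    Nat.notMem_of_lt_sInf hi2
  have h4 : ¬ (pL π ≤ i ∨ G.lb π R i ≠ l ∨ mixA G R π B kf lf i) := fun h => h3 ⟨hi1, h⟩
  rw [not_or, not_or, not_le, not_not] at h4
  exact h4

theorem tau_be {R : Fin 3} {π : Pr} (hall : π ∈ G.All) (hr : RS π) (hm : nx π B < pL π) (l : ℕ)
    (kf : Bool → Cl) (lf : Bool → ℕ) :
    B < tau G R l kf lf B π ∧ BE π (tau G R l kf lf B π) := by
  have hp := play_spec hall hr
  obtain ⟨h1, h2, -, -⟩ := C5_stI_spec (G := G) (R := R) hm l kf lf
  have h3 : stI G R l kf lf π B - 1 < pL π := by omega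
  exact ⟨lt_pt hp (by omega) h3, be_pt hp h3⟩

open Classical in
/-- class and label of the next event of the other run of the side `s` of `R` (`0` if this player is
not active there) -/
noncomputable def kfo (G : Gm) (w : Fin 3 → Pr) (B : ℕ) (R : Fin 3) (s : Bool) : Cl :=
  if Pd w B (orr R s).1 ∧ ac w B (orr R s).1 = (orr R s).2 then G.kp (w (orr R s).1) B else ci 0

open Classical in
noncomputable def lfo (G : Gm) (w : Fin 3 → Pr) (B : ℕ) (R : Fin 3) (s : Bool) : ℕ :=
  if Pd w B (orr R s).1 ∧ ac w B (orr R s).1 = (orr R s).2 then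
    G.nl (w (orr R s).1) (orr R s).1 B else 0

private theorem C5_comp (h : TC G B e w t0) {π : Pr} (hall : π ∈ G.All) (hr : RS π)
    (ht : G.td.tmpl (G.wd π) = t0) (X : Fin 3) :
    Compat G.D (G.wd π) (G.td.lab (G.wd π)) (G.wd (w X)) (G.td.lab (G.wd (w X))) :=
  G.td.comp _ _ (valid_wd hall hr) (valid_wd (h.all X) (h.rs X)) (ht.trans (h.tm X).symm)

private theorem C5_pl_inj {X : Fin 3} {a b : Bool} (h : pl X a = pl X b) : a = b := by
  have h1 := (plr_eq (R := X)).1 h
  cases a <;> cases b <;> simp_all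

/-- an event of `π` with the label `l` -/
private theorem C5_ev (h : TC G B e w t0) {R : Fin 3} (hPR : Pd w B R) {π : Pr}
    (hall : π ∈ G.All) (hr : RS π) (ht : G.td.tmpl (G.wd π) = t0)
    (hgt : ∀ X, X ≠ R → Pd w B X → G.nl (w R) R B < G.nl (w X) X B)
    {i : ℕ} (hi : i < pL π) (hli : G.lb π R i = G.nl (w R) R B) :
    Pd w B (orr R (sdI i)).1 ∧ ac w B (orr R (sdI i)).1 = (orr R (sdI i)).2 ∧ i + 2 < pL π := by
  obtain ⟨ho1, ho2, ho3⟩ := orr_pl R (sdI i)
  generalize (orr R (sdI i)).1 = X at ho1 ho2 ho3 ⊢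
  generalize (orr R (sdI i)).2 = s' at ho2 ho3 ⊢
  have hc := C5_comp h hall hr ht X
  have hex : ∃ j, plr X j = plr R i := ⟨if s' then 0 else 1, by
    rw [← pl_sdI R i, ← ho2]; rfl⟩
  obtain ⟨j, hj, hpj, hlj, hkj, hfj⟩ := hc.timing R X ho1.symm i (by rw [wd_length]; exact hi) hex
  rw [wd_length] at hj
  have hlj' : G.nl (w R) R B ≤ G.lb (w X) X j := by rw [← hli]; exact hlj
  have hj1 : nx (w X) B ≤ j := by
    by_contra hcon
    push Not at hcon
    have h1 := h.i1 X R ho1 hPR
    have h2 : G.pv (w X) X B = G.lb (w X) X (nx (w X) B - 1) := by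
      unfold Gm.pv
      rw [if_neg (by omega)]
    have h3 : G.lb (w X) X j ≤ G.lb (w X) X (nx (w X) B - 1) :=
      lb_mono (h.all X) (h.rs X) X (by omega) (by
        have := nx_le (π := w X) B
        omega)
    omega
  have hPX : Pd w B X := lt_of_le_of_lt hj1 hj
  have h3 := hgt X ho1 hPX
  have hj2 : j = nx (w X) B := by
    by_contra hcon
    have h1 : nx (w X) B < j := by omega
    have h4 : G.lb (w X) X (nx (w X) B) < G.lb π R i := hkj _ h1
    rw [hli] at h4
    exact absurd h3 (not_lt.2 h4.le)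
  subst hj2
  refine ⟨hPX, ?_, ?_⟩
  · unfold ac
    apply C5_pl_inj (X := X)
    rw [pl_sdI, hpj, ho2, pl_sdI]
  · by_contra hcon
    push Not at hcon
    have h4 : G.lb π R i = G.lb (w X) X (nx (w X) B) := hfj (by rw [wd_length]; exact hcon)
    rw [hli] at h4
    exact absurd h4 (ne_of_lt h3)

private theorem C5_pt_le {π : Pr} (h : Play π.1 π.2 (pL π) (pt π)) {i j : ℕ} (hij : i ≤ j)
    (hj : j < pL π) : pt π i ≤ pt π j := by
  rcases hij.lt_or_eq with h1 | h1
  · exact (h.lt i j h1 hj).le
  · rw [h1]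

/-- a class `> ci 0` of an interval has positive coarse class -/
private theorem C5_co_pos {x : List ℕ} {b b' : ℕ} (h : ci 0 < kl G.cls x b b') :
    0 < co (kl G.cls x b b') := by
  have hex : ∃ n ∈ x, b < n ∧ n ≤ b' := by
    by_contra hcon
    push Not at hcon
    have h1 : kl G.cls x b b' = ci 0 := kl_none fun n hn hn2 => by
      by_contra h2
      push Not at h2
      exact absurd hn2 (not_le.2 (hcon n hn h2))
    rw [h1] at h
    exact lt_irrefl _ h
  obtain ⟨n, hn1, hn2, hn3⟩ := hex
  obtain ⟨m, -, -, -, hm⟩ := kl_mem (cls := G.cls) G.cls_pos hn1 hn2 hn3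
  rw [hm]
  rcases G.cls_ok m with ⟨j, hj1, hj2, hj⟩ | ⟨f, i, hf1, hf2, hf⟩ | hl
  · rw [hj]
    exact hj1
  · rw [hf]
    show 0 < f
    omega
  · rw [hl]
    show 0 < G.D + 2
    omega

/-- below an infinite class the coarse class is smaller -/
private theorem C5_co_lt {x y : List ℕ} {b b' c c' : ℕ} (h : kl G.cls x b b' < kl G.cls y c c')
    (hd : co (kl G.cls y c c') ≤ G.d) : co (kl G.cls x b b') < co (kl G.cls y c c') := by
  have key : ∀ (z : List ℕ) (u v : ℕ), co (kl G.cls z u v) ≤ G.d →
      kl G.cls z u v = ci (co (kl G.cls z u v)) := by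
    intro z u v hz
    by_cases hex : ∃ n ∈ z, u < n ∧ n ≤ v
    · obtain ⟨n, hn1, hn2, hn3⟩ := hex
      obtain ⟨m, -, -, -, hm⟩ := kl_mem (cls := G.cls) G.cls_pos hn1 hn2 hn3
      rw [hm] at hz ⊢
      rcases G.cls_ok m with ⟨j, hj1, hj2, hj⟩ | ⟨f, i, hf1, hf2, hf⟩ | hl
      · rw [hj]
        rfl
      · exfalso
        rw [hf] at hz
        have : f ≤ G.d := hz
        omega
      · exfalso
        rw [hl] at hz
        have : G.D + 2 ≤ G.d := hz
        have := G.hdD
        omega
    · push Not at hex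
      have h1 : kl G.cls z u v = ci 0 := kl_none fun n hn hn2 => by
        by_contra h2
        push Not at h2
        exact absurd hn2 (not_le.2 (hex n hn h2))
      rw [h1]
      rfl
  rcases (co_mono h.le).lt_or_eq with h1 | h1
  · exact h1
  · exfalso
    rw [key x b b' (by rw [h1]; exact hd), key y c c' hd, h1] at h
    exact lt_irrefl _ h

/-- **The sweep of the pair `π`** (same feature as `w R` at time `B`), `R` has the smallest label
`l` and is not mixed with `R' = (orr R (ac w B R)).1`. Let `m = nx π B`, `n = stI .. π B`.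
* The events `m, .., n - 1` have the label `l` and are not mixed (`m` is not mixed by `hmx`), since
`R'` has label `> l` (equal labels would give equal classes and mixedness with `i1 = m`).
* None of them is a finish: `Compat.timing` for `π` and the word of the other run of its player
gives an event with the same label `l` there; executed events there have labels `< l` (`i1`), future
ones `> l` (`tc_active`: third run; `R'`). So `n < pL π`.
* An event `m < i < n` of the side `s`: by `Compat.timing` (as in `tc_active`) the player of `s` is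
active in its other run `(orr R s).1`, which is pending. By `i2` for `(orr R s)` and `R`:
`kl (side s π) B (pt i) ≤ kfo s` (otherwise `lfo s < l`).
* If `kfo s` is finite (`d < co`), then `kl (side s π) B (pt i) < kfo s` for all executed events `i` of the
side `s`: the first executed event with equality would be mixed (its `Kb` is the class relative to the
previous event; the class relative to `B` is the maximum of the `Kb` up to `i`).
* `i2`-like statement: let `b ∈ gs` of the other run, `a = (kl B' (pt i), lb i)`, `i ≥ n`.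
`b.1 < a.1 ≤ kl B (pt i)`: old `i2`. `a.1 < b.1`: if `kl B (pt i) < b.1`: old `i2`. Otherwise
`kl B B' ≥ b.1 ≥ kfo s ≥ kl B B'` (for `s`, some event of the side `s` has been executed), so
`K := b.1 = kfo s = kl B B'`, in particular `K` is infinite. Let `i2` be the last executed event of the
side `s` with `Kb i2 = K` (all `Kb ≤ K`, and `kl B B'` is the maximum of the `Kb` of the executed events
of the side `s`); then `kl (pt i2) (pt i) < K`; as `i2` is not mixed, `lb i < lfo s ≤ b.2`.
* If `nl π R B' = l` then `n` is mixed by the definition of `stI`; the node of the side `sdI n` at time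
`B'` is the one used in `Kb n`, so `kp π B' = Kb n` (`own_none`, `kl_eq_left`).
* monotonicity of the classes: `kl B' (pt i) ≤ kl B (pt i)`. -/
theorem sweep_data (h : TC G B e w t0) {R R' : Fin 3} {sd' : Bool} (hR : Mn G w B R)
    (ho : orr R (ac w B R) = (R', sd')) (hmx : ¬ Mx G w B R R') {π : Pr} (hall : π ∈ G.All)
    (hr : RS π) (hm : nx π B < pL π) (hf : G.feat R π B = G.feat R (w R) B) {B' : ℕ}
    (hB' : B' = tau G R (G.nl (w R) R B) (kfo G w B R) (lfo G w B R) B π) :
    B < B' ∧ nx π B' < pL π ∧ nx π B < nx π B' ∧ G.nl (w R) R B < G.nl (w R') R' B ∧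
    (∀ s, (∃ n ∈ side s π, B < n ∧ n ≤ B') →
      Pd w B (orr R s).1 ∧ ac w B (orr R s).1 = (orr R s).2 ∧
      kl G.cls (side s π) B B' ≤ G.kp (w (orr R s).1) B ∧
      (G.d < co (G.kp (w (orr R s).1) B) →
        kl G.cls (side s π) B B' < G.kp (w (orr R s).1) B)) ∧
    G.pv π R B' = G.nl (w R) R B ∧ G.nl (w R) R B ≤ G.nl π R B' ∧
    (∀ s, ∀ a ∈ G.gs π R s B', ∀ b ∈ G.gs (w (orr R s).1) (orr R s).1 (orr R s).2 B,
      (a.1 < b.1 → a.2 < b.2) ∧ (b.1 < a.1 → b.2 < a.2)) ∧
    (∀ s, ∀ a ∈ G.gs π R s B', ∃ c : Cl, a.1 ≤ c ∧ (c, a.2) ∈ G.gs π R s B) ∧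
    (G.nl π R B' = G.nl (w R) R B → G.kp π B' = kfo G w B R (sdI (nx π B')) ∧
      (G.d < co (G.kp π B') ∨
      ∃ p ∈ G.ms π R (nx π B'), p.1 < co (G.kp π B') ∧ lfo G w B R (sdI (nx π B')) ≤ p.2)) := by
  have hp := play_spec hall hr
  obtain ⟨hf1, hf2, hf3, hf4, hf5, hf6, hf7⟩ := feat_data (X := R) hf
  obtain ⟨ha1, ha2, ha3, ha4, ha5, ha6⟩ := tc_active h hR ho
  have hPR : Pd w B R := hR.1
  have ht : G.td.tmpl (G.wd π) = t0 := hf1.trans (h.tm R)
  have hpR := play_spec (h.all R) (h.rs R)
  have hR'R : R' ≠ R := by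
    have := (orr_pl R (ac w B R)).1
    rw [ho] at this
    exact this
  -- the label of `R'` is larger
  have hA : G.nl (w R) R B < G.nl (w R') R' B := by
    rcases (hR.2 R' ha1).lt_or_eq with h1 | h1
    · exact h1
    · exfalso
      have h2 := ha5 h1.symm
      apply hmx
      refine ⟨h2.symm, Or.inr ⟨(co (kl G.cls (side (sdI (nx (w R) B)) (w R)) (pt (w R) (nx (w R) B))
        (pt (w R) (nx (w R) B))), G.lb (w R) R (nx (w R) B)),
        ⟨nx (w R) B, le_rfl, hPR, rfl, rfl⟩, ?_, ?_⟩⟩
      · have h3 : kl G.cls (side (sdI (nx (w R) B)) (w R)) (pt (w R) (nx (w R) B))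
            (pt (w R) (nx (w R) B)) = ci 0 := kl_none fun n _ hn => hn
        have h4 : ci 0 < G.kp (w R) B := kl_pos (h.all R) (h.rs R) hPR (lt_pt hpR le_rfl hPR)
        show co (kl G.cls _ _ _) < _
        rw [h3]
        exact C5_co_pos h4
      · exact h1.symm.le
  have hgt : ∀ X, X ≠ R → Pd w B X → G.nl (w R) R B < G.nl (w X) X B := by
    intro X hX hPX
    by_cases h1 : X = R'
    · subst h1
      exact hA
    · exact ha6 X hX h1 hPX
  generalize hlv : G.nl (w R) R B = l at *
  obtain ⟨hn1, hn2, hn3, hn4⟩ := C5_stI_spec (G := G) (R := R) hm l (kfo G w B R) (lfo G w B R)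
  have hBB := (tau_be (G := G) (R := R) hall hr hm l (kfo G w B R) (lfo G w B R)).1
  rw [← hB'] at hBB
  have hB'' : B' = pt π (stI G R l (kfo G w B R) (lfo G w B R) π B - 1) := hB'
  generalize stI G R l (kfo G w B R) (lfo G w B R) π B = n at *
  clear hB'
  have hlm : G.lb π R (nx π B) = l := hf4
  -- the labels of the executed events
  have hlab : ∀ i, nx π B ≤ i → i < n → G.lb π R i = l := by
    intro i hi1 hi2
    rcases hi1.lt_or_eq with h1 | h1
    · exact (hn4 i h1 hi2).2.1
    · rw [← h1]
      exact hlm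
  have hC : ∀ i, nx π B ≤ i → i < n → Pd w B (orr R (sdI i)).1 ∧
      ac w B (orr R (sdI i)).1 = (orr R (sdI i)).2 ∧ i + 2 < pL π := by
    intro i hi1 hi2
    exact C5_ev h hPR hall hr ht (by rw [hlv]; exact hgt) (by omega) (by rw [hlv]; exact hlab i hi1 hi2)
  have hnL : n < pL π := by
    have := (hC (n - 1) (by omega) (by omega)).2.2
    omega
  have hnx : nx π B' = n := by
    apply nx_eq hp
    · intro i hi
      rw [hB'']
      exact C5_pt_le hp (by omega) (by omega)
    · exact hn2
    · intro _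
      rw [hB'']
      exact hp.lt _ _ (by omega) hnL
  -- none of the executed events is mixed
  have hnm : ∀ i, nx π B ≤ i → i < n → ¬ mixA G R π B (kfo G w B R) (lfo G w B R) i := by
    intro i hi1 hi2
    rcases hi1.lt_or_eq with h1 | h1
    · exact (hn4 i h1 hi2).2.2
    · subst h1
      rintro ⟨h2, h3⟩
      obtain ⟨hc1, hc2, hc3⟩ := hC _ le_rfl hi2
      have hsd : sdI (nx π B) = ac w B R := hf2
      have hXR : (orr R (sdI (nx π B))).1 = R' := by rw [hsd, ho]
      have hkfo : kfo G w B R (sdI (nx π B)) = G.kp (w R') B := by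
        unfold kfo
        rw [if_pos ⟨hc1, hc2⟩, hXR]
      have hlfo : lfo G w B R (sdI (nx π B)) = G.nl (w R') R' B := by
        unfold lfo
        rw [if_pos ⟨hc1, hc2⟩, hXR]
      have hkm : Kb G π B (nx π B) = G.kp π B := by
        unfold Kb Gm.kp
        rw [if_pos (by omega)]
      rw [hkfo, hkm, hf5] at h2
      rw [hkfo, hlfo, hkm, hf5] at h3
      apply hmx
      refine ⟨h2, ?_⟩
      rcases h3 with h3 | ⟨i1, h4, h5, h6, h7, h8⟩
      · left
        rw [h2]
        exact h3
      · right
        refine ⟨(co (kl G.cls (side (sdI (nx π B)) π) (pt π (nx π B)) (pt π i1)), G.lb π R i1),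
          ?_, h7, h8⟩
        rw [← hf7]
        exact ⟨i1, h4, h5, h6, rfl⟩
  -- `i2` for the executed events
  have hD : ∀ i, nx π B ≤ i → i < n → kl G.cls (side (sdI i) π) B (pt π i) ≤
      G.kp (w (orr R (sdI i)).1) B := by
    intro i hi1 hi2
    obtain ⟨hc1, hc2, hc3⟩ := hC i hi1 hi2
    obtain ⟨ho1, ho2, ho3⟩ := orr_pl R (sdI i)
    by_contra hcon
    push Not at hcon
    have h1 := h.i2 (orr R (sdI i)).1 (orr R (sdI i)).2
      (G.kp (w (orr R (sdI i)).1) B, G.nl (w (orr R (sdI i)).1) (orr R (sdI i)).1 B)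
      ⟨nx (w (orr R (sdI i)).1) B, le_rfl, hc1, hc2, by rw [← hc2]; rfl⟩
      (kl G.cls (side (sdI i) π) B (pt π i), G.lb π R i)
      (by
        rw [ho3]
        show _ ∈ G.gs (w R) R (sdI i) B
        rw [← hf6]
        exact ⟨i, hi1, by omega, rfl, rfl⟩)
      hcon
    have h2 := hgt _ ho1 hc1
    have h3 : G.nl (w (orr R (sdI i)).1) (orr R (sdI i)).1 B < G.lb π R i := h1
    rw [hlab i hi1 hi2] at h3
    omega
  have hkfo : ∀ i, nx π B ≤ i → i < n → kfo G w B R (sdI i) = G.kp (w (orr R (sdI i)).1) B := by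
    intro i hi1 hi2
    obtain ⟨hc1, hc2, hc3⟩ := hC i hi1 hi2
    unfold kfo
    rw [if_pos ⟨hc1, hc2⟩]
  have hlfo : ∀ i, nx π B ≤ i → i < n →
      lfo G w B R (sdI i) = G.nl (w (orr R (sdI i)).1) (orr R (sdI i)).1 B := by
    intro i hi1 hi2
    obtain ⟨hc1, hc2, hc3⟩ := hC i hi1 hi2
    unfold lfo
    rw [if_pos ⟨hc1, hc2⟩]
  -- finite classes: strict
  have hD' : ∀ i, nx π B ≤ i → i < n → G.d < co (G.kp (w (orr R (sdI i)).1) B) →
      kl G.cls (side (sdI i) π) B (pt π i) < G.kp (w (orr R (sdI i)).1) B := by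
    intro i
    induction i using Nat.strong_induction_on with
    | _ i ih =>
      intro hi1 hi2 hfin
      rcases (hD i hi1 hi2).lt_or_eq with h1 | h1
      · exact h1
      · exfalso
        refine hnm i hi1 hi2 ⟨?_, Or.inl (by rw [hkfo i hi1 hi2]; exact hfin)⟩
        rw [hkfo i hi1 hi2]
        unfold Kb
        split_ifs with h2
        · exact h1
        · have hsd : sdI (i - 2) = sdI i := by
            rw [sdI_eq]
            omega
          have h3 := ih (i - 2) (by omega) (by omega) (by omega) (by rw [hsd]; exact hfin)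
          rw [hsd] at h3
          have h4 := kl_split (cls := G.cls) (side (sdI i) π)
            (lt_pt hp (B := B) (i := i - 2) (by omega) (by omega)).le
            (C5_pt_le hp (i := i - 2) (j := i) (by omega) (by omega))
          rw [h1] at h4
          rcases le_total (kl G.cls (side (sdI i) π) B (pt π (i - 2)))
            (kl G.cls (side (sdI i) π) (pt π (i - 2)) (pt π i)) with h5 | h5
          · rw [max_eq_right h5] at h4
            exact h4.symm
          · rw [max_eq_left h5] at h4
            rw [← h4] at h3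
            exact absurd h3 (lt_irrefl _)
  -- the sides which have been played
  have h5 : ∀ s, (∃ x ∈ side s π, B < x ∧ x ≤ B') → ∃ i, nx π B ≤ i ∧ i < n ∧ sdI i = s ∧
      ∀ x ∈ side s π, x ≤ B' → x ≤ pt π i := by
    rintro s ⟨x, hx1, hx2, hx3⟩
    by_cases hs : s = sdI (n - 1)
    · refine ⟨n - 1, by omega, by omega, hs.symm, fun y _ hy => ?_⟩
      rw [← hB'']
      exact hy
    · by_cases hn : nx π B = n - 1
      · exfalso
        have h1 : s = !sdI (nx π B) := by
          rw [hn]
          revert hs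
          cases s <;> cases sdI (n - 1) <;> simp
        have h2 := wait_none hp hm x (by rw [← h1]; exact hx1) (by rw [hn, ← hB'']; exact hx3)
        omega
      · have h1 : s = sdI (n - 2) := by
          have h2 := sdI_succ (n - 2)
          rw [show n - 2 + 1 = n - 1 by omega] at h2
          rw [h2] at hs
          revert hs
          cases s <;> cases sdI (n - 2) <;> simp
        refine ⟨n - 2, by omega, by omega, h1.symm, fun y hy hy2 => ?_⟩
        apply own_none hp (i := n - 2) (by omega) y (by rw [← h1]; exact hy)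
        rw [show n - 2 + 1 = n - 1 by omega, ← hB'']
        exact hy2
  have hptB' : ∀ i, i < n → pt π i ≤ B' := by
    intro i hi
    rw [hB'']
    exact C5_pt_le hp (by omega) (by omega)
  have h5' : ∀ s, (∃ x ∈ side s π, B < x ∧ x ≤ B') →
      Pd w B (orr R s).1 ∧ ac w B (orr R s).1 = (orr R s).2 ∧
      kl G.cls (side s π) B B' ≤ G.kp (w (orr R s).1) B ∧
      (G.d < co (G.kp (w (orr R s).1) B) →
        kl G.cls (side s π) B B' < G.kp (w (orr R s).1) B) := by
    intro s hs
    obtain ⟨i, hi1, hi2, hi3, hi4⟩ := h5 s hs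
    subst hi3
    obtain ⟨hc1, hc2, hc3⟩ := hC i hi1 hi2
    refine ⟨hc1, hc2, ?_, ?_⟩
    · rw [kl_eq_right (hptB' i hi2) hi4]
      exact hD i hi1 hi2
    · rw [kl_eq_right (hptB' i hi2) hi4]
      exact hD' i hi1 hi2
  -- future events of `π` at time `B'` are future events at time `B`
  have hgs : ∀ i, n ≤ i → i < pL π → kl G.cls (side (sdI i) π) B (pt π i) =
      max (kl G.cls (side (sdI i) π) B B') (kl G.cls (side (sdI i) π) B' (pt π i)) := by
    intro i hi1 hi2
    apply kl_split _ hBB.le
    rw [hB'']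
    exact C5_pt_le hp (by omega) hi2
  refine ⟨hBB, by rw [hnx]; exact hnL, by rw [hnx]; exact hn1, hA, h5', ?_, ?_, ?_, ?_, ?_⟩
  · unfold Gm.pv
    rw [hnx, if_neg (by omega)]
    exact hlab _ (by omega) (by omega)
  · show l ≤ G.lb π R (nx π B')
    rw [hnx, ← hlm]
    exact lb_mono hall hr R (by omega) hnL
  · rintro s a ⟨i, hi1, hi2, hi3, rfl⟩ b hb
    rw [hnx] at hi1
    subst hi3
    obtain ⟨ho1, ho2, ho3⟩ := orr_pl R (sdI i)
    have hmem : (kl G.cls (side (sdI i) π) B (pt π i), G.lb π R i) ∈ G.gs (w R) R (sdI i) B := by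
      rw [← hf6]
      exact ⟨i, by omega, hi2, rfl, rfl⟩
    have hsp := hgs i hi1 hi2
    refine ⟨fun hab => ?_, fun hab => ?_⟩
    · have hab' : kl G.cls (side (sdI i) π) B' (pt π i) < b.1 := hab
      show G.lb π R i < b.2
      by_cases hcase : kl G.cls (side (sdI i) π) B (pt π i) < b.1
      · exact h.i2 R (sdI i) _ hmem b hb hcase
      · push Not at hcase
        have hK1 : b.1 ≤ kl G.cls (side (sdI i) π) B B' := by
          rw [hsp] at hcase
          rcases le_max_iff.1 hcase with h1 | h1
          · exact h1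
          · exact absurd h1 (not_le.2 hab')
        have hK0 : ci 0 < kl G.cls (side (sdI i) π) B B' :=
          lt_of_le_of_lt (kl_ge _ _ _) (lt_of_lt_of_le hab' hK1)
        have hex : ∃ x ∈ side (sdI i) π, B < x ∧ x ≤ B' := by
          by_contra hcon
          push Not at hcon
          have h1 : kl G.cls (side (sdI i) π) B B' = ci 0 := kl_none fun x hx hx2 => by
            by_contra h2
            push Not at h2
            exact absurd hx2 (not_le.2 (hcon x hx h2))
          rw [h1] at hK0
          exact lt_irrefl _ hK0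
        obtain ⟨hc1, hc2, hc3, hc4⟩ := h5' _ hex
        have hpX := play_spec (h.all (orr R (sdI i)).1) (h.rs (orr R (sdI i)).1)
        obtain ⟨i', hi'1, hi'2, hi'3, hb'⟩ := hb
        have hb1 : b.1 = kl G.cls (side (orr R (sdI i)).2 (w (orr R (sdI i)).1)) B
            (pt (w (orr R (sdI i)).1) i') := by rw [hb']
        have hb2 : b.2 = G.lb (w (orr R (sdI i)).1) (orr R (sdI i)).1 i' := by rw [hb']
        have hkb : G.kp (w (orr R (sdI i)).1) B ≤ b.1 := by
          rw [hb1, kl_split _ (lt_pt hpX le_rfl hc1).le (C5_pt_le hpX hi'1 hi'2)]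
          refine le_trans (le_of_eq ?_) (le_max_left _ _)
          rw [← hc2]
          rfl
        have hlb' : G.nl (w (orr R (sdI i)).1) (orr R (sdI i)).1 B ≤ b.2 := by
          rw [hb2]
          exact lb_mono (h.all _) (h.rs _) _ hi'1 hi'2
        -- everything is equal
        have hKK : kl G.cls (side (sdI i) π) B B' = b.1 := le_antisymm (hc3.trans hkb) hK1
        have hKk : G.kp (w (orr R (sdI i)).1) B = b.1 := le_antisymm hkb (hK1.trans hc3)
        have hinf : co b.1 ≤ G.d := by
          by_contra hcon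
          push Not at hcon
          have h1 := hc4 (by rw [hKk]; exact hcon)
          rw [hKK, hKk] at h1
          exact lt_irrefl _ h1
        have hb0 : ci 0 < b.1 := lt_of_lt_of_le hK0 hKK.le
        -- the last event with class `K`
        obtain ⟨i0, hi01, hi02, hi03, hi04⟩ := h5 _ hex
        have hEx : ∃ j, nx π B ≤ j ∧ j < n ∧ sdI j = sdI i ∧
            kl G.cls (side (sdI i) π) (pt π j) B' < b.1 := by
          refine ⟨i0, hi01, hi02, hi03, ?_⟩
          rw [kl_none hi04]
          exact hb0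
        classical
        obtain ⟨hj1, hj2, hj3, hj4⟩ := Nat.find_spec hEx
        have hjmin := fun k hk => Nat.find_min hEx (m := k) hk
        generalize Nat.find hEx = j at hj1 hj2 hj3 hj4 hjmin
        have hjB' := hptB' j hj2
        have hjL : j < pL π := by omega
        have hBj : B < pt π j := lt_pt hp hj1 hjL
        -- class of the event `j`
        have hKb : Kb G π B j = b.1 := by
          unfold Kb
          rw [hj3]
          split_ifs with hj5
          · have h1 := kl_split (cls := G.cls) (side (sdI i) π) hBj.le hjB'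
            rw [hKK] at h1
            rcases le_total (kl G.cls (side (sdI i) π) B (pt π j))
              (kl G.cls (side (sdI i) π) (pt π j) B') with h2 | h2
            · rw [max_eq_right h2] at h1
              rw [← h1] at hj4
              exact absurd hj4 (lt_irrefl _)
            · rw [max_eq_left h2] at h1
              exact h1.symm
          · have h2 := hjmin (j - 2) (by omega)
            have h3 : b.1 ≤ kl G.cls (side (sdI i) π) (pt π (j - 2)) B' := by
              by_contra h4
              push Not at h4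
              refine h2 ⟨by omega, by omega, ?_, h4⟩
              rw [← hj3, sdI_eq]
              omega
            have h4 : kl G.cls (side (sdI i) π) (pt π (j - 2)) B' ≤ b.1 := by
              rw [← hKK, kl_split (side (sdI i) π)
                (lt_pt hp (B := B) (i := j - 2) (by omega) (by omega)).le
                (hptB' (j - 2) (by omega))]
              exact le_max_right _ _
            have h1 := kl_split (cls := G.cls) (side (sdI i) π)
              (C5_pt_le hp (i := j - 2) (j := j) (by omega) hjL) hjB'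
            have h6 := le_antisymm h4 h3
            rw [h6] at h1
            rcases le_total (kl G.cls (side (sdI i) π) (pt π (j - 2)) (pt π j))
              (kl G.cls (side (sdI i) π) (pt π j) B') with h7 | h7
            · rw [max_eq_right h7] at h1
              rw [← h1] at hj4
              exact absurd hj4 (lt_irrefl _)
            · rw [max_eq_left h7] at h1
              exact h1.symm
        have hlt : kl G.cls (side (sdI i) π) (pt π j) (pt π i) < b.1 := by
          rw [kl_split (side (sdI i) π) hjB' (by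
            rw [hB'']
            exact C5_pt_le hp (by omega) hi2)]
          exact max_lt hj4 hab'
        by_contra h2
        push Not at h2
        apply hnm j hj1 hj2
        refine ⟨by rw [hKb, hkfo j hj1 hj2, hj3, hKk], Or.inr ⟨i, by omega, hi2, hj3.symm, ?_, ?_⟩⟩
        · rw [hj3, hKb]
          rw [hb1] at hlt hinf ⊢
          exact C5_co_lt hlt hinf
        · rw [hlfo j hj1 hj2, hj3]
          exact hlb'.trans h2
    · have hab' : b.1 < kl G.cls (side (sdI i) π) B' (pt π i) := hab
      show b.2 < G.lb π R i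
      have h1 : b.1 < kl G.cls (side (sdI i) π) B (pt π i) := by
        rw [hsp]
        exact lt_max_of_lt_right hab'
      exact h.i2 (orr R (sdI i)).1 (orr R (sdI i)).2 b hb
        (kl G.cls (side (sdI i) π) B (pt π i), G.lb π R i) (by rw [ho3]; exact hmem) h1
  · rintro s a ⟨i, hi1, hi2, hi3, rfl⟩
    rw [hnx] at hi1
    subst hi3
    refine ⟨kl G.cls (side (sdI i) π) B (pt π i), ?_, ⟨i, by omega, hi2, rfl, rfl⟩⟩
    rw [hgs i hi1 hi2]
    exact le_max_right _ _
  · intro hnl
    have hnl' : G.lb π R n = l := by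
      rw [← hnx]
      exact hnl
    have hkp : G.kp π B' = Kb G π B n := by
      unfold Gm.kp Kb
      rw [hnx]
      symm
      split_ifs with h7
      · apply kl_eq_left hBB.le
        intro x hx hx2
        have h8 : n = nx π B + 1 := by omega
        apply wait_none hp hm x
        · rw [h8, sdI_succ] at hx
          exact hx
        · rw [hB''] at hx2
          rw [show n - 1 = nx π B by omega] at hx2
          exact hx2
      · apply kl_eq_left (hptB' _ (by omega))
        intro x hx hx2
        apply own_none hp (i := n - 2) (by omega) x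
        · have h8 : sdI (n - 2) = sdI n := by
            rw [sdI_eq]
            omega
          rw [h8]
          exact hx
        · rw [show n - 2 + 1 = n - 1 by omega, ← hB'']
          exact hx2
    rcases hn3 with h1 | h1 | ⟨h1, h2⟩
    · omega
    · exact absurd hnl' h1
    · rw [hkp, hnx]
      refine ⟨h1, ?_⟩
      rcases h2 with h2 | ⟨i1, h2, h3, h4, h6, h7⟩
      · left
        rw [h1]
        exact h2
      · right
        exact ⟨(co (kl G.cls (side (sdI n) π) (pt π n) (pt π i1)), G.lb π R i1),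
          ⟨i1, h2, h3, h4, rfl⟩, h6, h7⟩

end MPb6M
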