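import Pool.Agent.Lib.MP_b6d339_lc.Mix.G0
import Pool.Agent.Lib.MP_b6d339_lc.Mix.A2
import Pool.Agent.Lib.MP_b6d339_lc.Mix.G1
import Pool.Agent.Lib.MP_b6d339_lc.Mix.G2
import Pool.Agent.Lib.MP_b6d339_lc.Mix.G3
import Pool.Agent.Lib.MP_b6d339_lc.Mix.G4
import Pool.Agent.Lib.MP_b6d339_lc.Mix.G6
import Pool.Agent.Lib.MP_b6d339_lc.Mix.C1
import Pool.Agent.Lib.MP_b6d339_lc.Mix.C2
import Pool.Agent.Lib.MP_b6d339_lc.Mix.C3
import Pool.Agent.Lib.MP_b6d339_lc.Mix.C4
import Pool.Agent.Lib.MP_b6d339_lc.Mix.C5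

open Ordinal

namespace MPb6M

open MPb6P (Valid Compat plr stL)

/-! # C6: the invariant after a sweep (port of Eps/C6) -/
variable {G : Gm} {B B' : ℕ} {e e' : Fin 3 → Nd} {w w' : Fin 3 → Pr} {t0 : G.td.T}

/-- a finished pair has no future events -/
private theorem C6_gs_empty {π : Pr} {B : ℕ} (h : nx π B = pL π) (X : Fin 3) (sd : Bool) :
    G.gs π X sd B = ∅ := by
  ext p
  simp only [Gm.gs, Set.mem_ofPred_eq, Set.mem_empty_iff_false, iff_false, not_exists, not_and]
  intro i h1 h2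
  omega

/-- the data of a run which is kept -/
private theorem C6_keep {X : Fin 3} {π π' : Pr} (hB : B ≤ B') (h : Keep G X π π' B B') :
    G.td.tmpl (G.wd π') = G.td.tmpl (G.wd π) ∧ G.pv π' X B' = G.pv π X B ∧
      (∀ sd, G.gs π' X sd B' = G.gs π X sd B) ∧ (nx π' B' < pL π' ↔ nx π B < pL π) ∧
      (nx π B < pL π → G.nl π' X B' = G.nl π X B ∧ G.kp π' B' = G.kp π B) := by
  obtain ⟨_, _, h | h⟩ := h
  · obtain ⟨h1, h2⟩ := h
    subst h2
    have h3 : nx π' B' = pL π' := le_antisymm (nx_le B') (h1 ▸ nx_mono hB)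
    refine ⟨rfl, ?_, fun sd => ?_, ?_, fun h4 => ?_⟩
    · unfold Gm.pv
      rw [h3, h1]
    · rw [C6_gs_empty h3, C6_gs_empty h1]
    · rw [h3, h1]
    · omega
  · obtain ⟨h1, h2, h3⟩ := h
    obtain ⟨f1, _, f3, f4, f5, f6, _⟩ := feat_data h3
    exact ⟨f1, f3, f6, ⟨fun _ => h1, fun _ => h2⟩, fun _ => ⟨f4, f5⟩⟩

private theorem C6_jm {X Y : Set (Cl × ℕ)} {l k : ℕ} (h : ∀ c : Cl, (c, l) ∈ X → ∃ c', c ≤ c' ∧ (c', l) ∈ Y)
    (hb : ∀ c : Cl, (c, l) ∈ Y → co c ≤ k) : jm X l ≤ jm Y l := by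
  refine jm_le fun c hc => ?_
  obtain ⟨c', h1, h2⟩ := h c hc
  exact (co_mono h1).trans (le_jm h2 hb)

private theorem C6_gs_bd (π : Pr) (X : Fin 3) (sd : Bool) (B l : ℕ) (c : Cl)
    (h : (c, l) ∈ G.gs π X sd B) : co c ≤ G.D + 2 := by
  obtain ⟨i, _, _, _, h4⟩ := h
  have h5 := congrArg Prod.fst h4
  simp only at h5
  rw [h5]
  exact co_mono (kl_le_D2 (G := G) _ B (pt π i))

/-- Uses `sweep_data` for `π = w' R`; the other runs are kept (`Keep`, `feat_data`). In the last
statement: if the label `l` remains, the run `R` is mixed with the other run of its active player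
(`kfo > ci 0` because `kp > ci 0`, so the `if` in `kfo`, `lfo` is true). -/
theorem tc_sweep (h : TC G B e w t0) {R R' : Fin 3} {sd' : Bool} (hR : Mn G w B R)
    (ho : orr R (ac w B R) = (R', sd')) (hmx : ¬ Mx G w B R R') (hall : w' R ∈ G.All)
    (hr : RS (w' R)) (hm : nx (w' R) B < pL (w' R))
    (hf : G.feat R (w' R) B = G.feat R (w R) B)
    (hB' : B' = tau G R (G.nl (w R) R B) (kfo G w B R) (lfo G w B R) B (w' R))
    (hk : ∀ X, X ≠ R → Keep G X (w X) (w' X) B B')
    (hnd : ∀ X sd, tr (side sd (w' X)) B' = e' (pl X sd)) :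
    TC G B' e' w' t0 ∧ (∀ X, Pd w' B' X ↔ Pd w B X) ∧
      ((∀ X, Pd w' B' X → G.nl (w R) R B < G.nl (w' X) X B') ∨
        (Mn G w' B' R ∧ G.nl (w' R) R B' = G.nl (w R) R B ∧
          Mx G w' B' R (orr R (ac w' B' R)).1 ∧
          Jt G w' B' (G.nl (w R) R B) ≤ Jt G w B (G.nl (w R) R B))) := by
  obtain ⟨s1, s2, s3, s4, s5, s6, s7, s8, s9, s10⟩ := sweep_data h hR ho hmx hall hr hm hf hB'
  obtain ⟨f1, f2, f3, f4, f5, f6, f7⟩ := feat_data hf
  have hkd := fun X hX => C6_keep s1.le (hk X hX)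
  -- the labels of the other pending runs are larger
  have hlt : ∀ X, X ≠ R → nx (w X) B < pL (w X) → G.nl (w R) R B < G.nl (w X) X B := by
    intro X hX hp
    by_cases hXR : X = R'
    · subst hXR
      exact s4
    · exact (tc_active h hR ho).2.2.2.2.2 X hX hXR hp
  have hPd : ∀ X, Pd w' B' X ↔ Pd w B X := by
    intro X
    by_cases hX : X = R
    · subst hX
      exact ⟨fun _ => hR.1, fun _ => s2⟩
    · exact (hkd X hX).2.2.2.1
  have hgs : ∀ X, X ≠ R → ∀ sd, G.gs (w' X) X sd B' = G.gs (w X) X sd B := fun X hX =>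
    (hkd X hX).2.2.1
  have hnl : ∀ X, X ≠ R → nx (w X) B < pL (w X) → G.nl (w' X) X B' = G.nl (w X) X B ∧
      G.kp (w' X) B' = G.kp (w X) B := fun X hX => (hkd X hX).2.2.2.2
  refine ⟨⟨?_, ?_, ?_, hnd, ?_, ?_⟩, hPd, ?_⟩
  · intro X
    by_cases hX : X = R
    · subst hX
      exact hall
    · exact (hk X hX).1
  · intro X
    by_cases hX : X = R
    · subst hX
      exact hr
    · exact (hk X hX).2.1
  · intro X
    by_cases hX : X = R
    · subst hX
      rw [f1]
      exact h.tm X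
    · rw [(hkd X hX).1]
      exact h.tm X
  · intro R1 R2 hne hp
    by_cases h2 : R2 = R
    · subst h2
      rw [(hkd R1 hne).2.1]
      exact (h.i1 R1 R2 hne hR.1).trans_le s7
    · have hp2 : nx (w R2) B < pL (w R2) := (hPd R2).1 hp
      rw [(hnl R2 h2 hp2).1]
      by_cases h1 : R1 = R
      · subst h1
        rw [s6]
        exact hlt R2 h2 hp2
      · rw [(hkd R1 h1).2.1]
        exact h.i1 R1 R2 hne hp2
  · intro R1 sd a ha b hb
    obtain ⟨o1, o2, o3⟩ := orr_pl R1 sd
    by_cases h1 : R1 = R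
    · subst h1
      rw [hgs _ o1] at hb
      exact (s8 sd a ha b hb).1
    · rw [hgs _ h1] at ha
      by_cases h2 : (orr R1 sd).1 = R
      · generalize hq : orr R1 sd = q at *
        obtain ⟨X, s⟩ := q
        simp only at h2 hb o3
        subst h2
        have h3 := s8 s b hb a
        rw [o3] at h3
        exact (h3 ha).2
      · rw [hgs _ h2] at hb
        exact h.i2 R1 sd a ha b hb
  · rcases s7.lt_or_eq with hl | hl
    · left
      intro X hX
      by_cases h1 : X = R
      · subst h1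
        exact hl
      · have hp := (hPd X).1 hX
        rw [(hnl X h1 hp).1]
        exact hlt X h1 hp
    · right
      refine ⟨⟨s2, ?_⟩, hl.symm, ?_, ?_⟩
      · intro X hX
        rw [← hl]
        by_cases h1 : X = R
        · subst h1
          exact s7
        · have hp := (hPd X).1 hX
          rw [(hnl X h1 hp).1]
          exact (hlt X h1 hp).le
      · obtain ⟨t1, t2⟩ := s10 hl.symm
        have hpos : ci 0 < G.kp (w' R) B' :=
          kl_pos hall hr s2 (lt_pt (play_spec hall hr) le_rfl s2)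
        have hc : Pd w B (orr R (sdI (nx (w' R) B'))).1 ∧
            ac w B (orr R (sdI (nx (w' R) B'))).1 = (orr R (sdI (nx (w' R) B'))).2 := by
          by_contra hcon
          rw [t1, kfo, if_neg hcon] at hpos
          exact lt_irrefl _ hpos
        have hne := (orr_pl R (sdI (nx (w' R) B'))).1
        obtain ⟨u1, u2⟩ := hnl _ hne hc.1
        rw [kfo, if_pos hc] at t1
        rw [lfo, if_pos hc] at t2
        refine ⟨?_, ?_⟩
        · change G.kp (w' R) B' = G.kp (w' (orr R (sdI (nx (w' R) B'))).1) B'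
          rw [t1, u2]
        · change G.d < co (G.kp (w' R) B') ∨ ∃ p ∈ G.ms (w' R) R (nx (w' R) B'),
            p.1 < co (G.kp (w' R) B') ∧
              G.nl (w' (orr R (sdI (nx (w' R) B'))).1) (orr R (sdI (nx (w' R) B'))).1 B' ≤ p.2
          rw [u1]
          exact t2
      · unfold Jt
        refine Finset.sum_le_sum fun X _ => ?_
        by_cases h1 : X = R
        · subst h1
          refine add_le_add ?_ ?_
          · rw [← f6 true]
            exact C6_jm (fun c hc => s9 true (c, _) hc) fun c hc => C6_gs_bd _ _ _ _ _ _ hc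
          · rw [← f6 false]
            exact C6_jm (fun c hc => s9 false (c, _) hc) fun c hc => C6_gs_bd _ _ _ _ _ _ hc
        · rw [hgs X h1, hgs X h1]

end MPb6M
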