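import Mathlib

/-!
# Erdős 592, positive side: the abstract two-sided game with rooms, infinite and finite classes

Nodes are lists of naturals. Coarse classes: `1..d` infinite classes (ordinal needs), `d+1..m`
finite classes (needs = finite sets of levels), `m+1` = leaf. The class `m` is the exit from the
root (one level `0`). A number has a refined class in `ℕ ×ₗ ℤ`: `(j, 0)` for an infinite class or a
leaf, `(f, -i)` for the level `i` of a finite class (lower level = larger class).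
-/

open Ordinal

namespace MPb6M

abbrev Nd := List ℕ
abbrev Pr := List ℕ × List ℕ

/-- refined classes -/
abbrev Cl := ℕ ×ₗ ℤ

/-- refined class of an infinite class, or of a leaf -/
abbrev ci (j : ℕ) : Cl := toLex (j, 0)

/-- refined class of the level `i` of the finite class `f` -/
abbrev cf (f i : ℕ) : Cl := toLex (f, -(i : ℤ))

/-- coarse class -/
abbrev co (c : Cl) : ℕ := (ofLex c).1

/-- needs: ordinals for the infinite classes, finite sets of levels for the finite classes -/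
structure Need where
  o : ℕ → Ordinal.{0}
  l : ℕ → Finset ℕ

abbrev Tok := Nd × Option Need

/-- at least `ω` and closed under multiplication -/
def Lim (a : Ordinal.{0}) : Prop := ω ≤ a ∧ ∀ x < a, ∀ y < a, x * y < a

/-- one level -/
noncomputable def z (a : Ordinal.{0}) : Ordinal.{0} := if a = 0 then 0 else ω ^ ω ^ a

/-- one level, applied to needs: only the infinite classes -/
noncomputable def zN (a : Need) : Need := ⟨fun j => z (a.o j), a.l⟩

/-- a binary operation which is strictly monotone in both arguments, with neutral element `0` -/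
noncomputable def sm (a b : Ordinal.{0}) : Ordinal.{0} :=
  if a = 0 then b else if b = 0 then a else max a b * max a b + min a b

/-- the part of `x` up to time `B` -/
def tr (x : List ℕ) (B : ℕ) : List ℕ := x.takeWhile (fun n => decide (n ≤ B))

/-- last number -/
def lastN (x : List ℕ) : ℕ := x.getLastD 0

/-- the fixed data -/
structure Sys where
  /-- number of infinite classes -/
  d : ℕ
  /-- the last finite class (exit from the root) -/
  m : ℕ
  hdm : d < m
  /-- bounds of the infinite classes `1..d` -/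
  κ : ℕ → Ordinal.{0}
  hκ : ∀ j, 1 ≤ j → j ≤ d → Lim (κ j)
  hz : ∀ j, 1 ≤ j → j ≤ d → ∀ a < κ j, z a < κ j
  /-- refined class of a number -/
  cls : ℕ → Cl
  cls_ok : ∀ n, (∃ j, 1 ≤ j ∧ j ≤ d ∧ cls n = ci j) ∨ (∃ f i, d < f ∧ f ≤ m ∧ cls n = cf f i) ∨
    cls n = ci (m + 1)
  /-- valid nodes -/
  Val : Nd → Prop
  /-- names of objects -/
  J : Type
  /-- the pairs of the object `j` with active node `a`, waiting node `w`, at time `B` -/
  Fob : J → Nd → Nd → ℕ → Set Pr
  /-- finitely many objects at every time -/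
  fin : ∀ a w B, (Set.range fun j => Fob j a w B).Finite
  /-- objects contain only pairs which are not yet finished -/
  new : ∀ j a w B π, π ∈ Fob j a w B → (∃ n ∈ π.1, B < n) ∨ ∃ n ∈ π.2, B < n

/-- a request: its refined class, the wanted need (`none` = leaf), the wanted sizes of the new
level sets (finite classes below the class of the request) -/
structure Rq where
  g : Cl
  o : Option Need
  n : ℕ → ℕ

namespace Sys
variable (S : Sys)

/-- class of an extension -/
def cl (s : List ℕ) : Cl := (s.map S.cls).foldr max (ci 0)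

/-- coordinatewise order of needs -/
def NLe (a b : Need) : Prop :=
  (∀ j, 1 ≤ j → j ≤ S.d → a.o j ≤ b.o j) ∧ ∀ f, S.d < f → f ≤ S.m → a.l f ⊆ b.l f

/-- request of the infinite class `j` with the wanted need `a'` -/
def RqI (a : Need) (j : ℕ) (a' : Need) : Prop :=
  1 ≤ j ∧ j ≤ S.d ∧ a'.o j < a.o j ∧ (∀ i, j < i → i ≤ S.d → a'.o i ≤ a.o i) ∧
    (∀ i, 1 ≤ i → i < j → a'.o i < S.κ i) ∧ ∀ f, S.d < f → f ≤ S.m → a'.l f ⊆ a.l f

/-- request of the level `i` of the finite class `f` with the wanted need `a'` (only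
`a'.o` and `a'.l h`, `f ≤ h`, matter) -/
def RqF (a : Need) (f i : ℕ) (a' : Need) : Prop :=
  S.d < f ∧ f ≤ S.m ∧ i ∈ a.l f ∧ (∀ j, 1 ≤ j → j ≤ S.d → a'.o j < S.κ j) ∧
    a'.l f ⊆ (a.l f).filter (· < i) ∧ ∀ h, f < h → h ≤ S.m → a'.l h ⊆ a.l h

/-- the requests from the need `a` -/
def Req (a : Need) (ρ : Rq) : Prop :=
  (∃ j a', ρ.g = ci j ∧ ρ.o = some a' ∧ S.RqI a j a') ∨
    (∃ f i a', ρ.g = cf f i ∧ ρ.o = some a' ∧ S.RqF a f i a') ∨
    (ρ.g = ci (S.m + 1) ∧ ρ.o = none)

/-- the admissible needs of the answer: the level sets of the finite classes below the class of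
the request are chosen by Red, with the wanted sizes -/
def Adm (ρ : Rq) (b : Option Need) : Prop :=
  (ρ.o = none ∧ b = none) ∨ ∃ a' b', ρ.o = some a' ∧ b = some b' ∧ b'.o = a'.o ∧
    ∀ h, S.d < h → h ≤ S.m → if h < co ρ.g then (b'.l h).card = ρ.n h else b'.l h = a'.l h

/-- all coordinates are limits or `0` -/
def LimN (a : Need) : Prop := ∀ j, 1 ≤ j → j ≤ S.d → a.o j = 0 ∨ Lim (a.o j)

end Sys

/-- a state: tokens, time, forbidden pairs -/
structure St where
  P : List Tok
  B : ℕ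
  F : Set Pr

/-- the nodes of a list of tokens -/
def nds (P : List Tok) : List Nd := P.map Prod.fst

/-- well-formed lists of tokens -/
structure WFl (S : Sys) (P : List Tok) (B : ℕ) : Prop where
  nd : (nds P).Nodup
  inc : ∀ t ∈ P, t.1.Pairwise (· < ·)
  bd : ∀ t ∈ P, ∀ n ∈ t.1, n ≤ B
  val : ∀ t ∈ P, S.Val t.1
  nl : ∀ e a, (e, some a) ∈ P → S.cl e < ci (S.m + 1)
  lf : ∀ e, (e, none) ∈ P → S.cl e = ci (S.m + 1)

/-- the answer `e ++ s` to a request of class `g` -/
structure Ans (S : Sys) (t : St) (e : Nd) (g : Cl) (N : ℕ) (s : List ℕ) : Prop where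
  ne : s ≠ []
  inc : s.Pairwise (· < ·)
  big : ∀ n ∈ s, N < n ∧ t.B < n
  val : S.Val (e ++ s)
  cl : S.cl s = g

/-- no forbidden pair is finished -/
def OK (t : St) : Prop := ∀ x y, (x, none) ∈ t.P → (y, none) ∈ t.P → (x, y) ∉ t.F

/-- one round of Red's game, `Rm` = the condition on rooms, `𝒮` = where the game stays -/
def Stp (S : Sys) (Rm : List Tok → ℕ → Set Pr → Prop) (𝒮 : Set St) (t : St) : Prop :=
  ∀ e a, (e, some a) ∈ t.P → ∀ ρ, S.Req a ρ → ∀ N,
    ∃ s b F', Ans S t e ρ.g N s ∧ S.Adm ρ b ∧ t.F ⊆ F' ∧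
      Rm ((e ++ s, b) :: t.P) (lastN (e ++ s)) F' ∧
      (⟨(e ++ s, b) :: t.P, lastN (e ++ s), F'⟩ : St) ∈ 𝒮

/-- Red can play forever -/
def VV (S : Sys) (Rm : List Tok → ℕ → Set Pr → Prop) (t : St) : Prop :=
  ∃ 𝒮 : Set St, t ∈ 𝒮 ∧ ∀ t ∈ 𝒮, OK t ∧ Stp S Rm 𝒮 t

/-- `(Q, B, Fr)` is a complete room for the tokens `P`. The needs of `Q` are free (limits in the
infinite classes, arbitrary level sets). -/
structure RoomAt (S : Sys) (W : St → Prop) (P : List Tok) (B : ℕ) (Fr : Set Pr)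
    (Q : List Tok) : Prop where
  wf : WFl S Q B
  cov : ∀ e a, (e, some a) ∈ P → ∃ a', (e, some a') ∈ Q
  covl : ∀ e, (e, none) ∈ P → (e, none) ∈ Q
  lim : ∀ e a, (e, some a) ∈ Q → S.LimN a
  win : W ⟨Q, B, Fr⟩
  comp : ∀ j, ∀ a ∈ nds P, ∀ w ∈ nds P,
    S.Fob j a w B ⊆ Fr ∨ ¬ W ⟨Q, B, Fr ∪ S.Fob j a w B⟩

/-- there is a complete room inside `F'` -/
def Rm (S : Sys) (W : St → Prop) (P : List Tok) (B : ℕ) (F' : Set Pr) : Prop :=
  ∃ Fr ⊆ F', ∃ Q, RoomAt S W P B Fr Q

/-- **Red's game of level `k`.** -/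
def V (S : Sys) : ℕ → St → Prop
  | 0 => VV S (fun _ _ _ => True)
  | k + 1 => VV S (Rm S (V S k))

/-- the need of the root: the exit is possible -/
def rootN (S : Sys) : Need := ⟨fun _ => 0, fun f => if f = S.m then {0} else ∅⟩

/-- `P'` asks for less than `P` -/
def Less (S : Sys) (P' P : List Tok) : Prop :=
  (∀ e a', (e, some a') ∈ P' → ∃ a, (e, some a) ∈ P ∧ S.NLe a' a) ∧
    ∀ e, (e, none) ∈ P' → (e, none) ∈ P

/-- the pairs which can still arise -/
def Ari (P : List Tok) (B : ℕ) : Set Pr := {π | tr π.1 B ∈ nds P ∧ tr π.2 B ∈ nds P}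

/-- replace the need of the token `c` -/
noncomputable def repl (P : List Tok) (c : Nd) (o : Option Need) : List Tok :=
  (c, o) :: P.filter (fun t => decide (t.1 ≠ c))

/-- `X` cannot be killed, if the need of `c` is `o` -/
def nk (S : Sys) (k : ℕ) (t : St) (c : Nd) (o : Option Need) (X : Set Pr) : Prop :=
  ¬ V S k ⟨repl t.P c o, t.B, t.F ∪ X⟩

/-- extension of states: more tokens, old tokens keep their needs -/
structure Ext (t t' : St) : Prop where
  P : t.P ⊆ t'.P
  B : t.B ≤ t'.B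
  F : t.F ⊆ t'.F

/-- component of a pair -/
def side (sd : Bool) (π : Pr) : List ℕ := if sd then π.1 else π.2

/-- A line: an object whose active player walks along the nodes `c`, with the same feature. -/
structure Line (S : Sys) where
  kap : Cl
  kap_pos : ci 0 < kap
  kap_le : kap ≤ ci (S.m + 1)
  sd : Bool
  w : Nd
  Fo : Nd → ℕ → Set Pr
  pos : ∀ c B π, π ∈ Fo c B → tr (side sd π) B = c ∧ tr (side (!sd) π) B = w ∧
    (∃ n ∈ side sd π, B < n ∧ ∀ m ∈ side (!sd) π, B < m → n < m) ∧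
    π.1.Pairwise (· < ·) ∧ π.2.Pairwise (· < ·)
  time : ∀ c B B' π, π ∈ Fo c B → B ≤ B' → tr (side sd π) B' = c → π ∈ Fo c B'
  low : ∀ c B s B' π, π ∈ Fo c B → s ≠ [] → (∀ n ∈ s, B < n) → S.cl s < kap →
    tr (side sd π) B' = c ++ s → tr (side (!sd) π) B' = w → π ∈ Fo (c ++ s) B'
  thru : ∀ c B s s' B' B'' π, π ∈ Fo c B → (∀ n ∈ s, B < n) → s' ≠ [] → S.cl s ≤ S.cl s' →
    B ≤ B' → (∀ n ∈ c ++ s, n ≤ B') → (∀ n ∈ s', B' < n) →
    tr (side sd π) B'' = c ++ s ++ s' → tr (side (!sd) π) B'' = w → π ∈ Fo (c ++ s) B'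
  dead : ∀ c B s B' π, π ∈ Fo c B → s ≠ [] → (∀ n ∈ s, B < n) →
    tr (side sd π) B' = c ++ s → tr (side (!sd) π) B' = w → S.cl s ≤ kap
  up : ∀ c B s B' π, π ∈ Fo (c ++ s) B' → (∀ n ∈ c, n ≤ B) → (∀ n ∈ w, n ≤ B) →
    (∀ n ∈ s, B < n) → B ≤ B' → S.cl s ≤ kap → π ∈ Fo c B

/-- the pairs through the new node `c'` of the active player -/
def Line.Thr {S : Sys} (L : Line S) (c' : Nd) (B' : ℕ) : Set Pr :=
  {π | tr (side L.sd π) B' = c' ∧ tr (side (!L.sd) π) B' = L.w}

/-- `ρ` is a failing request: no new node of its class above `c`, with no admissible need, lets Red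
kill the line. -/
def Act (S : Sys) (k : ℕ) (L : Line S) (c : Nd) (B0 : ℕ) (t1 : St) (ρ : Rq) (N : ℕ) : Prop :=
  ∀ t' : St, Ext t1 t' → WFl S t'.P t'.B → ∀ s, s ≠ [] → (∀ n ∈ s, N < n) → S.cl s = ρ.g →
    c ++ s ∈ nds t'.P → t'.B = lastN (c ++ s) → Rm S (V S k) t'.P t'.B t'.F →
    ∀ b, S.Adm ρ b →
    ¬ V S (k + 1) ⟨repl t'.P (c ++ s) b, t'.B, t'.F ∪ (L.Fo c B0 ∩ L.Thr (c ++ s) t'.B)⟩

/-- block end: `b` belongs to one component and the next number is on the other side (or there is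
no further number on this side) -/
def BE (π : Pr) (b : ℕ) : Prop :=
  ∃ sd : Bool, b ∈ side sd π ∧ ((∀ n ∈ side sd π, n ≤ b) ∨
    ∃ m ∈ side (!sd) π, b < m ∧ ∀ n ∈ side sd π, b < n → m < n)

end MPb6M
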