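import Pool.Agent.Lib.MP_b6d339_lc.Mix.Defs
import Pool.Agent.Lib.MP_b6d339_lc.Pos.PDefs

/-!
# G0: pairs of leaves, blocks, words, features (definitions), refined classes

Independent of the game: only the classes of the numbers, the blue pairs and the templates matter.
Coarse classes: infinite classes `1..d`, finite classes `d+1..D`, exit `D+1`, leaf `D+2`.
-/

open Ordinal

namespace MPb6M

open MPb6P (Valid Compat plr stL)

/-- template data (`MPb6P.TT D`) -/
structure TD (D : ℕ) where
  M : ℕ
  T : Type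
  fin : Finite T
  tmpl : List ℕ → T
  lab : List ℕ → Fin 3 → ℕ → ℕ
  bd : ∀ u R i, 1 ≤ lab u R i ∧ lab u R i ≤ M
  mono : ∀ u, Valid D u → ∀ R i j, i ≤ j → j < u.length → lab u R i ≤ lab u R j
  comp : ∀ u u', Valid D u → Valid D u' → tmpl u = tmpl u' → Compat D u (lab u) u' (lab u')

/-- class of a list of numbers -/
def clf (cls : ℕ → Cl) (s : List ℕ) : Cl := (s.map cls).foldr max (ci 0)

/-- class of the numbers of `x` in `(B, B']` -/
def kl (cls : ℕ → Cl) (x : List ℕ) (B B' : ℕ) : Cl :=
  clf cls (x.filter fun n => decide (B < n ∧ n ≤ B'))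

/-- the geometric data -/
structure Gm where
  D : ℕ
  d : ℕ
  hd : 1 ≤ d
  hdD : d ≤ D
  cls : ℕ → Cl
  cls_ok : ∀ n, (∃ j, 1 ≤ j ∧ j ≤ d ∧ cls n = ci j) ∨
    (∃ f i, d < f ∧ f ≤ D + 1 ∧ cls n = cf f i) ∨ cls n = ci (D + 2)
  /-- the leaves of the tree -/
  val : List ℕ → Prop
  /-- a leaf is a single number, or its first number is the exit (and there is no other one) -/
  val_hd : ∀ x, val x → (∃ n, x = [n]) ∨
    ∃ n s, x = n :: s ∧ cls n = cf (D + 1) 0 ∧ ∀ m ∈ s, co (cls m) ≠ D + 1
  val_last : ∀ x, val x → ∃ s n, x = s ++ [n] ∧ cls n = ci (D + 2) ∧ ∀ m ∈ s, cls m < ci (D + 2)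
  /-- levels of a finite class decrease, i.e. the refined classes increase -/
  val_dec : ∀ x, val x → ∀ s1 s2 s3 n n', x = s1 ++ n :: (s2 ++ n' :: s3) → d < co (cls n) →
    co (cls n') = co (cls n) → (∀ m ∈ s2, co (cls m) ≤ co (cls n)) → cls n < cls n'
  /-- finitely many classes above a node -/
  val_fin : ∀ a : Nd, {c : Cl | ∃ x B b, val x ∧ tr x B = a ∧ c = kl cls x B b}.Finite
  blue : List ℕ → List ℕ → Prop
  td : TD D

/-- side of the event with index `i`: `true` = first component -/
def sdI (i : ℕ) : Bool := decide (i % 2 = 0)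

/-- the blocks of the pair `(x, y)` (disjoint, `x` starts): `t i` = last number of block `i`,
`i < L`. Block `i` belongs to the side `sdI i`. -/
structure Play (x y : List ℕ) (L : ℕ) (t : ℕ → ℕ) : Prop where
  two : 2 ≤ L
  lt : ∀ i j, i < j → j < L → t i < t j
  mem : ∀ i < L, t i ∈ side (sdI i) (x, y)
  blk0 : ∀ n ∈ y, t 0 < n
  blk : ∀ i, i + 1 < L → ∀ n ∈ side (sdI i) (x, y), n ≤ t (i + 1) → n ≤ t i
  top : ∀ n, n ∈ x ∨ n ∈ y → n ≤ t (L - 1)

open Classical in
/-- number of blocks -/
noncomputable def pL (π : Pr) : ℕ :=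
  if h : ∃ L t, Play π.1 π.2 L t then h.choose else 0

open Classical in
/-- the times at which the blocks end -/
noncomputable def pt (π : Pr) : ℕ → ℕ :=
  if h : ∃ L t, Play π.1 π.2 L t then h.choose_spec.choose else fun _ => 0

/-- index of the next event at time `B` (number of blocks which end at or before `B`) -/
noncomputable def nx (π : Pr) (B : ℕ) : ℕ := ((Finset.range (pL π)).filter fun i => pt π i ≤ B).card

/-- the pair is split at the root -/
def RS (π : Pr) : Prop := π.1.head? ≠ π.2.head?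

/-- features -/
structure Ft (T : Type) where
  /-- template -/
  tp : T
  /-- whose turn -/
  par : Bool
  /-- label of the last event -/
  pv : ℕ
  /-- label of the next event -/
  nl : ℕ
  /-- class of the next event, relative to the current node -/
  kap : Cl
  /-- `(class relative to the current node, label)` for the future events of both sides -/
  g1 : Set (Cl × ℕ)
  g2 : Set (Cl × ℕ)
  /-- `(coarse class, label)` for the active side, relative to the node of the next event -/
  ms : Set (ℕ × ℕ)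

namespace Gm
variable (G : Gm)

/-- leaves -/
structure Leaf (x : List ℕ) : Prop where
  inc : x.Pairwise (· < ·)
  pos : ∀ n ∈ x, 0 < n
  val : G.val x

/-- the oriented blue pairs -/
def All : Set Pr := {π | G.Leaf π.1 ∧ G.Leaf π.2 ∧ G.blue π.1 π.2 ∧
  ∃ c x y a b, π.1 = c ++ a :: x ∧ π.2 = c ++ b :: y ∧ a < b ∧ ∀ n ∈ a :: x, n ∉ b :: y}

/-- the word of a pair: the letters are coarse classes -/
noncomputable def wd (π : Pr) : List ℕ := (List.range (pL π)).map fun i =>
  if i < 2 then G.D + 1 else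
    min (G.D + 1) (co (kl G.cls (side (sdI i) π) (pt π (i - 2)) (pt π i)))

/-- label of event `i` in the role `R` -/
noncomputable def lb (π : Pr) (R : Fin 3) (i : ℕ) : ℕ := G.td.lab (G.wd π) R i

/-- classes (relative to the current node) and labels of the future events of the side `sd` -/
def gs (π : Pr) (R : Fin 3) (sd : Bool) (B : ℕ) : Set (Cl × ℕ) := {p | ∃ i, nx π B ≤ i ∧ i < pL π ∧
  sdI i = sd ∧ p = (kl G.cls (side sd π) B (pt π i), G.lb π R i)}

/-- the same for the side of the event `m`, relative to the node of this event, coarse classes -/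
def ms (π : Pr) (R : Fin 3) (m : ℕ) : Set (ℕ × ℕ) := {p | ∃ i, m ≤ i ∧ i < pL π ∧
  sdI i = sdI m ∧ p = (co (kl G.cls (side (sdI m) π) (pt π m) (pt π i)), G.lb π R i)}

noncomputable def pv (π : Pr) (R : Fin 3) (B : ℕ) : ℕ :=
  if nx π B = 0 then 0 else G.lb π R (nx π B - 1)

noncomputable def nl (π : Pr) (R : Fin 3) (B : ℕ) : ℕ := G.lb π R (nx π B)

noncomputable def kp (π : Pr) (B : ℕ) : Cl :=
  kl G.cls (side (sdI (nx π B)) π) B (pt π (nx π B))

/-- the feature of the pair `π` in the role `R` at time `B` -/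
noncomputable def feat (R : Fin 3) (π : Pr) (B : ℕ) : Ft G.td.T :=
  ⟨G.td.tmpl (G.wd π), sdI (nx π B), G.pv π R B, G.nl π R B, G.kp π B, G.gs π R true B,
    G.gs π R false B, G.ms π R (nx π B)⟩

/-- the pairs with feature `q` in the role `R` at time `B`: active node `c`, waiting node `w` -/
def lf (R : Fin 3) (q : Ft G.td.T) (w c : Nd) (B : ℕ) : Set Pr :=
  {π | π ∈ G.All ∧ RS π ∧ nx π B < pL π ∧ G.feat R π B = q ∧ tr (side q.par π) B = c ∧
    tr (side (!q.par) π) B = w}

end Gm

/-- the player of the side `sd` in the run `R` -/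
def pl (R : Fin 3) (sd : Bool) : Fin 3 := plr R (if sd then 0 else 1)

/-- the other run and side of the same player -/
def orr (R : Fin 3) (sd : Bool) : Fin 3 × Bool :=
  if R = 0 then (if sd then (1, true) else (2, true))
  else if R = 1 then (if sd then (0, true) else (2, false))
  else (if sd then (0, false) else (1, false))

/-- maximum of the letters `u j`, `m < j ≤ i`, `j ≡ m` mod 2 -/
def Cw (u : List ℕ) (m i : ℕ) : ℕ :=
  ((Finset.range (i + 1)).filter fun j => m < j ∧ j % 2 = m % 2).sup fun j => u.getD j 0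

/-- Three witnesses: the combinatorial part of the invariant. `e p` = node of the player `p`,
`w R` = a pair for the run `R`. -/
structure TC (G : Gm) (B : ℕ) (e : Fin 3 → Nd) (w : Fin 3 → Pr) (t0 : G.td.T) : Prop where
  all : ∀ R, w R ∈ G.All
  rs : ∀ R, RS (w R)
  tm : ∀ R, G.td.tmpl (G.wd (w R)) = t0
  nd : ∀ R sd, tr (side sd (w R)) B = e (pl R sd)
  i1 : ∀ R R', R ≠ R' → nx (w R') B < pL (w R') → G.pv (w R) R B < G.nl (w R') R' B
  i2 : ∀ R sd, ∀ a ∈ G.gs (w R) R sd B, ∀ b ∈ G.gs (w (orr R sd).1) (orr R sd).1 (orr R sd).2 B,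
    a.1 < b.1 → a.2 < b.2

end MPb6M
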