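import Pool.Agent.Lib.MP_b6d339_lc.Mix.Defs
import Pool.Agent.Lib.MP_b6d339_lc.Mix.A1
import Pool.Agent.Lib.MP_b6d339_lc.Mix.A2
import Pool.Agent.Lib.MP_b6d339_lc.Mix.A3
import Pool.Agent.Lib.MP_b6d339_lc.Mix.A4
import Pool.Agent.Lib.MP_b6d339_lc.Mix.A4m
import Pool.Agent.Lib.MP_b6d339_lc.Mix.A5a
import Pool.Agent.Lib.MP_b6d339_lc.Mix.A5
import Pool.Agent.Lib.MP_b6d339_lc.Mix.A5p

open Ordinal

namespace MPb6M

/-! # Open1: pairs which cannot arise, general form -/
variable {S : Sys}

/-- `b` is a block end of `x` in the pair of `x` and `y` -/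
def BEs (x y : List ℕ) (b : ℕ) : Prop :=
  b ∈ x ∧ ((∀ n ∈ x, n ≤ b) ∨ ∃ m ∈ y, b < m ∧ ∀ n ∈ x, b < n → m < n)

theorem BE_iff (π : Pr) (b : ℕ) : BE π b ↔ ∃ sd, BEs (side sd π) (side (!sd) π) b := Iff.rfl

private theorem O1_mem_nds {P : List Tok} {e : Nd} (h : e ∈ nds P) : ∃ o, (e, o) ∈ P := by
  obtain ⟨⟨e', o⟩, ho, rfl⟩ := List.mem_map.1 h
  exact ⟨o, ho⟩

private theorem O1_nds_mem {P : List Tok} {e : Nd} {o : Option Need} (h : (e, o) ∈ P) :
    e ∈ nds P := List.mem_map.2 ⟨_, h, rfl⟩

/-- A pair which is finished later has its block ends at tokens. If the tokens satisfy an invariant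
`I` which is kept by answers, then pairs whose block ends are not at nodes with `I` cannot arise. -/
theorem V_arise {k : ℕ} {P : List Tok} {B : ℕ} {F X : Set Pr} (hW : WFl S P B)
    (hV : V S (k + 1) ⟨P, B, F⟩) (I : Nd → Option Need → Prop)
    (h0 : ∀ e o, (e, o) ∈ P → I e o)
    (h1 : ∀ e a ρ b s, I e (some a) → S.Req a ρ → S.Adm ρ b → s ≠ [] →
      (∀ n ∈ s, B < n ∧ ∀ m ∈ e, m < n) → (e ++ s).Pairwise (· < ·) → S.cl s = ρ.g → I (e ++ s) b)
    (hX : ∀ π ∈ X, (∀ sd b, B < b → BEs (side sd π) (side (!sd) π) b →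
      ∃ o, I (tr (side sd π) b) o) → π ∈ F) :
    V S (k + 1) ⟨P, B, F ∪ X⟩ := by
  refine V_coind {u | ∃ P' B' F', u = ⟨P', B', F' ∪ X⟩ ∧ V S (k + 1) ⟨P', B', F'⟩ ∧ WFl S P' B' ∧
    F ⊆ F' ∧ B ≤ B' ∧ (∀ e o, (e, o) ∈ P' → I e o) ∧
    ∀ x y, x ∈ nds P' → y ∈ nds P' → ∀ b, B < b → BEs x y b → ∃ o, I (tr x b) o} ?_ ?_
  · rintro u ⟨P', B', F', rfl, hV', hW', hF', hB', hI, hE⟩
    have hbd : ∀ x ∈ nds P', ∀ n ∈ x, n ≤ B' := by
      intro x hx
      obtain ⟨o, ho⟩ := O1_mem_nds hx
      exact hW'.bd _ ho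
    refine ⟨?_, ?_⟩
    · intro x y hx hy hxy
      have hxn := O1_nds_mem hx
      have hyn := O1_nds_mem hy
      rcases hxy with hxy | hxy
      · exact V_ok hV' x y hx hy hxy
      · refine V_ok hV' x y hx hy (hF' (hX _ hxy ?_))
        intro sd b hb hbe
        cases sd with
        | true => exact hE x y hxn hyn b hb hbe
        | false => exact hE y x hyn hxn b hb hbe
    · intro e a he ρ hr N
      obtain ⟨s, b0, F1, hs, hb0, hF1, hR, hV1⟩ := V_step hV' he hr N
      have hW1 := WF_cons (F := F') hW' he hr hs hb0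
      have hIe : I (e ++ s) b0 := by
        refine h1 e a ρ b0 s (hI _ _ he) hr hb0 hs.ne (fun n hn => ?_) (hW1.inc _ List.mem_cons_self)
          hs.cl
        have h2 := (hs.big n hn).2
        exact ⟨lt_of_le_of_lt hB' h2, fun m hm => lt_of_le_of_lt (hW'.bd _ he m hm) h2⟩
      have htr : ∀ x ∈ nds ((e ++ s, b0) :: P'), ∀ b, (∀ n ∈ x, n ≤ b) → ∃ o, I (tr x b) o := by
        intro x hx b hb
        rw [tr_self hb]
        obtain ⟨o, ho⟩ := O1_mem_nds hx
        rcases List.mem_cons.1 ho with h | h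
        · obtain ⟨rfl, rfl⟩ := Prod.mk.inj h
          exact ⟨_, hIe⟩
        · exact ⟨o, hI _ _ h⟩
      have hsB : ∀ n ∈ s, B' < n := fun n hn => (hs.big n hn).2
      refine ⟨s, b0, F1 ∪ X, ⟨hs.ne, hs.inc, hs.big, hs.val, hs.cl⟩, hb0,
        Set.union_subset_union_left _ hF1, Rm_mono (Less.refl _) Set.subset_union_left hR, ?_⟩
      refine ⟨_, _, F1, rfl, hV1, hW1, hF'.trans hF1, ?_, ?_, ?_⟩
      · have := hsB _ (lastN_mem (e := e) hs.ne)
        omega
      · intro e' o h
        rcases List.mem_cons.1 h with h | h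
        · obtain ⟨rfl, rfl⟩ := Prod.mk.inj h
          exact hIe
        · exact hI _ _ h
      · intro x y hx hy b hb hbe
        obtain ⟨hbx, hbe⟩ := hbe
        rcases hbe with hbe | ⟨m, hm, hbm, hmn⟩
        · exact htr x hx b hbe
        · -- the next number of the pair is `m ∈ y`
          have hxc : x = e ++ s ∨ x ∈ nds P' := by
            obtain ⟨o, ho⟩ := O1_mem_nds hx
            rcases List.mem_cons.1 ho with h | h
            · exact Or.inl (Prod.mk.inj h).1
            · exact Or.inr (O1_nds_mem h)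
          have hyc : y = e ++ s ∨ y ∈ nds P' := by
            obtain ⟨o, ho⟩ := O1_mem_nds hy
            rcases List.mem_cons.1 ho with h | h
            · exact Or.inl (Prod.mk.inj h).1
            · exact Or.inr (O1_nds_mem h)
          have hen : e ∈ nds P' := O1_nds_mem he
          rcases hxc with rfl | hxo
          · rcases hyc with rfl | hyo
            · exact absurd (hmn m hm hbm) (lt_irrefl m)
            · have hmB : m ≤ B' := hbd y hyo m hm
              have hbe' : b ∈ e := by
                rcases List.mem_append.1 hbx with h | h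
                · exact h
                · have := hsB b h
                  omega
              have h2 : tr (e ++ s) b = tr e b := by
                have h3 : b ≤ B' := hbd e hen b hbe'
                rw [← tr_tr (e ++ s) h3, tr_append (hbd e hen) hsB]
              rw [h2]
              exact hE e y hen hyo b hb ⟨hbe', Or.inr ⟨m, hm, hbm,
                fun n hn => hmn n (List.mem_append_left _ hn)⟩⟩
          · rcases hyc with rfl | hyo
            · rcases List.mem_append.1 hm with h | h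
              · exact hE x e hxo hen b hb ⟨hbx, Or.inr ⟨m, h, hbm, hmn⟩⟩
              · refine htr x hx b fun n hn => ?_
                by_contra hlt
                push Not at hlt
                have h2 := hmn n hn hlt
                have h3 := hbd x hxo n hn
                have h4 := hsB m h
                omega
            · exact hE x y hxo hyo b hb ⟨hbx, Or.inr ⟨m, hm, hbm, hmn⟩⟩
  · refine ⟨P, B, F, rfl, hV, hW, subset_rfl, le_rfl, h0, ?_⟩
    intro x y hx _ b hb hbe
    obtain ⟨o, ho⟩ := O1_mem_nds hx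
    have := hW.bd _ ho b hbe.1
    omega

end MPb6M
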