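import Pool.Agent.Lib.MP_b6d339_lc.Mix.Defs
import Pool.Agent.Lib.MP_b6d339_lc.Mix.A1
import Pool.Agent.Lib.MP_b6d339_lc.Mix.A2
import Pool.Agent.Lib.MP_b6d339_lc.Mix.A3
import Pool.Agent.Lib.MP_b6d339_lc.Mix.A4
import Pool.Agent.Lib.MP_b6d339_lc.Mix.A4m
import Pool.Agent.Lib.MP_b6d339_lc.Mix.A5a
import Pool.Agent.Lib.MP_b6d339_lc.Mix.A5
import Pool.Agent.Lib.MP_b6d339_lc.Mix.A5p

open Ordinal

namespace MPb6M

/-! # Open2: two lines at one token are settled to their class -/
variable {S : Sys}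

/-- a subset of prescribed size -/
private noncomputable def O2_sub (s : Finset ℕ) (n : ℕ) : Finset ℕ :=
  if h : n ≤ s.card then (Finset.exists_subset_card_eq h).choose else ∅

private theorem O2_sub_sub (s : Finset ℕ) (n : ℕ) : O2_sub s n ⊆ s := by
  unfold O2_sub
  split_ifs with h
  · exact (Finset.exists_subset_card_eq h).choose_spec.1
  · exact Finset.empty_subset _

private theorem O2_sub_card {s : Finset ℕ} {n : ℕ} (h : n ≤ s.card) : (O2_sub s n).card = n := by
  unfold O2_sub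
  rw [dif_pos h]
  exact (Finset.exists_subset_card_eq h).choose_spec.2

/-- the part of the need of a line with a failing request of the finite class `f` -/
private theorem O2_fin {θ μ μ' : Need} {f i : ℕ} {a' : Need} {ρ : Rq} (hθ : S.NLe θ μ)
    (hg : ρ.g = cf f i) (ho : ρ.o = some a') (hr : S.RqF θ f i a')
    (ho' : ∀ j, 1 ≤ j → j ≤ S.d → a'.o j ≤ μ'.o j)
    (hc : ∀ h, S.d < h → h ≤ S.m → h < f → ρ.n h ≤ (μ'.l h).card)
    (hf : μ'.l f = (μ.l f).filter (· < i)) (hh : ∀ h, f < h → h ≤ S.m → μ'.l h = μ.l h) :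
    ∃ b, S.Adm ρ (some b) ∧ S.NLe b μ' := by
  obtain ⟨h1, h2, h3, h4, h5, h6⟩ := hr
  refine ⟨⟨a'.o, fun h => if h < f then O2_sub (μ'.l h) (ρ.n h) else a'.l h⟩,
    Or.inr ⟨a', _, ho, rfl, rfl, ?_⟩, ho', ?_⟩
  · intro h hh1 hh2
    have hco : co ρ.g = f := by rw [hg, co_cf]
    rw [hco]
    by_cases hlt : h < f
    · rw [if_pos hlt]
      show (if h < f then O2_sub (μ'.l h) (ρ.n h) else a'.l h).card = ρ.n h
      rw [if_pos hlt]
      exact O2_sub_card (hc h hh1 hh2 hlt)
    · rw [if_neg hlt]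
      show (if h < f then O2_sub (μ'.l h) (ρ.n h) else a'.l h) = a'.l h
      rw [if_neg hlt]
  · intro h hh1 hh2
    show (if h < f then O2_sub (μ'.l h) (ρ.n h) else a'.l h) ⊆ μ'.l h
    by_cases hlt : h < f
    · rw [if_pos hlt]
      exact O2_sub_sub _ _
    · rw [if_neg hlt]
      rcases (not_lt.1 hlt).eq_or_lt with rfl | hgt
      · rw [hf]
        exact h5.trans (Finset.filter_subset_filter _ (hθ.2 f h1 h2))
      · rw [hh h hgt hh2]
        exact (h6 h hgt hh2).trans (hθ.2 h hh1 hh2)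

/-- the part of the need of a line with a failing request of the infinite class `j` -/
private theorem O2_inf {θ μ μ' : Need} {j : ℕ} {a' : Need} {ρ : Rq} (hθ : S.NLe θ μ)
    (hg : ρ.g = ci j) (ho : ρ.o = some a') (hr : S.RqI θ j a')
    (ho' : ∀ i, 1 ≤ i → i ≤ j → a'.o i ≤ μ'.o i) (ho2 : ∀ i, j < i → i ≤ S.d → μ'.o i = μ.o i)
    (hh : ∀ h, S.d < h → h ≤ S.m → μ'.l h = μ.l h) :
    ∃ b, S.Adm ρ (some b) ∧ S.NLe b μ' := by
  obtain ⟨h1, h2, h3, h4, h5, h6⟩ := hr
  refine ⟨a', Or.inr ⟨a', _, ho, rfl, rfl, ?_⟩, ?_, ?_⟩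
  · intro h hh1 hh2
    have hco : co ρ.g = j := by rw [hg, co_ci]
    rw [hco, if_neg (by omega)]
  · intro i hi1 hi2
    by_cases hij : i ≤ j
    · exact ho' i hi1 hij
    · push Not at hij
      rw [ho2 i hij hi2]
      exact (h4 i hij hi2).trans (hθ.1 i hi1 hi2)
  · intro h hh1 hh2
    rw [hh h hh1 hh2]
    exact (h6 h hh1 hh2).trans (hθ.2 h hh1 hh2)

/-- the physical request which serves two lines -/
theorem phys2 {μ θ θ' : Need} {ρ ρ' : Rq} (hθ : S.NLe θ μ) (hθ' : S.NLe θ' μ) (hr : S.Req θ ρ)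
    (hr' : S.Req θ' ρ') (hle : ρ.g ≤ ρ'.g) (hlt : ρ.g < ci (S.m + 1)) :
    ∃ ρ0 : Rq, ρ0.g = ρ.g ∧ S.Req μ ρ0 ∧ ∀ b0, S.Adm ρ0 b0 → ∃ μ', b0 = some μ' ∧
      (∃ b, S.Adm ρ (some b) ∧ S.NLe b μ') ∧
      (ρ'.g = ρ.g → ∃ b', S.Adm ρ' (some b') ∧ S.NLe b' μ') ∧
      (ρ.g < ρ'.g → S.NLe (up ρ') μ') := by
  have hdm := S.hdm
  have hup := up_le hr'
  rcases hr with ⟨j, a', hg, ho, hq⟩ | ⟨f, i, a', hg, ho, hq⟩ | hr
  · -- infinite class
    obtain ⟨h1, h2, h3, h4, h5, h6⟩ := hq
    have hcoj : ∀ c, ρ.g < ρ'.g → c ≤ j → c < co ρ'.g := by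
      intro c hl hc
      rw [hg] at hl
      rcases hr' with ⟨j', a'', hg', ho', -⟩ | ⟨f', i', a'', hg', ho', hf', -⟩ | hr'
      · rw [hg', ci_lt] at hl
        rw [hg', co_ci]
        omega
      · rw [hg', co_cf]
        omega
      · rw [hr'.1, co_ci]
        omega
    -- the contribution of the second line
    obtain ⟨A, hA1, hA2, hA3⟩ : ∃ A : Need, A.o j < μ.o j ∧ (∀ i, 1 ≤ i → i < j → A.o i < S.κ i) ∧
        (ρ'.g = ρ.g → ρ'.o = some A ∧ S.RqI θ' j A) := by
      by_cases heq : ρ'.g = ρ.g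
      · rw [hg] at heq
        rcases hr' with ⟨j', a'', hg', ho', hq'⟩ | ⟨f', i', a'', hg', ho', hf', -⟩ | hr'
        · have hjj : j' = j := ci_inj (hg'.symm.trans heq)
          subst hjj
          refine ⟨a'', hq'.2.2.1.trans_le (hθ'.1 j' h1 h2), hq'.2.2.2.2.1, fun _ => ⟨ho', hq'⟩⟩
        · exfalso
          have := congrArg co (hg'.symm.trans heq)
          rw [co_cf, co_ci] at this
          omega
        · exfalso
          have := congrArg co (hr'.1.symm.trans heq)
          rw [co_ci, co_ci] at this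
          omega
      · refine ⟨⟨fun _ => 0, fun _ => ∅⟩, ?_, ?_, fun h => absurd h heq⟩
        · exact lt_of_le_of_lt (zero_le) (h3.trans_le (hθ.1 j h1 h2))
        · intro i hi1 hi2
          exact (S.hκ i hi1 (by omega)).pos
    set μ0 : Need := ⟨fun i => if i ≤ j then max (a'.o i) (A.o i) else μ.o i, μ.l⟩ with hμ0
    have hμle : ∀ i, i ≤ j → μ0.o i = max (a'.o i) (A.o i) := fun i hi => if_pos hi
    have hμgt : ∀ i, j < i → μ0.o i = μ.o i := fun i hi => if_neg (not_le.2 hi)
    have hreq : S.RqI μ j μ0 := by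
      refine ⟨h1, h2, ?_, ?_, ?_, ?_⟩
      · rw [hμle j le_rfl]
        exact max_lt (h3.trans_le (hθ.1 j h1 h2)) hA1
      · intro i hi _
        rw [hμgt i hi]
      · intro i hi1 hi2
        rw [hμle i hi2.le]
        exact max_lt (h5 i hi1 hi2) (hA2 i hi1 hi2)
      · intro h _ _
        exact subset_rfl
    refine ⟨⟨ci j, some μ0, fun _ => 0⟩, hg.symm, Or.inl ⟨j, μ0, rfl, rfl, hreq⟩, ?_⟩
    intro b0 hb0
    rcases hb0 with ⟨h, _⟩ | ⟨a1, μ', ho1, hb1, hb2, hb3⟩
    · exact absurd h (by simp)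
    have ha1 : a1 = μ0 := (Option.some.inj ho1).symm
    subst ha1
    have hl : ∀ h, S.d < h → h ≤ S.m → μ'.l h = μ.l h := by
      intro h hh1 hh2
      have := hb3 h hh1 hh2
      rw [if_neg (by rw [co_ci]; omega)] at this
      exact this
    refine ⟨μ', hb1, ?_, ?_, ?_⟩
    · refine O2_inf hθ hg ho ⟨h1, h2, h3, h4, h5, h6⟩ ?_ ?_ hl
      · intro i hi1 hi2
        rw [hb2, hμle i hi2]
        exact le_max_left _ _
      · intro i hi1 hi2
        rw [hb2, hμgt i hi1]
    · intro heq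
      obtain ⟨hAo, hAq⟩ := hA3 heq
      refine O2_inf hθ' (heq.trans hg) hAo hAq ?_ ?_ hl
      · intro i hi1 hi2
        rw [hb2, hμle i hi2]
        exact le_max_right _ _
      · intro i hi1 hi2
        rw [hb2, hμgt i hi1]
    · intro hl2
      refine ⟨?_, ?_⟩
      · intro i hi1 hi2
        by_cases hij : i ≤ j
        · rw [(up_low (hcoj i hl2 hij)).1]
          exact zero_le
        · push Not at hij
          rw [hb2, hμgt i hij]
          exact (hup.1 i hi1 hi2).trans (hθ'.1 i hi1 hi2)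
      · intro h hh1 hh2
        rw [hl h hh1 hh2]
        exact (hup.2 h hh1 hh2).trans (hθ'.2 h hh1 hh2)
  · -- finite class
    obtain ⟨h1, h2, h3, h4, h5, h6⟩ := hq
    obtain ⟨A, hA2, hA3⟩ : ∃ A : Need, (∀ j, 1 ≤ j → j ≤ S.d → A.o j < S.κ j) ∧
        (ρ'.g = ρ.g → ρ'.o = some A ∧ S.RqF θ' f i A) := by
      by_cases heq : ρ'.g = ρ.g
      · rw [hg] at heq
        rcases hr' with ⟨j', a'', hg', ho', hj1, hj2, -⟩ | ⟨f', i', a'', hg', ho', hq'⟩ | hr'
        · exfalso
          have := congrArg co (hg'.symm.trans heq)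
          rw [co_cf, co_ci] at this
          omega
        · obtain ⟨hff, hii⟩ := cf_inj (hg'.symm.trans heq)
          subst hff hii
          exact ⟨a'', hq'.2.2.2.1, fun _ => ⟨ho', hq'⟩⟩
        · exfalso
          have := congrArg co (hr'.1.symm.trans heq)
          rw [co_ci, co_cf] at this
          omega
      · refine ⟨⟨fun _ => 0, fun _ => ∅⟩, ?_, fun h => absurd h heq⟩
        intro j hj1 hj2
        exact (S.hκ j hj1 hj2).pos
    have hco' : f ≤ co ρ'.g := by
      have := co_mono hle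
      rw [hg, co_cf] at this
      exact this
    set μ0 : Need := ⟨fun j => max (a'.o j) (A.o j),
      fun h => if h = f then (μ.l f).filter (· < i) else μ.l h⟩ with hμ0
    have hμf : μ0.l f = (μ.l f).filter (· < i) := if_pos rfl
    have hμh : ∀ h, h ≠ f → μ0.l h = μ.l h := fun h hh => if_neg hh
    have hreq : S.RqF μ f i μ0 := by
      refine ⟨h1, h2, hθ.2 f h1 h2 h3, ?_, ?_, ?_⟩
      · intro j hj1 hj2
        exact max_lt (h4 j hj1 hj2) (hA2 j hj1 hj2)
      · rw [hμf]
      · intro h hh1 _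
        rw [hμh h (by omega)]
    refine ⟨⟨cf f i, some μ0, fun h => max (ρ.n h) (ρ'.n h)⟩, hg.symm,
      Or.inr (Or.inl ⟨f, i, μ0, rfl, rfl, hreq⟩), ?_⟩
    intro b0 hb0
    rcases hb0 with ⟨h, _⟩ | ⟨a1, μ', ho1, hb1, hb2, hb3⟩
    · exact absurd h (by simp)
    have ha1 : a1 = μ0 := (Option.some.inj ho1).symm
    subst ha1
    have hlow : ∀ h, S.d < h → h ≤ S.m → h < f → (μ'.l h).card = max (ρ.n h) (ρ'.n h) := by
      intro h hh1 hh2 hh3
      have := hb3 h hh1 hh2
      rw [if_pos (by rw [co_cf]; exact hh3)] at this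
      exact this
    have hf : μ'.l f = (μ.l f).filter (· < i) := by
      have := hb3 f h1 h2
      rw [if_neg (by rw [co_cf]; exact lt_irrefl f)] at this
      rw [this, hμf]
    have hh : ∀ h, f < h → h ≤ S.m → μ'.l h = μ.l h := by
      intro h hh1 hh2
      have := hb3 h (by omega) hh2
      rw [if_neg (by rw [co_cf]; omega)] at this
      rw [this, hμh h (by omega)]
    refine ⟨μ', hb1, ?_, ?_, ?_⟩
    · refine O2_fin hθ hg ho ⟨h1, h2, h3, h4, h5, h6⟩ ?_ ?_ hf hh
      · intro j hj1 hj2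
        rw [hb2]
        exact le_max_left _ _
      · intro h hh1 hh2 hh3
        rw [hlow h hh1 hh2 hh3]
        exact le_max_left _ _
    · intro heq
      obtain ⟨hAo, hAq⟩ := hA3 heq
      refine O2_fin hθ' (heq.trans hg) hAo hAq ?_ ?_ hf hh
      · intro j hj1 hj2
        rw [hb2]
        exact le_max_right _ _
      · intro h hh1 hh2 hh3
        rw [hlow h hh1 hh2 hh3]
        exact le_max_right _ _
    · intro hl2
      refine ⟨?_, ?_⟩
      · intro j hj1 hj2
        rw [(up_low (by omega : j < co ρ'.g)).1]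
        exact zero_le
      · intro h hh1 hh2
        rcases lt_trichotomy h f with hhf | rfl | hhf
        · rw [(up_low (by omega : h < co ρ'.g)).2]
          exact Finset.empty_subset _
        · rw [hf]
          intro x hx
          have hx2 := (hup.2 h hh1 hh2).trans (hθ'.2 h hh1 hh2) hx
          rw [Finset.mem_filter]
          refine ⟨hx2, ?_⟩
          rw [hg] at hl2
          by_cases hc : h < co ρ'.g
          · rw [(up_low hc).2] at hx
            exact absurd hx (Finset.notMem_empty _)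
          · rcases hr' with ⟨j', a'', hg', ho', hj1, hj2, -⟩ | ⟨f', i', a'', hg', ho', hq'⟩ | hr'
            · exfalso
              rw [hg', co_ci] at hc
              rw [hg', co_ci] at hco'
              omega
            · rw [hg', co_cf] at hc hco'
              have hff : f' = h := by omega
              subst hff
              rw [hg', cf_lt_cf] at hl2
              have hii : i' < i := by omega
              rw [up_some ho'] at hx
              have hx' : x ∈ (if co ρ'.g < f' then a''.l f' else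
                if f' = co ρ'.g then insert (lvl ρ'.g) (a''.l f') else ∅) := hx
              rw [if_neg (by rw [hg', co_cf]; exact lt_irrefl _), if_pos (by rw [hg', co_cf]),
                hg', lvl_cf] at hx'
              rcases Finset.mem_insert.1 hx' with rfl | hx'
              · exact hii
              · have := (Finset.mem_filter.1 (hq'.2.2.2.2.1 hx')).2
                omega
            · exfalso
              rw [hr'.1, co_ci] at hc
              omega
        · rw [hh h hhf hh2]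
          exact (hup.2 h hh1 hh2).trans (hθ'.2 h hh1 hh2)
  · exact absurd hr.1 hlt.ne

end MPb6M
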