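import Pool.Agent.Lib.MP_b6d339_lc.Mix.Defs
import Pool.Agent.Lib.MP_b6d339_lc.Mix.A1
import Pool.Agent.Lib.MP_b6d339_lc.Mix.A2
import Pool.Agent.Lib.MP_b6d339_lc.Mix.A3
import Pool.Agent.Lib.MP_b6d339_lc.Mix.A4
import Pool.Agent.Lib.MP_b6d339_lc.Mix.A4m
import Pool.Agent.Lib.MP_b6d339_lc.Mix.A5a
import Pool.Agent.Lib.MP_b6d339_lc.Mix.A5
import Pool.Agent.Lib.MP_b6d339_lc.Mix.A5p
import Pool.Agent.Lib.MP_b6d339_lc.Mix.Open2

open Ordinal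

namespace MPb6M

/-! # Open3: settling two lines at one token to their common class -/
variable {S : Sys}

/-- the result of settling two lines `L`, `L'` with `L.kap = L'.kap` -/
structure Settled (k : ℕ) (t : St) (c : Nd) (L L' : Line S) (N : ℕ) (t1 : St) (s : List ℕ)
    (μ1 θ1 θ1' : Need) (ρ ρ' : Rq) (N1 B1 B1' : ℕ) : Prop where
  ext : Ext t t1
  wf : WFl S t1.P t1.B
  win : V S (k + 1) t1
  big : ∀ n ∈ s, t.B < n
  cl : S.cl s < L.kap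
  mem : (c ++ s, some μ1) ∈ t1.P
  le : S.NLe θ1 μ1
  le' : S.NLe θ1' μ1
  req : S.Req θ1 ρ
  g : ρ.g = L.kap
  req' : S.Req θ1' ρ'
  g' : ρ'.g = L'.kap
  leN : N ≤ N1
  leB : t1.B ≤ N1
  hB : t.B ≤ B1 ∧ B1 ≤ t1.B
  hB' : t.B ≤ B1' ∧ B1' ≤ t1.B
  act : Act S k L (c ++ s) B1 t1 ρ N1
  act' : Act S k L' (c ++ s) B1' t1 ρ' N1

theorem Settled.symm {k : ℕ} {t : St} {c : Nd} {L L' : Line S} {N : ℕ} {t1 : St} {s : List ℕ}
    {μ1 θ1 θ1' : Need} {ρ ρ' : Rq} {N1 B1 B1' : ℕ} (hk : L.kap = L'.kap)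
    (h : Settled k t c L' L N t1 s μ1 θ1 θ1' ρ ρ' N1 B1 B1') :
    Settled k t c L L' N t1 s μ1 θ1' θ1 ρ' ρ N1 B1' B1 :=
  ⟨h.ext, h.wf, h.win, h.big, by rw [hk]; exact h.cl, h.mem, h.le', h.le, h.req', h.g', h.req, h.g,
    h.leN, h.leB, h.hB', h.hB, h.act', h.act⟩

private theorem O3_main (rk : Need → Ordinal.{1}) (hrk1 : ∀ a' a, NLt S a' a → rk a' < rk a)
    (hrk2 : ∀ a' a, S.NLe a' a → rk a' ≤ rk a) {k : ℕ} (N : ℕ) (v : Ordinal.{1} × Ordinal.{1}) :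
    ∀ {t : St} (_ : WFl S t.P t.B) (_ : V S (k + 1) t) {c : Nd} {μ θ θ' : Need}
    (_ : (c, some μ) ∈ t.P) (L L' : Line S) (_ : L.kap = L'.kap) (_ : S.NLe θ μ)
    (_ : S.NLe θ' μ) (_ : nk S (k + 1) t c (some θ) (L.Fo c t.B))
    (_ : nk S (k + 1) t c (some θ') (L'.Fo c t.B)) (_ : (rk θ, rk θ') = v),
    ∃ t1 s μ1 θ1 θ1' ρ ρ' N1 B1 B1', Settled k t c L L' N t1 s μ1 θ1 θ1' ρ ρ' N1 B1 B1' := by
  induction v using WellFoundedLT.induction with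
  | ind v ih =>
  intro t hW hV c μ θ θ' hc L L' hk hθ hθ' hn hn' hv
  -- activate both lines
  obtain ⟨t1, ρ, N1, he1, hW1, hV1, hr, hN1, hA⟩ := act hW hV L hc hn
  have hc1 := he1.P hc
  have hn1 := nk_ext hW hW1 he1 L' hc hn'
  obtain ⟨t2, ρ', N2, he2, hW2, hV2, hr', hN2, hA'⟩ := act hW1 hV1 L' hc1 hn1
  have hc2 := he2.P hc1
  set N3 := max (max N1 N2) N with hN3
  have h13 : N1 ≤ N3 := (le_max_left _ _).trans (le_max_left _ _)
  have h23 : N2 ≤ N3 := (le_max_right _ _).trans (le_max_left _ _)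
  have hNN3 : N ≤ N3 := le_max_right _ _
  have hA3 : Act S k L c t.B t2 ρ N3 := hA.ext he2 h13
  have hA3' : Act S k L' c t1.B t2 ρ' N3 := hA'.ext (Ext.refl _) h23
  have hB1 := he1.B
  have hB2 := he2.B
  have hg : ρ.g ≤ L.kap := hA3.le_kap hW2 hV2 hc2 hθ hr (hB1.trans hB2)
  have hg' : ρ'.g ≤ L'.kap := hA3'.le_kap hW2 hV2 hc2 hθ' hr' hB2
  have he : Ext t t2 := he1.trans he2
  have hcB : ∀ n ∈ c, n ≤ t.B := hW.bd _ hc
  by_cases hdone : ρ.g = L.kap ∧ ρ'.g = L'.kap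
  · refine ⟨t2, [], μ, θ, θ', ρ, ρ', N3, t.B, t1.B, ?_⟩
    refine ⟨he, hW2, hV2, by simp, by rw [cl_nil]; exact L.kap_pos, by rw [List.append_nil]; exact hc2,
      hθ, hθ', hr, hdone.1, hr', hdone.2, hNN3, hN2.trans h23, ⟨le_rfl, hB1.trans hB2⟩,
      ⟨hB1, hB2⟩, ?_, ?_⟩
    · rw [List.append_nil]; exact hA3
    · rw [List.append_nil]; exact hA3'
  · -- a common step
    -- main step, for the line with the smaller class
    have key : ∀ (L L' : Line S) (θ θ' : Need) (ρ ρ' : Rq) (b0 b0' : ℕ), L.kap = L'.kap →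
        S.NLe θ μ → S.NLe θ' μ → S.Req θ ρ → S.Req θ' ρ' → t.B ≤ b0 → b0 ≤ t2.B → t.B ≤ b0' →
        b0' ≤ t2.B → Act S k L c b0 t2 ρ N3 → Act S k L' c b0' t2 ρ' N3 → ρ.g ≤ ρ'.g →
        ρ.g < L.kap →
        ∃ t3 s μ3 θ3 θ3', Ext t2 t3 ∧ WFl S t3.P t3.B ∧ V S (k + 1) t3 ∧ s ≠ [] ∧
          (∀ n ∈ s, t2.B < n) ∧ S.cl s = ρ.g ∧ (c ++ s, some μ3) ∈ t3.P ∧ S.NLe θ3 μ3 ∧
          S.NLe θ3' μ3 ∧ nk S (k + 1) t3 (c ++ s) (some θ3) (L.Fo (c ++ s) t3.B) ∧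
          nk S (k + 1) t3 (c ++ s) (some θ3') (L'.Fo (c ++ s) t3.B) ∧ rk θ3 < rk θ ∧
          rk θ3' ≤ rk θ' := by
      intro L L' θ θ' ρ ρ' b0 b0' hk hθ hθ' hr hr' hb0 hb02 hb0' hb02' hA hA' hle hlt
      have hleaf : ρ.g < ci (S.m + 1) := hlt.trans_le L.kap_le
      obtain ⟨ρ0, hρ0, hreq, hadm⟩ := phys2 hθ hθ' hr hr' hle hleaf
      obtain ⟨s, bb, F', hs, hbb, hF', hR, hV3⟩ := V_step hV2 hc2 hreq N3
      have hW3 := WF_cons (F := t2.F) hW2 hc2 hreq hs hbb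
      obtain ⟨μ', rfl, ⟨b, hb, hbμ⟩, hcase1, hcase2⟩ := hadm bb hbb
      set t3 : St := ⟨(c ++ s, some μ') :: t2.P, lastN (c ++ s), F'⟩ with ht3
      have he3 : Ext t2 t3 := Ext.step hs hF'
      have hmem : (c ++ s, some μ') ∈ t3.P := List.mem_cons_self
      have hnds : c ++ s ∈ nds t3.P := List.mem_map.2 ⟨_, hmem, rfl⟩
      have hcl : S.cl s = ρ.g := hs.cl.trans hρ0
      have hNs : ∀ n ∈ s, N3 < n := fun n hn => (hs.big n hn).1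
      have hbN : b0 ≤ N3 := hb02.trans (hN2.trans h23)
      have hbN' : b0' ≤ N3 := hb02'.trans (hN2.trans h23)
      have hnk1 := hA.P1 hlt hbN he3 hW3 hs.ne hNs hcl hnds rfl hR hb
      obtain ⟨θ3', h1, h2, h3⟩ : ∃ θ3', S.NLe θ3' μ' ∧
          nk S (k + 1) t3 (c ++ s) (some θ3') (L'.Fo (c ++ s) t3.B) ∧ rk θ3' ≤ rk θ' := by
        rcases hle.eq_or_lt with heq | hl
        · obtain ⟨b', hb', hbμ'⟩ := hcase1 heq.symm
          refine ⟨b', hbμ', hA'.P1 ?_ hbN' he3 hW3 hs.ne hNs (hcl.trans heq) hnds rfl hR hb', ?_⟩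
          · rw [← heq, ← hk]; exact hlt
          · exact (hrk1 _ _ (NLt.of_adm hr' hb')).le
        · refine ⟨up ρ', hcase2 hl, hA'.P2 hW2 hbN' (hN2.trans h23) he3 hW3 hs.ne hNs
            (by rw [hcl]; exact hl.le) hmem (up_req hr'), hrk2 _ _ (up_le hr')⟩
      exact ⟨t3, s, μ', b, θ3', he3, hW3, hV3, hs.ne, fun n hn => (hs.big n hn).2, hcl, hmem, hbμ,
        h1, hnk1, h2, hrk1 _ _ (NLt.of_adm hr hb), h3⟩
    -- the final assembly from a common step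
    have fin : ∀ {t3 : St} {s : List ℕ} {μ3 θ3 θ3' : Need}, Ext t2 t3 → WFl S t3.P t3.B →
        V S (k + 1) t3 → (∀ n ∈ s, t2.B < n) → S.cl s < L.kap →
        (c ++ s, some μ3) ∈ t3.P → S.NLe θ3 μ3 → S.NLe θ3' μ3 →
        nk S (k + 1) t3 (c ++ s) (some θ3) (L.Fo (c ++ s) t3.B) →
        nk S (k + 1) t3 (c ++ s) (some θ3') (L'.Fo (c ++ s) t3.B) →
        (rk θ3, rk θ3') < v →
        ∃ t1 s μ1 θ1 θ1' ρ ρ' N1 B1 B1', Settled k t c L L' N t1 s μ1 θ1 θ1' ρ ρ' N1 B1 B1' := by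
      intro t3 s μ3 θ3 θ3' he3 hW3 hV3 hs hcl hm h1 h2 h3 h4 h5
      obtain ⟨t4, s4, μ4, θ4, θ4', ρ4, ρ4', N4, B4, B4', h⟩ :=
        ih _ h5 hW3 hV3 hm L L' hk h1 h2 h3 h4 rfl
      have hB3 := he3.B
      have hB4 := h.hB
      have hB4' := h.hB'
      have hBt := he.B
      refine ⟨t4, s ++ s4, μ4, θ4, θ4', ρ4, ρ4', N4, B4, B4', ?_⟩
      refine ⟨(he.trans he3).trans h.ext, h.wf, h.win, ?_, ?_, ?_, h.le, h.le', h.req, h.g,
        h.req', h.g', h.leN, h.leB, ⟨by omega, hB4.2⟩, ⟨by omega, hB4'.2⟩, ?_, ?_⟩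
      · intro n hn
        rcases List.mem_append.1 hn with hn | hn
        · have := hs n hn
          omega
        · have := h.big n hn
          omega
      · rw [cl_append]
        exact max_lt hcl h.cl
      · rw [← List.append_assoc]; exact h.mem
      · rw [← List.append_assoc]; exact h.act
      · rw [← List.append_assoc]; exact h.act'
    rcases le_total ρ.g ρ'.g with hle | hle
    · have hlt : ρ.g < L.kap := by
        refine lt_of_le_of_ne hg fun heq => hdone ⟨heq, le_antisymm hg' ?_⟩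
        rw [← hk, ← heq]; exact hle
      obtain ⟨t3, s, μ3, θ3, θ3', h1, h2, h3, -, h5, h6, h7, h8, h9, h10, h11, h12, h13'⟩ :=
        key L L' θ θ' ρ ρ' t.B t1.B hk hθ hθ' hr hr' le_rfl (hB1.trans hB2) hB1 hB2 hA3 hA3' hle hlt
      refine fin h1 h2 h3 h5 (by rw [h6]; exact hlt) h7 h8 h9 h10 h11 ?_
      rw [← hv, Prod.mk_lt_mk]
      exact Or.inl ⟨h12, h13'⟩
    · have hlt : ρ'.g < L'.kap := by
        refine lt_of_le_of_ne hg' fun heq => hdone ⟨le_antisymm hg ?_, heq⟩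
        rw [hk, ← heq]; exact hle
      obtain ⟨t3, s, μ3, θ3', θ3, h1, h2, h3, -, h5, h6, h7, h8, h9, h10, h11, h12, h13'⟩ :=
        key L' L θ' θ ρ' ρ t1.B t.B hk.symm hθ' hθ hr' hr hB1 hB2 le_rfl (hB1.trans hB2) hA3' hA3
          hle hlt
      refine fin h1 h2 h3 h5 (by rw [h6, hk]; exact hlt) h7 h9 h8 h11 h10 ?_
      rw [← hv, Prod.mk_lt_mk]
      exact Or.inr ⟨h13', h12⟩

/-- **Settle.** Two lines with the same class, alive with the full need: after an extension above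
`c` inside the container, both have failing requests of exactly this class at one token. -/
theorem settle2 {k : ℕ} {t : St} (hW : WFl S t.P t.B) (hV : V S (k + 1) t) {c : Nd} {a : Need}
    (hc : (c, some a) ∈ t.P) (L L' : Line S) (hk : L.kap = L'.kap)
    (ha : ¬ V S (k + 1) ⟨t.P, t.B, t.F ∪ L.Fo c t.B⟩)
    (ha' : ¬ V S (k + 1) ⟨t.P, t.B, t.F ∪ L'.Fo c t.B⟩) (N : ℕ) :
    ∃ t1 s μ1 θ1 θ1' ρ ρ' N1 B1 B1', Settled k t c L L' N t1 s μ1 θ1 θ1' ρ ρ' N1 B1 B1' := by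
  obtain ⟨rk, hrk1, hrk2⟩ := exists_rank S
  refine O3_main rk hrk1 hrk2 N (rk a, rk a) hW hV hc L L' hk (NLe.refl a) (NLe.refl a) ?_ ?_ rfl
  · intro hV'
    exact ha (V_mono hV' (less_repl_self hW hc) le_rfl)
  · intro hV'
    exact ha' (V_mono hV' (less_repl_self hW hc) le_rfl)

end MPb6M
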