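import Pool.Agent.Lib.MP_b6d339_lc.Mix.Open1
import Pool.Agent.Lib.MP_b6d339_lc.Mix.Open3

open Ordinal

namespace MPb6M

/-! # Open4: opening a block of a finite class for two lines -/
variable {S : Sys}

/-- All block ends (from the time `B1` on; in particular `B1` is not a block end) of the active side are at nodes whose class over `c1` is in `G` or has a
coarse class bigger than `h`. -/
def Use (S : Sys) (L : Line S) (c1 : Nd) (B1 h : ℕ) (G : Set Cl) (π : Pr) : Prop :=
  ∀ b, B1 ≤ b → BEs (side L.sd π) (side (!L.sd) π) b →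
    S.cl ((tr (side L.sd π) b).drop c1.length) ∈ G ∨
      h < co (S.cl ((tr (side L.sd π) b).drop c1.length))

theorem tr_append_gt {e s : List ℕ} {B : ℕ} (hs : ∀ n ∈ s, B < n) : tr (e ++ s) B = tr e B := by
  unfold tr
  rw [List.takeWhile_append]
  split_ifs with h
  · have h1 : List.takeWhile (fun n => decide (n ≤ B)) s = [] := by
      cases s with
      | nil => rfl
      | cons a s =>
        have := hs a List.mem_cons_self
        rw [List.takeWhile_cons_of_neg]
        simp only [decide_eq_true_eq, not_le]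
        exact this
    have h2 : List.takeWhile (fun n => decide (n ≤ B)) e = e :=
      (List.takeWhile_prefix _).eq_of_length h
    rw [h1, h2, List.append_nil]
  · rfl

/-- general form -/
theorem open_gen {k : ℕ} {L : Line S} {c : Nd} {B0 : ℕ} {t1 : St} {ρ : Rq} {N : ℕ}
    (hA : Act S k L c B0 t1 ρ N) (hB : B0 ≤ t1.B)
    {t' : St} (he : Ext t1 t') (hW' : WFl S t'.P t'.B) (hV' : V S (k + 1) t')
    {s : List ℕ} (hs : s ≠ []) (hsN : ∀ n ∈ s, N < n) (hcl : S.cl s = ρ.g) {μ1 : Need}
    (hm : (c ++ s, some μ1) ∈ t'.P) {ρ2 : Rq} (hr2 : S.Req μ1 ρ2) (hlt : ρ2.g < ρ.g) {h : ℕ}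
    (G : Set Cl) (Q : Need → Prop) (hG : ρ2.g ∈ G)
    (hadm : ∀ b2, S.Adm ρ2 b2 → ∃ μ3 b, b2 = some μ3 ∧ S.Adm ρ (some b) ∧ S.NLe b μ3 ∧ Q b)
    (hcl2 : ∀ g a ρ3 b3, g ∈ G → Q a → S.Req a ρ3 → S.Adm ρ3 b3 →
      (max g ρ3.g ∈ G ∧ ∀ a3, b3 = some a3 → Q a3) ∨ h < co ρ3.g) :
    ∃ π ∈ L.Fo c B0 ∩ L.Thr (c ++ s) t'.B, π ∉ t'.F ∧ Use S L (c ++ s) t'.B h G π := by
  obtain ⟨s2, b2, F2, hs2, hb2, hF2, hR2, hV2⟩ := V_step hV' hm hr2 N
  have hW2 := WF_cons (F := t'.F) hW' hm hr2 hs2 hb2
  obtain ⟨μ3, b, rfl, hAb, hle, hQ⟩ := hadm b2 hb2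
  set c2 : Nd := c ++ s ++ s2 with hc2
  set t2 : St := ⟨(c2, some μ3) :: t'.P, lastN c2, F2⟩ with ht2
  have he2 : Ext t' t2 := Ext.step hs2 hF2
  have hmem2 : (c2, some μ3) ∈ t2.P := List.mem_cons_self
  have hea : c2 = c ++ (s ++ s2) := List.append_assoc _ _ _
  have hbig2 : ∀ n ∈ s2, t'.B < n := fun n hn => (hs2.big n hn).2
  have hbd1 : ∀ n ∈ c ++ s, n ≤ t'.B := hW'.bd _ hm
  have hbd2 : ∀ n ∈ c2, n ≤ t2.B := hW2.bd _ hmem2
  have hlast : lastN c2 ∈ s2 := lastN_mem hs2.ne
  have hB2 : t'.B < t2.B := hbig2 _ hlast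
  have hcl' : S.cl (s ++ s2) = ρ.g := by
    rw [cl_append, hcl, hs2.cl]; exact max_eq_left hlt.le
  have hB0' : B0 ≤ t'.B := hB.trans he.B
  have hdrop2 : c2.drop (c ++ s).length = s2 := by
    rw [hc2]
    exact List.drop_left
  -- the contradiction
  have hact := hA t2 (he.trans he2) hW2 (s ++ s2) (by simp [hs])
    (by
      intro n hn
      rcases List.mem_append.1 hn with hn | hn
      · exact hsN n hn
      · exact (hs2.big n hn).1) hcl'
    (by rw [← hea]; exact List.mem_map.2 ⟨_, hmem2, rfl⟩) (by rw [← hea]) hR2 (some b) hAb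
  rw [← hea] at hact
  by_contra hcon
  push Not at hcon
  apply hact
  refine V_arise (WF_repl hW2 hmem2) (V_mono hV2 (less_repl hmem2 hle) le_rfl)
    (fun e o => tr e t2.B = c2 → (S.cl (e.drop (c ++ s).length) ∈ G ∧ ∀ a, o = some a → Q a) ∨
      h < co (S.cl (e.drop (c ++ s).length))) ?_ ?_ ?_
  · -- the tokens at the beginning
    intro e o heo htr
    rcases A4_mem_repl.1 heo with h1 | ⟨h1, h2⟩
    · obtain ⟨rfl, rfl⟩ := Prod.mk.inj h1
      left
      rw [hdrop2, hs2.cl]
      refine ⟨hG, ?_⟩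
      rintro a ha
      cases ha
      exact hQ
    · exfalso
      apply h2
      have : tr e t2.B = e := tr_self (hW2.bd _ h1)
      rw [← this]
      exact htr
  · -- answers
    intro e a ρ3 b3 s3 hI hr3 hb3 hs3 hbig3 hinc3 hcl3 htr
    have h1 : tr (e ++ s3) t2.B = tr e t2.B := tr_append_gt fun n hn => (hbig3 n hn).1
    rw [h1] at htr
    have hpre : c2 <+: e := by rw [← htr]; exact tr_prefix _ _
    have hlen : (c ++ s).length ≤ e.length := by
      refine le_trans ?_ hpre.length_le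
      rw [hc2, List.length_append (as := c ++ s)]
      omega
    have hd : (e ++ s3).drop (c ++ s).length = e.drop (c ++ s).length ++ s3 :=
      List.drop_append_of_le_length hlen
    rw [hd, cl_append, hcl3]
    rcases hI htr with ⟨h2, h3⟩ | h2
    · rcases hcl2 _ a ρ3 b3 h2 (h3 a rfl) hr3 hb3 with ⟨h4, h5⟩ | h4
      · exact Or.inl ⟨h4, h5⟩
      · exact Or.inr (h4.trans_le (co_mono (le_max_right _ _)))
    · exact Or.inr (h2.trans_le (co_mono (le_max_left _ _)))
  · -- the pairs
    rintro π ⟨hπ, hT1, hT2⟩ hgood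
    by_contra hnot
    obtain ⟨hp1, hp2, hp3, hp4, hp5⟩ := L.pos c B0 π hπ
    have hact' : (side L.sd π).Pairwise (· < ·) := by
      unfold side
      split_ifs
      · exact hp4
      · exact hp5
    have hwait : (side (!L.sd) π).Pairwise (· < ·) := by
      unfold side
      split_ifs
      · exact hp4
      · exact hp5
    have hwB : ∀ n ∈ L.w, n ≤ B0 := by
      intro n hn
      rw [← hp2] at hn
      exact tr_le hn
    refine hcon π ⟨hπ, ?_, ?_⟩ (fun h1 => hnot (hF2 h1)) ?_
    · show tr (side L.sd π) t'.B = c ++ s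
      rw [← tr_tr (side L.sd π) hB2.le, hT1]
      exact tr_append hbd1 hbig2
    · show tr (side (!L.sd) π) t'.B = L.w
      rw [← tr_tr (side (!L.sd) π) hB2.le, hT2]
      exact tr_self fun n hn => (hwB n hn).trans hB0'
    · intro b0 hb0 hbe
      by_cases hb2' : t2.B < b0
      · obtain ⟨o, ho⟩ := hgood L.sd b0 hb2' hbe
        have h1 : tr (tr (side L.sd π) b0) t2.B = c2 := by
          rw [tr_tr _ hb2'.le]; exact hT1
        rcases ho h1 with ⟨h2, -⟩ | h2
        · exact Or.inl h2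
        · exact Or.inr h2
      · push Not at hb2'
        have hin : t2.B ∈ side L.sd π := by
          have h1 : t2.B ∈ tr (side L.sd π) t2.B := by
            rw [hT1]
            exact List.mem_append_right _ hlast
          exact (tr_prefix _ _).subset h1
        have hbeq : b0 = t2.B := by
          refine le_antisymm hb2' ?_
          rcases hbe.2 with h1 | ⟨m, hm1, hm2, hm3⟩
          · exact h1 _ hin
          · by_contra hlt2
            push Not at hlt2
            have h2 := hm3 _ hin hlt2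
            have h3 : m ∈ tr (side (!L.sd) π) t2.B := (mem_tr hwait).2 ⟨hm1, h2.le⟩
            rw [hT2] at h3
            have h4 := hwB m h3
            omega
        rw [hbeq, hT1, hdrop2, hs2.cl]
        exact Or.inl hG

end MPb6M
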