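import Pool.Agent.Lib.MP_b6d339_lc.Mix.Open4

open Ordinal

namespace MPb6M

/-! # Open5: the common opening of a block of a finite class -/
variable {S : Sys}

/-- the parts of a failing request of a finite class -/
private theorem O5_req {θ : Need} {ρ : Rq} {f i : ℕ} (hr : S.Req θ ρ) (hdf : S.d < f) (hfm : f ≤ S.m)
    (hg : ρ.g = cf f i) : ∃ A, ρ.o = some A ∧ S.RqF θ f i A := by
  rcases hr with ⟨j, a', hg', ho, hj1, hj2, -⟩ | ⟨f', i', a', hg', ho, hq⟩ | hr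
  · exfalso
    have := congrArg co (hg'.symm.trans hg)
    rw [co_cf, co_ci] at this
    omega
  · obtain ⟨h1, h2⟩ := cf_inj (hg'.symm.trans hg)
    subst h1 h2
    exact ⟨a', ho, hq⟩
  · exfalso
    have := congrArg co (hr.1.symm.trans hg)
    rw [co_cf, co_ci] at this
    omega

/-- second step over a finite class -/
private theorem O5_fin {k : ℕ} {L : Line S} {c : Nd} {B0 : ℕ} {t1 : St} {ρ : Rq} {N : ℕ}
    (hA : Act S k L c B0 t1 ρ N) (hB : B0 ≤ t1.B)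
    {h i : ℕ} (hdh : S.d < h) (hhm : h < S.m) (hg : ρ.g = cf (h + 1) i) {A : Need}
    (ho : ρ.o = some A) (hAκ : ∀ j, 1 ≤ j → j ≤ S.d → A.o j < S.κ j)
    {t' : St} (he : Ext t1 t') (hW' : WFl S t'.P t'.B) (hV' : V S (k + 1) t')
    {s : List ℕ} (hs : s ≠ []) (hsN : ∀ n ∈ s, N < n) (hcl : S.cl s = ρ.g) {μ1 : Need}
    (hm : (c ++ s, some μ1) ∈ t'.P) (hsub : ∀ h', h < h' → h' ≤ S.m → A.l h' ⊆ μ1.l h')
    {J : Finset ℕ} (hJ : J ⊆ μ1.l h) (hJc : J.card = ρ.n h + 1) :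
    ∃ π ∈ L.Fo c B0 ∩ L.Thr (c ++ s) t'.B, π ∉ t'.F ∧
      Use S L (c ++ s) t'.B h {x | ∃ l ∈ J, x = cf h l} π := by
  have hne : J.Nonempty := by
    rw [← Finset.card_pos]; omega
  set i0 := J.max' hne with hi0
  have hi0J : i0 ∈ J := J.max'_mem hne
  set μ2 : Need := ⟨A.o, fun h' => if h' = h then (μ1.l h).filter (· < i0) else μ1.l h'⟩ with hμ2
  have hμ2h : μ2.l h = (μ1.l h).filter (· < i0) := if_pos rfl
  have hμ2' : ∀ h', h' ≠ h → μ2.l h' = μ1.l h' := fun h' hh => if_neg hh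
  set ρ2 : Rq := ⟨cf h i0, some μ2, ρ.n⟩ with hρ2
  have hr2 : S.Req μ1 ρ2 := by
    refine Or.inr (Or.inl ⟨h, i0, μ2, rfl, rfl, hdh, hhm.le, hJ hi0J, hAκ, ?_, ?_⟩)
    · rw [hμ2h]
    · intro h' h1 _
      rw [hμ2' h' (by omega)]
  refine open_gen hA hB he hW' hV' hs hsN hcl hm hr2 ?_ _ (fun a => a.l h ⊆ J) ?_ ?_ ?_
  · rw [hg]
    exact cf_lt_cf.2 (Or.inl (Nat.lt_succ_self h))
  · exact ⟨i0, hi0J, rfl⟩
  · rintro b2 (⟨h1, _⟩ | ⟨a1, μ3, ho1, hb1, hb2, hb3⟩)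
    · exact absurd h1 (by simp)
    have ha1 : a1 = μ2 := (Option.some.inj ho1).symm
    subst ha1
    have e1 : ∀ h', S.d < h' → h' < h → (μ3.l h').card = ρ.n h' := by
      intro h' h1 h2
      have := hb3 h' h1 (by omega)
      rw [if_pos (by rw [co_cf]; exact h2)] at this
      exact this
    have e2 : μ3.l h = (μ1.l h).filter (· < i0) := by
      have := hb3 h hdh hhm.le
      rw [if_neg (by rw [co_cf]; exact lt_irrefl h)] at this
      rw [this, hμ2h]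
    have e3 : ∀ h', h < h' → h' ≤ S.m → μ3.l h' = μ1.l h' := by
      intro h' h1 h2
      have := hb3 h' (by omega) h2
      rw [if_neg (by rw [co_cf]; omega)] at this
      rw [this, hμ2' h' (by omega)]
    set b : Need := ⟨A.o, fun h' => if h' < h then μ3.l h' else if h' = h then J.erase i0 else A.l h'⟩
      with hb
    have b1 : ∀ h', h' < h → b.l h' = μ3.l h' := fun h' hh => if_pos hh
    have b2' : b.l h = J.erase i0 := by
      show (if h < h then μ3.l h else if h = h then J.erase i0 else A.l h) = _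
      rw [if_neg (lt_irrefl h), if_pos rfl]
    have b3 : ∀ h', h < h' → b.l h' = A.l h' := by
      intro h' hh
      show (if h' < h then μ3.l h' else if h' = h then J.erase i0 else A.l h') = _
      rw [if_neg (by omega), if_neg (by omega)]
    refine ⟨μ3, b, hb1, Or.inr ⟨A, b, ho, rfl, rfl, ?_⟩, ⟨?_, ?_⟩, ?_⟩
    · intro h' h1 h2
      rw [hg, co_cf]
      rcases lt_trichotomy h' h with h3 | h3 | h3
      · rw [if_pos (by omega), b1 h' h3]
        exact e1 h' h1 h3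
      · rw [if_pos (by omega), h3, b2', Finset.card_erase_of_mem hi0J, hJc]
        omega
      · rw [if_neg (by omega), b3 h' h3]
    · intro j _ _
      rw [hb2]
    · intro h' h1 h2
      rcases lt_trichotomy h' h with h3 | h3 | h3
      · rw [b1 h' h3]
      · rw [h3, b2', e2]
        intro x hx
        obtain ⟨hx1, hx2⟩ := Finset.mem_erase.1 hx
        rw [Finset.mem_filter]
        exact ⟨hJ hx2, lt_of_le_of_ne (J.le_max' x hx2) hx1⟩
      · rw [b3 h' h3, e3 h' h3 h2]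
        exact hsub h' h3 h2
    · show b.l h ⊆ J
      rw [b2']
      exact Finset.erase_subset _ _
  · rintro g a ρ3 b3 ⟨l, hl, rfl⟩ hQ hr3 hb3
    rcases hr3 with ⟨j, a', hg', ho', hj1, hj2, q3, q4, q5, q6⟩ | ⟨f', i', a', hg', ho', q1, q2, q3, q4, q5, q6⟩ | hr3
    · left
      refine ⟨⟨l, hl, ?_⟩, ?_⟩
      · rw [hg']
        exact max_eq_left (ci_lt_cf (by omega)).le
      · rintro a3 rfl
        rcases hb3 with ⟨_, h1⟩ | ⟨a1, a3', h1, h2, h3, h4⟩
        · exact absurd h1 (by simp)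
        have e1 : a3 = a3' := Option.some.inj h2
        have e2 : a1 = a' := Option.some.inj (h1.symm.trans ho')
        subst e1 e2
        have := h4 h hdh hhm.le
        rw [if_neg (by rw [hg', co_ci]; omega)] at this
        show a3.l h ⊆ J
        rw [this]
        exact (q6 h hdh hhm.le).trans hQ
    · by_cases hfh : h < f'
      · right
        rw [hg', co_cf]
        exact hfh
      · left
        have hle : a'.l h ⊆ a.l h := by
          rcases (not_lt.1 hfh).eq_or_lt with h1 | h1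
          · subst h1
            exact q5.trans (Finset.filter_subset _ _)
          · exact q6 h h1 hhm.le
        refine ⟨?_, ?_⟩
        · rcases (not_lt.1 hfh).eq_or_lt with h1 | h1
          · subst h1
            rcases le_total (cf f' l) ρ3.g with h2 | h2
            · refine ⟨i', hQ q3, ?_⟩
              rw [max_eq_right h2, hg']
            · exact ⟨l, hl, max_eq_left h2⟩
          · refine ⟨l, hl, max_eq_left ?_⟩
            rw [hg']
            exact (cf_lt_cf.2 (Or.inl h1)).le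
        · rintro a3 rfl
          rcases hb3 with ⟨_, h1⟩ | ⟨a1, a3', h1, h2, h3, h4⟩
          · exact absurd h1 (by simp)
          have e1 : a3 = a3' := Option.some.inj h2
          have e2 : a1 = a' := Option.some.inj (h1.symm.trans ho')
          subst e1 e2
          have := h4 h hdh hhm.le
          rw [if_neg (by rw [hg', co_cf]; omega)] at this
          show a3.l h ⊆ J
          rw [this]
          exact hle.trans hQ
    · right
      rw [hr3.1, co_ci]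
      omega

/-- second step over an infinite class -/
private theorem O5_inf {k : ℕ} {L : Line S} {c : Nd} {B0 : ℕ} {t1 : St} {ρ : Rq} {N : ℕ}
    (hA : Act S k L c B0 t1 ρ N) (hB : B0 ≤ t1.B)
    {i : ℕ} (hd1 : 1 ≤ S.d) (hg : ρ.g = cf (S.d + 1) i) {A : Need}
    (ho : ρ.o = some A) (hAκ : ∀ j, 1 ≤ j → j ≤ S.d → A.o j < S.κ j)
    {t' : St} (he : Ext t1 t') (hW' : WFl S t'.P t'.B) (hV' : V S (k + 1) t')
    {s : List ℕ} (hs : s ≠ []) (hsN : ∀ n ∈ s, N < n) (hcl : S.cl s = ρ.g) {μ1 : Need}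
    (hm : (c ++ s, some μ1) ∈ t'.P) (hsub : ∀ h', S.d < h' → h' ≤ S.m → A.l h' ⊆ μ1.l h')
    (hd : A.o S.d < μ1.o S.d) :
    ∃ π ∈ L.Fo c B0 ∩ L.Thr (c ++ s) t'.B, π ∉ t'.F ∧
      Use S L (c ++ s) t'.B S.d {ci S.d} π := by
  have hdm := S.hdm
  set μ2 : Need := ⟨A.o, μ1.l⟩ with hμ2
  set ρ2 : Rq := ⟨ci S.d, some μ2, fun _ => 0⟩ with hρ2
  have hr2 : S.Req μ1 ρ2 := by
    refine Or.inl ⟨S.d, μ2, rfl, rfl, hd1, le_rfl, hd, ?_, ?_, ?_⟩
    · intro i h1 h2
      omega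
    · intro i h1 h2
      exact hAκ i h1 h2.le
    · intro f _ _
      exact subset_rfl
  refine open_gen hA hB he hW' hV' hs hsN hcl hm hr2 ?_ _ (fun _ => True) ?_ ?_ ?_
  · rw [hg]
    exact ci_lt_cf (Nat.lt_succ_self _)
  · exact Set.mem_singleton _
  · rintro b2 (⟨h1, _⟩ | ⟨a1, μ3, ho1, hb1, hb2, hb3⟩)
    · exact absurd h1 (by simp)
    have ha1 : a1 = μ2 := (Option.some.inj ho1).symm
    subst ha1
    have e3 : ∀ h', S.d < h' → h' ≤ S.m → μ3.l h' = μ1.l h' := by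
      intro h' h1 h2
      have := hb3 h' h1 h2
      rw [if_neg (by rw [co_ci]; omega)] at this
      exact this
    refine ⟨μ3, A, hb1, Or.inr ⟨A, A, ho, rfl, rfl, ?_⟩, ⟨?_, ?_⟩, trivial⟩
    · intro h' h1 h2
      rw [hg, co_cf, if_neg (by omega)]
    · intro j _ _
      rw [hb2]
    · intro h' h1 h2
      rw [e3 h' h1 h2]
      exact hsub h' h1 h2
  · rintro g a ρ3 b3 hgG - hr3 hb3
    rw [Set.mem_singleton_iff] at hgG
    subst hgG
    rcases hr3 with ⟨j, a', hg', ho', hj1, hj2, -⟩ | ⟨f', i', a', hg', ho', q1, q2, -⟩ | hr3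
    · left
      refine ⟨?_, fun _ _ => trivial⟩
      rw [hg', Set.mem_singleton_iff]
      exact max_eq_left (ci_le.2 hj2)
    · right
      rw [hg', co_cf]
      exact q1
    · right
      rw [hr3.1, co_ci]
      omega

/-- **The common opening of a block of a finite class.** Both lines have the class of the level `i`
of the finite class `h + 1` and are alive at the token `e`. There is a new node `e ++ s` of this class
with a room, such that: if the class `h` is infinite, both lines have a pair which is not forbidden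
and all of whose events in the block are exactly of class `h` over `e ++ s`; if `h` is finite, there is
a set `Λ` of levels (its size may be prescribed as a function of `r`, `r'`) such that for every subset
`J` of `Λ` of size `r` (`r'` for the second line) there is such a pair which uses only the levels in
`J`. -/
theorem open_step {k : ℕ} {t : St} (hW : WFl S t.P t.B) (hV : V S (k + 1) t) {e : Nd} {a : Need}
    (hea : (e, some a) ∈ t.P) (L L' : Line S) {h i : ℕ} (hd : S.d ≤ h) (h1 : 1 ≤ h) (hm : h < S.m)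
    (hk : L.kap = cf (h + 1) i) (hk' : L'.kap = cf (h + 1) i)
    (ha : ¬ V S (k + 1) ⟨t.P, t.B, t.F ∪ L.Fo e t.B⟩)
    (ha' : ¬ V S (k + 1) ⟨t.P, t.B, t.F ∪ L'.Fo e t.B⟩) (M : ℕ → ℕ → ℕ) :
    ∃ (t' : St) (s : List ℕ) (Λ : Finset ℕ) (r r' : ℕ), Ext t t' ∧ WFl S t'.P t'.B ∧
      V S (k + 1) t' ∧ s ≠ [] ∧ (∀ n ∈ s, t.B < n) ∧ S.cl s = cf (h + 1) i ∧
      (∃ μ, (e ++ s, some μ) ∈ t'.P) ∧ t'.B = lastN (e ++ s) ∧ Rm S (V S k) t'.P t'.B t'.F ∧
      (h = S.d → (∃ π ∈ L.Fo e t.B ∩ L.Thr (e ++ s) t'.B, π ∉ t'.F ∧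
          Use S L (e ++ s) t'.B h {ci h} π) ∧
        ∃ π ∈ L'.Fo e t.B ∩ L'.Thr (e ++ s) t'.B, π ∉ t'.F ∧
          Use S L' (e ++ s) t'.B h {ci h} π) ∧
      (S.d < h → M r r' ≤ Λ.card ∧
        (∀ J ⊆ Λ, J.card = r → ∃ π ∈ L.Fo e t.B ∩ L.Thr (e ++ s) t'.B, π ∉ t'.F ∧
          Use S L (e ++ s) t'.B h {x | ∃ l ∈ J, x = cf h l} π) ∧
        ∀ J ⊆ Λ, J.card = r' → ∃ π ∈ L'.Fo e t.B ∩ L'.Thr (e ++ s) t'.B, π ∉ t'.F ∧
          Use S L' (e ++ s) t'.B h {x | ∃ l ∈ J, x = cf h l} π) := by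
  obtain ⟨t1, s0, μ1, θ, θ', ρ, ρ', N1, B1, B1', hS⟩ :=
    settle2 hW hV hea L L' (hk.trans hk'.symm) ha ha' t.B
  have hgρ : ρ.g = cf (h + 1) i := hS.g.trans hk
  have hgρ' : ρ'.g = cf (h + 1) i := hS.g'.trans hk'
  obtain ⟨A, ho, hq⟩ := O5_req hS.req (by omega) (by omega) hgρ
  obtain ⟨A', ho', hq'⟩ := O5_req hS.req' (by omega) (by omega) hgρ'
  obtain ⟨q1, q2, q3, q4, q5, q6⟩ := hq
  obtain ⟨q1', q2', q3', q4', q5', q6'⟩ := hq'
  -- the physical request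
  set μ0 : Need := ⟨fun j => max (A.o j) (A'.o j) + 1,
    fun h' => if h' = h + 1 then (μ1.l (h + 1)).filter (· < i) else μ1.l h'⟩ with hμ0
  set r := ρ.n h + 1 with hr
  set r' := ρ'.n h + 1 with hr'
  set ρ0 : Rq := ⟨cf (h + 1) i, some μ0, fun _ => M r r'⟩ with hρ0
  have hreq : S.Req μ1 ρ0 := by
    refine Or.inr (Or.inl ⟨h + 1, i, μ0, rfl, rfl, q1, q2, hS.le.2 _ q1 q2 q3, ?_, ?_, ?_⟩)
    · intro j hj1 hj2
      exact (S.hκ j hj1 hj2).succ (max_lt (q4 j hj1 hj2) (q4' j hj1 hj2))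
    · show (if h + 1 = h + 1 then (μ1.l (h + 1)).filter (· < i) else μ1.l (h + 1)) ⊆ _
      rw [if_pos rfl]
    · intro h' hh1 _
      show (if h' = h + 1 then (μ1.l (h + 1)).filter (· < i) else μ1.l h') ⊆ _
      rw [if_neg (by omega)]
  obtain ⟨s1, bb, F', hs1, hbb, hF', hR, hV'⟩ := V_step hS.win hS.mem hreq N1
  have hW' := WF_cons (F := t1.F) hS.wf hS.mem hreq hs1 hbb
  obtain ⟨μ2, rfl, hμo, hμl, hμc⟩ : ∃ μ2, bb = some μ2 ∧ μ2.o = μ0.o ∧
      (∀ h', h < h' → h' ≤ S.m → μ2.l h' = μ0.l h') ∧ (S.d < h → (μ2.l h).card = M r r') := by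
    rcases hbb with ⟨x, _⟩ | ⟨a1, μ2, x1, x2, x3, x4⟩
    · exact absurd x (by simp)
    have ha1 : a1 = μ0 := (Option.some.inj x1).symm
    subst ha1
    refine ⟨μ2, x2, x3, ?_, ?_⟩
    · intro h' hh1 hh2
      have := x4 h' (by omega) hh2
      rw [if_neg (by rw [co_cf]; omega)] at this
      exact this
    · intro hdh
      have := x4 h hdh hm.le
      rw [if_pos (by rw [co_cf]; omega)] at this
      exact this
  have hnd : ∀ (θ A : Need), S.NLe θ μ1 → A.l (h + 1) ⊆ (θ.l (h + 1)).filter (· < i) →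
      (∀ h', h + 1 < h' → h' ≤ S.m → A.l h' ⊆ θ.l h') →
      ∀ h', h < h' → h' ≤ S.m → A.l h' ⊆ μ2.l h' := by
    intro θ A hθ y1 y2 h' hh1 hh2
    rw [hμl h' hh1 hh2]
    show A.l h' ⊆ (if h' = h + 1 then (μ1.l (h + 1)).filter (· < i) else μ1.l h')
    by_cases hh : h' = h + 1
    · rw [if_pos hh, hh]
      exact y1.trans (Finset.filter_subset_filter _ (hθ.2 _ q1 q2))
    · rw [if_neg hh]
      exact (y2 h' (by omega) hh2).trans (hθ.2 h' (by omega) hh2)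
  have hsub := hnd θ A hS.le q5 q6
  have hsub' := hnd θ' A' hS.le' q5' q6'
  set t' : St := ⟨(e ++ s0 ++ s1, some μ2) :: t1.P, lastN (e ++ s0 ++ s1), F'⟩ with ht'
  have he' : Ext t1 t' := Ext.step hs1 hF'
  have hmem : (e ++ s0 ++ s1, some μ2) ∈ t'.P := List.mem_cons_self
  have hass : e ++ s0 ++ s1 = e ++ (s0 ++ s1) := List.append_assoc _ _ _
  have hcls : S.cl s1 = cf (h + 1) i := hs1.cl
  have hN : ∀ n ∈ s1, N1 < n := fun n hn => (hs1.big n hn).1
  have hBB := hS.hB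
  have hBB' := hS.hB'
  have hext := hS.ext.B
  have heB : ∀ n ∈ e, n ≤ t.B := hW.bd _ hea
  -- transport to `e`
  have hw : ∀ L : Line S, ¬ V S (k + 1) ⟨t.P, t.B, t.F ∪ L.Fo e t.B⟩ → ∀ n ∈ L.w, n ≤ t.B := by
    intro L ha n hn
    by_contra hgt
    apply ha
    have hem : L.Fo e t.B = ∅ := by
      rw [Set.eq_empty_iff_forall_notMem]
      intro π hπ
      have h2 := (L.pos e t.B π hπ).2.1
      rw [← h2] at hn
      exact hgt (tr_le hn)
    rw [hem, Set.union_empty]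
    exact hV
  have htrans : ∀ (L : Line S) (b0 : ℕ), L.kap = cf (h + 1) i → S.cl s0 < L.kap → t.B ≤ b0 →
      ¬ V S (k + 1) ⟨t.P, t.B, t.F ∪ L.Fo e t.B⟩ → ∀ G : Set Cl,
      (∃ π ∈ L.Fo (e ++ s0) b0 ∩ L.Thr (e ++ s0 ++ s1) t'.B, π ∉ t'.F ∧
        Use S L (e ++ s0 ++ s1) t'.B h G π) →
      ∃ π ∈ L.Fo e t.B ∩ L.Thr (e ++ (s0 ++ s1)) t'.B, π ∉ t'.F ∧
        Use S L (e ++ (s0 ++ s1)) t'.B h G π := by
    rintro L b0 hkL hs0 hb0 haL G ⟨π, ⟨x1, x2⟩, x3, x4⟩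
    rw [hass] at x2 x4
    exact ⟨π, ⟨L.up e t.B s0 b0 π x1 heB (hw L haL) hS.big hb0 hs0.le, x2⟩, x3, x4⟩
  refine ⟨t', s0 ++ s1, μ2.l h, r, r', hS.ext.trans he', hW', hV', by simp [hs1.ne], ?_, ?_,
    ⟨μ2, by rw [← hass]; exact hmem⟩, by rw [← hass], hR, ?_, ?_⟩
  · intro n hn
    rcases List.mem_append.1 hn with hn | hn
    · exact hS.big n hn
    · have := (hs1.big n hn).2
      omega
  · rw [cl_append, hcls, max_eq_right]
    have := hS.cl
    rw [hk] at this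
    exact this.le
  · intro hhd
    have hinf : ∀ (L : Line S) (b0 : ℕ) (ρ : Rq) (A : Need), L.kap = cf (h + 1) i → t.B ≤ b0 →
        b0 ≤ t1.B → ¬ V S (k + 1) ⟨t.P, t.B, t.F ∪ L.Fo e t.B⟩ →
        Act S k L (e ++ s0) b0 t1 ρ N1 → ρ.g = cf (h + 1) i → ρ.o = some A →
        (∀ j, 1 ≤ j → j ≤ S.d → A.o j < S.κ j) →
        (∀ h', h < h' → h' ≤ S.m → A.l h' ⊆ μ2.l h') → A.o S.d ≤ max (A.o S.d) (A'.o S.d) →
        A.o S.d < μ2.o S.d →
        ∃ π ∈ L.Fo e t.B ∩ L.Thr (e ++ (s0 ++ s1)) t'.B, π ∉ t'.F ∧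
          Use S L (e ++ (s0 ++ s1)) t'.B h {ci h} π := by
      intro L b0 ρ A y1 y2 y3 y4 y5 y6 y7 y8 y9 _ y11
      refine htrans L b0 y1 (by rw [y1, ← hk]; exact hS.cl) y2 y4 _ ?_
      subst hhd
      exact O5_inf y5 y3 h1 y6 y7 y8 he' hW' hV' hs1.ne hN (hcls.trans y6.symm) hmem y9 y11
    have hlt : ∀ x y z : Ordinal.{0}, z = max x y → z < z + 1 := by
      intro x y z _
      exact Order.lt_add_one_iff.2 le_rfl
    refine ⟨hinf L B1 ρ A hk hBB.1 hBB.2 ha hS.act hgρ ho q4 hsub (le_max_left _ _) ?_,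
      hinf L' B1' ρ' A' hk' hBB'.1 hBB'.2 ha' hS.act' hgρ' ho' q4' hsub' (le_max_right _ _) ?_⟩
    · rw [hμo]
      show A.o S.d < max (A.o S.d) (A'.o S.d) + 1
      exact Order.lt_add_one_iff.2 (le_max_left _ _)
    · rw [hμo]
      show A'.o S.d < max (A.o S.d) (A'.o S.d) + 1
      exact Order.lt_add_one_iff.2 (le_max_right _ _)
  · intro hdh
    have hfin : ∀ (L : Line S) (b0 : ℕ) (ρ : Rq) (A : Need), L.kap = cf (h + 1) i → t.B ≤ b0 →
        b0 ≤ t1.B → ¬ V S (k + 1) ⟨t.P, t.B, t.F ∪ L.Fo e t.B⟩ →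
        Act S k L (e ++ s0) b0 t1 ρ N1 → ρ.g = cf (h + 1) i → ρ.o = some A →
        (∀ j, 1 ≤ j → j ≤ S.d → A.o j < S.κ j) →
        (∀ h', h < h' → h' ≤ S.m → A.l h' ⊆ μ2.l h') →
        ∀ J ⊆ μ2.l h, J.card = ρ.n h + 1 →
        ∃ π ∈ L.Fo e t.B ∩ L.Thr (e ++ (s0 ++ s1)) t'.B, π ∉ t'.F ∧
          Use S L (e ++ (s0 ++ s1)) t'.B h {x | ∃ l ∈ J, x = cf h l} π := by
      intro L b0 ρ A y1 y2 y3 y4 y5 y6 y7 y8 y9 J hJ hJc
      refine htrans L b0 y1 (by rw [y1, ← hk]; exact hS.cl) y2 y4 _ ?_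
      exact O5_fin y5 y3 hdh hm y6 y7 y8 he' hW' hV' hs1.ne hN (hcls.trans y6.symm) hmem y9 hJ hJc
    exact ⟨(hμc hdh).ge, hfin L B1 ρ A hk hBB.1 hBB.2 ha hS.act hgρ ho q4 hsub,
      hfin L' B1' ρ' A' hk' hBB'.1 hBB'.2 ha' hS.act' hgρ' ho' q4' hsub'⟩

end MPb6M
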