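import Mathlib

/-!
# Erdős 592, positive side, all cases: the ordinal end, part 1

Digit expansions of ordinals below `κ 1 * ⋯ * κ D`, the coding of moves by numbers.
-/

open Ordinal

namespace MPb6M

/-- vectors of ordinals -/
abbrev Vec := ℕ → Ordinal.{0}

/-- `κ 1 * κ 2 * ⋯ * κ k` -/
noncomputable def kpi (κ : ℕ → Ordinal.{0}) : ℕ → Ordinal.{0}
  | 0 => 1
  | k + 1 => kpi κ k * κ (k + 1)

/-- the ordinal with the digits `a 1, …, a k` -/
noncomputable def dig (κ : ℕ → Ordinal.{0}) (a : Vec) : ℕ → Ordinal.{0}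
  | 0 => 0
  | k + 1 => kpi κ k * a (k + 1) + dig κ a k

theorem dig_lt {κ : ℕ → Ordinal.{0}} {a : Vec} : ∀ {k : ℕ},
    (∀ j, 1 ≤ j → j ≤ k → a j < κ j) → dig κ a k < kpi κ k
  | 0, _ => by simp [dig, kpi]
  | k + 1, h => by
    have h1 : dig κ a k < kpi κ k := dig_lt (fun j h1 h2 => h j h1 (by omega))
    have h2 : a (k + 1) < κ (k + 1) := h (k + 1) (by omega) le_rfl
    calc dig κ a (k + 1) = kpi κ k * a (k + 1) + dig κ a k := rfl
      _ < kpi κ k * a (k + 1) + kpi κ k := by gcongr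
      _ = kpi κ k * Order.succ (a (k + 1)) := (mul_succ _ _).symm
      _ ≤ kpi κ k * κ (k + 1) := by
        gcongr
        exact Order.succ_le_of_lt h2

theorem dig_congr {κ : ℕ → Ordinal.{0}} {a b : Vec} : ∀ {k : ℕ},
    (∀ j, 1 ≤ j → j ≤ k → a j = b j) → dig κ a k = dig κ b k
  | 0, _ => rfl
  | k + 1, h => by
    have h1 : dig κ a k = dig κ b k := dig_congr (fun j h1 h2 => h j h1 (by omega))
    have h2 : a (k + 1) = b (k + 1) := h (k + 1) (by omega) le_rfl
    simp only [dig, h1, h2]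

/-- a move decreases the value -/
theorem dig_lt_dig {κ : ℕ → Ordinal.{0}} {a a' : Vec} {g : ℕ} (hg : 1 ≤ g) (hlt : a' g < a g)
    (hlo : ∀ j, 1 ≤ j → j < g → a' j < κ j) : ∀ {k : ℕ}, g ≤ k →
    (∀ j, g < j → j ≤ k → a' j ≤ a j) → dig κ a' k < dig κ a k
  | 0, h, _ => by omega
  | k + 1, h, hhi => by
    rcases Nat.lt_or_ge k g with hk | hk
    · have hgk : g = k + 1 := by omega
      subst hgk
      have h1 : dig κ a' k < kpi κ k := dig_lt (fun j h1 h2 => hlo j h1 (by omega))
      calc dig κ a' (k + 1) = kpi κ k * a' (k + 1) + dig κ a' k := rfl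
        _ < kpi κ k * a' (k + 1) + kpi κ k := by gcongr
        _ = kpi κ k * Order.succ (a' (k + 1)) := (mul_succ _ _).symm
        _ ≤ kpi κ k * a (k + 1) := by
          gcongr
          exact Order.succ_le_of_lt hlt
        _ ≤ dig κ a (k + 1) := le_self_add
    · have h1 : dig κ a' k < dig κ a k :=
        dig_lt_dig hg hlt hlo hk (fun j h1 h2 => hhi j h1 (by omega))
      calc dig κ a' (k + 1) = kpi κ k * a' (k + 1) + dig κ a' k := rfl
        _ ≤ kpi κ k * a (k + 1) + dig κ a' k := by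
          gcongr
          exact hhi (k + 1) (by omega) le_rfl
        _ < kpi κ k * a (k + 1) + dig κ a k := by gcongr
        _ = dig κ a (k + 1) := rfl

/-- every ordinal below `kpi k` has digits -/
theorem exists_dig {κ : ℕ → Ordinal.{0}} : ∀ {k : ℕ} {r : Ordinal.{0}}, r < kpi κ k →
    ∃ d : Vec, (∀ j, 1 ≤ j → j ≤ k → d j < κ j) ∧ (∀ j, ¬ (1 ≤ j ∧ j ≤ k) → d j = 0) ∧
      dig κ d k = r
  | 0, r, h => by
    refine ⟨fun _ => 0, fun j h1 h2 => by omega, fun _ _ => rfl, ?_⟩
    have h0 : r = 0 := by simpa [kpi] using h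
    simp [dig, h0]
  | k + 1, r, h => by
    obtain ⟨q, hq, s, hs, rfl⟩ := lt_mul_iff.mp h
    obtain ⟨d, h1, h2, h3⟩ := exists_dig hs
    refine ⟨fun j => if j = k + 1 then q else d j, ?_, ?_, ?_⟩
    · intro j hj1 hj2
      by_cases hj : j = k + 1
      · subst hj
        simpa using hq
      · simpa [hj] using h1 j hj1 (by omega)
    · intro j hj
      have hj' : j ≠ k + 1 := by rintro rfl; exact hj ⟨by omega, le_rfl⟩
      simp only [hj', if_false]
      exact h2 j (fun h => hj ⟨h.1, by omega⟩)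
    · have h4 : dig κ (fun j => if j = k + 1 then q else d j) k = dig κ d k := by
        apply dig_congr
        intro j hj1 hj2
        have : j ≠ k + 1 := by omega
        simp [this]
      simp only [dig, if_true, h4, h3]

/-- every smaller value is the value of a move -/
theorem exists_move {κ : ℕ → Ordinal.{0}} {a : Vec} : ∀ {k : ℕ} {r : Ordinal.{0}},
    r < dig κ a k → ∃ (g : ℕ) (b : Vec), 1 ≤ g ∧ g ≤ k ∧ b g < a g ∧
      (∀ j, g < j → j ≤ k → b j = a j) ∧ (∀ j, 1 ≤ j → j < g → b j < κ j) ∧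
      (∀ j, ¬ (1 ≤ j ∧ j ≤ k) → b j = 0) ∧ dig κ b k = r
  | 0, r, h => by simp [dig] at h
  | k + 1, r, h => by
    rcases lt_or_ge r (kpi κ k * a (k + 1)) with hr | hr
    · obtain ⟨q, hq, s, hs, rfl⟩ := lt_mul_iff.mp hr
      obtain ⟨d, h1, h2, h3⟩ := exists_dig hs
      refine ⟨k + 1, fun j => if j = k + 1 then q else d j, by omega, le_rfl, by simpa using hq,
        fun j h1 h2 => by omega, ?_, ?_, ?_⟩
      · intro j hj1 hj2
        have : j ≠ k + 1 := by omega
        simpa [this] using h1 j hj1 (by omega)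
      · intro j hj
        have hj' : j ≠ k + 1 := by rintro rfl; exact hj ⟨by omega, le_rfl⟩
        simp only [hj', if_false]
        exact h2 j (fun h => hj ⟨h.1, by omega⟩)
      · have h4 : dig κ (fun j => if j = k + 1 then q else d j) k = dig κ d k := by
          apply dig_congr
          intro j hj1 hj2
          have : j ≠ k + 1 := by omega
          simp [this]
        simp only [dig, if_true, h4, h3]
    · obtain ⟨s, rfl⟩ : ∃ s, r = kpi κ k * a (k + 1) + s := ⟨r - kpi κ k * a (k + 1),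
        (Ordinal.add_sub_cancel_of_le hr).symm⟩
      have hs : s < dig κ a k := by
        have : kpi κ k * a (k + 1) + s < kpi κ k * a (k + 1) + dig κ a k := h
        exact lt_of_add_lt_add_left this
      obtain ⟨g, b, h1, h2, h3, h4, h5, h6, h7⟩ := exists_move hs
      have hgk : g ≠ k + 1 := by omega
      refine ⟨g, fun j => if j = k + 1 then a (k + 1) else b j, h1, by omega,
        by simpa [hgk] using h3, ?_, ?_, ?_, ?_⟩
      · intro j hj1 hj2
        by_cases hj : j = k + 1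
        · simp [hj]
        · simpa [hj] using h4 j hj1 (by omega)
      · intro j hj1 hj2
        have : j ≠ k + 1 := by omega
        simpa [this] using h5 j hj1 hj2
      · intro j hj
        have hj' : j ≠ k + 1 := by rintro rfl; exact hj ⟨by omega, le_rfl⟩
        simp only [hj', if_false]
        exact h6 j (fun h => hj ⟨h.1, by omega⟩)
      · have h8 : dig κ (fun j => if j = k + 1 then a (k + 1) else b j) k = dig κ b k := by
          apply dig_congr
          intro j hj1 hj2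
          have : j ≠ k + 1 := by omega
          simp [this]
        simp only [dig, if_true, h8, h7]

/-! ## Codings of moves -/

/-- every number codes a class and ordinals below `κ 1, …, κ D`; every choice has infinitely many
codes -/
structure Cod (D : ℕ) (κ : ℕ → Ordinal.{0}) where
  cls : ℕ → ℕ
  vec : ℕ → Vec
  cls_pos : ∀ n, 1 ≤ cls n
  cls_le : ∀ n, cls n ≤ D + 1
  vec_lt : ∀ n j, 1 ≤ j → j ≤ D → vec n j < κ j
  surj : ∀ (g : ℕ) (v : Vec) (N : ℕ), 1 ≤ g → g ≤ D + 1 → (∀ j, 1 ≤ j → j ≤ D → v j < κ j) →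
    ∃ n, N < n ∧ cls n = g ∧ ∀ j, 1 ≤ j → j ≤ D → vec n j = v j

/-- the normalized needs below `κ` -/
theorem countable_needs {D : ℕ} {κ : ℕ → Ordinal.{0}}
    (hc : ∀ j, 1 ≤ j → j ≤ D → (Set.Iic (κ j)).Countable) :
    {a : Vec | (∀ j, 1 ≤ j → j ≤ D → a j ≤ κ j) ∧ ∀ j, ¬ (1 ≤ j ∧ j ≤ D) → a j = 0}.Countable := by
  have h1 : (Set.univ.pi (fun j : Fin (D + 1) => if 1 ≤ (j : ℕ) then Set.Iic (κ j) else {0}) :
      Set (Fin (D + 1) → Ordinal.{0})).Countable := by
    apply Set.countable_univ_pi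
    intro j
    by_cases hj : 1 ≤ (j : ℕ)
    · simp only [hj, if_true]
      exact hc j hj (by omega)
    · simp only [hj, if_false]
      exact Set.countable_singleton _
  refine (h1.image (fun f (j : ℕ) => if h : j < D + 1 then f ⟨j, h⟩ else 0)).mono ?_
  rintro a ⟨ha1, ha2⟩
  refine ⟨fun j => a j, ?_, ?_⟩
  · intro j _
    by_cases hj : 1 ≤ (j : ℕ)
    · simp only [hj, if_true]
      exact ha1 j hj (by omega)
    · simp only [hj, if_false]
      exact ha2 j (by omega)
  · funext j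
    by_cases hj : j < D + 1
    · simp [hj]
    · simp only [hj, dif_neg, not_false_iff]
      exact (ha2 j (by omega)).symm

theorem exists_cod (D : ℕ) (κ : ℕ → Ordinal.{0}) (hpos : ∀ j, 1 ≤ j → j ≤ D → 0 < κ j)
    (hc : ∀ j, 1 ≤ j → j ≤ D → (Set.Iic (κ j)).Countable) : Nonempty (Cod D κ) := by
  classical
  -- the set of choices
  let Q : Set (ℕ × Vec) := {x | 1 ≤ x.1 ∧ x.1 ≤ D + 1 ∧ (∀ j, 1 ≤ j → j ≤ D → x.2 j < κ j) ∧
    ∀ j, ¬ (1 ≤ j ∧ j ≤ D) → x.2 j = 0}
  have hQ : Q.Countable := by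
    refine ((Set.to_countable (Set.univ : Set ℕ)).prod (countable_needs hc)).mono ?_
    rintro ⟨g, v⟩ ⟨-, -, h3, h4⟩
    exact ⟨trivial, fun j h1 h2 => (h3 j h1 h2).le, h4⟩
  have hne : Nonempty Q := ⟨⟨(1, fun _ => 0), le_rfl, by omega, fun j h1 h2 => hpos j h1 h2,
    fun _ _ => rfl⟩⟩
  have := hQ.to_subtype
  obtain ⟨f, hf⟩ := exists_surjective_nat Q
  -- every element is taken infinitely often
  let e : ℕ → Q := fun n => f (Nat.unpair n).1
  refine ⟨⟨fun n => (e n).1.1, fun n => (e n).1.2, fun n => (e n).2.1, fun n => (e n).2.2.1,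
    fun n => (e n).2.2.2.1, ?_⟩⟩
  intro g v N hg1 hg2 hv
  obtain ⟨i, hi⟩ := hf ⟨(g, fun j => if 1 ≤ j ∧ j ≤ D then v j else 0), hg1, hg2,
    fun j h1 h2 => by simpa [h1, h2] using hv j h1 h2, fun j hj => by simp [hj]⟩
  refine ⟨Nat.pair i (N + 1), lt_of_lt_of_le (Nat.lt_succ_self N) (Nat.right_le_pair i (N + 1)),
    ?_, ?_⟩
  · simp [e, hi]
  · intro j h1 h2
    simp [e, hi, h1, h2]

end MPb6M
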