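import Pool.Agent.Lib.MP_b6d339_lc.Mix.Ord1

/-!
# Erdős 592, positive side, all cases: the ordinal end, part 2

Paths of numbers and points of `ω ^ (κ 1 * ⋯ * κ D)`.
-/

open Ordinal

namespace MPb6M

/-- the physical vector of the root -/
noncomputable def rootV (D : ℕ) (κ : ℕ → Ordinal.{0}) : Vec := fun j => if j = D then κ D else 0

namespace Cod
variable {D : ℕ} {κ : ℕ → Ordinal.{0}} (C : Cod D κ)

/-- the physical vector after the number `n` -/
noncomputable def upd (p : Vec) (n : ℕ) : Vec := fun j => if j ≤ C.cls n then C.vec n j else p j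

/-- valid paths from the vector `p` -/
def okv : Vec → List ℕ → Prop
  | _, [] => True
  | p, n :: r => (C.cls n ≤ D ∧ C.vec n (C.cls n) < p (C.cls n) ∧ okv (C.upd p n) r) ∨
      (C.cls n = D + 1 ∧ r = [])

/-- valid nodes -/
def Val (x : List ℕ) : Prop := C.okv (rootV D κ) x

/-- the type of the block of the number `n` -/
noncomputable def blk (p : Vec) (n : ℕ) : Ordinal.{0} :=
  if C.cls n = D + 1 then 1
  else if C.vec n (C.cls n) < p (C.cls n) then ω ^ (1 + dig κ (C.upd p n) D) else 0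

/-- the sum of the blocks before `n` -/
noncomputable def off (p : Vec) : ℕ → Ordinal.{0}
  | 0 => 0
  | n + 1 => off p n + C.blk p n

/-- the value of a path -/
noncomputable def fval : Vec → List ℕ → Ordinal.{0}
  | _, [] => 0
  | p, n :: r => C.off p n + fval (C.upd p n) r

/-- the physical vector at the end of a path -/
noncomputable def phys (p : Vec) (e : List ℕ) : Vec := e.foldl C.upd p

theorem dig_upd {p : Vec} {n : ℕ} (h1 : C.cls n ≤ D) (h2 : C.vec n (C.cls n) < p (C.cls n)) :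
    dig κ (C.upd p n) D < dig κ p D := by
  apply dig_lt_dig (C.cls_pos n) (k := D) (a := p)
  · simpa [upd] using h2
  · intro j hj1 hj2
    simp only [upd, hj2.le, if_true]
    exact C.vec_lt n j hj1 (by omega)
  · exact h1
  · intro j hj1 hj2
    have : ¬ j ≤ C.cls n := by omega
    simp [upd, this]

theorem one_lt_opow (E : Ordinal.{0}) : 1 < ω ^ (1 + E) := by
  calc (1 : Ordinal.{0}) < ω := one_lt_omega0
    _ = ω ^ (1 : Ordinal.{0}) := (opow_one _).symm
    _ ≤ ω ^ (1 + E) := opow_le_opow_right omega0_pos le_self_add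

theorem blk_lt (p : Vec) (n : ℕ) : C.blk p n < ω ^ (1 + dig κ p D) := by
  unfold blk
  split_ifs with h1 h2
  · exact one_lt_opow _
  · have h3 : C.cls n ≤ D := by have := C.cls_le n; omega
    apply (opow_lt_opow_iff_right one_lt_omega0).mpr
    have := C.dig_upd h3 h2
    gcongr
  · exact opow_pos _ omega0_pos

theorem off_lt (p : Vec) : ∀ n, C.off p n < ω ^ (1 + dig κ p D)
  | 0 => opow_pos _ omega0_pos
  | n + 1 => isPrincipal_add_omega0_opow _ (off_lt p n) (C.blk_lt p n)

theorem off_mono (p : Vec) {m n : ℕ} (h : m ≤ n) : C.off p m ≤ C.off p n := by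
  induction h with
  | refl => exact le_rfl
  | step _ ih => exact ih.trans le_self_add

theorem fval_lt : ∀ (r : List ℕ) (p : Vec), C.okv p r → C.fval p r < ω ^ (1 + dig κ p D)
  | [], _, _ => opow_pos _ omega0_pos
  | n :: r, p, h => by
    rcases h with ⟨h1, h2, h3⟩ | ⟨h1, rfl⟩
    · refine isPrincipal_add_omega0_opow _ (C.off_lt p n) ?_
      refine (fval_lt r _ h3).trans ?_
      apply (opow_lt_opow_iff_right one_lt_omega0).mpr
      have := C.dig_upd h1 h2
      gcongr
    · simpa [fval] using C.off_lt p n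

theorem fval_lt_off {p : Vec} {n : ℕ} {r : List ℕ} (h : C.okv p (n :: r)) :
    C.fval p (n :: r) < C.off p (n + 1) := by
  rcases h with ⟨h1, h2, h3⟩ | ⟨h1, rfl⟩
  · have h4 : C.blk p n = ω ^ (1 + dig κ (C.upd p n) D) := by
      unfold blk
      rw [if_neg (by omega), if_pos h2]
    have h5 := C.fval_lt r _ h3
    calc C.fval p (n :: r) = C.off p n + C.fval (C.upd p n) r := rfl
      _ < C.off p n + ω ^ (1 + dig κ (C.upd p n) D) := by gcongr
      _ = C.off p (n + 1) := by rw [← h4]; rfl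
  · have h4 : C.blk p n = 1 := by
      unfold blk
      rw [if_pos h1]
    calc C.fval p [n] = C.off p n + 0 := rfl
      _ < C.off p n + 1 := by gcongr; exact zero_lt_one
      _ = C.off p (n + 1) := by rw [← h4]; rfl

theorem fval_head {p : Vec} {n n' : ℕ} {r r' : List ℕ} (h : C.okv p (n :: r)) (hn : n < n') :
    C.fval p (n :: r) < C.fval p (n' :: r') :=
  lt_of_lt_of_le (C.fval_lt_off h) ((C.off_mono p hn).trans le_self_add)

theorem fval_append : ∀ (e : List ℕ) (p : Vec) (r : List ℕ),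
    C.fval p (e ++ r) = C.fval p e + C.fval (C.phys p e) r
  | [], p, r => by simp [fval, phys]
  | n :: e, p, r => by
    have h1 := fval_append e (C.upd p n) r
    calc C.fval p (n :: e ++ r) = C.off p n + C.fval (C.upd p n) (e ++ r) := rfl
      _ = C.off p n + (C.fval (C.upd p n) e + C.fval (C.phys (C.upd p n) e) r) := by rw [h1]
      _ = (C.off p n + C.fval (C.upd p n) e) + C.fval (C.phys (C.upd p n) e) r :=
        (add_assoc _ _ _).symm
      _ = C.fval p (n :: e) + C.fval (C.phys p (n :: e)) r := rfl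

theorem okv_append : ∀ (e : List ℕ) (p : Vec) (r : List ℕ), r ≠ [] → C.okv p (e ++ r) →
    C.okv (C.phys p e) r
  | [], _, _, _, h => h
  | n :: e, p, r, hr, h => by
    rcases h with ⟨-, -, h3⟩ | ⟨-, h2⟩
    · exact okv_append e (C.upd p n) r hr h3
    · simp [hr] at h2

theorem fval_mono {p : Vec} {e : List ℕ} {n n' : ℕ} {r r' : List ℕ}
    (h : C.okv p (e ++ n :: r)) (hn : n < n') :
    C.fval p (e ++ n :: r) < C.fval p (e ++ n' :: r') := by
  rw [C.fval_append, C.fval_append]
  have := C.fval_head (r' := r') (C.okv_append e p (n :: r) (by simp) h) hn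
  gcongr

end Cod

theorem dig_zero {κ : ℕ → Ordinal.{0}} {a : Vec} : ∀ {k : ℕ},
    (∀ j, 1 ≤ j → j ≤ k → a j = 0) → dig κ a k = 0
  | 0, _ => rfl
  | k + 1, h => by
    have h1 : dig κ a k = 0 := dig_zero (fun j h1 h2 => h j h1 (by omega))
    simp [dig, h1, h (k + 1) (by omega) le_rfl]

theorem dig_root {D : ℕ} (hD : 1 ≤ D) (κ : ℕ → Ordinal.{0}) :
    dig κ (rootV D κ) D = kpi κ D := by
  obtain ⟨k, rfl⟩ : ∃ k, D = k + 1 := ⟨D - 1, by omega⟩
  have h1 : dig κ (rootV (k + 1) κ) k = 0 := by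
    apply dig_zero
    intro j _ hj
    have : j ≠ k + 1 := by omega
    simp [rootV, this]
  simp [dig, kpi, h1, rootV]

theorem kpi_pos {κ : ℕ → Ordinal.{0}} : ∀ {k : ℕ}, (∀ j, 1 ≤ j → j ≤ k → 0 < κ j) → 0 < kpi κ k
  | 0, _ => by simp [kpi]
  | k + 1, h => mul_pos (kpi_pos (fun j h1 h2 => h j h1 (by omega))) (h (k + 1) (by omega) le_rfl)

/-- one infinite factor is enough -/
theorem omega_le_kpi {D k : ℕ} {κ : ℕ → Ordinal.{0}} (hpos : ∀ j, 1 ≤ j → j ≤ D → 0 < κ j)
    (hk1 : 1 ≤ k) (hk2 : k ≤ D) (hk : ω ≤ κ k) : ω ≤ kpi κ D := by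
  induction D with
  | zero => omega
  | succ D ih =>
    have hD : 0 < kpi κ D := kpi_pos (fun j h1 h2 => hpos j h1 (by omega))
    rcases Nat.lt_or_ge D k with h | h
    · have : k = D + 1 := by omega
      subst this
      calc ω ≤ κ (D + 1) := hk
        _ = 1 * κ (D + 1) := (one_mul _).symm
        _ ≤ kpi κ D * κ (D + 1) := by
          gcongr
          exact Order.one_le_iff_pos.mpr hD
    · calc ω ≤ kpi κ D := ih (fun j h1 h2 => hpos j h1 (by omega)) h
        _ = kpi κ D * 1 := (mul_one _).symm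
        _ ≤ kpi κ D * κ (D + 1) := by
          gcongr
          exact Order.one_le_iff_pos.mpr (hpos (D + 1) (by omega) le_rfl)

namespace Cod
variable {D : ℕ} {κ : ℕ → Ordinal.{0}} (C : Cod D κ)

open Classical in
/-- the point of a path -/
noncomputable def pt (x : List ℕ) : (ω ^ kpi κ D : Ordinal.{0}).ToType :=
  if h : C.fval (rootV D κ) x < ω ^ kpi κ D then ToType.mk ⟨_, h⟩
  else ToType.mk ⟨0, opow_pos _ omega0_pos⟩

theorem fval_root_lt (hD : 1 ≤ D) (hK : ω ≤ kpi κ D) {x : List ℕ}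
    (hx : C.Val x) : C.fval (rootV D κ) x < ω ^ kpi κ D := by
  have h1 := C.fval_lt x _ hx
  rwa [dig_root hD, one_add_of_omega0_le hK] at h1

theorem pt_lt (hD : 1 ≤ D) (hK : ω ≤ kpi κ D) {e : List ℕ} {n n' : ℕ}
    {r r' : List ℕ} (h : C.Val (e ++ n :: r)) (h' : C.Val (e ++ n' :: r')) (hn : n < n') :
    C.pt (e ++ n :: r) < C.pt (e ++ n' :: r') := by
  have h1 := C.fval_root_lt hD hK h
  have h2 := C.fval_root_lt hD hK h'
  have h3 : C.fval (rootV D κ) (e ++ n :: r) < C.fval (rootV D κ) (e ++ n' :: r') :=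
    C.fval_mono h hn
  unfold pt
  rw [dif_pos h1, dif_pos h2]
  exact ToType.mk.lt_iff_lt.mpr h3

end Cod

end MPb6M
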