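import Pool.Agent.Lib.MP_b6d339_lc.Mix.Defs
import Pool.Agent.Lib.MP_b6d339_lc.Mix.Ord1

/-!
# Erdős 592, positive side, all cases: the ordinal end, part 3

If Red wins the game of level `0` then there is a set of tokens which answers all requests, without
forbidden pairs (dovetailing).
-/

open Ordinal

namespace MPb6M

/-- normalized requests -/
def NrmR (S : Sys) (ρ : Rq) : Prop :=
  (∀ a', ρ.o = some a' → (∀ j, 1 ≤ j → j ≤ S.d → a'.o j ≤ S.κ j) ∧
    (∀ j, ¬ (1 ≤ j ∧ j ≤ S.d) → a'.o j = 0) ∧ ∀ h, ¬ (S.d < h ∧ h ≤ S.m) → a'.l h = ∅) ∧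
  ∀ h, ¬ (S.d < h ∧ h ≤ S.m) → ρ.n h = 0

/-- a set of tokens which answers all (normalized) requests, without forbidden pairs -/
structure Tree (S : Sys) (F0 : Set Pr) (T : Set Tok) : Prop where
  nrm : ∀ e a, (e, some a) ∈ T → ∀ j, 1 ≤ j → j ≤ S.d → a.o j ≤ S.κ j
  ans : ∀ e a, (e, some a) ∈ T → ∀ ρ N, S.Req a ρ → NrmR S ρ →
    ∃ s b, s ≠ [] ∧ (∀ n ∈ s, N < n) ∧ S.cl s = ρ.g ∧ S.Adm ρ b ∧ (e ++ s, b) ∈ T
  val : ∀ x o, (x, o) ∈ T → S.Val x
  inc : ∀ x o, (x, o) ∈ T → x.Pairwise (· < ·)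
  lf : ∀ x, (x, none) ∈ T → S.cl x = ci (S.m + 1)
  ok : ∀ x y, (x, none) ∈ T → (y, none) ∈ T → (x, y) ∉ F0

/-- invariant of the dovetailed play -/
structure O3Inv (S : Sys) (𝒮 : Set St) (F0 : Set Pr) (t : St) : Prop where
  mem : t ∈ 𝒮
  F : F0 ⊆ t.F
  nrm : ∀ e a, (e, some a) ∈ t.P → ∀ j, 1 ≤ j → j ≤ S.d → a.o j ≤ S.κ j
  val : ∀ x o, (x, o) ∈ t.P → S.Val x
  inc : ∀ x o, (x, o) ∈ t.P → x.Pairwise (· < ·)
  bd : ∀ x o, (x, o) ∈ t.P → ∀ n ∈ x, n ≤ t.B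
  lf : ∀ x, (x, none) ∈ t.P → S.cl x = ci (S.m + 1)

theorem O3_cls_le (S : Sys) (n : ℕ) : S.cls n ≤ ci (S.m + 1) := by
  rcases S.cls_ok n with ⟨j, h1, h2, h3⟩ | ⟨f, i, h1, h2, h3⟩ | h3
  · rw [h3]
    have := S.hdm
    exact (Prod.Lex.toLex_le_toLex).mpr (Or.inl (by simp; omega))
  · rw [h3]
    exact (Prod.Lex.toLex_le_toLex).mpr (Or.inl (by simp; omega))
  · rw [h3]

theorem O3_cl_cons (S : Sys) (n : ℕ) (x : List ℕ) : S.cl (n :: x) = max (S.cls n) (S.cl x) := rfl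

theorem O3_ci0_lt (S : Sys) (n : ℕ) : ci 0 < S.cls n := by
  rcases S.cls_ok n with ⟨j, h1, h2, h3⟩ | ⟨f, i, h1, h2, h3⟩ | h3
  · rw [h3]
    exact (Prod.Lex.toLex_lt_toLex).mpr (Or.inl (by simp; omega))
  · rw [h3]
    exact (Prod.Lex.toLex_lt_toLex).mpr (Or.inl (by simp; omega))
  · rw [h3]
    exact (Prod.Lex.toLex_lt_toLex).mpr (Or.inl (by simp))

theorem O3_cl_le (S : Sys) (x : List ℕ) : S.cl x ≤ ci (S.m + 1) := by
  induction x with
  | nil => exact (Prod.Lex.toLex_le_toLex).mpr (Or.inl (by simp))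
  | cons n x ih =>
    rw [O3_cl_cons]
    exact max_le (O3_cls_le S n) ih

theorem O3_cl_append (S : Sys) (x y : List ℕ) : S.cl y ≤ S.cl (x ++ y) := by
  induction x with
  | nil => exact le_rfl
  | cons n x ih =>
    rw [List.cons_append, O3_cl_cons]
    exact ih.trans (le_max_right _ _)

theorem O3_last {s : List ℕ} (hs : s ≠ []) (hi : s.Pairwise (· < ·)) :
    ∀ n ∈ s, n ≤ lastN s := by
  intro n hn
  obtain ⟨l, b, rfl⟩ : ∃ l b, s = l ++ [b] := ⟨s.dropLast, s.getLast hs,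
    (List.dropLast_append_getLast hs).symm⟩
  have h1 : lastN (l ++ [b]) = b := by simp [lastN]
  rw [h1]
  rcases List.mem_append.mp hn with h | h
  · exact ((List.pairwise_append.mp hi).2.2 n h b (by simp)).le
  · simp at h
    exact h.le

/-- a request which wants a leaf has the class of the leaves -/
theorem O3_req_none {S : Sys} {a : Need} {ρ : Rq} (h : S.Req a ρ) (ho : ρ.o = none) :
    ρ.g = ci (S.m + 1) := by
  rcases h with ⟨j, a', -, h2, -⟩ | ⟨f, i, a', -, h2, -⟩ | ⟨h1, -⟩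
  · rw [ho] at h2
    simp at h2
  · rw [ho] at h2
    simp at h2
  · exact h1

theorem O3_step {S : Sys} {𝒮 : Set St} {F0 : Set Pr}
    (h𝒮 : ∀ t ∈ 𝒮, OK t ∧ Stp S (fun _ _ _ => True) 𝒮 t) {t : St} (ht : O3Inv S 𝒮 F0 t)
    (e : Nd) (ρ : Rq) (N : ℕ) (hρ : NrmR S ρ) :
    ∃ t', O3Inv S 𝒮 F0 t' ∧ t.P ⊆ t'.P ∧ ((∃ a, (e, some a) ∈ t.P ∧ S.Req a ρ) →
      ∃ s b, s ≠ [] ∧ (∀ n ∈ s, N < n) ∧ S.cl s = ρ.g ∧ S.Adm ρ b ∧ (e ++ s, b) ∈ t'.P) := by
  by_cases h1 : ∃ a, (e, some a) ∈ t.P ∧ S.Req a ρ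
  · obtain ⟨a, h1, h1'⟩ := h1
    obtain ⟨s, b, F', hans, hadm, hF, -, hmem⟩ := (h𝒮 t ht.mem).2 e a h1 ρ h1' N
    have hes : (e ++ s).Pairwise (· < ·) := by
      refine List.pairwise_append.mpr ⟨ht.inc _ _ h1, hans.inc, ?_⟩
      intro x hx y hy
      exact lt_of_le_of_lt (ht.bd _ _ h1 x hx) (hans.big y hy).2
    have hne : e ++ s ≠ [] := by simp [hans.ne]
    have hB : t.B ≤ lastN (e ++ s) := by
      obtain ⟨n, hn⟩ := List.exists_mem_of_ne_nil s hans.ne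
      exact ((hans.big n hn).2.le).trans (O3_last hne hes n (by simp [hn]))
    refine ⟨⟨(e ++ s, b) :: t.P, lastN (e ++ s), F'⟩, ⟨hmem, ht.F.trans hF, ?_, ?_, ?_, ?_, ?_⟩,
      fun x hx => List.mem_cons_of_mem _ hx, fun _ => ⟨s, b, hans.ne,
        fun n hn => (hans.big n hn).1, hans.cl, hadm, List.mem_cons_self⟩⟩
    · intro e' a' h'
      rcases List.mem_cons.mp h' with h | h
      · obtain ⟨-, h3⟩ := Prod.mk.inj h
        rcases hadm with ⟨-, h4⟩ | ⟨a1, b1, h5, h6, h7, -⟩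
        · rw [h4] at h3
          simp at h3
        · rw [h6] at h3
          have h8 := Option.some.inj h3
          rw [h8, h7]
          exact (hρ.1 a1 h5).1
      · exact ht.nrm _ _ h
    · intro x o' h'
      rcases List.mem_cons.mp h' with h | h
      · obtain ⟨h2, -⟩ := Prod.mk.inj h
        rw [h2]
        exact hans.val
      · exact ht.val _ _ h
    · intro x o' h'
      rcases List.mem_cons.mp h' with h | h
      · obtain ⟨h2, -⟩ := Prod.mk.inj h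
        rw [h2]
        exact hes
      · exact ht.inc _ _ h
    · intro x o' h' n hn
      rcases List.mem_cons.mp h' with h | h
      · obtain ⟨h2, -⟩ := Prod.mk.inj h
        rw [h2] at hn
        exact O3_last hne hes n hn
      · exact (ht.bd _ _ h n hn).trans hB
    · intro x h'
      rcases List.mem_cons.mp h' with h | h
      · obtain ⟨h2, h3⟩ := Prod.mk.inj h
        have h4 : ρ.o = none := by
          rcases hadm with ⟨h4, -⟩ | ⟨a1, b1, -, h6, -⟩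
          · exact h4
          · rw [h6] at h3
            simp at h3
        rw [h2]
        apply le_antisymm (O3_cl_le S _)
        rw [← O3_req_none h1' h4, ← hans.cl]
        exact O3_cl_append S e s
      · exact ht.lf _ h
  · exact ⟨t, ht, fun x hx => hx, fun h2 => absurd h2 h1⟩

/-- the names of normalized requests -/
abbrev O3X (S : Sys) : Type 1 :=
  Cl × Option ({v : Vec // (∀ j, 1 ≤ j → j ≤ S.d → v j ≤ S.κ j) ∧
    ∀ j, ¬ (1 ≤ j ∧ j ≤ S.d) → v j = 0} × (Fin (S.m + 1) → Finset ℕ)) × (Fin (S.m + 1) → ℕ)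

open Classical in
/-- the request with the given name -/
noncomputable def O3rq (S : Sys) (x : O3X S) : Rq where
  g := x.1
  o := x.2.1.map (fun y => ⟨y.1.1, fun h => if hh : S.d < h ∧ h ≤ S.m then
    y.2 ⟨h, Nat.lt_succ_of_le hh.2⟩ else ∅⟩)
  n := fun h => if hh : S.d < h ∧ h ≤ S.m then x.2.2 ⟨h, Nat.lt_succ_of_le hh.2⟩ else 0

theorem O3_nrm (S : Sys) (x : O3X S) : NrmR S (O3rq S x) := by
  obtain ⟨g, o, n⟩ := x
  refine ⟨?_, ?_⟩
  · intro a' ha'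
    cases o with
    | none => simp [O3rq] at ha'
    | some y =>
      simp only [O3rq, Option.map_some, Option.some.injEq] at ha'
      subst ha'
      refine ⟨y.1.2.1, y.1.2.2, ?_⟩
      intro h hh
      simp only [hh, dif_neg, not_false_iff]
  · intro h hh
    simp only [O3rq, hh, dif_neg, not_false_iff]

theorem O3_surj (S : Sys) (ρ : Rq) (hρ : NrmR S ρ) : ∃ x : O3X S, O3rq S x = ρ := by
  obtain ⟨g, o, n⟩ := ρ
  have hn : ∀ h, (if hh : S.d < h ∧ h ≤ S.m then n h else 0) = n h := by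
    intro h
    split_ifs with hh
    · rfl
    · exact (hρ.2 h hh).symm
  cases o with
  | none =>
    refine ⟨(g, none, fun h => n h), ?_⟩
    simp only [O3rq, Option.map_none, Rq.mk.injEq, true_and]
    exact funext hn
  | some a =>
    obtain ⟨h1, h2, h3⟩ := hρ.1 a rfl
    refine ⟨(g, some (⟨a.o, h1, h2⟩, fun h => a.l h), fun h => n h), ?_⟩
    have hl : ∀ h, (if hh : S.d < h ∧ h ≤ S.m then a.l h else ∅) = a.l h := by
      intro h
      split_ifs with hh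
      · rfl
      · exact (h3 h hh).symm
    simp only [O3rq, Option.map_some, Rq.mk.injEq, true_and, Option.some.injEq]
    refine ⟨?_, funext hn⟩
    have : a = ⟨a.o, a.l⟩ := rfl
    rw [this]
    simp only [Need.mk.injEq, true_and]
    exact funext hl

/-- **Dovetailing** (fact (m3)). -/
theorem tree_of_V (S : Sys) (hc : ∀ j, 1 ≤ j → j ≤ S.d → (Set.Iic (S.κ j)).Countable)
    (hv0 : S.Val []) {a0 : Need} (ha0 : ∀ j, 1 ≤ j → j ≤ S.d → a0.o j ≤ S.κ j) {B : ℕ}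
    {F0 : Set Pr} (h : V S 0 ⟨[([], some a0)], B, F0⟩) :
    ∃ T : Set Tok, ([], some a0) ∈ T ∧ Tree S F0 T := by
  classical
  obtain ⟨𝒮, h0, h𝒮⟩ := h
  have hcn := countable_needs hc
  have : Countable {v : Vec // (∀ j, 1 ≤ j → j ≤ S.d → v j ≤ S.κ j) ∧
    ∀ j, ¬ (1 ≤ j ∧ j ≤ S.d) → v j = 0} := hcn.to_subtype
  have : Countable Cl := inferInstanceAs (Countable (ℕ × ℤ))
  have hne : Nonempty (O3X S) := ⟨(ci 0, none, fun _ => 0)⟩
  obtain ⟨f, hf⟩ := exists_surjective_nat (Nd × O3X S × ℕ)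
  have hinit : O3Inv S 𝒮 F0 ⟨[([], some a0)], B, F0⟩ := by
    refine ⟨h0, subset_rfl, ?_, ?_, ?_, ?_, fun x hx => by simp at hx⟩
    · intro e a he
      simp at he
      rw [he.2]
      exact ha0
    · intro x o hx
      simp at hx
      rw [hx.1]
      exact hv0
    · intro x o hx
      simp at hx
      rw [hx.1]
      exact List.Pairwise.nil
    · intro x o hx n hn
      simp at hx
      rw [hx.1] at hn
      simp at hn
  -- the step function
  have hstep : ∀ (t : {t : St // O3Inv S 𝒮 F0 t}) (i : ℕ), ∃ t' : {t : St // O3Inv S 𝒮 F0 t},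
      t.1.P ⊆ t'.1.P ∧ ∀ e x N, f (Nat.unpair i).1 = (e, x, N) →
        (∃ a, (e, some a) ∈ t.1.P ∧ S.Req a (O3rq S x)) →
        ∃ s b, s ≠ [] ∧ (∀ n ∈ s, N < n) ∧ S.cl s = (O3rq S x).g ∧ S.Adm (O3rq S x) b ∧
          (e ++ s, b) ∈ t'.1.P := by
    intro t i
    obtain ⟨t', h1, h2, h3⟩ := O3_step h𝒮 t.2 (f (Nat.unpair i).1).1
      (O3rq S (f (Nat.unpair i).1).2.1) (f (Nat.unpair i).1).2.2 (O3_nrm S _)
    refine ⟨⟨t', h1⟩, h2, ?_⟩
    intro e x N he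
    rw [he] at h3
    exact h3
  choose nx hnx1 hnx2 using hstep
  let u : ℕ → {t : St // O3Inv S 𝒮 F0 t} := fun i =>
    Nat.rec ⟨_, hinit⟩ (fun i t => nx t i) i
  have hu : ∀ i, u (i + 1) = nx (u i) i := fun i => rfl
  have hmono : ∀ i j, i ≤ j → (u i).1.P ⊆ (u j).1.P := by
    intro i j hij
    induction hij with
    | refl => exact fun x hx => hx
    | step _ ih => exact fun x hx => (hu _ ▸ hnx1 _ _) (ih hx)
  refine ⟨{x | ∃ i, x ∈ (u i).1.P}, ⟨0, by simp [u]⟩, ?_, ?_, ?_, ?_, ?_, ?_⟩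
  · rintro e a ⟨i, hi⟩
    exact (u i).2.nrm _ _ hi
  · rintro e a ⟨i, hi⟩ ρ N hreq hρ
    obtain ⟨x, hx⟩ := O3_surj S ρ hρ
    subst hx
    obtain ⟨k, hk⟩ := hf (e, x, N)
    have hi2 : i ≤ Nat.pair k i := Nat.right_le_pair k i
    obtain ⟨s, b, h5, h6, h7, h8, h9⟩ := hnx2 (u (Nat.pair k i)) (Nat.pair k i) e x N
      (by rw [Nat.unpair_pair]; exact hk) ⟨a, hmono _ _ hi2 hi, hreq⟩
    exact ⟨s, b, h5, h6, h7, h8, ⟨Nat.pair k i + 1, by rw [hu]; exact h9⟩⟩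
  · rintro x o ⟨i, hi⟩
    exact (u i).2.val _ _ hi
  · rintro x o ⟨i, hi⟩
    exact (u i).2.inc _ _ hi
  · rintro x ⟨i, hi⟩
    exact (u i).2.lf _ hi
  · rintro x y ⟨i, hi⟩ ⟨j, hj⟩ hxy
    have h1 := hmono i (max i j) (le_max_left _ _) hi
    have h2 := hmono j (max i j) (le_max_right _ _) hj
    exact (h𝒮 _ (u (max i j)).2.mem).1 x y h1 h2 ((u (max i j)).2.F hxy)

end MPb6M
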