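import Pool.Agent.Lib.MP_b6d339_lc.Mix.Ord2
import Pool.Agent.Lib.MP_b6d339_lc.Mix.Ord3

/-!
# Erdős 592, positive side, all cases: the ordinal end, part 4

A tree of tokens at the root has full order type.
-/

open Ordinal

namespace MPb6M

theorem O4_type_le {X : Type} [LinearOrder X] [WellFoundedLT X] {A B : Set X} (h : A ⊆ B) :
    typeLT A ≤ typeLT B :=
  type_le_iff'.mpr ⟨⟨⟨fun x => ⟨x.1, h x.2⟩, fun _ _ hxy => Subtype.ext
    (congrArg (fun c : B => c.1) hxy)⟩, Iff.rfl⟩⟩

theorem O4_type_add_le {X : Type} [LinearOrder X] [WellFoundedLT X] {A B C : Set X}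
    (hA : A ⊆ C) (hB : B ⊆ C) (h : ∀ a ∈ A, ∀ b ∈ B, a < b) :
    typeLT A + typeLT B ≤ typeLT C := by
  rw [← type_sum_lex]
  refine type_le_iff'.mpr ⟨⟨⟨fun x => Sum.elim (fun a : A => (⟨a.1, hA a.2⟩ : C))
    (fun b : B => (⟨b.1, hB b.2⟩ : C)) x, ?_⟩, ?_⟩⟩
  · rintro (x | x) (y | y) hxy
    · have : x.1 = y.1 := congrArg (fun c : C => c.1) hxy
      exact congrArg Sum.inl (Subtype.ext this)
    · have : x.1 = y.1 := congrArg (fun c : C => c.1) hxy
      exact absurd this (h _ x.2 _ y.2).ne
    · have : x.1 = y.1 := congrArg (fun c : C => c.1) hxy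
      exact absurd this (h _ y.2 _ x.2).ne'
    · have : x.1 = y.1 := congrArg (fun c : C => c.1) hxy
      exact congrArg Sum.inr (Subtype.ext this)
  · rintro (x | x) (y | y)
    · exact ⟨fun h1 => Sum.Lex.inl h1, fun h1 => show x.1 < y.1 from
        (Sum.lex_inl_inl (r := fun a b : A => a < b) (s := fun a b : B => a < b)).mp h1⟩
    · exact ⟨fun _ => Sum.Lex.sep _ _, fun _ => h _ x.2 _ y.2⟩
    · exact ⟨fun h1 => absurd (show x.1 < y.1 from h1) (h _ y.2 _ x.2).not_gt,
        fun h1 => absurd h1 Sum.lex_inr_inl⟩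
    · exact ⟨fun h1 => Sum.Lex.inr h1, fun h1 => show x.1 < y.1 from
        (Sum.lex_inr_inr (r := fun a b : A => a < b) (s := fun a b : B => a < b)).mp h1⟩

/-- `ω ^ E ≤ τ` from finite multiples of smaller powers -/
theorem O4_opow_le {E τ : Ordinal.{0}} (h0 : 1 ≤ τ)
    (h : ∀ ρ < E, ∀ k : ℕ, ω ^ ρ * k ≤ τ) : ω ^ E ≤ τ := by
  by_contra hlt
  rw [not_le] at hlt
  rcases Ordinal.zero_or_succ_or_isSuccLimit E with rfl | ⟨ρ, rfl⟩ | hE
  · simp at hlt
    rw [hlt] at h0
    exact absurd h0 (by simp)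
  · rw [opow_succ] at hlt
    obtain ⟨c, hc, hc2⟩ := (lt_mul_iff_of_isSuccLimit isSuccLimit_omega0).mp hlt
    obtain ⟨k, rfl⟩ := lt_omega0.mp hc
    exact absurd (h ρ (Order.lt_succ ρ) k) (not_le.mpr hc2)
  · obtain ⟨ρ, hρ, hρ2⟩ := (lt_opow_of_isSuccLimit omega0_ne_zero hE).mp hlt
    have := h ρ hρ 1
    simp at this
    exact absurd this (not_le.mpr hρ2)

/-- the level of a number of a finite class -/
noncomputable def Cod.lev {D : ℕ} {κ : ℕ → Ordinal.{0}} (C : Cod D κ) (n : ℕ) : ℕ :=
  Cardinal.toNat (C.vec n (C.cls n)).card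

/-- the refined class of a number -/
noncomputable def Cod.rc {D : ℕ} {κ : ℕ → Ordinal.{0}} (C : Cod D κ) (d n : ℕ) : Cl :=
  if C.cls n ≤ d then ci (C.cls n)
  else if C.cls n ≤ D then cf (C.cls n) (C.lev n) else ci (D + 1)

/-- The system `S` is the concrete one: the bounds of the classes are `κ j` (`j ≤ d`), `ω` for the
finite classes and `1` for the exit from the root. -/
structure Conc (S : Sys) {κ : ℕ → Ordinal.{0}} (C : Cod S.m κ) : Prop where
  inf : ∀ j, 1 ≤ j → j ≤ S.d → κ j = S.κ j
  fin : ∀ j, S.d < j → j < S.m → κ j = ω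
  top : κ S.m = 1
  K : ω ≤ kpi κ S.m
  cls : S.cls = C.rc S.d
  Val : S.Val = C.Val

/-- the ordinal digits of a need -/
noncomputable def ov (S : Sys) (a : Need) : Vec := fun j => if j ≤ S.d then a.o j else (a.l j).card

section
variable {S : Sys} {κ : ℕ → Ordinal.{0}} {C : Cod S.m κ}

/-- the points of the leaves above `e` whose next number is bigger than `N` -/
def Yset (C : Cod S.m κ) (T : Set Tok) (e : Nd) (N : ℕ) :
    Set (ω ^ kpi κ S.m : Ordinal.{0}).ToType :=
  {y | ∃ n r, N < n ∧ (e ++ n :: r, none) ∈ T ∧ y = C.pt (e ++ n :: r)}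

/-- every smaller value is the value of all the answers to some request -/
theorem exists_req (hC : Conc S C) {a : Need} (ha : ∀ j, 1 ≤ j → j ≤ S.d → a.o j ≤ S.κ j)
    {r : Ordinal.{0}} (hr : r < dig κ (ov S a) S.m) :
    ∃ ρ, S.Req a ρ ∧ NrmR S ρ ∧ ρ.o ≠ none ∧
      ∀ b, S.Adm ρ (some b) → dig κ (ov S b) S.m = r := by
  classical
  obtain ⟨g, b, hg1, hg2, hg3, hg4, hg5, hg6, hg7⟩ := exists_move hr
  have hdm := S.hdm
  -- the infinite digits of the wanted need
  have hb : ∀ j, 1 ≤ j → j ≤ S.d → g ≤ S.d ∨ b j < S.κ j := by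
    intro j h1 h2
    rcases Nat.lt_or_ge S.d g with h | h
    · right
      rw [← hC.inf j h1 h2]
      exact hg5 j h1 (by omega)
    · exact Or.inl h
  rcases Nat.lt_or_ge S.d g with hgd | hgd
  · -- a finite class
    have hov : ov S a g = (a.l g).card := by
      simp only [ov, if_neg (not_le.mpr hgd)]
    rw [hov] at hg3
    obtain ⟨k, hk⟩ := lt_omega0.mp (hg3.trans (natCast_lt_omega0 _))
    rw [hk] at hg3
    have hk2 : k < (a.l g).card := by exact_mod_cast hg3
    -- the level with exactly `k` levels below it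
    obtain ⟨i, hi1, hi2⟩ : ∃ i ∈ a.l g, ((a.l g).filter (· < i)).card = k := by
      refine ⟨(a.l g).orderEmbOfFin rfl ⟨k, hk2⟩, Finset.orderEmbOfFin_mem _ _ _, ?_⟩
      have h1 : (a.l g).filter (· < (a.l g).orderEmbOfFin rfl ⟨k, hk2⟩) =
          (Finset.univ.filter (fun x : Fin (a.l g).card => x < ⟨k, hk2⟩)).image
            ((a.l g).orderEmbOfFin rfl) := by
        ext x
        simp only [Finset.mem_filter, Finset.mem_image, Finset.mem_univ, true_and]
        constructor
        · rintro ⟨h2, h3⟩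
          have h4 : x ∈ Set.range ((a.l g).orderEmbOfFin rfl) := by
            rw [Finset.range_orderEmbOfFin]
            exact h2
          obtain ⟨y, rfl⟩ := h4
          exact ⟨y, by simpa using h3, rfl⟩
        · rintro ⟨y, h2, rfl⟩
          exact ⟨Finset.orderEmbOfFin_mem _ _ _, by simpa using h2⟩
      rw [h1, Finset.card_image_of_injective _ ((a.l g).orderEmbOfFin rfl).injective]
      have h2 : (Finset.univ.filter (fun x : Fin (a.l g).card => x < ⟨k, hk2⟩)) =
          Finset.Iio ⟨k, hk2⟩ := by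
        ext x
        simp
      rw [h2, Fin.card_Iio]
    have hnat : ∀ h, S.d < h → h < g → ∃ c : ℕ, b h = c := by
      intro h h1 h2
      have h3 : b h < ω := by
        have := hg5 h (by omega) h2
        rwa [hC.fin h h1 (by omega)] at this
      exact lt_omega0.mp h3
    let a' : Need := ⟨fun j => if 1 ≤ j ∧ j ≤ S.d then b j else 0,
      fun h => if h = g then (a.l g).filter (· < i) else if g < h ∧ h ≤ S.m then a.l h else ∅⟩
    let n : ℕ → ℕ := fun h => if hh : S.d < h ∧ h < g then (hnat h hh.1 hh.2).choose else 0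
    have hn : ∀ h (h1 : S.d < h) (h2 : h < g), ((n h : ℕ) : Ordinal.{0}) = b h := by
      intro h h1 h2
      have h3 := (hnat h h1 h2).choose_spec
      simp only [n, h1, h2, and_self, dif_pos]
      exact h3.symm
    refine ⟨⟨cf g i, some a', n⟩, Or.inr (Or.inl ⟨g, i, a', rfl, rfl, hgd, hg2, hi1, ?_, ?_, ?_⟩),
      ⟨?_, ?_⟩, by simp, ?_⟩
    · intro j h1 h2
      simp only [a', h1, h2, and_self, if_true]
      rcases hb j h1 h2 with h | h
      · omega
      · exact h
    · simp [a']
    · intro h h1 h2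
      have : h ≠ g := by omega
      simp [a', this, h1, h2]
    · intro a'' ha''
      have h0 := Option.some.inj ha''
      subst h0
      refine ⟨?_, ?_, ?_⟩
      · intro j h1 h2
        simp only [a', h1, h2, and_self, if_true]
        rcases hb j h1 h2 with h | h
        · omega
        · exact h.le
      · intro j hj
        simp only [a', hj, if_false]
      · intro h hh
        have h1 : h ≠ g := by
          rintro rfl
          exact hh ⟨hgd, hg2⟩
        have h2 : ¬ (g < h ∧ h ≤ S.m) := fun h2 => hh ⟨by omega, h2.2⟩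
        simp [a', h1, h2]
    · intro h hh
      have h2 : ¬ (S.d < h ∧ h < g) := fun h2 => hh ⟨h2.1, by omega⟩
      simp only [n, h2, dif_neg, not_false_iff]
    · intro b' hadm
      rcases hadm with ⟨h1, -⟩ | ⟨a1, b1, h1, h2, h3, h4⟩
      · simp at h1
      have h5 := Option.some.inj h1
      have h6 := Option.some.inj h2
      subst h5 h6
      rw [← hg7]
      apply dig_congr
      intro j hj1 hj2
      rcases Nat.lt_or_ge S.d j with hj | hj
      · have h7 := h4 j hj hj2
        simp only [ov, if_neg (not_le.mpr hj)]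
        have hco : co (cf g i) = g := rfl
        rw [hco] at h7
        rcases lt_trichotomy j g with h | h | h
        · rw [if_pos h] at h7
          rw [h7]
          exact hn j hj h
        · subst h
          rw [if_neg (lt_irrefl _)] at h7
          rw [h7, hk]
          simp only [a', if_true]
          rw [hi2]
        · rw [if_neg (by omega)] at h7
          have h8 : j ≠ g := by omega
          rw [h7, hg4 j h hj2]
          simp only [a', h8, if_false, h, hj2, and_self, if_true, ov, if_neg (not_le.mpr hj)]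
      · simp only [ov, h3, a', hj1, hj, and_self, if_true]
  · -- an infinite class
    let a' : Need := ⟨fun j => if 1 ≤ j ∧ j ≤ S.d then b j else 0,
      fun h => if S.d < h ∧ h ≤ S.m then a.l h else ∅⟩
    have hov : ov S a g = a.o g := by simp only [ov, if_pos hgd]
    rw [hov] at hg3
    refine ⟨⟨ci g, some a', fun _ => 0⟩, Or.inl ⟨g, a', rfl, rfl, hg1, hgd, ?_, ?_, ?_, ?_⟩,
      ⟨?_, fun _ _ => rfl⟩, by simp, ?_⟩
    · simp only [a', hg1, hgd, and_self, if_true]
      exact hg3
    · intro j h1 h2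
      have h3 : 1 ≤ j := by omega
      simp only [a', h3, h2, and_self, if_true]
      rw [hg4 j h1 (by omega)]
      simp only [ov, if_pos h2, le_refl]
    · intro j h1 h2
      have h3 : j ≤ S.d := by omega
      simp only [a', h1, h3, and_self, if_true]
      rw [← hC.inf j h1 h3]
      exact hg5 j h1 h2
    · intro h h1 h2
      simp [a', h1, h2]
    · intro a'' ha''
      have h0 := Option.some.inj ha''
      subst h0
      refine ⟨?_, ?_, ?_⟩
      · intro j h1 h2
        simp only [a', h1, h2, and_self, if_true]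
        rcases lt_trichotomy j g with h | h | h
        · rw [← hC.inf j h1 h2]
          exact (hg5 j h1 h).le
        · subst h
          exact hg3.le.trans (ha j h1 h2)
        · rw [hg4 j h (by omega)]
          simp only [ov, if_pos h2]
          exact ha j h1 h2
      · intro j hj
        simp only [a', hj, if_false]
      · intro h hh
        simp only [a', hh, if_false]
    · intro b' hadm
      rcases hadm with ⟨h1, -⟩ | ⟨a1, b1, h1, h2, h3, h4⟩
      · simp at h1
      have h5 := Option.some.inj h1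
      have h6 := Option.some.inj h2
      subst h5 h6
      rw [← hg7]
      apply dig_congr
      intro j hj1 hj2
      rcases Nat.lt_or_ge S.d j with hj | hj
      · have h7 := h4 j hj hj2
        simp only [ov, if_neg (not_le.mpr hj)]
        have hco : co (ci g) = g := rfl
        rw [hco, if_neg (by omega)] at h7
        rw [h7, hg4 j (by omega) hj2]
        simp only [a', hj, hj2, and_self, if_true, ov, if_neg (not_le.mpr hj)]
      · simp only [ov, h3, a', hj1, hj, and_self, if_true]

theorem O4_main (hC : Conc S C) {F0 : Set Pr} {T : Set Tok} (hT : Tree S F0 T) :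
    ∀ (E : Ordinal.{0}) (e : Nd) (a : Need), (e, some a) ∈ T → dig κ (ov S a) S.m = E → ∀ N,
      ω ^ E ≤ typeLT (Yset C T e N) := by
  have hm1 : 1 ≤ S.m := by have := S.hdm; omega
  intro E
  induction E using WellFoundedLT.induction with
  | ind E ih =>
  intro e a hea hE N
  -- the set is not empty
  have hne : ∀ N, 1 ≤ typeLT (Yset C T e N) := by
    intro N
    obtain ⟨s, b, hs, hN, -, hb, hmem⟩ := hT.ans e a hea ⟨ci (S.m + 1), none, fun _ => 0⟩ N
      (Or.inr (Or.inr ⟨rfl, rfl⟩)) ⟨fun a' ha' => by simp at ha', fun _ _ => rfl⟩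
    obtain ⟨n, r, rfl⟩ := List.exists_cons_of_ne_nil hs
    have hb2 : b = none := by
      rcases hb with ⟨-, h⟩ | ⟨a1, b1, h, -⟩
      · exact h
      · simp at h
    subst hb2
    rw [Order.one_le_iff_pos, pos_iff_ne_zero, type_ne_zero_iff_nonempty]
    exact ⟨⟨_, n, r, hN n (by simp), hmem, rfl⟩⟩
  -- finite multiples
  have hmul : ∀ ρ < E, ∀ (k : ℕ) (N : ℕ), ω ^ ρ * k ≤ typeLT (Yset C T e N) := by
    intro ρ hρ k
    have hρ' := hρ
    rw [← hE] at hρ
    obtain ⟨q, hq1, hq2, hq3, hq4⟩ := exists_req hC (hT.nrm e a hea) hρ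
    induction k with
    | zero => intro N; simp
    | succ k ihk =>
      intro N
      obtain ⟨s, b, hs, hN, -, hb, hmem⟩ := hT.ans e a hea q N hq1 hq2
      obtain ⟨n, r, rfl⟩ := List.exists_cons_of_ne_nil hs
      obtain ⟨b', rfl⟩ : ∃ b', b = some b' := by
        rcases hb with ⟨h, -⟩ | ⟨a1, b1, -, h, -⟩
        · exact absurd h hq3
        · exact ⟨b1, h⟩
      have h1 : ω ^ ρ ≤ typeLT (Yset C T (e ++ n :: r) 0) :=
        ih ρ hρ' _ b' hmem (hq4 b' hb) 0
      have h2 := ihk n
      have h3 : typeLT (Yset C T (e ++ n :: r) 0) + typeLT (Yset C T e n) ≤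
          typeLT (Yset C T e N) := by
        apply O4_type_add_le
        · rintro y ⟨m, r', -, hm, rfl⟩
          refine ⟨n, r ++ m :: r', hN n (by simp), ?_, ?_⟩
          · simpa using hm
          · simp
        · rintro y ⟨m, r', hm, hm2, rfl⟩
          exact ⟨m, r', (hN n (by simp)).trans hm, hm2, rfl⟩
        · rintro _ ⟨m, r', -, hm, rfl⟩ _ ⟨m', r'', hm', hm2, rfl⟩
          have e1 : (e ++ n :: r) ++ m :: r' = e ++ n :: (r ++ m :: r') := by simp
          rw [e1] at hm ⊢
          exact C.pt_lt hm1 hC.K (hC.Val ▸ hT.val _ _ hm) (hC.Val ▸ hT.val _ _ hm2) hm'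
      calc ω ^ ρ * ((k + 1 : ℕ) : Ordinal.{0}) = ω ^ ρ * (1 + (k : ℕ) : Ordinal.{0}) := by
            congr 1
            rw [add_comm k 1, Nat.cast_add, Nat.cast_one]
        _ = ω ^ ρ + ω ^ ρ * k := by rw [mul_add, mul_one]
        _ ≤ typeLT (Yset C T (e ++ n :: r) 0) + typeLT (Yset C T e n) := add_le_add h1 h2
        _ ≤ _ := h3
  exact O4_opow_le (hne N) (fun ρ hρ k => hmul ρ hρ k N)

theorem ov_root (hC : Conc S C) : dig κ (ov S (rootN S)) S.m = kpi κ S.m := by
  have hdm := S.hdm
  rw [← dig_root (by omega : 1 ≤ S.m) κ]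
  apply dig_congr
  intro j h1 h2
  by_cases hj : j = S.m
  · subst hj
    simp [ov, rootN, rootV, hC.top, not_le.mpr hdm]
  · simp [ov, rootN, rootV, hj]

/-- the leaves of a tree of tokens at the root have full order type -/
theorem type_of_tree (hC : Conc S C) {F0 : Set Pr} {T : Set Tok} (hT : Tree S F0 T)
    (h0 : ([], some (rootN S)) ∈ T) :
    typeLT {y | ∃ x, (x, none) ∈ T ∧ y = C.pt x} = ω ^ kpi κ S.m := by
  apply le_antisymm
  · calc typeLT {y | ∃ x, (x, none) ∈ T ∧ y = C.pt x}
        ≤ typeLT (ω ^ kpi κ S.m : Ordinal.{0}).ToType :=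
        type_le_iff'.mpr ⟨⟨⟨Subtype.val, Subtype.val_injective⟩, Iff.rfl⟩⟩
      _ = _ := type_toType _
  · have h1 := O4_main hC hT (kpi κ S.m) [] _ h0 (ov_root hC) 0
    refine h1.trans (O4_type_le ?_)
    rintro y ⟨n, r, -, h2, rfl⟩
    exact ⟨_, h2, rfl⟩

end

end MPb6M
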