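import Pool.Agent.Lib.MP_b6d339_lc.Defs
import Pool.Agent.Lib.MP_b6d339_lc.Mix.Ord4

/-!
# Erdős 592, positive side, all cases: the ordinal end, part 5

Red can play as long as nothing is forbidden. From the game to the partition relation.
-/

open Ordinal

namespace MPb6M

/-- complete paths: valid, increasing, with a number of class `D + 1` (which is the last one) -/
def Cod.Leaf {D : ℕ} {κ : ℕ → Ordinal.{0}} (C : Cod D κ) (x : List ℕ) : Prop :=
  C.Val x ∧ x.Pairwise (· < ·) ∧ ∃ n ∈ x, C.cls n = D + 1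

/-- the pairs of leaves which are blue for the graph `G` -/
def bluePairs {D : ℕ} {κ : ℕ → Ordinal.{0}} (C : Cod D κ)
    (G : SimpleGraph (ω ^ kpi κ D : Ordinal.{0}).ToType) : Set Pr :=
  {π | C.Leaf π.1 ∧ C.Leaf π.2 ∧ G.Adj (C.pt π.1) (C.pt π.2)}

section
variable {S : Sys} {κ : ℕ → Ordinal.{0}} {C : Cod S.m κ}

theorem rc_ok {D : ℕ} {κ : ℕ → Ordinal.{0}} (C : Cod D κ) {d : ℕ} (n : ℕ) :
    (∃ j, 1 ≤ j ∧ j ≤ d ∧ C.rc d n = ci j) ∨ (∃ f i, d < f ∧ f ≤ D ∧ C.rc d n = cf f i) ∨
      C.rc d n = ci (D + 1) := by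
  unfold Cod.rc
  split_ifs with h1 h2
  · exact Or.inl ⟨_, C.cls_pos n, h1, rfl⟩
  · exact Or.inr (Or.inl ⟨_, _, by omega, h2, rfl⟩)
  · exact Or.inr (Or.inr rfl)

theorem rc_leaf (hC : Conc S C) (n : ℕ) : S.cls n = ci (S.m + 1) ↔ C.cls n = S.m + 1 := by
  have hdm := S.hdm
  rw [hC.cls]
  unfold Cod.rc
  constructor
  · intro h
    split_ifs at h with h1 h2
    · have : C.cls n = S.m + 1 := congrArg co h
      omega
    · have : C.cls n = S.m + 1 := congrArg co h
      omega
    · have := C.cls_le n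
      omega
  · intro h
    rw [if_neg (by omega), if_neg (by omega)]

/-- the class of a path is the class of the leaves iff it has a number of this class -/
theorem cl_leaf (hC : Conc S C) (x : List ℕ) :
    S.cl x = ci (S.m + 1) ↔ ∃ n ∈ x, C.cls n = S.m + 1 := by
  induction x with
  | nil =>
    simp only [List.not_mem_nil, false_and, exists_false, iff_false]
    intro h
    have : (0 : ℕ) = S.m + 1 := congrArg co h
    omega
  | cons n x ih =>
    rw [O3_cl_cons]
    constructor
    · intro h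
      rcases max_choice (S.cls n) (S.cl x) with h1 | h1
      · rw [h1] at h
        exact ⟨n, by simp, (rc_leaf hC n).mp h⟩
      · rw [h1] at h
        obtain ⟨k, hk1, hk2⟩ := ih.mp h
        exact ⟨k, by simp [hk1], hk2⟩
    · rintro ⟨k, hk1, hk2⟩
      apply le_antisymm (max_le (O3_cls_le S n) (O3_cl_le S x))
      rcases List.mem_cons.mp hk1 with rfl | h
      · rw [← (rc_leaf hC k).mpr hk2]
        exact le_max_left _ _
      · rw [← ih.mpr ⟨k, h, hk2⟩]
        exact le_max_right _ _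

/-- **Red's side**: if Red wins with all blue pairs forbidden, then there is a full red set. -/
theorem red_of_V (hC : Conc S C)
    (hc : ∀ j, 1 ≤ j → j ≤ S.d → (Set.Iic (S.κ j)).Countable)
    (G : SimpleGraph (ω ^ kpi κ S.m : Ordinal.{0}).ToType) {B : ℕ} {F0 : Set Pr}
    (hF : bluePairs C G ⊆ F0) (h : V S 0 ⟨[([], some (rootN S))], B, F0⟩) :
    ∃ H : Set (ω ^ kpi κ S.m : Ordinal.{0}).ToType, typeLT H = ω ^ kpi κ S.m ∧
      ∀ x ∈ H, ∀ y ∈ H, ¬ G.Adj x y := by
  have hv0 : S.Val [] := by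
    rw [hC.Val]
    exact trivial
  obtain ⟨T, h1, h2⟩ := tree_of_V S hc hv0 (a0 := rootN S) (fun j _ _ => by simp [rootN]) h
  refine ⟨_, type_of_tree hC h2 h1, ?_⟩
  rintro _ ⟨x, hx, rfl⟩ _ ⟨y, hy, rfl⟩ hadj
  have hl : ∀ x, (x, none) ∈ T → C.Leaf x := fun x hx =>
    ⟨hC.Val ▸ h2.val _ _ hx, h2.inc _ _ hx, (cl_leaf hC x).mp (h2.lf x hx)⟩
  exact h2.ok x y hx hy (hF ⟨hl x hx, hl y hy, hadj⟩)

/-- the physical vector is at most `κ` -/
theorem phys_le {D : ℕ} {κ : ℕ → Ordinal.{0}} (C : Cod D κ) : ∀ (e : List ℕ) (p : Vec),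
    (∀ j, 1 ≤ j → j ≤ D → p j ≤ κ j) → ∀ j, 1 ≤ j → j ≤ D → C.phys p e j ≤ κ j
  | [], _, hp => hp
  | m :: e, p, hp => by
    apply phys_le C e
    intro i hi1 hi2
    unfold Cod.upd
    split_ifs
    · exact (C.vec_lt m i hi1 hi2).le
    · exact hp i hi1 hi2

/-- append a number to a valid path -/
theorem okv_snoc {D : ℕ} {κ : ℕ → Ordinal.{0}} (C : Cod D κ) : ∀ (e : List ℕ) (p : Vec) (n : ℕ),
    C.okv p e → (∀ n ∈ e, C.cls n ≤ D) → C.okv (C.phys p e) [n] → C.okv p (e ++ [n])
  | [], _, _, _, _, h => h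
  | m :: e, p, n, h4, h5, h6 => by
    rcases h4 with ⟨h7, h8, h9⟩ | ⟨h7, -⟩
    · exact Or.inl ⟨h7, h8, okv_snoc C e _ n h9 (fun n hn => h5 n (by simp [hn])) h6⟩
    · have := h5 m (by simp)
      omega

theorem phys_snoc {D : ℕ} {κ : ℕ → Ordinal.{0}} (C : Cod D κ) (e : List ℕ) (p : Vec) (n : ℕ) :
    C.phys p (e ++ [n]) = C.upd (C.phys p e) n := by
  simp [Cod.phys, List.foldl_append]

/-- the needs of the tokens are available -/
structure O5Inv (S : Sys) {κ : ℕ → Ordinal.{0}} (C : Cod S.m κ) (e : Nd) (a : Need) : Prop where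
  val : C.Val e
  cls : ∀ n ∈ e, C.cls n ≤ S.m
  inf : ∀ j, 1 ≤ j → j ≤ S.d → a.o j ≤ C.phys (rootV S.m κ) e j
  fin : ∀ f, S.d < f → f ≤ S.m → ∀ i ∈ a.l f, ((i : ℕ) : Ordinal.{0}) <
    C.phys (rootV S.m κ) e f

/-- **Red can play as long as nothing is forbidden.** -/
theorem V_root (hC : Conc S C) (B : ℕ) : V S 0 ⟨[([], some (rootN S))], B, ∅⟩ := by
  have hdm := S.hdm
  have hκpos : ∀ j, 1 ≤ j → j ≤ S.m → 0 < κ j := by
    intro j h1 h2
    rcases Nat.lt_or_ge S.d j with h | h
    · rcases Nat.lt_or_ge j S.m with h3 | h3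
      · rw [hC.fin j h h3]
        exact omega0_pos
      · have : j = S.m := by omega
        rw [this, hC.top]
        exact zero_lt_one
    · rw [hC.inf j h1 h]
      exact omega0_pos.trans_le (S.hκ j h1 h).1
  have hroot : ∀ j, 1 ≤ j → j ≤ S.m → rootV S.m κ j ≤ κ j := by
    intro j h1 h2
    by_cases h : j = S.m
    · subst h; simp [rootV]
    · simp [rootV, h]
  refine ⟨{t | t.F = ∅ ∧ ∀ e a, (e, some a) ∈ t.P → O5Inv S C e a}, ⟨rfl, ?_⟩, ?_⟩
  · intro e a he
    simp at he
    obtain ⟨rfl, rfl⟩ := he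
    refine ⟨trivial, by simp, fun j _ _ => by simp [rootN], ?_⟩
    intro f hf1 hf2 i hi
    by_cases h : f = S.m
    · subst h
      simp only [rootN, if_true, Finset.mem_singleton] at hi
      subst hi
      simp [Cod.phys, rootV, hC.top]
    · simp [rootN, h] at hi
  · rintro t ⟨hF, ht⟩
    refine ⟨fun x y _ _ h => by simp [hF] at h, ?_⟩
    intro e a he ρ hreq N
    obtain ⟨h1, h2, h3, h4⟩ := ht e a he
    have hcl : ∀ n, S.cl [n] = S.cls n := fun n => by
      rw [O3_cl_cons]
      exact max_eq_left (O3_ci0_lt S n).le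
    -- it is enough to find one number
    have hone : ∀ (n : ℕ) (b : Option Need), max N t.B < n → S.cls n = ρ.g →
        C.okv (C.phys (rootV S.m κ) e) [n] → S.Adm ρ b →
        (∀ b', b = some b' → O5Inv S C (e ++ [n]) b') →
        ∃ s b F', Ans S t e ρ.g N s ∧ S.Adm ρ b ∧ t.F ⊆ F' ∧
          (fun _ _ _ => True) ((e ++ s, b) :: t.P) (lastN (e ++ s)) F' ∧
          (⟨(e ++ s, b) :: t.P, lastN (e ++ s), F'⟩ : St) ∈
            {t : St | t.F = ∅ ∧ ∀ e a, (e, some a) ∈ t.P → O5Inv S C e a} := by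
      intro n b hn hcls hok hadm hb
      have hn' := max_lt_iff.mp hn
      refine ⟨[n], b, ∅, ⟨by simp, by simp, ?_, ?_, ?_⟩, hadm, by simp [hF], trivial, rfl, ?_⟩
      · intro k hk
        simp at hk
        rw [hk]
        exact hn'
      · rw [hC.Val]
        exact okv_snoc C e _ n h1 h2 hok
      · rw [hcl, hcls]
      · intro e' a' he'
        rcases List.mem_cons.mp he' with h | h
        · obtain ⟨h5, h6⟩ := Prod.mk.inj h
          rw [h5]
          exact hb a' h6.symm
        · exact ht e' a' h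
    rcases hreq with ⟨j, a', hg, ho, hj1, hj2, hj3, hj4, hj5, hj6⟩ |
      ⟨f, i, a', hg, ho, hf1, hf2, hf3, hf4, hf5, hf6⟩ | ⟨hg, ho⟩
    · -- an infinite class
      obtain ⟨n, hn1, hn2, hn3⟩ := C.surj j (fun k => if k ≤ j then a'.o k else 0) (max N t.B) hj1
        (by omega) (by
          intro k hk1 hk2
          split_ifs with hk
          · rcases Nat.lt_or_ge k j with h | h
            · rw [hC.inf k hk1 (by omega)]
              exact hj5 k hk1 h
            · have hkj : k = j := by omega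
              subst hkj
              exact hj3.trans_le ((h3 k hj1 hj2).trans (phys_le C e _ hroot k hk1 hk2))
          · exact hκpos k hk1 hk2)
      have hn4 : C.vec n j = a'.o j := by
        rw [hn3 j hj1 (by omega), if_pos le_rfl]
      refine hone n (some a') hn1 ?_ ?_ ?_ ?_
      · rw [hC.cls, hg]
        unfold Cod.rc
        rw [if_pos (by omega), hn2]
      · refine Or.inl ⟨by omega, ?_, trivial⟩
        rw [hn2, hn4]
        exact hj3.trans_le (h3 j hj1 hj2)
      · refine Or.inr ⟨a', a', ho, rfl, rfl, fun h hh1 hh2 => ?_⟩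
        have hco : co ρ.g = j := by rw [hg]; rfl
        rw [hco, if_neg (by omega)]
      · rintro b' hb'
        have hb'' := Option.some.inj hb'
        subst hb''
        refine ⟨okv_snoc C e _ n h1 h2 ?_, ?_, ?_, ?_⟩
        · refine Or.inl ⟨by omega, ?_, trivial⟩
          rw [hn2, hn4]
          exact hj3.trans_le (h3 j hj1 hj2)
        · intro k hk
          rcases List.mem_append.mp hk with h | h
          · exact h2 k h
          · simp at h
            rw [h]
            omega
        · intro k hk1 hk2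
          rw [phys_snoc]
          unfold Cod.upd
          split_ifs with h
          · rw [hn3 k hk1 (by omega), if_pos (by omega)]
          · exact (hj4 k (by omega) hk2).trans (h3 k hk1 hk2)
        · intro f hf1 hf2 i hi
          rw [phys_snoc]
          unfold Cod.upd
          rw [if_neg (by omega)]
          exact h4 f hf1 hf2 i (hj6 f hf1 hf2 hi)
    · -- a finite class
      have hi : ((i : ℕ) : Ordinal.{0}) < κ f :=
        (h4 f hf1 hf2 i hf3).trans_le (phys_le C e _ hroot f (by omega) hf2)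
      obtain ⟨n, hn1, hn2, hn3⟩ := C.surj f
        (fun k => if k ≤ S.d then a'.o k else if k = f then (i : ℕ) else if k < f then (ρ.n k : ℕ)
          else 0) (max N t.B) (by omega) (by omega) (by
          intro k hk1 hk2
          split_ifs with hk h5 h6
          · rw [hC.inf k hk1 hk]
            exact hf4 k hk1 hk
          · rw [h5]
            exact hi
          · rw [hC.fin k (by omega) (by omega)]
            exact natCast_lt_omega0 _
          · exact hκpos k hk1 hk2)
      have hn4 : C.vec n f = (i : ℕ) := by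
        rw [hn3 f (by omega) hf2, if_neg (by omega), if_pos rfl]
      have hlev : C.lev n = i := by
        unfold Cod.lev
        rw [hn2, hn4]
        simp
      have hok : C.okv (C.phys (rootV S.m κ) e) [n] := by
        refine Or.inl ⟨by omega, ?_, trivial⟩
        rw [hn2, hn4]
        exact h4 f hf1 hf2 i hf3
      refine hone n (some ⟨a'.o, fun h => if h < f then Finset.range (ρ.n h) else a'.l h⟩) hn1 ?_
        hok ?_ ?_
      · rw [hC.cls, hg]
        unfold Cod.rc
        rw [if_neg (by omega), if_pos (by omega), hn2, hlev]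
      · refine Or.inr ⟨a', _, ho, rfl, rfl, fun h hh1 hh2 => ?_⟩
        have hco : co ρ.g = f := by rw [hg]; rfl
        rw [hco]
        by_cases h5 : h < f
        · simp only [h5, if_true, Finset.card_range]
        · simp only [h5, if_false]
      · rintro b' hb'
        have hb'' := Option.some.inj hb'
        subst hb''
        refine ⟨okv_snoc C e _ n h1 h2 hok, ?_, ?_, ?_⟩
        · intro k hk
          rcases List.mem_append.mp hk with h | h
          · exact h2 k h
          · simp at h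
            rw [h]
            omega
        · intro k hk1 hk2
          rw [phys_snoc]
          unfold Cod.upd
          rw [if_pos (by omega), hn3 k hk1 (by omega), if_pos hk2]
        · intro h hh1 hh2 k hk
          rw [phys_snoc]
          unfold Cod.upd
          rcases lt_trichotomy h f with h5 | h5 | h5
          · rw [if_pos (by omega), hn3 h (by omega) hh2, if_neg (by omega), if_neg (by omega),
              if_pos h5]
            simp only [h5, if_true, Finset.mem_range] at hk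
            exact_mod_cast hk
          · subst h5
            rw [if_pos (by omega), hn4]
            simp only [lt_irrefl, if_false] at hk
            have := (Finset.mem_filter.mp (hf5 hk)).2
            exact_mod_cast this
          · rw [if_neg (by omega)]
            simp only [not_lt.mpr h5.le, if_false] at hk
            exact h4 h hh1 hh2 k (hf6 h h5 hh2 hk)
    · -- a leaf
      obtain ⟨n, hn1, hn2, -⟩ := C.surj (S.m + 1) (fun _ => 0) (max N t.B) (by omega) le_rfl
        hκpos
      refine hone n none hn1 ?_ (Or.inr ⟨hn2, rfl⟩) (Or.inl ⟨ho, rfl⟩) (by simp)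
      rw [hg]
      exact (rc_leaf hC n).mpr hn2

end

/-! ## From the game to the partition relation -/

theorem countable_Iic {a : Ordinal.{0}} (h : a.card ≤ Cardinal.aleph0) :
    (Set.Iic a).Countable := by
  have h1 : (Set.Iio a).Countable := by
    rw [← Set.countable_coe_iff]
    have h2 : Countable a.ToType := by
      rw [← Cardinal.mk_le_aleph0_iff, Cardinal.mk_toType]
      exact h
    exact (ToType.mk (o := a)).toEquiv.countable_iff.mpr h2
  have h3 : Set.Iic a = insert a (Set.Iio a) := by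
    ext x
    simp [le_iff_eq_or_lt]
  rw [h3]
  exact h1.insert a

theorem eps_omega_le {e : Ordinal.{0}} (he : ω ^ e = e) : ω ≤ e := by
  have h0 : e ≠ 0 := by
    rintro rfl
    simp at he
  calc ω = ω ^ (1 : Ordinal.{0}) := (opow_one _).symm
    _ ≤ ω ^ e := opow_le_opow_right omega0_pos (Order.one_le_iff_ne_zero.mpr h0)
    _ = e := he

theorem eps_lim {e : Ordinal.{0}} (he : ω ^ e = e) : Lim e := by
  refine ⟨eps_omega_le he, fun x hx y hy => ?_⟩
  have h1 : e = ω ^ ω ^ e := by rw [he, he]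
  rw [h1] at hx hy ⊢
  exact isPrincipal_mul_omega0_opow_opow _ hx hy

theorem eps_z {e : Ordinal.{0}} (he : ω ^ e = e) : ∀ a < e, z a < e := by
  intro a ha
  unfold z
  split_ifs with h
  · exact omega0_pos.trans_le (eps_omega_le he)
  · have h1 : ω ^ ω ^ a < ω ^ ω ^ e := (opow_lt_opow_iff_right one_lt_omega0).mpr
      ((opow_lt_opow_iff_right one_lt_omega0).mpr ha)
    rwa [he, he] at h1

/-- the bounds of the classes `1, 2, 3` and of the exit -/
noncomputable def kapM (g1 g2 g3 : Ordinal.{0}) : ℕ → Ordinal.{0} := fun j =>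
  if j = 1 then ω ^ g1 else if j = 2 then ω ^ g2 else if j = 3 then ω ^ g3 else 1

theorem kpi_kapM (g1 g2 g3 : Ordinal.{0}) : kpi (kapM g1 g2 g3) 4 = ω ^ (g1 + g2 + g3) := by
  rw [opow_add, opow_add]
  simp [kpi, kapM]

/-- the game hypothesis: for the concrete coding with `d ≥ 1` infinite classes (epsilon numbers), the
other ones of the classes `1, 2, 3` finite -/
def GameHyp : Prop :=
  ∀ (d : ℕ) (κ : ℕ → Ordinal.{0}), 1 ≤ d → d ≤ 3 → (∀ j, 1 ≤ j → j ≤ d → ω ^ κ j = κ j) →
    (∀ j, 1 ≤ j → j ≤ d → (κ j).card ≤ Cardinal.aleph0) →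
    (∀ j, d < j → j ≤ 3 → κ j = ω) → κ 4 = 1 → ∀ (C : Cod 4 κ)
    (G : SimpleGraph (ω ^ kpi κ 4 : Ordinal.{0}).ToType),
    (∃ S : Sys, S.d = d ∧ S.m = 4 ∧ S.κ = κ ∧ S.cls = C.rc d ∧ S.Val = C.Val ∧
      ∃ B, V S 0 ⟨[([], some (rootN S))], B, bluePairs C G⟩) ∨
    ∃ x y z, (x, y) ∈ bluePairs C G ∧ (y, z) ∈ bluePairs C G ∧ (x, z) ∈ bluePairs C G

theorem red_of_V' {D : ℕ} {κ : ℕ → Ordinal.{0}} (C : Cod D κ) (d : ℕ) (S : Sys) (hd : S.d = d)
    (hm : S.m = D) (hκ : S.κ = κ) (hcls : S.cls = C.rc d) (hVal : S.Val = C.Val)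
    (hfin : ∀ j, d < j → j < D → κ j = ω) (htop : κ D = 1) (hK : ω ≤ kpi κ D)
    (hc : ∀ j, 1 ≤ j → j ≤ d → (Set.Iic (κ j)).Countable)
    (G : SimpleGraph (ω ^ kpi κ D : Ordinal.{0}).ToType) {B : ℕ}
    (h : V S 0 ⟨[([], some (rootN S))], B, bluePairs C G⟩) :
    ∃ H : Set (ω ^ kpi κ D : Ordinal.{0}).ToType, typeLT H = ω ^ kpi κ D ∧
      ∀ x ∈ H, ∀ y ∈ H, ¬ G.Adj x y := by
  subst hd hm hκ
  exact red_of_V ⟨fun _ _ _ => rfl, hfin, htop, hK, hcls, hVal⟩ hc G subset_rfl h

/-- **The positive theorem from the game hypothesis**: `ω ^ ω ^ (g1 + g2 + g3) → (⋯, 3)²` for all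
countable `g1 ≥ g2 ≥ g3`, each of them `1` or an epsilon number. -/
theorem arrow_of_gameHyp (H : GameHyp) (h111 : MPb6.Arrow3 (ω ^ (ω ^ (3 : Ordinal.{0}))))
    {g1 g2 g3 : Ordinal.{0}}
    (hc : g1.card ≤ Cardinal.aleph0) (h12 : g2 ≤ g1) (h23 : g3 ≤ g2)
    (h1 : g1 = 1 ∨ ω ^ g1 = g1) (h2 : g2 = 1 ∨ ω ^ g2 = g2) (h3 : g3 = 1 ∨ ω ^ g3 = g3) :
    MPb6.Arrow3 (ω ^ (ω ^ (g1 + g2 + g3))) := by
  have hc2 : g2.card ≤ Cardinal.aleph0 := (Ordinal.card_le_card h12).trans hc
  have hc3 : g3.card ≤ Cardinal.aleph0 := (Ordinal.card_le_card h23).trans hc2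
  have hω : ∀ g : Ordinal.{0}, (g = 1 ∨ ω ^ g = g) → ω ≤ ω ^ g := by
    rintro g (rfl | h)
    · rw [opow_one]
    · rw [h]
      exact eps_omega_le h
  have hone : ∀ g : Ordinal.{0}, ω ^ g = g → g ≠ 1 := by
    rintro g h rfl
    rw [opow_one] at h
    exact one_lt_omega0.ne' h
  by_cases hg1 : g1 = 1
  · -- the case `1 + 1 + 1`
    have h2' : g2 = 1 := by
      rcases h2 with h2 | h2
      · exact h2
      · rw [hg1] at h12
        exact absurd (h12.trans_lt (one_lt_omega0.trans_le (eps_omega_le h2))) (lt_irrefl _)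
    have h3' : g3 = 1 := by
      rcases h3 with h3 | h3
      · exact h3
      · rw [h2'] at h23
        exact absurd (h23.trans_lt (one_lt_omega0.trans_le (eps_omega_le h3))) (lt_irrefl _)
    rw [hg1, h2', h3']
    have : (1 : Ordinal.{0}) + 1 + 1 = 3 := by norm_num
    rw [this]
    exact h111
  -- the number of infinite classes
  obtain ⟨d, hd1, hd3, hdi, hdf⟩ : ∃ d, 1 ≤ d ∧ d ≤ 3 ∧ (∀ j, 1 ≤ j → j ≤ d → ω ^ kapM g1 g2 g3 j = kapM g1 g2 g3 j
      ∧ (kapM g1 g2 g3 j).card ≤ Cardinal.aleph0) ∧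
      ∀ j, d < j → j ≤ 3 → kapM g1 g2 g3 j = ω := by
    have e1 : g1 = 1 → kapM g1 g2 g3 1 = ω := by rintro rfl; simp [kapM]
    have e2 : g2 = 1 → kapM g1 g2 g3 2 = ω := by rintro rfl; simp [kapM]
    have e3 : g3 = 1 → kapM g1 g2 g3 3 = ω := by rintro rfl; simp [kapM]
    have f1 : ω ^ g1 = g1 → ω ^ kapM g1 g2 g3 1 = kapM g1 g2 g3 1 ∧
        (kapM g1 g2 g3 1).card ≤ Cardinal.aleph0 := by
      intro h
      have : kapM g1 g2 g3 1 = g1 := by simp [kapM, h]
      rw [this]
      exact ⟨h, hc⟩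
    have f2 : ω ^ g2 = g2 → ω ^ kapM g1 g2 g3 2 = kapM g1 g2 g3 2 ∧
        (kapM g1 g2 g3 2).card ≤ Cardinal.aleph0 := by
      intro h
      have : kapM g1 g2 g3 2 = g2 := by simp [kapM, h]
      rw [this]
      exact ⟨h, hc2⟩
    have f3 : ω ^ g3 = g3 → ω ^ kapM g1 g2 g3 3 = kapM g1 g2 g3 3 ∧
        (kapM g1 g2 g3 3).card ≤ Cardinal.aleph0 := by
      intro h
      have : kapM g1 g2 g3 3 = g3 := by simp [kapM, h]
      rw [this]
      exact ⟨h, hc3⟩
    rcases h3 with h3 | h3
    · rcases h2 with h2 | h2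
      · rcases h1 with h1 | h1
        · exact absurd h1 hg1
        · refine ⟨1, le_rfl, by omega, ?_, ?_⟩
          · intro j hj1 hj2
            obtain rfl : j = 1 := by omega
            exact f1 h1
          · intro j hj1 hj2
            obtain rfl | rfl : j = 2 ∨ j = 3 := by omega
            · exact e2 h2
            · exact e3 h3
      · have h1' : ω ^ g1 = g1 := by
          rcases h1 with h1 | h1
          · rw [h1] at h12
            exact absurd (h12.trans_lt (one_lt_omega0.trans_le (eps_omega_le h2)))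
              (lt_irrefl _)
          · exact h1
        refine ⟨2, by omega, by omega, ?_, ?_⟩
        · intro j hj1 hj2
          obtain rfl | rfl : j = 1 ∨ j = 2 := by omega
          · exact f1 h1'
          · exact f2 h2
        · intro j hj1 hj2
          obtain rfl : j = 3 := by omega
          exact e3 h3
    · have h2' : ω ^ g2 = g2 := by
        rcases h2 with h2 | h2
        · rw [h2] at h23
          exact absurd (h23.trans_lt (one_lt_omega0.trans_le (eps_omega_le h3))) (lt_irrefl _)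
        · exact h2
      have h1' : ω ^ g1 = g1 := by
        rcases h1 with h1 | h1
        · rw [h1] at h12
          exact absurd (h12.trans_lt (one_lt_omega0.trans_le (eps_omega_le h2'))) (lt_irrefl _)
        · exact h1
      refine ⟨3, by omega, le_rfl, ?_, fun j _ _ => by omega⟩
      intro j hj1 hj2
      obtain rfl | rfl | rfl : j = 1 ∨ j = 2 ∨ j = 3 := by omega
      · exact f1 h1'
      · exact f2 h2'
      · exact f3 h3
  have htop : kapM g1 g2 g3 4 = 1 := by simp [kapM]
  have hpos : ∀ j, 1 ≤ j → j ≤ 4 → 0 < kapM g1 g2 g3 j := by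
    intro j hj1 hj2
    obtain rfl | rfl | rfl | rfl : j = 1 ∨ j = 2 ∨ j = 3 ∨ j = 4 := by omega
    · simpa [kapM] using opow_pos g1 omega0_pos
    · simpa [kapM] using opow_pos g2 omega0_pos
    · simpa [kapM] using opow_pos g3 omega0_pos
    · rw [htop]
      exact zero_lt_one
  have hK : ω ≤ kpi (kapM g1 g2 g3) 4 := by
    apply omega_le_kpi hpos (k := 1) le_rfl (by omega)
    have : kapM g1 g2 g3 1 = ω ^ g1 := by simp [kapM]
    rw [this]
    exact hω g1 h1
  have hcount : ∀ j, 1 ≤ j → j ≤ 4 → (Set.Iic (kapM g1 g2 g3 j)).Countable := by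
    intro j hj1 hj2
    apply countable_Iic
    rcases Nat.lt_or_ge d j with h | h
    · rcases Nat.lt_or_ge j 4 with h4 | h4
      · rw [hdf j h (by omega)]
        simp
      · obtain rfl : j = 4 := by omega
        rw [htop]
        simp
    · exact (hdi j hj1 h).2
  obtain ⟨C⟩ := exists_cod 4 (kapM g1 g2 g3) hpos hcount
  rw [← kpi_kapM]
  intro G
  rcases H d (kapM g1 g2 g3) hd1 hd3 (fun j a b => (hdi j a b).1) (fun j a b => (hdi j a b).2) hdf
    htop C G with ⟨S, s1, s2, s3, s4, s5, B, s6⟩ | ⟨x, y, z, t1, t2, t3⟩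
  · exact Or.inl (red_of_V' C d S s1 s2 s3 s4 s5 (fun j a b => hdf j a (by omega)) htop hK
      (fun j a b => hcount j a (by omega)) G s6)
  · exact Or.inr ⟨C.pt x, C.pt y, C.pt z, t1.2.2, t2.2.2, t3.2.2⟩

end MPb6M
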