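import Pool.Agent.Lib.MP_b6d339_lc.Mix.Ram

/-!
# Placing two usages of a finite block

Levels are naturals; the higher level comes first. A usage is a function `u` from levels to finite
sets of labels. `place`: if every `r`-set of levels contains the support of a usage `u` with `U u`
and every `r'`-set contains the support of a usage with `U'`, labels increase towards the lower
levels and the hosting property holds, then there are `u`, `u'` with `U u`, `U' u'` which are well
placed with respect to each other.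
-/

namespace MPb6M

/-- all labels of `X` are smaller than all labels of `Y` -/
def LT (X Y : Finset ℕ) : Prop := ∀ x ∈ X, ∀ y ∈ Y, x < y

/-- merge positions -/
theorem merge (s s' : ℕ) (A A' : ℕ → Finset ℕ) (hA : ∀ i < s, (A i).Nonempty)
    (hA' : ∀ i < s', (A' i).Nonempty)
    (mA : ∀ i j, i < j → j < s → ∀ x ∈ A i, ∀ y ∈ A j, x ≤ y)
    (mA' : ∀ i j, i < j → j < s' → ∀ x ∈ A' i, ∀ y ∈ A' j, x ≤ y)
    (h1 : ∀ i < s, ∀ j, j + 1 < s' → LT (A' j) (A i) ∨ LT (A i) (A' (j + 1)))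
    (h2 : ∀ j < s', ∀ i, i + 1 < s → LT (A i) (A' j) ∨ LT (A' j) (A (i + 1))) :
    ∃ p p' : ℕ → ℕ, (∀ i j, i < j → j < s → p i < p j) ∧ (∀ i j, i < j → j < s' → p' i < p' j) ∧
      (∀ i < s, p i < s + s') ∧ (∀ j < s', p' j < s + s') ∧
      ∀ i < s, ∀ j < s', (p i < p' j → LT (A i) (A' j)) ∧ (p' j < p i → LT (A' j) (A i)) := by
  classical
  -- downward closed
  have d1 : ∀ i < s, ∀ j j', j' ≤ j → j < s' → LT (A' j) (A i) → LT (A' j') (A i) := by
    intro i _ j j' hj hjs h x hx y hy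
    rcases Nat.lt_or_ge j' j with h5 | h5
    · obtain ⟨z, hz⟩ := hA' j hjs
      exact lt_of_le_of_lt (mA' j' j h5 hjs x hx z hz) (h z hz y hy)
    · have : j' = j := le_antisymm hj h5
      subst this
      exact h x hx y hy
  have d2 : ∀ j < s', ∀ i i', i' ≤ i → i < s → LT (A i) (A' j) → LT (A i') (A' j) := by
    intro j _ i i' hi his h x hx y hy
    rcases Nat.lt_or_ge i' i with h5 | h5
    · obtain ⟨z, hz⟩ := hA i his
      exact lt_of_le_of_lt (mA i' i h5 his x hx z hz) (h z hz y hy)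
    · have : i' = i := le_antisymm hi h5
      subst this
      exact h x hx y hy
  -- upward closed
  have e1 : ∀ i i', i ≤ i' → i' < s → ∀ j, LT (A' j) (A i) → LT (A' j) (A i') := by
    intro i i' hi his j h x hx y hy
    rcases Nat.lt_or_ge i i' with h5 | h5
    · obtain ⟨z, hz⟩ := hA i (by omega)
      exact lt_of_lt_of_le (h x hx z hz) (mA i i' h5 his z hz y hy)
    · have : i = i' := le_antisymm hi h5
      subst this
      exact h x hx y hy
  have e2 : ∀ j j', j ≤ j' → j' < s' → ∀ i, LT (A i) (A' j) → LT (A i) (A' j') := by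
    intro j j' hj hjs i h x hx y hy
    rcases Nat.lt_or_ge j j' with h5 | h5
    · obtain ⟨z, hz⟩ := hA' j (by omega)
      exact lt_of_lt_of_le (h x hx z hz) (mA' j j' h5 hjs z hz y hy)
    · have : j = j' := le_antisymm hj h5
      subst this
      exact h x hx y hy
  obtain ⟨f, hf⟩ : ∃ f : ℕ → ℕ, ∀ i, f i = ((Finset.range s').filter (fun j => LT (A' j) (A i))).card :=
    ⟨_, fun _ => rfl⟩
  obtain ⟨g, hg⟩ : ∃ g : ℕ → ℕ, ∀ j, g j = ((Finset.range s).filter (fun i => LT (A i) (A' j))).card :=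
    ⟨_, fun _ => rfl⟩
  have hfs : ∀ i, f i ≤ s' := by
    intro i; rw [hf]
    exact le_trans (Finset.card_filter_le _ _) (by simp)
  have hgs : ∀ j, g j ≤ s := by
    intro j; rw [hg]
    exact le_trans (Finset.card_filter_le _ _) (by simp)
  have hfm : ∀ i j, i < j → j < s → f i ≤ f j := by
    intro i j hij hj
    rw [hf, hf]
    apply Finset.card_le_card
    intro k hk
    rw [Finset.mem_filter] at hk ⊢
    exact ⟨hk.1, e1 i j hij.le hj k hk.2⟩
  have hgm : ∀ i j, i < j → j < s' → g i ≤ g j := by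
    intro i j hij hj
    rw [hg, hg]
    apply Finset.card_le_card
    intro k hk
    rw [Finset.mem_filter] at hk ⊢
    exact ⟨hk.1, e2 i j hij.le hj k hk.2⟩
  -- values
  have f_ge : ∀ i < s, ∀ j < s', LT (A' j) (A i) → j + 1 ≤ f i := by
    intro i hi j hj h
    rw [hf]
    have : (Finset.range (j + 1)) ⊆ (Finset.range s').filter (fun j => LT (A' j) (A i)) := by
      intro k hk
      rw [Finset.mem_range] at hk
      rw [Finset.mem_filter, Finset.mem_range]
      exact ⟨by omega, d1 i hi j k (by omega) hj h⟩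
    have := Finset.card_le_card this
    rwa [Finset.card_range] at this
  have f_le : ∀ i < s, ∀ j < s', ¬ LT (A' j) (A i) → f i ≤ j := by
    intro i hi j hj h
    rw [hf]
    have : (Finset.range s').filter (fun j => LT (A' j) (A i)) ⊆ Finset.range j := by
      intro k hk
      rw [Finset.mem_filter, Finset.mem_range] at hk
      rw [Finset.mem_range]
      by_contra hkj
      exact h (d1 i hi k j (by omega) hk.1 hk.2)
    have := Finset.card_le_card this
    rwa [Finset.card_range] at this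
  have g_ge : ∀ j < s', ∀ i < s, LT (A i) (A' j) → i + 1 ≤ g j := by
    intro j hj i hi h
    rw [hg]
    have : (Finset.range (i + 1)) ⊆ (Finset.range s).filter (fun i => LT (A i) (A' j)) := by
      intro k hk
      rw [Finset.mem_range] at hk
      rw [Finset.mem_filter, Finset.mem_range]
      exact ⟨by omega, d2 j hj i k (by omega) hi h⟩
    have := Finset.card_le_card this
    rwa [Finset.card_range] at this
  have g_le : ∀ j < s', ∀ i < s, ¬ LT (A i) (A' j) → g j ≤ i := by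
    intro j hj i hi h
    rw [hg]
    have : (Finset.range s).filter (fun i => LT (A i) (A' j)) ⊆ Finset.range i := by
      intro k hk
      rw [Finset.mem_filter, Finset.mem_range] at hk
      rw [Finset.mem_range]
      by_contra hki
      exact h (d2 j hj k i (by omega) hk.1 hk.2)
    have := Finset.card_le_card this
    rwa [Finset.card_range] at this
  -- both orders at once are impossible
  have asym : ∀ i < s, ∀ j < s', LT (A i) (A' j) → ¬ LT (A' j) (A i) := by
    intro i hi j hj h h'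
    obtain ⟨x, hx⟩ := hA i hi
    obtain ⟨y, hy⟩ := hA' j hj
    exact absurd (h x hx y hy) (not_lt.2 (h' y hy x hx).le)
  -- meeting pairs
  have meet_f : ∀ i < s, ∀ j < s', ¬ LT (A i) (A' j) → ¬ LT (A' j) (A i) → j ≤ f i := by
    intro i hi j hj h h'
    rcases Nat.eq_zero_or_pos j with h0 | h0
    · omega
    · obtain ⟨k, rfl⟩ : ∃ k, j = k + 1 := ⟨j - 1, by omega⟩
      rcases h1 i hi k hj with h5 | h5
      · exact f_ge i hi k (by omega) h5
      · exact absurd h5 h
  have meet_g : ∀ i < s, ∀ j < s', ¬ LT (A i) (A' j) → ¬ LT (A' j) (A i) → i ≤ g j := by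
    intro i hi j hj h h'
    rcases Nat.eq_zero_or_pos i with h0 | h0
    · omega
    · obtain ⟨k, rfl⟩ : ∃ k, i = k + 1 := ⟨i - 1, by omega⟩
      rcases h2 j hj k hi with h5 | h5
      · exact g_ge j hj k (by omega) h5
      · exact absurd h5 h'
  refine ⟨fun i => i + f i, fun j => j + g j, ?_, ?_, ?_, ?_, ?_⟩
  · intro i j hij hj
    have := hfm i j hij hj
    show i + f i < j + f j
    omega
  · intro i j hij hj
    have := hgm i j hij hj
    show i + g i < j + g j
    omega
  · intro i hi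
    have := hfs i
    show i + f i < s + s'
    omega
  · intro j hj
    have := hgs j
    show j + g j < s + s'
    omega
  · intro i hi j hj
    show (i + f i < j + g j → _) ∧ (j + g j < i + f i → _)
    by_cases hl : LT (A i) (A' j)
    · refine ⟨fun _ => hl, fun h => ?_⟩
      have a1 := g_ge j hj i hi hl
      have a2 := f_le i hi j hj (asym i hi j hj hl)
      omega
    · by_cases hr : LT (A' j) (A i)
      · refine ⟨fun h => ?_, fun _ => hr⟩
        have a1 := f_ge i hi j hj hr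
        have a2 := g_le j hj i hi hl
        omega
      · have a1 := meet_f i hi j hj hl hr
        have a2 := meet_g i hi j hj hl hr
        have a3 := f_le i hi j hj hr
        have a4 := g_le j hj i hi hl
        exact ⟨fun h => by omega, fun h => by omega⟩

/-! ## Enumerating a finite set from the top -/

/-- number of elements of `K` above `v` -/
def idx (K : Finset ℕ) (v : ℕ) : ℕ := (K.filter (fun w => v < w)).card

theorem idx_lt {K : Finset ℕ} {v : ℕ} (hv : v ∈ K) : idx K v < K.card := by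
  unfold idx
  apply Finset.card_lt_card
  rw [Finset.ssubset_iff_of_subset (Finset.filter_subset _ _)]
  exact ⟨v, hv, by simp⟩

theorem idx_anti {K : Finset ℕ} {v w : ℕ} (h : v < w) (hw : w ∈ K) : idx K w < idx K v := by
  unfold idx
  apply Finset.card_lt_card
  rw [Finset.ssubset_iff_of_subset]
  · exact ⟨w, by simp [hw, h], by simp⟩
  · intro x hx
    rw [Finset.mem_filter] at hx ⊢
    exact ⟨hx.1, lt_trans h hx.2⟩

theorem idx_inj {K : Finset ℕ} {v w : ℕ} (hv : v ∈ K) (hw : w ∈ K) (h : idx K v = idx K w) :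
    v = w := by
  rcases lt_trichotomy v w with h1 | h1 | h1
  · exact absurd (idx_anti h1 hw) (by omega)
  · exact h1
  · exact absurd (idx_anti h1 hv) (by omega)

theorem idx_surj {K : Finset ℕ} {i : ℕ} (hi : i < K.card) : ∃ v ∈ K, idx K v = i := by
  classical
  have h := Finset.surj_on_of_inj_on_of_card_le (s := K) (t := Finset.range K.card)
    (fun v _ => idx K v) (fun v hv => Finset.mem_range.2 (idx_lt hv))
    (fun v w hv hw h => idx_inj hv hw h) (by simp) i (Finset.mem_range.2 hi)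
  obtain ⟨v, hv, h⟩ := h
  exact ⟨v, hv, h.symm⟩

/-- the usage with support `K` and the label sets `ψ 0, ψ 1, …` from the top -/
noncomputable def mk (K : Finset ℕ) (ψ : ℕ → Finset ℕ) : ℕ → Finset ℕ :=
  open Classical in fun v => if v ∈ K then ψ (idx K v) else ∅

theorem mk_mem {K : Finset ℕ} {ψ : ℕ → Finset ℕ} {v : ℕ} (hv : v ∈ K) :
    mk K ψ v = ψ (idx K v) := by simp [mk, hv]

theorem mk_notMem {K : Finset ℕ} {ψ : ℕ → Finset ℕ} {v : ℕ} (hv : v ∉ K) :
    mk K ψ v = ∅ := by simp [mk, hv]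

/-- every usage is of this form -/
theorem exists_mk (u : ℕ → Finset ℕ) (K : Finset ℕ) (h : ∀ v, (u v).Nonempty → v ∈ K) :
    ∃ ψ : ℕ → Finset ℕ, u = mk K ψ ∧ (∀ i, ∀ l ∈ ψ i, ∃ v, l ∈ u v) := by
  classical
  refine ⟨fun i => (K.filter (fun v => idx K v = i)).biUnion u, ?_, ?_⟩
  · funext v
    by_cases hv : v ∈ K
    · rw [mk_mem hv]
      have : K.filter (fun w => idx K w = idx K v) = {v} := by
        ext w
        rw [Finset.mem_filter, Finset.mem_singleton]
        constructor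
        · intro hw
          exact idx_inj hw.1 hv hw.2
        · intro hw
          rw [hw]
          exact ⟨hv, rfl⟩
      show u v = (K.filter (fun w => idx K w = idx K v)).biUnion u
      rw [this, Finset.singleton_biUnion]
    · rw [mk_notMem hv]
      by_contra hne
      exact hv (h v (Finset.nonempty_iff_ne_empty.2 hne))
  · intro i l hl
    rw [Finset.mem_biUnion] at hl
    obtain ⟨v, -, hv⟩ := hl
    exact ⟨v, hv⟩

/-- choosing levels in `H` at the positions `p` -/
theorem choose_levels (H : Finset ℕ) (s : ℕ) (p : ℕ → ℕ) (hp : ∀ i j, i < j → j < s → p i < p j)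
    (hb : ∀ i < s, p i < H.card) :
    ∃ K ⊆ H, K.card = s ∧ ∀ v ∈ K, idx K v < s ∧ idx H v = p (idx K v) := by
  classical
  have hz : ∀ q : ℕ, ∃ v, q < H.card → v ∈ H ∧ idx H v = q := by
    intro q
    by_cases hq : q < H.card
    · obtain ⟨v, hv, h⟩ := idx_surj hq
      exact ⟨v, fun _ => ⟨hv, h⟩⟩
    · exact ⟨0, fun h => absurd h hq⟩
  choose ζ hζ using hz
  have hinj : ∀ i < s, ∀ j < s, ζ (p i) = ζ (p j) → i = j := by
    intro i hi j hj h
    have h1 := (hζ (p i) (hb i hi)).2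
    have h2 := (hζ (p j) (hb j hj)).2
    rw [h] at h1
    have h3 : p i = p j := by rw [← h1, h2]
    rcases lt_trichotomy i j with h4 | h4 | h4
    · exact absurd (hp i j h4 hj) (by omega)
    · exact h4
    · exact absurd (hp j i h4 hi) (by omega)
  have hlt : ∀ i < s, ∀ j < s, (ζ (p i) < ζ (p j) ↔ j < i) := by
    intro i hi j hj
    have h1 := hζ (p i) (hb i hi)
    have h2 := hζ (p j) (hb j hj)
    constructor
    · intro h
      have h3 := idx_anti h h2.1
      rw [h1.2, h2.2] at h3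
      by_contra hji
      rcases Nat.lt_or_ge i j with h4 | h4
      · exact absurd (hp i j h4 hj) (by omega)
      · have : i = j := by omega
        subst this
        omega
    · intro h
      have h3 := hp j i h hi
      rcases lt_trichotomy (ζ (p i)) (ζ (p j)) with h4 | h4 | h4
      · exact h4
      · rw [← h1.2, ← h2.2, h4] at h3
        exact absurd h3 (lt_irrefl _)
      · have h5 := idx_anti h4 h1.1
        rw [h1.2, h2.2] at h5
        omega
  obtain ⟨K, hKdef⟩ : ∃ K, K = (Finset.range s).image (fun i => ζ (p i)) := ⟨_, rfl⟩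
  have hKc : K.card = s := by
    rw [hKdef, Finset.card_image_of_injOn, Finset.card_range]
    intro i hi j hj h
    exact hinj i (Finset.mem_range.1 hi) j (Finset.mem_range.1 hj) h
  have hidx : ∀ i < s, idx K (ζ (p i)) = i := by
    intro i hi
    unfold idx
    have : K.filter (fun w => ζ (p i) < w) = (Finset.range i).image (fun i => ζ (p i)) := by
      ext w
      rw [Finset.mem_filter, hKdef, Finset.mem_image, Finset.mem_image]
      constructor
      · rintro ⟨⟨j, hj, rfl⟩, hw⟩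
        refine ⟨j, Finset.mem_range.2 ?_, rfl⟩
        exact (hlt i hi j (Finset.mem_range.1 hj)).1 hw
      · rintro ⟨j, hj, rfl⟩
        have hj' := Finset.mem_range.1 hj
        exact ⟨⟨j, Finset.mem_range.2 (by omega), rfl⟩, (hlt i hi j (by omega)).2 hj'⟩
    rw [this, Finset.card_image_of_injOn, Finset.card_range]
    intro a ha b hb' h
    have ha' := Finset.mem_range.1 ha
    have hb'' := Finset.mem_range.1 hb'
    exact hinj a (by omega) b (by omega) h
  refine ⟨K, ?_, hKc, ?_⟩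
  · intro v hv
    rw [hKdef, Finset.mem_image] at hv
    obtain ⟨i, hi, rfl⟩ := hv
    exact (hζ (p i) (hb i (Finset.mem_range.1 hi))).1
  · intro v hv
    rw [hKdef, Finset.mem_image] at hv
    obtain ⟨i, hi, rfl⟩ := hv
    have hi' := Finset.mem_range.1 hi
    rw [hidx i hi']
    exact ⟨hi', (hζ (p i) (hb i hi')).2⟩

/-- code of a pattern -/
abbrev Pat (M r : ℕ) := Fin r → Finset (Fin (M + 1))

/-- decoding -/
def Pat.dec {M r : ℕ} (ψ : Pat M r) : ℕ → Finset ℕ :=
  fun i => if h : i < r then (ψ ⟨i, h⟩).image Fin.val else ∅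

theorem exists_pat (M r : ℕ) (ψ : ℕ → Finset ℕ) (h : ∀ i, ∀ l ∈ ψ i, l ≤ M) :
    ∃ φ : Pat M r, ∀ i < r, φ.dec i = ψ i := by
  classical
  refine ⟨fun i => Finset.univ.filter (fun l : Fin (M + 1) => (l : ℕ) ∈ ψ i), ?_⟩
  intro i hi
  unfold Pat.dec
  simp only [hi, dif_pos]
  ext l
  simp only [Finset.mem_image, Finset.mem_filter, Finset.mem_univ, true_and]
  constructor
  · rintro ⟨a, ha, rfl⟩
    exact ha
  · intro hl
    exact ⟨⟨l, Nat.lt_succ_of_le (h i l hl)⟩, hl, rfl⟩

theorem mk_congr {K : Finset ℕ} {ψ φ : ℕ → Finset ℕ} (h : ∀ i < K.card, ψ i = φ i) :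
    mk K ψ = mk K φ := by
  funext v
  by_cases hv : v ∈ K
  · rw [mk_mem hv, mk_mem hv, h _ (idx_lt hv)]
  · rw [mk_notMem hv, mk_notMem hv]

/-- one family on a homogeneous set: a pattern which is alive at all places of `H` -/
theorem homog_pattern (M r R : ℕ) (hrR : r ≤ R) (U : (ℕ → Finset ℕ) → Prop) (H : Finset ℕ)
    (hH : r ≤ H.card)
    (hom : ∀ K1 ⊆ H, ∀ K2 ⊆ H, K1.card = K2.card → K1.card ≤ R →
      {φ : Pat M R | U (mk K1 φ.dec)} = {φ : Pat M R | U (mk K2 φ.dec)})
    (hU : ∀ J ⊆ H, J.card = r → ∃ u, U u ∧ (∀ v, (u v).Nonempty → v ∈ J) ∧ ∀ v, ∀ l ∈ u v, l ≤ M) :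
    ∃ (s : ℕ) (ψ : ℕ → Finset ℕ), s ≤ r ∧ (∀ i < s, (ψ i).Nonempty) ∧
      ∀ K ⊆ H, K.card = s → U (mk K ψ) := by
  classical
  obtain ⟨J, hJH, hJc⟩ := Finset.exists_subset_card_eq hH
  obtain ⟨u, hu, hsupp, hlab⟩ := hU J hJH hJc
  obtain ⟨K, hKdef⟩ : ∃ K, K = J.filter (fun v => (u v).Nonempty) := ⟨_, rfl⟩
  have hK : ∀ v, (u v).Nonempty ↔ v ∈ K := by
    intro v
    rw [hKdef, Finset.mem_filter]
    exact ⟨fun h => ⟨hsupp v h, h⟩, fun h => h.2⟩
  have hKJ : K ⊆ J := by rw [hKdef]; exact Finset.filter_subset _ _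
  have hKr : K.card ≤ r := by rw [← hJc]; exact Finset.card_le_card hKJ
  obtain ⟨ψ, hψ, hψl⟩ := exists_mk u K (fun v hv => (hK v).1 hv)
  have hψM : ∀ i, ∀ l ∈ ψ i, l ≤ M := by
    intro i l hl
    obtain ⟨v, hv⟩ := hψl i l hl
    exact hlab v l hv
  obtain ⟨φ, hφ⟩ := exists_pat M R ψ hψM
  have hKφ : mk K φ.dec = mk K ψ := mk_congr (fun i hi => hφ i (by omega))
  refine ⟨K.card, φ.dec, hKr, ?_, ?_⟩
  · intro i hi
    obtain ⟨v, hv, hvi⟩ := idx_surj hi
    have h1 : (u v).Nonempty := (hK v).2 hv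
    rw [hψ, mk_mem hv, hvi] at h1
    rw [hφ i (by omega)]
    exact h1
  · intro K1 hK1 hc
    have h1 : φ ∈ {φ : Pat M R | U (mk K φ.dec)} := by
      show U (mk K φ.dec)
      rw [hKφ, ← hψ]
      exact hu
    rw [← hom K1 hK1 K (hKJ.trans hJH) hc (by omega)] at h1
    exact h1

/-- **Placement of two usages.** -/
theorem place (M r r' : ℕ) : ∃ N0 : ℕ, ∀ L : Finset ℕ, N0 ≤ L.card →
    ∀ U U' : (ℕ → Finset ℕ) → Prop,
    (∀ J ⊆ L, J.card = r → ∃ u, U u ∧ (∀ v, (u v).Nonempty → v ∈ J) ∧ ∀ v, ∀ l ∈ u v, l ≤ M) →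
    (∀ J ⊆ L, J.card = r' → ∃ u, U' u ∧ (∀ v, (u v).Nonempty → v ∈ J) ∧ ∀ v, ∀ l ∈ u v, l ≤ M) →
    (∀ u, U u → ∀ v w, w < v → ∀ x ∈ u v, ∀ y ∈ u w, x ≤ y) →
    (∀ u, U' u → ∀ v w, w < v → ∀ x ∈ u v, ∀ y ∈ u w, x ≤ y) →
    (∀ u u', U u → U' u' → ∀ v, (u v).Nonempty → ∀ v' w', w' < v' → (u' v').Nonempty →
      (u' w').Nonempty → (∀ z, w' < z → z < v' → u' z = ∅) → LT (u' v') (u v) ∨ LT (u v) (u' w')) →
    (∀ u u', U u → U' u' → ∀ v, (u' v).Nonempty → ∀ v' w', w' < v' → (u v').Nonempty →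
      (u w').Nonempty → (∀ z, w' < z → z < v' → u z = ∅) → LT (u v') (u' v) ∨ LT (u' v) (u w')) →
    ∃ u u', U u ∧ U' u' ∧ (∀ v w, w < v → LT (u v) (u' w)) ∧ (∀ v w, w < v → LT (u' v) (u w)) := by
  classical
  obtain ⟨R, hR⟩ : ∃ R, R = max r r' := ⟨_, rfl⟩
  obtain ⟨N0, hN0⟩ := ramsey_all (κ := Set (Pat M R) × Set (Pat M R)) R (r + r')
  refine ⟨N0, fun L hL U U' hU hU' mU mU' h1 h2 => ?_⟩
  obtain ⟨H, hHL, hHc, hom⟩ := hN0 L hL
    (fun K => ({φ : Pat M R | U (mk K φ.dec)}, {φ : Pat M R | U' (mk K φ.dec)}))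
  obtain ⟨s, ψ, hs, hψ, hall⟩ := homog_pattern M r R (by omega) U H (by omega)
    (fun K1 h1 K2 h2 h3 h4 => (Prod.ext_iff.1 (hom K1 h1 K2 h2 h3 h4)).1)
    (fun J hJ => hU J (hJ.trans hHL))
  obtain ⟨s', ψ', hs', hψ', hall'⟩ := homog_pattern M r' R (by omega) U' H (by omega)
    (fun K1 h1 K2 h2 h3 h4 => (Prod.ext_iff.1 (hom K1 h1 K2 h2 h3 h4)).2)
    (fun J hJ => hU' J (hJ.trans hHL))
  obtain ⟨K, hKH, hKc⟩ := Finset.exists_subset_card_eq (show s ≤ H.card by omega)
  obtain ⟨K', hKH', hKc'⟩ := Finset.exists_subset_card_eq (show s' ≤ H.card by omega)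
  have hu := hall K hKH hKc
  have hu' := hall' K' hKH' hKc'
  -- levels of index i
  have lev : ∀ i < s, ∃ v ∈ K, idx K v = i := fun i hi => idx_surj (by omega)
  have lev' : ∀ i < s', ∃ v ∈ K', idx K' v = i := fun i hi => idx_surj (by omega)
  have ord : ∀ {K : Finset ℕ} {v w : ℕ}, v ∈ K → w ∈ K → idx K v < idx K w → w < v := by
    intro K v w hv hw h
    rcases lt_trichotomy v w with h3 | h3 | h3
    · exact absurd (idx_anti h3 hw) (by omega)
    · subst h3; omega
    · exact h3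
  have mA : ∀ i j, i < j → j < s → ∀ x ∈ ψ i, ∀ y ∈ ψ j, x ≤ y := by
    intro i j hij hj x hx y hy
    obtain ⟨v, hv, hvi⟩ := lev i (by omega)
    obtain ⟨w, hw, hwj⟩ := lev j hj
    apply mU _ hu v w (ord hv hw (by omega)) x
    · rw [mk_mem hv, hvi]; exact hx
    · rw [mk_mem hw, hwj]; exact hy
  have mA' : ∀ i j, i < j → j < s' → ∀ x ∈ ψ' i, ∀ y ∈ ψ' j, x ≤ y := by
    intro i j hij hj x hx y hy
    obtain ⟨v, hv, hvi⟩ := lev' i (by omega)
    obtain ⟨w, hw, hwj⟩ := lev' j hj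
    apply mU' _ hu' v w (ord hv hw (by omega)) x
    · rw [mk_mem hv, hvi]; exact hx
    · rw [mk_mem hw, hwj]; exact hy
  -- no element strictly between two consecutive indices
  have btw : ∀ {K : Finset ℕ} {v w : ℕ} {ψ : ℕ → Finset ℕ}, v ∈ K → w ∈ K →
      idx K w = idx K v + 1 → ∀ z, w < z → z < v → mk K ψ z = ∅ := by
    intro K v w ψ hv hw h z hz1 hz2
    apply mk_notMem
    intro hz
    have a1 := idx_anti hz1 hz
    have a2 := idx_anti hz2 hv
    omega
  have g1 : ∀ i < s, ∀ j, j + 1 < s' → LT (ψ' j) (ψ i) ∨ LT (ψ i) (ψ' (j + 1)) := by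
    intro i hi j hj
    obtain ⟨v, hv, hvi⟩ := lev i hi
    obtain ⟨v', hv', hvi'⟩ := lev' j (by omega)
    obtain ⟨w', hw', hwi'⟩ := lev' (j + 1) hj
    have h := h1 _ _ hu hu' v (by rw [mk_mem hv, hvi]; exact hψ i hi) v' w'
      (ord hv' hw' (by omega)) (by rw [mk_mem hv', hvi']; exact hψ' j (by omega))
      (by rw [mk_mem hw', hwi']; exact hψ' (j + 1) hj) (btw hv' hw' (by omega))
    rw [mk_mem hv, mk_mem hv', mk_mem hw', hvi, hvi', hwi'] at h
    exact h
  have g2 : ∀ j < s', ∀ i, i + 1 < s → LT (ψ i) (ψ' j) ∨ LT (ψ' j) (ψ (i + 1)) := by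
    intro j hj i hi
    obtain ⟨v, hv, hvi⟩ := lev' j hj
    obtain ⟨v', hv', hvi'⟩ := lev i (by omega)
    obtain ⟨w', hw', hwi'⟩ := lev (i + 1) hi
    have h := h2 _ _ hu hu' v (by rw [mk_mem hv, hvi]; exact hψ' j hj) v' w'
      (ord hv' hw' (by omega)) (by rw [mk_mem hv', hvi']; exact hψ i (by omega))
      (by rw [mk_mem hw', hwi']; exact hψ (i + 1) hi) (btw hv' hw' (by omega))
    rw [mk_mem hv, mk_mem hv', mk_mem hw', hvi, hvi', hwi'] at h
    exact h
  obtain ⟨p, p', hp, hp', hpb, hpb', hpp⟩ := merge s s' ψ ψ' hψ hψ' mA mA' g1 g2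
  obtain ⟨K1, hK1H, hK1c, hK1⟩ := choose_levels H s p hp (fun i hi => by
    have := hpb i hi; omega)
  obtain ⟨K2, hK2H, hK2c, hK2⟩ := choose_levels H s' p' hp' (fun i hi => by
    have := hpb' i hi; omega)
  refine ⟨mk K1 ψ, mk K2 ψ', hall K1 hK1H hK1c, hall' K2 hK2H hK2c, ?_, ?_⟩
  · intro v w hwv x hx y hy
    have hv : v ∈ K1 := by
      by_contra h; rw [mk_notMem h] at hx; exact absurd hx (Finset.notMem_empty _)
    have hw : w ∈ K2 := by
      by_contra h; rw [mk_notMem h] at hy; exact absurd hy (Finset.notMem_empty _)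
    rw [mk_mem hv] at hx
    rw [mk_mem hw] at hy
    obtain ⟨a1, a2⟩ := hK1 v hv
    obtain ⟨b1, b2⟩ := hK2 w hw
    have h3 := idx_anti hwv (hK1H hv)
    rw [a2, b2] at h3
    exact (hpp _ a1 _ b1).1 h3 x hx y hy
  · intro v w hwv x hx y hy
    have hv : v ∈ K2 := by
      by_contra h; rw [mk_notMem h] at hx; exact absurd hx (Finset.notMem_empty _)
    have hw : w ∈ K1 := by
      by_contra h; rw [mk_notMem h] at hy; exact absurd hy (Finset.notMem_empty _)
    rw [mk_mem hv] at hx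
    rw [mk_mem hw] at hy
    obtain ⟨a1, a2⟩ := hK2 v hv
    obtain ⟨b1, b2⟩ := hK1 w hw
    have h3 := idx_anti hwv (hK2H hv)
    rw [a2, b2] at h3
    exact (hpp _ b1 _ a1).2 h3 x hx y hy

end MPb6M
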