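import Mathlib

/-!
# Finite Ramsey theorem for sets of levels
-/

namespace MPb6M

theorem pigeon {κ : Type} [Finite κ] (n : ℕ) :
    ∃ m : ℕ, ∀ (X : Finset ℕ), m ≤ X.card → ∀ f : ℕ → κ,
      ∃ H ⊆ X, n ≤ H.card ∧ ∃ d, ∀ x ∈ H, f x = d := by
  classical
  haveI := Fintype.ofFinite κ
  refine ⟨Fintype.card κ * n + 1, fun X hX f => ?_⟩
  have h1 : (Finset.univ : Finset κ).card * n < X.card := by
    rw [Finset.card_univ]; omega
  obtain ⟨d, -, hd⟩ := Finset.exists_lt_card_fiber_of_mul_lt_card_of_maps_to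
    (fun a _ => Finset.mem_univ (f a)) h1
  exact ⟨X.filter (fun x => f x = d), Finset.filter_subset _ _, hd.le, d,
    fun x hx => (Finset.mem_filter.1 hx).2⟩

/-- **Finite Ramsey theorem** for `s`-sets. -/
theorem ramsey {κ : Type} [Finite κ] [Nonempty κ] (s n : ℕ) :
    ∃ N : ℕ, ∀ (L : Finset ℕ), N ≤ L.card → ∀ c : Finset ℕ → κ,
      ∃ H ⊆ L, n ≤ H.card ∧ ∃ d, ∀ K ⊆ H, K.card = s → c K = d := by
  classical
  induction s generalizing n with
  | zero =>
    refine ⟨n, fun L hL c => ⟨L, Finset.Subset.refl L, hL, c ∅, ?_⟩⟩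
    intro K _ hK
    rw [Finset.card_eq_zero.1 hK]
  | succ s ih =>
    -- pre-homogeneous sets
    have pre : ∀ m : ℕ, ∃ N : ℕ, ∀ (L : Finset ℕ), N ≤ L.card → ∀ c : Finset ℕ → κ,
        ∃ X ⊆ L, m ≤ X.card ∧ ∃ d : ℕ → κ, ∀ K ⊆ X, K.card = s + 1 →
          ∀ x ∈ K, (∀ y ∈ K, x ≤ y) → c K = d x := by
      intro m
      induction m with
      | zero =>
        refine ⟨0, fun L _ c => ⟨∅, Finset.empty_subset _, by simp, fun _ => Classical.arbitrary κ, ?_⟩⟩
        intro K hK _ x hx
        exact absurd (hK hx) (Finset.notMem_empty x)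
      | succ m ihm =>
        obtain ⟨N1, hN1⟩ := ihm
        obtain ⟨N2, hN2⟩ := ih N1
        refine ⟨N2 + 1, fun L hL c => ?_⟩
        have hne : L.Nonempty := Finset.card_pos.1 (by omega)
        obtain ⟨x, hx⟩ : ∃ x, x = L.min' hne := ⟨_, rfl⟩
        have hxL : x ∈ L := by rw [hx]; exact L.min'_mem hne
        have hmin : ∀ y ∈ L, x ≤ y := fun y hy => by rw [hx]; exact L.min'_le y hy
        have hcard : N2 ≤ (L.erase x).card := by
          rw [Finset.card_erase_of_mem hxL]; omega
        obtain ⟨H, hHL, hHc, d0, hd0⟩ := hN2 (L.erase x) hcard (fun K => c (insert x K))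
        obtain ⟨X, hXH, hXc, d, hd⟩ := hN1 H hHc c
        have hxX : x ∉ X := fun h => Finset.notMem_erase x L (hHL (hXH h))
        refine ⟨insert x X, ?_, ?_, fun y => if y = x then d0 else d y, ?_⟩
        · intro y hy
          rcases Finset.mem_insert.1 hy with h | h
          · rw [h]; exact hxL
          · exact Finset.mem_of_mem_erase (hHL (hXH h))
        · rw [Finset.card_insert_of_notMem hxX]; omega
        · intro K hK hKc y hy hymin
          by_cases hxK : x ∈ K
          · have hyx : y = x := by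
              apply le_antisymm (hymin x hxK)
              rcases Finset.mem_insert.1 (hK hy) with h | h
              · rw [h]
              · exact hmin y (Finset.mem_of_mem_erase (hHL (hXH h)))
            rw [hyx]
            simp only [if_true]
            have h1 : (K.erase x).card = s := by
              rw [Finset.card_erase_of_mem hxK]; omega
            have h2 : K.erase x ⊆ H := by
              intro w hw
              rcases Finset.mem_insert.1 (hK (Finset.mem_of_mem_erase hw)) with h | h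
              · exact absurd h (Finset.ne_of_mem_erase hw)
              · exact hXH h
            have h3 := hd0 (K.erase x) h2 h1
            rw [Finset.insert_erase hxK] at h3
            exact h3
          · have hKX : K ⊆ X := by
              intro w hw
              rcases Finset.mem_insert.1 (hK hw) with h | h
              · exact absurd (h ▸ hw) hxK
              · exact h
            have hyx : y ≠ x := fun h => hxK (h ▸ hy)
            simp only [hyx, if_false]
            exact hd K hKX hKc y hy hymin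
    obtain ⟨m, hm⟩ := pigeon (κ := κ) n
    obtain ⟨N, hN⟩ := pre m
    refine ⟨N, fun L hL c => ?_⟩
    obtain ⟨X, hXL, hXc, d, hd⟩ := hN L hL c
    obtain ⟨H, hHX, hHc, e, he⟩ := hm X hXc d
    refine ⟨H, hHX.trans hXL, hHc, e, ?_⟩
    intro K hK hKc
    have hne : K.Nonempty := Finset.card_pos.1 (by omega)
    rw [hd K (hK.trans hHX) hKc (K.min' hne) (K.min'_mem hne) (fun y hy => K.min'_le y hy)]
    exact he _ (hK (K.min'_mem hne))

/-- simultaneously for all sizes `≤ r`. -/
theorem ramsey_all {κ : Type} [Finite κ] [Nonempty κ] (r n : ℕ) :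
    ∃ N : ℕ, ∀ (L : Finset ℕ), N ≤ L.card → ∀ c : Finset ℕ → κ,
      ∃ H ⊆ L, n ≤ H.card ∧ ∀ K1 ⊆ H, ∀ K2 ⊆ H, K1.card = K2.card → K1.card ≤ r → c K1 = c K2 := by
  classical
  induction r with
  | zero =>
    refine ⟨n, fun L hL c => ⟨L, Finset.Subset.refl L, hL, ?_⟩⟩
    intro K1 _ K2 _ h12 h0
    have h1 : K1 = ∅ := Finset.card_eq_zero.1 (by omega)
    have h2 : K2 = ∅ := Finset.card_eq_zero.1 (by omega)
    rw [h1, h2]
  | succ r ih =>
    obtain ⟨N1, hN1⟩ := ih
    obtain ⟨N2, hN2⟩ := ramsey (κ := κ) (r + 1) N1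
    refine ⟨N2, fun L hL c => ?_⟩
    obtain ⟨H1, hH1L, hH1c, d, hd⟩ := hN2 L hL c
    obtain ⟨H, hHH1, hHc, h⟩ := hN1 H1 hH1c c
    refine ⟨H, hHH1.trans hH1L, hHc, ?_⟩
    intro K1 hK1 K2 hK2 h12 hr
    rcases Nat.lt_or_ge r K1.card with h5 | h5
    · have h6 : K1.card = r + 1 := by omega
      rw [hd K1 (hK1.trans hHH1) h6, hd K2 (hK2.trans hHH1) (by omega)]
    · exact h K1 hK1 K2 hK2 h12 h5

end MPb6M
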