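import Pool.Agent.Lib.MP_b6d339_lc.Mix.G0
import Pool.Agent.Lib.MP_b6d339_lc.Mix.A2
import Pool.Agent.Lib.MP_b6d339_lc.Mix.A10
import Pool.Agent.Lib.MP_b6d339_lc.Mix.G1
import Pool.Agent.Lib.MP_b6d339_lc.Mix.G2
import Pool.Agent.Lib.MP_b6d339_lc.Mix.G3
import Pool.Agent.Lib.MP_b6d339_lc.Mix.G4
import Pool.Agent.Lib.MP_b6d339_lc.Mix.G5
import Pool.Agent.Lib.MP_b6d339_lc.Mix.G6
import Pool.Agent.Lib.MP_b6d339_lc.Mix.A8

open Ordinal

namespace MPb6M

open MPb6P (Valid Compat plr stL)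

/-! # S1: the objects, the system, the lines (port of Eps/S1) -/
variable {G : Gm}

/-- names of objects -/
abbrev Jn (G : Gm) := (Fin 3 × Ft G.td.T) ⊕ (Bool ⊕ Unit)

/-- pairs in which the waiting player has finished (component `w`) -/
def lz (G : Gm) (sd : Bool) (w c : Nd) (B : ℕ) : Set Pr :=
  {π | π ∈ G.All ∧ tr (side sd π) B = c ∧ side (!sd) π = w ∧ (∀ n ∈ w, n ≤ B) ∧
    ∃ n ∈ side sd π, B < n}

/-- the objects -/
def fob (G : Gm) : Jn G → Nd → Nd → ℕ → Set Pr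
  | Sum.inl (R, q), a, w, B => G.lf R q w a B
  | Sum.inr (Sum.inl sd), a, w, B => lz G sd w a B
  | Sum.inr (Sum.inr _), a, _, B => Com G.All a B

/-- `finite_lf` and three further sets -/
theorem fob_fin (G : Gm) (a w : Nd) (B : ℕ) : (Set.range fun j => fob G j a w B).Finite := by
  refine ((finite_lf G a w B).union ((Set.finite_range fun sd : Bool => lz G sd w a B).union
    (Set.finite_singleton (Com G.All a B)))).subset ?_
  rintro X ⟨j, rfl⟩
  rcases j with ⟨R, q⟩ | sd | u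
  · exact Or.inl ⟨R, q, rfl⟩
  · exact Or.inr (Or.inl ⟨sd, rfl⟩)
  · exact Or.inr (Or.inr rfl)

private theorem S1_ne {π : Pr} (h : π ∈ G.All) : π.1 ≠ π.2 := by
  obtain ⟨-, -, -, c, x, y, a, b, h1, h2, hab, -⟩ := h
  intro he
  rw [h1, h2] at he
  have h3 := List.append_cancel_left he
  have h4 := (List.cons.inj h3).1
  omega

private theorem S1_side {sd : Bool} {π : Pr} {B : ℕ} (h : ∃ n ∈ side sd π, B < n) :
    (∃ n ∈ π.1, B < n) ∨ ∃ n ∈ π.2, B < n := by
  cases sd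
  · exact Or.inr h
  · exact Or.inl h

private theorem S1_leaf {π : Pr} (h : π ∈ G.All) (sd : Bool) : G.Leaf (side sd π) := by
  cases sd
  · exact h.2.1
  · exact h.1

/-- `inl`: `lf_pos`. `Com`: the components of a pair of `All` are different. -/
theorem fob_new (j : Jn G) (a w : Nd) (B : ℕ) (π : Pr) (h : π ∈ fob G j a w B) :
    (∃ n ∈ π.1, B < n) ∨ ∃ n ∈ π.2, B < n := by
  rcases j with ⟨R, q⟩ | sd | u
  · obtain ⟨-, -, ⟨n, hn, hB, -⟩, -⟩ := lf_pos h
    exact S1_side ⟨n, hn, hB⟩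
  · obtain ⟨-, -, -, -, hn⟩ := h
    exact S1_side hn
  · obtain ⟨h1, h2, h3⟩ := h
    by_contra hc
    push Not at hc
    have e1 := tr_self hc.1
    have e2 := tr_self hc.2
    exact S1_ne h1 (by rw [← e1, ← e2, h2, h3])

/-- the ordinals and the valid nodes -/
structure KV (d : ℕ) where
  κ : ℕ → Ordinal.{0}
  hκ : ∀ j, 1 ≤ j → j ≤ d → Lim (κ j)
  hz : ∀ j, 1 ≤ j → j ≤ d → ∀ a < κ j, z a < κ j
  Val : Nd → Prop

/-- the system -/
def Gm.sys (G : Gm) (K : KV G.d) : Sys where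
  d := G.d
  m := G.D + 1
  hdm := by have := G.hdD; omega
  κ := K.κ
  hκ := K.hκ
  hz := K.hz
  cls := G.cls
  cls_ok := G.cls_ok
  Val := K.Val
  J := Jn G
  Fob := fob G
  fin := fob_fin G
  new := fob_new

theorem sys_cl (K : KV G.d) (s : List ℕ) : (G.sys K).cl s = clf G.cls s := rfl

/-- the line of a feature -/
def lineQ (K : KV G.d) (R : Fin 3) (q : Ft G.td.T) (w : Nd) (h1 : ci 0 < q.kap)
    (h2 : q.kap ≤ ci (G.D + 2)) : Line (G.sys K) where
  kap := q.kap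
  kap_pos := h1
  kap_le := h2
  sd := q.par
  w := w
  Fo := fun c B => G.lf R q w c B
  pos := fun _ _ _ h => lf_pos h
  time := fun _ _ _ _ h hB hc => lf_time h hB hc
  low := fun _ _ _ _ _ h hs hB hk hc hw => lf_low h hs hB hk hc hw
  thru := fun _ _ _ _ _ _ _ h hs hs' hk hB h1 h2 hc hw => lf_thru h hs hs' hk hB h1 h2 hc hw
  dead := fun _ _ _ _ _ h hs hB hc hw => lf_dead h hs hB hc hw
  up := fun _ _ _ _ _ h hc hw hs hB hk => lf_up h hc hw hs hB hk

open Classical in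
/-- the event of a line of a feature (infinite class) -/
noncomputable def evQ (G : Gm) (q : Ft G.td.T) (w : Nd) (c : Nd) (B : ℕ) : Set Pr :=
  if q.kap = ci 1 then evA G w q.par c B else evB G w q.par (co q.kap - 1) c B

noncomputable def evtQ (K : KV G.d) (R : Fin 3) (q : Ft G.td.T) (w : Nd) (h1 : ci 0 < q.kap)
    (h2 : q.kap ≤ ci (G.D + 2)) (h3 : co q.kap ≤ G.d) : Evt (lineQ K R q w h1 h2) where
  Ev := evQ G q w
  one := by
    intro hk c B s B' π h hs hB hcl ht hB'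
    have hk' : q.kap = ci 1 := hk
    have := ev_one (B' := B') hk' h hs hB hcl ht.1 ht.2 hB'
    simp only [evQ, if_pos hk']
    exact this
  big := by
    intro j hj hk c B s s' B' B'' π h hs hB hcl hs' hcl' hB' hB2 ht hB3
    have hk' : q.kap = ci j := hk
    have hjd : j ≤ G.d := by
      have h4 : co q.kap = j := congrArg co hk'
      omega
    have hne : q.kap ≠ ci 1 := by
      rw [hk']
      intro h5
      have h6 : j = 1 := congrArg co h5
      omega
    have hco : co q.kap = j := congrArg co hk'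
    have := ev_big (B' := B') hj hjd hk' h hs hB hcl hs' hcl' hB' hB2 ht.1 ht.2 hB3
    simp only [evQ, if_neg hne, hco]
    exact this

theorem lz_pos {sd : Bool} {w c : Nd} {B : ℕ} {π : Pr} (h : π ∈ lz G sd w c B) :
    tr (side sd π) B = c ∧ tr (side (!sd) π) B = w ∧
    (∃ n ∈ side sd π, B < n ∧ ∀ m ∈ side (!sd) π, B < m → n < m) ∧
    π.1.Pairwise (· < ·) ∧ π.2.Pairwise (· < ·) := by
  obtain ⟨h1, h2, h3, h4, n, hn, hB⟩ := h
  refine ⟨h2, ?_, ⟨n, hn, hB, ?_⟩, h1.1.inc, h1.2.1.inc⟩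
  · rw [h3]; exact tr_self h4
  · intro m hm hBm
    rw [h3] at hm
    have := h4 m hm
    omega

theorem lz_time {sd : Bool} {w c : Nd} {B B' : ℕ} {π : Pr} (h : π ∈ lz G sd w c B)
    (hB : B ≤ B') (hc : tr (side sd π) B' = c) : π ∈ lz G sd w c B' := by
  obtain ⟨h1, h2, h3, h4, n, hn, hBn⟩ := h
  refine ⟨h1, hc, h3, fun m hm => (h4 m hm).trans hB, n, hn, ?_⟩
  by_contra h5
  push Not at h5
  have h6 : n ∈ tr (side sd π) B' := (mem_tr (S1_leaf h1 sd).inc).2 ⟨hn, h5⟩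
  rw [hc, ← h2] at h6
  have := tr_le h6
  omega

/-- a component of the class of the leaves is complete: `tr_leaf` -/
theorem lz_low {sd : Bool} {w c : Nd} {B : ℕ} {s : List ℕ} {B' : ℕ} {π : Pr}
    (h : π ∈ lz G sd w c B) (hs : s ≠ []) (hB : ∀ n ∈ s, B < n)
    (hk : clf G.cls s < ci (G.D + 2))
    (hc : tr (side sd π) B' = c ++ s) (hw : tr (side (!sd) π) B' = w) :
    π ∈ lz G sd w (c ++ s) B' := by
  obtain ⟨h1, h2, h3, h4, n, hn, hBn⟩ := h
  obtain ⟨m, s', rfl⟩ := List.exists_cons_of_ne_nil hs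
  have hm : m ≤ B' := by
    have : m ∈ tr (side sd π) B' := by rw [hc]; simp
    exact tr_le this
  have hBm := hB m List.mem_cons_self
  refine ⟨h1, hc, h3, fun k hk => (h4 k hk).trans (by omega), ?_⟩
  by_contra h5
  push Not at h5
  have h6 := tr_self h5
  have h7 := leaf_clf (S1_leaf h1 sd)
  rw [← h6, hc, clf_append] at h7
  have h8 : clf G.cls c = ci (G.D + 2) := by
    rcases le_total (clf G.cls c) (clf G.cls (m :: s')) with h9 | h9
    · rw [max_eq_right h9] at h7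
      rw [h7] at hk
      exact absurd hk (lt_irrefl _)
    · rw [max_eq_left h9] at h7
      exact h7
  rw [← h2] at h8
  have h9 := tr_leaf (S1_leaf h1 sd) h8
  rw [← h9] at hn
  have := tr_le hn
  omega

theorem lz_thru {sd : Bool} {w c : Nd} {B B' B'' : ℕ} {s s' : List ℕ} {π : Pr}
    (h : π ∈ lz G sd w c B) (hs : ∀ n ∈ s, B < n) (hs' : s' ≠ [])
    (hB : B ≤ B') (h1 : ∀ n ∈ c ++ s, n ≤ B') (h2 : ∀ n ∈ s', B' < n)
    (hc : tr (side sd π) B'' = c ++ s ++ s') : π ∈ lz G sd w (c ++ s) B' := by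
  obtain ⟨g1, g2, g3, g4, n, hn, hBn⟩ := h
  obtain ⟨m, s'', rfl⟩ := List.exists_cons_of_ne_nil hs'
  have hmt : m ∈ tr (side sd π) B'' := by rw [hc]; simp
  have hm : m ≤ B'' := tr_le hmt
  have hBm := h2 m List.mem_cons_self
  refine ⟨g1, ?_, g3, fun k hk => (g4 k hk).trans hB, m, (tr_prefix _ _).subset hmt, hBm⟩
  rw [← tr_tr (side sd π) (show B' ≤ B'' by omega), hc]
  exact tr_append h1 h2

theorem lz_up {sd : Bool} {w c : Nd} {B B' : ℕ} {s : List ℕ} {π : Pr}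
    (h : π ∈ lz G sd w (c ++ s) B') (hc : ∀ n ∈ c, n ≤ B) (hw : ∀ n ∈ w, n ≤ B)
    (hs : ∀ n ∈ s, B < n) (hB : B ≤ B') : π ∈ lz G sd w c B := by
  obtain ⟨g1, g2, g3, g4, n, hn, hBn⟩ := h
  refine ⟨g1, ?_, g3, hw, n, hn, by omega⟩
  rw [← tr_tr (side sd π) hB, g2]
  exact tr_append hc hs

theorem clf_le_D2 (G : Gm) (s : List ℕ) : clf G.cls s ≤ ci (G.D + 2) :=
  (clf_le (ci_le.2 (Nat.zero_le _))).2 fun n _ => G.cls_le n

/-- the line of the pairs whose waiting player has finished -/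
def lineZ (K : KV G.d) (sd : Bool) (w : Nd) : Line (G.sys K) where
  kap := ci (G.D + 2)
  kap_pos := ci_lt.2 (by omega)
  kap_le := le_rfl
  sd := sd
  w := w
  Fo := fun c B => lz G sd w c B
  pos := fun _ _ _ h => lz_pos h
  time := fun _ _ _ _ h hB hc => lz_time h hB hc
  low := fun _ _ _ _ _ h hs hB hk hc hw => lz_low h hs hB hk hc hw
  thru := fun _ _ _ _ _ _ _ h hs hs' _ hB h1 h2 hc _ => lz_thru h hs hs' hB h1 h2 hc
  dead := fun _ _ _ _ _ _ _ _ _ _ => clf_le_D2 G _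
  up := fun _ _ _ _ _ h hc hw hs hB _ => lz_up h hc hw hs hB

/-- the set of all oriented blue pairs has the properties needed by the common beginning -/
theorem allOK (G : Gm) (K : KV G.d) : AllOK (G.sys K) G.All where
  inc := fun _ h => ⟨h.1.inc, h.2.1.inc⟩
  ne := fun _ h => S1_ne h
  leaf := fun _ h => ⟨leaf_clf h.1, leaf_clf h.2.1⟩
  leaf' := fun _ h _ => ⟨fun h1 => tr_leaf h.1 h1, fun h1 => tr_leaf h.2.1 h1⟩

end MPb6M
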