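import Pool.Agent.Lib.MP_b6d339_lc.Mix.S1
import Pool.Agent.Lib.MP_b6d339_lc.Mix.A4
import Pool.Agent.Lib.MP_b6d339_lc.Mix.A4m
import Pool.Agent.Lib.MP_b6d339_lc.Mix.A5a
import Pool.Agent.Lib.MP_b6d339_lc.Mix.C3
import Pool.Agent.Lib.MP_b6d339_lc.Mix.C4

open Ordinal

namespace MPb6M

open MPb6P (Valid Compat plr stL)

/-! # S2: the state of the three runs -/
variable {G : Gm}

/-- The state: a complete room `(Q, Fr)` of level `k` at time `B`, the nodes `e p` of the three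
players, three witnesses `w R` (not forbidden, if the run `R` is pending). -/
structure Tri (G : Gm) (K : KV G.d) (k : ℕ) (B : ℕ) (Q : List Tok) (Fr : Set Pr)
    (e : Fin 3 → Nd) (w : Fin 3 → Pr) (t0 : G.td.T) : Prop where
  wf : WFl (G.sys K) Q B
  lim : ∀ e a, (e, some a) ∈ Q → (G.sys K).LimN a
  win : V (G.sys K) k ⟨Q, B, Fr⟩
  nd : ∀ p, e p ∈ nds Q
  comp : ∀ j p p', fob G j (e p) (e p') B ⊆ Fr ∨
    ¬ V (G.sys K) k ⟨Q, B, Fr ∪ fob G j (e p) (e p') B⟩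
  nf : ∀ R, Pd w B R → w R ∉ Fr
  tc : TC G B e w t0

variable {K : KV G.d} {k B : ℕ} {Q : List Tok} {Fr : Set Pr} {e : Fin 3 → Nd} {w : Fin 3 → Pr}
  {t0 : G.td.T}

/-- **The room of the next level.** -/
theorem Tri.of_room {t' : St} (hR : Rm (G.sys K) (V (G.sys K) k) t'.P t'.B t'.F)
    (he : ∀ p, e p ∈ nds t'.P) (hw : ∀ R, Pd w t'.B R → w R ∉ t'.F) (htc : TC G t'.B e w t0) :
    ∃ Q Fr, Tri G K k t'.B Q Fr e w t0 := by
  obtain ⟨Fr, hFr, Q, hQ⟩ := hR
  refine ⟨Q, Fr, hQ.wf, hQ.lim, hQ.win, ?_, ?_, ?_, htc⟩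
  · intro p
    obtain ⟨⟨e0, o⟩, ht, he0⟩ := List.mem_map.1 (he p)
    have he1 : e0 = e p := he0
    subst he1
    cases o with
    | none => exact List.mem_map.2 ⟨_, hQ.covl _ ht, rfl⟩
    | some a =>
      obtain ⟨a', ha'⟩ := hQ.cov _ _ ht
      exact List.mem_map.2 ⟨_, ha', rfl⟩
  · intro j p p'
    exact hQ.comp j (e p) (he p) (e p') (he p')
  · intro R hP hw'
    exact hw R hP (hFr hw')

/-- the token of a node which is not a leaf -/
theorem Tri.tok (h : Tri G K k B Q Fr e w t0) (p : Fin 3) (hc : clf G.cls (e p) < ci (G.D + 2)) :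
    ∃ a, (e p, some a) ∈ Q := by
  obtain ⟨⟨e0, o⟩, ht, he0⟩ := List.mem_map.1 (h.nd p)
  have he1 : e0 = e p := he0
  subst he1
  cases o with
  | none =>
    exfalso
    have h1 : clf G.cls (e p) = ci (G.D + 2) := h.wf.lf _ ht
    exact absurd hc (by rw [h1]; exact lt_irrefl _)
  | some a => exact ⟨a, ht⟩

/-- the feature of the pending run `R` -/
noncomputable abbrev fq (G : Gm) (w : Fin 3 → Pr) (B : ℕ) (R : Fin 3) : Ft G.td.T :=
  G.feat R (w R) B

/-- the object of the run `R` -/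
noncomputable abbrev oR (G : Gm) (e : Fin 3 → Nd) (w : Fin 3 → Pr) (B : ℕ) (R : Fin 3) (B' : ℕ) :
    Set Pr :=
  G.lf R (fq G w B R) (e (pl R (!ac w B R))) (e (pl R (ac w B R))) B'

theorem Tri.mem (h : Tri G K k B Q Fr e w t0) {R : Fin 3} (hR : Pd w B R) :
    w R ∈ oR G e w B R B :=
  ⟨h.tc.all R, h.tc.rs R, hR, rfl, h.tc.nd R (ac w B R), h.tc.nd R (!ac w B R)⟩

/-- the object of a pending run is alive -/
theorem Tri.alive (h : Tri G K k B Q Fr e w t0) {R : Fin 3} (hR : Pd w B R) :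
    ¬ V (G.sys K) k ⟨Q, B, Fr ∪ oR G e w B R B⟩ := by
  rcases h.comp (Sum.inl (R, fq G w B R)) (pl R (ac w B R)) (pl R (!ac w B R)) with h1 | h1
  · exact absurd (h1 (h.mem hR)) (h.nf R hR)
  · exact h1

/-- `lf_q`, `act_not_leaf` -/
theorem Tri.data (h : Tri G K k B Q Fr e w t0) {R : Fin 3} (hR : Pd w B R) :
    (fq G w B R).par = ac w B R ∧ (fq G w B R).kap = G.kp (w R) B ∧ ci 0 < (fq G w B R).kap ∧
    (fq G w B R).kap ≤ ci (G.D + 2) ∧ clf G.cls (e (pl R (ac w B R))) < ci (G.D + 2) := by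
  obtain ⟨h1, h2, h3, h4, -⟩ := lf_q (h.mem hR)
  refine ⟨h1, h2, h3, h4, ?_⟩
  have h5 := act_not_leaf (h.tc.all R) (h.tc.rs R) hR
  have h6 : tr (side (sdI (nx (w R) B)) (w R)) B = e (pl R (ac w B R)) := h.tc.nd R (ac w B R)
  rw [h6] at h5
  exact h5

/-- an element of the object of the run `R` at a later time continues this run -/
theorem keep_of {R : Fin 3} (hR : Pd w B R) {B' : ℕ} {π : Pr} {wn cn : Nd}
    (h : π ∈ G.lf R (fq G w B R) wn cn B') :
    Keep G R (w R) π B B' ∧ tr (side (ac w B R) π) B' = cn ∧ tr (side (!ac w B R) π) B' = wn ∧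
      nx π B' < pL π :=
  ⟨⟨h.1, h.2.1, Or.inr ⟨hR, h.2.2.1, h.2.2.2.1⟩⟩, h.2.2.2.2.1, h.2.2.2.2.2, h.2.2.1⟩

/-- a finished run: its witness is kept, its nodes do not move -/
theorem Tri.keep_done (h : Tri G K k B Q Fr e w t0) {X : Fin 3} (hX : ¬ Pd w B X) {B' : ℕ}
    (hB : B ≤ B') : Keep G X (w X) (w X) B B' ∧ (∀ sd, tr (side sd (w X)) B' = e (pl X sd)) ∧
      ¬ Pd w B' X ∧ ∀ sd, side sd (w X) = e (pl X sd) := by
  have hall := h.tc.all X
  have hrs := h.tc.rs X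
  have hle : nx (w X) B ≤ pL (w X) := nx_le B
  have hX' : ¬ nx (w X) B < pL (w X) := hX
  have heq : nx (w X) B = pL (w X) := by omega
  obtain ⟨h1, h2⟩ := (nx_full hall hrs).1 heq
  have hle' : nx (w X) B' ≤ pL (w X) := nx_le B'
  have hmo : nx (w X) B ≤ nx (w X) B' := nx_mono hB
  have heq' : nx (w X) B' = pL (w X) := by omega
  obtain ⟨h1', h2'⟩ := (nx_full hall hrs).1 heq'
  have hs : ∀ sd, side sd (w X) = e (pl X sd) := by
    intro sd
    rw [← h.tc.nd X sd]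
    cases sd
    · exact h2.symm
    · exact h1.symm
  refine ⟨⟨hall, hrs, Or.inl ⟨heq, rfl⟩⟩, ?_, ?_, hs⟩
  · intro sd
    rw [← hs sd]
    cases sd
    · exact h2'
    · exact h1'
  · intro hP
    have hP' : nx (w X) B' < pL (w X) := hP
    omega

/-- **The other runs survive** (both nodes unchanged): `Line.alive_ext` for `lineQ`; `Fo ⊆ t'.F`
would give `V` of the killed state. -/
theorem Tri.keep (h : Tri G K k B Q Fr e w t0) {t' : St} (hE : Ext ⟨Q, B, Fr⟩ t')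
    (hV : V (G.sys K) k t') {X : Fin 3} (hX : Pd w B X) :
    ∃ π ∈ oR G e w B X t'.B, π ∉ t'.F := by
  by_contra hcon
  push Not at hcon
  obtain ⟨-, -, h1, h2, -⟩ := h.data hX
  have h3 := Line.alive_ext (S := G.sys K) (k := k) (t := ⟨Q, B, Fr⟩) (t' := t') h.wf hE
    (lineQ K X (fq G w B X) (e (pl X (!ac w B X))) h1 h2) (c := e (pl X (ac w B X)))
    (h.alive hX)
  apply h3
  have h4 : t'.F ∪ (lineQ K X (fq G w B X) (e (pl X (!ac w B X))) h1 h2).Fo
      (e (pl X (ac w B X))) t'.B = t'.F := Set.union_eq_left.2 hcon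
  rw [h4]
  exact hV

theorem Gm.co_cls_pos (G : Gm) (n : ℕ) : 1 ≤ co (G.cls n) := by
  have hd := G.hd
  rcases G.cls_ok n with ⟨j, h1, -, h⟩ | ⟨f, i, h1, -, h⟩ | h
  · rw [h, co_ci]; exact h1
  · rw [h, co_cf]; omega
  · rw [h, co_ci]; omega

/-- the coarse class of a non-empty interval is at least `1` -/
theorem co_kl_pos {π : Pr} (h : π ∈ G.All) (hr : RS π) {i B : ℕ} (hi : i < pL π)
    (hB : B < pt π i) : 1 ≤ co (kl G.cls (side (sdI i) π) B (pt π i)) :=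
  (G.co_cls_pos (pt π i)).trans (co_mono (kl_mem_le (pt_mem (play_spec h hr) hi) hB le_rfl))

/-- a class with infinite coarse class is determined by it -/
theorem clf_ci (G : Gm) (s : List ℕ) (h : co (clf G.cls s) ≤ G.d) :
    clf G.cls s = ci (co (clf G.cls s)) := by
  rcases eq_or_ne s [] with rfl | hs
  · rfl
  · obtain ⟨n, -, hn⟩ := clf_mem G.cls_pos hs
    rw [hn] at h ⊢
    have hd := G.hd
    have hdD := G.hdD
    rcases G.cls_ok n with ⟨j, h1, -, h2⟩ | ⟨f, i, h1, -, h2⟩ | h2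
    · rw [h2, co_ci]
    · rw [h2, co_cf] at h; omega
    · rw [h2, co_ci]

/-- equal labels imply mixed (`p = (0, l)`, `i = m`), if the classes are equal -/
theorem mx_of_eq (h : TC G B e w t0) {R R' : Fin 3} {sd' : Bool} (hR : Mn G w B R)
    (ho : orr R (ac w B R) = (R', sd')) (hl : G.nl (w R') R' B = G.nl (w R) R B) :
    Mx G w B R R' := by
  obtain ⟨-, -, -, -, h1, -⟩ := tc_active h hR ho
  have hPl := play_spec (h.all R) (h.rs R)
  have hm : nx (w R) B < pL (w R) := hR.1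
  have hk : 1 ≤ co (G.kp (w R) B) :=
    co_kl_pos (h.all R) (h.rs R) hm (lt_pt hPl le_rfl hm)
  refine ⟨(h1 hl).symm, Or.inr ⟨(0, G.nl (w R) R B), ⟨nx (w R) B, le_rfl, hm, rfl, ?_⟩, ?_, ?_⟩⟩
  · rw [kl_none (fun n _ hn => hn)]
    rfl
  · exact hk
  · exact hl.le

end MPb6M
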