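import Pool.Agent.Lib.MP_b6d339_lc.Mix.S2

open Ordinal

namespace MPb6M

open MPb6P (Valid Compat plr stL)

/-! # S3: common events of two runs: the new witnesses -/
variable {G : Gm} {K : KV G.d} {k B : ℕ} {Q : List Tok} {Fr : Set Pr} {e : Fin 3 → Nd}
  {w : Fin 3 → Pr} {t0 : G.td.T}

private theorem S3_last {x s : List ℕ} {B : ℕ} (hs : s ≠ []) (hB : ∀ n ∈ s, B < n) :
    B < lastN (x ++ s) := by
  unfold lastN
  rw [List.getLastD_eq_getLast?, List.getLast?_append_of_ne_nil x hs, List.getLast?_eq_getLast_of_ne_nil hs]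
  exact hB _ (List.getLast_mem hs)

private theorem S3_pl (R : Fin 3) (a : Bool) : pl R (!a) ≠ pl R a := by
  revert R a
  decide

/-- The new state, if the active player `p = pl R (ac w B R)` of `R` moves to `e p ++ s`. `π`, `π'` =
new witnesses for `R`, `R'`. `e' p = e p ++ s`, `e' i = e i` otherwise; the third run is kept
(`Tri.keep`, `Tri.keep_done`, `keep_of`). Last statement: `Tri.of_room`. `third`, `orr_iff`. -/
theorem Tri.build (h : Tri G K (k + 1) B Q Fr e w t0) {R R' : Fin 3} {sd' : Bool}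
    (hR : Mn G w B R) (ho : orr R (ac w B R) = (R', sd')) {t' : St} (hE : Ext ⟨Q, B, Fr⟩ t')
    (hV : V (G.sys K) (k + 1) t') (hRm : Rm (G.sys K) (V (G.sys K) k) t'.P t'.B t'.F) {s : List ℕ}
    (hs : s ≠ []) (hB : ∀ n ∈ s, B < n) (hc : e (pl R (ac w B R)) ++ s ∈ nds t'.P)
    (hl : t'.B = lastN (e (pl R (ac w B R)) ++ s)) {π π' : Pr} (hπ : π ∈ oR G e w B R B)
    (hπF : π ∉ t'.F) (h1 : tr (side (ac w B R) π) t'.B = e (pl R (ac w B R)) ++ s)
    (h2 : tr (side (!ac w B R) π) t'.B = e (pl R (!ac w B R))) (hπ' : π' ∈ oR G e w B R' B)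
    (hπF' : π' ∉ t'.F) (h1' : tr (side sd' π') t'.B = e (pl R (ac w B R)) ++ s)
    (h2' : tr (side (!sd') π') t'.B = e (pl R' (!sd'))) :
    ∃ e' w', CS G B t'.B e e' w w' t0 R R' sd' ∧ w' R = π ∧ w' R' = π' ∧
      (TC G t'.B e' w' t0 → ∃ Q' Fr', Tri G K k t'.B Q' Fr' e' w' t0) := by
  classical
  have hBl : B < t'.B := by
    rw [hl]
    exact S3_last hs hB
  have horr := orr_iff.mp ho.symm
  have hRR : R ≠ R' := fun hc => horr.1 hc.symm
  have hplR' : pl R' sd' = pl R (ac w B R) := horr.2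
  obtain ⟨X, hXR, hXR', hall⟩ := third R R' hRR
  have hXp : ∀ sd, pl X sd ≠ pl R (ac w B R) := by
    intro sd hsd
    have h3 : (X, sd) = orr R (ac w B R) := orr_iff.mpr ⟨hXR, hsd⟩
    rw [ho, Prod.mk.injEq] at h3
    exact hXR' h3.1
  have hX : ∃ πX, Keep G X (w X) πX B t'.B ∧ (∀ sd, tr (side sd πX) t'.B = e (pl X sd)) ∧
      (nx πX t'.B < pL πX → πX ∉ t'.F) := by
    by_cases hP : Pd w B X
    · obtain ⟨πX, ha, hb⟩ := h.keep hE hV hP
      obtain ⟨c1, c2, c3, c4⟩ := keep_of hP ha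
      refine ⟨πX, c1, ?_, fun _ => hb⟩
      intro sd
      by_cases hsd : sd = ac w B X
      · rw [hsd]; exact c2
      · have : sd = !ac w B X := by
          cases sd <;> cases hac : ac w B X <;> simp_all
        rw [this]; exact c3
    · obtain ⟨c1, c2, c3, c4⟩ := h.keep_done hP hBl.le
      exact ⟨w X, c1, c2, fun hh => absurd hh c3⟩
  obtain ⟨πX, hK, hndX, hFX⟩ := hX
  set w' : Fin 3 → Pr := fun Y => if Y = R then π else if Y = R' then π' else πX with hw'
  have wR : w' R = π := by simp [hw']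
  have wR' : w' R' = π' := by
    rw [hw']
    show (if R' = R then π else if R' = R' then π' else πX) = π'
    rw [if_neg horr.1, if_pos rfl]
  have wX : w' X = πX := by
    rw [hw']
    show (if X = R then π else if X = R' then π' else πX) = πX
    rw [if_neg hXR, if_neg hXR']
  set e' : Fin 3 → Nd := Function.update e (pl R (ac w B R)) (e (pl R (ac w B R)) ++ s) with he'
  have ep : e' (pl R (ac w B R)) = e (pl R (ac w B R)) ++ s := Function.update_self _ _ _
  have eo : ∀ q, q ≠ pl R (ac w B R) → e' q = e q := fun q hq => Function.update_of_ne hq _ _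
  obtain ⟨a1, a2, a3, a4, -, -⟩ := hπ
  obtain ⟨b1, b2, b3, b4, -, -⟩ := hπ'
  refine ⟨e', w', ⟨h.tc, hBl, hR, ho, ?_, ?_, ?_, ?_, ?_⟩, wR, wR', ?_⟩
  · intro Y
    rcases hall Y with rfl | rfl | rfl
    · rw [wR]; exact ⟨a1, a2⟩
    · rw [wR']; exact ⟨b1, b2⟩
    · rw [wX]; exact ⟨hK.1, hK.2.1⟩
  · rw [wR]; exact ⟨a3, a4⟩
  · rw [wR']; exact ⟨b3, b4⟩
  · intro Y h3 h4
    rcases hall Y with rfl | rfl | rfl
    · exact absurd rfl h3
    · exact absurd rfl h4
    · rw [wX]; exact hK
  · intro Y sd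
    rcases hall Y with hY | hY | hY
    · rw [hY, wR]
      by_cases hsd : sd = ac w B R
      · rw [hsd, ep]; exact h1
      · have : sd = !ac w B R := by
          cases sd <;> cases hac : ac w B R <;> simp_all
        rw [this, eo _ (S3_pl R _)]; exact h2
    · rw [hY, wR']
      by_cases hsd : sd = sd'
      · rw [hsd, hplR', ep]; exact h1'
      · have : sd = !sd' := by
          cases sd <;> cases sd' <;> simp_all
        have hne : pl R' (!sd') ≠ pl R (ac w B R) := by
          rw [← hplR']; exact S3_pl R' sd'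
        rw [this, eo _ hne]; exact h2'
    · rw [hY, wX, eo _ (hXp sd)]
      exact hndX sd
  · intro htc
    refine Tri.of_room hRm ?_ ?_ htc
    · intro q
      by_cases hq : q = pl R (ac w B R)
      · rw [hq, ep]; exact hc
      · rw [eo q hq]
        have h3 := h.nd q
        unfold nds at h3 ⊢
        rw [List.mem_map] at h3 ⊢
        obtain ⟨a, ha, hb⟩ := h3
        exact ⟨a, hE.P ha, hb⟩
    · intro Y hY
      rcases hall Y with hY2 | hY2 | hY2
      · rw [hY2, wR]; exact hπF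
      · rw [hY2, wR']; exact hπF'
      · rw [hY2] at hY ⊢
        unfold Pd at hY
        rw [wX] at hY ⊢
        exact hFX hY

end MPb6M
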