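import Pool.Agent.Lib.MP_b6d339_lc.Mix.S2
import Pool.Agent.Lib.MP_b6d339_lc.Mix.A9

open Ordinal

namespace MPb6M

open MPb6P (Valid Compat plr stL)

/-! # S3e: common events of two runs: game part -/
variable {G : Gm} {K : KV G.d} {k B : ℕ} {Q : List Tok} {Fr : Set Pr} {e : Fin 3 → Nd}
  {w : Fin 3 → Pr} {t0 : G.td.T}

private lemma S3e_obj {R R' : Fin 3} {sd' : Bool}
    (ho : orr R (ac w B R) = (R', sd')) (hac : ac w B R' = sd') (B' : ℕ) :
    oR G e w B R' B' = G.lf R' (fq G w B R') (e (pl R' (!sd'))) (e (pl R (ac w B R))) B' := by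
  have h1 : pl R' sd' = pl R (ac w B R) := by
    have := (orr_pl R (ac w B R)).2.1
    rw [ho] at this
    exact this
  unfold oR
  rw [hac, h1]

/-- **Common event, game part.** `common` for the lines `lineQ` of `R` and `R'` (with `evtQ`) at the
node `e p`, `Tri.alive`, `Tri.tok`, `tc_active`. -/
theorem Tri.ev (h : Tri G K (k + 1) B Q Fr e w t0) {R R' : Fin 3} {sd' : Bool}
    (hR : Mn G w B R) (ho : orr R (ac w B R) = (R', sd')) (hk : G.kp (w R) B = G.kp (w R') B)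
    (hkD : co (G.kp (w R) B) ≤ G.d) :
    ∃ t' s, Ext ⟨Q, B, Fr⟩ t' ∧ V (G.sys K) (k + 1) t' ∧
      Rm (G.sys K) (V (G.sys K) k) t'.P t'.B t'.F ∧ s ≠ [] ∧ (∀ n ∈ s, B < n) ∧
      e (pl R (ac w B R)) ++ s ∈ nds t'.P ∧ t'.B = lastN (e (pl R (ac w B R)) ++ s) ∧
      (∃ π ∈ oR G e w B R B ∩ evQ G (fq G w B R) (e (pl R (!ac w B R)))
        (e (pl R (ac w B R)) ++ s) t'.B, π ∉ t'.F) ∧
      ∃ π ∈ oR G e w B R' B ∩ evQ G (fq G w B R') (e (pl R' (!sd')))
        (e (pl R (ac w B R)) ++ s) t'.B, π ∉ t'.F := by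
  obtain ⟨hR', hac, -, -, -, -⟩ := tc_active h.tc hR ho
  obtain ⟨-, hkap, h1, h2, hcl⟩ := h.data hR.1
  obtain ⟨-, hkap', h1', h2', -⟩ := h.data hR'
  have hobj := S3e_obj (G := G) (e := e) ho hac B
  obtain ⟨a, ha⟩ := h.tok _ hcl
  have hal := h.alive hR.1
  have hal' := h.alive hR'
  rw [hobj] at hal'
  obtain ⟨t', s, hE, -, hV, hs, hB, -, hn, hl, hRm, hp, hp'⟩ :=
    common (S := G.sys K) (t := ⟨Q, B, Fr⟩) h.wf h.win ha (h.lim _ _ ha)
      (lineQ K R (fq G w B R) (e (pl R (!ac w B R))) h1 h2)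
      (lineQ K R' (fq G w B R') (e (pl R' (!sd'))) h1' h2')
      (K := co (G.kp (w R) B)) hkD
      (by
        show (fq G w B R).kap = ci (co (G.kp (w R) B))
        rw [hkap]
        exact clf_ci G _ hkD)
      (by
        show (fq G w B R').kap = ci (co (G.kp (w R) B))
        rw [hkap', ← hk]
        exact clf_ci G _ hkD)
      (evtQ K R (fq G w B R) (e (pl R (!ac w B R))) h1 h2 (by rw [hkap]; exact hkD))
      (evtQ K R' (fq G w B R') (e (pl R' (!sd'))) h1' h2' (by rw [hkap', ← hk]; exact hkD)) hal hal'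
  refine ⟨t', s, hE, hV, hRm, hs, hB, hn, hl, hp, ?_⟩
  rw [hobj]
  exact hp'

/-- **Common finish, game part.** `finish`, as `Tri.ev`. -/
theorem Tri.evF (h : Tri G K (k + 1) B Q Fr e w t0) {R R' : Fin 3} {sd' : Bool}
    (hR : Mn G w B R) (ho : orr R (ac w B R) = (R', sd')) (hk : G.kp (w R) B = ci (G.D + 2)) :
    ∃ t' s, Ext ⟨Q, B, Fr⟩ t' ∧ V (G.sys K) (k + 1) t' ∧
      Rm (G.sys K) (V (G.sys K) k) t'.P t'.B t'.F ∧ s ≠ [] ∧ (∀ n ∈ s, B < n) ∧
      e (pl R (ac w B R)) ++ s ∈ nds t'.P ∧ t'.B = lastN (e (pl R (ac w B R)) ++ s) ∧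
      clf G.cls (e (pl R (ac w B R)) ++ s) = ci (G.D + 2) ∧
      (∃ π ∈ oR G e w B R B, π ∉ t'.F ∧ tr (side (ac w B R) π) t'.B = e (pl R (ac w B R)) ++ s ∧
        tr (side (!ac w B R) π) t'.B = e (pl R (!ac w B R))) ∧
      ∃ π ∈ oR G e w B R' B, π ∉ t'.F ∧ tr (side sd' π) t'.B = e (pl R (ac w B R)) ++ s ∧
        tr (side (!sd') π) t'.B = e (pl R' (!sd')) := by
  obtain ⟨hR', hac, hle, -, -, -⟩ := tc_active h.tc hR ho
  obtain ⟨hpar, hkap, h1, h2, hcl⟩ := h.data hR.1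
  obtain ⟨hpar', hkap', h1', h2', -⟩ := h.data hR'
  have hobj := S3e_obj (G := G) (e := e) ho hac B
  obtain ⟨a, ha⟩ := h.tok _ hcl
  have hal := h.alive hR.1
  have hal' := h.alive hR'
  rw [hobj] at hal'
  obtain ⟨t', s, hE, hW, hV, hs, hB, hn, hl, hRm, ⟨π, hπ, hπF⟩, π', hπ', hπF'⟩ :=
    finish (S := G.sys K) (t := ⟨Q, B, Fr⟩) h.wf h.win ha (h.lim _ _ ha)
      (lineQ K R (fq G w B R) (e (pl R (!ac w B R))) h1 h2)
      (lineQ K R' (fq G w B R') (e (pl R' (!sd'))) h1' h2')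
      (by
        show (fq G w B R).kap = ci (G.D + 2)
        rw [hkap, hk])
      (by
        show (fq G w B R').kap = ci (G.D + 2)
        rw [hkap'] at h2' ⊢
        rw [hk] at hle
        exact le_antisymm h2' hle) hal hal'
  have hnd : e (pl R (ac w B R)) ++ s ∈ nds t'.P := List.mem_map.2 ⟨_, hn, rfl⟩
  refine ⟨t', s, hE, hV, hRm, hs, hB, hnd, hl, hW.lf _ hn, ⟨π, hπ.1, hπF, ?_, ?_⟩, π', ?_, hπF', ?_, ?_⟩
  · have h3 := hπ.2.1
    change tr (side (fq G w B R).par π) t'.B = _ at h3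
    rwa [hpar] at h3
  · have h3 := hπ.2.2
    change tr (side (!(fq G w B R).par) π) t'.B = _ at h3
    rw [hpar] at h3
    exact h3
  · rw [hobj]
    exact hπ'.1
  · have h3 := hπ'.2.1
    change tr (side (fq G w B R').par π') t'.B = _ at h3
    rwa [hpar', hac] at h3
  · have h3 := hπ'.2.2
    change tr (side (!(fq G w B R').par) π') t'.B = _ at h3
    rw [hpar', hac] at h3
    exact h3

end MPb6M
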