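import Pool.Agent.Lib.MP_b6d339_lc.Mix.S2
import Pool.Agent.Lib.MP_b6d339_lc.Mix.Open5

open Ordinal

namespace MPb6M

open MPb6P (Valid Compat plr stL)

/-! # S3o: the common opening of a finite class: game part -/
variable {G : Gm} {K : KV G.d} {k B : ℕ} {Q : List Tok} {Fr : Set Pr} {e : Fin 3 → Nd}
  {w : Fin 3 → Pr} {t0 : G.td.T}

/-- `Use` for the classes of `G` -/
def UseG (G : Gm) (sd : Bool) (c1 : Nd) (B1 h : ℕ) (X : Set Cl) (π : Pr) : Prop :=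
  ∀ b, B1 ≤ b → BEs (side sd π) (side (!sd) π) b →
    clf G.cls ((tr (side sd π) b).drop c1.length) ∈ X ∨
      h < co (clf G.cls ((tr (side sd π) b).drop c1.length))

/-- **Common opening of a finite class, game part.** `open_step` for the lines `lineQ` of `R` and
`R'` at the node `e p`, `Tri.alive`, `Tri.tok`, `Tri.data`, `tc_active`. `Use` for `lineQ` is `UseG`. -/
theorem Tri.opF (h : Tri G K (k + 1) B Q Fr e w t0) {R R' : Fin 3} {sd' : Bool}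
    (hR : Mn G w B R) (ho : orr R (ac w B R) = (R', sd')) {f i : ℕ} (hf : G.d ≤ f)
    (hfD : f ≤ G.D) (hk : G.kp (w R) B = cf (f + 1) i) (hk' : G.kp (w R') B = cf (f + 1) i)
    (M : ℕ → ℕ → ℕ) :
    ∃ (t' : St) (s : List ℕ) (Λ : Finset ℕ) (r r' : ℕ), Ext ⟨Q, B, Fr⟩ t' ∧
      V (G.sys K) (k + 1) t' ∧ Rm (G.sys K) (V (G.sys K) k) t'.P t'.B t'.F ∧ s ≠ [] ∧
      (∀ n ∈ s, B < n) ∧ e (pl R (ac w B R)) ++ s ∈ nds t'.P ∧
      t'.B = lastN (e (pl R (ac w B R)) ++ s) ∧ clf G.cls s = cf (f + 1) i ∧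
      (f = G.d →
        (∃ π ∈ oR G e w B R B, π ∉ t'.F ∧ tr (side (ac w B R) π) t'.B = e (pl R (ac w B R)) ++ s ∧
          tr (side (!ac w B R) π) t'.B = e (pl R (!ac w B R)) ∧
          UseG G (ac w B R) (e (pl R (ac w B R)) ++ s) t'.B f {ci f} π) ∧
        ∃ π ∈ oR G e w B R' B, π ∉ t'.F ∧ tr (side sd' π) t'.B = e (pl R (ac w B R)) ++ s ∧
          tr (side (!sd') π) t'.B = e (pl R' (!sd')) ∧
          UseG G sd' (e (pl R (ac w B R)) ++ s) t'.B f {ci f} π) ∧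
      (G.d < f → M r r' ≤ Λ.card ∧
        (∀ J ⊆ Λ, J.card = r →
          ∃ π ∈ oR G e w B R B, π ∉ t'.F ∧
          tr (side (ac w B R) π) t'.B = e (pl R (ac w B R)) ++ s ∧
          tr (side (!ac w B R) π) t'.B = e (pl R (!ac w B R)) ∧
          UseG G (ac w B R) (e (pl R (ac w B R)) ++ s) t'.B f {x | ∃ l ∈ J, x = cf f l} π) ∧
        ∀ J ⊆ Λ, J.card = r' →
          ∃ π ∈ oR G e w B R' B, π ∉ t'.F ∧ tr (side sd' π) t'.B = e (pl R (ac w B R)) ++ s ∧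
          tr (side (!sd') π) t'.B = e (pl R' (!sd')) ∧
          UseG G sd' (e (pl R (ac w B R)) ++ s) t'.B f {x | ∃ l ∈ J, x = cf f l} π) := by
  obtain ⟨hP', hac', -, -, -, -⟩ := tc_active h.tc hR ho
  have hP := hR.1
  obtain ⟨a1, a2, a3, a4, a5⟩ := h.data hP
  obtain ⟨b1, b2, b3, b4, -⟩ := h.data hP'
  obtain ⟨a, ha⟩ := h.tok (pl R (ac w B R)) a5
  have hpl : pl R' sd' = pl R (ac w B R) := by
    have := (orr_pl R (ac w B R)).2.1
    rw [ho] at this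
    exact this
  have hal : ¬ V (G.sys K) (k + 1) ⟨Q, B, Fr ∪ (lineQ K R (fq G w B R)
      (e (pl R (!ac w B R))) a3 a4).Fo (e (pl R (ac w B R))) B⟩ := h.alive hP
  have hal' : ¬ V (G.sys K) (k + 1) ⟨Q, B, Fr ∪ (lineQ K R' (fq G w B R')
      (e (pl R' (!sd'))) b3 b4).Fo (e (pl R (ac w B R))) B⟩ := by
    have h1 := h.alive hP'
    unfold oR at h1
    rw [hac', hpl] at h1
    exact h1
  obtain ⟨t', s, Λ, r, r', h1, -, h3, h4, h5, h6, ⟨μ, h7⟩, h8, h9, h10, h11⟩ :=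
    open_step (S := G.sys K) (k := k) (t := ⟨Q, B, Fr⟩) h.wf h.win ha
      (lineQ K R (fq G w B R) (e (pl R (!ac w B R))) a3 a4)
      (lineQ K R' (fq G w B R') (e (pl R' (!sd'))) b3 b4) (h := f) (i := i) hf
      (le_trans G.hd hf) (Nat.lt_succ_of_le hfD) (a2.trans hk) (b2.trans hk') hal hal' M
  have el : ∀ X : Set Cl, (∃ π ∈ (lineQ K R (fq G w B R) (e (pl R (!ac w B R))) a3 a4).Fo
        (e (pl R (ac w B R))) B ∩ (lineQ K R (fq G w B R) (e (pl R (!ac w B R))) a3 a4).Thr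
        (e (pl R (ac w B R)) ++ s) t'.B, π ∉ t'.F ∧
      Use (G.sys K) (lineQ K R (fq G w B R) (e (pl R (!ac w B R))) a3 a4)
        (e (pl R (ac w B R)) ++ s) t'.B f X π) →
      ∃ π ∈ oR G e w B R B, π ∉ t'.F ∧
        tr (side (ac w B R) π) t'.B = e (pl R (ac w B R)) ++ s ∧
        tr (side (!ac w B R) π) t'.B = e (pl R (!ac w B R)) ∧
        UseG G (ac w B R) (e (pl R (ac w B R)) ++ s) t'.B f X π := by
    rintro X ⟨π, ⟨x1, x2, x3⟩, x4, x5⟩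
    have y2 : tr (side (fq G w B R).par π) t'.B = e (pl R (ac w B R)) ++ s := x2
    have y3 : tr (side (!(fq G w B R).par) π) t'.B = e (pl R (!ac w B R)) := x3
    have y5 : UseG G (fq G w B R).par (e (pl R (ac w B R)) ++ s) t'.B f X π := x5
    rw [a1] at y2 y3 y5
    exact ⟨π, x1, x4, y2, y3, y5⟩
  have el' : ∀ X : Set Cl, (∃ π ∈ (lineQ K R' (fq G w B R') (e (pl R' (!sd'))) b3 b4).Fo
        (e (pl R (ac w B R))) B ∩ (lineQ K R' (fq G w B R') (e (pl R' (!sd'))) b3 b4).Thr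
        (e (pl R (ac w B R)) ++ s) t'.B, π ∉ t'.F ∧
      Use (G.sys K) (lineQ K R' (fq G w B R') (e (pl R' (!sd'))) b3 b4)
        (e (pl R (ac w B R)) ++ s) t'.B f X π) →
      ∃ π ∈ oR G e w B R' B, π ∉ t'.F ∧
        tr (side sd' π) t'.B = e (pl R (ac w B R)) ++ s ∧
        tr (side (!sd') π) t'.B = e (pl R' (!sd')) ∧
        UseG G sd' (e (pl R (ac w B R)) ++ s) t'.B f X π := by
    rintro X ⟨π, ⟨x1, x2, x3⟩, x4, x5⟩
    have y2 : tr (side (fq G w B R').par π) t'.B = e (pl R (ac w B R)) ++ s := x2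
    have y3 : tr (side (!(fq G w B R').par) π) t'.B = e (pl R' (!sd')) := x3
    have y5 : UseG G (fq G w B R').par (e (pl R (ac w B R)) ++ s) t'.B f X π := x5
    rw [b1, hac'] at y2 y3 y5
    refine ⟨π, ?_, x4, y2, y3, y5⟩
    unfold oR
    rw [hac', hpl]
    exact x1
  refine ⟨t', s, Λ, r, r', h1, h3, h9, h4, h5, List.mem_map.2 ⟨_, h7, rfl⟩, h8, h6, ?_, ?_⟩
  · intro hfd
    obtain ⟨x1, x2⟩ := h10 hfd
    exact ⟨el _ x1, el' _ x2⟩
  · intro hfd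
    obtain ⟨x1, x2, x3⟩ := h11 hfd
    exact ⟨x1, fun J hJ hJc => el _ (x2 J hJ hJc), fun J hJ hJc => el' _ (x3 J hJ hJc)⟩

end MPb6M
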