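import Pool.Agent.Lib.MP_b6d339_lc.Mix.S2

open Ordinal

namespace MPb6M

open MPb6P (Valid Compat plr stL)

/-! # S4: elements of the common events -/
variable {G : Gm} {K : KV G.d} {k B : ℕ} {Q : List Tok} {Fr : Set Pr} {e : Fin 3 → Nd}
  {w : Fin 3 → Pr} {t0 : G.td.T}

/-- elements of `evQ` (`kap = 1`): the next event is executed (`ev_idx`) -/
theorem evQ_one {R : Fin 3} {q : Ft G.td.T} {wn c c' : Nd} {B' : ℕ} {π : Pr} (hk : q.kap = ci 1)
    (h : π ∈ G.lf R q wn c B ∩ evQ G q wn c' B') (hB : B < B') :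
    pt π (nx π B) = B' ∧ tr (side q.par π) B' = c' ∧ tr (side (!q.par) π) B' = wn := by
  obtain ⟨h1, h2⟩ := h
  unfold evQ at h2
  rw [if_pos hk] at h2
  exact ⟨ev_idx h1 h2 hB, h2.2.2.2.1, h2.2.2.2.2⟩

/-- elements of `evQ` (`kap = ci j`, `j ≥ 2`): the waiting side has not moved, so `nx π B'` is `nx π B` or
`nx π B + 1`, and the parity decides (`pt_mem`, `lt_nx`, `lt_pt`) -/
theorem evQ_big {R : Fin 3} {q : Ft G.td.T} {wn c c' : Nd} {B' : ℕ} {π : Pr} {j : ℕ}
    (hj : 2 ≤ j) (hk : q.kap = ci j)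
    (h : π ∈ G.lf R q wn c B ∩ evQ G q wn c' B') (hB : B < B') :
    nx π B' = nx π B ∧ B' < pt π (nx π B) ∧ co (G.kp π B') = j - 1 ∧ tr (side q.par π) B' = c' ∧
      tr (side (!q.par) π) B' = wn := by
  obtain ⟨h1, h2⟩ := h
  unfold evQ at h2
  have hne : q.kap ≠ ci 1 := by
    rw [hk]
    intro h5
    have h6 : j = 1 := congrArg co h5
    omega
  have hco : co q.kap = j := congrArg co hk
  rw [if_neg hne, hco] at h2
  obtain ⟨-, -, hL', hsd, hkp, hc', hw'⟩ := h2
  have hp := lf_play h1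
  have hq := (lf_q h1).1
  have hw := h1.2.2.2.2.2
  have hinc : (side (!q.par) π).Pairwise (· < ·) := by
    unfold side
    split_ifs
    · exact (lf_inc h1).1
    · exact (lf_inc h1).2
  have hmono := nx_mono (π := π) hB.le
  have hnx : nx π B' = nx π B := by
    by_contra hne
    have hlt : nx π B < nx π B' := by omega
    have hpar : sdI (nx π B') = sdI (nx π B) := by rw [hsd, hq]
    rw [sdI_eq] at hpar
    have h3 := (lt_nx hp (i := nx π B + 1) (B := B')).1 (by omega)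
    have h4 : pt π (nx π B + 1) ∈ side (!q.par) π := by
      rw [hq, ← sdI_succ]
      exact pt_mem hp h3.1
    have h5 : pt π (nx π B + 1) ∈ tr (side (!q.par) π) B' := (mem_tr hinc).2 ⟨h4, h3.2⟩
    rw [hw', ← hw] at h5
    have h6 := tr_le h5
    have h7 := lt_pt hp (B := B) (i := nx π B + 1) (by omega) h3.1
    omega
  refine ⟨hnx, ?_, hkp, hc', hw'⟩
  have := lt_pt hp (B := B') le_rfl hL'
  rwa [hnx] at this

/-- mixed with `kap = 1`: equal labels (all later events have class `≥ 1` by `kl_pos`) -/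
theorem eq_of_mx_one (h : TC G B e w t0) {R R' : Fin 3} {sd' : Bool} (hR : Mn G w B R)
    (ho : orr R (ac w B R) = (R', sd')) (hm : Mx G w B R R') (hk : G.kp (w R) B = ci 1) :
    G.nl (w R') R' B = G.nl (w R) R B := by
  obtain ⟨hPd', -⟩ := tc_active h hR ho
  have h1 := hR.2 R' hPd'
  have hd := G.hd
  obtain ⟨-, hm2⟩ := hm
  rw [hk] at hm2
  rcases hm2 with h3 | ⟨p, ⟨i, hi1, hi2, hi3, rfl⟩, hp1, hp2⟩
  · have h3' : G.d < 1 := h3
    omega
  have him : i = nx (w R) B := by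
    by_contra hne
    have hP := play_spec (h.all R) (h.rs R)
    have h2 := kl_pos (h.all R) (h.rs R) hi2 (hP.lt _ _ (show nx (w R) B < i by omega) hi2)
    rw [hi3] at h2
    have h4 := co_mono (G6_one h2)
    have h5 : co (kl G.cls (side (sdI (nx (w R) B)) (w R)) (pt (w R) (nx (w R) B))
      (pt (w R) i)) < 1 := hp1
    have h6 : 1 ≤ co (kl G.cls (side (sdI (nx (w R) B)) (w R)) (pt (w R) (nx (w R) B))
      (pt (w R) i)) := h4
    omega
  subst him
  exact le_antisymm hp2 h1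

end MPb6M
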