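import Pool.Agent.Lib.MP_b6d339_lc.Mix.S3o
import Pool.Agent.Lib.MP_b6d339_lc.Mix.C4f
import Pool.Agent.Lib.MP_b6d339_lc.Mix.Place

open Ordinal

namespace MPb6M

open MPb6P (Valid Compat plr stL)

/-! # S4o: the elements of the opening of a finite class -/
variable {G : Gm}

/-- `pt π i` is a block end of the side `sdI i` -/
private theorem S4o_bes {π : Pr} (h : Play π.1 π.2 (pL π) (pt π)) {i : ℕ} (hi : i < pL π) :
    BEs (side (sdI i) π) (side (!sdI i) π) (pt π i) := by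
  refine ⟨h.mem i hi, ?_⟩
  rcases Nat.lt_or_ge (i + 1) (pL π) with h1 | h1
  · right
    refine ⟨pt π (i + 1), ?_, h.lt _ _ (Nat.lt_succ_self i) h1, ?_⟩
    · rw [← sdI_succ]
      exact h.mem _ h1
    · intro n hn hn'
      by_contra hcon
      have := h.blk i h1 n hn (by omega)
      omega
  · left
    intro n hn
    have h2 : i = pL π - 1 := by omega
    have h3 : n ∈ π.1 ∨ n ∈ π.2 := by
      unfold side at hn
      split_ifs at hn
      · exact Or.inl hn
      · exact Or.inr hn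
    have h4 := h.top n h3
    rw [← h2] at h4
    exact h4

private theorem S4o_inc {π : Pr} (h : π ∈ G.All) (sd : Bool) : (side sd π).Pairwise (· < ·) := by
  cases sd with
  | true => exact h.1.inc
  | false => exact h.2.1.inc

/-- the class of the numbers after the node `c` -/
private theorem S4o_drop {x : List ℕ} (hx : x.Pairwise (· < ·)) {cls : ℕ → Cl} {B' b : ℕ} {c : Nd}
    (hb : B' ≤ b) (h : tr x B' = c) : kl cls x B' b = clf cls ((tr x b).drop c.length) := by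
  obtain ⟨s, h1, h2, -⟩ := tr_later hb hx
  rw [h] at h1
  have h3 : (tr x b).drop c.length = s := by
    rw [h1]
    exact List.drop_left
  rw [h3]
  apply kl_tr hx h1
  · intro n hn
    rw [← h] at hn
    exact tr_le hn
  · exact fun n hn => (h2 n hn).1

/-- The data of an element of the opening: the next event of the pair `π` is not executed at `c ++ s`
(otherwise `B'` is a block end, and `UseG` for `b = B'` says `ci 0 ∈ X` or `f < 0`), all later events of
the side `sd` have a class in `X` or a coarse class above `f` (the events are block ends: `BEs`). -/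
theorem el_data {R : Fin 3} {q : Ft G.td.T} {sd : Bool} {wn c : Nd} {B B' f : ℕ} {s : List ℕ}
    {X : Set Cl} {π : Pr} (hπ : π ∈ G.lf R q wn c B) (hq : q.par = sd) (hX : ci 0 ∉ X)
    (hs : s ≠ []) (hB : ∀ n ∈ s, B < n) (hl : B' = lastN (c ++ s))
    (h1 : tr (side sd π) B' = c ++ s) (h2 : tr (side (!sd) π) B' = wn)
    (hu : UseG G sd (c ++ s) B' f X π) :
    B < B' ∧ kl G.cls (side sd π) B B' = clf G.cls s ∧ nx π B' = nx π B ∧
      B' < pt π (nx π B) ∧ ∀ a ∈ G.gs π R sd B', a.1 ∈ X ∨ f < co a.1 := by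
  have hp := lf_play hπ
  obtain ⟨e1, e2, -, -, -⟩ := lf_pos hπ
  obtain ⟨hall, hrs, hL, -, -, -⟩ := id hπ
  obtain ⟨hpar, -, -⟩ := lf_q hπ
  have hinc := S4o_inc hall sd
  have hinc' := S4o_inc hall (!sd)
  subst hq
  have hmem : B' ∈ s := by
    rw [hl]
    exact lastN_mem hs
  have hBB : B < B' := hB _ hmem
  have hkl : kl G.cls (side q.par π) B B' = clf G.cls s := by
    apply kl_tr hinc h1
    · intro n hn
      rw [← e1] at hn
      exact tr_le hn
    · exact hB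
  have hB'm : B' ∈ side q.par π := by
    have : B' ∈ tr (side q.par π) B' := by
      rw [h1]
      exact List.mem_append_right _ hmem
    exact ((mem_tr hinc).1 this).1
  -- the waiting side has no new number
  have hwait : ∀ n ∈ side (!q.par) π, n ≤ B' → n ≤ B := by
    intro n hn hnB
    have h3 : n ∈ tr (side (!q.par) π) B' := (mem_tr hinc').2 ⟨hn, hnB⟩
    rw [h2, ← e2] at h3
    exact tr_le h3
  -- the next event is not executed
  have hnext : B' < pt π (nx π B) := by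
    have hle : B' ≤ pt π (nx π B) := by
      apply act_block hp hL (B' := B')
      · rw [← hpar]
        exact hwait
      · rw [← hpar]
        exact hB'm
      · exact le_refl _
    rcases lt_or_eq_of_le hle with h3 | h3
    · exact h3
    · exfalso
      have h4 := S4o_bes hp hL
      rw [← hpar, ← h3] at h4
      have h5 := hu B' (le_refl _) h4
      rw [h1, List.drop_length] at h5
      rcases h5 with h5 | h5
      · exact hX h5
      · exact absurd h5 (by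
          show ¬ f < 0
          omega)
  have hnx : nx π B' = nx π B := by
    apply nx_eq hp
    · intro i hi
      exact (((lt_nx hp).1 hi).2).trans hBB.le
    · exact hL.le
    · exact fun _ => hnext
  refine ⟨hBB, hkl, hnx, hnext, ?_⟩
  rintro a ⟨i, i1, i2, i3, rfl⟩
  have h3 : B' < pt π i := lt_pt hp i1 i2
  have h4 := S4o_bes hp i2
  rw [i3] at h4
  have h5 := hu (pt π i) h3.le h4
  rw [← S4o_drop hinc h3.le h1] at h5
  exact h5

/-- **Placement of the elements** (`place` with `U u := ∃ π ∈ X, usg G π R sd f B' = u`,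
`usg_mono`, `usg_meet`) -/
theorem place_fin {R R' : Fin 3} (hne : R ≠ R') {sd sd' : Bool} (hp : pl R sd = pl R' sd') {f : ℕ}
    (hf : G.d < f) (hfD : f ≤ G.D) (r r' : ℕ) :
    ∃ N0 : ℕ, ∀ Λ : Finset ℕ, N0 ≤ Λ.card → ∀ (t0 : G.td.T) (B' : ℕ) (X X' : Set Pr),
      (∀ π ∈ X, π ∈ G.All ∧ RS π ∧ G.td.tmpl (G.wd π) = t0) →
      (∀ π ∈ X', π ∈ G.All ∧ RS π ∧ G.td.tmpl (G.wd π) = t0) →
      (∀ J ⊆ Λ, J.card = r → ∃ π ∈ X, ∀ a ∈ G.gs π R sd B',
        a.1 ∈ {x | ∃ l ∈ J, x = cf f l} ∨ f < co a.1) →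
      (∀ J ⊆ Λ, J.card = r' → ∃ π ∈ X', ∀ a ∈ G.gs π R' sd' B',
        a.1 ∈ {x | ∃ l ∈ J, x = cf f l} ∨ f < co a.1) →
      (∀ π ∈ X, ∀ a ∈ G.gs π R sd B', f ≤ co a.1) → (∀ π ∈ X', ∀ a ∈ G.gs π R' sd' B', f ≤ co a.1) →
      ∃ π ∈ X, ∃ π' ∈ X', ∀ a ∈ G.gs π R sd B', ∀ b ∈ G.gs π' R' sd' B', co a.1 ≤ f → co b.1 ≤ f →
        (a.1 < b.1 → a.2 < b.2) ∧ (b.1 < a.1 → b.2 < a.2) := by
  obtain ⟨N0, hN0⟩ := place G.td.M r r'
  refine ⟨N0, fun Λ hΛ t0 B' X X' hX hX' hJ hJ' hfX hfX' => ?_⟩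
  have hcp : ∀ n, ci 0 < G.cls n := G.cls_pos
  -- the levels of the items
  have lev : ∀ (π : Pr), π ∈ G.All → RS π → ∀ (Y : Fin 3) (s : Bool), ∀ a ∈ G.gs π Y s B',
      co a.1 = f → ∃ v, a.1 = cf f v := by
    rintro π ha hr Y s a ⟨i, i1, i2, i3, rfl⟩ hc
    have h1 : B' < pt π i := lt_pt (play_spec ha hr) i1 i2
    have h2 : pt π i ∈ side s π := by
      rw [← i3]
      exact pt_mem (play_spec ha hr) i2
    obtain ⟨n, -, -, -, h3⟩ := kl_mem (cls := G.cls) hcp h2 h1 (le_refl _)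
    have hc' : co (G.cls n) = f := by rw [← h3]; exact hc
    rcases G.cls_ok n with ⟨j, j1, j2, j3⟩ | ⟨g, v, g1, g2, g3⟩ | h4
    · rw [j3, co_ci] at hc'
      omega
    · rw [g3, co_cf] at hc'
      subst hc'
      exact ⟨v, by show kl G.cls (side s π) B' (pt π i) = _; rw [h3, g3]⟩
    · rw [h4, co_ci] at hc'
      omega
  -- the condition for the sets of levels
  have cond : ∀ (Z : Set Pr) (Y : Fin 3) (s : Bool) (J : Finset ℕ),
      (∃ π ∈ Z, ∀ a ∈ G.gs π Y s B', a.1 ∈ {x | ∃ l ∈ J, x = cf f l} ∨ f < co a.1) →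
      ∃ u, (∃ π ∈ Z, usg G π Y s f B' = u) ∧ (∀ v, (u v).Nonempty → v ∈ J) ∧
        ∀ v, ∀ l ∈ u v, l ≤ G.td.M := by
    rintro Z Y s J ⟨π, hπ, h⟩
    refine ⟨usg G π Y s f B', ⟨π, hπ, rfl⟩, ?_, ?_⟩
    · rintro v ⟨l, hl⟩
      rw [mem_usg] at hl
      rcases h _ hl with ⟨l', hl', h2⟩ | h2
      · have := (cf_inj h2).2
        rw [this]
        exact hl'
      · rw [co_cf] at h2
        exact absurd h2 (lt_irrefl _)
    · intro v l hl
      rw [mem_usg] at hl
      obtain ⟨i, -, -, -, hi⟩ := hl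
      rw [Prod.mk.injEq] at hi
      rw [hi.2]
      exact (lb_bd (G := G) π Y i).2
  obtain ⟨u, u', ⟨π, hπ, rfl⟩, ⟨π', hπ', rfl⟩, c1, c2⟩ := hN0 Λ hΛ
    (fun u => ∃ π ∈ X, usg G π R sd f B' = u) (fun u => ∃ π ∈ X', usg G π R' sd' f B' = u)
    (fun J h1 h2 => cond X R sd J (hJ J h1 h2)) (fun J h1 h2 => cond X' R' sd' J (hJ' J h1 h2))
    (by
      rintro u ⟨π, hπ, rfl⟩ v w hw
      exact usg_mono (hX π hπ).1 (hX π hπ).2.1 R sd f hw)
    (by
      rintro u ⟨π, hπ, rfl⟩ v w hw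
      exact usg_mono (hX' π hπ).1 (hX' π hπ).2.1 R' sd' f hw)
    (by
      rintro u u' ⟨π, hπ, rfl⟩ ⟨π', hπ', rfl⟩ v hv v' w' hw hv' hw' hc
      exact usg_meet (hX π hπ).1 (hX π hπ).2.1 (hX' π' hπ').1 (hX' π' hπ').2.1
        ((hX π hπ).2.2.trans (hX' π' hπ').2.2.symm) hne hp hf hfD hv hw hv' hw' hc)
    (by
      rintro u u' ⟨π, hπ, rfl⟩ ⟨π', hπ', rfl⟩ v hv v' w' hw hv' hw' hc
      exact usg_meet (hX' π' hπ').1 (hX' π' hπ').2.1 (hX π hπ).1 (hX π hπ).2.1
        ((hX' π' hπ').2.2.trans (hX π hπ).2.2.symm) hne.symm hp.symm hf hfD hv hw hv' hw' hc)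
  refine ⟨π, hπ, π', hπ', ?_⟩
  intro a ha b hb ha2 hb2
  obtain ⟨v, hv⟩ := lev π (hX π hπ).1 (hX π hπ).2.1 R sd a ha (le_antisymm ha2 (hfX π hπ a ha))
  obtain ⟨v', hv'⟩ := lev π' (hX' π' hπ').1 (hX' π' hπ').2.1 R' sd' b hb
    (le_antisymm hb2 (hfX' π' hπ' b hb))
  have m1 : a.2 ∈ usg G π R sd f B' v := by
    rw [mem_usg, ← hv]
    exact ha
  have m2 : b.2 ∈ usg G π' R' sd' f B' v' := by
    rw [mem_usg, ← hv']
    exact hb
  constructor
  · intro hab
    rw [hv, hv', cf_lt] at hab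
    exact c1 v v' hab _ m1 _ m2
  · intro hab
    rw [hv, hv', cf_lt] at hab
    exact c2 v' v hab _ m2 _ m1

end MPb6M
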