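import Pool.Agent.Lib.MP_b6d339_lc.Mix.S3
import Pool.Agent.Lib.MP_b6d339_lc.Mix.S3e
import Pool.Agent.Lib.MP_b6d339_lc.Mix.S4
import Pool.Agent.Lib.MP_b6d339_lc.Mix.S4o

open Ordinal

namespace MPb6M

open MPb6P (Valid Compat plr stL)

/-! # S4s: common stop, common finish, common opening -/
variable {G : Gm} {K : KV G.d} {k B : ℕ} {Q : List Tok} {Fr : Set Pr} {e : Fin 3 → Nd}
  {w : Fin 3 → Pr} {t0 : G.td.T}

/-- **Common stop**: `Tri.ev`, `evQ_one`, `Tri.build`, `tc_exec` -/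
theorem Tri.stop (h : Tri G K (k + 1) B Q Fr e w t0) {R R' : Fin 3} {sd' : Bool}
    (hR : Mn G w B R) (ho : orr R (ac w B R) = (R', sd')) (hm : Mx G w B R R')
    (hk : G.kp (w R) B = ci 1) :
    ∃ B' Q' Fr' e' w', Tri G K k B' Q' Fr' e' w' t0 ∧
      ∀ X, Pd w' B' X → G.nl (w R) R B < G.nl (w' X) X B' := by
  obtain ⟨hPd', hac', -, -, -, -⟩ := tc_active h.tc hR ho
  have hPd : Pd w B R := hR.1
  have hd := G.hd
  obtain ⟨t', s, hE, hV, hRm, hs, hB, hc, hl, ⟨π, hπ, hπF⟩, ⟨π', hπ', hπF'⟩⟩ :=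
    Tri.ev h hR ho hm.1 (by rw [hk]; exact hd)
  have hlt : B < t'.B := by
    rw [hl]
    exact hB _ (lastN_mem hs)
  obtain ⟨d1, d2, -, -, -⟩ := h.data hPd
  obtain ⟨d1', d2', -, -, -⟩ := h.data hPd'
  rw [hac'] at d1'
  obtain ⟨x1, x2, x3⟩ := evQ_one (d2.trans hk) hπ hlt
  have hmem' : π' ∈ G.lf R' (fq G w B R') (e (pl R' (!sd'))) (e (pl R' (ac w B R'))) B := by
    have := hπ'.1
    unfold oR at this
    rw [hac'] at this
    rw [hac']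
    exact this
  obtain ⟨y1, y2, y3⟩ := evQ_one (d2'.trans (hm.1.symm.trans hk)) ⟨hmem', hπ'.2⟩ hlt
  rw [d1] at x2 x3
  rw [d1'] at y2 y3
  obtain ⟨e', w', hCS, hw1, hw2, hfin⟩ := h.build hR ho hE hV hRm hs hB hc hl hπ.1 hπF x2 x3 hπ'.1
    hπF' y2 y3
  obtain ⟨htc, hX⟩ := tc_exec hCS (eq_of_mx_one h.tc hR ho hm hk) (Or.inl hk)
    (by rw [hw1]; exact x1) (by rw [hw2]; exact y1)
  obtain ⟨Q', Fr', hT⟩ := hfin htc
  exact ⟨t'.B, Q', Fr', e', w', hT, hX⟩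

/-- **Common finish**: `Tri.evF`, `ev_leaf`, `Tri.build`, `tc_exec` -/
theorem Tri.fin (h : Tri G K (k + 1) B Q Fr e w t0) {R R' : Fin 3} {sd' : Bool}
    (hR : Mn G w B R) (ho : orr R (ac w B R) = (R', sd')) (hk : G.kp (w R) B = ci (G.D + 2)) :
    ∃ B' Q' Fr' e' w', Tri G K k B' Q' Fr' e' w' t0 ∧
      ∀ X, Pd w' B' X → G.nl (w R) R B < G.nl (w' X) X B' := by
  obtain ⟨hPd', hac', -, hnl, -, -⟩ := tc_active h.tc hR ho
  have hPd : Pd w B R := hR.1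
  obtain ⟨t', s, hE, hV, hRm, hs, hB, hc, hl, hleaf, ⟨π, hπ, hπF, x2, x3⟩,
    ⟨π', hπ', hπF', y2, y3⟩⟩ := Tri.evF h hR ho hk
  have hlt : B < t'.B := by
    rw [hl]
    exact hB _ (lastN_mem hs)
  have hin : t'.B ∈ e (pl R (ac w B R)) ++ s := by
    rw [hl]
    exact List.mem_append_right _ (lastN_mem hs)
  obtain ⟨d1, -, -, -, -⟩ := h.data hPd
  obtain ⟨d1', -, -, -, -⟩ := h.data hPd'
  rw [hac'] at d1'
  have hπ2 : π' ∈ G.lf R' (fq G w B R') (e (pl R' (!sd'))) (e (pl R' (ac w B R'))) B := by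
    have := hπ'
    unfold oR at this
    rw [hac'] at this
    rw [hac']
    exact this
  have x1 : pt π (nx π B) = t'.B := by
    refine (ev_leaf hπ ?_ hleaf ?_ hlt hin).1
    · rw [d1]
      exact x2
    · rw [d1]
      exact x3
  have y1 : pt π' (nx π' B) = t'.B := by
    refine (ev_leaf hπ2 ?_ hleaf ?_ hlt hin).1
    · rw [d1']
      exact y2
    · rw [d1']
      exact y3
  obtain ⟨e', w', hCS, hw1, hw2, hfin⟩ := h.build hR ho hE hV hRm hs hB hc hl hπ hπF x2 x3 hπ'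
    hπF' y2 y3
  obtain ⟨htc, hX⟩ := tc_exec hCS (hnl hk) (Or.inr hk) (by rw [hw1]; exact x1)
    (by rw [hw2]; exact y1)
  obtain ⟨Q', Fr', hT⟩ := hfin htc
  exact ⟨t'.B, Q', Fr', e', w', hT, hX⟩

/-- **Common opening**: `Tri.ev`, `evQ_big`, `Tri.build`, `tc_open` -/
theorem Tri.opn (h : Tri G K (k + 1) B Q Fr e w t0) {R R' : Fin 3} {sd' : Bool}
    (hR : Mn G w B R) (ho : orr R (ac w B R) = (R', sd')) (hm : Mx G w B R R')
    {j : ℕ} (hj : 2 ≤ j) (hjd : j ≤ G.d) (hk : G.kp (w R) B = ci j) :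
    ∃ B' Q' Fr' e' w', Tri G K k B' Q' Fr' e' w' t0 ∧ Mn G w' B' R ∧
      G.nl (w' R) R B' = G.nl (w R) R B ∧
      Jt G w' B' (G.nl (w R) R B) < Jt G w B (G.nl (w R) R B) := by
  obtain ⟨hPd', hac', -, -, -, -⟩ := tc_active h.tc hR ho
  have hPd : Pd w B R := hR.1
  obtain ⟨t', s, hE, hV, hRm, hs, hB, hc, hl, ⟨π, hπ, hπF⟩, ⟨π', hπ', hπF'⟩⟩ :=
    Tri.ev h hR ho hm.1 (by rw [hk]; exact hjd)
  have hlt : B < t'.B := by
    rw [hl]
    exact hB _ (lastN_mem hs)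
  obtain ⟨d1, d2, -, -, -⟩ := h.data hPd
  obtain ⟨d1', d2', -, -, -⟩ := h.data hPd'
  rw [hac'] at d1'
  obtain ⟨-, x1, x4, x2, x3⟩ := evQ_big hj (d2.trans hk) hπ hlt
  have hmem' : π' ∈ G.lf R' (fq G w B R') (e (pl R' (!sd'))) (e (pl R' (ac w B R'))) B := by
    have := hπ'.1
    unfold oR at this
    rw [hac'] at this
    rw [hac']
    exact this
  obtain ⟨-, y1, y4, y2, y3⟩ := evQ_big hj (d2'.trans (hm.1.symm.trans hk)) ⟨hmem', hπ'.2⟩ hlt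
  rw [d1] at x2 x3
  rw [d1'] at y2 y3
  obtain ⟨e', w', hCS, hw1, hw2, hfin⟩ := h.build hR ho hE hV hRm hs hB hc hl hπ.1 hπF x2 x3 hπ'.1
    hπF' y2 y3
  obtain ⟨htc, hP, hN, hJ⟩ := tc_open hCS hm hj hjd hk (by rw [hw1]; exact x1)
    (by rw [hw1]; exact x4) (by rw [hw2]; exact y1) (by rw [hw2]; exact y4)
  obtain ⟨Q', Fr', hT⟩ := hfin htc
  refine ⟨t'.B, Q', Fr', e', w', hT, ⟨(hP R).2 hPd, fun X hX => ?_⟩, hN R hPd, hJ⟩
  have hX2 := (hP X).1 hX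
  rw [hN R hPd, hN X hX2]
  exact hR.2 X hX2

/-- **Common opening of a finite class** (`f = D + 1`: the exit): `Tri.opF` with `M := N0` of
`place_fin`, `el_data`, `Tri.build`, `tc_open_fin` (`f - 1` for the class `f` of `Tri.opF`) -/
theorem Tri.opnF (h : Tri G K (k + 1) B Q Fr e w t0) {R R' : Fin 3} {sd' : Bool}
    (hR : Mn G w B R) (ho : orr R (ac w B R) = (R', sd')) {f i : ℕ} (hf : G.d < f)
    (hfD : f ≤ G.D + 1) (hk : G.kp (w R) B = cf f i) (hk' : G.kp (w R') B = cf f i) :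
    ∃ B' Q' Fr' e' w', Tri G K k B' Q' Fr' e' w' t0 ∧ Mn G w' B' R ∧
      G.nl (w' R) R B' = G.nl (w R) R B ∧
      Jt G w' B' (G.nl (w R) R B) < Jt G w B (G.nl (w R) R B) := by
  classical
  obtain ⟨g, rfl⟩ : ∃ g, f = g + 1 := ⟨f - 1, by omega⟩
  have hd := G.hd
  obtain ⟨hPd', hac', -, -, -, -⟩ := tc_active h.tc hR ho
  have hPd : Pd w B R := hR.1
  obtain ⟨hne, hpl⟩ := orr_iff.1 ho.symm
  -- the numbers of levels
  obtain ⟨M, hM⟩ : ∃ M : ℕ → ℕ → ℕ, ∀ (hg : G.d < g) (hgD : g ≤ G.D) (r r' : ℕ), ∀ Λ : Finset ℕ,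
      M r r' ≤ Λ.card → ∀ (t0 : G.td.T) (B' : ℕ) (X X' : Set Pr),
      (∀ π ∈ X, π ∈ G.All ∧ RS π ∧ G.td.tmpl (G.wd π) = t0) →
      (∀ π ∈ X', π ∈ G.All ∧ RS π ∧ G.td.tmpl (G.wd π) = t0) →
      (∀ J ⊆ Λ, J.card = r → ∃ π ∈ X, ∀ a ∈ G.gs π R (ac w B R) B',
        a.1 ∈ {x | ∃ l ∈ J, x = cf g l} ∨ g < co a.1) →
      (∀ J ⊆ Λ, J.card = r' → ∃ π ∈ X', ∀ a ∈ G.gs π R' sd' B',
        a.1 ∈ {x | ∃ l ∈ J, x = cf g l} ∨ g < co a.1) →
      (∀ π ∈ X, ∀ a ∈ G.gs π R (ac w B R) B', g ≤ co a.1) →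
      (∀ π ∈ X', ∀ a ∈ G.gs π R' sd' B', g ≤ co a.1) →
      ∃ π ∈ X, ∃ π' ∈ X', ∀ a ∈ G.gs π R (ac w B R) B', ∀ b ∈ G.gs π' R' sd' B',
        co a.1 ≤ g → co b.1 ≤ g → (a.1 < b.1 → a.2 < b.2) ∧ (b.1 < a.1 → b.2 < a.2) := by
    by_cases hg : G.d < g ∧ g ≤ G.D
    · choose M hM using fun r r' => place_fin (G := G) (R := R) (R' := R') (Ne.symm hne)
        (sd := ac w B R) (sd' := sd') hpl.symm hg.1 hg.2 r r'
      exact ⟨M, fun _ _ r r' => hM r r'⟩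
    · exact ⟨fun _ _ => 0, fun h1 h2 => absurd ⟨h1, h2⟩ hg⟩
  obtain ⟨t', s, Λ, r, r', hE, hV, hRm, hs, hB, hc, hl, hcl, hinf, hfi⟩ :=
    Tri.opF h hR ho (f := g) (i := i) (by omega) (by omega) hk hk' M
  have hlt : B < t'.B := by
    rw [hl]
    exact hB _ (lastN_mem hs)
  obtain ⟨d1, d2, -, -, -⟩ := h.data hPd
  obtain ⟨d1', d2', -, -, -⟩ := h.data hPd'
  rw [hac'] at d1'
  have hcb : e (pl R' sd') = e (pl R (ac w B R)) := by rw [hpl]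
  have hmem' : ∀ π' ∈ oR G e w B R' B,
      π' ∈ G.lf R' (fq G w B R') (e (pl R' (!sd'))) (e (pl R (ac w B R))) B := by
    intro π' hπ'
    have := hπ'
    unfold oR at this
    rw [hac', hcb] at this
    exact this
  -- the two elements
  obtain ⟨π, hπ, hπF, x2, x3, π', hπ', hπF', y2, y3, xk, x1, yk, y1, hplace⟩ :
      ∃ π ∈ oR G e w B R B, π ∉ t'.F ∧
        tr (side (ac w B R) π) t'.B = e (pl R (ac w B R)) ++ s ∧
        tr (side (!ac w B R) π) t'.B = e (pl R (!ac w B R)) ∧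
      ∃ π' ∈ oR G e w B R' B, π' ∉ t'.F ∧ tr (side sd' π') t'.B = e (pl R (ac w B R)) ++ s ∧
        tr (side (!sd') π') t'.B = e (pl R' (!sd')) ∧
        kl G.cls (side (ac w B R) π) B t'.B = clf G.cls s ∧ t'.B < pt π (nx π B) ∧
        kl G.cls (side sd' π') B t'.B = clf G.cls s ∧ t'.B < pt π' (nx π' B) ∧
        ∀ a ∈ G.gs π R (ac w B R) t'.B, ∀ b ∈ G.gs π' R' sd' t'.B, co a.1 ≤ g → co b.1 ≤ g →
          (a.1 < b.1 → a.2 < b.2) ∧ (b.1 < a.1 → b.2 < a.2) := by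
    rcases Nat.lt_or_ge G.d g with hgd | hgd
    · obtain ⟨hΛ, hJ, hJ'⟩ := hfi hgd
      have hX0 : ∀ J : Finset ℕ, ci 0 ∉ {x : Cl | ∃ l ∈ J, x = cf g l} := by
        rintro J ⟨l, -, hl⟩
        have : (0 : ℕ) = g := congrArg co hl
        omega
      obtain ⟨X, hX⟩ : ∃ X : Set Pr, X = {π | π ∈ oR G e w B R B ∧ π ∉ t'.F ∧
          tr (side (ac w B R) π) t'.B = e (pl R (ac w B R)) ++ s ∧
          tr (side (!ac w B R) π) t'.B = e (pl R (!ac w B R)) ∧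
          ∃ J : Finset ℕ, UseG G (ac w B R) (e (pl R (ac w B R)) ++ s) t'.B g
            {x | ∃ l ∈ J, x = cf g l} π} := ⟨_, rfl⟩
      obtain ⟨X', hX'⟩ : ∃ X : Set Pr, X = {π | π ∈ oR G e w B R' B ∧ π ∉ t'.F ∧
          tr (side sd' π) t'.B = e (pl R (ac w B R)) ++ s ∧
          tr (side (!sd') π) t'.B = e (pl R' (!sd')) ∧
          ∃ J : Finset ℕ, UseG G sd' (e (pl R (ac w B R)) ++ s) t'.B g
            {x | ∃ l ∈ J, x = cf g l} π} := ⟨_, rfl⟩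
      have p1 : ∀ π ∈ X, π ∈ G.All ∧ RS π ∧ G.td.tmpl (G.wd π) = t0 := by
        intro π hπ
        rw [hX] at hπ
        obtain ⟨h1, -⟩ := hπ
        refine ⟨h1.1, h1.2.1, ?_⟩
        have h2 : G.feat R π B = fq G w B R := h1.2.2.2.1
        have h3 : G.td.tmpl (G.wd π) = G.td.tmpl (G.wd (w R)) := congrArg Ft.tp h2
        rw [h3, h.tc.tm R]
      have p2 : ∀ π ∈ X', π ∈ G.All ∧ RS π ∧ G.td.tmpl (G.wd π) = t0 := by
        intro π hπ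
        rw [hX'] at hπ
        obtain ⟨h1, -⟩ := hπ
        refine ⟨h1.1, h1.2.1, ?_⟩
        have h2 : G.feat R' π B = fq G w B R' := h1.2.2.2.1
        have h3 : G.td.tmpl (G.wd π) = G.td.tmpl (G.wd (w R')) := congrArg Ft.tp h2
        rw [h3, h.tc.tm R']
      have p3 : ∀ J ⊆ Λ, J.card = r → ∃ π ∈ X, ∀ a ∈ G.gs π R (ac w B R) t'.B,
          a.1 ∈ {x | ∃ l ∈ J, x = cf g l} ∨ g < co a.1 := by
        intro J hJΛ hJc
        obtain ⟨π, h1, h2, h3, h4, h5⟩ := hJ J hJΛ hJc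
        refine ⟨π, ?_, (el_data h1 d1 (hX0 J) hs hB hl h3 h4 h5).2.2.2.2⟩
        rw [hX]
        exact ⟨h1, h2, h3, h4, J, h5⟩
      have p4 : ∀ J ⊆ Λ, J.card = r' → ∃ π ∈ X', ∀ a ∈ G.gs π R' sd' t'.B,
          a.1 ∈ {x | ∃ l ∈ J, x = cf g l} ∨ g < co a.1 := by
        intro J hJΛ hJc
        obtain ⟨π, h1, h2, h3, h4, h5⟩ := hJ' J hJΛ hJc
        refine ⟨π, ?_, (el_data (hmem' _ h1) d1' (hX0 J) hs hB hl h3 h4 h5).2.2.2.2⟩
        rw [hX']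
        exact ⟨h1, h2, h3, h4, J, h5⟩
      have p5 : ∀ π ∈ X, ∀ a ∈ G.gs π R (ac w B R) t'.B, g ≤ co a.1 := by
        intro π hπ a ha
        rw [hX] at hπ
        obtain ⟨h1, h2, h3, h4, J, h5⟩ := hπ
        rcases (el_data h1 d1 (hX0 J) hs hB hl h3 h4 h5).2.2.2.2 a ha with ⟨l, -, h6⟩ | h6
        · exact (congrArg co h6).ge
        · exact h6.le
      have p6 : ∀ π ∈ X', ∀ a ∈ G.gs π R' sd' t'.B, g ≤ co a.1 := by
        intro π hπ a ha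
        rw [hX'] at hπ
        obtain ⟨h1, h2, h3, h4, J, h5⟩ := hπ
        rcases (el_data (hmem' _ h1) d1' (hX0 J) hs hB hl h3 h4 h5).2.2.2.2 a ha with
          ⟨l, -, h6⟩ | h6
        · exact (congrArg co h6).ge
        · exact h6.le
      obtain ⟨π, hπ, π', hπ', hfin⟩ := hM hgd (by omega) r r' Λ hΛ t0 t'.B X X' p1 p2 p3 p4 p5 p6
      rw [hX] at hπ
      rw [hX'] at hπ'
      obtain ⟨h1, h2, h3, h4, J, h5⟩ := hπ
      obtain ⟨h1', h2', h3', h4', J', h5'⟩ := hπ'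
      obtain ⟨-, e1, -, e2, -⟩ := el_data h1 d1 (hX0 J) hs hB hl h3 h4 h5
      obtain ⟨-, e1', -, e2', -⟩ := el_data (hmem' _ h1') d1' (hX0 J') hs hB hl h3' h4' h5'
      exact ⟨π, h1, h2, h3, h4, π', h1', h2', h3', h4', e1, e2, e1', e2', hfin⟩
    · have hgd' : g = G.d := by omega
      obtain ⟨⟨π, h1, h2, h3, h4, h5⟩, ⟨π', h1', h2', h3', h4', h5'⟩⟩ := hinf hgd'
      have hX0 : ci 0 ∉ ({ci g} : Set Cl) := by
        intro h6
        have : (0 : ℕ) = g := congrArg co (Set.mem_singleton_iff.1 h6)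
        omega
      obtain ⟨-, e1, -, e2, e3⟩ := el_data h1 d1 hX0 hs hB hl h3 h4 h5
      obtain ⟨-, e1', -, e2', e3'⟩ := el_data (hmem' _ h1') d1' hX0 hs hB hl h3' h4' h5'
      refine ⟨π, h1, h2, h3, h4, π', h1', h2', h3', h4', e1, e2, e1', e2', ?_⟩
      intro a ha b hb ha1 hb1
      rcases e3 a ha with h6 | h6
      · rcases e3' b hb with h7 | h7
        · rw [Set.mem_singleton_iff] at h6 h7
          rw [h6, h7]
          exact ⟨fun h8 => absurd h8 (lt_irrefl _), fun h8 => absurd h8 (lt_irrefl _)⟩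
        · omega
      · omega
  obtain ⟨e', w', hCS, hw1, hw2, hfin⟩ := h.build hR ho hE hV hRm hs hB hc hl hπ hπF x2 x3 hπ'
    hπF' y2 y3
  obtain ⟨htc, hP, hN, hJ⟩ := tc_open_fin hCS hf hfD hk hk' (by rw [hw1, xk, hcl])
    (by rw [hw2, yk, hcl]) (by rw [hw1]; exact x1) (by rw [hw2]; exact y1) (by
      rw [hw1, hw2]
      intro a ha b hb h1 h2
      exact hplace a ha b hb (by omega) (by omega))
  obtain ⟨Q', Fr', hT⟩ := hfin htc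
  refine ⟨t'.B, Q', Fr', e', w', hT, ⟨(hP R).2 hPd, fun X hX => ?_⟩, hN R hPd, hJ⟩
  have hX2 := (hP X).1 hX
  rw [hN R hPd, hN X hX2]
  exact hR.2 X hX2

end MPb6M
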