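import Pool.Agent.Lib.MP_b6d339_lc.Mix.S2
import Pool.Agent.Lib.MP_b6d339_lc.Mix.C6

open Ordinal

namespace MPb6M

open MPb6P (Valid Compat plr stL)

/-! # S5: the sweep: the new nodes -/
variable {G : Gm} {B : ℕ} {e : Fin 3 → Nd} {w : Fin 3 → Pr} {t0 : G.td.T}

/-- The new node of the side `s` of `R` after the sweep, if its player is active in its other run:
it is not a leaf, and the added part is below (or in an infinite class, equal to) the class of the
next event of the other run. -/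
theorem sw_node (h : TC G B e w t0) {R R' : Fin 3} {sd' : Bool} (hR : Mn G w B R)
    (ho : orr R (ac w B R) = (R', sd')) (hmx : ¬ Mx G w B R R') {π : Pr} (hall : π ∈ G.All)
    (hr : RS π) (hm : nx π B < pL π) (hf : G.feat R π B = G.feat R (w R) B)
    (hnd : ∀ sd, tr (side sd π) B = e (pl R sd)) {B' : ℕ}
    (hB' : B' = tau G R (G.nl (w R) R B) (kfo G w B R) (lfo G w B R) B π) (s : Bool)
    (h1 : Pd w B (orr R s).1) (h2 : ac w B (orr R s).1 = (orr R s).2) :
    clf G.cls (tr (side s π) B') < ci (G.D + 2) ∧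
      ∃ s1, tr (side s π) B' = e (pl R s) ++ s1 ∧ (∀ n ∈ s1, B < n) ∧
        (clf G.cls s1 < G.kp (w (orr R s).1) B ∨
          (clf G.cls s1 = G.kp (w (orr R s).1) B ∧ co (G.kp (w (orr R s).1) B) ≤ G.d)) := by
  obtain ⟨hBB', -, -, -, hs3, -⟩ := sweep_data h hR ho hmx hall hr hm hf hB'
  have hinc : (side s π).Pairwise (· < ·) := by
    cases s
    · exact hall.2.1.inc
    · exact hall.1.inc
  obtain ⟨s1, hs1, hs1b, -⟩ := tr_later hBB'.le hinc
  rw [hnd s] at hs1
  have hle : ∀ n ∈ e (pl R s), n ≤ B := fun n hn => tr_le (x := side s π) (by rw [hnd s]; exact hn)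
  have hk : kl G.cls (side s π) B B' = clf G.cls s1 :=
    kl_tr hinc hs1 hle (fun n hn => (hs1b n hn).1)
  have hX := (orr_pl R s).2.1
  have hpX := play_spec (h.all (orr R s).1) (h.rs (orr R s).1)
  have hkp : ci 0 < G.kp (w (orr R s).1) B :=
    kl_pos (h.all _) (h.rs _) h1 (lt_pt hpX le_rfl h1)
  have hkpl : G.kp (w (orr R s).1) B ≤ ci (G.D + 2) := kl_le_D2 _ _ _
  have hnode : clf G.cls (e (pl R s)) < ci (G.D + 2) := by
    have h5 := act_not_leaf (h.all (orr R s).1) (h.rs (orr R s).1) h1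
    have h6 : tr (side (sdI (nx (w (orr R s).1) B)) (w (orr R s).1)) B = e (pl R s) := by
      have h7 : sdI (nx (w (orr R s).1) B) = (orr R s).2 := h2
      rw [h7, h.nd, hX]
    rw [h6] at h5
    exact h5
  have hrel : clf G.cls s1 < G.kp (w (orr R s).1) B ∨
      (clf G.cls s1 = G.kp (w (orr R s).1) B ∧ co (G.kp (w (orr R s).1) B) ≤ G.d) := by
    by_cases hne : ∃ n ∈ side s π, B < n ∧ n ≤ B'
    · obtain ⟨-, -, h3, h4⟩ := hs3 s hne
      rw [hk] at h3 h4
      rcases h3.lt_or_eq with h5 | h5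
      · exact Or.inl h5
      · refine Or.inr ⟨h5, ?_⟩
        by_contra h6
        exact absurd (h4 (not_le.1 h6)) (by rw [h5]; exact lt_irrefl _)
    · have h3 : s1 = [] := by
        rw [List.eq_nil_iff_forall_not_mem]
        intro n hn
        refine hne ⟨n, ?_, hs1b n hn⟩
        have h4 : n ∈ tr (side s π) B' := by rw [hs1]; exact List.mem_append_right _ hn
        exact ((mem_tr hinc).1 h4).1
      subst h3
      exact Or.inl hkp
  refine ⟨?_, s1, hs1, fun n hn => (hs1b n hn).1, hrel⟩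
  rw [hs1, clf_append]
  refine max_lt hnode ?_
  rcases hrel with h3 | ⟨h3, h4⟩
  · exact h3.trans_le hkpl
  · refine lt_of_co ?_
    rw [h3, co_ci]
    have := G.hdD
    omega

end MPb6M
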