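import Pool.Agent.Lib.MP_b6d339_lc.Mix.S2
import Pool.Agent.Lib.MP_b6d339_lc.Mix.A7
import Pool.Agent.Lib.MP_b6d339_lc.Mix.C5

open Ordinal

namespace MPb6M

open MPb6P (Valid Compat plr stL)

/-! # S5g: the sweep: game part -/
variable {G : Gm} {K : KV G.d} {k B : ℕ} {Q : List Tok} {Fr : Set Pr} {e : Fin 3 → Nd}
  {w : Fin 3 → Pr} {t0 : G.td.T}

/-- The guards: the lines `lineQ K X (fq G w B X) (e (pl X (!ac w B X)))` at the nodes
`e (pl X (ac w B X))` of the other pending runs `X`. -/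
theorem Tri.gds (h : Tri G K (k + 1) B Q Fr e w t0) (R : Fin 3) :
    ∃ Γ : List (Line (G.sys K) × Nd),
      (∀ L ∈ Γ, (∃ a, (L.2, some a) ∈ Q) ∧
        ¬ V (G.sys K) (k + 1) ⟨Q, B, Fr ∪ L.1.Fo L.2 B⟩) ∧
      ∀ X, X ≠ R → Pd w B X → ∃ L ∈ Γ, L.2 = e (pl X (ac w B X)) ∧ L.1.kap = G.kp (w X) B ∧
        ∀ c B', L.1.Fo c B' = G.lf X (fq G w B X) (e (pl X (!ac w B X))) c B' := by
  classical
  let f : Fin 3 → List (Line (G.sys K) × Nd) := fun X =>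
    if hX : Pd w B X then
      [(lineQ K X (fq G w B X) (e (pl X (!ac w B X))) (h.data hX).2.2.1 (h.data hX).2.2.2.1,
        e (pl X (ac w B X)))]
    else []
  refine ⟨(List.finRange 3).flatMap f, ?_, ?_⟩
  · intro L hL
    obtain ⟨X, -, hX⟩ := List.mem_flatMap.1 hL
    by_cases hP : Pd w B X
    · have hX' : L ∈ (if hX : Pd w B X then
        [(lineQ K X (fq G w B X) (e (pl X (!ac w B X))) (h.data hX).2.2.1 (h.data hX).2.2.2.1,
          e (pl X (ac w B X)))]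
        else []) := hX
      rw [dif_pos hP, List.mem_singleton] at hX'
      subst hX'
      refine ⟨h.tok (pl X (ac w B X)) (h.data hP).2.2.2.2, ?_⟩
      exact h.alive hP
    · have hX' : L ∈ (if hX : Pd w B X then
        [(lineQ K X (fq G w B X) (e (pl X (!ac w B X))) (h.data hX).2.2.1 (h.data hX).2.2.2.1,
          e (pl X (ac w B X)))]
        else []) := hX
      rw [dif_neg hP] at hX'
      exact absurd hX' (List.not_mem_nil)
  · intro X _ hP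
    refine ⟨(lineQ K X (fq G w B X) (e (pl X (!ac w B X))) (h.data hP).2.2.1 (h.data hP).2.2.2.1,
        e (pl X (ac w B X))), List.mem_flatMap.2 ⟨X, List.mem_finRange X, ?_⟩, rfl, (h.data hP).2.1, fun c B' => rfl⟩
    change _ ∈ (if hX : Pd w B X then
        [(lineQ K X (fq G w B X) (e (pl X (!ac w B X))) (h.data hX).2.2.1 (h.data hX).2.2.2.1,
          e (pl X (ac w B X)))]
        else [])
    rw [dif_pos hP]
    exact List.mem_singleton.2 rfl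

/-- **Sweep, game part.** `sweep` with `X = oR G e w B R B`, `τ = tau ..` (`tau_be`), and the guards of
`Tri.gds`. `hX1`: `lf_inc`, `Gm.split`. -/
theorem Tri.swG (h : Tri G K (k + 1) B Q Fr e w t0) {R : Fin 3} (hR : Mn G w B R) :
    ∃ t' : St, Ext ⟨Q, B, Fr⟩ t' ∧ V (G.sys K) (k + 1) t' ∧
      Rm (G.sys K) (V (G.sys K) k) t'.P t'.B t'.F ∧ ∃ π ∈ oR G e w B R B, π ∉ t'.F ∧
      tau G R (G.nl (w R) R B) (kfo G w B R) (lfo G w B R) B π = t'.B ∧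
      tr π.1 t'.B ∈ nds t'.P ∧ tr π.2 t'.B ∈ nds t'.P ∧
      ∀ X, X ≠ R → Pd w B X → ∀ c, (c = tr π.1 t'.B ∨ c = tr π.2 t'.B) → clf G.cls c < ci (G.D + 2) →
        Rel (G.sys K) B (G.kp (w X) B) (e (pl X (ac w B X))) c →
        ∃ π' ∈ G.lf X (fq G w B X) (e (pl X (!ac w B X))) c t'.B, π' ∉ t'.F := by
  obtain ⟨Γ, hΓ1, hΓ2⟩ := h.gds R
  obtain ⟨t', hE, hW, hV, hRm, π, hπ, hπF, hτ, h1, h2, hg⟩ := sweep (S := G.sys K) (k := k) (t := ⟨Q, B, Fr⟩) h.wf h.win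
    h.lim Γ hΓ1 (X := oR G e w B R B) (h.alive hR.1)
    (fun π hπ => ⟨(lf_inc hπ).1, (lf_inc hπ).2, fun n hn _ => by
      obtain ⟨x, y, a, b, -, -, -, hd⟩ := Gm.split hπ.1 hπ.2.1
      exact hd n hn⟩)
    (tau G R (G.nl (w R) R B) (kfo G w B R) (lfo G w B R) B)
    (fun π hπ => tau_be hπ.1 hπ.2.1 hπ.2.2.1 _ _ _)
  refine ⟨t', hE, hV, hRm, π, hπ, hπF, hτ, h1, h2, fun X hXR hX c hc hcl hrel => ?_⟩
  obtain ⟨L, hL, hL2, hLk, hLF⟩ := hΓ2 X hXR hX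
  have h3 := hg L hL c hc hcl (by rw [hLk, hL2]; exact hrel)
  rw [hLF] at h3
  obtain ⟨π', hπ', hπ'F⟩ := Set.not_subset.1 h3
  exact ⟨π', hπ', hπ'F⟩

end MPb6M
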