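import Pool.Agent.Lib.MP_b6d339_lc.Mix.S5
import Pool.Agent.Lib.MP_b6d339_lc.Mix.A7

open Ordinal

namespace MPb6M

open MPb6P (Valid Compat plr stL)

/-! # S6w: the sweep: the witnesses of the other runs -/
variable {G : Gm} {K : KV G.d} {k B : ℕ} {Q : List Tok} {Fr : Set Pr} {e : Fin 3 → Nd}
  {w : Fin 3 → Pr} {t0 : G.td.T}

private theorem S6w_shared : ∀ R X : Fin 3, X ≠ R → ∃ s s' : Bool, orr R s = (X, s') ∧
    pl X s' = pl R s ∧ ∀ sd, pl X (!s') ≠ pl R sd := by
  decide

private theorem S6w_leaf {π : Pr} (h : π ∈ G.All) (sd : Bool) : G.Leaf (side sd π) := by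
  cases sd with
  | true => exact h.1
  | false => exact h.2.1

/-- The new witness of another run `X ≠ R` after a sweep with the pair `π`.
* `X` not pending: `w X`, `Tri.keep_done` (a player of `R` at a leaf does not move: `tr_leaf`).
* `X` pending: `X` shares exactly one player `p` with `R` (side `s` of `R`, side `s'` of `X`,
`orr R s = (X, s')`).
  * `p` is the active player of `X` (`ac w B X = s'`): `sw_node` and the last statement of `Tri.swG`
  (`hg`), `keep_of`. The other player does not belong to `R`.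
  * `p` is the waiting player of `X`: `p` has not moved (third statement of `sweep_data`), so both nodes
  of `X` are unchanged: `Tri.keep`, `keep_of`. -/
theorem Tri.swW (h : Tri G K (k + 1) B Q Fr e w t0) {R R' : Fin 3} {sd' : Bool}
    (hR : Mn G w B R) (ho : orr R (ac w B R) = (R', sd')) (hm : ¬ Mx G w B R R') {t' : St}
    (hE : Ext ⟨Q, B, Fr⟩ t') (hV : V (G.sys K) (k + 1) t') {π : Pr} (hπ : π ∈ oR G e w B R B)
    (hτ : tau G R (G.nl (w R) R B) (kfo G w B R) (lfo G w B R) B π = t'.B)
    {e' : Fin 3 → Nd} (he1 : ∀ sd, e' (pl R sd) = tr (side sd π) t'.B)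
    (he2 : ∀ p, (∀ sd, p ≠ pl R sd) → e' p = e p) {X : Fin 3} (hX : X ≠ R)
    (hg : Pd w B X → ∀ c, (c = tr π.1 t'.B ∨ c = tr π.2 t'.B) → clf G.cls c < ci (G.D + 2) →
      Rel (G.sys K) B (G.kp (w X) B) (e (pl X (ac w B X))) c →
      ∃ π' ∈ G.lf X (fq G w B X) (e (pl X (!ac w B X))) c t'.B, π' ∉ t'.F) :
    ∃ π', Keep G X (w X) π' B t'.B ∧ (∀ sd, tr (side sd π') t'.B = e' (pl X sd)) ∧
      (nx π' t'.B < pL π' → π' ∉ t'.F) := by
  have hBB : B ≤ t'.B := hE.B
  have hall : π ∈ G.All := hπ.1
  have hrs : RS π := hπ.2.1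
  have hmL : nx π B < pL π := hπ.2.2.1
  have hfeat : G.feat R π B = G.feat R (w R) B := hπ.2.2.2.1
  have hn1 : tr (side (ac w B R) π) B = e (pl R (ac w B R)) := hπ.2.2.2.2.1
  have hn2 : tr (side (!ac w B R) π) B = e (pl R (!ac w B R)) := hπ.2.2.2.2.2
  have hnd : ∀ sd, tr (side sd π) B = e (pl R sd) := by
    intro sd
    rcases Bool.eq_or_eq_not sd (ac w B R) with hs | hs
    · rw [hs]; exact hn1
    · rw [hs]; exact hn2
  have hsd := sweep_data h.tc hR ho hm hall hrs hmL hfeat hτ.symm
  by_cases hP : Pd w B X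
  · -- pending
    obtain ⟨s, s', hos, hps, hpo⟩ := S6w_shared R X hX
    have hother : e' (pl X (!s')) = e (pl X (!s')) := he2 _ hpo
    rcases Bool.eq_or_eq_not (ac w B X) s' with hac | hac
    · -- the shared player is active in `X`
      have h1 : Pd w B (orr R s).1 := by rw [hos]; exact hP
      have h2 : ac w B (orr R s).1 = (orr R s).2 := by rw [hos]; exact hac
      obtain ⟨hcl, s1, hs1, hs1B, hs1c⟩ :=
        sw_node h.tc hR ho hm hall hrs hmL hfeat hnd hτ.symm s h1 h2
      rw [hos] at hs1c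
      have hc : tr (side s π) t'.B = tr π.1 t'.B ∨ tr (side s π) t'.B = tr π.2 t'.B := by
        cases s with
        | true => exact Or.inl rfl
        | false => exact Or.inr rfl
      have hrel : Rel (G.sys K) B (G.kp (w X) B) (e (pl X (ac w B X))) (tr (side s π) t'.B) := by
        refine ⟨s1, ?_, hs1B, ?_⟩
        · rw [hac, hps]; exact hs1
        · rw [sys_cl]; exact hs1c
      obtain ⟨π', hπ', hF⟩ := hg hP _ hc hcl hrel
      obtain ⟨hk1, hk2, hk3, -⟩ := keep_of hP hπ'
      refine ⟨π', hk1, ?_, fun _ => hF⟩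
      intro sd
      rcases Bool.eq_or_eq_not sd s' with hs | hs
      · rw [hs, hps, he1, ← hk2, hac]
      · rw [hs, hother, ← hac]; exact hk3
    · -- the shared player waits in `X`
      have hno : ¬ ∃ n ∈ side s π, B < n ∧ n ≤ t'.B := by
        intro hex
        have h3 := (hsd.2.2.2.2.1 s hex).2.1
        rw [hos] at h3
        have h4 : ac w B X = s' := h3
        rw [hac] at h4
        cases s' <;> simp at h4
      have hsame : e' (pl X s') = e (pl X s') := by
        rw [hps, he1, ← hnd s]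
        apply tr_eq_of _ hBB
        · intro n hn hnB
          by_contra hcon
          exact hno ⟨n, hn, hnB, not_lt.1 hcon⟩
        · exact (S6w_leaf hall s).inc
      obtain ⟨π', hπ', hF⟩ := h.keep hE hV hP
      obtain ⟨hk1, hk2, hk3, -⟩ := keep_of hP hπ'
      refine ⟨π', hk1, ?_, fun _ => hF⟩
      intro sd
      rcases Bool.eq_or_eq_not sd s' with hs | hs
      · rw [hs, hsame]
        have : (!ac w B X) = s' := by rw [hac]; simp
        rw [this] at hk3
        exact hk3
      · rw [hs, hother, ← hac]; exact hk2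
  · -- not pending
    obtain ⟨hk1, hk2, hk3, hk4⟩ := h.keep_done hP hBB
    refine ⟨w X, hk1, ?_, fun hc => absurd hc hk3⟩
    intro sd
    rw [hk2 sd]
    by_cases hin : ∃ s, pl X sd = pl R s
    · obtain ⟨s, hs⟩ := hin
      rw [hs, he1]
      have hl : clf G.cls (tr (side s π) B) = ci (G.D + 2) := by
        rw [hnd s, ← hs, ← hk4 sd]
        exact leaf_clf (S6w_leaf (h.tc.all X) sd)
      have h5 : tr (side s π) B = side s π := tr_leaf (S6w_leaf hall s) hl
      have h6 : tr (side s π) t'.B = side s π := by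
        apply tr_self
        intro n hn
        rw [← h5] at hn
        exact (tr_le hn).trans hBB
      rw [h6, ← hnd s, h5]
    · push Not at hin
      exact (he2 _ hin).symm

end MPb6M
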