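import Pool.Agent.Lib.MP_b6d339_lc.Mix.S5g
import Pool.Agent.Lib.MP_b6d339_lc.Mix.S6w
import Pool.Agent.Lib.MP_b6d339_lc.Mix.C6

open Ordinal

namespace MPb6M

open MPb6P (Valid Compat plr stL)

/-! # S6: the sweep: the new state -/
variable {G : Gm} {K : KV G.d} {k B : ℕ} {Q : List Tok} {Fr : Set Pr} {e : Fin 3 → Nd}
  {w : Fin 3 → Pr} {t0 : G.td.T}

private theorem S6_pl (R : Fin 3) : pl R true ≠ pl R false := by
  intro h
  unfold pl at h
  have h1 : plr R 0 = plr R 1 := by simpa using h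
  have h2 := plr_eq.1 h1
  omega

/-- **Sweep.** `Tri.swG`, `e'` and `w'` by `Tri.swW`, `tc_sweep`, `Tri.of_room`. -/
theorem Tri.swp (h : Tri G K (k + 1) B Q Fr e w t0) {R R' : Fin 3} {sd' : Bool}
    (hR : Mn G w B R) (ho : orr R (ac w B R) = (R', sd')) (hm : ¬ Mx G w B R R') :
    ∃ B' Q' Fr' e' w', Tri G K k B' Q' Fr' e' w' t0 ∧
      ((∀ X, Pd w' B' X → G.nl (w R) R B < G.nl (w' X) X B') ∨
        (Mn G w' B' R ∧ G.nl (w' R) R B' = G.nl (w R) R B ∧
          Mx G w' B' R (orr R (ac w' B' R)).1 ∧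
          Jt G w' B' (G.nl (w R) R B) ≤ Jt G w B (G.nl (w R) R B))) := by
  classical
  obtain ⟨t', hE, hV, hRm, π, hπ, hπF, hτ, hn1, hn2, hg⟩ := h.swG hR
  obtain ⟨e', he'⟩ : ∃ e' : Fin 3 → Nd, ∀ p, e' p =
      if p = pl R true then tr (side true π) t'.B
        else if p = pl R false then tr (side false π) t'.B else e p := ⟨_, fun _ => rfl⟩
  have he1 : ∀ sd, e' (pl R sd) = tr (side sd π) t'.B := by
    intro sd
    cases sd
    · rw [he', if_neg (Ne.symm (S6_pl R)), if_pos rfl]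
    · rw [he', if_pos rfl]
  have he2 : ∀ p, (∀ sd, p ≠ pl R sd) → e' p = e p := by
    intro p hp
    rw [he', if_neg (hp true), if_neg (hp false)]
  have hW : ∀ X, ∃ π', (X = R → π' = π) ∧ (X ≠ R → Keep G X (w X) π' B t'.B ∧
      (∀ sd, tr (side sd π') t'.B = e' (pl X sd)) ∧ (nx π' t'.B < pL π' → π' ∉ t'.F)) := by
    intro X
    by_cases hX : X = R
    · exact ⟨π, fun _ => rfl, fun h => absurd hX h⟩
    · obtain ⟨π', hπ'⟩ := h.swW hR ho hm hE hV hπ hτ he1 he2 hX (hg X hX)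
      exact ⟨π', fun h => absurd h hX, fun _ => hπ'⟩
  choose w' hw1 hw2 using hW
  have hwR : w' R = π := hw1 R rfl
  have hnd : ∀ X sd, tr (side sd (w' X)) t'.B = e' (pl X sd) := by
    intro X sd
    by_cases hX : X = R
    · subst hX
      rw [hwR, he1]
    · exact (hw2 X hX).2.1 sd
  obtain ⟨htc, hPd, hdis⟩ := tc_sweep (w' := w') (e' := e') (B' := t'.B) h.tc hR ho hm
    (by rw [hwR]; exact hπ.1) (by rw [hwR]; exact hπ.2.1) (by rw [hwR]; exact hπ.2.2.1)
    (by rw [hwR]; exact hπ.2.2.2.1) (by rw [hwR]; exact hτ.symm) (fun X hX => (hw2 X hX).1) hnd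
  obtain ⟨Q', Fr', hT⟩ := Tri.of_room (K := K) hRm (e := e') (w := w') (t0 := t0) (by
    intro p
    by_cases h1 : p = pl R true
    · rw [h1, he1]
      exact hn1
    · by_cases h2 : p = pl R false
      · rw [h2, he1]
        exact hn2
      · rw [he', if_neg h1, if_neg h2]
        obtain ⟨t, ht, hte⟩ := List.mem_map.mp (h.nd p)
        exact List.mem_map.mpr ⟨t, hE.P ht, hte⟩) (by
    intro X hX
    by_cases h1 : X = R
    · subst h1
      rw [hwR]
      exact hπF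
    · exact (hw2 X h1).2.2 hX) htc
  exact ⟨t'.B, Q', Fr', e', w', hT, hdis⟩

end MPb6M
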