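import Pool.Agent.Lib.MP_b6d339_lc.Mix.S4s
import Pool.Agent.Lib.MP_b6d339_lc.Mix.S6

open Ordinal

namespace MPb6M

open MPb6P (Valid Compat plr stL)

/-! # S7: the loop -/
variable {G : Gm} {K : KV G.d} {k B : ℕ} {Q : List Tok} {Fr : Set Pr} {e : Fin 3 → Nd}
  {w : Fin 3 → Pr} {t0 : G.td.T}

/-- all runs are finished: a blue triangle (`nx_full`, `tc.nd`) -/
theorem TC.done (h : TC G B e w t0) (hn : ∀ R, ¬ Pd w B R) :
    (e 0, e 1) ∈ G.All ∧ (e 0, e 2) ∈ G.All ∧ (e 1, e 2) ∈ G.All := by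
  have key : ∀ R, w R = (e (pl R true), e (pl R false)) := by
    intro R
    have h1 : nx (w R) B = pL (w R) := le_antisymm (nx_le B) (not_lt.1 (hn R))
    obtain ⟨h2, h3⟩ := (nx_full (h.all R) (h.rs R)).1 h1
    have h4 : tr (w R).1 B = e (pl R true) := h.nd R true
    have h5 : tr (w R).2 B = e (pl R false) := h.nd R false
    rw [← h4, ← h5, h2, h3]
  have a0 := h.all 0
  have a1 := h.all 1
  have a2 := h.all 2
  rw [key] at a0 a1 a2
  exact ⟨a0, a1, a2⟩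

/-- there is a pending run with the smallest label -/
theorem exists_mn (hP : ∃ R, Pd w B R) : ∃ R, Mn G w B R := by
  classical
  have hne : ∃ n : ℕ, ∃ R, Pd w B R ∧ G.nl (w R) R B = n := by
    obtain ⟨R, hR⟩ := hP
    exact ⟨_, R, hR, rfl⟩
  obtain ⟨R, hR, hn⟩ := Nat.find_spec hne
  refine ⟨R, hR, fun X hX => ?_⟩
  rw [hn]
  exact Nat.find_min' hne ⟨X, hX, rfl⟩


/-- the measure -/
noncomputable def mea (G : Gm) (w : Fin 3 → Pr) (B : ℕ) (R : Fin 3) : ℕ :=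
  open Classical in
  (G.td.M + 1 - G.nl (w R) R B) * (12 * (G.D + 2) + 2) + 2 * Jt G w B (G.nl (w R) R B) +
    if Mx G w B R (orr R (ac w B R)).1 then 0 else 1

/-- `Jt_le`, `lb_bd` -/
theorem mea_le (G : Gm) (w : Fin 3 → Pr) (B : ℕ) (R : Fin 3) :
    mea G w B R < (G.td.M + 1) * (12 * (G.D + 2) + 2) := by
  have h1 : 1 ≤ G.nl (w R) R B ∧ G.nl (w R) R B ≤ G.td.M := lb_bd _ _ _
  have h2 := Jt_le G w B (G.nl (w R) R B)
  have h3 : (G.td.M + 1 - G.nl (w R) R B) * (12 * (G.D + 2) + 2) ≤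
      G.td.M * (12 * (G.D + 2) + 2) := Nat.mul_le_mul_right _ (by omega)
  have h4 : (G.td.M + 1) * (12 * (G.D + 2) + 2) =
      G.td.M * (12 * (G.D + 2) + 2) + (12 * (G.D + 2) + 2) := Nat.succ_mul _ _
  unfold mea
  rw [h4]
  split_ifs <;> omega

theorem mea_pos (G : Gm) (w : Fin 3 → Pr) (B : ℕ) (R : Fin 3) : 0 < mea G w B R := by
  have h1 : 1 ≤ G.nl (w R) R B ∧ G.nl (w R) R B ≤ G.td.M := lb_bd _ _ _
  have h2 : 0 < (G.td.M + 1 - G.nl (w R) R B) * (12 * (G.D + 2) + 2) :=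
    Nat.mul_pos (by omega) (by omega)
  unfold mea
  omega

/-- `l < l'`: `(M + 1 - l') * C + 12 (D + 2) + 1 < (M + 1 - l) * C` -/
theorem mea_lt_of_nl {w w' : Fin 3 → Pr} {B B' : ℕ} {R R' : Fin 3}
    (h : G.nl (w R) R B < G.nl (w' R') R' B') : mea G w' B' R' < mea G w B R := by
  have h1 : 1 ≤ G.nl (w' R') R' B' ∧ G.nl (w' R') R' B' ≤ G.td.M := lb_bd _ _ _
  have h2 := Jt_le G w' B' (G.nl (w' R') R' B')
  have h3 : (G.td.M + 1 - G.nl (w' R') R' B' + 1) * (12 * (G.D + 2) + 2) ≤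
      (G.td.M + 1 - G.nl (w R) R B) * (12 * (G.D + 2) + 2) := Nat.mul_le_mul_right _ (by omega)
  have h4 : (G.td.M + 1 - G.nl (w' R') R' B' + 1) * (12 * (G.D + 2) + 2) =
      (G.td.M + 1 - G.nl (w' R') R' B') * (12 * (G.D + 2) + 2) + (12 * (G.D + 2) + 2) :=
    Nat.succ_mul _ _
  unfold mea
  split_ifs <;> omega

/-- **One round**: `Tri.stop`, `Tri.opn`, `Tri.fin` (mixed; `kp = 1`, `2 ≤ kp ≤ D`, `kp = D + 1`; see
`kl_le_D1`, `kl_pos`), `Tri.swp` (not mixed). If no run is pending at the end: `TC.done`. -/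
theorem Tri.step (h : Tri G K (k + 1) B Q Fr e w t0) {R : Fin 3} (hR : Mn G w B R) :
    ∃ B' Q' Fr' e' w', Tri G K k B' Q' Fr' e' w' t0 ∧
      ((∀ X, ¬ Pd w' B' X) ∨ ∃ R', Mn G w' B' R' ∧ mea G w' B' R' < mea G w B R) := by
  have hup : ∀ (B' : ℕ) (w' : Fin 3 → Pr),
      (∀ X, Pd w' B' X → G.nl (w R) R B < G.nl (w' X) X B') →
      ((∀ X, ¬ Pd w' B' X) ∨ ∃ R', Mn G w' B' R' ∧ mea G w' B' R' < mea G w B R) := by
    intro B' w' h1
    by_cases h2 : ∃ X, Pd w' B' X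
    · obtain ⟨R', hR'⟩ := exists_mn (G := G) h2
      exact Or.inr ⟨R', hR', mea_lt_of_nl (h1 R' hR'.1)⟩
    · left
      push Not at h2
      exact h2
  have ho : orr R (ac w B R) = ((orr R (ac w B R)).1, (orr R (ac w B R)).2) := rfl
  by_cases hm : Mx G w B R (orr R (ac w B R)).1
  · have hlt : B < pt (w R) (nx (w R) B) :=
      lt_pt (play_spec (h.tc.all R) (h.tc.rs R)) le_rfl hR.1
    obtain ⟨n, -, -, -, hn⟩ := kl_mem (cls := G.cls) G.cls_pos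
      (pt_mem (play_spec (h.tc.all R) (h.tc.rs R)) hR.1) hlt le_rfl
    have hn' : G.kp (w R) B = G.cls n := hn
    have hopen : (∃ B' Q' Fr' e' w', Tri G K k B' Q' Fr' e' w' t0 ∧ Mn G w' B' R ∧
        G.nl (w' R) R B' = G.nl (w R) R B ∧
        Jt G w' B' (G.nl (w R) R B) < Jt G w B (G.nl (w R) R B)) →
        ∃ B' Q' Fr' e' w', Tri G K k B' Q' Fr' e' w' t0 ∧
        ((∀ X, ¬ Pd w' B' X) ∨ ∃ R', Mn G w' B' R' ∧ mea G w' B' R' < mea G w B R) := by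
      rintro ⟨B', Q', Fr', e', w', h1, h2, h3, h4⟩
      refine ⟨B', Q', Fr', e', w', h1, Or.inr ⟨R, h2, ?_⟩⟩
      unfold mea
      rw [if_pos hm, h3]
      split_ifs <;> omega
    rcases G.cls_ok n with ⟨j, hj1, hj2, hj⟩ | ⟨f, i, hf1, hf2, hf⟩ | hl
    · rw [hj] at hn'
      rcases hj1.lt_or_eq with hj3 | hj3
      · exact hopen (h.opn hR ho hm hj3 hj2 hn')
      · obtain ⟨B', Q', Fr', e', w', h1, h2⟩ := h.stop hR ho hm (by rw [hn', ← hj3])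
        exact ⟨B', Q', Fr', e', w', h1, hup B' w' h2⟩
    · rw [hf] at hn'
      exact hopen (h.opnF hR ho hf1 hf2 hn' (hm.1 ▸ hn'))
    · rw [hl] at hn'
      obtain ⟨B', Q', Fr', e', w', h1, h2⟩ := h.fin hR ho hn'
      exact ⟨B', Q', Fr', e', w', h1, hup B' w' h2⟩
  · obtain ⟨B', Q', Fr', e', w', h1, h2 | ⟨h2, h3, h4, h5⟩⟩ := h.swp hR ho hm
    · exact ⟨B', Q', Fr', e', w', h1, hup B' w' h2⟩
    · refine ⟨B', Q', Fr', e', w', h1, Or.inr ⟨R, h2, ?_⟩⟩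
      unfold mea
      rw [if_neg hm, if_pos h4, h3]
      omega

/-- **The loop**: induction on `k` -/
theorem Tri.loop : ∀ (k : ℕ) {B : ℕ} {Q : List Tok} {Fr : Set Pr} {e : Fin 3 → Nd}
    {w : Fin 3 → Pr}, Tri G K k B Q Fr e w t0 → ∀ {R : Fin 3}, Mn G w B R → mea G w B R ≤ k →
    ∃ x y v, (x, y) ∈ G.All ∧ (x, v) ∈ G.All ∧ (y, v) ∈ G.All := by
  intro k
  induction k with
  | zero =>
    intro B Q Fr e w h R hR hk
    have := mea_pos G w B R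
    omega
  | succ k ih =>
    intro B Q Fr e w h R hR hk
    obtain ⟨B', Q', Fr', e', w', h1, h2 | ⟨R', h2, h3⟩⟩ := h.step hR
    · obtain ⟨a, b, c⟩ := h1.tc.done h2
      exact ⟨_, _, _, a, b, c⟩
    · exact ih h1 h2 (by omega)

end MPb6M
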