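import Pool.Agent.Lib.MP_b6d339_lc.Mix.S8r
import Pool.Agent.Lib.MP_b6d339_lc.Mix.A10b
import Pool.Agent.Lib.MP_b6d339_lc.Mix.A10c

open Ordinal

namespace MPb6M

open MPb6P (Valid Compat plr stL)

/-! # S8b: the common beginning -/
variable {G : Gm} {K : KV G.d}

/-- **Case B**: `common_beginning` (level `k + 2`), the room of level `k + 1` (`RoomAt.comp` for the
objects `inr (inl sd)` and `inr (inr ())`), `com_end` with `lineZ K sd zf`. -/
theorem case_B (hval : K.Val [])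
    (hex : ∀ e, K.Val e → e ≠ [] → cf (G.D + 1) 0 ≤ clf G.cls e) {k : ℕ} {F : Set Pr} (hV : V (G.sys K) (k + 2) ⟨rt K, 0, F⟩)
    (hN : ¬ V (G.sys K) (k + 2) ⟨rt K, 0, F ∪ G.All⟩) (hs : ∀ π ∈ G.All, RS π → π ∈ F) :
    ∃ x y v, (x, y) ∈ G.All ∧ (x, v) ∈ G.All ∧ (y, v) ∈ G.All := by
  have hA := allOK G K
  have hm2 : 2 ≤ (G.sys K).m := by
    have h1 := G.hd
    have h2 := G.hdD
    change 2 ≤ G.D + 1
    omega
  obtain ⟨t', -, -, -, ⟨Fr, hFr, Q, hRoom⟩, a, zf, sd, π, ⟨μ, hμ⟩, hzf, hπ, hπF, hside, htr, -,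
    hbd, hne, hcom⟩ := common_beginning (k := k + 1) hA hm2 hex (wf_root hval) hN hV hs
  have ha' : a ∈ nds t'.P := A10_nds_mem hμ
  have hz' : zf ∈ nds t'.P := A10_nds_mem hzf
  have hmem : π ∈ lz G sd zf a t'.B := by
    refine ⟨hπ, htr, hside, hbd, ?_⟩
    by_contra hcon
    push Not at hcon
    exact hne (by rw [← htr, tr_self hcon])
  have h1 : ¬ V (G.sys K) (k + 1) ⟨Q, t'.B, Fr ∪ lz G sd zf a t'.B⟩ := by
    rcases hRoom.comp (Sum.inr (Sum.inl sd)) a ha' zf hz' with h | h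
    · exact absurd (hFr (h hmem)) hπF
    · exact h
  have h2 : ¬ V (G.sys K) (k + 1) ⟨Q, t'.B, Fr ∪ Com G.All a t'.B⟩ := by
    rcases hRoom.comp (Sum.inr (Sum.inr ())) a ha' zf hz' with h | h
    · exact absurd (fun x hx => hFr (h hx)) hcom
    · exact h
  obtain ⟨a', ha2⟩ := hRoom.cov a μ hμ
  obtain ⟨ρ, hρ, π1, hπ1, π2, hπ2, e1, e2⟩ := com_end (k := k) (t := ⟨Q, t'.B, Fr⟩) hA hRoom.wf
    hRoom.win hRoom.lim ha2 (lineZ K sd zf) rfl (by
      intro c B σ hσ B' hB'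
      have hσ' : σ ∈ lz G sd zf c B := hσ
      have h3 := hA.leaf' σ hσ'.1 B'
      change (G.sys K).cl (tr (side sd σ) B') = ci ((G.sys K).m + 1) at hB'
      change tr (side sd σ) B' = side sd σ
      cases sd
      · exact h3.2 hB'
      · exact h3.1 hB') h1 h2
  have hπ1' : π1 ∈ lz G sd zf a t'.B := hπ1
  have hπ2' : π2 ∈ lz G sd zf a t'.B := hπ2
  change side sd π1 = ρ.1 at e1
  change side sd π2 = ρ.2 at e2
  have g1 := hπ1'.1
  have g2 := hπ2'.1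
  have i1 := hπ1'.2.2.1
  have i2 := hπ2'.2.2.1
  obtain ⟨x, y⟩ := ρ
  obtain ⟨p1, q1⟩ := π1
  obtain ⟨p2, q2⟩ := π2
  cases sd
  · change q1 = x at e1
    change q2 = y at e2
    change p1 = zf at i1
    change p2 = zf at i2
    subst e1 e2 i1 i2
    exact ⟨_, _, _, g1, g2, hρ⟩
  · change p1 = x at e1
    change p2 = y at e2
    change q1 = zf at i1
    change q2 = zf at i2
    subst e1 e2 i1 i2
    exact ⟨_, _, _, hρ, g1, g2⟩

end MPb6M
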