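import Pool.Agent.Lib.MP_b6d339_lc.Mix.S2

open Ordinal

namespace MPb6M

open MPb6P (Valid Compat plr stL)

/-! # S8r: the root -/
variable {G : Gm} {K : KV G.d}

/-- the token of the root -/
noncomputable abbrev rt (K : KV G.d) : List Tok := [([], some (rootN (G.sys K)))]

theorem wf_root (hval : K.Val []) : WFl (G.sys K) (rt K) 0 := by
  refine ⟨?_, ?_, ?_, ?_, ?_, ?_⟩
  · simp [nds, rt]
  · intro t ht
    rw [List.mem_singleton] at ht
    subst ht
    exact List.Pairwise.nil
  · intro t ht n hn
    rw [List.mem_singleton] at ht
    subst ht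
    simp at hn
  · intro t ht
    rw [List.mem_singleton] at ht
    subst ht
    exact hval
  · intro e a h
    rw [List.mem_singleton] at h
    have h1 : e = [] := (Prod.mk.injEq _ _ _ _ ▸ h : e = [] ∧ _).1
    subst h1
    exact ci_lt.2 (Nat.succ_pos _)
  · intro e h
    rw [List.mem_singleton] at h
    have h1 := congrArg Prod.snd h
    simp at h1

/-- the infinite classes of the root need are `0` -/
theorem lim_root : ∀ e a, (e, some a) ∈ rt K → (G.sys K).LimN a := by
  intro e a h
  rw [List.mem_singleton] at h
  have h1 : a = rootN (G.sys K) := Option.some.inj (congrArg Prod.snd h)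
  subst h1
  intro j _ _
  exact Or.inl rfl

end MPb6M
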