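import Pool.Agent.Lib.MP_b6d339_lc.Mix.S2

open Ordinal

namespace MPb6M

open MPb6P (Valid Compat plr stL)

/-! # S8s: the start -/
variable {G : Gm}

private theorem S8s_leaf {π : Pr} (h : π ∈ G.All) (sd : Bool) : G.Leaf (side sd π) := by
  cases sd
  · exact h.2.1
  · exact h.1

private theorem S8s_tr {π : Pr} (h : π ∈ G.All) (sd : Bool) : tr (side sd π) 0 = [] := by
  have hl := S8s_leaf h sd
  rw [List.eq_nil_iff_forall_not_mem]
  intro n hn
  have h1 := (mem_tr hl.inc).1 hn
  have h2 := hl.pos n h1.1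
  omega

private theorem S8s_nx {π : Pr} (h : π ∈ G.All) (hr : RS π) : nx π 0 = 0 := by
  have hp := play_spec h hr
  refine nx_eq hp (fun i hi => absurd hi (by omega)) (by omega) fun h0 => ?_
  exact (S8s_leaf h (sdI 0)).pos _ (pt_mem hp h0)

/-- **The start.** -/
theorem tc_start {π : Pr} (hall : π ∈ G.All) (hr : RS π) :
    TC G 0 (fun _ => []) (fun _ => π) (G.td.tmpl (G.wd π)) := by
  have hp := play_spec hall hr
  have hnx := S8s_nx hall hr
  refine ⟨fun _ => hall, fun _ => hr, fun _ => rfl, fun _ sd => S8s_tr hall sd, ?_, ?_⟩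
  · intro R R' _ _
    show G.pv π R 0 < G.nl π R' 0
    unfold Gm.pv Gm.nl
    rw [if_pos hnx]
    exact (lb_bd π R' _).1
  · intro R sd a ha b hb hab
    obtain ⟨o1, o2, -⟩ := orr_pl R sd
    obtain ⟨i, -, hi, hsi, rfl⟩ := ha
    obtain ⟨j, -, hj, hsj, rfl⟩ := hb
    change i < pL π at hi
    change j < pL π at hj
    change kl G.cls (side sd π) 0 (pt π i) < kl G.cls (side (orr R sd).2 π) 0 (pt π j) at hab
    change G.lb π R i < G.lb π (orr R sd).1 j
    rw [← hsj, ← hsi] at hab
    have hpi : 0 < pt π i := (S8s_leaf hall (sdI i)).pos _ (pt_mem hp hi)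
    have hpj : 0 < pt π j := (S8s_leaf hall (sdI j)).pos _ (pt_mem hp hj)
    have h2 : kl G.cls (side (sdI j) π) 0 (pt π j) ≤ ci (G.D + 2) := kl_le_D2 _ _ _
    have h4 : ¬ pL π ≤ i + 2 := fun h5 => by
      have h6 := (kl_fin hall hr hi hpi).2 h5
      rw [h6] at hab
      exact absurd (lt_of_lt_of_le hab h2) (lt_irrefl _)
    have h3 : pL π ≤ j + 2 := by
      by_contra h5
      have h6 := kl_root hall hr (i := j) (B := 0) (by omega) hpj (S8s_tr hall _)
      have h7 := kl_root hall hr (i := i) (B := 0) (by omega) hpi (S8s_tr hall _)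
      rw [h6, h7] at hab
      exact lt_irrefl _ hab
    have hlen : (G.wd π).length = pL π := wd_length
    have hv := valid_wd hall hr
    have hc := G.td.comp (G.wd π) (G.wd π) hv hv rfl
    have h2L := hp.two
    -- the last event of the side in the run `R`
    obtain ⟨i', hi'1, hi'2, hi'3⟩ : ∃ i', i' < pL π ∧ pL π ≤ i' + 2 ∧ i' % 2 = i % 2 := by
      by_cases h5 : (pL π - 1) % 2 = i % 2
      · exact ⟨pL π - 1, by omega, by omega, h5⟩
      · exact ⟨pL π - 2, by omega, by omega, by omega⟩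
    have hpl : plr (orr R sd).1 j = plr R i := by
      rw [← pl_sdI, ← pl_sdI, hsi, hsj, o2]
    have hpi' : plr R i' = plr R i := plr_eq.2 hi'3
    obtain ⟨j0, hj0, hj1, hj2, hj3, hj4⟩ := hc.timing R (orr R sd).1 (Ne.symm o1) i'
      (by rw [hlen]; exact hi'1) ⟨j, by rw [hpl, hpi']⟩
    have hj5 := hj4 (by rw [hlen]; exact hi'2)
    obtain ⟨-, hu1, -, hu2⟩ := hc.common R (orr R sd).1 (Ne.symm o1) i'
      (by rw [hlen]; exact hi'1) j0 hj0 hj5
    rw [hlen] at hj0 hu1 hu2
    have h6 := hu2.1 hi'2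
    have h7 : j0 % 2 = j % 2 := by
      have h8 : plr (orr R sd).1 j0 = plr (orr R sd).1 j := by rw [hj1, hpl, hpi']
      exact plr_eq.1 h8
    have h9 : j0 = j := by omega
    subst h9
    have h10 : i < i' := by omega
    have h11 : G.lb π R i ≤ G.lb π R i' := lb_mono hall hr R h10.le hi'1
    have h12 : G.lb π R i ≠ G.lb π R i' := fun h13 => by
      have := hu1 i hi h13
      omega
    have h13 : G.lb π R i' = G.lb π (orr R sd).1 j0 := hj5
    omega

end MPb6M
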