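import Pool.Agent.Lib.MP_b6d339_lc.Mix.S7
import Pool.Agent.Lib.MP_b6d339_lc.Mix.A4u
import Pool.Agent.Lib.MP_b6d339_lc.Mix.S8s
import Pool.Agent.Lib.MP_b6d339_lc.Mix.S8r
import Pool.Agent.Lib.MP_b6d339_lc.Mix.S8b

open Ordinal

namespace MPb6M

open MPb6P (Valid Compat plr stL)

/-! # S8: the game theorem -/
variable {G : Gm} {K : KV G.d}

/-- **Case A**: a pair which splits at the root and is not forbidden -/
theorem case_A (hval : K.Val []) {k : ℕ} {F : Set Pr} (hV : V (G.sys K) k ⟨rt K, 0, F⟩)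
    (hc : ∀ j, ∀ a ∈ nds (rt K), ∀ w ∈ nds (rt K),
      (G.sys K).Fob j a w 0 ⊆ F ∨ ¬ V (G.sys K) k ⟨rt K, 0, F ∪ (G.sys K).Fob j a w 0⟩)
    {π : Pr} (hall : π ∈ G.All) (hr : RS π) (hF : π ∉ F) :
    Tri G K k 0 (rt K) F (fun _ => []) (fun _ => π) (G.td.tmpl (G.wd π)) := by
  have hn : ([] : Nd) ∈ nds (rt K) := by simp [nds, rt]
  refine ⟨wf_root hval, lim_root, hV, fun _ => hn, ?_, fun _ _ => hF, tc_start hall hr⟩
  intro j p p'
  exact hc j [] hn [] hn

/-- **The game theorem.** Level `(M + 1) * (12 * (D + 2) + 2) + 2`; `exists_complete`; `case_A` and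
`Tri.loop` (`exists_mn`, `mea_le`; level by `V_mono`-free choice: `mea ≤ level`), or `case_B`, or
`V_mono`, `V_down`. -/
theorem main (hval : K.Val [])
    (hex : ∀ e, K.Val e → e ≠ [] → cf (G.D + 1) 0 ≤ clf G.cls e) (hV : ∀ k, V (G.sys K) k ⟨rt K, 0, ∅⟩) :
    V (G.sys K) 0 ⟨rt K, 0, G.All⟩ ∨
      ∃ x y v, (x, y) ∈ G.All ∧ (x, v) ∈ G.All ∧ (y, v) ∈ G.All := by
  classical
  set n : ℕ := (G.td.M + 1) * (12 * (G.D + 2) + 2) with hn
  obtain ⟨F, -, hVF, hc⟩ := exists_complete (hV (n + 2))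
  by_cases hA : ∃ π ∈ G.All, RS π ∧ π ∉ F
  · obtain ⟨π, hall, hr, hF⟩ := hA
    right
    have hT := case_A hval hVF hc hall hr hF
    have hp : Play π.1 π.2 (pL π) (pt π) := play_spec hall hr
    have hPd : ∀ R, Pd (fun _ => π) 0 R := by
      intro R
      show nx π 0 < pL π
      have h2 : 2 ≤ pL π := hp.two
      by_contra hcon
      have h0 : 0 < nx π 0 := by omega
      have h3 : pt π 0 ≤ 0 := ((lt_nx hp).1 h0).2
      have h4 := pt_mem hp (i := 0) (by omega)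
      have h5 : pt π 0 ∈ π.1 := by simpa [sdI, side] using h4
      have h6 := hall.1.pos _ h5
      omega
    obtain ⟨R, hR⟩ := exists_mn (G := G) (w := fun _ => π) (B := 0) ⟨0, hPd 0⟩
    refine Tri.loop (n + 2) hT hR ?_
    have h7 := mea_le G (fun _ => π) 0 R
    omega
  · push Not at hA
    by_cases hN : V (G.sys K) (n + 2) ⟨rt K, 0, F ∪ G.All⟩
    · left
      exact V_down (V_mono hN (Less.refl _) Set.subset_union_right)
    · right
      exact case_B hval hex hVF hN hA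

end MPb6M
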