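import Pool.Agent.Lib.MP_b6d339_lc.Mix.S9a

open Ordinal

namespace MPb6M

open MPb6P (Valid Compat plr stL)

/-! # S9b: only the pairs of `All` matter -/

variable {D d : ℕ} {κ : ℕ → Ordinal.{0}} {hk : MixK D d κ} {C : Cod (D + 1) κ}
  {Gr : SimpleGraph (ω ^ kpi κ (D + 1) : Ordinal.{0}).ToType} {td : TD D}

private theorem S9b_ext {G : Gm} {x y y' : List ℕ} (hx : G.Leaf x) (hy : G.Leaf y)
    (h : y = x ++ y') : y = x := by
  rcases List.eq_nil_or_concat y' with rfl | ⟨y1, b, rfl⟩
  · rw [h, List.append_nil]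
  · exfalso
    obtain ⟨s, n, h1, h2, h3⟩ := G.val_last x hx.val
    obtain ⟨s', n', h4, h5, h6⟩ := G.val_last y hy.val
    have h7 : s' = x ++ y1 := by
      have h8 : s' ++ [n'] = (x ++ y1) ++ [b] := by rw [← h4, h, List.concat_eq_append, List.append_assoc]
      exact (List.append_inj' h8 rfl).1
    have h9 : n ∈ s' := by
      rw [h7, h1]
      simp
    have h10 := h6 n h9
    rw [h2] at h10
    exact lt_irrefl _ h10

/-- **Only the pairs of `All` matter.** -/
theorem V_blue (h : V ((gmO hk C Gr td).sys (kvO hk C)) 0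
      ⟨rt (G := gmO hk C Gr td) (kvO hk C), 0, (gmO hk C Gr td).All⟩) :
    V ((gmO hk C Gr td).sys (kvO hk C)) 0
      ⟨rt (G := gmO hk C Gr td) (kvO hk C), 0, bluePairs C Gr⟩ := by
  refine V_coind0 {t : St | WFl ((gmO hk C Gr td).sys (kvO hk C)) t.P t.B ∧
    (∀ t' ∈ t.P, ∀ n ∈ t'.1, 0 < n) ∧
    (∀ e ∈ nds t.P, ∀ e' ∈ nds t.P, ∃ c x y, e = c ++ x ∧ e' = c ++ y ∧ ∀ n ∈ x, n ∉ y) ∧
    t.F = bluePairs C Gr ∧ ∃ F, V ((gmO hk C Gr td).sys (kvO hk C)) 0 ⟨t.P, t.B, F⟩ ∧
      (gmO hk C Gr td).All ⊆ F} ?_ ?_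
  · rintro ⟨P, B, F0⟩ ⟨hwf, hpos, hsp, hF0, F, hV, hall⟩
    dsimp only at hwf hpos hsp hF0 hV
    subst hF0
    refine ⟨?_, ?_⟩
    · intro x y hx hy hxy
      dsimp only at hx hy hxy
      obtain ⟨hlx, hly, hadj⟩ := hxy
      dsimp only at hlx hly hadj
      have hok := V_ok hV
      have hLx := leaf_of (hk := hk) (Gr := Gr) (td := td) hlx (hpos _ hx)
      have hLy := leaf_of (hk := hk) (Gr := Gr) (td := td) hly (hpos _ hy)
      obtain ⟨c, x', y', hxc, hyc, hdis⟩ := hsp x (List.mem_map.2 ⟨_, hx, rfl⟩) y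
        (List.mem_map.2 ⟨_, hy, rfl⟩)
      have hne : x ≠ y := by
        rintro rfl
        exact Gr.irrefl hadj
      cases x' with
      | nil =>
        apply hne
        rw [List.append_nil] at hxc
        subst hxc
        exact (S9b_ext hLx hLy hyc).symm
      | cons a x1 =>
        cases y' with
        | nil =>
          apply hne
          rw [List.append_nil] at hyc
          subst hyc
          exact S9b_ext hLy hLx hxc
        | cons b y1 =>
          have hab : a ≠ b := by
            rintro rfl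
            exact hdis a (by simp) (by simp)
          rcases lt_or_gt_of_ne hab with hlt | hlt
          · refine hok x y hx hy (hall ⟨hLx, hLy, hadj, c, x1, y1, a, b, hxc, hyc,
              hlt, hdis⟩)
          · refine hok y x hy hx (hall ⟨hLy, hLx, hadj.symm, c, y1, x1, b, a, hyc,
              hxc, hlt, fun n hn hn' => hdis n hn' hn⟩)
    · intro e a hea ρ hr N
      dsimp only at hea
      obtain ⟨s, b, F', hA, hb, hF, hV'⟩ := V_step0 hV (e := e) (a := a) hea hr N
      have hB : ∀ n ∈ s, B < n := fun n hn => (hA.big n hn).2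
      refine ⟨s, b, bluePairs C Gr, ⟨hA.ne, hA.inc, hA.big, hA.val, hA.cl⟩, hb, subset_rfl,
        trivial, ?_⟩
      have hee : e ∈ nds P := List.mem_map.2 ⟨_, hea, rfl⟩
      have hbd : ∀ e' ∈ nds P, ∀ n ∈ e', n ≤ B := by
        intro e' he' n hn
        obtain ⟨t', ht', rfl⟩ := List.mem_map.1 he'
        exact hwf.bd t' ht' n hn
      refine ⟨WF_cons hwf hea hr hA hb, ?_, ?_, rfl, F', hV', hall.trans hF⟩
      · intro t' ht' n hn
        rcases List.mem_cons.1 ht' with rfl | ht'
        · rcases List.mem_append.1 hn with hn | hn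
          · exact hpos _ hea n hn
          · exact (Nat.zero_le _).trans_lt (hB n hn)
        · exact hpos t' ht' n hn
      · intro e1 he1 e2 he2
        have hc1 : e1 = e ++ s ∨ e1 ∈ nds P := List.mem_cons.1 he1
        have hc2 : e2 = e ++ s ∨ e2 ∈ nds P := List.mem_cons.1 he2
        rcases hc1 with rfl | h1 <;> rcases hc2 with rfl | h2
        · exact ⟨e ++ s, [], [], by simp, by simp, by simp⟩
        · obtain ⟨c, x, y, hx, hy, hd⟩ := hsp e hee e2 h2
          refine ⟨c, x ++ s, y, by rw [hx, List.append_assoc], hy, ?_⟩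
          intro n hn hny
          rcases List.mem_append.1 hn with hn | hn
          · exact hd n hn hny
          · have h3 := hbd e2 h2 n (by rw [hy]; exact List.mem_append_right _ hny)
            have h4 := hB n hn
            omega
        · obtain ⟨c, x, y, hx, hy, hd⟩ := hsp e1 h1 e hee
          refine ⟨c, x, y ++ s, hx, by rw [hy, List.append_assoc], ?_⟩
          intro n hn hny
          rcases List.mem_append.1 hny with hny | hny
          · exact hd n hn hny
          · have h3 := hbd e1 h1 n (by rw [hx]; exact List.mem_append_right _ hn)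
            have h4 := hB n hny
            omega
        · exact hsp e1 h1 e2 h2
  · refine ⟨wf_root trivial, ?_, ?_, rfl, _, h, subset_rfl⟩
    · intro t' ht' n hn
      have h1 : t' = ([], some (rootN ((gmO hk C Gr td).sys (kvO hk C)))) := List.mem_singleton.1 ht'
      rw [h1] at hn
      simp at hn
    · intro e1 he1 e2 he2
      have h1 : e1 = [] := by simpa [nds, rt] using he1
      have h2 : e2 = [] := by simpa [nds, rt] using he2
      exact ⟨[], [], [], by simp [h1], by simp [h2], by simp⟩

end MPb6M
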