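import Pool.Agent.Lib.MP_b6d339_lc.Mix.S9a
import Pool.Agent.Lib.MP_b6d339_lc.Mix.A4u

open Ordinal

namespace MPb6M

open MPb6P (Valid Compat plr stL)

/-! # S9c: Red can play at every level -/

variable {D d : ℕ} {κ : ℕ → Ordinal.{0}} {hk : MixK D d κ} {C : Cod (D + 1) κ}
  {Gr : SimpleGraph (ω ^ kpi κ (D + 1) : Ordinal.{0}).ToType} {td : TD D}

theorem S9c_zP : zP (rt (G := gmO hk C Gr td) (kvO hk C)) = rt (G := gmO hk C Gr td) (kvO hk C) := by
  have h1 : zN (rootN ((gmO hk C Gr td).sys (kvO hk C))) =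
      rootN ((gmO hk C Gr td).sys (kvO hk C)) := by
    unfold zN rootN
    congr 1
    funext j
    simp [z]
  simp only [zP, List.map_cons, List.map_nil, Option.map_some, h1]

/-- **Red can play at every level**: `V_root`, `upgrade` (`zP` of the root is the root) -/
theorem V_all_levels (k : ℕ) : V ((gmO hk C Gr td).sys (kvO hk C)) k
    ⟨rt (G := gmO hk C Gr td) (kvO hk C), 0, ∅⟩ := by
  induction k with
  | zero => exact V_root (S := (gmO hk C Gr td).sys (kvO hk C)) (conc_of (S9a_kpi hk)) 0
  | succ k ih =>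
    apply upgrade (wf_root (show C.Val [] from trivial))
    rw [S9c_zP]
    exact ih

end MPb6M
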