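import Pool.Agent.Lib.MP_b6d339_lc.Mix.S8
import Pool.Agent.Lib.MP_b6d339_lc.Mix.S9b
import Pool.Agent.Lib.MP_b6d339_lc.Mix.S9c

open Ordinal

namespace MPb6M

open MPb6P (Valid Compat plr stL)

/-! # S9: the partition relation -/

/-- the game hypothesis (at least one infinite class) -/
theorem gameHyp_of_TT (hT : MPb6P.TT 3) : GameHyp := by
  intro d κ hd hd3 he _ hf ht C Gr
  obtain ⟨M, T, hfin, tmpl, lab, hb, hm, hc⟩ := hT
  let td : TD 3 := ⟨M, T, hfin, tmpl, lab, hb, hm, hc⟩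
  have hk : MixK 3 d κ := ⟨hd, hd3, he, hf, ht⟩
  rcases main (G := gmO hk C Gr td) (K := kvO hk C) trivial hex_of V_all_levels with h | h
  · left
    refine ⟨(gmO hk C Gr td).sys (kvO hk C), rfl, rfl, rfl, rfl, rfl, 0, ?_⟩
    exact V_blue h
  · right
    obtain ⟨x, y, v, h1, h2, h3⟩ := h
    exact ⟨x, y, v, all_blue h1, all_blue h3, all_blue h2⟩

/-- **The positive theorem for three summands**, each of them `1` or an epsilon number, from the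
templates `TT 3` and the case `1 + 1 + 1`. -/
theorem arrow_mix (hT : MPb6P.TT 3) (h111 : MPb6.Arrow3 (ω ^ (ω ^ (3 : Ordinal.{0}))))
    {g1 g2 g3 : Ordinal.{0}} (hc : g1.card ≤ Cardinal.aleph0) (h12 : g2 ≤ g1) (h23 : g3 ≤ g2)
    (h1 : g1 = 1 ∨ ω ^ g1 = g1) (h2 : g2 = 1 ∨ ω ^ g2 = g2) (h3 : g3 = 1 ∨ ω ^ g3 = g3) :
    MPb6.Arrow3 (ω ^ (ω ^ (g1 + g2 + g3))) :=
  arrow_of_gameHyp (gameHyp_of_TT hT) h111 hc h12 h23 h1 h2 h3

end MPb6M
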