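import Pool.Agent.Lib.MP_b6d339_lc.Mix.S8r
import Pool.Agent.Lib.MP_b6d339_lc.Mix.Ord5

open Ordinal

namespace MPb6M

open MPb6P (Valid Compat plr stL)

/-! # S9a: the geometric data of a graph -/

/-- the classes `1..d` are epsilon numbers, the classes `d + 1..D` are finite, the exit is `1` -/
structure MixK (D d : ℕ) (κ : ℕ → Ordinal.{0}) : Prop where
  hd : 1 ≤ d
  hdD : d ≤ D
  eps : ∀ j, 1 ≤ j → j ≤ d → ω ^ κ j = κ j
  fin : ∀ j, d < j → j ≤ D → κ j = ω
  top : κ (D + 1) = 1

section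
variable {D d : ℕ} {κ : ℕ → Ordinal.{0}}

theorem MixK.le_omega (hk : MixK D d κ) {f : ℕ} (h1 : d < f) (h2 : f ≤ D + 1) : κ f ≤ ω := by
  rcases Nat.lt_or_ge D f with h | h
  · obtain rfl : f = D + 1 := by omega
    rw [hk.top]
    exact one_lt_omega0.le
  · rw [hk.fin f h1 h]

theorem MixK.vec_fin (hk : MixK D d κ) (C : Cod (D + 1) κ) {f : ℕ} (h1 : d < f) (h2 : f ≤ D + 1)
    (n : ℕ) : C.vec n f < ω := by
  have hd := hk.hd
  exact (C.vec_lt n f (by omega) h2).trans_le (hk.le_omega h1 h2)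

theorem MixK.lev (hk : MixK D d κ) (C : Cod (D + 1) κ) {n : ℕ} (h1 : d < C.cls n)
    (h2 : C.cls n ≤ D + 1) : ((C.lev n : ℕ) : Ordinal.{0}) = C.vec n (C.cls n) := by
  obtain ⟨m, hm⟩ := lt_omega0.1 (hk.vec_fin C h1 h2 n)
  unfold Cod.lev
  rw [hm]
  simp

theorem co_rc (C : Cod (D + 1) κ) (n : ℕ) : co (C.rc d n) = C.cls n := by
  have := C.cls_le n
  unfold Cod.rc
  split_ifs with h1 h2
  · rfl
  · rfl
  · show D + 1 + 1 = C.cls n
    omega

theorem rc_ci (C : Cod (D + 1) κ) {n : ℕ} (h : C.cls n ≤ d) : C.rc d n = ci (C.cls n) := by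
  unfold Cod.rc
  rw [if_pos h]

theorem rc_cf (C : Cod (D + 1) κ) {n : ℕ} (h1 : d < C.cls n) (h2 : C.cls n ≤ D + 1) :
    C.rc d n = cf (C.cls n) (C.lev n) := by
  unfold Cod.rc
  rw [if_neg (by omega), if_pos h2]

theorem rc_lf (C : Cod (D + 1) κ) {n : ℕ} (hd : d ≤ D) (h : C.cls n = D + 2) :
    C.rc d n = ci (D + 2) := by
  unfold Cod.rc
  rw [if_neg (by omega), if_neg (by omega)]

/-- the last number of a complete path -/
theorem S9a_last (C : Cod (D + 1) κ) : ∀ (x : List ℕ) (p : Vec), C.okv p x →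
    (∃ n ∈ x, C.cls n = D + 2) → ∃ s n, x = s ++ [n] ∧ C.cls n = D + 2 ∧ ∀ m ∈ s, C.cls m ≤ D + 1
  | [], _, _, h => by simp at h
  | a :: x, p, hv, h => by
    rcases hv with ⟨h1, -, h3⟩ | ⟨h1, rfl⟩
    · have h4 : ∃ n ∈ x, C.cls n = D + 2 := by
        obtain ⟨n, hn, hn2⟩ := h
        rcases List.mem_cons.1 hn with rfl | hn
        · omega
        · exact ⟨n, hn, hn2⟩
      obtain ⟨s, n, rfl, h6, h7⟩ := S9a_last C x _ h3 h4
      refine ⟨a :: s, n, rfl, h6, ?_⟩
      intro m hm
      rcases List.mem_cons.mp hm with rfl | hm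
      · exact h1
      · exact h7 m hm
    · exact ⟨[], a, rfl, h1, by simp⟩

/-- the first number -/
theorem S9a_first (hk : MixK D d κ) (C : Cod (D + 1) κ) {n : ℕ} {s : List ℕ}
    (h : C.Val (n :: s)) : (C.cls n = D + 1 ∧ C.rc d n = cf (D + 1) 0 ∧
      C.okv (C.upd (rootV (D + 1) κ) n) s ∧ C.vec n (D + 1) = 0) ∨ (C.cls n = D + 2 ∧ s = []) := by
  rcases h with ⟨h1, h2, h3⟩ | h
  · left
    have h4 : C.cls n = D + 1 := by
      by_contra hne
      rw [rootV, if_neg hne] at h2
      exact absurd h2 (not_lt.2 zero_le)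
    rw [h4, rootV, if_pos rfl, hk.top, Order.lt_one_iff] at h2
    refine ⟨h4, ?_, h3, h2⟩
    have hdD := hk.hdD
    rw [rc_cf C (by omega) h1, h4]
    congr 1
    unfold Cod.lev
    rw [h4, h2]
    simp
  · exact Or.inr h

theorem S9a_noexit (C : Cod (D + 1) κ) : ∀ (s : List ℕ) (q : Vec), C.okv q s → q (D + 1) = 0 →
    ∀ m ∈ s, C.cls m ≠ D + 1
  | [], _, _, _ => by simp
  | a :: s, q, h, hq => by
    intro m hm
    rcases h with ⟨h1, h2, h3⟩ | ⟨h1, rfl⟩
    · have h4 : C.cls a ≠ D + 1 := by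
        intro h
        rw [h, hq] at h2
        exact absurd h2 (not_lt.2 zero_le)
      rcases List.mem_cons.1 hm with rfl | hm
      · exact h4
      · refine S9a_noexit C s _ h3 ?_ m hm
        show (if D + 1 ≤ C.cls a then _ else _) = _
        rw [if_neg (by omega)]
        exact hq
    · rcases List.mem_cons.1 hm with rfl | hm
      · omega
      · simp at hm

/-- a coordinate does not increase below a larger class -/
theorem S9a_dec (C : Cod (D + 1) κ) {f : ℕ} : ∀ (s : List ℕ) (q : Vec) (r : List ℕ), r ≠ [] →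
    C.okv q (s ++ r) → (∀ m ∈ s, C.cls m ≤ f) → C.phys q s f ≤ q f
  | [], _, _, _, _, _ => le_rfl
  | a :: s, q, r, hr, h, hs => by
    rcases h with ⟨h1, h2, h3⟩ | ⟨-, h2⟩
    · have h4 := S9a_dec C s (C.upd q a) r hr h3 (fun m hm => hs m (List.mem_cons_of_mem _ hm))
      refine h4.trans ?_
      show (if f ≤ C.cls a then _ else _) ≤ _
      have h5 := hs a List.mem_cons_self
      split_ifs with h6
      · obtain rfl : f = C.cls a := le_antisymm h6 h5
        exact h2.le
      · exact le_rfl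
    · simp [hr] at h2

theorem S9a_val_dec (hk : MixK D d κ) (C : Cod (D + 1) κ) {x : List ℕ} (hx : C.Leaf x)
    {s1 s2 s3 : List ℕ} {n n' : ℕ} (h : x = s1 ++ n :: (s2 ++ n' :: s3))
    (h1 : d < co (C.rc d n)) (h2 : co (C.rc d n') = co (C.rc d n))
    (h3 : ∀ m ∈ s2, co (C.rc d m) ≤ co (C.rc d n)) : C.rc d n < C.rc d n' := by
  subst h
  rw [co_rc] at h1 h2
  rw [co_rc] at h2
  have hv := C.okv_append s1 _ (n :: (s2 ++ n' :: s3)) (by simp) hx.1
  rcases hv with ⟨q1, -, q3⟩ | ⟨-, q2⟩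
  · have h4 : ∀ m ∈ s2, C.cls m ≤ C.cls n := by
      intro m hm
      have := h3 m hm
      rwa [co_rc, co_rc] at this
    have h5 := S9a_dec C s2 _ (n' :: s3) (by simp) q3 h4
    have h6 := C.okv_append s2 _ (n' :: s3) (by simp) q3
    have h7 : C.vec n' (C.cls n) < C.vec n (C.cls n) := by
      rcases h6 with ⟨-, h8, -⟩ | ⟨h8, -⟩
      · rw [h2] at h8
        refine h8.trans_le (h5.trans (le_of_eq ?_))
        show (if C.cls n ≤ C.cls n then _ else _) = _
        rw [if_pos le_rfl]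
      · omega
    rw [rc_cf C h1 q1, rc_cf C (by omega) (by omega), h2, cf_lt]
    have e1 := hk.lev C h1 q1
    have e2 := hk.lev C (n := n') (by omega) (by omega)
    rw [h2] at e2
    rw [← e1, ← e2] at h7
    exact_mod_cast h7
  · simp at q2

/-- the class of a segment: the level is below the need -/
theorem S9a_seg (hk : MixK D d κ) (C : Cod (D + 1) κ) : ∀ (r : List ℕ) (q : Vec), C.okv q r →
    (∃ j ≤ D + 2, clf (C.rc d) r = ci j) ∨
      ∃ f i, d < f ∧ f ≤ D + 1 ∧ clf (C.rc d) r = cf f i ∧ ((i : ℕ) : Ordinal.{0}) < q f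
  | [], _, _ => Or.inl ⟨0, by omega, rfl⟩
  | a :: r, q, h => by
    have hc : clf (C.rc d) (a :: r) = max (C.rc d a) (clf (C.rc d) r) := rfl
    rcases h with ⟨h1, h2, h3⟩ | ⟨h1, rfl⟩
    · rcases max_choice (C.rc d a) (clf (C.rc d) r) with h4 | h4
      · rw [hc, h4]
        rcases Nat.lt_or_ge d (C.cls a) with h5 | h5
        · right
          refine ⟨_, _, h5, h1, rc_cf C h5 h1, ?_⟩
          rw [hk.lev C h5 h1]
          exact h2
        · left
          exact ⟨_, by omega, rc_ci C h5⟩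
      · rcases S9a_seg hk C r _ h3 with ⟨j, hj, h5⟩ | ⟨f, i, h5, h6, h7, h8⟩
        · left
          exact ⟨j, hj, by rw [hc, h4, h5]⟩
        · right
          refine ⟨f, i, h5, h6, by rw [hc, h4, h7], ?_⟩
          have h9 : C.rc d a ≤ cf f i := by
            rw [← h7]
            exact max_eq_right_iff.1 h4
          have h10 : C.cls a ≤ f := by
            have := co_mono h9
            rwa [co_rc] at this
          have h8' : ((i : ℕ) : Ordinal.{0}) < if f ≤ C.cls a then C.vec a f else q f := h8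
          split_ifs at h8' with h11
          · obtain rfl : f = C.cls a := le_antisymm h11 h10
            exact h8'.trans h2
          · exact h8'
    · left
      refine ⟨D + 2, le_rfl, ?_⟩
      rw [hc, rc_lf C hk.hdD h1]
      exact max_eq_left (ci_le.2 (Nat.zero_le _))

theorem S9a_phys_fin (hk : MixK D d κ) (C : Cod (D + 1) κ) {f : ℕ} (h1 : d < f)
    (h2 : f ≤ D + 1) : ∀ (a : List ℕ) (q : Vec), q f < ω → C.phys q a f < ω
  | [], _, h => h
  | m :: a, q, h => by
    refine S9a_phys_fin hk C h1 h2 a _ ?_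
    show (if f ≤ C.cls m then _ else _) < _
    split_ifs
    · exact hk.vec_fin C h1 h2 m
    · exact h

theorem S9a_okv_left (C : Cod (D + 1) κ) : ∀ (r r' : List ℕ) (q : Vec), C.okv q (r ++ r') →
    C.okv q r
  | [], _, _, _ => trivial
  | a :: r, r', q, h => by
    rcases h with ⟨h1, h2, h3⟩ | ⟨h1, h2⟩
    · exact Or.inl ⟨h1, h2, S9a_okv_left C r r' _ h3⟩
    · exact Or.inr ⟨h1, (List.append_eq_nil_iff.1 h2).1⟩

theorem S9a_val_fin (hk : MixK D d κ) (C : Cod (D + 1) κ) (a : Nd) :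
    {c : Cl | ∃ x B b, C.Leaf x ∧ tr x B = a ∧ c = kl (C.rc d) x B b}.Finite := by
  have hd := hk.hd
  have hq : ∀ f, ∃ N : ℕ, d < f → f ≤ D + 1 → C.phys (rootV (D + 1) κ) a f = N := by
    intro f
    by_cases hf : d < f ∧ f ≤ D + 1
    · have h1 : C.phys (rootV (D + 1) κ) a f < ω := by
        refine S9a_phys_fin hk C hf.1 hf.2 a _ ?_
        unfold rootV
        split_ifs
        · rw [hk.top]; exact one_lt_omega0
        · exact omega0_pos
      obtain ⟨N, hN⟩ := lt_omega0.1 h1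
      exact ⟨N, fun _ _ => hN⟩
    · exact ⟨0, fun h1 h2 => absurd ⟨h1, h2⟩ hf⟩
  choose N hN using hq
  refine Set.Finite.subset (s := (↑((Finset.range (D + 3)).image ci) ∪
    ⋃ f ∈ Finset.range (D + 2), ↑((Finset.range (N f)).image (cf f)) : Set Cl)) ?_ ?_
  · refine (Finset.finite_toSet _).union ?_
    exact Set.Finite.biUnion (Finset.finite_toSet _) (fun f _ => Finset.finite_toSet _)
  · rintro c ⟨x, B, b, ⟨hv, hi, -⟩, htr, rfl⟩
    have key : ∀ r, tr x b = a ++ r → B ≤ b → kl (C.rc d) x B b = clf (C.rc d) r := by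
      intro r hr hb
      have h1 : ∀ n ∈ a, n ≤ B := fun n hn => by
        rw [← htr] at hn
        exact tr_le hn
      have h2 : ∀ n ∈ r, B < n := by
        intro n hn
        have h3 : (a ++ r).Pairwise (· < ·) := by
          rw [← hr]
          exact hi.sublist (tr_prefix x b).sublist
        by_contra hle
        have h4 : n ∈ tr x B := (mem_tr hi).2 ⟨(tr_prefix x b).subset (by rw [hr]; simp [hn]), by omega⟩
        rw [htr] at h4
        have := (List.pairwise_append.1 h3).2.2 n h4 n hn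
        omega
      exact kl_tr hi hr h1 h2
    rcases Nat.lt_or_ge b B with hb | hb
    · left
      have h1 : kl (C.rc d) x B b = ci 0 := kl_none (fun n _ hn => by omega)
      rw [h1]
      simp
    · obtain ⟨r, hr⟩ : ∃ r, tr x b = a ++ r := by
        have h1 : tr (tr x b) B = tr x B := tr_tr x hb
        obtain ⟨r, hr⟩ := tr_prefix (tr x b) B
        rw [h1, htr] at hr
        exact ⟨r, hr.symm⟩
      rw [key r hr hb]
      obtain ⟨x2, hx2⟩ := tr_prefix x b
      have hov : C.okv (C.phys (rootV (D + 1) κ) a) r := by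
        rcases eq_or_ne r [] with rfl | hr0
        · trivial
        · refine C.okv_append a _ r hr0 ?_
          rw [← hr]
          refine S9a_okv_left C _ x2 _ ?_
          rw [hx2]
          exact hv
      rcases S9a_seg hk C r _ hov with ⟨j, hj, h5⟩ | ⟨f, i, h5, h6, h7, h8⟩
      · left
        rw [h5]
        simp only [Finset.coe_image, Set.mem_image, Finset.coe_range, Set.mem_Iio]
        exact ⟨j, by omega, rfl⟩
      · right
        rw [h7]
        simp only [Set.mem_iUnion, Finset.coe_image, Set.mem_image, Finset.mem_range,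
          Finset.coe_range, Set.mem_Iio]
        rw [hN f h5 h6] at h8
        exact ⟨f, by omega, i, by exact_mod_cast h8, rfl⟩

/-- the geometric data of a coding and a graph -/
noncomputable def gmO (hk : MixK D d κ) (C : Cod (D + 1) κ)
    (Gr : SimpleGraph (ω ^ kpi κ (D + 1) : Ordinal.{0}).ToType) (td : TD D) : Gm where
  D := D
  d := d
  hd := hk.hd
  hdD := hk.hdD
  cls := C.rc d
  cls_ok := rc_ok C
  val := C.Leaf
  val_hd := by
    rintro x ⟨hv, -, h3⟩
    cases x with
    | nil => simp at h3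
    | cons n s =>
      rcases S9a_first hk C hv with ⟨h4, h5, h6, h7⟩ | ⟨-, rfl⟩
      · right
        refine ⟨n, s, rfl, h5, ?_⟩
        intro m hm
        rw [co_rc]
        refine S9a_noexit C s _ h6 ?_ m hm
        show (if D + 1 ≤ C.cls n then _ else _) = _
        rw [if_pos (by omega), h7]
      · exact Or.inl ⟨n, rfl⟩
  val_last := by
    rintro x ⟨hv, -, h3⟩
    obtain ⟨s, n, h4, h5, h6⟩ := S9a_last C x _ hv h3
    refine ⟨s, n, h4, rc_lf C hk.hdD h5, fun m hm => ?_⟩
    refine lt_of_co ?_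
    rw [co_rc, co_ci]
    have := h6 m hm
    omega
  val_dec := fun x hx s1 s2 s3 n n' h h1 h2 h3 => S9a_val_dec hk C hx h h1 h2 h3
  val_fin := S9a_val_fin hk C
  blue := fun x y => Gr.Adj (C.pt x) (C.pt y)
  td := td

/-- the ordinals and the valid nodes of the coding -/
noncomputable def kvO (hk : MixK D d κ) (C : Cod (D + 1) κ) : KV d where
  κ := κ
  hκ := fun j h1 h2 => eps_lim (hk.eps j h1 h2)
  hz := fun j h1 h2 => eps_z (hk.eps j h1 h2)
  Val := C.Val

variable {hk : MixK D d κ} {C : Cod (D + 1) κ}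
  {Gr : SimpleGraph (ω ^ kpi κ (D + 1) : Ordinal.{0}).ToType} {td : TD D}

/-- pairs of `All` are blue pairs -/
theorem all_blue {π : Pr} (h : π ∈ (gmO hk C Gr td).All) : π ∈ bluePairs C Gr := by
  obtain ⟨h1, h2, h3, -⟩ := h
  exact ⟨h1.val, h2.val, h3⟩

/-- a complete path with positive numbers is a leaf -/
theorem leaf_of {x : List ℕ} (h : C.Leaf x) (h0 : ∀ n ∈ x, 0 < n) :
    (gmO hk C Gr td).Leaf x := ⟨h.2.1, h0, h⟩

/-- the class of every nonempty node is at least the exit -/
theorem hex_of (e : Nd) (h : (kvO hk C).Val e) (he : e ≠ []) :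
    cf (((gmO hk C Gr td).sys (kvO hk C)).m) 0 ≤ ((gmO hk C Gr td).sys (kvO hk C)).cl e := by
  cases e with
  | nil => exact absurd rfl he
  | cons n s =>
    show cf (D + 1) 0 ≤ max (C.rc d n) _
    refine le_trans ?_ (le_max_left _ _)
    rcases S9a_first hk C h with ⟨-, h5, -, -⟩ | ⟨h5, -⟩
    · exact h5.ge
    · rw [rc_lf C hk.hdD h5]
      exact (cf_lt_ci (by omega)).le

theorem conc_of (hK : ω ≤ kpi κ (D + 1)) :
    Conc ((gmO hk C Gr td).sys (kvO hk C)) (κ := κ) C where
  inf := fun _ _ _ => rfl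
  fin := fun j h1 h2 => hk.fin j h1 (Nat.lt_succ_iff.1 h2)
  top := hk.top
  K := hK
  cls := rfl
  Val := rfl

theorem S9a_kpi (hk : MixK D d κ) : ω ≤ kpi κ (D + 1) := by
  have hd := hk.hd
  have hdD := hk.hdD
  have hpos : ∀ j, 1 ≤ j → j ≤ D + 1 → 0 < κ j := by
    intro j h1 h2
    rcases Nat.lt_or_ge d j with h | h
    · rcases Nat.lt_or_ge D j with h' | h'
      · obtain rfl : j = D + 1 := by omega
        rw [hk.top]
        exact zero_lt_one
      · rw [hk.fin j h h']
        exact omega0_pos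
    · exact omega0_pos.trans_le (eps_omega_le (hk.eps j h1 h))
  exact omega_le_kpi hpos (k := 1) le_rfl (by omega) (eps_omega_le (hk.eps 1 le_rfl hd))

end

end MPb6M
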